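import Pool.Agent.P.MP_064970_gt.SC

/-! Case I, row ANG. Sketch:
Flat clauses: u = diagonal (IsRef.exists_diag, signs 1,-1 resp. 1,1); the points c + (s/2)u +-
(beta s/16) n lie in ball c s, have margins > omega s, so lie in W (resp. W'); one of them has
|<x-c,n>| >= beta s/16 > delta s; use M.disj. Cross clause: fix i, w from IsRef.exists_tan, v_t =
(s/4)(w + t e3), t in {-1,0,1}. The points c + v_t +- 2 omega s nu_i are on opposite sides (Near),
M.exists_cross gives x in S between them, Cross.near_plane gives |<v_t,a>| <= m s or |<v_t,b>| <=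
m s, m = delta + 2 omega. Two of the three t have the same normal, say a: |a 2| <= 8m, |<w,a>| <=
12m, wedge(a,nu_i)^2 = (a 2)^2 + <w,a>^2, so wedge <= 15 m <= 30(omega+delta) and a or -a is
within 60(omega+delta) of nu_i (norm_sub_le_wedge). Both nu_i cannot get the same normal
(IsRef.not_both). Opposite signs are excluded at c + (s/2)u (in W by Near, in W' by Cross.pat).
Finish with Cross.symm, Cross.neg. -/

open MeasureTheory Set Filter Topology Metric
open scoped RealInnerProductSpace ENNReal ComplexConjugate Real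

noncomputable section

namespace MW.CI

namespace ANG

variable {M : Surf} {β ω δ s : ℝ} {ν : Bool → E} {c a b : E}

theorem nearv (h : Near M ν ω c s) (i : Bool) {v : E} (hv : ‖v‖ < s)
    (h1 : ω * s < |⟪v, ν i⟫|) (h2 : ω * s < |⟪v, ν (!i)⟫|) :
    (⟪v, ν i⟫ * ⟪v, ν (!i)⟫ < 0 → c + v ∈ M.W) ∧ (0 < ⟪v, ν i⟫ * ⟪v, ν (!i)⟫ → c + v ∈ M.W') := by
  have h3 := h (c + v) (by rwa [mem_ball_iff_norm, add_sub_cancel_left])
  rw [add_sub_cancel_left] at h3
  cases i
  · exact h3 h1 h2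
  · rw [mul_comm]
    exact h3 h2 h1

theorem abs_inner_le {x y : E} (hx : ‖x‖ = 1) (hy : ‖y‖ = 1) : |⟪x, y⟫| ≤ 1 := by
  have h := abs_real_inner_le_norm x y
  rwa [hx, hy, mul_one] at h

theorem norm_comb {x y : E} (hx : ‖x‖ = 1) (hy : ‖y‖ = 1) (k l : ℝ) :
    ‖k • x + l • y‖ ≤ |k| + |l| := by
  refine (norm_add_le _ _).trans ?_
  rw [norm_smul, norm_smul, hx, hy, mul_one, mul_one, Real.norm_eq_abs, Real.norm_eq_abs]

/-- A point of a sector away from a given plane. -/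
theorem diag (hν : IsRef β ν) (hs : 0 < s) (hω : 0 < ω) (hδ : 0 < δ) (h : ω + δ ≤ β / 1000)
    {t : ℝ} (ht : t = 1 ∨ t = -1) {n : E} (hn : ‖n‖ = 1) :
    ∃ v : E, ‖v‖ < s ∧ δ * s < |⟪v, n⟫| ∧ ω * s < ⟪v, ν false⟫ ∧ ω * s < t * ⟪v, ν true⟫ := by
  obtain ⟨u, hu, h1, h2⟩ := hν.exists_diag (Or.inl rfl) ht
  have hβ := hν.pos
  have hβ1 := hν.le_one
  have b1 := abs_le.1 (abs_inner_le hn (hν.unit false))
  have b2 : -1 ≤ t * ⟪n, ν true⟫ ∧ t * ⟪n, ν true⟫ ≤ 1 := by
    have b3 := abs_le.1 (abs_inner_le hn (hν.unit true))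
    rcases ht with rfl | rfl <;> constructor <;> linarith [b3.1, b3.2]
  have p0 : 0 < β * s := mul_pos hβ hs
  have p1 : δ * s ≤ β * s / 1000 := by nlinarith
  have p2 : ω * s ≤ β * s / 1000 := by nlinarith
  have p3 : β * s ≤ s := by nlinarith
  have p4 := mul_le_mul_of_nonneg_left h1 hs.le
  have p5 := mul_le_mul_of_nonneg_left h2 hs.le
  have key : ∀ l : ℝ, |l| = β * s / 16 → ‖(s / 2) • u + l • n‖ < s ∧
      ω * s < ⟪(s / 2) • u + l • n, ν false⟫ ∧ ω * s < t * ⟪(s / 2) • u + l • n, ν true⟫ :=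
    fun l hl => by
    have q1 := norm_comb hu hn (s / 2) l
    rw [abs_of_pos (half_pos hs), hl] at q1
    have q2 : |l * ⟪n, ν false⟫| ≤ β * s / 16 := by
      rw [abs_mul, hl]
      exact mul_le_of_le_one_right (by positivity) (abs_le.2 b1)
    have q3 : |l * (t * ⟪n, ν true⟫)| ≤ β * s / 16 := by
      rw [abs_mul, hl]
      exact mul_le_of_le_one_right (by positivity) (abs_le.2 b2)
    simp only [inner_add_left, real_inner_smul_left]
    refine ⟨by linarith, by linarith [(abs_le.1 q2).1], by linarith [(abs_le.1 q3).1]⟩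
  have e : ∀ l : ℝ, ⟪(s / 2) • u + l • n, n⟫ = s / 2 * ⟪u, n⟫ + l := fun l => by
    rw [inner_add_left, real_inner_smul_left, real_inner_smul_left, real_inner_self_eq_norm_sq, hn]
    ring
  rcases le_total 0 ⟪u, n⟫ with h0 | h0
  · obtain ⟨k1, k2, k3⟩ := key (β * s / 16) (abs_of_pos (by positivity))
    refine ⟨_, k1, lt_abs.2 (Or.inl ?_), k2, k3⟩
    rw [e]
    linarith [mul_nonneg hs.le h0]
  · obtain ⟨k1, k2, k3⟩ := key (-(β * s / 16)) (by rw [abs_neg, abs_of_pos (by positivity)])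
    refine ⟨_, k1, lt_abs.2 (Or.inr ?_), k2, k3⟩
    rw [e]
    linarith [mul_nonneg hs.le (neg_nonneg.2 h0)]

theorem le_div (hs : 0 < s) (hδ : 0 < δ) (hδ1 : δ ≤ 1) : s ≤ s / δ := by
  rw [le_div_iff₀ hδ]
  nlinarith

/-- The surface passes near a point of the reference plane. -/
theorem probe (hM : M.Mem) (hν : IsRef β ν) (hs : 0 < s) (hω : 0 < ω) (hδ : 0 < δ)
    (h : ω + δ ≤ β / 1000) (hN : Near M ν ω c s) (hC : M.Cross c s δ a b) {i : Bool} {z : E}
    (hz : ‖z‖ ≤ 2) (h1 : ⟪z, ν i⟫ = 0) (h2 : β ≤ ⟪z, ν (!i)⟫) :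
    |⟪z, a⟫| ≤ 8 * (ω + δ) ∨ |⟪z, b⟫| ≤ 8 * (ω + δ) := by
  have hβ := hν.pos
  have hβ1 := hν.le_one
  have p0 : 0 < ω * s := mul_pos hω hs
  have p2 : ω * s ≤ β * s / 1000 := by nlinarith
  have p3 : β * s ≤ s := by nlinarith
  have p4 := mul_le_mul_of_nonneg_left h2 hs.le
  have b1 := abs_le.1 (abs_inner_le (hν.unit i) (hν.unit (!i)))
  have n1 : ‖(s / 4) • z‖ ≤ s / 2 := by
    rw [norm_smul, Real.norm_eq_abs, abs_of_pos (by positivity)]
    nlinarith
  have key : ∀ l : ℝ, |l| = 2 * (ω * s) → ‖l • ν i‖ = 2 * (ω * s) ∧ ‖(s / 4) • z + l • ν i‖ < s ∧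
      ⟪(s / 4) • z + l • ν i, ν i⟫ = l ∧ ω * s < ⟪(s / 4) • z + l • ν i, ν (!i)⟫ := fun l hl => by
    have q1 : ‖l • ν i‖ = 2 * (ω * s) := by
      rw [norm_smul, hν.unit, mul_one, Real.norm_eq_abs, hl]
    have q2 : |l * ⟪ν i, ν (!i)⟫| ≤ 2 * (ω * s) := by
      rw [abs_mul, hl]
      exact mul_le_of_le_one_right (by positivity) (abs_le.2 b1)
    refine ⟨q1, by linarith [norm_add_le ((s / 4) • z) (l • ν i)], ?_, ?_⟩
    · rw [inner_add_left, real_inner_smul_left, real_inner_smul_left, h1,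
        real_inner_self_eq_norm_sq, hν.unit]
      ring
    · rw [inner_add_left, real_inner_smul_left, real_inner_smul_left]
      linarith [(abs_le.1 q2).1]
  have l1 : |2 * (ω * s)| = 2 * (ω * s) := abs_of_pos (by positivity)
  have l2 : |-(2 * (ω * s))| = 2 * (ω * s) := by rw [abs_neg, l1]
  obtain ⟨k0, k1, k2, k3⟩ := key _ l1
  obtain ⟨m0, m1, m2, m3⟩ := key _ l2
  have hW' := (nearv hN i k1 (by rw [k2, l1]; linarith) (k3.trans_le (le_abs_self _))).2
    (by rw [k2]; exact mul_pos (by positivity) (p0.trans k3))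
  have hW := (nearv hN i m1 (by rw [m2, l2]; linarith) (m3.trans_le (le_abs_self _))).1
    (by rw [m2]; exact mul_neg_of_neg_of_pos (by linarith) (p0.trans m3))
  obtain ⟨x, hx, hS⟩ := M.exists_cross (hM.sub _) hW hW'
  have hx' : x ∈ closedBall (c + (s / 4) • z) (2 * (ω * s)) := by
    refine (convex_closedBall _ _).segment_subset ?_ ?_ hx
    · rw [mem_closedBall_iff_norm, ← add_assoc, add_sub_cancel_left, m0]
    · rw [mem_closedBall_iff_norm, ← add_assoc, add_sub_cancel_left, k0]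
  rw [mem_closedBall_iff_norm] at hx'
  have e : x - c = (s / 4) • z + (x - (c + (s / 4) • z)) := by abel
  have hb : x ∈ ball c (s / δ) := by
    rw [mem_ball_iff_norm, e]
    linarith [norm_add_le ((s / 4) • z) (x - (c + (s / 4) • z)), le_div hs hδ (by linarith)]
  have fin : ∀ n : E, ‖n‖ = 1 → |⟪x - c, n⟫| ≤ δ * s → |⟪z, n⟫| ≤ 8 * (ω + δ) := fun n hn h3 => by
    have h4 := abs_real_inner_le_norm (x - (c + (s / 4) • z)) n
    rw [hn, mul_one] at h4
    rw [e, inner_add_left, real_inner_smul_left] at h3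
    have h5 : |s / 4 * ⟪z, n⟫| ≤ δ * s + 2 * (ω * s) := by
      have h6 := abs_le.1 h3
      have h7 := abs_le.1 (h4.trans hx')
      rw [abs_le]
      constructor <;> linarith [h6.1, h6.2, h7.1, h7.2]
    rw [abs_mul, abs_of_pos (by positivity : 0 < s / 4)] at h5
    refine le_of_mul_le_mul_left ?_ hs
    linarith [mul_pos hδ hs]
  exact (hC.near_plane ⟨hS, hb⟩).imp (fin a hC.unit₁) (fin b hC.unit₂)

theorem wedge_le (hν : IsRef β ν) {i : Bool} {w x : E} (hw : ‖w‖ = 1) (h2 : w 2 = 0)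
    (h1 : ⟪w, ν i⟫ = 0) {m : ℝ} (h3 : |⟪w, x⟫| ≤ m) (h4 : |x 2| ≤ 2 * m) :
    wedge x (ν i) ≤ 4 * m := by
  have hm : 0 ≤ m := (abs_nonneg _).trans h3
  have h5 := gram (β := 1) hw norm_e3 (hν.unit i) h1 (by rw [e3_inner]; exact hν.hor i)
    (by rw [inner_e3, h2]; norm_num) x
  rw [inner_e3, real_inner_comm w x] at h5
  have h6 := pow_le_pow_left₀ (abs_nonneg _) h3 2
  have h7 := pow_le_pow_left₀ (abs_nonneg _) h4 2
  rw [sq_abs] at h6 h7
  refine (abs_le_of_sq_le_sq' ?_ (by positivity)).2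
  unfold wedge
  nlinarith [sq_nonneg m]

/-- Each reference normal is close to one of the two lines. -/
theorem which (hM : M.Mem) (hν : IsRef β ν) (hs : 0 < s) (hω : 0 < ω) (hδ : 0 < δ)
    (h : ω + δ ≤ β / 1000) (hN : Near M ν ω c s) (hC : M.Cross c s δ a b) (i : Bool) :
    wedge a (ν i) ≤ 32 * (ω + δ) ∨ wedge b (ν i) ≤ 32 * (ω + δ) := by
  obtain ⟨w, hw, h2, h1, h3⟩ := hν.exists_tan i
  have key : ∀ t : ℝ, |t| ≤ 1 →
      |⟪w, a⟫ + t * a 2| ≤ 8 * (ω + δ) ∨ |⟪w, b⟫ + t * b 2| ≤ 8 * (ω + δ) := fun t ht => by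
    have e : ∀ n : E, ⟪w + t • e3, n⟫ = ⟪w, n⟫ + t * n 2 := fun n => by
      rw [inner_add_left, real_inner_smul_left, e3_inner]
    have h4 := norm_comb hw norm_e3 1 t
    rw [one_smul, abs_one] at h4
    rw [← e, ← e]
    exact probe hM hν hs hω hδ h hN hC (i := i) (by linarith)
      (by rw [e, h1, hν.hor]; ring) (by rw [e, hν.hor]; linarith)
  have fin : ∀ x : E, |⟪w, x⟫| ≤ 8 * (ω + δ) ∧ |x 2| ≤ 2 * (8 * (ω + δ)) →
      wedge x (ν i) ≤ 32 * (ω + δ) := fun x hx =>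
    (wedge_le hν hw h2 h1 hx.1 hx.2).trans_eq (by ring)
  have k1 := key (-1) (by norm_num)
  have k2 := key 0 (by norm_num)
  have k3 := key 1 (by norm_num)
  simp only [abs_le] at k1 k2 k3 fin
  rcases k1 with k1 | k1 <;> rcases k2 with k2 | k2 <;> rcases k3 with k3 | k3 <;>
    first
    | exact Or.inl (fin a ⟨⟨by linarith [k1.1, k2.1, k3.1], by linarith [k1.2, k2.2, k3.2]⟩,
        by linarith [k1.1, k2.1, k3.1, k1.2, k2.2, k3.2],
        by linarith [k1.1, k2.1, k3.1, k1.2, k2.2, k3.2]⟩)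
    | exact Or.inr (fin b ⟨⟨by linarith [k1.1, k2.1, k3.1], by linarith [k1.2, k2.2, k3.2]⟩,
        by linarith [k1.1, k2.1, k3.1, k1.2, k2.2, k3.2],
        by linarith [k1.1, k2.1, k3.1, k1.2, k2.2, k3.2]⟩)

theorem sign {x n : E} (hx : ‖x‖ = 1) (hn : ‖n‖ = 1) {k : ℝ} (h : wedge x n ≤ k) :
    ‖x - n‖ ≤ 2 * k ∨ ‖-x - n‖ ≤ 2 * k := by
  rcases le_total 0 ⟪x, n⟫ with h0 | h0
  · exact Or.inl (by linarith [norm_sub_le_wedge hx hn h0])
  · have h1 := norm_sub_le_wedge (a := -x) (by rwa [norm_neg]) hn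
      (by rw [inner_neg_left]; linarith)
    rw [wedge_neg_left] at h1
    exact Or.inr (by linarith)

/-- Opposite signs are impossible. -/
theorem opp (hν : IsRef β ν) (hs : 0 < s) (hω : 0 < ω) (hδ : 0 < δ) (h : ω + δ ≤ β / 1000)
    (hN : Near M ν ω c s) (hC : M.Cross c s δ a b) (h1 : ‖a - ν false‖ ≤ 2 * (32 * (ω + δ)))
    (h2 : ‖-b - ν true‖ ≤ 2 * (32 * (ω + δ))) : False := by
  obtain ⟨u, hu, u1, u2⟩ := hν.exists_diag (Or.inl rfl) (Or.inl rfl)
  have hβ := hν.pos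
  have hβ1 := hν.le_one
  have a1 := abs_inner_sub_le u a (ν false)
  have a2 := abs_inner_sub_le u (-b) (ν true)
  rw [hu, one_mul] at a1 a2
  rw [inner_neg_right] at a2
  have a3 := (abs_le.1 (a1.trans h1)).1
  have a4 := (abs_le.1 (a2.trans h2)).1
  have n1 : ‖(s / 2) • u‖ < s := by
    rw [norm_smul, hu, mul_one, Real.norm_eq_abs, abs_of_pos (half_pos hs)]
    linarith
  have q : ∀ {k r : ℝ}, 2 * k < r → k * s < s / 2 * r := fun hk => by nlinarith
  have p0 := mul_pos hω hs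
  have p1 := mul_pos hδ hs
  have q1 : ω * s < ⟪(s / 2) • u, ν false⟫ := by rw [real_inner_smul_left]; exact q (by linarith)
  have q2 : ω * s < ⟪(s / 2) • u, ν true⟫ := by rw [real_inner_smul_left]; exact q (by linarith)
  have q3 : δ * s < ⟪(s / 2) • u, a⟫ := by rw [real_inner_smul_left]; exact q (by linarith)
  have q4 : δ * s < -⟪(s / 2) • u, b⟫ := by
    rw [real_inner_smul_left, ← mul_neg]; exact q (by linarith)
  have hW' := (nearv hN false n1 (q1.trans_le (le_abs_self _)) (q2.trans_le (le_abs_self _))).2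
    (mul_pos (p0.trans q1) (p0.trans q2))
  have hW := hC.pat (c + (s / 2) • u) (by
    rw [mem_ball_iff_norm, add_sub_cancel_left]
    exact n1.trans_le (le_div hs hδ (by linarith)))
  rw [add_sub_cancel_left] at hW
  exact disjoint_left.1 M.disj ((hW (q3.trans_le (le_abs_self _)) (q4.trans_le (neg_le_abs _))).1
    (mul_neg_of_pos_of_neg (p1.trans q3) (by linarith))) hW'

theorem fin (hν : IsRef β ν) (hs : 0 < s) (hω : 0 < ω) (hδ : 0 < δ) (h : ω + δ ≤ β / 1000)
    (hN : Near M ν ω c s) (hC : M.Cross c s δ a b) (h1 : wedge a (ν false) ≤ 32 * (ω + δ))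
    (h2 : wedge b (ν true) ≤ 32 * (ω + δ)) :
    ∃ ν' : Bool → E, (∀ i, ‖ν' i - ν i‖ ≤ 100 * (ω + δ)) ∧
      ∀ (p : E) (ρ δ' : ℝ), M.Cross p ρ δ' a b → M.Cross p ρ δ' (ν' false) (ν' true) := by
  rcases sign hC.unit₁ (hν.unit _) h1 with k1 | k1 <;>
    rcases sign hC.unit₂ (hν.unit _) h2 with k2 | k2
  · refine ⟨fun i => cond i b a, fun i => ?_, fun _ _ _ H => H⟩
    cases i
    · exact k1.trans (by linarith)
    · exact k2.trans (by linarith)
  · exact (opp hν hs hω hδ h hN hC k1 k2).elim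
  · exact (opp hν hs hω hδ h hN hC.neg k1 (by rwa [neg_neg])).elim
  · refine ⟨fun i => cond i (-b) (-a), fun i => ?_, fun _ _ _ H => H.neg⟩
    cases i
    · exact k1.trans (by linarith)
    · exact k2.trans (by linarith)

end ANG

open ANG in
theorem c_ang_of : C_ANG := by
  intro M β ω δ s ν c hM hν hs hω hδ h hN
  have p0 := mul_pos hω hs
  have hβ := hν.pos
  refine ⟨fun n hn H => ?_, fun n hn H => ?_, fun a b hC => ?_⟩
  · obtain ⟨v, h1, h2, h3, h4⟩ := diag hν hs hω hδ h (Or.inr rfl) hn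
    rw [neg_one_mul] at h4
    refine disjoint_left.1 M.disj ((nearv hN false h1 (h3.trans_le (le_abs_self _))
      (h4.trans_le (neg_le_abs _))).1 (mul_neg_of_pos_of_neg (p0.trans h3)
        (neg_pos.1 (p0.trans h4)))) (H _ ?_ ?_)
    · rwa [mem_ball_iff_norm, add_sub_cancel_left]
    · rwa [add_sub_cancel_left]
  · obtain ⟨v, h1, h2, h3, h4⟩ := diag hν hs hω hδ h (Or.inl rfl) hn
    rw [one_mul] at h4
    refine disjoint_left.1 M.disj (H _ ?_ ?_) ((nearv hN false h1 (h3.trans_le (le_abs_self _))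
      (h4.trans_le (le_abs_self _))).2 (mul_pos (p0.trans h3) (p0.trans h4)))
    · rwa [mem_ball_iff_norm, add_sub_cancel_left]
    · rwa [add_sub_cancel_left]
  · rcases which hM hν hs hω hδ h hN hC false with k1 | k1 <;>
      rcases which hM hν hs hω hδ h hN hC true with k2 | k2
    · have h3 := hν.not_both hC.unit₁ (i := false) k1 k2
      exact absurd h3 (by linarith)
    · exact fin hν hs hω hδ h hN hC k1 k2
    · obtain ⟨ν', h1, h2⟩ := fin hν hs hω hδ h hN hC.symm k1 k2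
      exact ⟨ν', h1, fun p ρ δ' H => h2 p ρ δ' H.symm⟩
    · have h3 := hν.not_both hC.unit₂ (i := false) k1 k2
      exact absurd h3 (by linarith)

end MW.CI
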