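import Pool.Agent.P.MP_064970_gt.SC

/-! Case I, row APPROX: smooth approximation of a bounded Lipschitz function. -/

open MeasureTheory Set Filter Topology Metric
open scoped RealInnerProductSpace ENNReal ComplexConjugate Real

noncomputable section

namespace MW.CI

namespace APPROX

/-- The mollification. -/
def mol (φ : ContDiffBump (0 : ℂ)) (v : ℂ → ℝ) (y : ℂ) : ℝ := ∫ t, φ.normed volume t * v (y - t)

theorem avg_le (φ : ContDiffBump (0 : ℂ)) {F : ℂ → ℝ} {c : ℝ}
    (h : ∀ t ∈ ball (0 : ℂ) φ.rOut, |F t| ≤ c) : |∫ t, φ.normed volume t * F t| ≤ c := by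
  have h1 := norm_integral_le_of_norm_le (μ := volume) (f := fun t => φ.normed volume t * F t)
    (φ.integrable_normed.mul_const c) (ae_of_all _ fun t => by
      by_cases ht : t ∈ ball (0 : ℂ) φ.rOut
      · rw [Real.norm_eq_abs, abs_mul, abs_of_nonneg (φ.nonneg_normed t)]
        exact mul_le_mul_of_nonneg_left (h t ht) (φ.nonneg_normed t)
      · rw [← φ.support_normed_eq (μ := volume), Function.notMem_support] at ht
        simp [ht])
  rwa [integral_mul_const, φ.integral_normed, one_mul] at h1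

theorem int (φ : ContDiffBump (0 : ℂ)) {v : ℂ → ℝ} (hv : Continuous v) (y : ℂ) :
    Integrable fun t => φ.normed volume t * v (y - t) :=
  (φ.continuous_normed.mul (hv.comp (continuous_const.sub continuous_id))
    ).integrable_of_hasCompactSupport φ.hasCompactSupport_normed.mul_right

theorem mol_sub (φ : ContDiffBump (0 : ℂ)) {v : ℂ → ℝ} (hv : Continuous v) (x y : ℂ) (a : ℝ) :
    mol φ v x - mol φ v y - a = ∫ t, φ.normed volume t * (v (x - t) - v (y - t) - a) := by
  simp only [mul_sub]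
  have h : Integrable fun t => φ.normed volume t * v (x - t) - φ.normed volume t * v (y - t) :=
    (int φ hv x).sub (int φ hv y)
  rw [integral_sub h (φ.integrable_normed.mul_const a),
    integral_sub (int φ hv x) (int φ hv y), integral_mul_const, φ.integral_normed, one_mul]
  rfl

theorem mol_sub_self (φ : ContDiffBump (0 : ℂ)) {v : ℂ → ℝ} (hv : Continuous v) (x : ℂ) (a : ℝ) :
    mol φ v x - a = ∫ t, φ.normed volume t * (v (x - t) - a) := by
  simp only [mul_sub]
  rw [integral_sub (int φ hv x) (φ.integrable_normed.mul_const a), integral_mul_const,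
    φ.integral_normed, one_mul]
  rfl

theorem contDiff (φ : ContDiffBump (0 : ℂ)) {v : ℂ → ℝ} (hv : Continuous v) :
    ContDiff ℝ 1 (mol φ v) :=
  φ.hasCompactSupport_normed.contDiff_convolution_left (ContinuousLinearMap.mul ℝ ℝ)
    φ.contDiff_normed hv.locallyIntegrable

/-- The derivative of the mollification is close to `L` if `v - L` is locally `ε`-Lipschitz. -/
theorem deriv_le (φ : ContDiffBump (0 : ℂ)) {v : ℂ → ℝ} (hv : Continuous v) (L : ℂ →L[ℝ] ℝ)
    {y : ℂ} {ε δ : ℝ} (hε : 0 ≤ ε) (hδ : φ.rOut ≤ δ)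
    (h : ∀ x ∈ ball y (2 * δ), ∀ z ∈ ball y (2 * δ), |v x - v z - L (x - z)| ≤ ε * ‖x - z‖) :
    ‖fderiv ℝ (mol φ v) y - L‖ ≤ ε := by
  have h0 : 0 < δ := φ.rOut_pos.trans_le hδ
  have h1 := (((contDiff φ hv).differentiable one_ne_zero y).hasFDerivAt.sub L.hasFDerivAt).fderiv
  rw [← h1]
  refine norm_fderiv_le_of_lip' ℝ hε ?_
  filter_upwards [ball_mem_nhds y h0] with x hx
  have e : (mol φ v - ⇑L) x - (mol φ v - ⇑L) y = mol φ v x - mol φ v y - L (x - y) := by
    simp only [Pi.sub_apply, map_sub]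
    ring
  rw [e, mol_sub φ hv, Real.norm_eq_abs]
  refine avg_le φ fun t ht => ?_
  have ht' : ‖t‖ < δ := (mem_ball_zero_iff.1 ht).trans_le hδ
  have h2 := h (x - t) (by
    rw [mem_ball_iff_norm] at hx ⊢
    rw [sub_right_comm]
    linarith [norm_sub_le (x - y) t]) (y - t) (by
    rw [mem_ball_iff_norm, sub_sub_cancel_left, norm_neg]
    linarith)
  rwa [sub_sub_sub_cancel_right] at h2

/-- The bumps. -/
def bump (k : ℕ) : ContDiffBump (0 : ℂ) :=
  ⟨1 / ((k : ℝ) + 1) / 2, 1 / ((k : ℝ) + 1), by positivity, half_lt_self (by positivity)⟩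

theorem bump_small {δ : ℝ} (hδ : 0 < δ) : ∀ᶠ k in atTop, (bump k).rOut ≤ δ :=
  (tendsto_one_div_add_atTop_nhds_zero_nat (𝕜 := ℝ)).eventually_le_const hδ

end APPROX

open APPROX in
theorem c_approx_of : C_APPROX := by
  intro v σ h hl hb
  have hσ : 0 ≤ σ := by simpa using (abs_nonneg _).trans (hl 1 0)
  have hv : Continuous v :=
    (LipschitzWith.of_dist_le_mul (K := ⟨σ, hσ⟩) fun y z => by
      rw [Real.dist_eq, dist_eq_norm]
      exact hl y z).continuous
  refine ⟨fun k => mol (bump k) v, fun k => ⟨contDiff _ hv, fun y => ⟨avg_le _ fun t _ => hb _,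
    ?_⟩⟩, fun y => ?_, fun D hD hd hc y hy => ?_⟩
  · simpa using deriv_le (bump k) hv 0 hσ le_rfl fun x _ z _ => by simpa using hl x z
  · rw [Metric.tendsto_nhds]
    intro ε hε
    filter_upwards [bump_small (δ := ε / 2 / (σ + 1)) (by positivity)] with k hk
    rw [Real.dist_eq, mol_sub_self _ hv]
    refine (avg_le _ fun t ht => ?_).trans_lt (half_lt_self hε)
    refine (hl _ _).trans ?_
    rw [sub_sub_cancel_left, norm_neg]
    have h1 : ‖t‖ ≤ ε / 2 / (σ + 1) := (mem_ball_zero_iff.1 ht).le.trans hk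
    rw [le_div_iff₀ (by positivity)] at h1
    linarith [norm_nonneg t]
  · rw [Metric.tendsto_nhds]
    intro ε hε
    have h1 : ∀ᶠ z in 𝓝 y, z ∈ D ∧ dist (fderiv ℝ v z) (fderiv ℝ v y) < ε / 2 :=
      (hD.eventually_mem hy).and (Metric.tendsto_nhds.1 (hc.continuousAt (hD.mem_nhds hy)) _
        (half_pos hε))
    obtain ⟨δ, hδ, h2⟩ := Metric.eventually_nhds_iff_ball.1 h1
    filter_upwards [bump_small (half_pos hδ)] with k hk
    rw [dist_eq_norm]
    refine (deriv_le _ hv _ (half_pos hε).le hk fun x hx z hz => ?_).trans_lt (half_lt_self hε)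
    rw [show 2 * (δ / 2) = δ by ring] at hx hz
    exact (convex_ball y δ).norm_image_sub_le_of_norm_fderiv_le'
      (fun u hu => hd.differentiableAt (hD.mem_nhds (h2 u hu).1))
      (fun u hu => by
        rw [← dist_eq_norm]
        exact (h2 u hu).2.le) hz hx

end MW.CI
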