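import Pool.Agent.P.MP_064970_gt.SC

/-! Case I, row ARG. Sketch:
Image measurable: MeasurableSet.image_of_continuousOn_injOn. The two inequalities of the third
clause of AREA with n = 1 (encard <= 1 from InjOn) applied to indicator functions give map (prA A)
((mu.restrict G).withDensity (ofReal |<N x, A e3>|)) = volume.restrict (image). Then integral_map,
integral_withDensity_eq_integral_smul (or the toReal version), integrable_map_measure,
integrable_withDensity_iff. |<N x, A e3>| <= 1 on S. -/

open MeasureTheory Set Filter Topology Metric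
open scoped RealInnerProductSpace ENNReal ComplexConjugate Real

noncomputable section

namespace MW.CI

theorem c_arg_of (hAREA : S_AREA) : C_ARG := by
  intro M A G hG hGS hinj
  have hp : Measurable (prA A) := (continuous_prA A).measurable
  have hw : Measurable fun x => |⟪M.N x, A e3⟫| :=
    continuous_abs.measurable.comp (M.N_meas.inner measurable_const)
  have hw' : Measurable fun x => ENNReal.ofReal |⟪M.N x, A e3⟫| := hw.ennreal_ofReal
  have key : ∀ f : ℂ → ℝ≥0∞, Measurable f → ∫⁻ y in prA A '' G, f y =
      ∫⁻ x in G, f (prA A x) * ENNReal.ofReal |⟪M.N x, A e3⟫| ∂M.μ := fun f hf => by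
    obtain ⟨h1, h2⟩ := ((hAREA M A).2.2 G hG hGS).2 f hf
    refine le_antisymm h1 ?_
    have h3 := h2 1 fun y => by
      rw [Nat.cast_one, encard_le_one_iff]
      exact fun a b ha hb => hinj ha.1 hb.1 (ha.2.trans hb.2.symm)
    rwa [Nat.cast_one, one_mul] at h3
  have hm : Measure.map (prA A) ((M.μ.restrict G).withDensity
      fun x => ENNReal.ofReal |⟪M.N x, A e3⟫|) = volume.restrict (prA A '' G) := by
    refine Measure.ext_of_lintegral _ fun f hf => ?_
    rw [lintegral_map hf hp, key f hf]
    exact (lintegral_withDensity_eq_lintegral_mul _ hw' (hf.comp hp)).trans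
      (lintegral_congr fun x => mul_comm _ _)
  refine ⟨hG.image_of_continuousOn_injOn (continuous_prA A).continuousOn hinj, ?_, fun f hf => ?_⟩
  · have h1 := key 1 measurable_const
    simp only [Pi.one_apply, lintegral_one, Measure.restrict_apply_univ, one_mul] at h1
    rw [h1, ← setLIntegral_one]
    refine setLIntegral_mono' hG fun x hx => ENNReal.ofReal_le_one.2 ?_
    have h2 := abs_real_inner_le_norm (M.N x) (A e3)
    rwa [M.N_unit x (hGS hx), A.norm_map, inner_frame.2.2.2, one_mul] at h2
  · have ht : ∀ᵐ x ∂M.μ.restrict G, ENNReal.ofReal |⟪M.N x, A e3⟫| < ∞ :=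
      .of_forall fun _ => ENNReal.ofReal_lt_top
    constructor
    · rw [IntegrableOn, IntegrableOn, ← hm, integrable_map_measure hf.aestronglyMeasurable
        hp.aemeasurable, integrable_withDensity_iff hw' ht]
      simp only [ENNReal.toReal_ofReal (abs_nonneg _), Function.comp_apply]
    · rw [← hm, integral_map hp.aemeasurable hf.aestronglyMeasurable,
        integral_withDensity_eq_integral_toReal_smul hw' ht]
      simp only [ENNReal.toReal_ofReal (abs_nonneg _), smul_eq_mul, mul_comm]

end MW.CI
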