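import Pool.Agent.P.MP_064970_gt.SC

/-! Case I, row BCA. Sketch:
R0, L0 from CXg; L = L0 + 2, r2 = max(R0, a, 1), T0 = (L0+1) r: M.Slab (closedBall 0 r) T0 (2 T0),
points of S over the disc have |x 2| < T0. Mem.chord_slab, partner_mem: x* in S over the same
point, N x* 2 <= 0. l = |n false + n true| >= beta, n i 2 = l/2, so f false x + f true x* = f true
x + f false x* = l (alpha - cbar) and g = f true - f false is the same at x and x*. H = hh K 1 (L
r). Dat.near_plane at x and x*. |g| <= 4H: all four values are <= 5H. g > 4H: a point with |f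
false| <= H has f true >= 3g/4, N close to n false, N 2 > 0; a point with |f true| <= H has f
false <= -3g/4, N close to -n true, N 2 < 0. So x is of the first kind, x* of the second. Same for
g < -4H. -/

open MeasureTheory Set Filter Topology Metric
open scoped RealInnerProductSpace ENNReal ComplexConjugate Real

noncomputable section

namespace MW.CI

namespace BCA

theorem rpow_le {R g s : ℝ} (hR : 0 ≤ R) (hg : 0 < g) (hs : 3 / 4 * g ≤ s) :
    (R / s) ^ (1 / 4 : ℝ) ≤ 2 * (R / g) ^ (1 / 4 : ℝ) := by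
  have hs0 : 0 < s := by linarith
  have h1 : R / s ≤ 16 * (R / g) := by
    rw [← mul_div_assoc, div_le_div_iff₀ hs0 hg]
    nlinarith
  have h2 : (16 : ℝ) ^ (1 / 4 : ℝ) = 2 := by
    rw [show (16 : ℝ) = 2 ^ (4 : ℝ) by norm_num, ← Real.rpow_mul (by norm_num)]
    norm_num
  calc (R / s) ^ (1 / 4 : ℝ) ≤ (16 * (R / g)) ^ (1 / 4 : ℝ) :=
        Real.rpow_le_rpow (by positivity) h1 (by norm_num)
    _ = _ := by rw [Real.mul_rpow (by norm_num) (by positivity), h2]

theorem cases_not (i j : Bool) : j = i ∨ j = !i := by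
  cases i <;> cases j <;> simp

variable {M : Surf} {n : Bool → E} {β η K l R : ℝ} {P : Pl}

/-- The two ends of a chord away from the axis lie on different planes. -/
theorem key (h : Dat M n η K 1 0 R P) (hK : 1 ≤ K) (hR : 1 ≤ R) (hβ : 0 < β) (hη : η ≤ β / 4)
    (hl : β ≤ l) (hn : ∀ j, n j 2 = l / 2) {x y : E} (hx : x ∈ M.S ∩ ball 0 R)
    (hy : y ∈ M.S ∩ ball 0 R) (hx2 : 0 < M.N x 2) (hy2 : M.N y 2 ≤ 0) (i : Bool) {g : ℝ}
    (g1 : P.f (!i) x - P.f i x = g) (g2 : P.f (!i) y - P.f i y = g) (hg : 4 * hh K 1 R < g) :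
    |P.f i x + P.f (!i) y| ≤ 4 * K * (R / g) ^ (1 / 4 : ℝ) := by
  have hH : 1 ≤ hh K 1 R := (le_hh hK one_pos hR).2
  have hg0 : 0 < g := by linarith
  have up : ∀ z ∈ M.S ∩ ball (0 : E) R, P.f (!i) z - P.f i z = g → |P.f i z| ≤ hh K 1 R →
      |P.f i z| ≤ 2 * K * (R / g) ^ (1 / 4 : ℝ) ∧ 0 < M.N z 2 := fun z hz e hb => by
    have b1 := abs_le.1 hb
    obtain ⟨b2, b3⟩ := h.pos i z hz (by linarith)
    have b4 := rpow_le (R := R) (s := |P.f (!i) z|) (by linarith) hg0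
      (le_trans (by linarith) (le_abs_self _))
    have b5 := (abs_le.1 ((abs_two_le _).trans b3)).1
    rw [PiLp.sub_apply, hn] at b5
    refine ⟨b2.trans ?_, by linarith⟩
    nlinarith
  have dn : ∀ z ∈ M.S ∩ ball (0 : E) R, P.f (!i) z - P.f i z = g → |P.f (!i) z| ≤ hh K 1 R →
      |P.f (!i) z| ≤ 2 * K * (R / g) ^ (1 / 4 : ℝ) ∧ M.N z 2 < 0 := fun z hz e hb => by
    have b1 := abs_le.1 hb
    obtain ⟨b2, b3⟩ := h.neg (!i) z hz (by rw [Bool.not_not]; linarith)
    rw [Bool.not_not] at b2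
    have b4 := rpow_le (R := R) (s := |P.f i z|) (by linarith) hg0
      (le_trans (by linarith) (neg_le_abs _))
    have b5 := (abs_le.1 ((abs_two_le _).trans b3)).2
    rw [PiLp.add_apply, hn] at b5
    refine ⟨b2.trans ?_, by linarith⟩
    nlinarith
  obtain ⟨j, hj⟩ := h.near_plane hK one_pos hR hx
  obtain ⟨k, hk⟩ := h.near_plane hK one_pos hR hy
  have a1 : |P.f i x| ≤ 2 * K * (R / g) ^ (1 / 4 : ℝ) := by
    rcases cases_not i j with rfl | rfl
    · exact (up x hx g1 hj).1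
    · exact absurd (dn x hx g1 hj).2 (not_lt.2 hx2.le)
  have a2 : |P.f (!i) y| ≤ 2 * K * (R / g) ^ (1 / 4 : ℝ) := by
    rcases cases_not i k with rfl | rfl
    · exact absurd (up y hy g2 hk).2 (not_lt.2 hy2)
    · exact (dn y hy g2 hk).1
  have a3 := abs_add_le (P.f i x) (P.f (!i) y)
  linarith

theorem near_axis (h : Dat M n η K 1 0 R P) (hK : 1 ≤ K) (hR : 1 ≤ R) {x : E}
    (hx : x ∈ M.S ∩ ball 0 R) (hg : |P.f true x - P.f false x| ≤ 4 * hh K 1 R) (i : Bool) :
    |P.f i x| ≤ 5 * hh K 1 R := by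
  obtain ⟨j, hj⟩ := h.near_plane hK one_pos hR hx
  have b1 := abs_le.1 hg
  have b2 := abs_le.1 hj
  have hH : 1 ≤ hh K 1 R := (le_hh hK one_pos hR).2
  cases i <;> cases j <;> exact abs_le.2 ⟨by linarith, by linarith⟩

theorem abs_le_div {A B : ℝ} (hβ : 0 < β) (hl : β ≤ l) (h : |l * A| ≤ B) : |A| ≤ B / β := by
  rw [abs_mul, abs_of_pos (hβ.trans_le hl)] at h
  rw [le_div_iff₀ hβ]
  nlinarith [abs_nonneg A]

end BCA

open BCA in
theorem c_bca_of : C_BCA := by
  intro M n β η K a l hM hF hη hl hn hC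
  obtain ⟨R₀, L₀, hR₀, hL₀, hC⟩ := hC
  have hβ := hF.pos
  refine ⟨L₀ + 2, max R₀ a, by linarith, le_max_of_le_right hF.a1, fun r hr => ?_⟩
  have r1 : R₀ ≤ r := (le_max_left _ _).trans hr
  have r2 : a ≤ r := (le_max_right _ _).trans hr
  have r3 : 1 ≤ r := hF.a1.trans r2
  have r4 : 0 < L₀ * r := by positivity
  have hR : 1 ≤ (L₀ + 2) * r := by nlinarith
  obtain ⟨c, hD, -⟩ := hF.dat ((L₀ + 2) * r) (by nlinarith)
  refine ⟨⟨n, c⟩, rfl, hD, ?_⟩
  have hW : ∀ y : ℂ, ‖y‖ ≤ r → ∀ t : ℝ, (L₀ + 1) * r ≤ |t| → pt y t ∈ M.W' := fun y hy t ht => by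
    have e1 : |t| ≤ ‖pt y t‖ := by simpa using abs_two_le (pt y t)
    refine hC _ (by nlinarith) ?_
    have e2 : ‖pt y t - ⟪pt y t, e3⟫ • e3‖ = ‖y‖ := wedge_e3 (pt y t)
    rw [e2, inner_e3, pt_two]
    nlinarith
  have hht : ∀ x ∈ M.S, ‖pr x‖ ≤ r → |x 2| < (L₀ + 1) * r := fun x hx h => by
    by_contra h'
    have := hW _ h _ (not_lt.1 h')
    rw [pt_pr] at this
    exact disjoint_left.1 M.disjS' this hx
  have hball : ∀ x ∈ M.S, ‖pr x‖ ≤ r → x ∈ ball (0 : E) ((L₀ + 2) * r) := fun x hx h => by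
    rw [mem_ball_zero_iff]
    have := norm_le_pr_add x
    have := hht x hx h
    linarith
  have hS : M.Slab (closedBall 0 r) ((L₀ + 1) * r) (2 * ((L₀ + 1) * r)) := fun y hy t ht _ =>
    hW y (mem_closedBall_zero_iff.1 hy) t ht
  have hnl : ‖n false + n true‖ = l := by
    rw [hn, norm_smul, norm_e3, Real.norm_of_nonneg hl.le, mul_one]
  have hβl : β ≤ l := hnl ▸ (le_norm_add hβ.le (hF.unit _) (hF.unit _) hF.ang).1
  have hn2 : ∀ j, n j 2 = l / 2 := fun j => by
    obtain ⟨e1, e2, -⟩ := inner_add_self (hF.unit false) (hF.unit true)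
    rw [hnl, hn, real_inner_smul_left, e3_inner] at e1 e2
    refine mul_left_cancel₀ hl.ne' ?_
    cases j
    · linarith
    · linarith
  intro x hx hxr
  refine ⟨hball x hx hxr, fun hx2 => ?_⟩
  have T0 : 0 < (L₀ + 1) * r := by positivity
  obtain ⟨-, -, -, c1, -, -, c2⟩ := (hM.chord_slab T0 (by linarith) hS hx
    ⟨mem_closedBall_zero_iff.2 hxr, (hht x hx hxr).trans (by linarith)⟩).2 hx2
  have hy := hM.partner_mem e3 hx
  have hx' : x ∈ M.S ∩ ball (0 : E) ((L₀ + 2) * r) := ⟨hx, hball x hx hxr⟩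
  have hy' : M.partner e3 x ∈ M.S ∩ ball (0 : E) ((L₀ + 2) * r) :=
    ⟨hy, hball _ hy (by rw [c1]; exact hxr)⟩
  set P : Pl := ⟨n, c⟩ with hP
  have hf : ∀ j, P.f j (M.partner e3 x) = P.f j x - M.ell e3 x * (l / 2) := fun j => by
    change ⟪x - M.ell e3 x • e3, n j⟫ - c j = ⟪x, n j⟫ - c j - _
    rw [inner_sub_left, real_inner_smul_left, e3_inner, hn2]
    ring
  have hA : l * (M.alpha e3 x - (P.c false + P.c true) / l)
      = P.f false x + P.f true x - M.ell e3 x * (l / 2) := by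
    have e1 : ⟪x, n false⟫ + ⟪x, n true⟫ = l * ⟪x, e3⟫ := by
      rw [← inner_add_right, hn, real_inner_smul_right]
    change l * (⟪x, e3⟫ - M.ell e3 x / 2 - (c false + c true) / l)
      = ⟪x, n false⟫ - c false + (⟪x, n true⟫ - c true) - _
    field_simp
    linarith
  have hg : P.f true (M.partner e3 x) - P.f false (M.partner e3 x) = P.f true x - P.f false x := by
    rw [hf, hf]
    ring
  refine ⟨fun h => ?_, fun h => ?_⟩
  · have a1 := near_axis hD hF.K1 hR hx' h false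
    have a2 := near_axis hD hF.K1 hR hy' (hg ▸ h) true
    have a3 := abs_add_le (P.f false x) (P.f true (M.partner e3 x))
    rw [div_mul_eq_mul_div]
    refine abs_le_div hβ hβl ?_
    rw [hA, add_sub_assoc, ← hf]
    linarith
  · rw [div_mul_eq_mul_div]
    refine abs_le_div hβ hβl ?_
    rcases le_total 0 (P.f true x - P.f false x) with h0 | h0
    · rw [abs_of_nonneg h0] at h ⊢
      rw [hA, add_sub_assoc, ← hf]
      exact key hD hF.K1 hR hβ hη hβl hn2 hx' hy' hx2 c2 false rfl hg h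
    · rw [abs_of_nonpos h0] at h ⊢
      rw [hA, add_comm (P.f false x), add_sub_assoc, ← hf]
      exact key hD hF.K1 hR hβ hη hβl hn2 hx' hy' hx2 c2 true (neg_sub _ _).symm
        (by rw [← hg]; exact (neg_sub _ _).symm) h

end MW.CI
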