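import Pool.Agent.P.MP_064970_gt.SC

/-! Case I, row BCE. Sketch:
c = (P.c false + P.c true)/l, R = L r, r2 so large that hh K 1 R <= beta R/4. On S cap cyl cap
top: (alpha - c)^2 N2 <= (100 H^2/beta^2) indicator(near) + (16 K^2/beta^2) indicator(far)
(R/|g|)^(1/2), the sets inside ball 0 R. H^3 R = K^3 R^(3/4) R <= K^3 R^2. Mem.measurable_alpha,
Bd.integrableOn. -/

open MeasureTheory Set Filter Topology Metric
open scoped RealInnerProductSpace ENNReal ComplexConjugate Real

noncomputable section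

namespace MW.CI

namespace BCE

/-- An integral bound from a pointwise majorant made of two pieces. -/
theorem bound {μ : Measure E} {A B D : Set E} {F g : E → ℝ} {a b : ℝ} (hA : MeasurableSet A)
    (hB : MeasurableSet B) (hD : MeasurableSet D) (hF : Measurable F) (hAf : μ A < ∞)
    (hg : IntegrableOn g B μ) (hg0 : ∀ x, 0 ≤ g x) (ha : 0 ≤ a) (hb : 0 ≤ b)
    (h : ∀ᵐ x ∂μ, x ∈ D → 0 ≤ F x ∧ ((x ∈ A ∧ F x ≤ a) ∨ (x ∈ B ∧ F x ≤ b * g x))) :
    IntegrableOn F D μ ∧ ∫ x in D, F x ∂μ ≤ a * μ.real A + b * ∫ x in B, g x ∂μ := by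
  have i1 : Integrable (A.indicator fun _ => a) μ :=
    (integrable_indicator_iff hA).2 (integrableOn_const hAf.ne)
  have i2 : Integrable (B.indicator fun x => b * g x) μ :=
    (integrable_indicator_iff hB).2 (hg.const_mul b)
  have p1 : ∀ x, 0 ≤ A.indicator (fun _ => a) x := fun x => indicator_nonneg (fun _ _ => ha) x
  have p2 : ∀ x, 0 ≤ B.indicator (fun x => b * g x) x := fun x =>
    indicator_nonneg (fun y _ => mul_nonneg hb (hg0 y)) x
  have i3 := i1.add i2
  have key : ∀ᵐ x ∂μ.restrict D, 0 ≤ F x ∧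
      F x ≤ A.indicator (fun _ => a) x + B.indicator (fun x => b * g x) x := by
    rw [ae_restrict_iff' hD]
    filter_upwards [h] with x hx hxD
    obtain ⟨h0, h1 | h1⟩ := hx hxD
    · refine ⟨h0, ?_⟩
      rw [indicator_of_mem h1.1]
      linarith [h1.2, p2 x]
    · refine ⟨h0, ?_⟩
      rw [indicator_of_mem h1.1]
      linarith [h1.2, p1 x]
  have iF : IntegrableOn F D μ :=
    Integrable.mono' i3.integrableOn hF.aestronglyMeasurable
      (key.mono fun x hx => by rw [Real.norm_of_nonneg hx.1]; exact hx.2)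
  refine ⟨iF, ?_⟩
  calc ∫ x in D, F x ∂μ
      ≤ ∫ x in D, (A.indicator (fun _ => a) x + B.indicator (fun x => b * g x) x) ∂μ :=
        integral_mono_ae iF i3.integrableOn (key.mono fun x hx => hx.2)
    _ ≤ ∫ x, (A.indicator (fun _ => a) x + B.indicator (fun x => b * g x) x) ∂μ :=
        setIntegral_le_integral i3 (.of_forall fun x => add_nonneg (p1 x) (p2 x))
    _ = a * μ.real A + b * ∫ x in B, g x ∂μ := by
        rw [integral_add i1 i2, integral_indicator hA, integral_indicator hB, setIntegral_const,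
          integral_const_mul, smul_eq_mul, mul_comm]

theorem cube_le {R : ℝ} (hR : 1 ≤ R) : (R ^ (1 / 4 : ℝ)) ^ 3 ≤ R := by
  rw [← Real.rpow_natCast, ← Real.rpow_mul (by linarith)]
  calc R ^ (1 / 4 * ((3 : ℕ) : ℝ)) ≤ R ^ (1 : ℝ) :=
        Real.rpow_le_rpow_of_exponent_le hR (by norm_num)
    _ = R := Real.rpow_one R

theorem sq_quarter {y : ℝ} (hy : 0 ≤ y) : (y ^ (1 / 4 : ℝ)) ^ 2 = y ^ (1 / 2 : ℝ) := by
  rw [← Real.rpow_natCast, ← Real.rpow_mul hy]
  norm_num

end BCE

theorem c_bce_of (hBCA : C_BCA) (hBCM : C_BCM) : C_BCE := by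
  intro M n β η K a l hM hF hη hl hn hc
  obtain ⟨L, r₂, hL, hr₂, hA⟩ := hBCA M n β η K a l hM hF hη hl hn hc
  have hβ := hF.pos
  have hK := hF.K1
  obtain ⟨C, hC, hB⟩ := hBCM β hβ
  obtain ⟨Λ, -, hΛ⟩ := hh_small K 1 (show 0 < β / 4 by positivity) one_pos
  refine ⟨((10 / β) ^ 2 * C * K ^ 3 + (4 * K / β) ^ 2 * C) * L ^ 2, max r₂ Λ, fun r hr => ?_⟩
  have hr1 : r₂ ≤ r := (le_max_left _ _).trans hr
  have hrR : r ≤ L * r := le_mul_of_one_le_left (by linarith) hL
  have hR : 1 ≤ L * r := by linarith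
  obtain ⟨P, rfl, hD, hx⟩ := hA r hr1
  have hH : hh K 1 (L * r) ≤ β / 4 * (L * r) := by
    have := hΛ 1 (L * r) one_pos (by linarith [(le_max_right _ _).trans hr])
    rwa [one_mul] at this
  obtain ⟨h1, h2, h3⟩ := hB M P η K (L * r) hM hF.unit hF.ang hK hR hH hD
  have hH0 : 0 ≤ hh K 1 (L * r) := by
    rw [hh_one]; exact mul_nonneg (by linarith) (Real.rpow_nonneg (by linarith) _)
  have hH3 : hh K 1 (L * r) ^ 3 ≤ K ^ 3 * (L * r) := by
    rw [hh_one, mul_pow]
    exact mul_le_mul_of_nonneg_left (BCE.cube_le hR) (by positivity)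
  have hg : Continuous fun x => |P.f true x - P.f false x| :=
    ((P.continuous_f true).sub (P.continuous_f false)).abs
  have hN2 : Measurable fun x => M.N x 2 :=
    (by fun_prop : Continuous fun y : E => y 2).measurable.comp M.N_meas
  refine ⟨(P.c false + P.c true) / l, fun T => ?_⟩
  obtain ⟨i1, i2⟩ := BCE.bound (μ := M.μ)
    (A := ball 0 (L * r) ∩ {x | |P.f true x - P.f false x| ≤ 4 * hh K 1 (L * r)})
    (D := cyl (closedBall 0 r) T ∩ M.top e3)
    (F := fun x => (M.alpha e3 x - (P.c false + P.c true) / l) ^ 2 * M.N x 2)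
    (a := (10 / β * hh K 1 (L * r)) ^ 2) (b := (4 * K / β) ^ 2)
    (measurableSet_ball.inter (isClosed_le hg continuous_const).measurableSet)
    (measurableSet_ball.inter (isOpen_lt continuous_const hg).measurableSet)
    ((measurableSet_cyl measurableSet_closedBall T).inter (M.measurableSet_top e3))
    ((((hM.measurable_alpha e3).sub_const _).pow_const 2).mul hN2)
    (hM.bd.lt_top (isBounded_ball.subset inter_subset_left)) h2
    (fun x => Real.rpow_nonneg (div_nonneg (by linarith) (abs_nonneg _)) _) (sq_nonneg _)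
    (sq_nonneg _) (by
      filter_upwards [M.ae_mem] with x hxS hxD
      have hpos : 0 < M.N x 2 := by
        have := hxD.2
        rw [Surf.top, mem_setOf_eq, inner_e3] at this
        exact this
      have hle : M.N x 2 ≤ 1 := by
        have := abs_two_le (M.N x)
        rw [M.N_unit x hxS] at this
        exact (le_abs_self _).trans this
      obtain ⟨hb, hy⟩ := hx x hxS (mem_closedBall_zero_iff.1 hxD.1.1)
      obtain ⟨hy1, hy2⟩ := hy hpos
      have hF1 : (M.alpha e3 x - (P.c false + P.c true) / l) ^ 2 * M.N x 2 ≤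
          |M.alpha e3 x - (P.c false + P.c true) / l| ^ 2 := by
        rw [sq_abs]; exact mul_le_of_le_one_right (sq_nonneg _) hle
      refine ⟨mul_nonneg (sq_nonneg _) hpos.le, ?_⟩
      rcases le_or_gt |P.f true x - P.f false x| (4 * hh K 1 (L * r)) with h | h
      · exact Or.inl ⟨⟨hb, h⟩, hF1.trans (pow_le_pow_left₀ (abs_nonneg _) (hy1 h) 2)⟩
      · refine Or.inr ⟨⟨hb, h⟩, hF1.trans ((pow_le_pow_left₀ (abs_nonneg _) (hy2 h) 2).trans_eq ?_)⟩
        rw [mul_pow, BCE.sq_quarter (div_nonneg (by linarith) (abs_nonneg _))])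
  refine ⟨i1, i2.trans ?_⟩
  have e1 : (10 / β * hh K 1 (L * r)) ^ 2 *
      M.μ.real (ball 0 (L * r) ∩ {x | |P.f true x - P.f false x| ≤ 4 * hh K 1 (L * r)}) ≤
      (10 / β) ^ 2 * C * K ^ 3 * (L * r) ^ 2 :=
    calc _ ≤ (10 / β * hh K 1 (L * r)) ^ 2 * (C * hh K 1 (L * r) * (L * r)) :=
          mul_le_mul_of_nonneg_left h1 (sq_nonneg _)
      _ = (10 / β) ^ 2 * C * (L * r) * hh K 1 (L * r) ^ 3 := by ring
      _ ≤ (10 / β) ^ 2 * C * (L * r) * (K ^ 3 * (L * r)) :=
          mul_le_mul_of_nonneg_left hH3 (by positivity)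
      _ = _ := by ring
  have e2 := mul_le_mul_of_nonneg_left h3 (sq_nonneg (4 * K / β))
  calc _ ≤ (10 / β) ^ 2 * C * K ^ 3 * (L * r) ^ 2 + (4 * K / β) ^ 2 * (C * (L * r) ^ 2) :=
        add_le_add e1 e2
    _ = _ := by ring

end MW.CI
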