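import Pool.Agent.P.MP_064970_gt.SC

/-! Case I, row BCF. Sketch:
For each i there is x in S with |N x - n i| <= eta: at a large r solve (exists_solve) for two
points with f i = +-2H, f (!i) = 2H, norm <= 12 H/beta < r; Pat.pat', exists_cross, Dat.pos. As
wedge (n false)(n true) >= beta > 2 eta, M is not flat and not a pair of parallel planes (TWO), so
S is preconnected. SYM for (M,e) and for (M.swap, e') via Far.swap, Bigraph.big. <e,e'> = 0
(inner_add_self). Far clause with c = 1/4: |x|^2 = <x,e>^2 + <x,e'>^2 + |rest|^2, <x, n false +- n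
true> = |n false +- n true| <x,e or e'>, so some |<x,n j>| >= beta|x|/4 for |x| >= 2T; Dat at r =
2|x| gives |N -+ n i| <= eta; <n i,e>^2 + <n i,e'>^2 = 1. -/

open MeasureTheory Set Filter Topology Metric
open scoped RealInnerProductSpace ENNReal ComplexConjugate Real

noncomputable section

namespace MW.CI

namespace BCF

variable {M : Surf} {n : Bool → E} {β η K a : ℝ}

theorem le_one (h : Far M n β η K a) : β ≤ 1 := by
  nlinarith [h.ang, h.pos, sq_nonneg ⟪n false, n true⟫]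

theorem ang' (h : Far M n β η K a) (i : Bool) : ⟪n i, n (!i)⟫ ^ 2 ≤ 1 - β ^ 2 := by
  cases i
  · exact h.ang
  · rw [real_inner_comm]
    exact h.ang

/-- The data at all large scales, with a thin tube. -/
theorem exists_dat (h : Far M n β η K a) : ∃ r₀ : ℝ, 1 ≤ r₀ ∧ ∀ r, r₀ ≤ r →
    ∃ c : Bool → ℝ, Dat M n η K 1 0 r ⟨n, c⟩ ∧ Pat M ⟨n, c⟩ 0 r (hh K 1 r) ∧
      1 ≤ hh K 1 r ∧ hh K 1 r ≤ β / 20 * r ∧ ∀ i, |c i| ≤ hh K 1 r := by
  obtain ⟨Λ, hΛ, hs⟩ := hh_small K 1 (ε := β / 20) (by linarith [h.pos]) one_pos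
  refine ⟨max a Λ, hΛ.trans (le_max_right _ _), fun r hr => ?_⟩
  have hrΛ : Λ ≤ r := (le_max_right _ _).trans hr
  obtain ⟨c, hd, hp⟩ := h.dat r ((le_max_left _ _).trans hr)
  refine ⟨c, hd, hp, (le_hh h.K1 one_pos (hΛ.trans hrΛ)).2, ?_, fun i => ?_⟩
  · simpa only [one_mul] using hs 1 r one_pos (by linarith)
  · simpa [Pl.f] using hd.ctr i

/-- Both normals are almost attained. -/
theorem exists_pt (hM : M.Mem) (h : Far M n β η K a) (i : Bool) :
    ∃ x ∈ M.S, ‖M.N x - n i‖ ≤ η := by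
  obtain ⟨r, hr, hd⟩ := exists_dat h
  obtain ⟨c, hd, hp, h1, h2, hc⟩ := hd r le_rfl
  have hβ := h.pos
  set H := hh K 1 r with hH
  have key : ∀ s : ℝ, |s| ≤ 2 * H → ∃ v ∈ ball (0 : E) r,
      Pl.f ⟨n, c⟩ i v = s ∧ Pl.f ⟨n, c⟩ (!i) v = 2 * H := fun s hs => by
    obtain ⟨v, e1, e2, e3⟩ := exists_solve hβ (h.unit i) (h.unit (!i)) (ang' h i) (c i + s)
      (c (!i) + 2 * H)
    refine ⟨v, mem_ball_zero_iff.2 (e3.trans_lt ?_), ?_, ?_⟩
    · have k1 := abs_add_le (c i) s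
      have k2 := abs_add_le (c (!i)) (2 * H)
      rw [abs_of_nonneg (by linarith : 0 ≤ 2 * H)] at k2
      rw [div_mul_eq_mul_div, div_lt_iff₀ hβ]
      nlinarith [hc i, hc (!i)]
    · simp only [Pl.f, e1]
      ring
    · simp only [Pl.f, e2]
      ring
  have h0 : 0 < 2 * H := by linarith
  obtain ⟨v, hv, v1, v2⟩ := key (-(2 * H)) (by rw [abs_neg, abs_of_pos h0])
  obtain ⟨w, hw, w1, w2⟩ := key (2 * H) (by rw [abs_of_pos h0])
  have hW : v ∈ M.W := (hp.pat' i hv (by rw [v1, abs_neg, abs_of_pos h0]; linarith)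
    (by rw [v2, abs_of_pos h0]; linarith)).1 (by rw [v1, v2]; nlinarith)
  have hW' : w ∈ M.W' := (hp.pat' i hw (by rw [w1, abs_of_pos h0]; linarith)
    (by rw [w2, abs_of_pos h0]; linarith)).2 (by rw [w1, w2]; positivity)
  obtain ⟨x, hx, hS⟩ := M.exists_cross (by rw [hM.univ]; exact subset_univ _) hW hW'
  refine ⟨x, hS, (hd.pos i x ⟨hS, (convex_ball 0 r).segment_subset hv hw hx⟩ ?_).2⟩
  obtain ⟨s, t, hs, ht, hst, rfl⟩ := hx
  simp only [Pl.f, inner_add_left, real_inner_smul_left] at v2 w2 ⊢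
  have e1 : ⟪v, n (!i)⟫ = c (!i) + 2 * H := by linarith
  have e2 : ⟪w, n (!i)⟫ = c (!i) + 2 * H := by linarith
  rw [e1, e2, ← add_mul, hst]
  linarith

/-- The normals do not lie on one line. -/
theorem not_line (hM : M.Mem) (h : Far M n β η K a) (hη : η ≤ β / 4) {ν : E} (hν : ‖ν‖ = 1)
    (hN : ∀ x ∈ M.S, M.N x = ν ∨ M.N x = -ν) : False := by
  have key : ∀ i, wedge ν (n i) ≤ η := fun i => by
    obtain ⟨x, hx, h1⟩ := exists_pt hM h i
    have h2 := (wedge_le_norm_sub (a := M.N x) (h.unit i)).trans h1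
    rcases hN x hx with e | e
    · rwa [e] at h2
    · rwa [e, wedge_neg_left] at h2
  have h1 := le_wedge h.pos.le (h.unit false) (h.unit true) h.ang
  have h2 := wedge_triangle (h.unit false) hν (h.unit true)
  rw [wedge_comm (h.unit false) hν] at h2
  linarith [key false, key true, h.pos]

theorem norm_unit {p : E} (hp : 0 < ‖p‖) : ‖‖p‖⁻¹ • p‖ = 1 := by
  rw [norm_smul, norm_inv, norm_norm, inv_mul_cancel₀ hp.ne']

theorem inner_unit {p : E} (hp : 0 < ‖p‖) (y : E) : ‖p‖ * ⟪y, ‖p‖⁻¹ • p⟫ = ⟪y, p⟫ := by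
  rw [real_inner_smul_right, ← mul_assoc, mul_inv_cancel₀ hp.ne', one_mul]

theorem pyth {e e' : E} (he : ‖e‖ = 1) (he' : ‖e'‖ = 1) (h : ⟪e, e'⟫ = 0) (x : E) :
    ‖x - ⟪x, e⟫ • e - ⟪x, e'⟫ • e'‖ ^ 2 = ‖x‖ ^ 2 - ⟪x, e⟫ ^ 2 - ⟪x, e'⟫ ^ 2 := by
  rw [norm_sub_sq_real, norm_sub_sq_real, inner_sub_left]
  simp only [real_inner_smul_left, real_inner_smul_right, norm_smul, he, he', h, mul_one,
    Real.norm_eq_abs, sq_abs]
  ring

/-- One mirror plane. -/
theorem exists_big (hTWO : S_TWO) (hSYM : S_SYM) (hBCX : C_BCX) (hBCS : C_BCS) (hM : M.Mem)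
    (h : Far M n β η K a) (hη : η ≤ β / 4) :
    ∃ b, Big M (‖n false + n true‖⁻¹ • (n false + n true)) b := by
  have hc : IsPreconnected M.S := by
    by_contra hn
    obtain ⟨ν, -, -, hν, -, -, hN⟩ := hTWO M hM hn
    exact not_line hM h hη hν hN
  have hf : ¬ M.Flat := fun hf => by
    obtain ⟨x, hx, -⟩ := exists_pt hM h false
    exact not_line hM h hη (M.N_unit x hx) fun y hy => Or.inl (hf y hy x hx)
  have hp := h.pos.trans_le (le_norm_add h.pos.le (h.unit false) (h.unit true) h.ang).1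
  have hx := hBCX M n β η K a h
  obtain ⟨b, hb⟩ := hSYM M _ hM hc hf (norm_unit hp) hx (hBCS M n β η K a hM h hη)
  exact ⟨b, hb.big hx⟩

/-- Far from the origin and from the axis the normal is close to one of the two lines. -/
theorem far_nrm (h : Far M n β η K a) (hη : η ≤ β / 4) : ∃ R : ℝ, ∀ x ∈ M.S, R ≤ ‖x‖ →
    (∃ j, β / 4 * ‖x‖ ≤ |⟪x, n j⟫|) → ∃ i, 1 / 4 ≤ ⟪M.N x, n i⟫ ^ 2 := by
  obtain ⟨r, hr, hd⟩ := exists_dat h
  refine ⟨r, fun x hx hR ⟨j, hj⟩ => ⟨!j, ?_⟩⟩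
  obtain ⟨c, hd, -, h1, h2, hc⟩ := hd (2 * ‖x‖) (by linarith)
  have hb : x ∈ M.S ∩ ball 0 (2 * ‖x‖) := ⟨hx, mem_ball_zero_iff.2 (by linarith)⟩
  have hcj := abs_le.1 (hc j)
  have hβ : 0 ≤ β * ‖x‖ := mul_nonneg h.pos.le (norm_nonneg x)
  have hw : wedge (M.N x) (n (!j)) ≤ η := by
    rcases le_abs.1 hj with k | k
    · refine (wedge_le_norm_sub (h.unit _)).trans (hd.pos (!j) x hb ?_).2
      simp only [Pl.f, Bool.not_not]
      linarith [hcj.2]
    · refine (wedge_le_norm_add _ (h.unit _)).trans (hd.neg (!j) x hb ?_).2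
      simp only [Pl.f, Bool.not_not]
      linarith [hcj.1]
  have h3 := (le_abs_inner (M.N_unit x hx) (h.unit _) hw (by linarith [le_one h])).1
  rw [← sq_abs]
  nlinarith

end BCF

open BCF in
theorem c_bcf_of (hTWO : S_TWO) (hSYM : S_SYM) (hSYM2 : S_SYM2) (hBCX : C_BCX) (hBCS : C_BCS) : C_BCF := by
  intro M n β η K a hM h hη
  obtain ⟨b, hb⟩ := exists_big hTWO hSYM hBCX hBCS hM h hη
  obtain ⟨b', hb'⟩ := exists_big hTWO hSYM hBCX hBCS hM.swap h.swap hη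
  simp only [cond_false, cond_true, ← sub_eq_add_neg] at hb'
  have hβ := h.pos
  obtain ⟨hp, hq⟩ := le_norm_add hβ.le (h.unit false) (h.unit true) h.ang
  have hp0 := hβ.trans_le hp
  have hq0 := hβ.trans_le hq
  have ho : ⟪‖n false + n true‖⁻¹ • (n false + n true),
      ‖n false - n true‖⁻¹ • (n false - n true)⟫ = 0 := by
    rw [real_inner_smul_left, real_inner_smul_right,
      (inner_add_self (h.unit false) (h.unit true)).2.2, mul_zero, mul_zero]
  have hs : ‖n false + n true‖ ^ 2 + ‖n false - n true‖ ^ 2 = 4 := by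
    rw [norm_add_sq_real, norm_sub_sq_real, h.unit, h.unit]
    ring
  refine hSYM2 M _ _ b b' hM (norm_unit hp0) (norm_unit hq0) ho hb hb' fun T => ?_
  obtain ⟨R, hR⟩ := far_nrm h hη
  refine ⟨1 / 4, max R (2 * |T|), by norm_num, fun x hx hT hxR => ?_⟩
  have e1 := fun y => inner_unit hp0 y
  have e2 := fun y => inner_unit hq0 y
  have e3 := pyth (norm_unit hp0) (norm_unit hq0) ho x
  simp only [inner_add_right, inner_sub_right] at e1 e2
  generalize ‖n false + n true‖⁻¹ • (n false + n true) = e at *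
  generalize ‖n false - n true‖⁻¹ • (n false - n true) = e' at *
  generalize ‖n false + n true‖ = P at *
  generalize ‖n false - n true‖ = Q at *
  have hx2 : 2 * |T| ≤ ‖x‖ := (le_max_right _ _).trans hxR
  have k1 : 3 / 4 * ‖x‖ ^ 2 ≤ ⟪x, e⟫ ^ 2 + ⟪x, e'⟫ ^ 2 := by
    have k2 := pow_le_pow_left₀ (norm_nonneg _) (hT.trans (le_abs_self T)) 2
    have k3 := pow_le_pow_left₀ (by positivity) hx2 2
    nlinarith
  have k4 : β ^ 2 * (⟪x, e⟫ ^ 2 + ⟪x, e'⟫ ^ 2) ≤ 2 * (⟪x, n false⟫ ^ 2 + ⟪x, n true⟫ ^ 2) := by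
    have k5 : 2 * (⟪x, n false⟫ ^ 2 + ⟪x, n true⟫ ^ 2) =
        P ^ 2 * ⟪x, e⟫ ^ 2 + Q ^ 2 * ⟪x, e'⟫ ^ 2 := by
      rw [← mul_pow, ← mul_pow, e1, e2]
      ring
    rw [k5, mul_add]
    gcongr
  have k6 : ∃ j, β / 4 * ‖x‖ ≤ |⟪x, n j⟫| := by
    by_contra hn
    push Not at hn
    have k7 := pow_le_pow_left₀ (abs_nonneg _) (hn false).le 2
    have k8 := pow_lt_pow_left₀ (hn true) (abs_nonneg _) two_ne_zero
    rw [sq_abs] at k7 k8
    nlinarith [mul_le_mul_of_nonneg_left k1 (sq_nonneg β), mul_nonneg (sq_nonneg β) (sq_nonneg ‖x‖)]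
  obtain ⟨i, hi⟩ := hR x hx ((le_max_left _ _).trans hxR) k6
  refine hi.trans ?_
  have f1 := e1 (M.N x)
  have f2 := e2 (M.N x)
  generalize ⟪M.N x, e⟫ = A at *
  generalize ⟪M.N x, e'⟫ = B at *
  have g : (P ^ 2 + Q ^ 2) * (A ^ 2 + B ^ 2) = 4 * (A ^ 2 + B ^ 2) := by rw [hs]
  cases i
  · have f3 : ⟪M.N x, n false⟫ = (P * A + Q * B) / 2 := by linarith
    rw [f3]
    nlinarith [sq_nonneg (P * B - Q * A)]
  · have f3 : ⟪M.N x, n true⟫ = (P * A - Q * B) / 2 := by linarith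
    rw [f3]
    nlinarith [sq_nonneg (P * B + Q * A)]

end MW.CI
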