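import Pool.Agent.P.MP_064970_gt.SC

/-! Case I, row BCL. Sketch:
k -> (Pf (2^k a)).n i is Cauchy (cauchySeq_of_le_geometric_two), limit n i: unit, within omega/4
of nu i, and |(Pf r).n i - n i| <= 3K/r for r >= a (take j with 2^j a in [r,2r]). With c = (Pf
r).c: the new functions differ by at most 3K on ball 0 r. K' = 8K, a' >= max(a,1) with hh K' 1 r
<= beta r/20 (hh_small). If F' = |f'(!i) x| >= 8K r^(1/4) then F >= F'/2 and F' <= 2r, so |f' i x|
<= K (2r/F')^(1/4) + 3K <= 8K (r/F')^(1/4). This gives Dat M nu eta K' 1 0 r for the new planes,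
PTN gives Pat, and |N -+ n i| <= eta + omega. IsRef.ang_near. -/

open MeasureTheory Set Filter Topology Metric
open scoped RealInnerProductSpace ENNReal ComplexConjugate Real

noncomputable section

namespace MW.CI

namespace BCL

/-- A slowly drifting family of vectors converges. -/
theorem exists_lim {g : ℝ → E} {K a : ℝ} (ha : 0 < a)
    (h : ∀ r r', a ≤ r → r ≤ r' → r' ≤ 2 * r → ‖g r - g r'‖ ≤ K / r) :
    ∃ n : E, Tendsto (fun k : ℕ => g (2 ^ k * a)) atTop (𝓝 n) ∧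
      ∀ r, a ≤ r → ‖g r - n‖ ≤ 3 * K / r := by
  have h1 : ∀ k : ℕ, a ≤ 2 ^ k * a := fun k =>
    le_mul_of_one_le_left ha.le (one_le_pow₀ one_le_two)
  have hu : ∀ k : ℕ, dist (g (2 ^ k * a)) (g (2 ^ (k + 1) * a)) ≤ 2 * K / a / 2 / 2 ^ k := by
    intro k
    have h2 : (0 : ℝ) < 2 ^ k * a := by positivity
    rw [dist_eq_norm]
    refine (h _ _ (h1 k) (by rw [pow_succ]; linarith) (by rw [pow_succ]; linarith)).trans
      (le_of_eq ?_)
    field_simp
  obtain ⟨n, hn⟩ := cauchySeq_tendsto_of_complete (cauchySeq_of_le_geometric_two hu)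
  refine ⟨n, hn, fun r hr => ?_⟩
  have hr0 : 0 < r := ha.trans_le hr
  have hK : 0 ≤ K := by
    have h2 := h a a le_rfl le_rfl (by linarith)
    rw [sub_self, norm_zero] at h2
    exact (div_nonneg_iff.1 h2).elim (fun h3 => h3.1) fun h3 => absurd h3.2 (not_le.2 ha)
  obtain ⟨j, hj1, hj2⟩ := exists_nat_pow_near ((one_le_div ha).2 hr) one_lt_two
  rw [le_div_iff₀ ha] at hj1
  rw [div_lt_iff₀ ha] at hj2
  have h3 := h r _ hr hj2.le (by rw [pow_succ]; linarith)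
  have h4 := dist_le_of_le_geometric_two_of_tendsto hu hn (j + 1)
  rw [dist_eq_norm] at h4
  have h5 : 2 * K / a / 2 ^ (j + 1) ≤ 2 * K / r := by
    rw [div_div]
    exact div_le_div_of_nonneg_left (by linarith) hr0 (by linarith)
  have h6 : 3 * K / r = K / r + 2 * K / r := by ring
  rw [h6]
  exact (norm_sub_le_norm_sub_add_norm_sub _ _ _).trans (add_le_add h3 (h4.trans h5))

theorem rpow_sixteen (y : ℝ) (hy : 0 ≤ y) : (16 * y) ^ (1 / 4 : ℝ) = 2 * y ^ (1 / 4 : ℝ) := by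
  have h : (16 : ℝ) ^ (1 / 4 : ℝ) = 2 := by
    rw [show (16 : ℝ) = 2 ^ (4 : ℝ) by norm_num, ← Real.rpow_mul zero_le_two]
    norm_num
  rw [Real.mul_rpow (by norm_num) hy, h]

theorem arith {K r F F' v v' : ℝ} (hK : 1 ≤ K) (hr : 0 < r) (h1 : 8 * K ≤ F') (h2 : F' ≤ 2 * r)
    (h3 : F' - 3 * K ≤ F) (h4 : v ≤ K * 1 * (r / F) ^ (1 / 4 : ℝ)) (h5 : v' ≤ v + 3 * K) :
    v' ≤ 8 * K * 1 * (r / F') ^ (1 / 4 : ℝ) := by
  have hF' : 0 < F' := by linarith
  have hF : 0 < F := by linarith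
  have hy : 0 ≤ r / F' := by positivity
  have e1 : (r / F) ^ (1 / 4 : ℝ) ≤ 2 * (r / F') ^ (1 / 4 : ℝ) := by
    rw [← rpow_sixteen _ hy]
    refine Real.rpow_le_rpow (by positivity) ?_ (by norm_num)
    rw [← mul_div_assoc, div_le_div_iff₀ hF hF']
    nlinarith
  have e2 : 1 ≤ 2 * (r / F') ^ (1 / 4 : ℝ) := by
    rw [← rpow_sixteen _ hy]
    refine Real.one_le_rpow ?_ (by norm_num)
    rw [← mul_div_assoc, one_le_div hF']
    linarith
  nlinarith [mul_le_mul_of_nonneg_left e1 (by linarith : 0 ≤ K),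
    mul_le_mul_of_nonneg_left e2 (by linarith : 0 ≤ K)]

/-- The data for the planes with the limit normals. -/
theorem dat_lim {M : Surf} {ν n : Bool → E} {η K r : ℝ} {P : Pl} (h : Dat M ν η K 1 0 r P)
    (hK : 1 ≤ K) (hr : 1 ≤ r) (hu : ∀ i, ‖n i‖ = 1) (hn : ∀ i, ‖P.n i - n i‖ ≤ 3 * K / r)
    (hh1 : hh K 1 r ≤ r) : Dat M ν η (8 * K) 1 0 r ⟨n, P.c⟩ := by
  have hr0 : 0 < r := by linarith
  have hq : 1 ≤ r ^ (1 / 4 : ℝ) := Real.one_le_rpow hr (by norm_num)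
  have hKq : K ≤ K * r ^ (1 / 4 : ℝ) := le_mul_of_one_le_right (by linarith) hq
  have h0 : ∀ i, Pl.f ⟨n, P.c⟩ i 0 = P.f i 0 := fun i => by simp [Pl.f]
  have hd : ∀ i, ∀ x ∈ ball (0 : E) r, |Pl.f ⟨n, P.c⟩ i x - P.f i x| ≤ 3 * K := fun i x hx => by
    have e : Pl.f ⟨n, P.c⟩ i x - P.f i x = ⟪x, n i⟫ - ⟪x, P.n i⟫ := by
      simp only [Pl.f]
      ring
    rw [e]
    refine (abs_inner_sub_le x _ _).trans ?_
    rw [norm_sub_rev]
    refine (mul_le_mul (mem_ball_zero_iff.1 hx).le (hn i) (norm_nonneg _) hr0.le).trans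
      (le_of_eq ?_)
    field_simp
  have hb : ∀ i, ∀ x ∈ ball (0 : E) r, |Pl.f ⟨n, P.c⟩ i x| ≤ 2 * r := fun i x hx => by
    have h1 := Pl.Close.abs_f_le (P := ⟨n, P.c⟩) (ν := n) (δ := 0)
      ⟨hu, fun j => by simp⟩ i x 0
    rw [h0, sub_zero] at h1
    linarith [h.ctr i, mem_ball_zero_iff.1 hx]
  refine ⟨fun i => ?_, fun i x hx hF => ?_, fun i x hx hF => ?_⟩
  · rw [h0]
    refine (h.ctr i).trans ?_
    rw [hh_one, hh_one]
    nlinarith
  · rw [hh_one] at hF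
    have d1 := abs_le.1 (hd (!i) x hx.2)
    have d2 := abs_le.1 (hd i x hx.2)
    obtain ⟨k1, k2⟩ := h.pos i x hx (by rw [hh_one]; linarith [d1.2])
    refine ⟨arith hK hr0 ?_ (hb _ x hx.2) ?_ k1 ?_, k2⟩
    · exact le_trans (by linarith) (le_abs_self _)
    · linarith [abs_sub_abs_le_abs_sub (Pl.f ⟨n, P.c⟩ (!i) x) (P.f (!i) x), hd (!i) x hx.2]
    · linarith [abs_sub_abs_le_abs_sub (Pl.f ⟨n, P.c⟩ i x) (P.f i x), hd i x hx.2]
  · rw [hh_one] at hF
    have d1 := abs_le.1 (hd (!i) x hx.2)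
    obtain ⟨k1, k2⟩ := h.neg i x hx (by rw [hh_one]; linarith [d1.1])
    refine ⟨arith hK hr0 ?_ (hb _ x hx.2) ?_ k1 ?_, k2⟩
    · exact le_trans (by linarith) (neg_le_abs _)
    · linarith [abs_sub_abs_le_abs_sub (Pl.f ⟨n, P.c⟩ (!i) x) (P.f (!i) x), hd (!i) x hx.2]
    · linarith [abs_sub_abs_le_abs_sub (Pl.f ⟨n, P.c⟩ i x) (P.f i x), hd i x hx.2]

/-- Changing the reference normals. -/
theorem dat_ref {M : Surf} {ν n : Bool → E} {η δ K u r : ℝ} {c : E} {P : Pl}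
    (h : Dat M ν η K u c r P) (hn : ∀ i, ‖n i - ν i‖ ≤ δ) : Dat M n (η + δ) K u c r P := by
  refine ⟨h.ctr, fun i x hx hF => ⟨(h.pos i x hx hF).1, ?_⟩,
    fun i x hx hF => ⟨(h.neg i x hx hF).1, ?_⟩⟩
  · refine (norm_sub_le_norm_sub_add_norm_sub _ (ν i) _).trans
      (add_le_add (h.pos i x hx hF).2 ?_)
    rw [norm_sub_rev]
    exact hn i
  · have e : M.N x + n i = M.N x + ν i + (n i - ν i) := by abel
    rw [e]
    exact (norm_add_le _ _).trans (add_le_add (h.neg i x hx hF).2 (hn i))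

end BCL

open BCL in
theorem c_bcl_of (hPTN : C_PTN) : C_BCL := by
  intro M β η ω K a ν Pf hM hν hω hωβ hK ha hD
  have hβ := hν.pos
  have hlim : ∀ i, ∃ n : E, Tendsto (fun k : ℕ => (Pf (2 ^ k * a)).n i) atTop (𝓝 n) ∧
      ∀ r, a ≤ r → ‖(Pf r).n i - n‖ ≤ 3 * K / r := fun i =>
    exists_lim (g := fun r => (Pf r).n i) ha fun r r' h1 h2 h3 => by
      simpa only [mul_one] using (hD r').drift r r' h1 h2 h3 le_rfl i
  choose n hn1 hn2 using hlim
  have hk : ∀ k : ℕ, (Pf (2 ^ k * a)).Close ν (ω / 4) := fun k =>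
    (hD _).close _ (le_mul_of_one_le_left ha.le (one_le_pow₀ one_le_two)) le_rfl
  have hu : ∀ i, ‖n i‖ = 1 := fun i =>
    tendsto_nhds_unique (hn1 i).norm
      (tendsto_const_nhds.congr fun k => ((hk k).unit i).symm)
  have hc : ∀ i, ‖n i - ν i‖ ≤ ω / 4 := fun i =>
    le_of_tendsto' ((hn1 i).sub_const (ν i)).norm fun k => (hk k).close i
  obtain ⟨Λ, hΛ, hs⟩ := hh_small (8 * K) 1 (ε := β / 20) (by linarith) one_pos
  refine ⟨n, 8 * K, max a Λ, by linarith, hu,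
    hν.ang_near hu fun i => (hc i).trans (by linarith), by linarith,
    hΛ.trans (le_max_right _ _), fun r hr => ⟨(Pf r).c, ?_⟩⟩
  have hra : a ≤ r := (le_max_left _ _).trans hr
  have hrΛ : Λ ≤ r := (le_max_right _ _).trans hr
  have hr1 : 1 ≤ r := hΛ.trans hrΛ
  have h8 : hh (8 * K) 1 r ≤ β / 20 * r := by
    simpa only [one_mul] using hs 1 r one_pos (by linarith)
  have h1 : hh K 1 r ≤ r := by
    refine (hh_mono (by linarith) one_pos le_rfl (by linarith) (by linarith)).trans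
      (h8.trans ?_)
    nlinarith [hν.le_one]
  have hd := dat_lim ((hD r).dat r hra le_rfl) hK hr1 hu (fun i => hn2 i r hra) h1
  refine ⟨dat_ref hd fun i => (hc i).trans (by linarith), ?_⟩
  exact hPTN M β η ω (8 * K) 1 r ν 0 _ hM hν hωβ ⟨hu, fun i => (hc i).trans (by linarith)⟩
    (by linarith) one_pos hr1 h8 hd ((hD r).near r hra le_rfl)

end MW.CI
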