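import Pool.Agent.P.MP_064970_gt.SC

/-! Case I, row BCM: the mass near the axis. With `H = hh K 1 R` and `g = f true - f false`, the
points of the surface in `ball 0 R` with `|g| ≤ τ`, `4 H ≤ τ`, lie in a tube of width `3 τ / β`
about the axis, so their mass is at most `600 τ R / β`. The integral is bounded by the layer cake
formula. -/

open MeasureTheory Set Filter Topology Metric
open scoped RealInnerProductSpace ENNReal ComplexConjugate Real

noncomputable section

namespace MW.CI

namespace BCM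

variable {β η K R : ℝ} {M : Surf} {P : Pl}

theorem beta_le (ha : ⟪P.n false, P.n true⟫ ^ 2 ≤ 1 - β ^ 2) : β ≤ 1 := by
  have h := sq_nonneg ⟪P.n false, P.n true⟫
  nlinarith only [h, ha]

/-- A point on both planes close to the origin. -/
theorem exists_o (hβ : 0 < β) (hn : ∀ i, ‖P.n i‖ = 1)
    (ha : ⟪P.n false, P.n true⟫ ^ 2 ≤ 1 - β ^ 2) (hH : hh K 1 R ≤ β / 4 * R)
    (hD : Dat M P.n η K 1 0 R P) : ∃ o : E, ‖o‖ ≤ R ∧ ∀ i x, P.f i x = ⟪x - o, P.n i⟫ := by
  obtain ⟨o, h0, h1, ho⟩ := exists_solve hβ (hn false) (hn true) ha (P.c false) (P.c true)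
  have hc : ∀ i, |P.c i| ≤ β / 4 * R := fun i => by
    have := hD.ctr i
    rw [Pl.f, inner_zero_left, zero_sub, abs_neg] at this
    exact this.trans hH
  refine ⟨o, ho.trans ?_, fun i x => ?_⟩
  · calc 2 / β * (|P.c false| + |P.c true|) ≤ 2 / β * (β / 4 * R + β / 4 * R) :=
          mul_le_mul_of_nonneg_left (add_le_add (hc false) (hc true)) (by positivity)
      _ = R := by field_simp; ring
  · rw [Pl.f, inner_sub_left]
    cases i
    · rw [h0]
    · rw [h1]

/-- The mass of the set where the difference of the two functions is small. -/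
theorem mass (hβ : 0 < β) (hM : M.Mem) (hn : ∀ i, ‖P.n i‖ = 1)
    (ha : ⟪P.n false, P.n true⟫ ^ 2 ≤ 1 - β ^ 2) (hK : 1 ≤ K) (hR : 1 ≤ R)
    (hH : hh K 1 R ≤ β / 4 * R) (hD : Dat M P.n η K 1 0 R P) {τ : ℝ} (hτ : 4 * hh K 1 R ≤ τ) :
    M.μ.real (ball 0 R ∩ {x | |P.f true x - P.f false x| ≤ τ}) ≤ 600 / β * τ * R := by
  have hR0 : 0 < R := by linarith
  have hH1 : 1 ≤ hh K 1 R := (le_hh hK one_pos hR).2
  have hτ0 : 0 < τ := by linarith
  have hδ : 0 < 3 * τ / β := by positivity
  rcases le_or_gt (3 * τ / β) (2 * R) with hc | hc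
  · obtain ⟨o, ho, hf⟩ := exists_o hβ hn ha hH hD
    obtain ⟨e, he, h0, h1⟩ := exists_axis (P.n false) (P.n true)
    have ht := hM.bd.tube o e he hδ hc
    refine ENNReal.toReal_le_of_le_ofReal (by positivity) ?_
    have heq : 600 / β * τ * R = 100 * (3 * τ / β) * (2 * R) := by ring
    rw [heq]
    refine le_trans (measure_mono_ae ?_) ht
    filter_upwards [M.ae_mem] with x hx hx'
    obtain ⟨hb, hg⟩ := hx'
    have hg : |P.f true x - P.f false x| ≤ τ := hg
    have hb' : ‖x‖ < R := by simpa using hb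
    refine ⟨?_, ?_⟩
    · rw [mem_ball, dist_eq_norm]
      have := norm_sub_le x o
      linarith
    · have hd := dax_le hβ (hn false) (hn true) he h0 h1 ha o x
      rw [← hf, ← hf] at hd
      have hs : |P.f false x| + |P.f true x| ≤ 3 * τ / 2 := by
        obtain ⟨i, hi⟩ := hD.near_plane hK one_pos hR ⟨hx, hb⟩
        have e1 := abs_sub_abs_le_abs_sub (P.f true x) (P.f false x)
        have e2 := abs_sub_abs_le_abs_sub (P.f false x) (P.f true x)
        rw [abs_sub_comm] at e2
        cases i <;> linarith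
      calc ‖x - o - ⟪x - o, e⟫ • e‖ ≤ 2 / β * (|P.f false x| + |P.f true x|) := hd
        _ ≤ 2 / β * (3 * τ / 2) := mul_le_mul_of_nonneg_left hs (by positivity)
        _ = 3 * τ / β := by ring
  · have h1 : M.μ.real (ball 0 R ∩ {x | |P.f true x - P.f false x| ≤ τ}) ≤ M.μ.real (ball 0 R) :=
      measureReal_mono inter_subset_left (hM.bd.lt_top isBounded_ball).ne
    have h2 := hM.bd.real_ball 0 hR0
    have hπ := Real.pi_lt_four
    have h3 : 2 * π * R ^ 2 ≤ 8 * R ^ 2 := by nlinarith only [hπ, sq_nonneg R]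
    have h4 : 600 / β * τ * R = 200 * R * (3 * τ / β) := by ring
    rw [h4]
    nlinarith only [h1, h2, h3, hc, hR0]

theorem meas_g (P : Pl) : Measurable fun x => |P.f true x - P.f false x| :=
  (((P.continuous_f true).sub (P.continuous_f false)).abs).measurable

theorem meas_A (P : Pl) (R s : ℝ) :
    MeasurableSet (ball (0 : E) R ∩ {x | s < |P.f true x - P.f false x|}) :=
  measurableSet_ball.inter (measurableSet_lt measurable_const (meas_g P))

theorem meas_φ (P : Pl) (R : ℝ) :
    Measurable fun x => (R / |P.f true x - P.f false x|) ^ (1 / 2 : ℝ) :=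
  (measurable_const.div (meas_g P)).pow_const _

theorem integ (hM : M.Mem) (hK : 1 ≤ K) (hR : 1 ≤ R) :
    IntegrableOn (fun x => (R / |P.f true x - P.f false x|) ^ (1 / 2 : ℝ))
      (ball 0 R ∩ {x | 4 * hh K 1 R < |P.f true x - P.f false x|}) M.μ := by
  have hH1 : 1 ≤ hh K 1 R := (le_hh hK one_pos hR).2
  refine hM.bd.integrableOn (isBounded_ball.subset inter_subset_left) (meas_φ P R)
    (C := R ^ (1 / 2 : ℝ)) (fun x hx => ?_) (meas_A P R _)
  have hg : 4 * hh K 1 R < |P.f true x - P.f false x| := hx.1.2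
  have h0 : 0 ≤ R / |P.f true x - P.f false x| := div_nonneg (by linarith) (abs_nonneg _)
  rw [abs_of_nonneg (Real.rpow_nonneg h0 _)]
  exact Real.rpow_le_rpow h0 (div_le_self (by linarith) (by linarith)) (by norm_num)

/-- The distribution function of the integrand. -/
theorem level (hβ : 0 < β) (hM : M.Mem) (hn : ∀ i, ‖P.n i‖ = 1)
    (ha : ⟪P.n false, P.n true⟫ ^ 2 ≤ 1 - β ^ 2) (hK : 1 ≤ K) (hR : 1 ≤ R)
    (hH : hh K 1 R ≤ β / 4 * R) (hD : Dat M P.n η K 1 0 R P) {t : ℝ} (ht : 0 < t) :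
    (M.μ.restrict (ball 0 R ∩ {x | 4 * hh K 1 R < |P.f true x - P.f false x|})).real
      {x | t < (R / |P.f true x - P.f false x|) ^ (1 / 2 : ℝ)} ≤
      1200 / β * R ^ 2 * (1 + t ^ 2)⁻¹ := by
  have hR0 : 0 < R := by linarith
  have hH1 : 1 ≤ hh K 1 R := (le_hh hK one_pos hR).2
  have hβ1 := beta_le ha
  have hfin := (hM.bd.lt_top (isBounded_ball (x := (0 : E)) (r := R))).ne
  rw [measureReal_restrict_apply (measurableSet_lt measurable_const (meas_φ P R))]
  rcases le_total t 1 with h1 | h1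
  · have h2 := (measureReal_mono (s₁ := {x | t < (R / |P.f true x - P.f false x|) ^ (1 / 2 : ℝ)} ∩
      (ball 0 R ∩ {x | 4 * hh K 1 R < |P.f true x - P.f false x|}))
      (inter_subset_right.trans inter_subset_left) hfin).trans (hM.bd.real_ball 0 hR0)
    refine h2.trans ?_
    have hπ := Real.pi_lt_four
    have h3 : 2 * π * R ^ 2 ≤ 8 * R ^ 2 := by nlinarith only [hπ, sq_nonneg R]
    have h4 : (1 / 2 : ℝ) ≤ (1 + t ^ 2)⁻¹ := by
      rw [one_div]
      exact inv_anti₀ (by positivity) (by nlinarith only [h1, ht])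
    have h5 : (1200 : ℝ) ≤ 1200 / β := by
      rw [le_div_iff₀ hβ]
      linarith
    calc 2 * π * R ^ 2 ≤ 1200 * R ^ 2 * (1 / 2) := by nlinarith only [h3, sq_nonneg R]
      _ ≤ 1200 / β * R ^ 2 * (1 + t ^ 2)⁻¹ := by gcongr
  · have hsub : ∀ x ∈ {x | t < (R / |P.f true x - P.f false x|) ^ (1 / 2 : ℝ)} ∩
        (ball 0 R ∩ {x | 4 * hh K 1 R < |P.f true x - P.f false x|}),
        |P.f true x - P.f false x| ≤ R / t ^ 2 := by
      intro x hx
      have hg : 4 * hh K 1 R < |P.f true x - P.f false x| := hx.2.2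
      have hl : t < (R / |P.f true x - P.f false x|) ^ (1 / 2 : ℝ) := hx.1
      have hg0 : 0 < |P.f true x - P.f false x| := by linarith
      rw [← Real.sqrt_eq_rpow, Real.lt_sqrt ht.le, lt_div_iff₀ hg0] at hl
      rw [le_div_iff₀ (by positivity)]
      linarith
    rcases le_or_gt (4 * hh K 1 R) (R / t ^ 2) with h2 | h2
    · have h3 := mass hβ hM hn ha hK hR hH hD h2
      refine le_trans (measureReal_mono (fun x hx => mem_inter hx.2.1 (hsub x hx))
        (ne_top_of_le_ne_top hfin (measure_mono inter_subset_left))) (h3.trans ?_)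
      have h4 : (2 * t ^ 2)⁻¹ ≤ (1 + t ^ 2)⁻¹ :=
        inv_anti₀ (by positivity) (by nlinarith only [h1])
      calc 600 / β * (R / t ^ 2) * R = 1200 / β * R ^ 2 * (2 * t ^ 2)⁻¹ := by
            field_simp; ring
        _ ≤ 1200 / β * R ^ 2 * (1 + t ^ 2)⁻¹ := by gcongr
    · have h3 : {x | t < (R / |P.f true x - P.f false x|) ^ (1 / 2 : ℝ)} ∩
          (ball 0 R ∩ {x | 4 * hh K 1 R < |P.f true x - P.f false x|}) = ∅ := by
        refine eq_empty_of_forall_notMem fun x hx => ?_
        have hg : 4 * hh K 1 R < |P.f true x - P.f false x| := hx.2.2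
        have := hsub x hx
        linarith
      rw [h3, measureReal_empty]
      positivity

end BCM

theorem c_bcm_of : C_BCM := by
  intro β hβ
  refine ⟨2400 / β, by positivity, fun M P η K R hM hn ha hK hR hH hD => ⟨?_, ?_, ?_⟩⟩
  · refine (BCM.mass hβ hM hn ha hK hR hH hD le_rfl).trans (le_of_eq ?_)
    ring
  · exact BCM.integ hM hK hR
  · have hi := BCM.integ (P := P) hM hK hR
    rw [Integrable.integral_eq_integral_meas_lt hi (Eventually.of_forall fun x =>
      Real.rpow_nonneg (div_nonneg (by linarith) (abs_nonneg _)) _)]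
    have h1 : IntegrableOn (fun t : ℝ => 1200 / β * R ^ 2 * (1 + t ^ 2)⁻¹) (Ioi 0) :=
      (integrable_inv_one_add_sq.const_mul _).integrableOn
    refine (integral_mono_of_nonneg (Eventually.of_forall fun t => measureReal_nonneg) h1 ?_).trans ?_
    · filter_upwards [ae_restrict_mem measurableSet_Ioi] with t ht
      exact BCM.level hβ hM hn ha hK hR hH hD ht
    · rw [integral_const_mul, integral_Ioi_inv_one_add_sq, Real.arctan_zero, sub_zero]
      have hπ := Real.pi_lt_four
      have h2 : 0 ≤ 1200 / β * R ^ 2 := by positivity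
      calc 1200 / β * R ^ 2 * (π / 2) ≤ 1200 / β * R ^ 2 * 2 :=
            mul_le_mul_of_nonneg_left (by linarith) h2
        _ = 2400 / β * R ^ 2 := by ring

end MW.CI
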