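import Pool.Agent.P.MP_064970_gt.SC

/-! Case I, row BCS. Sketch:
e unit; A with A e3 = e; M' = M.sim A.symm 1 0; Far.sim; the new normals add up to l e3;
IsSim.cxg. BCE, BCZ give E0 = 0 on balls for M'; EDZ with the constant sequence (any ultrafilter,
CONST) gives M'.EdZero e3; IsSim.edZero. -/

open MeasureTheory Set Filter Topology Metric
open scoped RealInnerProductSpace ENNReal ComplexConjugate Real

noncomputable section

namespace MW.CI

theorem c_bcs_of (hEDZ : S_EDZ) (hCONST : S_CONST) (hBCX : C_BCX) (hBCE : C_BCE) (hBCZ : C_BCZ) : C_BCS := by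
  intro M n β η K a hM hF hη
  have h1 : 0 < ‖n false + n true‖ :=
    hF.pos.trans_le (le_norm_add hF.pos.le (hF.unit _) (hF.unit _) hF.ang).1
  have hX := hBCX M n β η K a hF
  obtain ⟨e, he⟩ : ∃ e : E, e = ‖n false + n true‖⁻¹ • (n false + n true) := ⟨_, rfl⟩
  have h2 : ‖e‖ = 1 := by
    rw [he, norm_smul, norm_inv, norm_norm, inv_mul_cancel₀ h1.ne']
  have h3 : n false + n true = ‖n false + n true‖ • e := by
    rw [he, smul_smul, mul_inv_cancel₀ h1.ne', one_smul]
  rw [← he] at hX ⊢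
  obtain ⟨w, w1, w2, -⟩ := exists_axis e e
  obtain ⟨A, hA, -⟩ := exists_frame h2 w1 w2
  have hs := M.isSim A.symm one_pos 0
  have h4 : A.symm e = e3 := by rw [← hA, A.symm_apply_apply]
  have hM' := hs.mem hM
  have hX' := (hs.cxg h2).2 hX
  rw [h4] at hX'
  have h5 := hBCZ _ hM' hX' (hBCE _ _ β η K a _ hM' (hF.sim hs) hη h1
    (by rw [← map_add, ← h4, ← map_smul, ← h3]) hX')
  rw [← hs.edZero, h4]
  refine hEDZ (pure 0) (fun _ => _) _ (fun _ => e3) e3 (fun _ => hM') hM' (hCONST _ _ hM')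
    (fun _ => inner_frame.2.2.2) tendsto_const_nhds hX' fun R => ?_
  rw [h5 R]
  exact tendsto_const_nhds

end MW.CI
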