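import Pool.Agent.P.MP_064970_gt.SC

/-! Case I, row BCX. Sketch:
e unit, <n i, e> = |n false + n true|/2 >= beta/2 (le_norm_add, inner_add_self). L = 4/beta. If
L|x - <x,e>e| < |<x,e>| then <x,n i> has the sign of <x,e> and size >= (beta/4)|<x,e>| >=
beta|x|/8. Use Pat at r = 2|x|, |c i| <= hh K 1 r (Dat.ctr) and 2 hh K 1 (2|x|) < beta|x|/8 for
large |x| (hh_small). -/

open MeasureTheory Set Filter Topology Metric
open scoped RealInnerProductSpace ENNReal ComplexConjugate Real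

noncomputable section

namespace MW.CI

theorem c_bcx_of : C_BCX := by
  intro M n β η K a h
  have hβ := h.pos
  have hβ1 : β ≤ 1 := by nlinarith [h.ang, sq_nonneg ⟪n false, n true⟫]
  have hl := (le_norm_add hβ.le (h.unit false) (h.unit true) h.ang).1
  obtain ⟨h0, h1, -⟩ := inner_add_self (h.unit false) (h.unit true)
  have hl0 : ‖n false + n true‖ ≠ 0 := (hβ.trans_le hl).ne'
  set e := ‖n false + n true‖⁻¹ • (n false + n true) with he
  have he1 : ‖e‖ = 1 := by rw [he, norm_smul, norm_inv, norm_norm, inv_mul_cancel₀ hl0]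
  have hen : ∀ i, β / 2 ≤ ⟪e, n i⟫ := fun i => by
    have : ⟪e, n i⟫ = ‖n false + n true‖ / 2 := by
      rw [he, real_inner_smul_left]
      cases i
      · rw [h0]; field_simp
      · rw [h1]; field_simp
    linarith
  obtain ⟨Λ, hΛ, hs⟩ := hh_small K 2 (ε := β / 20) (by positivity) two_pos
  refine ⟨max a Λ, 4 / β, lt_max_of_lt_right (by linarith), by positivity, fun x hx hc => ?_⟩
  have ha := (le_max_left _ _).trans hx
  have hx0 : 0 < ‖x‖ := by linarith [h.a1]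
  obtain ⟨c, hD, hP⟩ := h.dat (2 * ‖x‖) (by linarith)
  have h2 := hs 1 ‖x‖ one_pos (by linarith [(le_max_right _ _).trans hx])
  rw [div_mul_eq_mul_div, div_lt_iff₀ hβ] at hc
  have h3 : ‖x‖ ≤ ‖x - ⟪x, e⟫ • e‖ + |⟪x, e⟫| := by
    have := norm_add_le (x - ⟪x, e⟫ • e) (⟪x, e⟫ • e)
    rwa [sub_add_cancel, norm_smul, he1, mul_one, Real.norm_eq_abs] at this
  have h4 : ∀ i, |Pl.f ⟨n, c⟩ i x - ⟪x, e⟫ * ⟪e, n i⟫| ≤
      ‖x - ⟪x, e⟫ • e‖ + hh K 1 (2 * ‖x‖) := fun i => by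
    have h5 := abs_real_inner_le_norm (x - ⟪x, e⟫ • e) (n i)
    rw [h.unit, mul_one, inner_sub_left, real_inner_smul_left] at h5
    have h6 := hD.ctr i
    simp only [Pl.f, inner_zero_left] at h6 ⊢
    rw [abs_le] at h5 h6 ⊢
    constructor <;> linarith [h5.1, h5.2, h6.1, h6.2]
  have hb : x ∈ ball (0 : E) (2 * ‖x‖) := mem_ball_zero_iff.2 (by linarith)
  have hh0 : 0 ≤ hh K 1 (2 * ‖x‖) := (abs_nonneg _).trans (hD.ctr false)
  generalize hh K 1 (2 * ‖x‖) = m at *
  generalize ‖x - ⟪x, e⟫ • e‖ = d at *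
  generalize ⟪x, e⟫ = t at *
  have h7 : d + 2 * m < |t| * (β / 2) := by
    have h8 : |t| * β ≤ |t| := mul_le_of_le_one_right (abs_nonneg t) hβ1
    have h9 : β / 20 * ‖x‖ ≤ β / 20 * (5 / 4 * |t|) := by gcongr; linarith
    linarith [mul_nonneg (abs_nonneg t) hβ.le]
  rcases le_total 0 t with ht | ht
  · have h8 : ∀ i, m < Pl.f ⟨n, c⟩ i x := fun i => by
      rw [abs_of_nonneg ht] at h7
      linarith [(abs_le.1 (h4 i)).1, mul_le_mul_of_nonneg_left (hen i) ht]
    exact (hP x hb ((h8 _).trans_le (le_abs_self _)) ((h8 _).trans_le (le_abs_self _))).2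
      (mul_pos (hh0.trans_lt (h8 _)) (hh0.trans_lt (h8 _)))
  · have h8 : ∀ i, m < -Pl.f ⟨n, c⟩ i x := fun i => by
      rw [abs_of_nonpos ht] at h7
      linarith [(abs_le.1 (h4 i)).2, mul_le_mul_of_nonpos_left (hen i) ht]
    exact (hP x hb ((h8 _).trans_le (neg_le_abs _)) ((h8 _).trans_le (neg_le_abs _))).2
      (mul_pos_of_neg_of_neg (by linarith [h8 false]) (by linarith [h8 true]))

end MW.CI
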