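import Pool.Agent.P.MP_064970_gt.SC

/-! Case I, row BCZ. Sketch:
R0, L0 from CXg. For r >= max(R0,1): M.Slab (closedBall 0 r) T0 (2 T0), T0 = (L0+1) r, and all
points of S over the closed disc have |x 2| < T0. E r = E0 e3 (cyl (ball 0 r) (2(L0+1) r)) is
monotone (Mem.E0_mono) and dominates E0 (ball 0 R). eta_r y = chi (y/r), chi a ContDiffBump with
radii 1/2, 1; |D eta_r| <= B/r, = 0 on ball 0 (r/2) and off closedBall 0 r. CAC: E(r/2) <= 8 B^2
C, so E is bounded and converges. CI and |alpha-c| sqrt(2 ed)|D eta| <= t (alpha-c)^2 B^2/r^2 +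
ed/(2t) on the annulus: E(r/2) <= t B^2 C + (E(2r) - E(r/2))/(2t). Let r -> infinity, then t -> 0. -/

open MeasureTheory Set Filter Topology Metric
open scoped RealInnerProductSpace ENNReal ComplexConjugate Real

noncomputable section

namespace MW.CI

namespace BCZ

/-- A monotone bounded function whose values are controlled by its increments is nonpositive. -/
theorem nonpos_of {F : ℝ → ℝ} (hm : Monotone F) {D D' r₁ : ℝ} (hb : ∀ r, r₁ ≤ r → F (r / 2) ≤ D')
    (h : ∀ t, 0 < t → ∀ r, r₁ ≤ r → F (r / 2) ≤ t * D + (F (2 * r) - F (r / 2)) / (2 * t))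
    (R : ℝ) : F R ≤ 0 := by
  have hbd : BddAbove (range F) := by
    refine ⟨D', ?_⟩
    rintro _ ⟨r, rfl⟩
    refine (hm ?_).trans (hb (max r₁ (2 * r)) (le_max_left _ _))
    linarith [le_max_right r₁ (2 * r)]
  have ht : Tendsto F atTop (𝓝 (⨆ r, F r)) := tendsto_atTop_ciSup hm hbd
  have h1 : Tendsto (fun r : ℝ => F (r / 2)) atTop (𝓝 (⨆ r, F r)) :=
    ht.comp (tendsto_id.atTop_div_const two_pos)
  have h2 : Tendsto (fun r : ℝ => F (2 * r)) atTop (𝓝 (⨆ r, F r)) :=
    ht.comp (tendsto_id.const_mul_atTop two_pos)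
  have h3 : ∀ t, 0 < t → (⨆ r, F r) ≤ t * D := fun t ht0 => by
    have h4 := ((h2.sub h1).div_const (2 * t)).const_add (t * D)
    rw [sub_self, zero_div, add_zero] at h4
    exact le_of_tendsto_of_tendsto h1 h4 ((eventually_ge_atTop r₁).mono fun r hr => h t ht0 r hr)
  have h5 : Tendsto (fun t : ℝ => t * D) (𝓝[>] 0) (𝓝 0) := by
    have h6 : Tendsto (fun t : ℝ => t * D) (𝓝 0) (𝓝 (0 * D)) :=
      (continuous_id.mul continuous_const).tendsto 0
    rw [zero_mul] at h6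
    exact h6.mono_left nhdsWithin_le_nhds
  exact (le_ciSup hbd R).trans (ge_of_tendsto h5 (eventually_mem_nhdsWithin.mono h3))

/-- The cutoff functions. -/
theorem exists_cut : ∃ B : ℝ, ∀ r : ℝ, 0 < r → ∃ η : ℂ → ℝ, ContDiff ℝ 1 η ∧
    HasCompactSupport η ∧ tsupport η ⊆ closedBall 0 r ∧ (∀ y, 0 ≤ η y ∧ η y ≤ 1) ∧
    (∀ y, ‖y‖ < r / 2 → η y = 1 ∧ fderiv ℝ η y = 0) ∧ ∀ y, ‖fderiv ℝ η y‖ ≤ B / r := by
  let χ : ContDiffBump (0 : ℂ) := ⟨1 / 2, 1, by norm_num, by norm_num⟩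
  have hχ : ContDiff ℝ 1 χ := χ.contDiff
  obtain ⟨B, hB⟩ := (hχ.continuous_fderiv one_ne_zero).bounded_above_of_compact_support
    (χ.hasCompactSupport.fderiv ℝ)
  refine ⟨B, fun r hr => ?_⟩
  have hn : ∀ y : ℂ, ‖r⁻¹ • y‖ = ‖y‖ / r := fun y => by
    rw [norm_smul, norm_inv, Real.norm_of_nonneg hr.le, inv_mul_eq_div]
  have hs : tsupport (fun y : ℂ => χ (r⁻¹ • y)) ⊆ closedBall 0 r := by
    refine closure_minimal (fun y hy => ?_) isClosed_closedBall
    have h1 : r⁻¹ • y ∈ ball (0 : ℂ) 1 := χ.support_eq ▸ hy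
    rw [mem_ball_zero_iff, hn, div_lt_one hr] at h1
    exact mem_closedBall_zero_iff.2 h1.le
  have h1 : ∀ y : ℂ, ‖y‖ < r / 2 → χ (r⁻¹ • y) = 1 := fun y hy => by
    refine χ.one_of_mem_closedBall (mem_closedBall_zero_iff.2 ?_)
    rw [hn, div_le_iff₀ hr]
    change ‖y‖ ≤ 1 / 2 * r
    linarith
  refine ⟨fun y => χ (r⁻¹ • y), hχ.comp (contDiff_id.const_smul _),
    (isCompact_closedBall 0 r).of_isClosed_subset isClosed_closure hs, hs,
    fun y => ⟨χ.nonneg, χ.le_one⟩, fun y hy => ⟨h1 y hy, ?_⟩, fun y => ?_⟩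
  · have h2 : (fun y : ℂ => χ (r⁻¹ • y)) =ᶠ[𝓝 y] fun _ => 1 := by
      filter_upwards [isOpen_ball.mem_nhds (mem_ball_zero_iff.2 hy)] with z hz
      exact h1 z (mem_ball_zero_iff.1 hz)
    rw [h2.fderiv_eq, fderiv_fun_const, Pi.zero_apply]
  · have h2 : HasFDerivAt (fun y : ℂ => χ (r⁻¹ • y))
        ((fderiv ℝ χ (r⁻¹ • y)).comp (r⁻¹ • ContinuousLinearMap.id ℝ ℂ)) y :=
      (hχ.differentiable one_ne_zero _).hasFDerivAt.comp y ((hasFDerivAt_id y).const_smul r⁻¹)
    rw [h2.fderiv, ContinuousLinearMap.comp_smul, ContinuousLinearMap.comp_id, norm_smul,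
      norm_inv, Real.norm_of_nonneg hr.le, inv_mul_eq_div]
    exact div_le_div_of_nonneg_right (hB _) hr.le

/-- The part of the surface over the open disc of radius `r`. -/
def V (M : Surf) (r : ℝ) : Set E := {x | ‖pr x‖ < r} ∩ M.S

theorem measurableSet_V (M : Surf) (r : ℝ) : MeasurableSet (V M r) :=
  (isOpen_lt continuous_pr.norm continuous_const).measurableSet.inter M.measurableSet_S

variable {M : Surf} {R₀ L r : ℝ}

theorem slab (hL : 0 < L) (hc : ∀ x : E, R₀ ≤ ‖x‖ → L * ‖x - ⟪x, e3⟫ • e3‖ < |⟪x, e3⟫| → x ∈ M.W')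
    (hr0 : 0 < r) (hr : R₀ ≤ r) (T : ℝ) : M.Slab (closedBall 0 r) ((L + 1) * r) T := by
  intro y hy t ht _
  have hy' := mem_closedBall_zero_iff.1 hy
  have h2 : (pt y t) 2 = t := by simp
  have h1 := abs_two_le (pt y t)
  rw [h2] at h1
  refine hc _ (by nlinarith) ?_
  have h3 : ‖pt y t - ⟪pt y t, e3⟫ • e3‖ = ‖y‖ := by
    have h4 := wedge_e3 (pt y t)
    rwa [wedge, pr_pt] at h4
  rw [h3, inner_e3, h2]
  nlinarith

theorem height (hL : 0 < L)
    (hc : ∀ x : E, R₀ ≤ ‖x‖ → L * ‖x - ⟪x, e3⟫ • e3‖ < |⟪x, e3⟫| → x ∈ M.W') (hr0 : 0 < r)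
    (hr : R₀ ≤ r) {x : E} (hx : x ∈ M.S) (hp : ‖pr x‖ ≤ r) : |x 2| < (L + 1) * r := by
  by_contra h
  have h1 := slab hL hc hr0 hr |x 2| (pr x) (mem_closedBall_zero_iff.2 hp) (x 2) (not_lt.1 h)
    le_rfl
  rw [pt_pr] at h1
  exact disjoint_left.1 M.disjS' h1 hx

theorem bdd_V (hR : 0 < R₀) (hL : 0 < L)
    (hc : ∀ x : E, R₀ ≤ ‖x‖ → L * ‖x - ⟪x, e3⟫ • e3‖ < |⟪x, e3⟫| → x ∈ M.W') (r : ℝ) :
    Bornology.IsBounded (V M r) := by
  refine (isBounded_cyl (K := closedBall 0 (max R₀ r)) isBounded_closedBall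
    ((L + 1) * max R₀ r)).subset fun x hx => ?_
  have h1 : ‖pr x‖ ≤ max R₀ r := (le_of_lt hx.1).trans (le_max_right _ _)
  exact ⟨mem_closedBall_zero_iff.2 h1,
    height hL hc (hR.trans_le (le_max_left _ _)) (le_max_left _ _) hx.2 h1⟩

/-- Integrals over the layer reduce to the cylinder. -/
theorem lay_eq (M : Surf) (K : Set ℂ) (T : ℝ) {f : E → ℝ} (hf : ∀ x, pr x ∉ K → f x = 0) :
    ∫ x in lay T ∩ M.top e3, f x ∂M.μ = ∫ x in cyl K T ∩ M.top e3, f x ∂M.μ :=
  setIntegral_eq_of_subset_of_forall_sdiff_eq_zero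
    ((measurableSet_lay T).inter (M.measurableSet_top e3)) (fun _ hx => ⟨hx.1.2, hx.2⟩)
    fun x hx => hf x fun hK => hx.2 ⟨⟨hK, hx.1.1⟩, hx.1.2⟩

theorem pos_of_top {x : E} (hx : x ∈ M.top e3) : 0 < M.N x 2 := by
  rw [← inner_e3]
  exact hx

theorem E0_eq (M : Surf) (A : Set E) :
    M.E0 e3 A = ∫ x in A ∩ M.top e3, M.edx e3 x * M.N x 2 ∂M.μ := by
  simp only [Surf.E0, inner_e3]

theorem int_E (hM : M.Mem) {A : Set E} (hA : Bornology.IsBounded A) :
    IntegrableOn (fun x => M.edx e3 x * M.N x 2) (A ∩ M.top e3) M.μ := by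
  simpa only [inner_e3] using hM.integrableOn_E0 norm_e3 (hA.subset inter_subset_left)

/-- The energy over the inner disc is bounded by the energy with a weight. -/
theorem E0_le (hM : M.Mem) {A B : Set E} (hA : MeasurableSet A) (hB : MeasurableSet B)
    (hAB : A ⊆ B) (hb : Bornology.IsBounded B) {g : E → ℝ} (hg : Continuous g)
    (h0 : ∀ x, 0 ≤ g x ∧ g x ≤ 1) (h1 : ∀ x ∈ A, g x = 1) :
    M.E0 e3 A ≤ ∫ x in B ∩ M.top e3, g x * M.edx e3 x * M.N x 2 ∂M.μ := by
  have hi : IntegrableOn (fun x => g x * M.edx e3 x * M.N x 2) (B ∩ M.top e3) M.μ := by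
    have h2 := (int_E hM hb).bdd_mul (c := 1) hg.aestronglyMeasurable
      (Eventually.of_forall fun x => by rw [Real.norm_of_nonneg (h0 x).1]; exact (h0 x).2)
    simpa only [IntegrableOn, mul_assoc] using h2
  rw [E0_eq, setIntegral_congr_fun (hA.inter (M.measurableSet_top e3))
    (g := fun x => g x * M.edx e3 x * M.N x 2) fun x hx => by simp only [h1 x hx.1, one_mul]]
  refine setIntegral_mono_set hi ?_ (inter_subset_inter_left _ hAB).eventuallyLE
  filter_upwards [ae_restrict_mem (hB.inter (M.measurableSet_top e3))] with x hx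
  exact mul_nonneg (mul_nonneg (h0 x).1 (M.edx_nonneg e3 x)) (pos_of_top hx.2).le

theorem amgm {a d e n t b : ℝ} (he : 0 ≤ e) (hn : 0 ≤ n) (ht : 0 < t) (hd : 0 ≤ d) (hb : d ≤ b) :
    |a| * √(2 * e) * d * n ≤ t * b ^ 2 * (a ^ 2 * n) + 1 / (2 * t) * (e * n) := by
  have h1 : √(2 * e) ^ 2 = 2 * e := Real.sq_sqrt (by linarith)
  have h2 : |a| * √(2 * e) * d ≤ t * d ^ 2 * a ^ 2 + 1 / (2 * t) * e := by
    have h3 : 1 / (2 * t) * e = √(2 * e) ^ 2 / (4 * t) := by rw [h1]; field_simp; ring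
    rw [h3, ← sq_abs a, ← sub_nonneg]
    have h4 : t * d ^ 2 * |a| ^ 2 + √(2 * e) ^ 2 / (4 * t) - |a| * √(2 * e) * d
        = (2 * t * d * |a| - √(2 * e)) ^ 2 / (4 * t) := by field_simp; ring
    rw [h4]
    positivity
  have h5 : t * d ^ 2 * a ^ 2 ≤ t * b ^ 2 * a ^ 2 := by gcongr
  nlinarith [mul_le_mul_of_nonneg_right (h2.trans (add_le_add_left h5 _)) hn]

end BCZ

open BCZ in
theorem c_bcz_of (hCI : S_CI) (hCAC : S_CAC) : C_BCZ := by
  rintro M hM ⟨R₀, L, hR, hL, hc⟩ ⟨C, r₂, hC⟩ R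
  obtain ⟨B, hB⟩ := exists_cut
  have hmono : Monotone fun r => M.E0 e3 (V M r) := fun r s hrs =>
    hM.E0_mono norm_e3 (fun x hx => ⟨lt_of_lt_of_le hx.1.1 hrs, hx.2⟩) (bdd_V hR hL hc s)
  have key : ∀ r, max R₀ r₂ ≤ r → M.E0 e3 (V M (r / 2)) ≤ 8 * (B ^ 2 * C) ∧ ∀ t, 0 < t →
      M.E0 e3 (V M (r / 2)) ≤ t * (B ^ 2 * C) +
        (M.E0 e3 (V M (2 * r)) - M.E0 e3 (V M (r / 2))) / (2 * t) := by
    intro r hr
    have hr1 : R₀ ≤ r := (le_max_left _ _).trans hr
    have hr0 : 0 < r := hR.trans_le hr1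
    obtain ⟨c, hc'⟩ := hC r ((le_max_right _ _).trans hr)
    obtain ⟨η, hη, hcs, hts, h01, hin, hD⟩ := hB r hr0
    have hT0 : 0 < (L + 1) * r := by positivity
    set T : ℝ := 2 * ((L + 1) * r) with hT
    have hTT : (L + 1) * r < T := by linarith
    obtain ⟨hI, hle⟩ := hc' T
    have hsl : M.Slab (tsupport η) ((L + 1) * r) T :=
      (slab hL hc hr0 hr1 T).mono hts le_rfl le_rfl
    have hz : ∀ y, y ∉ closedBall (0 : ℂ) r → η y = 0 ∧ fderiv ℝ η y = 0 := fun y hy =>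
      ⟨image_eq_zero_of_notMem_tsupport fun h => hy (hts h),
        fderiv_of_notMem_tsupport ℝ fun h => hy (hts h)⟩
    have hKm : MeasurableSet (cyl (closedBall (0 : ℂ) r) T) :=
      measurableSet_cyl measurableSet_closedBall T
    have hKb : Bornology.IsBounded (cyl (closedBall (0 : ℂ) r) T) :=
      isBounded_cyl isBounded_closedBall T
    have hKt := hKm.inter (M.measurableSet_top e3)
    have hVK : V M (r / 2) ⊆ cyl (closedBall 0 r) T := fun x hx => by
      have h1 : ‖pr x‖ ≤ r := (le_of_lt hx.1).trans (by linarith)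
      exact ⟨mem_closedBall_zero_iff.2 h1, (height hL hc hr0 hr1 hx.2 h1).trans hTT⟩
    have hcη : Continuous fun x : E => η (pr x) := hη.continuous.comp continuous_pr
    have hG : (B / r) ^ 2 * ∫ x in cyl (closedBall 0 r) T ∩ M.top e3,
        (M.alpha e3 x - c) ^ 2 * M.N x 2 ∂M.μ ≤ B ^ 2 * C := by
      refine (mul_le_mul_of_nonneg_left hle (sq_nonneg _)).trans (le_of_eq ?_)
      field_simp
    constructor
    · have h1 := hCAC M hM η _ T c hη hcs hT0 hTT hsl
      rw [lay_eq M (closedBall 0 r) T fun x hx => by simp [(hz _ hx).1],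
        lay_eq M (closedBall 0 r) T fun x hx => by simp [(hz _ hx).2]] at h1
      refine (E0_le hM (measurableSet_V M _) hKm hVK hKb (g := fun x => η (pr x) ^ 2) (hcη.pow 2)
        (fun x => ⟨sq_nonneg _, pow_le_one₀ (h01 _).1 (h01 _).2⟩)
        fun x hx => by rw [(hin _ hx.1).1, one_pow]).trans (h1.trans ?_)
      refine mul_le_mul_of_nonneg_left (le_trans ?_ hG) (by norm_num)
      rw [← integral_const_mul]
      refine integral_mono_of_nonneg ?_ (hI.const_mul _) ?_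
      · filter_upwards [ae_restrict_mem hKt] with x hx
        exact mul_nonneg (mul_nonneg (sq_nonneg _) (sq_nonneg _)) (pos_of_top hx.2).le
      · filter_upwards [ae_restrict_mem hKt] with x hx
        have h2 : ‖fderiv ℝ η (pr x)‖ ^ 2 ≤ (B / r) ^ 2 :=
          pow_le_pow_left₀ (norm_nonneg _) (hD _) 2
        nlinarith [mul_le_mul_of_nonneg_right h2
          (mul_nonneg (sq_nonneg (M.alpha e3 x - c)) (pos_of_top hx.2).le)]
    · intro t ht
      have h1 := hCI M hM η _ T c hη hcs (fun y => (h01 y).1) hT0 hTT hsl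
      rw [lay_eq M (closedBall 0 r) T fun x hx => by simp [(hz _ hx).1],
        lay_eq M (closedBall 0 r) T fun x hx => by simp [(hz _ hx).2]] at h1
      refine (E0_le hM (measurableSet_V M _) hKm hVK hKb hcη (fun x => h01 _)
        fun x hx => (hin _ hx.1).1).trans (h1.trans ?_)
      have hF := int_E hM hKb
      have hFi := hF.indicator (measurableSet_V M (r / 2))
      have hFs : IntegrableOn (fun x => M.edx e3 x * M.N x 2 -
          (V M (r / 2)).indicator (fun x => M.edx e3 x * M.N x 2) x)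
          (cyl (closedBall 0 r) T ∩ M.top e3) M.μ := hF.sub hFi
      have e1 : ∫ x in cyl (closedBall 0 r) T ∩ M.top e3,
          (V M (r / 2)).indicator (fun x => M.edx e3 x * M.N x 2) x ∂M.μ =
          M.E0 e3 (V M (r / 2)) := by
        rw [setIntegral_indicator (measurableSet_V M _), E0_eq, inter_right_comm,
          inter_eq_right.2 hVK]
      have e2 : ∫ x in cyl (closedBall 0 r) T ∩ M.top e3, M.edx e3 x * M.N x 2 ∂M.μ ≤
          M.E0 e3 (V M (2 * r)) := by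
        rw [← E0_eq]
        refine hM.E0_mono norm_e3 (fun x hx => ⟨?_, hx.2⟩) (bdd_V hR hL hc _)
        exact (mem_closedBall_zero_iff.1 hx.1.1).trans_lt (by linarith)
      have h2 : ∫ x in cyl (closedBall 0 r) T ∩ M.top e3, |M.alpha e3 x - c| *
          √(2 * M.edx e3 x) * ‖fderiv ℝ η (pr x)‖ * M.N x 2 ∂M.μ ≤
          ∫ x in cyl (closedBall 0 r) T ∩ M.top e3,
            (t * (B / r) ^ 2 * ((M.alpha e3 x - c) ^ 2 * M.N x 2) + 1 / (2 * t) *
              (M.edx e3 x * M.N x 2 -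
                (V M (r / 2)).indicator (fun x => M.edx e3 x * M.N x 2) x)) ∂M.μ := by
        refine integral_mono_of_nonneg ?_ ((hI.const_mul _).add (hFs.const_mul _)) ?_
        · filter_upwards [ae_restrict_mem hKt] with x hx
          have := pos_of_top hx.2
          positivity
        · filter_upwards [ae_restrict_mem hKt] with x hx
          have hn := pos_of_top hx.2
          by_cases hV : x ∈ V M (r / 2)
          · rw [indicator_of_mem hV, (hin _ hV.1).2, norm_zero, mul_zero, zero_mul, sub_self,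
              mul_zero, add_zero]
            positivity
          · rw [indicator_of_notMem hV, sub_zero]
            exact amgm (M.edx_nonneg e3 x) hn.le ht (norm_nonneg _) (hD _)
      rw [integral_add (hI.const_mul _) (hFs.const_mul _), integral_const_mul,
        integral_const_mul, integral_sub hF hFi, e1, mul_assoc] at h2
      refine h2.trans (add_le_add (mul_le_mul_of_nonneg_left hG ht.le) ?_)
      rw [one_div, inv_mul_eq_div]
      exact div_le_div_of_nonneg_right (sub_le_sub_right e2 _) (by linarith)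
  refine le_antisymm (le_trans ?_ (nonpos_of hmono (fun r hr => (key r hr).1)
    (fun t ht r hr => (key r hr).2 t ht) R)) (M.E0_nonneg e3 _)
  exact hM.E0_mono norm_e3
    (fun x hx => ⟨(norm_pr_le x).trans_lt (mem_ball_zero_iff.1 hx.1), hx.2⟩) (bdd_V hR hL hc R)

end MW.CI
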