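import Pool.Agent.P.MP_064970_gt.SC

/-! Case I, row BOOT: the outcome of the bootstrap. -/

open MeasureTheory Set Filter Topology Metric
open scoped RealInnerProductSpace ENNReal ComplexConjugate Real

noncomputable section

namespace MW.CI

namespace BOOT

theorem tele {a : ℕ → E} {T : ℕ → ℝ} {J : ℕ} (hT : ∀ l, l ≤ J → 0 ≤ T l)
    (hs : ∀ l, l + 1 ≤ J → ‖a (l + 1) - a l‖ ≤ T l) :
    ∀ i, i ≤ J → ‖a J - a i‖ ≤ ∑ l ∈ Finset.range (J + 1), T l := by
  have key : ∀ n i, i + n = J → ‖a J - a i‖ ≤ ∑ l ∈ Finset.Icc i J, T l := by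
    intro n
    induction n with
    | zero =>
      intro i hi
      obtain rfl : i = J := by omega
      rw [Finset.Icc_self, Finset.sum_singleton, sub_self, norm_zero]
      exact hT i le_rfl
    | succ n ih =>
      intro i hi
      have h1 := ih (i + 1) (by omega)
      have h2 : Finset.Icc i J = insert i (Finset.Icc (i + 1) J) := by
        ext l
        simp only [Finset.mem_Icc, Finset.mem_insert]
        omega
      rw [h2, Finset.sum_insert (by simp)]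
      linarith [hs i (by omega), norm_sub_le_norm_sub_add_norm_sub (a J) (a (i + 1)) (a i)]
  intro i hi
  refine (key (J - i) i (by omega)).trans (Finset.sum_le_sum_of_subset_of_nonneg ?_ ?_)
  · intro l hl
    rw [Finset.mem_range]
    have := (Finset.mem_Icc.mp hl).2
    omega
  · intro l hl _
    rw [Finset.mem_range] at hl
    exact hT l (by omega)

/-- The picture at a scale below `1 / d` has the normals of the picture at scale one. -/
theorem cmp (hCMPN : C_CMPN) {M : Surf} {β d s : ℝ} {ν ν' : Bool → E} (hM : M.Mem)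
    (hν : IsRef β ν) (hd : 0 < d) (hdβ : d ≤ β / 100) (hs : 1 ≤ s) (hsd : d * s ≤ 1)
    (h1 : M.Cross 0 1 d (ν false) (ν true)) (hX : M.Cross 0 s d (ν' false) (ν' true))
    (hν' : ∀ i, ‖ν' i - ν i‖ ≤ β / 100) (i : Bool) : ‖ν i - ν' i‖ ≤ 200 * (d + d) / β := by
  have hβ := hν.pos
  refine hCMPN M β d d s ν ν' ⟨ν, fun _ => 0⟩ 0 hM hν (by linarith) hd hdβ hd.le hdβ hX hν'
    ⟨hν.unit, fun i => by simp; positivity⟩ (fun i => by simp [Pl.f]; positivity) ?_ i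
  intro x hx
  have h2 : s ≤ 1 / d := by rw [le_div_iff₀ hd]; linarith
  have h3 : d * 1 ≤ d * s := mul_le_mul_of_nonneg_left hs hd.le
  rcases h1.near_plane ⟨hx.1, ball_subset_ball h2 hx.2⟩ with h | h
  · exact ⟨false, by simpa [Pl.f] using h.trans h3⟩
  · exact ⟨true, by simpa [Pl.f] using h.trans h3⟩

theorem fin_ineq {β ε ε' εS d C₁ CN x y z S u : ℝ} (hβ : 0 < β) (hC₁ : 0 < C₁) (hCN : 0 < CN)
    (hS : S ≤ εS) (hεS : εS = ε / (4 * C₁)) (hε' : ε' ≤ ε / (4 * CN)) (hd : d ≤ ε')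
    (hdβ : d ≤ β * ε / 1600) (hu : u ≤ ε') (hx : x ≤ C₁ * S) (hy : y ≤ CN * (u + d))
    (hz : z ≤ 200 * (d + d) / β) : x + y + z ≤ ε := by
  have h1 : C₁ * S ≤ ε / 4 := by
    calc C₁ * S ≤ C₁ * (ε / (4 * C₁)) := mul_le_mul_of_nonneg_left (hεS ▸ hS) hC₁.le
      _ = ε / 4 := by field_simp
  have h2 : CN * (u + d) ≤ ε / 2 := by
    calc CN * (u + d) ≤ CN * (ε / (4 * CN) + ε / (4 * CN)) :=
          mul_le_mul_of_nonneg_left (by linarith) hCN.le
      _ = ε / 2 := by field_simp; ring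
  have h3 : 200 * (d + d) / β ≤ ε / 4 := by
    rw [div_le_iff₀ hβ]
    linarith
  linarith

end BOOT

open BOOT in
theorem c_boot_of (hMONO : S_MONO) (hRUN : C_RUN) (hKEYC : C_KEYC) (hSEQ : C_SEQ) (hNRM : C_NRM) (hCMPN : C_CMPN) (hLEV : C_LEV) : C_BOOT := by
  intro β hβ
  obtain ⟨ηR, hηR, HR⟩ := hRUN β hβ
  obtain ⟨ηK, hηK, HK⟩ := hKEYC β hβ
  obtain ⟨CN, hCN, HN⟩ := hNRM β hβ
  refine ⟨min (min ηR ηK) (β / 100), by positivity, fun η hη hη₀ => ?_⟩
  have hηR' : η ≤ ηR := hη₀.trans ((min_le_left _ _).trans (min_le_left _ _))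
  have hηK' : η ≤ ηK := hη₀.trans ((min_le_left _ _).trans (min_le_right _ _))
  have hηβ : η ≤ β / 100 := hη₀.trans (min_le_right _ _)
  obtain ⟨θ, ωR, C₁, hθ, hθ1, hωR, hC₁, HR⟩ := HR η hη hηR'
  obtain ⟨ωK, hωK, HK⟩ := HK η hη hηK'
  refine ⟨θ, min (min ωR ωK) (β / 10), hθ, by linarith, by positivity, fun ω hω hω₀ ε hε => ?_⟩
  have hωR' : ω ≤ ωR := hω₀.trans ((min_le_left _ _).trans (min_le_left _ _))
  have hωK' : ω ≤ ωK := hω₀.trans ((min_le_left _ _).trans (min_le_right _ _))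
  have hωβ : ω ≤ β / 10 := hω₀.trans (min_le_right _ _)
  have hC₁0 : 0 < C₁ := by linarith
  obtain ⟨c, hc, HS⟩ := hSEQ θ C₁ hθ (by linarith) hC₁
  obtain ⟨c₀, CD, εK, hc₀, hCD, hεK, HK⟩ := HK ω θ c hω hωK' hθ hθ1 hc
  obtain ⟨ε₁, hε₁, HS⟩ := HS c₀ CD (ε / (4 * C₁)) hc₀ hCD (by positivity)
  obtain ⟨ε', hε', hε'K, hε'1, hε'one, hε'N⟩ : ∃ ε' : ℝ, 0 < ε' ∧ ε' ≤ εK ∧ ε' ≤ ε₁ ∧ ε' ≤ 1 ∧
      ε' ≤ ε / (4 * CN) :=
    ⟨min (min εK ε₁) (min 1 (ε / (4 * CN))), by positivity,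
      (min_le_left _ _).trans (min_le_left _ _), (min_le_left _ _).trans (min_le_right _ _),
      (min_le_right _ _).trans (min_le_left _ _), (min_le_right _ _).trans (min_le_right _ _)⟩
  obtain ⟨dR, hdR, HR⟩ := HR ω hω hωR' ε' hε'
  refine ⟨min (min dR (θ * ε')) (min (ω * ε' / 10) (β * ε / 1600)), by positivity, ?_⟩
  intro M ν d R hM hν hd hd₀ hR hX1 hG
  have hdR' : d ≤ dR := hd₀.trans ((min_le_left _ _).trans (min_le_left _ _))
  have hdθ : d ≤ θ * ε' := hd₀.trans ((min_le_left _ _).trans (min_le_right _ _))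
  have hdω : d ≤ ω * ε' / 10 := hd₀.trans ((min_le_right _ _).trans (min_le_left _ _))
  have hdβ : d ≤ β * ε / 1600 := hd₀.trans ((min_le_right _ _).trans (min_le_right _ _))
  have hθ1' : θ ≤ 1 := by linarith
  have hR0 : 0 < R := by linarith
  have hdω' : d ≤ ω / 10 := by linarith [mul_le_of_le_one_right hω.le hε'one]
  have hdε' : d ≤ ε' := hdθ.trans (mul_le_of_le_one_left hε'.le hθ1')
  have hdθ' : d ≤ θ := hdθ.trans (mul_le_of_le_one_right hθ.le hε'one)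
  have hk0 : 0 ≤ 10 * d / ω := by positivity
  have hk : 10 * d / ω ≤ ε' := by rw [div_le_iff₀ hω]; linarith
  obtain ⟨P, p, hrun⟩ := HR M ν d R hM hν hd hdR' hR hG
  obtain ⟨J, hJ1, hJ2, hJ⟩ := exists_last hθ (by linarith) hR
  have hr0 : ∀ l, 0 < rr θ R l := rr_pos hθ hR0
  have hr16 : ∀ l, 16 * rr θ R l ≤ R := fun l => by
    have h := rr_anti hθ hθ1' hR0.le (Nat.zero_le l)
    have h0 : rr θ R 0 = R / 16 := by simp [rr]
    linarith
  obtain ⟨-, HL⟩ := hLEV M β ω d R ν hM hν hω hωβ hd hdω' (by linarith) hG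
  have hlv : ∀ l, l ≤ J → 0 < lv M ν ω θ (10 * d / ω) C₁ R l := fun l hl =>
    (hrun.core l ((hJ l).mpr hl)).self.pos
  obtain ⟨hsum, hm⟩ := HS ε' (10 * d / ω) R J p (fun j => Bl M ν ω R (rr θ R j))
    (fun j => p j + lv M ν ω θ (10 * d / ω) C₁ R j) hε' hε'1 hk0 hk hJ1
    (fun j hj => ⟨hrun.nonneg j, (HL _ ((hJ j).mpr hj) (hr16 j)).1, rfl,
      hrun.small j ((hJ j).mpr hj)⟩)
    (fun j hj => hrun.step j ((hJ (j + 1)).mpr hj))
    (HK M ν C₁ ε' d R P p J hM hν hC₁ hε'K hd hdθ hR hG hrun hJ1 hJ2)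
  have hsmJ := hrun.small J hJ1
  obtain ⟨ν', hX, hν'⟩ := hG (rr θ R J) hJ1 (by linarith [hr16 J])
  have hν'β : ∀ i, ‖ν' i - ν i‖ ≤ β / 100 := fun i => (hν' i).trans (by linarith)
  have hpic : Pic M ν η 0 (rr θ R J) := by
    refine (hrun.core J hJ1).self.pic _ ?_ (by linarith [hr16 J])
    have := mul_le_of_le_one_left (hr0 J).le hε'one
    linarith [hrun.nonneg J]
  have hN := (HN M ν η (rr θ R J) (p J) 0 (P J) hM hν hη hηβ (hr0 J) hpic
    ((hrun.close J hJ1).mono (by linarith [hν.le_one])) (hrun.exc J hJ1)).2 ν' d hd (by linarith)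
    hν'β hX
  have hu : p J / rr θ R J ≤ ε' := by
    rw [div_le_iff₀ (hr0 J)]
    linarith [hlv J le_rfl]
  have hsd : d * rr θ R J ≤ 1 := by
    rw [rr_succ] at hJ2
    exact (mul_le_mul_of_nonneg_right hdθ' (hr0 J).le).trans hJ2.le
  have hcmp := cmp hCMPN hM hν hd (by linarith) hJ1 hsd hX1 hX hν'β
  refine ⟨P, fun j => p j + lv M ν ω θ (10 * d / ω) C₁ R j, fun j hj => ?_⟩
  have hjJ := (hJ j).mp hj
  refine ⟨(hrun.core j hj).mono hMONO hM (by linarith [hrun.nonneg j]) le_rfl,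
    ⟨(hrun.close j hj).unit, fun i => ?_⟩,
    (hrun.exc j hj).mono (hr0 j).le (by linarith [hlv j hjJ]), (hm j hjJ).trans ?_⟩
  · have ht := tele (a := fun l => (P l).n i)
      (T := fun l => C₁ * ((p l + lv M ν ω θ (10 * d / ω) C₁ R l) / rr θ R l)) (J := J)
      (fun l hl => mul_nonneg hC₁0.le
        (div_nonneg (add_nonneg (hrun.nonneg l) (hlv l hl).le) (hr0 l).le))
      (fun l hl => by
        rw [← mul_div_assoc]
        exact hrun.drift l ((hJ (l + 1)).mpr hl) i) j hjJ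
    rw [← Finset.mul_sum] at ht
    have h1 := fin_ineq hβ hC₁0 hCN hsum rfl hε'N hdε' hdβ hu ht (hN i) (hcmp i)
    have h2 := norm_sub_le_norm_sub_add_norm_sub ((P j).n i) ((P J).n i) (ν i)
    have h3 := norm_sub_le_norm_sub_add_norm_sub ((P J).n i) (ν' i) (ν i)
    rw [norm_sub_rev ((P j).n i) ((P J).n i)] at h2
    rw [norm_sub_rev (ν' i) (ν i)] at h3
    linarith
  · refine mul_le_mul_of_nonneg_right ?_ (by have := hr0 j; positivity)
    exact div_le_self hε.le (by linarith)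

end MW.CI
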