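import Pool.Agent.P.MP_064970_gt.SC

/-! Case I, row CACC: the Caccioppoli inequality. -/

open MeasureTheory Set Filter Topology Metric
open scoped RealInnerProductSpace ENNReal ComplexConjugate Real

noncomputable section

namespace MW.CI

namespace CACC

/-- The cut-off function. -/
theorem cut (p : E) {ρ : ℝ} (hρ : 0 < ρ) : ∃ η : E → ℝ, ContDiff ℝ 1 η ∧
    (∀ x, 0 ≤ η x ∧ η x ≤ 2) ∧ (∀ x, ‖fderiv ℝ η x‖ ≤ 16 / ρ) ∧
    (∀ x ∈ ball p (ρ / 4), 1 / 2 ≤ η x) ∧ ∀ x, x ∉ ball p (ρ / 2) → η x = 0 := by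
  have hπ := Real.pi_gt_three
  have hπ' := Real.pi_lt_d2
  have hk : 0 < 4 / ρ ^ 2 := by positivity
  refine ⟨fun x => lam (‖x - p‖ ^ 2 * (4 / ρ ^ 2)), ?_, fun x => ⟨lam_nonneg _, ?_⟩, fun x => ?_,
    fun x hx => ?_, fun x hx => ?_⟩
  · exact (contDiff_lam.of_le (by norm_num)).comp
      (((contDiff_id.sub contDiff_const).norm_sq ℝ).mul contDiff_const)
  · refine (lam_le (by positivity)).trans ?_
    rw [div_le_iff₀ (by linarith)]
    linarith
  · have h1 := ((hasFDerivAt_id (𝕜 := ℝ) x).sub_const p).norm_sq.mul_const (4 / ρ ^ 2)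
    have h2 := (hasDerivAt_lam (‖x - p‖ ^ 2 * (4 / ρ ^ 2))).comp_hasFDerivAt x h1
    have h3 : fderiv ℝ (fun x => lam (‖x - p‖ ^ 2 * (4 / ρ ^ 2))) x = _ := h2.fderiv
    rw [h3]
    refine ContinuousLinearMap.opNorm_le_bound _ (by positivity) fun u => ?_
    simp only [smul_apply, ContinuousLinearMap.comp_apply,
      ContinuousLinearMap.id_apply, innerSL_apply_apply, id, smul_eq_mul, nsmul_eq_mul,
      Real.norm_eq_abs]
    by_cases hs : 1 ≤ ‖x - p‖ ^ 2 * (4 / ρ ^ 2)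
    · rw [max_eq_right (by linarith)]
      simp only [ne_eq, OfNat.ofNat_ne_zero, not_false_eq_true, zero_pow, mul_zero, zero_mul,
        abs_zero]
      positivity
    · have h4 : ‖x - p‖ ≤ ρ / 2 := by
        refine le_of_not_gt fun h => hs ?_
        have h5 : (ρ / 2) ^ 2 ≤ ‖x - p‖ ^ 2 := by gcongr
        calc (1 : ℝ) = (ρ / 2) ^ 2 * (4 / ρ ^ 2) := by field_simp; norm_num
          _ ≤ _ := by gcongr
      have h5 : |⟪x - p, u⟫| ≤ ρ / 2 * ‖u‖ :=
        (abs_real_inner_le_norm _ _).trans (by gcongr)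
      have h0 : 0 ≤ ‖x - p‖ ^ 2 * (4 / ρ ^ 2) := by positivity
      have h6 : |-(12 / π) * max (1 - ‖x - p‖ ^ 2 * (4 / ρ ^ 2)) 0 ^ 2| ≤ 4 := by
        have h7 : max (1 - ‖x - p‖ ^ 2 * (4 / ρ ^ 2)) 0 ^ 2 ≤ 1 :=
          pow_le_one₀ (le_max_right _ _) (max_le (by linarith) zero_le_one)
        have h8 : 12 / π ≤ 4 := by
          rw [div_le_iff₀ (by linarith)]
          linarith
        rw [abs_mul, abs_neg, abs_of_nonneg (by positivity), abs_of_nonneg (by positivity)]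
        calc _ ≤ (4 : ℝ) * 1 := by gcongr
          _ = 4 := by norm_num
      have h7 : |4 / ρ ^ 2 * (((2 : ℕ) : ℝ) * ⟪x - p, u⟫)| ≤ 4 / ρ ^ 2 * (2 * (ρ / 2 * ‖u‖)) := by
        rw [abs_mul, abs_mul, abs_of_pos hk, Nat.cast_ofNat, abs_two]
        gcongr
      rw [abs_mul]
      calc _ ≤ 4 * (4 / ρ ^ 2 * (2 * (ρ / 2 * ‖u‖))) :=
            mul_le_mul h6 h7 (abs_nonneg _) (by norm_num)
        _ = 16 / ρ * ‖u‖ := by field_simp; ring
  · have h1 : ‖x - p‖ ^ 2 * (4 / ρ ^ 2) ≤ 1 / 4 := by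
      have h2 : ‖x - p‖ ≤ ρ / 4 := (mem_ball_iff_norm.1 hx).le
      calc _ ≤ (ρ / 4) ^ 2 * (4 / ρ ^ 2) := by gcongr
        _ = 1 / 4 := by field_simp
    refine le_trans ?_ (lam_antitone h1)
    unfold lam
    rw [max_eq_left (by norm_num), div_mul_eq_mul_div, le_div_iff₀ (by linarith)]
    linarith
  · refine lam_eq_zero ?_
    have h2 : ρ / 2 ≤ ‖x - p‖ := le_of_not_gt fun h => hx (mem_ball_iff_norm.2 h)
    calc (1 : ℝ) = (ρ / 2) ^ 2 * (4 / ρ ^ 2) := by field_simp; norm_num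
      _ ≤ _ := by gcongr

/-- The projection as a continuous linear map. -/
def PL (A : E ≃ₗᵢ[ℝ] E) : E →L[ℝ] ℂ := prL.comp A.symm.toLinearIsometry.toContinuousLinearMap

theorem PL_apply (A : E ≃ₗᵢ[ℝ] E) (x : E) : PL A x = prA A x := rfl

theorem norm_prA_le (A : E ≃ₗᵢ[ℝ] E) (x : E) : ‖prA A x‖ ≤ ‖x‖ :=
  (norm_pr_le _).trans (A.symm.norm_map x).le

theorem test_contDiff {η : E → ℝ} {w : ℂ → ℝ} (hη : ContDiff ℝ 1 η) (hw : ContDiff ℝ 1 w)
    (A : E ≃ₗᵢ[ℝ] E) : ContDiff ℝ 1 fun x => η x ^ 2 * w (prA A x) :=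
  (hη.pow 2).mul (hw.comp (PL A).contDiff)

theorem test_deriv {η : E → ℝ} {w : ℂ → ℝ} (hη : ContDiff ℝ 1 η) (hw : ContDiff ℝ 1 w)
    (A : E ≃ₗᵢ[ℝ] E) (x u : E) : fderiv ℝ (fun x => η x ^ 2 * w (prA A x)) x u =
      η x ^ 2 * fderiv ℝ w (prA A x) (prA A u) + 2 * η x * w (prA A x) * fderiv ℝ η x u := by
  have h1 := (hη.differentiable one_ne_zero x).hasFDerivAt
  have h2 := (hw.differentiable one_ne_zero (PL A x)).hasFDerivAt.comp x (PL A).hasFDerivAt
  have h3 := (h1.mul h1).mul h2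
  have e : (fun x => η x ^ 2 * w (prA A x)) = (η * η) * (w ∘ PL A) := by
    funext x
    simp [PL_apply, sq]
  rw [e, h3.fderiv]
  simp only [add_apply, smul_apply,
    ContinuousLinearMap.comp_apply, smul_eq_mul, Pi.mul_apply, Function.comp_apply, PL_apply]
  ring

theorem abs_apply_le {X : Type} [NormedAddCommGroup X] [NormedSpace ℝ X] {L : X →L[ℝ] ℝ} {K : ℝ}
    (h : ‖L‖ ≤ K) (u : X) : |L u| ≤ K * ‖u‖ :=
  (L.le_opNorm u).trans (by gcongr)

theorem two_terms {e a w d A h D : ℝ} (he : 0 ≤ e) (ha : |a| ≤ A) (hw : |w| ≤ h) (hd : |d| ≤ D) :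
    |e ^ 2 * a + 2 * e * w * d| ≤ e ^ 2 * A + 2 * e * h * D := by
  refine (abs_add_le _ _).trans (add_le_add ?_ ?_)
  · rw [abs_mul, abs_of_nonneg (sq_nonneg e)]
    gcongr
  · rw [abs_mul, abs_mul, abs_of_nonneg (by positivity : 0 ≤ 2 * e)]
    have := (abs_nonneg w).trans hw
    gcongr

theorem test_norm {η : E → ℝ} {w : ℂ → ℝ} (hη : ContDiff ℝ 1 η) (hw : ContDiff ℝ 1 w)
    (A : E ≃ₗᵢ[ℝ] E) {σ h K : ℝ} (h0 : ∀ x, 0 ≤ η x) (hD : ∀ x, ‖fderiv ℝ η x‖ ≤ K)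
    (hb : ∀ y, |w y| ≤ h ∧ ‖fderiv ℝ w y‖ ≤ σ) (x : E) :
    ‖fderiv ℝ (fun x => η x ^ 2 * w (prA A x)) x‖ ≤ η x ^ 2 * σ + 2 * η x * h * K := by
  have hσ := (norm_nonneg _).trans (hb 0).2
  have hh := (abs_nonneg _).trans (hb 0).1
  have hK := (norm_nonneg _).trans (hD x)
  have := h0 x
  refine ContinuousLinearMap.opNorm_le_bound _ (by positivity) fun u => ?_
  rw [test_deriv hη hw, Real.norm_eq_abs]
  have h1 : |fderiv ℝ w (prA A x) (prA A u)| ≤ σ * ‖u‖ :=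
    (abs_apply_le (hb _).2 _).trans (by gcongr; exact norm_prA_le A u)
  exact (two_terms (h0 x) h1 (hb _).1 (abs_apply_le (hD x) u)).trans_eq (by ring)

theorem alg {e g d f t h K : ℝ} (he : 0 ≤ e) (hd : |d| ≤ K * g) (hf : |f| ≤ h) (t0 : 0 ≤ t)
    (t1 : t ≤ 1) : e ^ 2 * (t * g) ^ 2 / 2 - 2 * h * K ^ 2 * |f| ≤
      (e ^ 2 * g ^ 2 + 2 * e * f * d) * t := by
  have h1 : -(2 * e * |f| * (K * g)) ≤ 2 * e * f * d := by
    have h2 : |2 * e * f * d| ≤ 2 * e * |f| * (K * g) := by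
      rw [abs_mul, abs_mul, abs_of_nonneg (by positivity : 0 ≤ 2 * e)]
      gcongr
    exact (abs_le.1 h2).1
  have h2 : e ^ 2 * g ^ 2 / 2 - 2 * K ^ 2 * |f| ^ 2 ≤ e ^ 2 * g ^ 2 + 2 * e * f * d := by
    have := sq_nonneg (e * g - 2 * |f| * K)
    linarith
  have h3 := mul_le_mul_of_nonneg_right h2 t0
  have h4 : e ^ 2 * g ^ 2 * t * t ≤ e ^ 2 * g ^ 2 * t * 1 := by gcongr
  have h5 : K ^ 2 * |f| * |f| * t ≤ K ^ 2 * |f| * h * 1 := by
    have := (abs_nonneg f).trans hf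
    gcongr
  linarith

theorem meas {L : ℂ → ℂ → ℝ} (hL : Continuous fun q : ℂ × ℂ => L q.1 q.2) {g : ℂ → ℂ}
    (hg : Measurable g) : Measurable fun y => L y (g y) :=
  hL.measurable.comp (measurable_id.prodMk hg)

/-- The limit integrand. -/
def lim (A : E ≃ₗᵢ[ℝ] E) (c : ℝ) (v : ℂ → ℝ) (η : E → ℝ) (y : ℂ) : ℝ :=
  η (grf A c v y) ^ 2 * ‖gradient v y‖ ^ 2 +
    2 * η (grf A c v y) * v y * fderiv ℝ η (grf A c v y) (A (pt (gradient v y) 0))

variable {M : Surf} {A : E ≃ₗᵢ[ℝ] E} {c σ h κ ρ K β R : ℝ} {G : Set E} {v : ℂ → ℝ} {p : E}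
  {η : E → ℝ}

theorem abs_D_le (hD : ∀ x, ‖fderiv ℝ η x‖ ≤ K) (x : E) (g : ℂ) :
    |fderiv ℝ η x (A (pt g 0))| ≤ K * ‖g‖ := by
  have := abs_apply_le (hD x) (A (pt g 0))
  rwa [A.norm_map, norm_pt_zero] at this

theorem lim_meas (H : OneG M A c G v σ h κ p ρ) (hη : ContDiff ℝ 1 η) :
    Measurable (lim A c v η) := by
  obtain ⟨-, -, -, -, hv, hgr, hg, -⟩ := H.basic
  have h1 := hη.continuous
  have h2 := hη.continuous_fderiv one_ne_zero
  refine meas (L := fun y g => η (grf A c v y) ^ 2 * ‖g‖ ^ 2 +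
    2 * η (grf A c v y) * v y * fderiv ℝ η (grf A c v y) (A (pt g 0))) ?_ hg
  fun_prop

theorem vol_ne_top (hARG : C_ARG) (hM : M.Mem) (H : OneG M A c G v σ h κ p ρ) :
    volume (prA A '' G) ≠ ∞ := by
  obtain ⟨hm, hS, hi, -⟩ := H.basic
  exact ((hARG M A G hm hS hi).2.1.trans_lt (hM.bd.lt_top H.bdd)).ne

theorem n3 (H : OneG M A c G v σ h κ p ρ) (hσ : σ ≤ 1 / 2) {x : E} (hx : x ∈ G) :
    1 / 2 ≤ |⟪M.N x, A e3⟫| ∧ |⟪M.N x, A e3⟫| ≤ 1 := by
  have h1 := M.N_unit x (H.basic.2.1 hx)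
  have h2 : ‖A e3‖ = 1 := by rw [A.norm_map, norm_e3]
  refine ⟨(le_abs_inner h1 h2 (H.nrm x hx) hσ).1, ?_⟩
  have := abs_real_inner_le_norm (M.N x) (A e3)
  rwa [h1, h2, mul_one] at this

theorem graph (hGRAPH : C_GRAPH) (H : OneG M A c G v σ h κ p ρ) (hσ : σ ≤ 1 / 2) :
    IsOpen (prA A '' G) ∧
    (∀ x ∈ G, HasGradientAt v ((-(⟪M.N x, A e3⟫)⁻¹) • prA A (M.N x)) (prA A x)) ∧
    ContinuousOn (fderiv ℝ v) (prA A '' G) :=
  hGRAPH M A c G v H.opn (fun x hx h0 => by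
    have := (n3 H hσ hx).1
    rw [h0, abs_zero] at this
    linarith) H.gr

/-- Passing to the limit in the weak equation. -/
theorem limit (hAPPROX : C_APPROX) (hARG : C_ARG) (hGRAPH : C_GRAPH) (hM : M.Mem)
    (H : OneG M A c G v σ h κ p ρ) (hσ : σ ≤ 1 / 2) (hη : ContDiff ℝ 1 η)
    (hb : ∀ x, 0 ≤ η x ∧ η x ≤ 2) (hD : ∀ x, ‖fderiv ℝ η x‖ ≤ K)
    (hR : ∀ w : ℂ → ℝ, ContDiff ℝ 1 w → (∀ y, |w y| ≤ h ∧ ‖fderiv ℝ w y‖ ≤ σ) →
      β * |mainI A c G v fun x => η x ^ 2 * w (prA A x)| ≤ R) :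
    β * |∫ y in prA A '' G, lim A c v η y| ≤ R := by
  obtain ⟨w, hw, hw0, hw1⟩ := hAPPROX v σ h H.lip H.bd
  obtain ⟨hO, hG, hC⟩ := graph hGRAPH H hσ
  obtain ⟨-, -, -, -, hv, hgr, hg, hσ0, hgσ, hh⟩ := H.basic
  have hK := (norm_nonneg _).trans (hD 0)
  have hdiff : DifferentiableOn ℝ v (prA A '' G) := by
    rintro _ ⟨x, hx, rfl⟩
    exact (hG x hx).differentiableAt.differentiableWithinAt
  have hfin : IsFiniteMeasure (volume.restrict (prA A '' G)) :=
    isFiniteMeasure_restrict.2 (vol_ne_top hARG hM H)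
  have hpr : ∀ y, prA A (grf A c v y) = y := fun y => prA_apply_pt A y _
  have key : Tendsto (fun k => mainI A c G v fun x => η x ^ 2 * w k (prA A x)) atTop
      (𝓝 (∫ y in prA A '' G, lim A c v η y)) := by
    have e : ∀ k, (mainI A c G v fun x => η x ^ 2 * w k (prA A x)) = ∫ y in prA A '' G,
        (η (grf A c v y) ^ 2 * fderiv ℝ (w k) y (gradient v y) + 2 * η (grf A c v y) * w k y *
          fderiv ℝ η (grf A c v y) (A (pt (gradient v y) 0))) := by
      intro k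
      unfold mainI
      simp only [test_deriv hη (hw k).1, hpr, prA_apply_pt]
    simp only [e]
    refine tendsto_integral_of_dominated_convergence
      (fun _ => 2 ^ 2 * (σ * σ) + 2 * 2 * h * (K * σ)) (fun k => ?_) (integrable_const _)
      (fun k => ae_of_all _ fun y => ?_) ?_
    · have h1 := hη.continuous
      have h2 := hη.continuous_fderiv one_ne_zero
      have h3 := (hw k).1.continuous
      have h4 := (hw k).1.continuous_fderiv one_ne_zero
      refine (meas (L := fun y g => η (grf A c v y) ^ 2 * fderiv ℝ (w k) y g +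
        2 * η (grf A c v y) * w k y * fderiv ℝ η (grf A c v y) (A (pt g 0))) ?_
        hg).aestronglyMeasurable
      fun_prop
    · have h1 : |fderiv ℝ (w k) y (gradient v y)| ≤ σ * σ :=
        (abs_apply_le ((hw k).2 y).2 _).trans (by gcongr; exact hgσ y)
      have h2 : |fderiv ℝ η (grf A c v y) (A (pt (gradient v y) 0))| ≤ K * σ :=
        (abs_D_le hD _ _).trans (by gcongr; exact hgσ y)
      refine (two_terms (hb _).1 h1 ((hw k).2 y).1 h2).trans ?_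
      have h3 := hb (grf A c v y)
      gcongr
      · exact h3.1
      · exact h3.2
      · exact h3.2
    · filter_upwards [ae_restrict_mem hO.measurableSet] with y hy
      have h1 := ((ContinuousLinearMap.apply ℝ ℝ (gradient v y)).continuous.tendsto _).comp
        (hw1 _ hO hdiff hC y hy)
      have h2 : fderiv ℝ v y (gradient v y) = ‖gradient v y‖ ^ 2 := by
        rw [← real_inner_self_eq_norm_sq]
        exact (InnerProductSpace.toDual_symm_apply).symm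
      rw [ContinuousLinearMap.apply_apply, h2] at h1
      exact (h1.const_mul _).add (((hw0 y).const_mul _).mul_const _)
  exact le_of_tendsto' (key.abs.const_mul β) fun k => hR _ (hw k).1 (hw k).2

theorem int_tilt (hM : M.Mem) (H : OneG M A c G v σ h κ p ρ) (hη : ContDiff ℝ 1 η)
    (hb : ∀ x, 0 ≤ η x ∧ η x ≤ 2) :
    IntegrableOn (fun x => η x ^ 2 * wedge (M.N x) (A e3) ^ 2) G M.μ := by
  refine (integrableOn_wedge hM (A e3) H.bdd H.basic.1).bdd_mul (c := 4)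
    (hη.continuous.pow 2).aestronglyMeasurable (ae_of_all _ fun x => ?_)
  have h1 := hb x
  rw [Real.norm_eq_abs, abs_of_nonneg (sq_nonneg _)]
  calc η x ^ 2 ≤ 2 ^ 2 := pow_le_pow_left₀ h1.1 h1.2 2
    _ = 4 := by norm_num

/-- The lower bound for the limit. -/
theorem lower (hARG : C_ARG) (hGRAPH : C_GRAPH) (hM : M.Mem) (H : OneG M A c G v σ h κ p ρ)
    (hσ : σ ≤ 1 / 2) (hη : ContDiff ℝ 1 η) (hb : ∀ x, 0 ≤ η x ∧ η x ≤ 2)
    (hD : ∀ x, ‖fderiv ℝ η x‖ ≤ K) (h0 : ∀ x, x ∉ ball p ρ → η x = 0) :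
    (∫ x in G, η x ^ 2 * wedge (M.N x) (A e3) ^ 2 ∂M.μ) / 2 -
      2 * h * K ^ 2 * ∫ x in G ∩ ball p ρ, |⟪x, A e3⟫ - c| ∂M.μ ≤
      ∫ y in prA A '' G, lim A c v η y := by
  obtain ⟨-, hG, -⟩ := graph hGRAPH H hσ
  obtain ⟨hm, hS, hi, hgr, -, -, -, hσ0, hgσ, hh⟩ := H.basic
  have hK := (norm_nonneg _).trans (hD 0)
  obtain ⟨hI, hE⟩ := (hARG M A G hm hS hi).2.2 _ (lim_meas H hη)
  have hlim : IntegrableOn (lim A c v η) (prA A '' G) := by
    refine Measure.integrableOn_of_bounded (M := 2 ^ 2 * σ ^ 2 + 2 * 2 * h * (K * σ))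
      (vol_ne_top hARG hM H) (lim_meas H hη).aestronglyMeasurable (ae_of_all _ fun y => ?_)
    have h1 : |‖gradient v y‖ ^ 2| ≤ σ ^ 2 := by
      rw [abs_of_nonneg (sq_nonneg _)]
      gcongr
      exact hgσ y
    have h2 : |fderiv ℝ η (grf A c v y) (A (pt (gradient v y) 0))| ≤ K * σ :=
      (abs_D_le hD _ _).trans (by gcongr; exact hgσ y)
    refine (two_terms (hb _).1 h1 (H.bd y) h2).trans ?_
    have h3 := hb (grf A c v y)
    gcongr
    · exact h3.1
    · exact h3.2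
    · exact h3.2
  have hf : IntegrableOn (fun x : E => |⟪x, A e3⟫ - c|) G M.μ :=
    hM.bd.integrableOn H.bdd (by fun_prop) (C := h) (fun x hx => by
      rw [abs_abs, ← H.gr x hx.1]
      exact H.bd _) hm
  have hf' := (hf.indicator (measurableSet_ball (x := p) (ε := ρ))).const_mul (2 * h * K ^ 2)
  have ht := (int_tilt hM H hη hb).div_const 2
  rw [← hE, ← setIntegral_indicator measurableSet_ball, ← integral_const_mul, ← integral_div,
    ← integral_sub ht hf']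
  refine setIntegral_mono_on (ht.sub hf') (hI.1 hlim) hm fun x hx => ?_
  unfold lim
  rw [hgr x hx]
  by_cases hxb : x ∈ ball p ρ
  · obtain ⟨h1, h2⟩ := n3 H hσ hx
    have h3 : wedge (M.N x) (A e3) = |⟪M.N x, A e3⟫| * ‖gradient v (prA A x)‖ := by
      rw [(hG x hx).gradient, norm_smul, norm_neg, norm_inv, Real.norm_eq_abs, wedge_eq_prA,
        mul_inv_cancel_left₀ (by linarith)]
    rw [indicator_of_mem hxb, h3, ← H.gr x hx]
    exact alg (hb x).1 (abs_D_le hD _ _) (H.bd _) (abs_nonneg _) h2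
  · rw [indicator_of_notMem hxb, h0 x hxb]
    simp

/-- The error term of the weak equation on one sheet. -/
theorem err (hM : M.Mem) (H : OneG M A c G v σ h κ p ρ) (hη : ContDiff ℝ 1 η)
    (hb : ∀ x, 0 ≤ η x ∧ η x ≤ 2) (hK : 0 ≤ K) (h0 : ∀ x, x ∉ ball p ρ → η x = 0) {D : E → ℝ}
    (hD0 : ∀ x, 0 ≤ D x) (hD : ∀ x, D x ≤ η x ^ 2 * σ + 2 * η x * h * K) :
    ∫ x in G, wedge (M.N x) (A e3) ^ 2 * D x ∂M.μ ≤
      σ * (∫ x in G, η x ^ 2 * wedge (M.N x) (A e3) ^ 2 ∂M.μ) +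
        4 * h * K * ∫ x in G ∩ ball p ρ, wedge (M.N x) (A e3) ^ 2 ∂M.μ := by
  have hh := H.basic.2.2.2.2.2.2.2.2.2
  have h1 := (int_tilt hM H hη hb).const_mul σ
  have h2 := ((integrableOn_wedge hM (A e3) H.bdd H.basic.1).indicator
    (measurableSet_ball (x := p) (ε := ρ))).const_mul (4 * h * K)
  rw [← setIntegral_indicator measurableSet_ball, ← integral_const_mul, ← integral_const_mul,
    ← integral_add h1 h2]
  refine integral_mono_of_nonneg (ae_of_all _ fun x => mul_nonneg (sq_nonneg _) (hD0 x))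
    (h1.add h2) (ae_of_all _ fun x => ?_)
  have h3 := mul_le_mul_of_nonneg_left (hD x) (sq_nonneg (wedge (M.N x) (A e3)))
  refine h3.trans ?_
  by_cases hxb : x ∈ ball p ρ
  · simp only [indicator_of_mem hxb]
    have h4 : wedge (M.N x) (A e3) ^ 2 * h * K * η x ≤ wedge (M.N x) (A e3) ^ 2 * h * K * 2 := by
      gcongr
      exact (hb x).2
    linarith
  · simp [indicator_of_notMem hxb, h0 x hxb]

theorem inner_le (hM : M.Mem) (H : OneG M A c G v σ h κ p ρ) (hη : ContDiff ℝ 1 η)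
    (hb : ∀ x, 0 ≤ η x ∧ η x ≤ 2) {r : ℝ} (h1 : ∀ x ∈ ball p r, 1 / 2 ≤ η x) :
    ∫ x in G ∩ ball p r, wedge (M.N x) (A e3) ^ 2 ∂M.μ ≤
      4 * ∫ x in G, η x ^ 2 * wedge (M.N x) (A e3) ^ 2 ∂M.μ := by
  rw [← setIntegral_indicator measurableSet_ball, ← integral_const_mul]
  refine integral_mono_of_nonneg
    (ae_of_all _ fun x => indicator_nonneg (fun _ _ => sq_nonneg _) x)
    ((int_tilt hM H hη hb).const_mul 4) (ae_of_all _ fun x => ?_)
  by_cases hxb : x ∈ ball p r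
  · simp only [indicator_of_mem hxb]
    have h2 : (1 / 2) ^ 2 * wedge (M.N x) (A e3) ^ 2 ≤ η x ^ 2 * wedge (M.N x) (A e3) ^ 2 := by
      gcongr
      exact h1 x hxb
    linarith
  · simp only [indicator_of_notMem hxb]
    positivity

end CACC

theorem c_cacc_of (hWE : C_WE) (hAPPROX : C_APPROX) (hARG : C_ARG) (hGRAPH : C_GRAPH) : C_CACC := by
  obtain ⟨C, hC, hWE⟩ := hWE
  refine ⟨16 * (132 * C + 512), min (1 / 2) (1 / (8 * C)), by positivity, by positivity,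
    fun M P A G v β σ h κ p ρ hM H hβ hβw hσ hκ hρ hhρ => ?_⟩
  have hu : ∀ i, ‖P.n i‖ = 1 := fun i => by rw [← H.frame i, (A i).norm_map, norm_e3]
  have hβ1 : β ≤ 1 := hβw.trans (wedge_le_one (hu _) (hu _))
  have hσ1 : σ ≤ 1 / 2 := hσ.trans ((mul_le_mul (min_le_left _ _) hβ1 hβ.le
    (by norm_num)).trans_eq (mul_one _))
  have hσ2 : 8 * C * σ ≤ β := by
    have h1 : σ ≤ 1 / (8 * C) * β := hσ.trans (by gcongr; exact min_le_right _ _)
    calc 8 * C * σ ≤ 8 * C * (1 / (8 * C) * β) := by gcongr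
      _ = β := by field_simp
  have hσ0 := (H.one false).basic.2.2.2.2.2.2.2.1
  have hh := (H.one false).basic.2.2.2.2.2.2.2.2.2
  obtain ⟨η, hη, hb, hD, h1, h0⟩ := CACC.cut p hρ
  have h0' : ∀ x, x ∉ ball p ρ → η x = 0 := fun x hx =>
    h0 x fun h => hx (ball_subset_ball (by linarith) h)
  have hK : 0 ≤ 16 / ρ := by positivity
  have hq : h * (16 / ρ) ≤ 16 := by
    rw [mul_div_assoc', div_le_iff₀ hρ]
    linarith
  set T : Bool → ℝ := fun j => ∫ x in G j, η x ^ 2 * wedge (M.N x) (P.n j) ^ 2 ∂M.μ with hT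
  set B : Bool → ℝ := fun j => ∫ x in G j ∩ ball p ρ, wedge (M.N x) (P.n j) ^ 2 ∂M.μ with hB
  set a : Bool → ℝ := fun j => ∫ x in G j ∩ ball p ρ, |P.f j x| ∂M.μ with ha
  have key : ∀ i, β * (T i / 2 - 2 * h * (16 / ρ) ^ 2 * a i) ≤
      C * (σ * (T true + T false) + 4 * h * (16 / ρ) * (B true + B false) + κ * 66) := by
    intro i
    have h2 := CACC.lower hARG hGRAPH hM (H.one i) hσ1 hη hb hD h0'
    rw [H.frame i] at h2
    refine (mul_le_mul_of_nonneg_left (h2.trans (le_abs_self _)) hβ.le).trans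
      (CACC.limit hAPPROX hARG hGRAPH hM (H.one i) hσ1 hη hb hD fun w hw hwb => ?_)
    have h3 := CACC.test_norm hη hw (A i) (fun x => (hb x).1) hD hwb
    refine (hWE M P A G v β σ h κ p ρ _ 66 hM H hβ hβw hσ1 hκ (CACC.test_contDiff hη hw (A i))
      ?_ (fun x => (h3 x).trans ?_) i).trans ?_
    · refine (closure_minimal (fun x hx => ?_) isClosed_closedBall).trans
        (closedBall_subset_ball (half_lt_self hρ))
      refine ball_subset_closedBall (by_contra fun h4 => hx ?_)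
      simp [h0 x h4]
    · have h4 : η x ^ 2 * σ ≤ 2 ^ 2 * (1 / 2) := by
        gcongr
        · exact (hb x).1
        · exact (hb x).2
      have h5 : η x * (h * (16 / ρ)) ≤ 2 * 16 := by
        gcongr
        exact (hb x).2
      linarith
    · have h4 := fun j => CACC.err hM (H.one j) hη hb hK h0' (fun x => norm_nonneg _) h3
      simp only [H.frame] at h4
      have h5 := add_le_add (h4 true) (h4 false)
      rw [Fintype.sum_bool]
      refine mul_le_mul_of_nonneg_left ?_ hC.le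
      simp only [hT, hB]
      linarith
  have h6 := fun j => CACC.inner_le hM (H.one j) hη hb h1
  simp only [H.frame] at h6
  have hT0 : ∀ j, 0 ≤ T j := fun j => integral_nonneg fun x => by positivity
  have hB0 : ∀ j, 0 ≤ B j := fun j => integral_nonneg fun x => by positivity
  have ha0 : ∀ j, 0 ≤ a j := fun j => integral_nonneg fun x => abs_nonneg _
  simp only [Fintype.sum_bool]
  change β * (_ + _) ≤ _ * (h / ρ ^ 2 * (a true + a false) + h / ρ * (B true + B false) + κ)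
  have h7 : β * (_ + _) ≤ β * (4 * T true + 4 * T false) :=
    mul_le_mul_of_nonneg_left (add_le_add (h6 true) (h6 false)) hβ.le
  refine h7.trans ?_
  have h8 := add_le_add (key true) (key false)
  have e1 : h * (16 / ρ) ^ 2 = 256 * (h / ρ ^ 2) := by field_simp; norm_num
  have e2 : h * (16 / ρ) = 16 * (h / ρ) := by field_simp
  have hs := add_nonneg (hT0 true) (hT0 false)
  have hX : 0 ≤ h / ρ ^ 2 * (a true + a false) :=
    mul_nonneg (by positivity) (add_nonneg (ha0 _) (ha0 _))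
  have hY : 0 ≤ h / ρ * (B true + B false) :=
    mul_nonneg (by positivity) (add_nonneg (hB0 _) (hB0 _))
  have h9 := mul_le_mul_of_nonneg_right hσ2 hs
  have h10 := mul_le_mul_of_nonneg_right hβ1 hX
  have h11 := mul_nonneg hC.le hX
  have h12 := mul_nonneg hC.le hY
  rw [mul_assoc 2 h, e1, mul_assoc 4 h, e2] at h8
  generalize h / ρ ^ 2 = s at *
  generalize h / ρ = t at *
  linarith

end MW.CI
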