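import Pool.Agent.P.MP_064970_gt.SC

/-! Case I, row CHAIN: the density deficit along the dyadic scales at one centre. -/

open MeasureTheory Set Filter Topology Metric
open scoped RealInnerProductSpace ENNReal ComplexConjugate Real

noncomputable section

namespace MW.CI

namespace CHAIN

/-- The dyadic chain. -/
theorem chain {Y : ℝ → ℝ} {a T D m q : ℝ} (hm : 0 < m) (ha : 0 < a) (hD : 0 ≤ D)
    (hq : q = (1 / 2 : ℝ) ^ (1 / 12 : ℝ))
    (hA : ∀ u, a ≤ u → 2 * u ≤ T → |Y (2 * u) - Y u| ≤ D * m * (m / u) ^ (1 / 12 : ℝ))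
    (hB : ∀ u, a ≤ u → u ≤ T → T < 2 * u → |Y T - Y u| ≤ D * m * (m / u) ^ (1 / 12 : ℝ))
    {s : ℝ} (h1 : a ≤ s) (h2 : s ≤ T) :
    |Y T - Y s| ≤ D / (1 - q) * m * (m / s) ^ (1 / 12 : ℝ) := by
  have q1 : q < 1 := by
    rw [hq]
    exact Real.rpow_lt_one (by norm_num) (by norm_num) (by norm_num)
  have q0 : 0 ≤ q := by rw [hq]; positivity
  have q2 : 0 < 1 - q := by linarith
  have hE : D / (1 - q) * q + D = D / (1 - q) := by
    field_simp
    ring
  have hE0 : 0 ≤ D / (1 - q) * q := by positivity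
  have main : ∀ n : ℕ, ∀ u, a ≤ u → u ≤ T → T < 2 ^ n * u →
      |Y T - Y u| ≤ D / (1 - q) * m * (m / u) ^ (1 / 12 : ℝ) := by
    intro n
    induction n with
    | zero =>
      intro u _ h2 h3
      rw [pow_zero, one_mul] at h3
      exact absurd h2 (not_le.2 h3)
    | succ n ih =>
      intro u h1 h2 h3
      have hu : 0 < u := ha.trans_le h1
      by_cases h4 : T < 2 * u
      · refine (hB u h1 h2 h4).trans ?_
        gcongr
        linarith
      · push Not at h4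
        have h5 := ih (2 * u) (by linarith) h4 (by rw [← mul_assoc, ← pow_succ]; exact h3)
        have h6 : (m / (2 * u)) ^ (1 / 12 : ℝ) = q * (m / u) ^ (1 / 12 : ℝ) := by
          rw [hq, ← Real.mul_rpow (by norm_num) (by positivity)]
          congr 1
          field_simp
        have h7 := hA u h1 h4
        have h8 := abs_sub_le (Y T) (Y (2 * u)) (Y u)
        rw [h6] at h5
        calc |Y T - Y u| ≤ D / (1 - q) * m * (q * (m / u) ^ (1 / 12 : ℝ)) +
              D * m * (m / u) ^ (1 / 12 : ℝ) := by linarith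
          _ = (D / (1 - q) * q + D) * m * (m / u) ^ (1 / 12 : ℝ) := by ring
          _ = _ := by rw [hE]
  have hs : 0 < s := ha.trans_le h1
  obtain ⟨n, hn⟩ := pow_unbounded_of_one_lt (T / s) (show (1 : ℝ) < 2 by norm_num)
  exact main n s h1 h2 ((div_lt_iff₀ hs).1 hn)

theorem rpow_le {C m u S : ℝ} (hC : 1 ≤ C) (hm : 0 < m) (hu : 0 < u) (hS : u ≤ S) :
    (C * m / S) ^ (1 / 12 : ℝ) ≤ C * (m / u) ^ (1 / 12 : ℝ) := by
  have h0 : 0 < C := by linarith
  have h1 : C * m / S ≤ C * (m / u) := by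
    rw [mul_div_assoc]
    gcongr
  have h2 : C ^ (1 / 12 : ℝ) ≤ C := by
    simpa using Real.rpow_le_rpow_of_exponent_le hC (show (1 / 12 : ℝ) ≤ 1 by norm_num)
  have hS0 : 0 < S := hu.trans_le hS
  calc (C * m / S) ^ (1 / 12 : ℝ) ≤ (C * (m / u)) ^ (1 / 12 : ℝ) :=
        Real.rpow_le_rpow (by positivity) h1 (by norm_num)
    _ = C ^ (1 / 12 : ℝ) * (m / u) ^ (1 / 12 : ℝ) := Real.mul_rpow h0.le (by positivity)
    _ ≤ _ := by gcongr

end CHAIN

open CHAIN in
theorem c_chain_of (hMONO : S_MONO) (hITER : C_ITER) (hDL : C_DL) : C_CHAIN := by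
  intro β hβ
  obtain ⟨η₁, hη₁, H1⟩ := hITER β hβ
  obtain ⟨η₂, hη₂, H2⟩ := hDL β hβ
  refine ⟨min η₁ η₂, lt_min hη₁ hη₂, fun η hη0 hη => ?_⟩
  obtain ⟨Λ, C₁, hΛ, hC₁, H1⟩ := H1 η hη0 (hη.trans (min_le_left _ _))
  obtain ⟨ε, C₂, hε, hC₂, H2⟩ := H2 η hη0 (hη.trans (min_le_right _ _)) (1 / 400) (by norm_num)
  have hC0 : 0 < C₁ := by linarith
  have k1 : 0 < 2 * C₁ / η := by positivity
  have k2 : 0 < C₁ / ε := by positivity
  have q1 : (1 / 2 : ℝ) ^ (1 / 12 : ℝ) < 1 :=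
    Real.rpow_lt_one (by norm_num) (by norm_num) (by norm_num)
  refine ⟨Λ + 2 * C₁ / η + C₁ / ε, C₂ * C₁ * C₁ / (1 - (1 / 2 : ℝ) ^ (1 / 12 : ℝ)), by linarith,
    div_pos (by positivity) (by linarith), ?_⟩
  intro M ν b R r m s c P hM hν hc hP hE hb hs1 hs2
  have hm : 0 < m := hc.self.pos.trans_le hb
  have hP' : P.Close ν η := hP.mono (by linarith)
  obtain ⟨Q, hQ⟩ := H1 M ν b R r m c P hM hν hc hP' hE hb
  have hmC : m ≤ C₁ * m := le_mul_of_one_le_left hm.le hC₁
  have big : ∀ u, (Λ + 2 * C₁ / η + C₁ / ε) * m ≤ u →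
      Λ * m ≤ u ∧ C₁ * m ≤ η / 2 * u ∧ C₁ * m ≤ ε * u := fun u hu => by
    have a1 : 0 < Λ * m := by positivity
    have a2 : 0 < 2 * C₁ / η * m := by positivity
    have a3 : 0 < C₁ / ε * m := by positivity
    refine ⟨by linarith, ?_, ?_⟩
    · calc C₁ * m = η / 2 * (2 * C₁ / η * m) := by field_simp
        _ ≤ η / 2 * u := by gcongr; linarith
    · calc C₁ * m = ε * (C₁ / ε * m) := by field_simp
        _ ≤ ε * u := by gcongr; linarith
  have ha : 0 < (Λ + 2 * C₁ / η + C₁ / ε) * m := by positivity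
  have hcc : ∀ ρ : ℝ, 0 < ρ → ‖c - c‖ ≤ ρ / 300 := fun ρ hρ => by
    rw [sub_self, norm_zero]
    positivity
  refine chain (Y := fun u => u * (2 - M.Θ c u)) hm ha (by positivity) rfl
    (fun u h1 h2 => ?_) (fun u h1 h2 h3 => ?_) hs1 hs2
  · have hu : 0 < u := ha.trans_le h1
    obtain ⟨b1, b2, b3⟩ := big (400 * u) (by linarith)
    obtain ⟨e1, e2⟩ := hQ (400 * u) b1 (by linarith)
    have e3 : (Q (400 * u)).Close ν (η / 2 + η / 2) :=
      hP.trans (fun i => (e2 i).1) fun i => (e2 i).2.1.trans (by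
        rw [div_le_iff₀ (by positivity)]
        exact b2)
    rw [add_halves] at e3
    have e4 := H2 M ν b R (400 * u) (C₁ * m) (2 * u) u c c c (Q (400 * u)) hM hν
      (hc.mono hMONO hM le_rfl (by linarith)) e3 e1 (hb.trans hmC) b3 hc.self hc.self
      (hcc _ (by positivity)) (hcc _ (by positivity)) (by linarith) (by linarith) (by linarith)
      (by linarith)
    refine e4.trans ?_
    calc C₂ * (C₁ * m) * (C₁ * m / (400 * u)) ^ (1 / 12 : ℝ)
        ≤ C₂ * (C₁ * m) * (C₁ * (m / u) ^ (1 / 12 : ℝ)) := by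
          gcongr
          exact rpow_le hC₁ hm hu (by linarith)
      _ = _ := by ring
  · have hu : 0 < u := ha.trans_le h1
    have hr : 0 < r := by linarith
    obtain ⟨-, -, b3⟩ := big r (by linarith)
    have e4 := H2 M ν b R r m (r / 200) u c c c P hM hν hc hP' hE hb (hmC.trans b3) hc.self hc.self
      (hcc _ hr) (hcc _ hr) (by linarith) le_rfl (by linarith) h2
    refine e4.trans ?_
    have e5 := rpow_le (C := 1) le_rfl hm hu (show u ≤ r by linarith)
    rw [one_mul, one_mul] at e5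
    have e6 : C₂ ≤ C₂ * C₁ * C₁ := by
      rw [mul_assoc]
      exact le_mul_of_one_le_right hC₂.le (one_le_mul_of_one_le_of_one_le hC₁ hC₁)
    gcongr

end MW.CI
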