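import Pool.Agent.P.MP_064970_gt.SC

/-! Case I, row CMPN. Sketch:
Fix i, n = P.n i, u = n - <n,nu' i> nu' i (norm = wedge n (nu' i); trivial if u = 0 by
norm_sub_le_wedge). w from IsRef.exists_tan, w' = w - <w,nu' i> nu' i, v0 = (s/4) w', v1 = v0 +
(beta s/16) u/|u|. For v in {v0,v1}: <v,nu' i> = 0, <v,nu' (!i)> >= 0.18 beta s; the points c + v
+- 2 delta s nu' i are on opposite sides (cross_bool), so x = c + v + tau nu' i in S, |tau| <= 2
delta s (exists_cross), P.f (!i) x >= 0.14 beta s > h s, hence |P.f i x| <= h s and |P.f i (c+v)|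
<= (h + 2 delta) s. The difference of the two values is (beta s/16)|u|. So wedge <= 32(h+2
delta)/beta; norm_sub_le_of_near. -/

open MeasureTheory Set Filter Topology Metric
open scoped RealInnerProductSpace ENNReal ComplexConjugate Real

noncomputable section

namespace MW.CI

namespace CMPN

theorem key {M : Surf} {β δ h s : ℝ} {ν ν' : Bool → E} {P : Pl} {c : E} (hM : M.Mem)
    (hν : IsRef β ν) (hs : 0 < s) (hδ : 0 < δ) (hδβ : δ ≤ β / 100) (hhβ : h ≤ β / 100)
    (hX : M.Cross c s δ (ν' false) (ν' true)) (hν' : ∀ i, ‖ν' i - ν i‖ ≤ β / 100)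
    (hP : P.Close ν (β / 100)) (hc : ∀ i, |P.f i c| ≤ β / 100 * s)
    (hS : ∀ x ∈ M.S ∩ ball c s, ∃ i, |P.f i x| ≤ h * s) (i : Bool) (v : E)
    (hv0 : ⟪v, ν' i⟫ = 0) (hv1 : ‖v‖ ≤ s / 3) (hv2 : β * s / 8 ≤ ⟪v, ν (!i)⟫) :
    |P.f i c + ⟪v, P.n i⟫| ≤ (h + 2 * δ) * s := by
  have hβ := hν.pos
  have hβ1 := hν.le_one
  obtain ⟨ha, -, -, hpat, -⟩ := cross_bool hX i
  have ha' := (cross_bool hX (!i)).1
  have hβs : 0 < β * s := by positivity
  have hδs : δ * s ≤ β * s / 100 := by nlinarith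
  have hδs0 : 0 < δ * s := by positivity
  have hβs1 : β * s ≤ s := by nlinarith
  have hvb : ∀ n : E, ‖n - ν (!i)‖ ≤ β / 100 → β * s / 8 - β * s / 300 ≤ ⟪v, n⟫ := by
    intro n hn
    have h1 := abs_inner_sub_le v n (ν (!i))
    have h2 : ‖v‖ * ‖n - ν (!i)‖ ≤ s / 3 * (β / 100) := by gcongr
    have := (abs_le.1 (h1.trans h2)).1
    linarith
  have hun : ∀ (n : E) (τ : ℝ), ‖n‖ = 1 → |τ| ≤ 2 * (δ * s) → |τ * ⟪ν' i, n⟫| ≤ 2 * (δ * s) := by
    intro n τ hn hτ
    have := abs_real_inner_le_norm (ν' i) n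
    rw [ha, hn, mul_one] at this
    rw [abs_mul]
    exact (mul_le_of_le_one_right (abs_nonneg _) this).trans hτ
  have hin : ∀ (n : E) (τ : ℝ), ⟪c + v + τ • ν' i - c, n⟫ = ⟪v, n⟫ + τ * ⟪ν' i, n⟫ := by
    intro n τ
    rw [show c + v + τ • ν' i - c = v + τ • ν' i by abel, inner_add_left, real_inner_smul_left]
  have hball : ∀ τ : ℝ, |τ| ≤ 2 * (δ * s) → c + v + τ • ν' i ∈ ball c s := by
    intro τ hτ
    rw [mem_ball, dist_eq_norm, show c + v + τ • ν' i - c = v + τ • ν' i by abel]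
    refine (norm_add_le _ _).trans_lt ?_
    rw [norm_smul, ha, mul_one, Real.norm_eq_abs]
    linarith
  have hsub : ball c s ⊆ ball c (s / δ) :=
    ball_subset_ball ((le_div_iff₀ hδ).2 (by linarith))
  have haa : ⟪ν' i, ν' i⟫ = 1 := by rw [real_inner_self_eq_norm_sq, ha, one_pow]
  have hside : ∀ τ : ℝ, |τ| = 2 * (δ * s) → (τ < 0 → c + v + τ • ν' i ∈ M.W) ∧
      (0 < τ → c + v + τ • ν' i ∈ M.W') := by
    intro τ hτ
    have e1 : ⟪c + v + τ • ν' i - c, ν' i⟫ = τ := by rw [hin, hv0, haa, zero_add, mul_one]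
    have e2 : δ * s < ⟪c + v + τ • ν' i - c, ν' (!i)⟫ := by
      rw [hin]
      have := (abs_le.1 (hun _ τ ha' hτ.le)).1
      linarith [hvb _ (hν' (!i))]
    obtain ⟨p1, p2⟩ := hpat _ (hsub (hball τ hτ.le)) (by rw [e1, hτ]; linarith)
      (e2.trans_le (le_abs_self _))
    rw [e1] at p1 p2
    exact ⟨fun h0 => p1 (mul_neg_of_neg_of_pos h0 (hδs0.trans e2)),
      fun h0 => p2 (mul_pos h0 (hδs0.trans e2))⟩
  obtain ⟨x, hx, hxS⟩ := M.exists_cross (a := c + v + (-(2 * (δ * s))) • ν' i)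
    (b := c + v + (2 * (δ * s)) • ν' i) (by rw [hM.univ]; exact subset_univ _)
    ((hside _ (by rw [abs_neg, abs_of_pos (by linarith)])).1 (by linarith))
    ((hside _ (abs_of_pos (by linarith))).2 (by linarith))
  obtain ⟨τ, hτ, rfl⟩ : ∃ τ : ℝ, |τ| ≤ 2 * (δ * s) ∧ x = c + v + τ • ν' i := by
    obtain ⟨p, q, hp, hq, hpq, rfl⟩ := hx
    refine ⟨(q - p) * (2 * (δ * s)), ?_, ?_⟩
    · rw [abs_mul, abs_of_pos (by linarith : 0 < 2 * (δ * s))]
      exact mul_le_of_le_one_left (by linarith) (abs_le.2 ⟨by linarith, by linarith⟩)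
    · obtain rfl : p = 1 - q := by linarith
      module
  have hf : ∀ j, P.f j (c + v + τ • ν' i) = P.f j c + ⟪v, P.n j⟫ + τ * ⟪ν' i, P.n j⟫ := by
    intro j
    have := P.f_sub j (c + v + τ • ν' i) c
    rw [hin] at this
    linarith
  obtain ⟨j, hj⟩ := hS _ ⟨hxS, hball τ hτ⟩
  rw [hf] at hj
  have hu := abs_le.1 (hun _ τ (hP.unit j) hτ)
  obtain rfl : j = i := by
    by_contra hji
    obtain rfl : j = !i := Bool.eq_not_of_ne hji
    have h1 := hvb _ (hP.close (!i))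
    have h2 := (abs_le.1 (hc (!i))).1
    have h3 := (abs_le.1 hj).2
    have h4 : h * s ≤ β * s / 100 := by nlinarith
    linarith [hu.1]
  rw [abs_le] at hj ⊢
  constructor <;> linarith [hj.1, hj.2, hu.1, hu.2]

end CMPN

theorem c_cmpn_of : C_CMPN := by
  intro M β δ h s ν ν' P c hM hν hs hδ hδβ hh hhβ hX hν' hP hc hS i
  have hβ := hν.pos
  have hβ1 := hν.le_one
  have key := CMPN.key hM hν hs hδ hδβ hhβ hX hν' hP hc hS i
  have ha := (cross_bool hX i).1
  have haa : ⟪ν' i, ν' i⟫ = 1 := by rw [real_inner_self_eq_norm_sq, ha, one_pow]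
  have hn := norm_sub_le_of_near (c := ν i) (hP.unit i) ha ((hP.close i).trans (by linarith))
    ((hν' i).trans (by linarith))
  rw [wedge] at hn
  set u : E := P.n i - ⟪P.n i, ν' i⟫ • ν' i with hu
  rcases (norm_nonneg u).eq_or_lt with h0 | h0
  · rw [← h0, mul_zero] at hn
    exact hn.trans (by positivity)
  obtain ⟨w, hw1, -, hw2, hw3⟩ := hν.exists_tan i
  have hβs : 0 < β * s := by positivity
  have hβs1 : β * s ≤ s := by nlinarith
  have hwa : |⟪w, ν' i⟫| ≤ β / 100 := by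
    have := abs_inner_sub_le w (ν' i) (ν i)
    rw [hw2, sub_zero, hw1, one_mul] at this
    exact this.trans (hν' i)
  set v : E := (s / 4) • (w - ⟪w, ν' i⟫ • ν' i) with hv
  have hv0 : ⟪v, ν' i⟫ = 0 := by
    rw [hv, real_inner_smul_left, inner_sub_left, real_inner_smul_left, haa, mul_one, sub_self,
      mul_zero]
  have hv1 : ‖v‖ ≤ s / 4 * (101 / 100) := by
    rw [hv, norm_smul, Real.norm_eq_abs, abs_of_pos (by linarith)]
    refine mul_le_mul_of_nonneg_left ((norm_sub_le _ _).trans ?_) (by linarith)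
    rw [norm_smul, ha, hw1, mul_one, Real.norm_eq_abs]
    linarith
  have hv2 : s / 4 * (β - β / 100) ≤ ⟪v, ν (!i)⟫ := by
    rw [hv, real_inner_smul_left, inner_sub_left, real_inner_smul_left]
    refine mul_le_mul_of_nonneg_left ?_ (by linarith)
    have h1 := abs_real_inner_le_norm (ν' i) (ν (!i))
    rw [ha, hν.unit, mul_one] at h1
    have h2 : |⟪w, ν' i⟫ * ⟪ν' i, ν (!i)⟫| ≤ β / 100 := by
      rw [abs_mul]
      exact (mul_le_of_le_one_right (abs_nonneg _) h1).trans hwa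
    linarith [(abs_le.1 h2).2]
  have hua : ⟪u, ν' i⟫ = 0 := by
    rw [hu, inner_sub_left, real_inner_smul_left, haa, mul_one, sub_self]
  have hun : ⟪u, P.n i⟫ = ‖u‖ ^ 2 := by
    rw [← real_inner_self_eq_norm_sq]
    nth_rewrite 3 [hu]
    rw [inner_sub_right, real_inner_smul_right, hua, mul_zero, sub_zero]
  set z : E := (β * s / 16 / ‖u‖) • u with hz
  have hz1 : ‖z‖ = β * s / 16 := by
    rw [hz, norm_smul, Real.norm_eq_abs, abs_of_pos (by positivity), div_mul_cancel₀ _ h0.ne']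
  have hz2 : ⟪z, P.n i⟫ = β * s / 16 * ‖u‖ := by
    rw [hz, real_inner_smul_left, hun]
    field_simp
  have k0 := key v hv0 (by linarith) (by linarith)
  have k1 := key (v + z) (by
      rw [inner_add_left, hv0, hz, real_inner_smul_left, hua, mul_zero, add_zero])
    ((norm_add_le _ _).trans (by linarith))
    (by
      have h1 := abs_real_inner_le_norm z (ν (!i))
      rw [hz1, hν.unit, mul_one] at h1
      rw [inner_add_left]
      linarith [(abs_le.1 h1).1])
  rw [inner_add_left, hz2] at k1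
  have h1 : β * ‖u‖ * s ≤ 32 * (h + 2 * δ) * s := by
    linarith [(abs_le.1 k0).1, (abs_le.1 k1).2]
  have h2 := le_of_mul_le_mul_right h1 hs
  rw [le_div_iff₀ hβ]
  nlinarith

end MW.CI
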