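import Pool.Agent.P.MP_064970_gt.SC

/-! Case I, row DL. Sketch:
0 < b <= m <= eps r. t = (m/r)^(1/12), t^12 r = m, eps = t1^12 with t1 = min(t0, 1, ...) such that
C t1^9 <= 1/4. DLX with c0' = 40 c0, rho = r/40, zeta = C t^9; the bracket is <= 7 C^2 t^13 + 7 C
t^13. -/

open MeasureTheory Set Filter Topology Metric
open scoped RealInnerProductSpace ENNReal ComplexConjugate Real

noncomputable section

namespace MW.CI

theorem c_dl_of (hDLG : C_DLG) (hDLX : C_DLX) : C_DL := by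
  intro β hβ
  obtain ⟨η₀, hη₀, H⟩ := hDLG β hβ
  refine ⟨η₀, hη₀, fun η hη hηη c₀ hc₀ => ?_⟩
  obtain ⟨t₀, C, ht₀, hC, H⟩ := H η hη hηη
  obtain ⟨D, hD, K⟩ := hDLX (40 * c₀) (by positivity)
  set t₁ : ℝ := min t₀ (min 1 (1 / (4 * C))) with ht₁
  have ht₁0 : 0 < t₁ := by positivity
  refine ⟨t₁ ^ 12, D * (7 * C ^ 2) / 40, by positivity, by positivity, ?_⟩
  intro M ν b R r m r₁ r₂ p c₁ c₂ P hM hν hcore hP hE hb hm h₁ h₂ d₁ d₂ l₁ u₁ l₂ u₂
  have hm0 : 0 < m := h₁.pos.trans_le hb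
  have hr : 0 < r := (mul_pos_iff_of_pos_left (by positivity)).1 (hm0.trans_le hm)
  set t : ℝ := (m / r) ^ (1 / 12 : ℝ) with ht
  have ht0 : 0 < t := Real.rpow_pos_of_pos (by positivity) _
  have ht12 : t ^ 12 = m / r := by
    rw [ht, ← Real.rpow_natCast, ← Real.rpow_mul (by positivity)]
    norm_num
  have htm : t ^ 12 * r = m := by rw [ht12, div_mul_cancel₀ _ hr.ne']
  have htt : t ≤ t₁ := by
    refine (pow_le_pow_iff_left₀ ht0.le ht₁0.le (n := 12) (by norm_num)).1 ?_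
    rw [ht12, div_le_iff₀ hr]
    exact hm
  have ht1 : t ≤ 1 := htt.trans ((min_le_right _ _).trans (min_le_left _ _))
  have htC : t ≤ 1 / (4 * C) := htt.trans ((min_le_right _ _).trans (min_le_right _ _))
  obtain ⟨o, e, A, G, hA, hc⟩ := H M ν b R r t p P hM hν hr ht0 (htt.trans (min_le_left _ _))
    hcore hP (htm ▸ hE) (htm ▸ hb)
  have hp : ∀ k : ℕ, t ^ (13 + k) ≤ t ^ 13 := fun k =>
    pow_le_pow_of_le_one ht0.le ht1 (Nat.le_add_right _ _)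
  have hζ : C * t ^ 9 ≤ 1 / 4 := by
    have h1 : t ^ 9 ≤ t := by
      simpa using pow_le_pow_of_le_one ht0.le ht1 (show 1 ≤ 9 by norm_num)
    rw [le_div_iff₀ (by positivity)] at htC
    nlinarith
  refine (K M o e (r / 40) A G _ _ _ _ (C * t ^ 9) r₁ r₂ c₁ c₂ hM (by positivity) hA hζ
    (hc c₁ h₁ d₁).1 (hc c₂ h₂ d₂).1 (hc c₁ h₁ d₁).2 (hc c₂ h₂ d₂).2 (by linarith) (by linarith)
    (by linarith) (by linarith)).trans ?_
  have hbr : C * t ^ 4 * (C * t ^ 10) + (C * t ^ 10) ^ 2 + C * t ^ 8 * (C * t ^ 8) +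
      C * t ^ 9 * (C * t ^ 10 + C * t ^ 4 + C * t ^ 9 + C * t ^ 8) ≤ C ^ 2 * (7 * t ^ 13) := by
    have e : C * t ^ 4 * (C * t ^ 10) + (C * t ^ 10) ^ 2 + C * t ^ 8 * (C * t ^ 8) +
        C * t ^ 9 * (C * t ^ 10 + C * t ^ 4 + C * t ^ 9 + C * t ^ 8) =
        C ^ 2 * (t ^ (13 + 1) + t ^ (13 + 7) + t ^ (13 + 3) + t ^ (13 + 6) + t ^ 13 +
          t ^ (13 + 5) + t ^ (13 + 4)) := by ring
    rw [e]
    refine mul_le_mul_of_nonneg_left ?_ (by positivity)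
    linarith [hp 1, hp 7, hp 3, hp 6, hp 5, hp 4]
  refine (mul_le_mul_of_nonneg_left hbr (by positivity)).trans (le_of_eq ?_)
  rw [← htm]
  ring

end MW.CI
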