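import Pool.Agent.P.MP_064970_gt.SC

/-! Case I, row DLA. Sketch:
zeta x = g (qt x) is C^1 with support in closedBall 0 1 (|x|^2 = q + t^2, norm_sq_eq); D zeta x w
= 2 gq <pr x, pr w> + gt w 2. u = <pr x, pr (N x)>. (a) FV with v = e3: int gt - int gt N2^2 = int
2 gq N2 u. (b) scalar FV for x 0 * zeta with v = ex plus x 1 * zeta with v = ey (or the vector
form): int (g + 2 q gq) + int g N2^2 = int u (2 gq u + gt N2). On G i: |N2| <= wedge <= tau
(abs_inner_le_wedge, e3 = A i ey is orthogonal to n = A i e3), |u| <= 2h (x' = pt (pr x) 0 = <x,n>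
n + rest, |rest| <= |pr x|, tilt', ht, dax_zero_e3). On the rest of S cap ball 0 1: |u| <= delta,
|u| <= 1, mass kappa. Integrands vanish off ball 0 1, mass <= 2 pi. -/

open MeasureTheory Set Filter Topology Metric
open scoped RealInnerProductSpace ENNReal ComplexConjugate Real

noncomputable section

namespace MW.CI

namespace DLA

/-- The horizontal part of the support function. -/
def uu (M : Surf) (x : E) : ℝ := x 0 * M.N x 0 + x 1 * M.N x 1

theorem norm_pr_sq (x : E) : ‖pr x‖ ^ 2 = x 0 * x 0 + x 1 * x 1 := by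
  rw [← Complex.normSq_eq_norm_sq, Complex.normSq_apply]; rfl

theorem qt_eq : qt = fun x : E => (x 0 * x 0 + x 1 * x 1, x 2) := by
  funext x; rw [qt, norm_pr_sq]

theorem hasFDerivAt_co (i : Fin 3) (x : E) :
    HasFDerivAt (fun x : E => x i) (EuclideanSpace.proj i : E →L[ℝ] ℝ) x :=
  (EuclideanSpace.proj i : E →L[ℝ] ℝ).hasFDerivAt

theorem contDiff_co (i : Fin 3) : ContDiff ℝ 1 (fun x : E => x i) :=
  (EuclideanSpace.proj i : E →L[ℝ] ℝ).contDiff

theorem contDiff_qt : ContDiff ℝ 1 qt := by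
  rw [qt_eq]
  exact (((contDiff_co 0).mul (contDiff_co 0)).add ((contDiff_co 1).mul (contDiff_co 1))).prodMk
    (contDiff_co 2)

theorem continuous_qt : Continuous qt := contDiff_qt.continuous

variable {g gq gt : ℝ × ℝ → ℝ} {L : ℝ}

theorem contDiff_g (h : Tf g gq gt L) : ContDiff ℝ 1 g :=
  contDiff_one_iff_hasFDerivAt.2 ⟨_, (h.cq.smul continuous_const).add (h.ct.smul continuous_const),
    h.der⟩

theorem contDiff_z (h : Tf g gq gt L) : ContDiff ℝ 1 fun x => g (qt x) :=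
  (contDiff_g h).comp contDiff_qt

theorem fderiv_z (h : Tf g gq gt L) (x w : E) : fderiv ℝ (fun x => g (qt x)) x w
    = gq (qt x) * (2 * (x 0 * w 0 + x 1 * w 1)) + gt (qt x) * w 2 := by
  have h0 : HasFDerivAt (fun x : E => (x 0 * x 0 + x 1 * x 1, x 2)) _ x :=
    (((hasFDerivAt_co 0 x).mul (hasFDerivAt_co 0 x)).add
      ((hasFDerivAt_co 1 x).mul (hasFDerivAt_co 1 x))).prodMk (hasFDerivAt_co 2 x)
  have h1 := h0
  rw [← qt_eq] at h1
  have h2 : HasFDerivAt (fun x => g (qt x)) _ x := (h.der (qt x)).comp x h1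
  rw [h2.fderiv]
  simp
  ring

theorem fderiv_cz (h : Tf g gq gt L) (i : Fin 3) (x w : E) :
    fderiv ℝ (fun x : E => x i * g (qt x)) x w
      = w i * g (qt x) + x i * (gq (qt x) * (2 * (x 0 * w 0 + x 1 * w 1)) + gt (qt x) * w 2) := by
  have h1 := ((contDiff_z h).differentiable one_ne_zero x).hasFDerivAt
  have h2 : HasFDerivAt (fun x : E => x i * g (qt x)) _ x := (hasFDerivAt_co i x).mul h1
  rw [h2.fderiv, ← fderiv_z h x w]
  simp
  ring

theorem zero_off (h : Tf g gq gt L) {x : E} (hx : x ∉ ball (0 : E) 1) :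
    g (qt x) = 0 ∧ gq (qt x) = 0 ∧ gt (qt x) = 0 := by
  rw [mem_ball_zero_iff, not_lt] at hx
  refine h.supp _ (sq_nonneg _) ?_
  have := norm_sq_eq x
  change 3 / 4 ≤ ‖pr x‖ ^ 2 + x 2 ^ 2
  nlinarith

theorem bd_qt (h : Tf g gq gt L) (x : E) :
    |g (qt x)| ≤ L ∧ |gq (qt x)| ≤ L ∧ |gt (qt x)| ≤ L := h.bd _ (sq_nonneg _)

theorem supp_z (h : Tf g gq gt L) (φ : E → ℝ) : HasCompactSupport fun x => φ x * g (qt x) :=
  HasCompactSupport.intro (isCompact_closedBall (0 : E) 1) fun x hx => by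
    rw [(zero_off h fun h1 => hx (ball_subset_closedBall h1)).1, mul_zero]

theorem meas_N (M : Surf) (i : Fin 3) : Measurable fun x => M.N x i :=
  (contDiff_co i).continuous.measurable.comp M.N_meas

theorem meas_co (i : Fin 3) : Measurable fun x : E => x i := (contDiff_co i).continuous.measurable

theorem meas_uu (M : Surf) : Measurable (uu M) :=
  ((meas_co 0).mul (meas_N M 0)).add ((meas_co 1).mul (meas_N M 1))

theorem abs_co_le (x : E) (i : Fin 3) : |x i| ≤ ‖x‖ := by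
  simpa using PiLp.norm_apply_le x i

theorem uu_eq (M : Surf) (x : E) : uu M x = ⟪M.N x, pt (pr x) 0⟫ := by
  rw [inner_eq, uu]; simp; ring

theorem abs_uu_le {M : Surf} {x : E} (hx : x ∈ M.S) : |uu M x| ≤ ‖pr x‖ := by
  rw [uu_eq]
  have := abs_real_inner_le_norm (M.N x) (pt (pr x) 0)
  rwa [M.N_unit x hx, norm_pt_zero, one_mul] at this

/-- A bounded measurable function times a function that vanishes off the unit ball. -/
theorem integ {M : Surf} (hM : M.Mem) {F : E → ℝ} (hF : Measurable F) {C : ℝ}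
    (hC : ∀ x ∈ M.S, x ∈ ball (0 : E) 1 → |F x| ≤ C) (h0 : ∀ x, x ∉ ball (0 : E) 1 → F x = 0) :
    Integrable F M.μ := by
  refine hM.bd.integrable (A := ball 0 1) isBounded_ball hF (C := max C 0) (fun x hx => ?_)
    fun x _ hx => h0 x hx
  by_cases hb : x ∈ ball (0 : E) 1
  · exact (hC x hx hb).trans (le_max_left _ _)
  · rw [h0 x hb, abs_zero]; exact le_max_right _ _

variable {M : Surf} {A : Bool → E ≃ₗᵢ[ℝ] E} {G : Bool → Set E} {τ h κ δ : ℝ}

theorem on_sheet (H : AxG M 0 e3 1 A G τ h κ δ) {i : Bool} {x : E} (hx : x ∈ G i) :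
    |M.N x 2| ≤ τ ∧ |uu M x| ≤ 2 * h := by
  have hS : x ∈ M.S := (H.sub i hx).1
  have hn : ‖A i e3‖ = 1 := by rw [(A i).norm_map, norm_e3]
  have h3 : ⟪A i e3, e3⟫ = 0 := by
    nth_rewrite 2 [← H.ax i]
    rw [(A i).inner_map_map, e3_inner]; rfl
  refine ⟨?_, ?_⟩
  · have := abs_inner_le_wedge (a := M.N x) h3
    rw [inner_e3, norm_e3, mul_one] at this
    exact this.trans (H.tilt i x hx)
  · set n := A i e3 with hn'
    set x' := pt (pr x) 0 with hx'
    have e1 : ⟪x', n⟫ = ⟪x, n⟫ := by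
      have h4 : n 2 = 0 := by rw [← inner_e3, h3]
      rw [inner_eq, inner_eq, h4, hx']; simp
    have e2 : ⟪n, x' - ⟪x', n⟫ • n⟫ = 0 := by
      rw [inner_sub_right, real_inner_smul_right, real_inner_self_eq_norm_sq, hn, real_inner_comm]
      ring
    have e3' : uu M x = ⟪M.N x, x' - ⟪x', n⟫ • n⟫ + ⟪x, n⟫ * ⟪M.N x, n⟫ := by
      rw [uu_eq, inner_sub_right, real_inner_smul_right, e1]; ring
    have b1 := abs_inner_le_wedge (a := M.N x) e2
    have b2 : ‖x' - ⟪x', n⟫ • n‖ ≤ ‖pr x‖ := by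
      have h5 := Coord_wedge_sq x' hn
      rw [hx', norm_pt_zero] at h5
      exact abs_le_of_sq_le_sq' (by
        change wedge x' n ^ 2 ≤ _
        rw [hx', h5]; nlinarith [sq_nonneg ⟪pt (pr x) 0, n⟫]) (norm_nonneg _) |>.2
    have b3 := H.tilt' i x hx
    rw [dax_zero_e3, mul_one] at b3
    have b4 := H.ht i x hx
    rw [sub_zero, mul_one] at b4
    have b5 : |⟪M.N x, n⟫| ≤ 1 := by
      have := abs_real_inner_le_norm (M.N x) n
      rwa [M.N_unit x hS, hn, one_mul] at this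
    have b6 : wedge (M.N x) n * ‖x' - ⟪x', n⟫ • n‖ ≤ wedge (M.N x) n * ‖pr x‖ :=
      mul_le_mul_of_nonneg_left b2 (wedge_nonneg _ _)
    have b7 : |⟪x, n⟫ * ⟪M.N x, n⟫| ≤ h := by
      rw [abs_mul]
      nlinarith [abs_nonneg ⟪x, n⟫, abs_nonneg ⟪M.N x, n⟫]
    rw [e3']
    have := abs_add_le ⟪M.N x, x' - ⟪x', n⟫ • n⟫ (⟪x, n⟫ * ⟪M.N x, n⟫)
    nlinarith

/-- The integral of a function that is small on the sheets and bounded on the rest. -/
theorem bound (hM : M.Mem) (H : AxG M 0 e3 1 A G τ h κ δ) {F : E → ℝ} {a b : ℝ} (ha : 0 ≤ a)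
    (hb : 0 ≤ b) (h0 : ∀ x, x ∉ ball (0 : E) 1 → F x = 0) (h1 : ∀ i, ∀ x ∈ G i, |F x| ≤ a)
    (h2 : ∀ x ∈ M.S, x ∈ ball (0 : E) 1 → x ∉ G false → x ∉ G true → |F x| ≤ b) :
    |∫ x, F x ∂M.μ| ≤ 7 * a + κ * b := by
  set R := ball (0 : E) 1 \ (G false ∪ G true) with hR
  have mR : MeasurableSet R := measurableSet_ball.diff ((H.meas _).union (H.meas _))
  have f1 : M.μ (ball 0 1) < ∞ := hM.bd.lt_top isBounded_ball
  have f2 : M.μ R < ∞ := hM.bd.lt_top (isBounded_ball.subset diff_subset)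
  have i1 : Integrable ((ball (0 : E) 1).indicator fun _ => a) M.μ :=
    (integrableOn_const f1.ne).integrable_indicator measurableSet_ball
  have i2 : Integrable (R.indicator fun _ => b) M.μ :=
    (integrableOn_const f2.ne).integrable_indicator mR
  have key : ‖∫ x, F x ∂M.μ‖ ≤ ∫ x, ((ball (0 : E) 1).indicator (fun _ => a) x
      + R.indicator (fun _ => b) x) ∂M.μ := by
    refine norm_integral_le_of_norm_le (i1.add i2) ?_
    filter_upwards [M.ae_mem] with x hx
    rw [Real.norm_eq_abs]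
    have p2 : 0 ≤ R.indicator (fun _ => b) x := indicator_nonneg (fun _ _ => hb) x
    by_cases hb1 : x ∈ ball (0 : E) 1
    · rw [indicator_of_mem hb1]
      by_cases g0 : x ∈ G false
      · linarith [h1 _ x g0]
      by_cases g1 : x ∈ G true
      · linarith [h1 _ x g1]
      rw [indicator_of_mem (show x ∈ R from ⟨hb1, fun h => h.elim g0 g1⟩)]
      linarith [h2 x hx hb1 g0 g1]
    · rw [h0 x hb1, indicator_of_notMem hb1, abs_zero]; linarith
  rw [integral_add i1 i2, integral_indicator_const _ measurableSet_ball,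
    integral_indicator_const _ mR, Real.norm_eq_abs, smul_eq_mul, smul_eq_mul] at key
  have m1 := hM.bd.real_ball 0 one_pos
  have m2 : M.μ.real R ≤ κ := by
    have := H.rest
    rw [one_pow, mul_one] at this
    exact ENNReal.toReal_le_of_le_ofReal H.κ0 this
  have m3 : M.μ.real (ball (0 : E) 1) ≤ 7 := by nlinarith [Real.pi_lt_d2]
  nlinarith

theorem partA (hFV : S_FV) (hM : M.Mem) (T : Tf g gq gt L) :
    (∫ x, gt (qt x) ∂M.μ) - ∫ x, gt (qt x) * M.N x 2 ^ 2 ∂M.μ
      = ∫ x, 2 * gq (qt x) * (M.N x 2 * uu M x) ∂M.μ := by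
  have hL : 0 ≤ L := (abs_nonneg _).trans (bd_qt T 0).1
  have mq : Measurable fun x => gq (qt x) := (T.cq.comp continuous_qt).measurable
  have mt : Measurable fun x => gt (qt x) := (T.ct.comp continuous_qt).measurable
  have hs : HasCompactSupport fun x => g (qt x) := by simpa using supp_z T fun _ => 1
  have h1 := (hFV M).1 _ (contDiff_z T) hs (hM.sub _) e3
  have i1 : Integrable (fun x => gt (qt x)) M.μ :=
    integ hM mt (fun x _ _ => (bd_qt T x).2.2) fun x hx => (zero_off T hx).2.2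
  have i2 : Integrable (fun x => gt (qt x) * M.N x 2 ^ 2) M.μ := by
    refine integ hM (mt.mul ((meas_N M 2).pow_const 2)) (C := L) (fun x hx _ => ?_)
      fun x hx => by rw [(zero_off T hx).2.2, zero_mul]
    have a1 := abs_co_le (M.N x) 2
    rw [M.N_unit x hx] at a1
    rw [abs_mul, abs_pow]
    have a2 : |M.N x 2| ^ 2 ≤ 1 := pow_le_one₀ (abs_nonneg _) a1
    nlinarith [(bd_qt T x).2.2, abs_nonneg (gt (qt x))]
  have i3 : Integrable (fun x => 2 * gq (qt x) * (M.N x 2 * uu M x)) M.μ := by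
    refine integ hM ((mq.const_mul 2).mul ((meas_N M 2).mul (meas_uu M))) (C := 2 * L)
      (fun x hx hb => ?_) fun x hx => by rw [(zero_off T hx).2.1, mul_zero, zero_mul]
    have a1 := abs_co_le (M.N x) 2
    rw [M.N_unit x hx] at a1
    have a2 : |uu M x| ≤ 1 :=
      (abs_uu_le hx).trans ((norm_pr_le x).trans (mem_ball_zero_iff.1 hb).le)
    rw [abs_mul, abs_mul, abs_mul, abs_two]
    have a3 : |M.N x 2| * |uu M x| ≤ 1 := mul_le_one₀ a1 (abs_nonneg _) a2
    nlinarith [(bd_qt T x).2.1, abs_nonneg (gq (qt x))]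
  have i12 : Integrable (fun x => gt (qt x) - gt (qt x) * M.N x 2 ^ 2) M.μ := i1.sub i2
  rw [← sub_eq_zero, ← integral_sub i1 i2, ← integral_sub i12 i3, ← h1]
  refine integral_congr_ae (Eventually.of_forall fun x => ?_)
  simp only [fderiv_z T, inner_e3, uu, Pi.sub_apply]
  have z0 : e3 0 = 0 := rfl
  have z1 : e3 1 = 0 := rfl
  rw [z0, z1, e3_two]
  ring

theorem partB (hFV : S_FV) (hM : M.Mem) (T : Tf g gq gt L) :
    (∫ x, (g (qt x) + 2 * ‖pr x‖ ^ 2 * gq (qt x)) ∂M.μ) + ∫ x, g (qt x) * M.N x 2 ^ 2 ∂M.μ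
      = ∫ x, uu M x * (2 * gq (qt x) * uu M x + gt (qt x) * M.N x 2) ∂M.μ := by
  have hL : 0 ≤ L := (abs_nonneg _).trans (bd_qt T 0).1
  have mg : Measurable fun x => g (qt x) := (contDiff_z T).continuous.measurable
  have mq : Measurable fun x => gq (qt x) := (T.cq.comp continuous_qt).measurable
  have mt : Measurable fun x => gt (qt x) := (T.ct.comp continuous_qt).measurable
  have h0 := (hFV M).1 _ ((contDiff_co 0).mul (contDiff_z T)) (supp_z T _) (hM.sub _) ex
  have h1 := (hFV M).1 _ ((contDiff_co 1).mul (contDiff_z T)) (supp_z T _) (hM.sub _) ey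
  have hN : ∀ x ∈ M.S, ∀ i, |M.N x i| ≤ 1 := fun x hx i => by
    have a1 := abs_co_le (M.N x) i
    rwa [M.N_unit x hx] at a1
  have hx1 : ∀ x ∈ ball (0 : E) 1, ∀ i, |x i| ≤ 1 := fun x hx i =>
    (abs_co_le x i).trans (mem_ball_zero_iff.1 hx).le
  have hu : ∀ x ∈ M.S, x ∈ ball (0 : E) 1 → |uu M x| ≤ 1 := fun x hx hb =>
    (abs_uu_le hx).trans ((norm_pr_le x).trans (mem_ball_zero_iff.1 hb).le)
  have ig : ∀ φ : E → ℝ, Measurable φ → (∀ x ∈ M.S, x ∈ ball (0 : E) 1 → |φ x| ≤ 1) →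
      Integrable (fun x => g (qt x) * φ x) M.μ ∧ Integrable (fun x => gq (qt x) * φ x) M.μ ∧
        Integrable (fun x => gt (qt x) * φ x) M.μ := fun φ hφ hb => by
    refine ⟨integ hM (mg.mul hφ) (C := L) (fun x hx h => ?_) fun x hx => ?_,
      integ hM (mq.mul hφ) (C := L) (fun x hx h => ?_) fun x hx => ?_,
      integ hM (mt.mul hφ) (C := L) (fun x hx h => ?_) fun x hx => ?_⟩
    · rw [abs_mul]; nlinarith [(bd_qt T x).1, hb x hx h, abs_nonneg (g (qt x)), abs_nonneg (φ x)]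
    · rw [(zero_off T hx).1, zero_mul]
    · rw [abs_mul]; nlinarith [(bd_qt T x).2.1, hb x hx h, abs_nonneg (gq (qt x)), abs_nonneg (φ x)]
    · rw [(zero_off T hx).2.1, zero_mul]
    · rw [abs_mul]; nlinarith [(bd_qt T x).2.2, hb x hx h, abs_nonneg (gt (qt x)), abs_nonneg (φ x)]
    · rw [(zero_off T hx).2.2, zero_mul]
  have m2 : ∀ {a b : ℝ}, |a| ≤ 1 → |b| ≤ 1 → |a * b| ≤ 1 := fun ha hb => by
    rw [abs_mul]; exact mul_le_one₀ ha (abs_nonneg _) hb
  have j1 := (ig (fun _ => 1) measurable_const fun _ _ _ => by simp).1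
  have jN : ∀ i, Integrable (fun x => g (qt x) * (M.N x i * M.N x i)) M.μ := fun i =>
    (ig _ ((meas_N M i).mul (meas_N M i)) fun x hx _ => m2 (hN x hx i) (hN x hx i)).1
  have jx : ∀ i, Integrable (fun x : E => gq (qt x) * (x i * x i)) M.μ := fun i =>
    (ig _ ((meas_co i).mul (meas_co i)) fun x _ hb => m2 (hx1 x hb i) (hx1 x hb i)).2.1
  have ju : ∀ i, Integrable (fun x : E => gq (qt x) * (x i * M.N x i * uu M x)) M.μ := fun i =>
    (ig _ (((meas_co i).mul (meas_N M i)).mul (meas_uu M))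
      fun x hx hb => m2 (m2 (hx1 x hb i) (hN x hx i)) (hu x hx hb)).2.1
  have jt : ∀ i, Integrable (fun x : E => gt (qt x) * (x i * M.N x i * M.N x 2)) M.μ := fun i =>
    (ig _ (((meas_co i).mul (meas_N M i)).mul (meas_N M 2))
      fun x hx hb => m2 (m2 (hx1 x hb i) (hN x hx i)) (hN x hx 2)).2.2
  set F : Fin 3 → E → ℝ := fun i x => g (qt x) * 1 + 2 * (gq (qt x) * (x i * x i))
    - g (qt x) * (M.N x i * M.N x i) - 2 * (gq (qt x) * (x i * M.N x i * uu M x))
    - gt (qt x) * (x i * M.N x i * M.N x 2) with hF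
  have iF : ∀ i, Integrable (F i) M.μ := fun i =>
    (((j1.add ((jx i).const_mul 2)).sub (jN i)).sub ((ju i).const_mul 2)).sub (jt i)
  have k0 : ∫ x, F 0 x ∂M.μ = 0 := by
    rw [← h0]
    refine integral_congr_ae (Eventually.of_forall fun x => ?_)
    simp only [fderiv_cz T, inner_ex, uu, hF]
    have z0 : ex 0 = 1 := rfl
    have z1 : ex 1 = 0 := rfl
    have z2 : ex 2 = 0 := rfl
    rw [z0, z1, z2]
    ring
  have k1 : ∫ x, F 1 x ∂M.μ = 0 := by
    rw [← h1]
    refine integral_congr_ae (Eventually.of_forall fun x => ?_)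
    simp only [fderiv_cz T, inner_ey, uu, hF]
    have z0 : ey 0 = 0 := rfl
    have z1 : ey 1 = 1 := rfl
    have z2 : ey 2 = 0 := rfl
    rw [z0, z1, z2]
    ring
  have i1 : Integrable (fun x => g (qt x) + 2 * ‖pr x‖ ^ 2 * gq (qt x)) M.μ := by
    refine (j1.add (((jx 0).add (jx 1)).const_mul 2)).congr (Eventually.of_forall fun x => ?_)
    simp only [Pi.add_apply, norm_pr_sq]
    ring
  have i2 : Integrable (fun x => g (qt x) * M.N x 2 ^ 2) M.μ := by
    simpa only [sq] using jN 2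
  have i3 : Integrable (fun x => uu M x * (2 * gq (qt x) * uu M x + gt (qt x) * M.N x 2)) M.μ := by
    refine ((((ju 0).add (ju 1)).const_mul 2).add ((jt 0).add (jt 1))).congr
      (Eventually.of_forall fun x => ?_)
    simp only [Pi.add_apply, uu]
    ring
  have i12 : Integrable
      (fun x => g (qt x) + 2 * ‖pr x‖ ^ 2 * gq (qt x) + g (qt x) * M.N x 2 ^ 2) M.μ := i1.add i2
  rw [← sub_eq_zero, ← integral_add i1 i2, ← integral_sub i12 i3]
  have k2 := integral_add (iF 0) (iF 1)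
  rw [k0, k1, add_zero] at k2
  rw [← k2]
  refine integral_congr_ae ?_
  filter_upwards [M.ae_unit] with x hx
  have e1 := norm_sq_eq (M.N x)
  rw [hx, norm_pr_sq] at e1
  simp only [Pi.add_apply, norm_pr_sq, hF, uu]
  linear_combination (-g (qt x)) * e1

end DLA

theorem c_dla_of (hFV : S_FV) : C_DLA := by
  refine ⟨56, by norm_num, fun M A G τ h κ δ hM H g gq gt L T => ?_⟩
  have hL : 0 ≤ L := (abs_nonneg _).trans (DLA.bd_qt T 0).1
  have hτ := H.τ0
  have hh := H.h0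
  have hκ := H.κ0
  have hδ := H.δ0
  have p1 : 0 ≤ L * (τ * h) := by positivity
  have p2 : 0 ≤ L * h ^ 2 := by positivity
  have p3 : 0 ≤ L * (κ * δ) := by positivity
  have rest : ∀ x ∈ M.S, x ∈ ball (0 : E) 1 → x ∉ G false → x ∉ G true →
      |M.N x 2| ≤ 1 ∧ |DLA.uu M x| ≤ 1 ∧ |DLA.uu M x| ≤ δ := fun x hx hb g0 g1 => by
    have a1 := DLA.abs_co_le (M.N x) 2
    rw [M.N_unit x hx] at a1
    have a2 := H.restd x ⟨hx, hb⟩ g0 g1
    rw [dax_zero_e3, mul_one] at a2
    exact ⟨a1, (DLA.abs_uu_le hx).trans ((norm_pr_le x).trans (mem_ball_zero_iff.1 hb).le),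
      (DLA.abs_uu_le hx).trans a2⟩
  constructor
  · rw [DLA.partA hFV hM T]
    refine (DLA.bound hM H (a := 2 * L * (τ * (2 * h))) (b := 2 * L * (1 * δ)) (by positivity)
      (by positivity) (fun x hx => ?_) (fun i x hx => ?_) fun x hx hb g0 g1 => ?_).trans (by nlinarith)
    · rw [(DLA.zero_off T hx).2.1, mul_zero, zero_mul]
    · obtain ⟨a1, a2⟩ := DLA.on_sheet H hx
      rw [abs_mul, abs_mul, abs_mul, abs_two]
      gcongr
      exact (DLA.bd_qt T x).2.1
    · obtain ⟨a1, -, a3⟩ := rest x hx hb g0 g1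
      rw [abs_mul, abs_mul, abs_mul, abs_two]
      gcongr
      exact (DLA.bd_qt T x).2.1
  · rw [DLA.partB hFV hM T]
    have gen : ∀ (x : E) (a b c : ℝ), |DLA.uu M x| ≤ a → |DLA.uu M x| ≤ b → |M.N x 2| ≤ c →
        |DLA.uu M x * (2 * gq (qt x) * DLA.uu M x + gt (qt x) * M.N x 2)|
          ≤ a * (2 * L * b + L * c) := fun x a b c ha hb hc => by
      have ha0 : 0 ≤ a := (abs_nonneg _).trans ha
      rw [abs_mul]
      refine mul_le_mul ha ((abs_add_le _ _).trans ?_) (abs_nonneg _) ha0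
      rw [abs_mul, abs_mul, abs_mul, abs_two]
      gcongr
      · exact (DLA.bd_qt T x).2.1
      · exact (DLA.bd_qt T x).2.2
    refine (DLA.bound hM H (a := 2 * h * (2 * L * (2 * h) + L * τ)) (b := δ * (2 * L * 1 + L * 1))
      (by positivity) (by positivity) (fun x hx => ?_) (fun i x hx => ?_)
      fun x hx hb g0 g1 => ?_).trans (by nlinarith)
    · rw [(DLA.zero_off T hx).2.1, (DLA.zero_off T hx).2.2]; ring
    · obtain ⟨a1, a2⟩ := DLA.on_sheet H hx
      exact gen x _ _ _ a2 a2 a1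
    · obtain ⟨a1, a2, a3⟩ := rest x hx hb g0 g1
      exact gen x _ _ _ a3 a2 a1

end MW.CI
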