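import Pool.Agent.P.MP_064970_gt.SC

/-! Case I, row DLC. Sketch:
F y = re^2 phi(qy y). For x in G i, y = prA (A i) x: y.im = x 2 (prA_im, ax), |pr x|^2 = y.re^2 +
<x,n>^2 (norm_sq_prA, norm_sq_eq). Phi(q,t) = q phi(q,t) satisfies |Phi(q,t) - Phi(q',t)| <=
2L|q-q'| for q >= q' >= 0 (both vanish if q' >= 3/4). So |Phi(qt x) - F(prA x)|n3|| <= |Phi(qt
x)|(1-|n3|) + 2 L h^2 <= 3 L h^2 (1-|n3| <= wedge^2, tilt'); mass of G i <= 50 pi. ARG: int_G
F(prA x)|n3| = int over the image of F. Off the image F vanishes outside ball 0 1 and is <= L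
delta on area kappa (coverd). On the rest of S the integrand is <= L delta on mass kappa. -/

open MeasureTheory Set Filter Topology Metric
open scoped RealInnerProductSpace ENNReal ComplexConjugate Real

noncomputable section

namespace MW.CI

namespace DLC

theorem off {α : Type*} [MeasurableSpace α] {μ : Measure α} {f : α → ℝ} (hf : Integrable f μ)
    {U B S : Set α} (hU : MeasurableSet U) (hS : ∀ᵐ x ∂μ, x ∈ S)
    (h0 : ∀ x, x ∉ B → f x = 0) {c κ : ℝ} (hc : 0 ≤ c) (hκ : 0 ≤ κ)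
    (hb : ∀ x ∈ S, x ∈ B → x ∉ U → |f x| ≤ c) (hm : μ (B \ U) ≤ ENNReal.ofReal κ) :
    |(∫ x, f x ∂μ) - ∫ x in U, f x ∂μ| ≤ c * κ := by
  have e1 : (∫ x, f x ∂μ) - ∫ x in U, f x ∂μ = ∫ x in Uᶜ, f x ∂μ := by
    rw [← integral_add_compl hU hf]
    ring
  have e2 : ∫ x in Uᶜ, f x ∂μ = ∫ x in B \ U, f x ∂μ :=
    setIntegral_eq_of_subset_of_forall_sdiff_eq_zero hU.compl (fun x hx => hx.2)
      fun x hx => h0 x fun hB => hx.2 ⟨hB, hx.1⟩
  have h1 : ‖∫ x in B \ U, f x ∂μ‖ ≤ c * μ.real (B \ U) := by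
    refine norm_setIntegral_le_of_norm_le_const_ae' (hm.trans_lt ENNReal.ofReal_lt_top) ?_
    filter_upwards [hS] with x hx hx'
    exact hb x hx hx'.1 hx'.2
  rw [e1, e2]
  exact h1.trans (mul_le_mul_of_nonneg_left (ENNReal.toReal_le_of_le_ofReal hκ hm) hc)

variable {φ : ℝ × ℝ → ℝ} {L : ℝ}

theorem abs_le (hb : ∀ z : ℝ × ℝ, 0 ≤ z.1 → |φ z| ≤ L) {q : ℝ} (hq : 0 ≤ q) (t : ℝ) :
    |q * φ (q, t)| ≤ L * q := by
  rw [abs_mul, abs_of_nonneg hq, mul_comm]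
  exact mul_le_mul_of_nonneg_right (hb (q, t) hq) hq

theorem abs_le' (hb : ∀ z : ℝ × ℝ, 0 ≤ z.1 → |φ z| ≤ L)
    (h0 : ∀ z : ℝ × ℝ, 0 ≤ z.1 → 3 / 4 ≤ z.1 + z.2 ^ 2 → φ z = 0) {q : ℝ} (hq : 0 ≤ q) (t : ℝ) :
    |q * φ (q, t)| ≤ L := by
  have hL : 0 ≤ L := (abs_nonneg _).trans (hb (0, 0) le_rfl)
  rcases le_total q 1 with h | h
  · exact (abs_le hb hq t).trans (mul_le_of_le_one_right hL h)
  · rw [h0 (q, t) hq (by nlinarith [sq_nonneg t]), mul_zero, abs_zero]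
    exact hL

theorem lip (hb : ∀ z : ℝ × ℝ, 0 ≤ z.1 → |φ z| ≤ L) (hl : LipQ φ L)
    (h0 : ∀ z : ℝ × ℝ, 0 ≤ z.1 → 3 / 4 ≤ z.1 + z.2 ^ 2 → φ z = 0) {q d : ℝ} (hq : 0 ≤ q)
    (hd : 0 ≤ d) (t : ℝ) : |(q + d) * φ (q + d, t) - q * φ (q, t)| ≤ 2 * L * d := by
  have hL : 0 ≤ L := (abs_nonneg _).trans (hb (0, 0) le_rfl)
  have hqd : 0 ≤ q + d := add_nonneg hq hd
  rcases le_total q 1 with h | h
  · have h1 := hl (q + d) q t hqd hq
    rw [add_sub_cancel_left, abs_of_nonneg hd] at h1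
    have h2 := hb (q + d, t) hqd
    have e : (q + d) * φ (q + d, t) - q * φ (q, t) =
        d * φ (q + d, t) + q * (φ (q + d, t) - φ (q, t)) := by ring
    rw [e]
    refine (abs_add_le _ _).trans ?_
    rw [abs_mul, abs_mul, abs_of_nonneg hd, abs_of_nonneg hq]
    have h3 : d * |φ (q + d, t)| ≤ d * L := mul_le_mul_of_nonneg_left h2 hd
    have h4 : q * |φ (q + d, t) - φ (q, t)| ≤ |φ (q + d, t) - φ (q, t)| :=
      mul_le_of_le_one_left (abs_nonneg _) h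
    linarith
  · rw [h0 (q, t) hq (by nlinarith [sq_nonneg t]),
      h0 (q + d, t) hqd (by nlinarith [sq_nonneg t]), mul_zero, mul_zero, sub_zero, abs_zero]
    positivity

theorem norm_sq_C (y : ℂ) : ‖y‖ ^ 2 = y.re ^ 2 + y.im ^ 2 := by
  rw [Complex.sq_norm, Complex.normSq_apply]
  ring

theorem point (hb : ∀ z : ℝ × ℝ, 0 ≤ z.1 → |φ z| ≤ L) (hl : LipQ φ L)
    (h0 : ∀ z : ℝ × ℝ, 0 ≤ z.1 → 3 / 4 ≤ z.1 + z.2 ^ 2 → φ z = 0) {A : E ≃ₗᵢ[ℝ] E}
    (hA : A ey = e3) {x n : E} (hn : ‖n‖ = 1) {h : ℝ} (h1 : ‖pr x‖ * wedge n (A e3) ≤ h)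
    (h2 : |⟪x, A e3⟫| ≤ h) :
    |‖pr x‖ ^ 2 * φ (qt x) - (prA A x).re ^ 2 * φ (qy (prA A x)) * (|⟪n, A e3⟫|)|
      ≤ 3 * L * h ^ 2 := by
  have hL : 0 ≤ L := (abs_nonneg _).trans (hb (0, 0) le_rfl)
  have hu : ‖A e3‖ = 1 := by rw [A.norm_map, norm_e3]
  have e1 : (prA A x).im = x 2 := by rw [prA_im, hA, inner_e3]
  have e2 : ‖pr x‖ ^ 2 = (prA A x).re ^ 2 + ⟪x, A e3⟫ ^ 2 := by
    have a1 := norm_sq_prA A x
    have a2 := norm_sq_eq x
    rw [norm_sq_C, e1] at a1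
    linarith
  have a3 : ⟪x, A e3⟫ ^ 2 ≤ h ^ 2 := by
    rw [← sq_abs]
    exact pow_le_pow_left₀ (abs_nonneg _) h2 2
  have a4 := lip hb hl h0 (sq_nonneg (prA A x).re) (sq_nonneg ⟪x, A e3⟫) (x 2)
  rw [← e2] at a4
  have a5 := abs_le hb (sq_nonneg ‖pr x‖) (x 2)
  have a6 := wedge_sq hn hu
  have a7 : |⟪n, A e3⟫| ≤ 1 := by
    have := abs_real_inner_le_norm n (A e3)
    rwa [hn, hu, mul_one] at this
  have a8 := abs_nonneg ⟪n, A e3⟫
  have a9 : 1 - |⟪n, A e3⟫| ≤ wedge n (A e3) ^ 2 := by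
    rw [a6, ← sq_abs]
    nlinarith
  have a10 : ‖pr x‖ ^ 2 * wedge n (A e3) ^ 2 ≤ h ^ 2 := by
    rw [← mul_pow]
    exact pow_le_pow_left₀ (mul_nonneg (norm_nonneg _) (wedge_nonneg _ _)) h1 2
  unfold qt qy
  rw [e1]
  set P := ‖pr x‖ ^ 2 * φ (‖pr x‖ ^ 2, x 2)
  set F := (prA A x).re ^ 2 * φ ((prA A x).re ^ 2, x 2)
  set m := |⟪n, A e3⟫|
  have e : P - F * m = P * (1 - m) + (P - F) * m := by ring
  rw [e]
  refine (abs_add_le _ _).trans ?_
  rw [abs_mul P, abs_mul (P - F), abs_of_nonneg a8, abs_of_nonneg (sub_nonneg.2 a7)]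
  have b1 : |P| * (1 - m) ≤ L * ‖pr x‖ ^ 2 * wedge n (A e3) ^ 2 :=
    mul_le_mul a5 a9 (sub_nonneg.2 a7) (by positivity)
  have b2 : |P - F| * m ≤ |P - F| := mul_le_of_le_one_right (abs_nonneg _) a7
  have b3 : L * ‖pr x‖ ^ 2 * wedge n (A e3) ^ 2 ≤ L * h ^ 2 := by
    rw [mul_assoc]
    exact mul_le_mul_of_nonneg_left a10 hL
  have b4 : 2 * L * ⟪x, A e3⟫ ^ 2 ≤ 2 * L * h ^ 2 := mul_le_mul_of_nonneg_left a3 (by positivity)
  linarith

theorem sq_le {a δ : ℝ} (h1 : |a| ≤ δ) (h2 : |a| ≤ 1) : a ^ 2 ≤ δ := by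
  rw [← sq_abs]
  nlinarith [abs_nonneg a]

end DLC

open DLC in
theorem c_dlc_of (hARG : C_ARG) : C_DLC := by
  refine ⟨1200, by norm_num, fun M A G τ h κ δ hM H φ L hφ hb hl h0 => ?_⟩
  have hL : 0 ≤ L := (abs_nonneg _).trans (hb (0, 0) le_rfl)
  have hκ := H.κ0
  have hδ := H.δ0
  set f : E → ℝ := fun x => ‖pr x‖ ^ 2 * φ (qt x) with hf
  set F : ℂ → ℝ := fun y => y.re ^ 2 * φ (qy y) with hF
  have hfc : Continuous f := by
    have := continuous_pr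
    unfold qt at hf
    rw [hf]
    fun_prop
  have hFc : Continuous F := by
    unfold qy at hF
    rw [hF]
    fun_prop
  have hf0 : ∀ x, x ∉ ball (0 : E) 1 → f x = 0 := fun x hx => by
    rw [mem_ball_zero_iff, not_lt] at hx
    have h1 : 1 ≤ ‖x‖ ^ 2 := one_le_pow₀ hx
    rw [norm_sq_eq] at h1
    have h2 : φ (qt x) = 0 := h0 _ (sq_nonneg _) (by unfold qt; linarith)
    simp only [hf, h2, mul_zero]
  have hF0 : ∀ y, y ∉ ball (0 : ℂ) 1 → F y = 0 := fun y hy => by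
    rw [mem_ball_zero_iff, not_lt] at hy
    have h1 : 1 ≤ ‖y‖ ^ 2 := one_le_pow₀ hy
    rw [norm_sq_C] at h1
    have h2 : φ (qy y) = 0 := h0 _ (sq_nonneg _) (by unfold qy; linarith)
    simp only [hF, h2, mul_zero]
  have hfi : Integrable f M.μ :=
    hM.bd.integrable (A := ball 0 1) isBounded_ball hfc.measurable (C := L)
      (fun x _ => abs_le' hb h0 (sq_nonneg _) _) fun x _ hx => hf0 x hx
  have hFi : Integrable F := hFc.integrable_of_hasCompactSupport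
    (HasCompactSupport.intro (isCompact_closedBall 0 1) fun y hy =>
      hF0 y fun h => hy (ball_subset_closedBall h))
  have hp0 : ∀ i, prA (A i) 0 = 0 := fun i => by simp [prA]
  have key : ∀ i, |(∫ y, F y) - ∫ x in G i, f x ∂M.μ| ≤ L * δ * κ + 600 * L * h ^ 2 := by
    intro i
    have hsub := H.sub i
    obtain ⟨m1, -, m2⟩ := hARG M (A i) (G i) (H.meas i) (fun x hx => (hsub hx).1) (H.inj i)
    obtain ⟨m3, m4⟩ := m2 F hFc.measurable
    have k1 : |(∫ y, F y) - ∫ y in prA (A i) '' G i, F y| ≤ L * δ * κ := by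
      refine off hFi m1 (S := univ) (ae_of_all _ fun _ => mem_univ _) hF0
        (by positivity) hκ (fun y _ hy hy' => ?_) ?_
      · have c1 := H.coverd i y (by rwa [hp0]) hy'
        rw [hp0, sub_zero, mul_one] at c1
        rw [mem_ball_zero_iff] at hy
        have c2 : |y.re| ≤ 1 := (Complex.abs_re_le_norm y).trans hy.le
        exact (abs_le hb (sq_nonneg _) _).trans (mul_le_mul_of_nonneg_left (sq_le c1 c2) hL)
      · have c1 := H.cover i
        rwa [hp0, one_pow, mul_one] at c1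
    have hle : M.μ (G i) ≤ ENNReal.ofReal (2 * π * (5 * 1) ^ 2) :=
      (measure_mono fun x hx => (hsub hx).2).trans (hM.bd 0 _ (by norm_num))
    have k2 : ‖∫ x in G i, (f x - F (prA (A i) x) * |⟪M.N x, A i e3⟫|) ∂M.μ‖
        ≤ 3 * L * h ^ 2 * M.μ.real (G i) := by
      refine norm_setIntegral_le_of_norm_le_const (hle.trans_lt ENNReal.ofReal_lt_top)
        fun x hx => ?_
      have c1 := H.tilt' i x hx
      have c2 := H.ht i x hx
      rw [dax_zero_e3, mul_one] at c1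
      rw [sub_zero, mul_one] at c2
      exact point hb hl h0 (H.ax i) (M.N_unit x (hsub hx).1) c1 c2
    rw [integral_sub hfi.integrableOn (m3.1 hFi.integrableOn), m4, Real.norm_eq_abs] at k2
    have k3 : M.μ.real (G i) ≤ 200 := by
      refine (ENNReal.toReal_le_of_le_ofReal (by positivity) hle).trans ?_
      linarith [Real.pi_le_four]
    have k4 : 3 * L * h ^ 2 * M.μ.real (G i) ≤ 3 * L * h ^ 2 * 200 :=
      mul_le_mul_of_nonneg_left k3 (by positivity)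
    have k5 := abs_sub_le (∫ y, F y) (∫ y in prA (A i) '' G i, F y) (∫ x in G i, f x ∂M.μ)
    rw [abs_sub_comm] at k2
    linarith
  have k6 : |(∫ x, f x ∂M.μ) - ∫ x in G false ∪ G true, f x ∂M.μ| ≤ L * δ * κ := by
    refine off hfi ((H.meas false).union (H.meas true)) M.ae_mem hf0
      (by positivity) hκ (fun x hxS hx hx' => ?_) ?_
    · have c1 := H.restd x ⟨hxS, hx⟩ (fun h => hx' (Or.inl h)) fun h => hx' (Or.inr h)
      rw [dax_zero_e3, mul_one, ← abs_norm] at c1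
      rw [mem_ball_zero_iff] at hx
      have c2 : |‖pr x‖| ≤ 1 := by
        rw [abs_norm]
        exact (norm_pr_le x).trans hx.le
      exact (abs_le hb (sq_nonneg _) _).trans (mul_le_mul_of_nonneg_left (sq_le c1 c2) hL)
    · have c1 := H.rest
      rwa [one_pow, mul_one] at c1
  rw [setIntegral_union H.disj (H.meas true) hfi.integrableOn hfi.integrableOn] at k6
  have k7 := _root_.abs_le.1 (key false)
  have k8 := _root_.abs_le.1 (key true)
  have k9 := _root_.abs_le.1 k6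
  have k10 : 0 ≤ L * δ * κ := by positivity
  have e : 1200 * L * (h ^ 2 + κ * δ) = 1200 * (L * h ^ 2) + 1200 * (L * δ * κ) := by ring
  rw [e, _root_.abs_le]
  constructor <;> linarith [k7.1, k7.2, k8.1, k8.2, k9.1, k9.2]

end MW.CI
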