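import Pool.Agent.P.MP_064970_gt.SC

/-! Case I, row DLG: the sheets of level `t^8 r` when the excess is `t^12 r`. -/

open MeasureTheory Set Filter Topology Metric
open scoped RealInnerProductSpace ENNReal ComplexConjugate Real

noncomputable section

namespace MW.CI

namespace DLG

theorem rt {u w : ℝ} (hu : 0 ≤ u) (h : u * w ^ 4 ≤ 1) : u ^ (1 / 4 : ℝ) * w ≤ 1 := by
  have h1 : (u ^ (1 / 4 : ℝ)) ^ 4 = u := by
    rw [← Real.rpow_natCast, ← Real.rpow_mul hu]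
    norm_num
  refine le_of_pow_le_pow_left₀ (n := 4) (by norm_num) zero_le_one ?_
  rw [mul_pow, h1, one_pow]
  exact h

/-- The statement of the pointwise bounds with fixed constants. -/
def PWs (β η Λ C : ℝ) : Prop :=
  ∀ (M : Surf) (ν : Bool → E) (b R r m : ℝ) (c : E) (P : Pl), M.Mem →
    IsRef β ν → Core M ν η b R c r → P.Close ν η → Exc M β ν P c r m → b ≤ m → Λ * m ≤ r →
    (∀ i, |P.f i c| ≤ hh C m r) ∧
    ∀ i, ∀ x ∈ M.S ∩ typ M β ν i, Λ * m ≤ ‖x - c‖ → ‖x - c‖ ≤ r / 2 →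
      |x 2 - c 2| ≤ ‖x - c‖ / 2 → wedge (M.N x) (P.n i) ≤ C * m / ‖x - c‖ ∧
        |P.f i x| ≤ C * m * (r / ‖x - c‖) ^ (1 / 4 : ℝ)

variable {M : Surf} {β η Λ C b R r t : ℝ} {ν : Bool → E} {p c : E} {P : Pl}

theorem pow_le {t : ℝ} (h0 : 0 < t) (h1 : t ≤ 1) {n k : ℕ} (h : k ≤ n) : t ^ n ≤ t ^ k :=
  pow_le_pow_of_le_one h0.le h1 h

/-- The pointwise bounds at a centre near `p`. -/
theorem centre (hMONO : S_MONO) (H : PWs β η Λ C) (hΛ : 1 ≤ Λ) (hC : 1 ≤ C) (hM : M.Mem)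
    (hν : IsRef β ν) (hη0 : 0 < η) (hη : η ≤ β / 4) (hr : 0 < r) (ht : 0 < t)
    (ht1 : 8 * Λ * t ≤ β) (hc : Core M ν η b R p r) (hP : P.Close ν η)
    (hE : Exc M β ν P p r (t ^ 12 * r)) (hb : b ≤ t ^ 12 * r) (h1 : Ctr M ν η c b R)
    (h2 : ‖c - p‖ ≤ r / 8) :
    (∀ i, |P.f i c| ≤ 4 * C * t ^ 9 * r) ∧
    ∀ i, ∀ x ∈ M.S ∩ typ M β ν i, t ^ 8 * r ≤ ‖x - c‖ → ‖x - c‖ ≤ r / 4 →
      |x 2 - c 2| ≤ ‖x - c‖ / 2 →
      ‖x - c‖ * wedge (M.N x) (P.n i) ≤ 4 * C * t ^ 12 * r ∧ |P.f i x| ≤ 4 * C * t ^ 10 * r := by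
  have hβ1 := hν.le_one
  have hΛt : 8 * (Λ * t) ≤ 1 := by linarith
  have htΛ : t ≤ Λ * t := by nlinarith
  have ht1' : t ≤ 1 := by linarith
  have p12 : t ^ 12 ≤ t := by simpa using pow_le ht ht1' (show 1 ≤ 12 by norm_num)
  have p4 : t ^ 4 ≤ t := by simpa using pow_le ht ht1' (show 1 ≤ 4 by norm_num)
  have q12 : 0 < t ^ 12 := by positivity
  have q8 : 0 < t ^ 8 * r := by positivity
  have hR := hc.le
  have hh2 : |c 2 - p 2| ≤ ‖c - p‖ := abs_two_le (c - p)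
  have hcore : Core M ν η b R c (r / 2) := by
    refine hc.move hMONO hM hν hη0.le hη h1 (by linarith) (by linarith) ?_
    have : t ^ 12 * r ≤ t * r := by gcongr
    nlinarith
  have hexc : Exc M β ν P c (r / 2) (2 ^ 2 * (t ^ 12 * r)) := by
    refine hE.sub hM hr (by positivity) (ball_subset_ball' ?_) (by norm_num) (by linarith)
    rw [dist_eq_norm]
    linarith
  have hm : 0 < t ^ 12 * r := by positivity
  have a1 : Λ * t ^ 12 ≤ Λ * t := by gcongr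
  have a2 : Λ * t ^ 4 ≤ Λ * t := by gcongr
  obtain ⟨A1, A2⟩ := H M ν b R (r / 2) _ c P hM hν hcore hP hexc (by linarith) (by nlinarith)
  constructor
  · intro i
    refine (A1 i).trans ?_
    have e1 : (r / 2 / (2 ^ 2 * (t ^ 12 * r))) ^ (1 / 4 : ℝ) * t ^ 3 ≤ 1 := by
      refine rt (by positivity) (le_of_eq_of_le (b := 1 / 8) ?_ (by norm_num))
      field_simp
      norm_num
    calc hh C (2 ^ 2 * (t ^ 12 * r)) (r / 2)
        = 4 * C * t ^ 9 * r * ((r / 2 / (2 ^ 2 * (t ^ 12 * r))) ^ (1 / 4 : ℝ) * t ^ 3) := by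
          unfold hh
          ring
      _ ≤ 4 * C * t ^ 9 * r * 1 := by gcongr
      _ = _ := mul_one _
  · intro i x hx s1 s2 s3
    have hs : 0 < ‖x - c‖ := q8.trans_le s1
    have s0 : Λ * (2 ^ 2 * (t ^ 12 * r)) ≤ ‖x - c‖ := by
      refine le_trans ?_ s1
      calc Λ * (2 ^ 2 * (t ^ 12 * r)) = 4 * (Λ * t ^ 4) * (t ^ 8 * r) := by ring
        _ ≤ 1 * (t ^ 8 * r) := by gcongr; linarith
        _ = _ := one_mul _
    obtain ⟨B1, B2⟩ := A2 i x hx s0 (by linarith) s3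
    constructor
    · rw [le_div_iff₀ hs] at B1
      linarith
    · refine B2.trans ?_
      have e1 : (r / 2 / ‖x - c‖) ^ (1 / 4 : ℝ) * t ^ 2 ≤ 1 := by
        refine rt (by positivity) ?_
        rw [div_mul_eq_mul_div, div_le_one hs]
        nlinarith
      calc C * (2 ^ 2 * (t ^ 12 * r)) * (r / 2 / ‖x - c‖) ^ (1 / 4 : ℝ)
          = 4 * C * t ^ 10 * r * ((r / 2 / ‖x - c‖) ^ (1 / 4 : ℝ) * t ^ 2) := by ring
        _ ≤ 4 * C * t ^ 10 * r * 1 := by gcongr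
        _ = _ := mul_one _

/-- Injectivity of the projection on a sheet with small slope. -/
theorem inj {A : E ≃ₗᵢ[ℝ] E} {n : E} {σ : ℝ} {G : Set E} (hn : ‖A e3 - n‖ ≤ σ) (hσ : σ < 1 / 2)
    (hs : ∀ x ∈ G, ∀ y ∈ G, |⟪x - y, n⟫| ≤ σ * ‖x - y‖) : InjOn (prA A) G := by
  intro x hx y hy he
  have h1 := norm_sq_prA A (x - y)
  rw [prA_sub, he, sub_self, norm_zero] at h1
  have h2 : ‖x - y‖ = |⟪x - y, A e3⟫| := by
    refine (sq_eq_sq₀ (norm_nonneg _) (abs_nonneg _)).1 ?_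
    rw [sq_abs, h1]
    ring
  have h3 := abs_inner_sub_le (x - y) (A e3) n
  have h4 := hs x hx y hy
  have h5 := abs_sub_abs_le_abs_sub ⟪x - y, A e3⟫ ⟪x - y, n⟫
  have h6 : ‖x - y‖ * ‖A e3 - n‖ ≤ ‖x - y‖ * σ := by gcongr
  have h7 : ‖x - y‖ ≤ 0 := by nlinarith [norm_nonneg (x - y)]
  exact sub_eq_zero.1 (norm_le_zero_iff.1 h7)

/-- The axis and the base point. -/
theorem axis (hν : IsRef β ν) (hP : P.Close ν η) (hη : η ≤ β / 4) (p : E) :
    ∃ (o e : E) (A : Bool → E ≃ₗᵢ[ℝ] E), ‖e‖ = 1 ∧ (∀ i, A i e3 = P.n i) ∧ (∀ i, A i ey = e) ∧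
      (∀ i x, ⟪x - o, P.n i⟫ = P.f i x) ∧
      ‖o - p‖ ≤ 4 / β * (|P.f false p| + |P.f true p|) ∧
      ∀ x, dax o e x ≤ 4 / β * (|P.f false x| + |P.f true x|) := by
  have hβ := hν.pos
  have hang := hν.ang_near hP.unit fun i => (hP.close i).trans hη
  obtain ⟨e, he, e1, e2⟩ := exists_axis (P.n false) (P.n true)
  have hne : ∀ i, ⟪P.n i, e⟫ = 0 := fun i => by cases i <;> assumption
  choose A hA1 hA2 using fun i => exists_frame (hP.unit i) he (hne i)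
  obtain ⟨v, v1, v2, v3⟩ := exists_solve (half_pos hβ) (hP.unit false) (hP.unit true) hang
    (-P.f false p) (-P.f true p)
  have hv : ∀ i, ⟪v, P.n i⟫ = -P.f i p := fun i => by cases i <;> assumption
  have e3 : 2 / (β / 2) = 4 / β := by
    field_simp
    norm_num
  have hf : ∀ i x, ⟪x - (p + v), P.n i⟫ = P.f i x := fun i x => by
    rw [← sub_sub, inner_sub_left, hv, ← P.f_sub]
    ring
  refine ⟨p + v, e, A, he, hA1, hA2, hf, ?_, fun x => ?_⟩
  · rw [add_sub_cancel_left, ← e3]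
    simpa only [abs_neg] using v3
  · have h1 := dax_le (half_pos hβ) (hP.unit false) (hP.unit true) he e1 e2 hang (p + v) x
    rwa [hf, hf, e3] at h1

/-- The arithmetic of the constants. -/
theorem consts {k : ℝ} (hβ : 0 < β) (hβ1 : β ≤ 1) (hΛ : 1 ≤ Λ) (hC : 1 ≤ C) (ht : 0 < t)
    (ht0 : t ≤ β / (32000 * C * Λ)) (hη0 : 0 < η) (hη2 : η ≤ β ^ 2 / 1000) (hkβ : k * β = 1)
    (hk1 : 1 ≤ k) (hr : 0 < r) :
    8 * Λ * t ≤ β ∧ t ≤ 1 ∧ 32000 * (k * C * t) ≤ 1 ∧ 1000 * (t ^ 8 * r) ≤ β * (r / 16) ∧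
      η ≤ β / 1000 ∧ 20 * η * k ≤ β / 50 ∧ η ≤ 20 * η * k ∧ C ≤ C * k ^ 2 ∧ k ^ 2 ≤ C * k ^ 2 ∧
      k * C ≤ C * k ^ 2 ∧ k ≤ C * k ^ 2 := by
  have hCΛ : 1 ≤ C * Λ := one_le_mul_of_one_le_of_one_le hC hΛ
  have t1 : 32000 * (C * Λ * t) ≤ β := by
    rw [le_div_iff₀ (by positivity)] at ht0
    linarith
  have t2 : t ≤ C * Λ * t := le_mul_of_one_le_left ht.le hCΛ
  have t3 : Λ * t ≤ C * Λ * t := by
    rw [mul_assoc]
    exact le_mul_of_one_le_left (by positivity) hC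
  have t4 : C * t ≤ C * Λ * t := by
    rw [mul_right_comm]
    exact le_mul_of_one_le_right (by positivity) hΛ
  have t5 : t ≤ 1 := by linarith
  have t0 : 0 < Λ * t := by positivity
  have p8 : t ^ 8 ≤ t := by simpa using pow_le ht t5 (show 1 ≤ 8 by norm_num)
  have hk2 : k ≤ k ^ 2 := by nlinarith
  have hk3 : k ^ 2 ≤ C * k ^ 2 := le_mul_of_one_le_left (by positivity) hC
  refine ⟨by linarith, t5, ?_, ?_, by nlinarith, ?_, by nlinarith, ?_, hk3, ?_, by linarith⟩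
  · have : k * (32000 * (C * t)) ≤ k * β := by gcongr; linarith
    linarith
  · have : 16000 * t ^ 8 * r ≤ β * r := by gcongr; linarith
    linarith
  · have h1 : η * k ≤ β ^ 2 / 1000 * k := by gcongr
    have h2 : β ^ 2 * k = β := by
      rw [sq, mul_assoc, mul_comm β k, hkβ, mul_one]
    linarith
  · exact le_mul_of_one_le_right (by linarith) (by linarith)
  · rw [mul_comm k C]
    gcongr

end DLG

open DLG in
theorem c_dlg_of (hMONO : S_MONO) (hSTRUCT : C_STRUCT) (hPW : C_PW) : C_DLG := by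
  intro β hβ
  obtain ⟨η₁, hη₁, H⟩ := hPW β hβ
  refine ⟨min η₁ (β ^ 2 / 1000), lt_min hη₁ (by positivity), fun η hη0 hη => ?_⟩
  obtain ⟨Λ, C, hΛ, hC, H⟩ := H η hη0 (hη.trans (min_le_left _ _))
  have hη2 : η ≤ β ^ 2 / 1000 := hη.trans (min_le_right _ _)
  refine ⟨β / (32000 * C * Λ), 20000000 * C * (1 / β) ^ 2, by positivity, by positivity, ?_⟩
  intro M ν b R r t p P hM hν hr ht ht0 hc hP hE hb
  have hβ1 := hν.le_one
  obtain ⟨k, hk⟩ : ∃ k, k = 1 / β := ⟨_, rfl⟩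
  rw [← hk]
  have hkβ : k * β = 1 := by rw [hk]; field_simp
  have hk1 : 1 ≤ k := by rw [hk, le_div_iff₀ hβ]; linarith
  have d4 : 4 / β = 4 * k := by rw [hk]; ring
  have d100 : 100 / β = 100 * k := by rw [hk]; ring
  have d2 : 200000 / β ^ 2 = 200000 * k ^ 2 := by rw [hk]; ring
  have d20 : 20 * η / β = 20 * η * k := by rw [hk]; ring
  obtain ⟨t3, t5, t6, t7, hηβ, hσ, hησ, hCk, hkC, hkC', hkC''⟩ :=
    consts hβ hβ1 hΛ hC ht ht0 hη0 hη2 hkβ hk1 hr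
  have p81 : t ^ 8 ≤ 1 := pow_le_one₀ ht.le t5
  have p128 : t ^ 12 * r ≤ t ^ 8 * r :=
    mul_le_mul_of_nonneg_right (pow_le ht t5 (by norm_num)) hr.le
  have p1210 : t ^ 12 ≤ t ^ 10 := pow_le ht t5 (by norm_num)
  have q8 : 0 < t ^ 8 * r := by positivity
  have hC0 : 0 < C := by linarith
  have hk0 : 0 < k := by linarith
  have cen := fun c h1 h2 => centre (c := c) hMONO H hΛ hC hM hν hη0 (by linarith) hr ht
    t3 hc hP hE hb h1 h2
  obtain ⟨o, e, A, he, hA1, hA2, hf, hop, hdax⟩ := axis hν hP (by linarith) p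
  rw [d4] at hop hdax
  have hcd : ∀ c, Ctr M ν η c b R → ‖c - p‖ ≤ r / 8 →
      4 * k * (|P.f false c| + |P.f true c|) ≤ 32 * (k * C) * t ^ 9 * r := fun c h1 h2 => by
    have a1 := (cen c h1 h2).1 false
    have a2 := (cen c h1 h2).1 true
    calc 4 * k * (|P.f false c| + |P.f true c|)
        ≤ 4 * k * (4 * C * t ^ 9 * r + 4 * C * t ^ 9 * r) := by gcongr
      _ = _ := by ring
  have hD : 32 * (k * C) * t ^ 9 * r ≤ t ^ 8 * r / 1000 := by
    calc 32 * (k * C) * t ^ 9 * r = 32 * (k * C * t) * (t ^ 8 * r) := by ring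
      _ ≤ 1 / 1000 * (t ^ 8 * r) := by gcongr; linarith
      _ = _ := by ring
  have h8r : t ^ 8 * r ≤ r := mul_le_of_le_one_left hr.le p81
  have hop' : ‖o - p‖ ≤ r / 1000 := by
    have := hcd p hc.self (by rw [sub_self, norm_zero]; positivity)
    linarith
  have hdc : ∀ c, Ctr M ν η c b R → ‖c - p‖ ≤ r / 8 → dax o e c ≤ t ^ 8 * r / 1000 :=
    fun c h1 h2 => ((hdax c).trans (hcd c h1 h2)).trans hD
  obtain ⟨G, hS, hL⟩ := hSTRUCT M β η b R (t ^ 8 * r) (r / 16) ν p hM hν hη0 hη2 (hb.trans p128)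
    t7 (hc.mono hMONO hM le_rfl (by linarith))
  rw [d20, d2] at hS
  rw [d20, d100] at hL
  have hGS : ∀ i, G i ⊆ M.S := fun i => by
    obtain ⟨U, -, hU⟩ := hS.opn i
    rw [hU]
    exact inter_subset_left
  have hAν : ∀ i, ‖A i e3 - ν i‖ ≤ 20 * η * k := fun i => by
    rw [hA1]
    exact (hP.close i).trans hησ
  have hL8 : t ^ 8 * r ≤ k * (t ^ 8 * r) := le_mul_of_one_le_left q8.le hk1
  have pt : ∀ i, ∀ x ∈ G i, ∃ s, t ^ 8 * r ≤ s ∧ dax o e x ≤ 2 * s ∧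
      s * wedge (M.N x) (P.n i) ≤ 4 * C * t ^ 12 * r ∧ |P.f i x| ≤ 4 * C * t ^ 10 * r := by
    intro i x hx
    obtain ⟨c, ⟨c1, c2⟩, c3, c4⟩ := hL.far i x hx
    have c5 : ‖c - p‖ ≤ r / 8 := by linarith
    have c6 : ‖x - p‖ < r / 16 := mem_ball_iff_norm.1 (hS.sub i hx)
    have c7 : ‖x - c‖ ≤ ‖x - p‖ + ‖c - p‖ := by
      simpa using norm_sub_le (x - p) (c - p)
    have c8 : x ∈ typ M β ν i := (hS.nrm i x hx).trans_lt (by linarith)
    have c9 := (cen c c1 c5).2 i x ⟨hGS i hx, c8⟩ (by linarith) (by linarith) (by linarith)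
    have c10 := dax_le_add he o x c
    have c11 := hdc c c1 c5
    exact ⟨‖x - c‖, by linarith, by linarith, c9⟩
  have hδ : 100 * k * (t ^ 8 * r) + t ^ 8 * r / 1000 ≤
      20000000 * C * k ^ 2 * t ^ 8 * (r / 40) := by
    calc 100 * k * (t ^ 8 * r) + t ^ 8 * r / 1000 = (100 * k + 1 / 1000) * (t ^ 8 * r) := by ring
      _ ≤ (500000 * (C * k ^ 2)) * (t ^ 8 * r) := by gcongr; linarith
      _ = _ := by ring
  have hκ : ENNReal.ofReal (200000 * k ^ 2 * (t ^ 8 * r) * (r / 16)) ≤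
      ENNReal.ofReal (20000000 * C * k ^ 2 * t ^ 8 * (r / 40) ^ 2) := by
    refine ENNReal.ofReal_le_ofReal ?_
    calc 200000 * k ^ 2 * (t ^ 8 * r) * (r / 16) = 12500 * k ^ 2 * (t ^ 8 * r * r) := by ring
      _ ≤ 12500 * (C * k ^ 2) * (t ^ 8 * r * r) := by gcongr
      _ = _ := by ring
  have hh10 : 8 * C * t ^ 10 * r ≤ 20000000 * C * k ^ 2 * t ^ 10 * (r / 40) := by
    calc 8 * C * t ^ 10 * r = 8 * C * (t ^ 10 * r) := by ring
      _ ≤ (500000 * (C * k ^ 2)) * (t ^ 10 * r) := by gcongr; linarith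
      _ = _ := by ring
  have hb1 : ball o (r / 40) ⊆ ball p (r / 16) := by
    refine ball_subset_ball' ?_
    rw [dist_eq_norm]
    linarith
  have hb2 : ∀ i, ball (prA (A i) o) (r / 40) ⊆ ball (prA (A i) p) (r / 16 / 2) := fun i => by
    refine ball_subset_ball' ?_
    rw [dist_eq_norm]
    have := norm_prA_sub_le (A i) o p
    linarith
  refine ⟨o, e, A, G, ⟨hA2, fun i => ?_, fun i x hx => ⟨hGS i hx, ?_⟩, ?_,
    fun i => inj (hAν i) (by linarith) (hS.slope i), fun i x hx => ?_, fun i x hx => ?_,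
    fun i x hx => ?_, ?_, fun x hx h1 h2 => ?_, fun i => ?_, fun i y hy h1 => ?_, by positivity,
    by positivity, by positivity, by positivity⟩, fun c h1 h2 => ⟨?_, ?_⟩⟩
  · obtain ⟨U, hU, hG⟩ := hS.opn i
    rw [hG]
    exact M.measurableSet_S.inter hU.measurableSet
  · have c6 : ‖x - p‖ < r / 16 := mem_ball_iff_norm.1 (hS.sub i hx)
    have c7 : ‖x - o‖ ≤ ‖x - p‖ + ‖o - p‖ := by
      simpa using norm_sub_le (x - p) (o - p)
    rw [mem_ball_iff_norm]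
    linarith
  · refine disjoint_left.2 fun x h1 h2 => ?_
    have := hν.not_both (i := false) (M.N_unit x (hGS _ h1)) (hS.nrm _ x h1) (hS.nrm _ x h2)
    linarith
  · obtain ⟨s, s1, -, s3, -⟩ := pt i x hx
    rw [hA1]
    have w0 := wedge_nonneg (M.N x) (P.n i)
    have s4 : t ^ 8 * r * wedge (M.N x) (P.n i) ≤ t ^ 8 * r * (4 * C * t ^ 4) := by
      calc t ^ 8 * r * wedge (M.N x) (P.n i) ≤ s * wedge (M.N x) (P.n i) := by gcongr
        _ ≤ _ := s3
        _ = _ := by ring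
    refine (le_of_mul_le_mul_left s4 q8).trans ?_
    calc 4 * C * t ^ 4 ≤ 20000000 * (C * k ^ 2) * t ^ 4 := by gcongr; norm_num
      _ = _ := by ring
  · obtain ⟨s, -, s2, s3, -⟩ := pt i x hx
    rw [hA1]
    have w0 := wedge_nonneg (M.N x) (P.n i)
    refine le_trans ?_ hh10
    calc dax o e x * wedge (M.N x) (P.n i) ≤ 2 * s * wedge (M.N x) (P.n i) := by gcongr
      _ ≤ 8 * C * t ^ 12 * r := by linarith
      _ ≤ 8 * C * t ^ 10 * r := by gcongr
  · obtain ⟨s, -, -, -, s4⟩ := pt i x hx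
    rw [hA1, hf]
    have : 0 ≤ C * t ^ 10 * r := by positivity
    linarith
  · exact ((measure_mono (sdiff_subset_sdiff_left hb1)).trans hS.rest).trans hκ
  · obtain ⟨c, ⟨c1, c2⟩, c3⟩ := hL.rest x ⟨hx.1, hb1 hx.2⟩ h1 h2
    have c10 := dax_le_add he o x c
    have c11 := hdc c c1 (by linarith)
    linarith
  · exact ((measure_mono (sdiff_subset_sdiff_left (hb2 i))).trans
      (hS.cover i (A i) (hAν i))).trans hκ
  · obtain ⟨c, ⟨c1, c2⟩, c3⟩ := hL.unc i (A i) (hAν i) y (hb2 i hy) h1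
    have c11 := hdc c c1 (by linarith)
    have c4 : |(y - prA (A i) c).re| ≤ ‖y - prA (A i) c‖ := Complex.abs_re_le_norm _
    have c5 : |(prA (A i) c - prA (A i) o).re| ≤ dax o e c := by
      rw [← prA_sub, prA_re]
      refine abs_inner_le_dax (by rw [(A i).norm_map, norm_ex]) ?_ o c
      rw [← hA2 i, (A i).inner_map_map]
      exact inner_frame.1
    have c6 : (y - prA (A i) o).re = (y - prA (A i) c).re + (prA (A i) c - prA (A i) o).re := by
      rw [← Complex.add_re, sub_add_sub_cancel]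
    have c7 := abs_add_le (y - prA (A i) c).re (prA (A i) c - prA (A i) o).re
    rw [c6]
    linarith
  · refine ((hdax c).trans (hcd c h1 (by linarith))).trans ?_
    calc 32 * (k * C) * t ^ 9 * r = 32 * (k * C) * (t ^ 9 * r) := by ring
      _ ≤ (500000 * (C * k ^ 2)) * (t ^ 9 * r) := by gcongr; norm_num
      _ = _ := by ring
  · have c1 : |⟪c - o, e⟫| ≤ ‖c - o‖ := by
      have := abs_real_inner_le_norm (c - o) e
      rwa [he, mul_one] at this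
    have c7 : ‖c - o‖ ≤ ‖c - p‖ + ‖o - p‖ := by
      simpa using norm_sub_le (c - p) (o - p)
    linarith

end MW.CI
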