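import Pool.Agent.P.MP_064970_gt.SC

/-! Case I, row DLI. Sketch:
u y = g (qy y) is C^1 with compact support; fderiv u y I = gt (qy y); fderiv (re * u) y 1 = g + 2
re^2 gq. The integral of a directional derivative of a compactly supported C^1 function vanishes
(integral_mul_fderiv_eq_neg_fderiv_mul_of_integrable with the constant 1, or
LipschitzWith.integral_lineDeriv_mul_eq). -/

open MeasureTheory Set Filter Topology Metric
open scoped RealInnerProductSpace ENNReal ComplexConjugate Real

noncomputable section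

namespace MW.CI

namespace DLI

/-- The integral of a directional derivative vanishes. -/
theorem int_zero {u d : ℂ → ℝ} {D : ℂ → ℂ →L[ℝ] ℝ} (v : ℂ) (hu : ∀ y, HasFDerivAt u (D y) y)
    (hd : ∀ y, D y v = d y) (hi : Integrable u) (hi' : Integrable d) : ∫ y, d y = 0 := by
  have h := integral_bilinear_hasFDerivAt_right_eq_neg_left_of_integrable (μ := volume)
    (f := fun _ : ℂ => (1 : ℝ)) (f' := fun _ => 0) (g := u) (g' := D) (v := v)
    (B := ContinuousLinearMap.mul ℝ ℝ) (by simp) (by simpa [hd] using hi') (by simpa using hi)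
    (fun x _ => hasFDerivAt_const _ _) fun x _ => hu x
  simpa [hd] using h

theorem integrable {φ : ℂ → ℝ} (hc : Continuous φ)
    (h0 : ∀ y : ℂ, 3 / 4 ≤ y.re ^ 2 + y.im ^ 2 → φ y = 0) : Integrable φ := by
  refine hc.integrable_of_hasCompactSupport
    (HasCompactSupport.intro (isCompact_closedBall (0 : ℂ) 1) fun y hy => h0 y ?_)
  rw [mem_closedBall_zero_iff, not_le] at hy
  have h1 : ‖y‖ ^ 2 = y.re ^ 2 + y.im ^ 2 := by
    rw [Complex.sq_norm, Complex.normSq_apply]; ring
  nlinarith

theorem continuous_qy : Continuous qy := by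
  unfold qy; fun_prop

theorem hasFDerivAt_qy (y : ℂ) :
    HasFDerivAt qy (((2 * y.re) • Complex.reCLM).prod Complex.imCLM) y := by
  have h1 : HasFDerivAt (fun z : ℂ => z.re ^ 2) ((2 * y.re) • Complex.reCLM) y := by
    have h := (Complex.reCLM.hasFDerivAt (x := y)).pow 2
    simpa using h
  exact h1.prodMk Complex.imCLM.hasFDerivAt

end DLI

theorem c_dli_of : C_DLI := by
  intro g gq gt L h
  have hg : Continuous g := continuous_iff_continuousAt.2 fun z => (h.der z).continuousAt
  have hq := DLI.continuous_qy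
  have hs : ∀ y : ℂ, 3 / 4 ≤ y.re ^ 2 + y.im ^ 2 → g (qy y) = 0 ∧ gq (qy y) = 0 ∧ gt (qy y) = 0 :=
    fun y hy => h.supp (qy y) (sq_nonneg _) hy
  have hu : ∀ y : ℂ, HasFDerivAt (fun z => g (qy z)) _ y := fun y =>
    (h.der (qy y)).comp y (DLI.hasFDerivAt_qy y)
  refine ⟨DLI.int_zero Complex.I hu (fun y => by simp)
    (DLI.integrable (hg.comp hq) fun y hy => (hs y hy).1)
    (DLI.integrable (h.ct.comp hq) fun y hy => (hs y hy).2.2), ?_⟩
  refine DLI.int_zero (u := fun z => z.re * g (qy z)) 1
    (fun y => (Complex.reCLM.hasFDerivAt (x := y)).mul (hu y)) (fun y => ?_)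
    (DLI.integrable (Complex.continuous_re.mul (hg.comp hq)) fun y hy => ?_)
    (DLI.integrable ((hg.comp hq).add
      ((continuous_const.mul (Complex.continuous_re.pow 2)).mul (h.cq.comp hq))) fun y hy => ?_)
  · simp
    ring
  · simp [(hs y hy).1]
  · simp [(hs y hy).1, (hs y hy).2.1]

end MW.CI
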