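import Pool.Agent.P.MP_064970_gt.SC

/-! Case I, row DLN. Sketch:
The expression equals -2 (2 int re^2 gq - int q gq dmu) - (int (g + 2 q gq) dmu + int g N2^2),
using the second identity of DLI; only integrability (continuous, bounded support)
and linearity are needed. L >= 0 from Tf.bd. -/

open MeasureTheory Set Filter Topology Metric
open scoped RealInnerProductSpace ENNReal ComplexConjugate Real

noncomputable section

namespace MW.CI

namespace DLN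

theorem continuous_qt : Continuous qt := by
  unfold qt
  fun_prop

theorem continuous_qy : Continuous qy := by
  unfold qy
  fun_prop

/-- A continuous function of `(q, t)` that vanishes for `q + t² ≥ 3/4` is integrable on `M`. -/
theorem integrable_qt {M : Surf} (hM : M.Mem) {φ : ℝ × ℝ → ℝ} (hφ : Continuous φ)
    (h0 : ∀ z : ℝ × ℝ, 0 ≤ z.1 → 3 / 4 ≤ z.1 + z.2 ^ 2 → φ z = 0) :
    Integrable (fun x => φ (qt x)) M.μ := by
  have := hM.bd.isFiniteMeasureOnCompacts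
  refine (hφ.comp continuous_qt).integrable_of_hasCompactSupport ?_
  refine HasCompactSupport.intro (isCompact_closedBall (0 : E) 1) fun x hx => ?_
  have h1 : 1 < ‖x‖ := by simpa using hx
  have h2 := norm_sq_eq x
  refine h0 (qt x) (sq_nonneg _) ?_
  show 3 / 4 ≤ ‖pr x‖ ^ 2 + x 2 ^ 2
  nlinarith

/-- The same on the plane. -/
theorem integrable_qy {φ : ℝ × ℝ → ℝ} (hφ : Continuous φ)
    (h0 : ∀ z : ℝ × ℝ, 0 ≤ z.1 → 3 / 4 ≤ z.1 + z.2 ^ 2 → φ z = 0) :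
    Integrable (fun y : ℂ => φ (qy y)) := by
  refine (hφ.comp continuous_qy).integrable_of_hasCompactSupport ?_
  refine HasCompactSupport.intro (isCompact_closedBall (0 : ℂ) 1) fun y hy => ?_
  have h1 : 1 < ‖y‖ := by simpa using hy
  have h2 : ‖y‖ ^ 2 = y.re ^ 2 + y.im ^ 2 := by
    rw [Complex.sq_norm, Complex.normSq_apply]
    ring
  refine h0 (qy y) (sq_nonneg _) ?_
  show 3 / 4 ≤ y.re ^ 2 + y.im ^ 2
  nlinarith

end DLN

theorem c_dln_of (hDLA : C_DLA) (hDLC : C_DLC) (hDLI : C_DLI) : C_DLN := by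
  obtain ⟨CA, hCA, hA⟩ := hDLA
  obtain ⟨CC, hCC, hC⟩ := hDLC
  refine ⟨CA + 2 * CC, by positivity, ?_⟩
  intro M A G τ h κ δ hM hAx g gq gt L hT hL
  have hL0 : 0 ≤ L := (abs_nonneg _).trans (hT.bd (0, 0) le_rfl).1
  have hg : Continuous g :=
    continuous_iff_continuousAt.2 fun z => (hT.der z).continuousAt
  have hg0 : ∀ z : ℝ × ℝ, 0 ≤ z.1 → 3 / 4 ≤ z.1 + z.2 ^ 2 → g z = 0 :=
    fun z h1 h2 => (hT.supp z h1 h2).1
  have hq0 : ∀ z : ℝ × ℝ, 0 ≤ z.1 → 3 / 4 ≤ z.1 + z.2 ^ 2 → gq z = 0 :=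
    fun z h1 h2 => (hT.supp z h1 h2).2.1
  have hp : Continuous fun z : ℝ × ℝ => z.1 * gq z := continuous_fst.mul hT.cq
  have hp0 : ∀ z : ℝ × ℝ, 0 ≤ z.1 → 3 / 4 ≤ z.1 + z.2 ^ 2 → z.1 * gq z = 0 :=
    fun z h1 h2 => by rw [hq0 z h1 h2, mul_zero]
  have h1 := (hA M A G τ h κ δ hM hAx g gq gt L hT).2
  have h2 := hC M A G τ h κ δ hM hAx gq L hT.cq (fun z hz => (hT.bd z hz).2.1) hL hq0
  have h3 := (hDLI g gq gt L hT).2
  have i1 : Integrable (fun x => g (qt x)) M.μ := DLN.integrable_qt hM hg hg0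
  have i2 : Integrable (fun x => ‖pr x‖ ^ 2 * gq (qt x)) M.μ := DLN.integrable_qt hM hp hp0
  have i3 : Integrable (fun y : ℂ => g (qy y)) := DLN.integrable_qy hg hg0
  have i4 : Integrable (fun y : ℂ => y.re ^ 2 * gq (qy y)) := DLN.integrable_qy hp hp0
  have e1 : ∫ x, (g (qt x) + 2 * ‖pr x‖ ^ 2 * gq (qt x)) ∂M.μ =
      (∫ x, g (qt x) ∂M.μ) + 2 * ∫ x, ‖pr x‖ ^ 2 * gq (qt x) ∂M.μ := by
    rw [← integral_const_mul, ← integral_add i1 (i2.const_mul 2)]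
    simp only [mul_assoc]
  have e2 : ∫ y : ℂ, (g (qy y) + 2 * y.re ^ 2 * gq (qy y)) =
      (∫ y : ℂ, g (qy y)) + 2 * ∫ y : ℂ, y.re ^ 2 * gq (qy y) := by
    rw [← integral_const_mul, ← integral_add i3 (i4.const_mul 2)]
    simp only [mul_assoc]
  rw [e1] at h1
  rw [e2] at h3
  have hτ : 0 ≤ τ * h := mul_nonneg hAx.τ0 hAx.h0
  have h4 : CC * L * (h ^ 2 + κ * δ) ≤ CC * L * (τ * h + h ^ 2 + κ * δ) :=
    mul_le_mul_of_nonneg_left (by linarith) (mul_nonneg hCC.le hL0)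
  have e3 : (CA + 2 * CC) * L * (τ * h + h ^ 2 + κ * δ) =
      CA * L * (τ * h + h ^ 2 + κ * δ) + 2 * (CC * L * (τ * h + h ^ 2 + κ * δ)) := by ring
  rw [e3]
  rw [abs_le] at h1 h2 ⊢
  constructor <;> linarith [h1.1, h1.2, h2.1, h2.2]

end MW.CI
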