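import Pool.Agent.P.MP_064970_gt.SC

/-! Case I, row DLS. Sketch:
p = pt 0 (c 2), v = c - p, |v| = |pr c| <= zeta; ball p (r + |v|) lies in ball p (1/2) in ball 0
1. |<N,v>| <= zeta. psi p x = <pr x, pr N> + (x 2 - c 2) N2; on G i it is <= 2h + tau (|N2| <=
tau; |<pr x, pr N>| <= 2h as in the sketch of row DLA); on the rest |psi| <= 1/2, mass kappa. Mass
of the ball <= 2 pi. -/

open MeasureTheory Set Filter Topology Metric
open scoped RealInnerProductSpace ENNReal ComplexConjugate Real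

noncomputable section

namespace MW.CI

namespace DLS

/-- The support function on a sheet. -/
theorem psi_sheet {M : Surf} {A : Bool → E ≃ₗᵢ[ℝ] E} {G : Bool → Set E} {τ h κ δ : ℝ}
    (H : AxG M 0 e3 1 A G τ h κ δ) {i : Bool} {x : E} (hx : x ∈ G i) {t : ℝ}
    (ht : |x 2 - t| ≤ 1) : |M.ψ (pt 0 t) x| ≤ 2 * h + τ := by
  have hN : ‖M.N x‖ = 1 := M.N_unit x (H.sub i hx).1
  set n := A i e3 with hn
  have hn1 : ‖n‖ = 1 := by rw [hn, (A i).norm_map, norm_e3]
  have hne : ⟪n, e3⟫ = 0 := by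
    have h1 : ⟪A i e3, A i ey⟫ = 0 := by
      rw [(A i).inner_map_map, real_inner_comm]; exact inner_frame.2.2.1
    rwa [H.ax i] at h1
  have h1 : |⟪M.N x, e3⟫| ≤ τ := by
    have := abs_inner_le_wedge (a := M.N x) hne
    rw [norm_e3, mul_one] at this
    exact this.trans (H.tilt i x hx)
  have h2 := H.tilt' i x hx
  rw [dax_zero_e3, mul_one] at h2
  have h3 := H.ht i x hx
  rw [sub_zero, mul_one] at h3
  set x' : E := pt (pr x) 0 with hx'
  have e1 : x - pt 0 t = x' + (x 2 - t) • e3 := by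
    rw [hx', pt_add_smul_e3]
    nth_rewrite 1 [← pt_pr x]
    rw [← pt_sub]
    simp
  have e2 : x = x' + (x 2) • e3 := by
    rw [hx', pt_add_smul_e3, zero_add, pt_pr]
  have e3' : ⟪x', n⟫ = ⟪x, n⟫ := by
    have := congrArg (fun w : E => ⟪w, n⟫) e2
    simp only [inner_add_left, real_inner_smul_left, real_inner_comm n e3, hne] at this
    linarith
  have e4 : ⟪x', M.N x⟫ = ⟪M.N x, n⟫ * ⟪x', n⟫ + ⟪x', M.N x - ⟪M.N x, n⟫ • n⟫ := by
    rw [inner_sub_right, real_inner_smul_right]; ring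
  have h4 : |⟪x', M.N x - ⟪M.N x, n⟫ • n⟫| ≤ h := by
    refine (abs_real_inner_le_norm _ _).trans ?_
    rw [hx', norm_pt_zero]
    exact h2
  have h5 : |⟪M.N x, n⟫| ≤ 1 := by simpa [hN, hn1] using abs_real_inner_le_norm (M.N x) n
  have h6 : |⟪M.N x, n⟫ * ⟪x', n⟫| ≤ h := by
    rw [abs_mul, e3']
    calc _ ≤ 1 * h := mul_le_mul h5 h3 (abs_nonneg _) zero_le_one
      _ = h := one_mul h
  have h7 : |(x 2 - t) * ⟪M.N x, e3⟫| ≤ τ := by
    rw [abs_mul]
    calc _ ≤ 1 * τ := mul_le_mul ht h1 (abs_nonneg _) zero_le_one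
      _ = τ := one_mul τ
  unfold Surf.ψ
  rw [e1, inner_add_left, real_inner_smul_left, e4, real_inner_comm (M.N x) e3]
  have a1 := abs_add_le (⟪M.N x, n⟫ * ⟪x', n⟫ + ⟪x', M.N x - ⟪M.N x, n⟫ • n⟫)
    ((x 2 - t) * ⟪M.N x, e3⟫)
  have a2 := abs_add_le (⟪M.N x, n⟫ * ⟪x', n⟫) ⟪x', M.N x - ⟪M.N x, n⟫ • n⟫
  linarith

/-- An integral of a function that is bounded by `a`, and by `a + b` on a small set. -/
theorem int_le {μ : Measure E} {B R : Set E} {F : E → ℝ} {a b m k : ℝ} (hR : MeasurableSet R)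
    (ha : 0 ≤ a) (hb : 0 ≤ b) (hm : 0 ≤ m) (hk : 0 ≤ k) (hB : μ B ≤ ENNReal.ofReal m)
    (hRk : μ R ≤ ENNReal.ofReal k) (h0 : ∀ x, 0 ≤ F x)
    (h1 : ∀ᵐ x ∂μ.restrict B, F x ≤ a + R.indicator (fun _ => b) x) :
    ∫ x in B, F x ∂μ ≤ a * m + b * k := by
  have hfin : IsFiniteMeasure (μ.restrict B) :=
    ⟨by rw [Measure.restrict_apply_univ]; exact hB.trans_lt ENNReal.ofReal_lt_top⟩
  have i1 : Integrable (fun _ : E => a) (μ.restrict B) := integrable_const a
  have i2 : Integrable (R.indicator fun _ : E => b) (μ.restrict B) :=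
    (integrable_const b).indicator hR
  refine (integral_mono_of_nonneg (Eventually.of_forall h0) (i1.add i2) h1).trans ?_
  rw [integral_add' i1 i2, integral_const, integral_indicator hR, setIntegral_const, smul_eq_mul,
    smul_eq_mul]
  have e1 : (μ.restrict B).real univ ≤ m := by
    rw [measureReal_def, Measure.restrict_apply_univ]
    exact ENNReal.toReal_le_of_le_ofReal hm hB
  have e2 : (μ.restrict B).real R ≤ k :=
    ENNReal.toReal_le_of_le_ofReal hk ((Measure.restrict_apply_le B R).trans hRk)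
  nlinarith [mul_le_mul_of_nonneg_left e1 ha, mul_le_mul_of_nonneg_left e2 hb]

end DLS

theorem c_dls_of (hSHIFT : S_SHIFT) : C_DLS := by
  refine ⟨136, by norm_num, fun M A G τ h κ δ ζ r c hM H hc hζ hc2 hr hr4 => ?_⟩
  have hζ0 : 0 ≤ ζ := (norm_nonneg _).trans hc
  have hτ := H.τ0
  have hh := H.h0
  have hκ := H.κ0
  set p : E := pt 0 (c 2) with hp
  set v : E := pt (pr c) 0 with hv
  have hpv : p + v = c := by rw [hp, hv, ← pt_add, zero_add, add_zero, pt_pr]
  have hvn : ‖v‖ ≤ ζ := by rw [hv, norm_pt_zero]; exact hc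
  have hpn : ‖p‖ ≤ 1 / 4 := by
    have := norm_le_pr_add p
    rw [hp] at this ⊢
    simp only [pr_pt, pt_two, norm_zero, zero_add] at this
    exact this.trans hc2
  have hsub : ball p (r + ‖v‖) ⊆ ball 0 1 := fun x hx => by
    rw [mem_ball_iff_norm] at hx
    rw [mem_ball_zero_iff]
    have := norm_add_le (x - p) p
    rw [sub_add_cancel] at this
    linarith
  have key := hSHIFT M hM p v r hr
  rw [hpv] at key
  have hB : M.μ (ball p (r + ‖v‖)) ≤ ENNReal.ofReal 8 := by
    refine ((measure_mono hsub).trans (hM.bd 0 1 one_pos)).trans (ENNReal.ofReal_le_ofReal ?_)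
    linarith [Real.pi_le_four]
  have hRm : MeasurableSet (ball (0 : E) 1 \ (G false ∪ G true)) :=
    measurableSet_ball.diff ((H.meas false).union (H.meas true))
  have hRk := H.rest
  rw [one_pow, mul_one] at hRk
  have hI := DLS.int_le (μ := M.μ) (B := ball p (r + ‖v‖))
    (F := fun x => |⟪M.N x, v⟫| * (|M.ψ p x| + |⟪M.N x, v⟫|)) (a := ζ * (2 * h + τ + ζ)) (b := ζ)
    hRm (by positivity) hζ0 (by norm_num) hκ hB hRk (fun x => by positivity) (by
      filter_upwards [ae_restrict_mem measurableSet_ball, ae_restrict_of_ae M.ae_mem] with x hx hS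
      have hN : ‖M.N x‖ = 1 := M.N_unit x hS
      have h1 : |⟪M.N x, v⟫| ≤ ζ := by
        have := abs_real_inner_le_norm (M.N x) v
        rw [hN, one_mul] at this
        exact this.trans hvn
      have hxp : ‖x - p‖ ≤ 1 := by
        have := mem_ball_iff_norm.1 hx
        linarith
      by_cases hG : x ∈ G false ∪ G true
      · have ht : |x 2 - c 2| ≤ 1 := by
          have := abs_two_le (x - p)
          rw [PiLp.sub_apply, hp, pt_two] at this
          exact this.trans hxp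
        have h2 : |M.ψ p x| ≤ 2 * h + τ := by
          rcases hG with hG | hG
          · exact DLS.psi_sheet H hG ht
          · exact DLS.psi_sheet H hG ht
        rw [indicator_of_notMem (fun hm => hm.2 hG), add_zero]
        exact mul_le_mul h1 (add_le_add h2 h1) (by positivity) hζ0
      · have h2 : |M.ψ p x| ≤ 1 := by
          have := abs_real_inner_le_norm (x - p) (M.N x)
          rw [hN, mul_one] at this
          exact this.trans hxp
        rw [indicator_of_mem (show x ∈ ball (0 : E) 1 \ (G false ∪ G true) from ⟨hsub hx, hG⟩)]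
        have h3 : |⟪M.N x, v⟫| * (|M.ψ p x| + |⟪M.N x, v⟫|) ≤ ζ * (1 + ζ) :=
          mul_le_mul h1 (add_le_add h2 h1) (by positivity) hζ0
        nlinarith [mul_nonneg hζ0 hh, mul_nonneg hζ0 hτ])
  refine key.trans ?_
  have h8 : (0 : ℝ) ≤ 8 / r ^ 4 := by positivity
  have h9 : ζ * (2 * h + τ + ζ) * 8 + ζ * κ ≤ 17 * (ζ * (h + τ + ζ + κ)) := by
    nlinarith [mul_nonneg hζ0 hh, mul_nonneg hζ0 hτ, mul_nonneg hζ0 hκ, mul_nonneg hζ0 hζ0]
  calc _ ≤ 8 / r ^ 4 * (17 * (ζ * (h + τ + ζ + κ))) :=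
        mul_le_mul_of_nonneg_left (hI.trans h9) h8
    _ = _ := by ring

end MW.CI
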