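import Pool.Agent.P.MP_064970_gt.SC

/-! Case I, row DLT. Sketch:
chi q = pi/4 lam(4q), chi' q = -12 max(1-4q,0)^2 (hasDerivAt_lam), for q >= 0: |chi| <= 1, |chi'|
<= 12, chi' is 96-Lipschitz. Gam t = int from -1 to t of gamma, |Gam| <= 2L, Gam t = 0 for |t| >=
1/2. Tf (Gam chi) (Gam chi') (gamma chi) and Tf (gamma chi) (gamma chi') (gamma' chi) with
constant 100 L (gamma' = 0 for |t| > 1/2). With I = int gamma chi dmu, n = the integral of the
statement: DLA gives |I - n| small, DLI gives plane integral 0, DLN gives |0 - I - n| small. -/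

open MeasureTheory Set Filter Topology Metric
open scoped RealInnerProductSpace ENNReal ComplexConjugate Real

noncomputable section

namespace MW.CI

namespace DLT

/-- The radial weight. -/
def chi (q : ℝ) : ℝ := π / 4 * lam (4 * q)

/-- Its derivative. -/
def dchi (q : ℝ) : ℝ := -12 * max (1 - 4 * q) 0 ^ 2

theorem hasDerivAt_chi (q : ℝ) : HasDerivAt chi (dchi q) q := by
  have h := ((hasDerivAt_lam (4 * q)).comp q ((hasDerivAt_id q).const_mul 4)).const_mul (π / 4)
  refine HasDerivAt.congr_deriv (f := chi) h ?_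
  have := Real.pi_pos
  rw [dchi]
  field_simp

theorem continuous_chi : Continuous chi :=
  continuous_iff_continuousAt.2 fun q => (hasDerivAt_chi q).continuousAt

theorem continuous_dchi : Continuous dchi := by
  unfold dchi
  fun_prop

theorem abs_chi_le {q : ℝ} (hq : 0 ≤ q) : |chi q| ≤ 1 := by
  have hπ := Real.pi_pos
  have h1 := lam_le (s := 4 * q) (by linarith)
  have h2 := lam_nonneg (4 * q)
  rw [chi, abs_of_nonneg (by positivity)]
  calc π / 4 * lam (4 * q) ≤ π / 4 * (4 / π) := by gcongr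
    _ = 1 := by field_simp

theorem abs_dchi_le {q : ℝ} (hq : 0 ≤ q) : |dchi q| ≤ 12 := by
  have a0 : 0 ≤ max (1 - 4 * q) 0 := le_max_right _ _
  have a1 : max (1 - 4 * q) 0 ≤ 1 := max_le (by linarith) zero_le_one
  rw [dchi, abs_le]
  constructor <;> nlinarith

theorem chi_eq_zero {q : ℝ} (hq : 1 / 4 ≤ q) : chi q = 0 ∧ dchi q = 0 := by
  rw [chi, dchi, lam_eq_zero (by linarith), max_eq_right (by linarith)]
  simp

theorem dchi_lip {q q' : ℝ} (hq : 0 ≤ q) (hq' : 0 ≤ q') : |dchi q - dchi q'| ≤ 96 * |q - q'| := by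
  set a := max (1 - 4 * q) 0 with ha
  set b := max (1 - 4 * q') 0 with hb
  have a0 : 0 ≤ a := le_max_right _ _
  have b0 : 0 ≤ b := le_max_right _ _
  have a1 : a ≤ 1 := max_le (by linarith) zero_le_one
  have b1 : b ≤ 1 := max_le (by linarith) zero_le_one
  have hab : |a - b| ≤ 4 * |q - q'| := by
    refine (abs_max_sub_max_le_abs _ _ _).trans (le_of_eq ?_)
    rw [show 1 - 4 * q - (1 - 4 * q') = -(4 * (q - q')) by ring, abs_neg, abs_mul]
    norm_num
  have e : dchi q - dchi q' = -(12 * (a + b) * (a - b)) := by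
    rw [dchi, dchi, ← ha, ← hb]
    ring
  rw [e, abs_neg, abs_mul, abs_of_nonneg (by positivity : 0 ≤ 12 * (a + b))]
  have h1 := abs_nonneg (a - b)
  nlinarith

/-- Products of a function of the height with the radial weight are test functions. -/
theorem tf_prod {a a' : ℝ → ℝ} {B L : ℝ} (hd : ∀ t, HasDerivAt a (a' t) t) (hc : Continuous a')
    (hb : ∀ t, |a t| ≤ B ∧ |a' t| ≤ B) (h0 : ∀ t, 1 / 2 < |t| → a t = 0 ∧ a' t = 0)
    (hL : 12 * B ≤ L) :
    Tf (fun z => a z.2 * chi z.1) (fun z => a z.2 * dchi z.1) (fun z => a' z.2 * chi z.1) L := by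
  have hB : 0 ≤ B := (abs_nonneg _).trans (hb 0).1
  have ha : Continuous a := continuous_iff_continuousAt.2 fun t => (hd t).continuousAt
  refine ⟨fun z => ?_, (ha.comp continuous_snd).mul (continuous_dchi.comp continuous_fst),
    (hc.comp continuous_snd).mul (continuous_chi.comp continuous_fst), fun z hz h => ?_,
    fun z hz => ?_⟩
  · have h1 : HasFDerivAt (fun z : ℝ × ℝ => a z.2) (a' z.2 • ContinuousLinearMap.snd ℝ ℝ ℝ) z :=
      (hd z.2).comp_hasFDerivAt z hasFDerivAt_snd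
    have h2 : HasFDerivAt (fun z : ℝ × ℝ => chi z.1)
        (dchi z.1 • ContinuousLinearMap.fst ℝ ℝ ℝ) z :=
      (hasDerivAt_chi z.1).comp_hasFDerivAt z hasFDerivAt_fst
    refine (h1.fun_mul h2).congr_fderiv ?_
    rw [smul_smul, smul_smul, mul_comm (chi z.1)]
  · rcases le_or_gt (1 / 4) z.1 with h1 | h1
    · simp [(chi_eq_zero h1).1, (chi_eq_zero h1).2]
    · have h2 : 1 / 2 < |z.2| := by
        by_contra h3
        have h4 := abs_le.1 (not_lt.1 h3)
        nlinarith
      simp [(h0 _ h2).1, (h0 _ h2).2]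
  · have h1 := abs_chi_le hz
    have h2 := abs_dchi_le hz
    have h3 := hb z.2
    refine ⟨?_, ?_, ?_⟩ <;> rw [abs_mul]
    · exact (mul_le_mul h3.1 h1 (abs_nonneg _) hB).trans (by linarith)
    · exact (mul_le_mul h3.1 h2 (abs_nonneg _) hB).trans (by linarith)
    · exact (mul_le_mul h3.2 h1 (abs_nonneg _) hB).trans (by linarith)

theorem prim_eq_zero {γ : ℝ → ℝ} (h0 : ∀ t, 1 / 2 ≤ |t| → γ t = 0) (hI : ∫ t, γ t = 0) {t : ℝ}
    (ht : 1 / 2 ≤ |t|) : ∫ s in (-1 : ℝ)..t, γ s = 0 := by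
  rcases le_abs'.1 ht with h | h
  · refine intervalIntegral.integral_zero_ae (Eventually.of_forall fun s hs => h0 s ?_)
    have h1 : s ≤ max (-1) t := hs.2
    have h2 : max (-1 : ℝ) t ≤ -(1 / 2) := max_le (by norm_num) h
    exact le_abs'.2 (Or.inl (h1.trans h2))
  · rw [intervalIntegral.integral_eq_integral_of_support_subset, hI]
    intro s hs
    have h1 : |s| < 1 / 2 := not_le.1 fun h2 => hs (h0 s h2)
    have h2 := abs_lt.1 h1
    exact ⟨by linarith, by linarith⟩

end DLT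

open DLT in
theorem c_dlt_of (hDLA : C_DLA) (hDLI : C_DLI) (hDLN : C_DLN) : C_DLT := by
  obtain ⟨C₁, hC₁, hA⟩ := hDLA
  obtain ⟨C₂, hC₂, hN⟩ := hDLN
  refine ⟨48 * (C₁ + C₂), by positivity, fun M A G τ h κ δ hM hG γ γ' L hd hc hb h0 hI => ?_⟩
  have hL : 0 ≤ L := (abs_nonneg _).trans (hb 0).1
  have hγ : Continuous γ := continuous_iff_continuousAt.2 fun t => (hd t).continuousAt
  have T1 := tf_prod (a := fun t => ∫ s in (-1 : ℝ)..t, γ s) (a' := γ) (B := 2 * L) (L := 96 * L)
    (fun t => (hγ.integral_hasStrictDerivAt (-1) t).hasDerivAt) hγ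
    (fun t => ⟨by
      rcases le_or_gt (1 / 2) |t| with ht | ht
      · rw [prim_eq_zero h0 hI ht, abs_zero]
        linarith
      · have h1 := intervalIntegral.norm_integral_le_of_norm_le_const (a := -1) (b := t) (f := γ)
          (C := L) fun s _ => (hb s).1
        have h2 := abs_lt.1 ht
        have h3 : |t - -1| ≤ 2 := abs_le.2 ⟨by linarith, by linarith⟩
        exact h1.trans (by nlinarith), by linarith [(hb t).1]⟩)
    (fun t ht => ⟨prim_eq_zero h0 hI ht.le, h0 t ht.le⟩) (by linarith)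
  have T2 := tf_prod (L := 96 * L) hd hc hb (fun t ht => ⟨h0 t ht.le, by
    have h1 : γ =ᶠ[𝓝 t] fun _ => 0 := by
      filter_upwards [continuous_abs.continuousAt.eventually (lt_mem_nhds ht)] with s hs
      exact h0 s hs.le
    exact (hd t).unique ((hasDerivAt_const t (0 : ℝ)).congr_of_eventuallyEq h1)⟩) (by linarith)
  have hlip : LipQ (fun z => γ z.2 * dchi z.1) (96 * L) := fun q q' t hq hq' => by
    change |γ t * dchi q - γ t * dchi q'| ≤ _
    rw [← mul_sub, abs_mul]
    exact (mul_le_mul (hb t).1 (dchi_lip hq hq') (abs_nonneg _) hL).trans (le_of_eq (by ring))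
  have e1 := (hA M A G τ h κ δ hM hG _ _ _ _ T1).1
  have e2 := (hDLI _ _ _ _ T1).1
  have e3' := hN M A G τ h κ δ hM hG _ _ _ _ T2 hlip
  rw [e2] at e3'
  change |∫ x, γ (qt x).2 * chi (qt x).1 * M.N x 2 ^ 2 ∂M.μ| ≤ _
  have a1 := abs_le.1 e1
  have a2 := abs_le.1 e3'
  exact abs_le.2 ⟨by linarith, by linarith⟩

end MW.CI
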