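import Pool.Agent.P.MP_064970_gt.SC

/-! Case I, row DLX: the defect along the axis in general position. -/

open MeasureTheory Set Filter Topology Metric
open scoped RealInnerProductSpace ENNReal ComplexConjugate Real

noncomputable section

namespace MW.CI

namespace DLX

theorem exists_sim (M : Surf) (hM : M.Mem) (B : E ≃ₗᵢ[ℝ] E) {ρ : ℝ} (hρ : 0 < ρ) (o : E) :
    ∃ M' : Surf, M'.Mem ∧ IsSim M' M B ρ o := by
  have h := M.isSim B.symm (inv_pos.2 hρ) (-(ρ⁻¹ • B.symm o))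
  refine ⟨_, h.mem hM, ?_⟩
  have h2 := h.symm
  have e : -(ρ⁻¹⁻¹ • B.symm.symm (-(ρ⁻¹ • B.symm o))) = o := by
    simp [smul_smul, hρ.ne']
  rwa [e, inv_inv, LinearIsometryEquiv.symm_symm] at h2

theorem sub_o (B : E ≃ₗᵢ[ℝ] E) (ρ : ℝ) (o z : E) : simMap B ρ o z - o = ρ • B z := by
  simp [simMap]

theorem inner_o (B : E ≃ₗᵢ[ℝ] E) (ρ : ℝ) (o z w : E) :
    ⟪simMap B ρ o z - o, B w⟫ = ρ * ⟪z, w⟫ := by
  rw [sub_o, real_inner_smul_left, B.inner_map_map]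

theorem dax_sim (B : E ≃ₗᵢ[ℝ] E) {ρ : ℝ} (hρ : 0 < ρ) (o z : E) :
    dax o (B e3) (simMap B ρ o z) = ρ * dax 0 e3 z := by
  rw [dax, dax, inner_o, sub_o, sub_zero, mul_smul, ← smul_sub, ← map_smul, ← map_sub, norm_smul,
    B.norm_map, Real.norm_of_nonneg hρ.le]

theorem prA_sim (A B : E ≃ₗᵢ[ℝ] E) (ρ : ℝ) (o z : E) :
    prA A (simMap B ρ o z) = ρ • prA (A.trans B.symm) z + prA A o := by
  rw [simMap, prA_add, prA_smul]
  rfl

theorem prA_zero (A : E ≃ₗᵢ[ℝ] E) : prA A 0 = 0 := by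
  have := prA_smul A 0 0
  rwa [zero_smul, zero_smul] at this

theorem le_of_mul {ρ κ : ℝ} (hρ : 0 < ρ) {X : ℝ≥0∞}
    (h : ENNReal.ofReal (ρ ^ 2) * X ≤ ENNReal.ofReal (κ * ρ ^ 2)) :
    X ≤ ENNReal.ofReal (κ * 1 ^ 2) := by
  rw [mul_comm κ, ENNReal.ofReal_mul (sq_nonneg ρ)] at h
  rw [one_pow, mul_one]
  exact (ENNReal.mul_le_mul_iff_right (ENNReal.ofReal_pos.2 (pow_pos hρ 2)).ne' ENNReal.ofReal_ne_top).1 h

theorem vol {ρ : ℝ} (hρ : 0 < ρ) (b : ℂ) (S : Set ℂ) :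
    ENNReal.ofReal (ρ ^ 2) * volume ((fun y : ℂ => ρ • y + b) ⁻¹' S) = volume S := by
  have e : (fun y : ℂ => ρ • y + b) ⁻¹' S = (fun y : ℂ => ρ • y) ⁻¹' ((fun y => y + b) ⁻¹' S) :=
    rfl
  rw [e, Measure.addHaar_preimage_smul _ hρ.ne', measure_preimage_add_right,
    Complex.finrank_real_complex, ← mul_assoc, ← ENNReal.ofReal_mul (sq_nonneg ρ),
    abs_of_pos (by positivity), mul_inv_cancel₀ (by positivity), ENNReal.ofReal_one, one_mul]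

theorem axg {M M' : Surf} {B : E ≃ₗᵢ[ℝ] E} {ρ : ℝ} {o : E} (H : IsSim M' M B ρ o)
    {A : Bool → E ≃ₗᵢ[ℝ] E} {G : Bool → Set E} {τ h κ δ : ℝ}
    (hG : AxG M o (B e3) ρ A G τ h κ δ) :
    AxG M' 0 e3 1 (fun i => (A i).trans B.symm) (fun i => simMap B ρ o ⁻¹' G i) τ h κ δ := by
  have hρ := H.pos
  have h0 : simMap B ρ o 0 = o := by simp [simMap]
  have hb : ∀ z r, simMap B ρ o z ∈ ball o (r * ρ) ↔ z ∈ ball (0 : E) r := fun z r => by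
    rw [← simMap_mem_ball B hρ o z 0 r, h0, mul_comm]
  have hb1 : ∀ z, simMap B ρ o z ∈ ball o ρ ↔ z ∈ ball (0 : E) 1 := fun z => by
    rw [← hb, one_mul]
  have hA : ∀ i w, A i w = B (((A i).trans B.symm) w) := fun i w => by simp
  have hw : ∀ i z, wedge (M.N (simMap B ρ o z)) (A i e3) =
      wedge (M'.N z) (((A i).trans B.symm) e3) := fun i z => by
    rw [H.N, hA i, wedge_map]
  have hmem : ∀ i (y : ℂ), ρ • y + prA (A i) o ∈ prA (A i) '' G i →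
      y ∈ prA ((A i).trans B.symm) '' (simMap B ρ o ⁻¹' G i) := by
    rintro i y ⟨x, hx, e⟩
    obtain ⟨z, rfl⟩ := simMap_surjective B hρ o x
    rw [prA_sim, add_left_inj] at e
    exact ⟨z, hx, smul_right_injective ℂ hρ.ne' e⟩
  have hball : ∀ i (y : ℂ), y ∈ ball (prA ((A i).trans B.symm) 0) 1 →
      ρ • y + prA (A i) o ∈ ball (prA (A i) o) ρ := by
    intro i y hy
    rw [prA_zero, mem_ball_zero_iff] at hy
    rw [mem_ball_iff_norm, add_sub_cancel_right, norm_smul, Real.norm_of_nonneg hρ.le]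
    exact mul_lt_of_lt_one_right hρ hy
  refine ⟨fun i => ?_, fun i => (hG.meas i).preimage (continuous_simMap B ρ o).measurable,
    fun i z hz => ?_, hG.disj.preimage _, fun i z hz w hw e => ?_, fun i z hz => ?_,
    fun i z hz => ?_, fun i z hz => ?_, ?_, fun z hz h1 h2 => ?_, fun i => ?_,
    fun i y hy hn => ?_, hG.τ0, hG.h0, hG.κ0, hG.δ0⟩
  · simp [hG.ax i]
  · have := hG.sub i hz
    exact ⟨(H.S z).1 this.1, by rw [mul_one]; exact (hb z 5).1 this.2⟩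
  · refine simMap_injective B hρ o (hG.inj i hz hw ?_)
    rw [prA_sim, prA_sim, e]
  · rw [← hw]
    exact hG.tilt i _ hz
  · have := hG.tilt' i _ hz
    rw [dax_sim B hρ, hw, mul_assoc, mul_comm h] at this
    rw [mul_one]
    exact le_of_mul_le_mul_left this hρ
  · have := hG.ht i _ hz
    rw [hA i, inner_o, abs_mul, abs_of_pos hρ, mul_comm h] at this
    rw [mul_one, sub_zero]
    exact le_of_mul_le_mul_left this hρ
  · refine le_of_mul hρ (le_trans ?_ ((H.measure _).symm.trans_le hG.rest))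
    refine mul_le_mul_right (measure_mono ?_) _
    exact fun z hz => ⟨(hb1 z).2 hz.1, hz.2⟩
  · have := hG.restd _ ⟨(H.S z).2 hz.1, (hb1 z).2 hz.2⟩ h1 h2
    rw [dax_sim B hρ, mul_comm δ] at this
    rw [mul_one]
    exact le_of_mul_le_mul_left this hρ
  · refine le_of_mul hρ (le_trans ?_ ((vol hρ (prA (A i) o) _).trans_le (hG.cover i)))
    refine mul_le_mul_right (measure_mono ?_) _
    exact fun y hy => ⟨hball i y hy.1, fun hn => hy.2 (hmem i y hn)⟩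
  · have := hG.coverd i _ (hball i y hy) fun hm => hn (hmem i y hm)
    rw [add_sub_cancel_right, Complex.smul_re, smul_eq_mul, abs_mul, abs_of_pos hρ,
      mul_comm δ] at this
    rw [mul_one, prA_zero, sub_zero]
    exact le_of_mul_le_mul_left this hρ

end DLX

theorem c_dlx_of (hDLZ : C_DLZ) (hDLS : C_DLS) : C_DLX := by
  intro c₀ hc₀
  obtain ⟨Cz, hCz, hZ⟩ := hDLZ c₀ hc₀
  obtain ⟨Cs, hCs, hS⟩ := hDLS
  refine ⟨Cz + 2 * (Cs / c₀ ^ 3), by positivity, ?_⟩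
  intro M o e ρ A G τ h κ δ ζ r₁ r₂ c₁ c₂ hM hρ hG hζ d1 d2 t1 t2 l1 u1 l2 u2
  have he : ‖e‖ = 1 := by rw [← hG.ax false, LinearIsometryEquiv.norm_map, norm_ey]
  obtain ⟨B, rfl⟩ := exists_iso_e3 he
  obtain ⟨M', hM', H⟩ := DLX.exists_sim M hM B hρ o
  have hG' := DLX.axg H hG
  obtain ⟨z₁, rfl⟩ := simMap_surjective B hρ o c₁
  obtain ⟨z₂, rfl⟩ := simMap_surjective B hρ o c₂
  obtain ⟨s₁, rfl⟩ : ∃ s, r₁ = ρ * s := ⟨r₁ / ρ, by field_simp⟩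
  obtain ⟨s₂, rfl⟩ : ∃ s, r₂ = ρ * s := ⟨r₂ / ρ, by field_simp⟩
  rw [H.Θ, H.Θ]
  have hζ0 : 0 ≤ ζ := nonneg_of_mul_nonneg_left ((dax_nonneg _ _ _).trans d1) hρ
  have e1 : 0 ≤ τ * h + h ^ 2 + κ * δ := by
    have := hG.τ0
    have := hG.h0
    have := hG.κ0
    have := hG.δ0
    positivity
  have e2 : 0 ≤ ζ * (h + τ + ζ + κ) := by
    have := hG.τ0
    have := hG.h0
    have := hG.κ0
    positivity
  have key : ∀ (z : E) (s : ℝ), dax o (B e3) (simMap B ρ o z) ≤ ζ * ρ →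
      |⟪simMap B ρ o z - o, B e3⟫| ≤ ρ / 4 → c₀ * ρ ≤ ρ * s → ρ * s ≤ ρ / 4 →
      |z 2| ≤ 1 / 4 ∧ c₀ ≤ s ∧ s ≤ 1 / 4 ∧
        |s * (2 - M'.Θ z s) - s * (2 - M'.Θ (pt 0 (z 2)) s)|
          ≤ Cs / c₀ ^ 3 * (ζ * (h + τ + ζ + κ)) := by
    intro z s d t l u
    rw [DLX.dax_sim B hρ, dax_zero_e3, mul_comm ζ] at d
    rw [DLX.inner_o, inner_e3, abs_mul, abs_of_pos hρ] at t
    have d' := le_of_mul_le_mul_left d hρ
    have t' : |z 2| ≤ 1 / 4 := le_of_mul_le_mul_left (by linarith) hρ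
    have l' : c₀ ≤ s := le_of_mul_le_mul_left (by linarith) hρ
    have u' : s ≤ 1 / 4 := le_of_mul_le_mul_left (by linarith) hρ
    have hs : 0 < s := hc₀.trans_le l'
    refine ⟨t', l', u', ?_⟩
    have h1 := hS M' _ _ τ h κ δ ζ s z hM' hG' d' hζ t' hs u'
    rw [← mul_sub, sub_sub_sub_cancel_left, abs_mul, abs_of_pos hs, abs_sub_comm]
    calc _ ≤ s * (Cs / s ^ 4 * (ζ * (h + τ + ζ + κ))) := by gcongr
      _ = Cs / s ^ 3 * (ζ * (h + τ + ζ + κ)) := by field_simp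
      _ ≤ _ := by gcongr
  obtain ⟨a1, a2, a3, a4⟩ := key z₁ s₁ d1 t1 l1 u1
  obtain ⟨b1, b2, b3, b4⟩ := key z₂ s₂ d2 t2 l2 u2
  have h3 := hZ M' _ _ τ h κ δ (z₁ 2) (z₂ 2) s₁ s₂ hM' hG' a1 b1 a2 a3 b2 b3
  have h4 : |s₁ * (2 - M'.Θ z₁ s₁) - s₂ * (2 - M'.Θ z₂ s₂)| ≤
      (Cz + 2 * (Cs / c₀ ^ 3)) * (τ * h + h ^ 2 + κ * δ + ζ * (h + τ + ζ + κ)) := by
    have e3 : 0 ≤ Cs / c₀ ^ 3 * (τ * h + h ^ 2 + κ * δ) := by positivity
    have e4 : 0 ≤ Cz * (ζ * (h + τ + ζ + κ)) := by positivity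
    rw [abs_le] at a4 b4 h3 ⊢
    constructor <;> nlinarith [a4.1, a4.2, b4.1, b4.2, h3.1, h3.2]
  rw [mul_assoc, mul_assoc ρ s₂, ← mul_sub, abs_mul, abs_of_pos hρ, mul_comm _ ρ, mul_assoc]
  exact mul_le_mul_of_nonneg_left h4 hρ.le

end MW.CI
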