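import Pool.Agent.P.MP_064970_gt.SC

/-! Case I, row DLZ. Sketch:
g_{a,r}(q,t) = lam((q + (t-a)^2)/r^2): Tf with gq = lam'/r^2, gt = lam' 2(t-a)/r^2, lam' s =
-(12/pi) max(1-s,0)^2, bounded by 4 and 8-Lipschitz on s >= 0; constant L(c0). |x - pt 0 a|^2 = q
+ (t-a)^2, int over the plane = r^2 (integral_lam with centre a I). So r(2 - Theta) = (2 int g -
int g dmu)/r = n(g)/r + error (DLN). |g(q,t) - gam(t) chi(q)| <= C q with gam t =
lam((t-a)^2/r^2), chi q = pi/4 lam(4q) (abs_lam_sub_le), both vanish off ball 0 1, and int_{ball 0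
1} q N2^2 <= 2 pi h^2 + kappa delta (|pr x||N2| <= h on G i). DLT for gamma = gam1/r1 - gam2/r2,
whose integral is 0 by the change of variables t = a + r u. -/

open MeasureTheory Set Filter Topology Metric
open scoped RealInnerProductSpace ENNReal ComplexConjugate Real

noncomputable section

namespace MW.CI

namespace DLZ

/-- The derivative of the weight. -/
def lp (s : ℝ) : ℝ := -(12 / π) * max (1 - s) 0 ^ 2

theorem pi12 : 0 ≤ 12 / π ∧ 12 / π ≤ 4 := by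
  have h := Real.pi_gt_three
  exact ⟨by positivity, by rw [div_le_iff₀ (by linarith)]; linarith⟩

theorem lp_cont : Continuous lp := by unfold lp; fun_prop

theorem lp_bd {s : ℝ} (hs : 0 ≤ s) : |lp s| ≤ 4 := by
  have h0 := le_max_right (1 - s) 0
  have h1 : max (1 - s) 0 ≤ 1 := max_le (by linarith) zero_le_one
  have h2 : max (1 - s) 0 ^ 2 ≤ 1 := pow_le_one₀ h0 h1
  rw [lp, abs_mul, abs_neg, abs_of_nonneg pi12.1, abs_of_nonneg (sq_nonneg _)]
  nlinarith [pi12.1, pi12.2]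

theorem lp_lip {s t : ℝ} (hs : 0 ≤ s) (ht : 0 ≤ t) : |lp s - lp t| ≤ 8 * |s - t| := by
  have a0 := le_max_right (1 - s) 0
  have b0 := le_max_right (1 - t) 0
  have a1 : max (1 - s) 0 ≤ 1 := max_le (by linarith) zero_le_one
  have b1 : max (1 - t) 0 ≤ 1 := max_le (by linarith) zero_le_one
  have h := abs_max_sub_max_le_abs (1 - s) (1 - t) 0
  rw [show 1 - s - (1 - t) = -(s - t) by ring, abs_neg] at h
  have e : lp s - lp t = -(12 / π * (max (1 - s) 0 + max (1 - t) 0)) *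
      (max (1 - s) 0 - max (1 - t) 0) := by rw [lp, lp]; ring
  rw [e, abs_mul, abs_neg, abs_of_nonneg (mul_nonneg pi12.1 (by linarith))]
  refine mul_le_mul ?_ h (abs_nonneg _) (by norm_num)
  nlinarith [pi12.1, pi12.2]

theorem lp_zero {s : ℝ} (hs : 1 ≤ s) : lp s = 0 := by
  rw [lp, max_eq_right (by linarith)]; simp

theorem lam_bd {s : ℝ} (hs : 0 ≤ s) : |lam s| ≤ 2 := by
  have h := Real.pi_gt_three
  rw [abs_of_nonneg (lam_nonneg s)]
  refine (lam_le hs).trans ?_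
  rw [div_le_iff₀ (by linarith)]
  linarith

/-- The argument of the weight. -/
def ss (a r : ℝ) (z : ℝ × ℝ) : ℝ := (z.1 + (z.2 - a) ^ 2) / r ^ 2

/-- The test function. -/
def g (a r : ℝ) (z : ℝ × ℝ) : ℝ := lam (ss a r z)

/-- Its first derivative. -/
def gq (a r : ℝ) (z : ℝ × ℝ) : ℝ := lp (ss a r z) / r ^ 2

/-- Its second derivative. -/
def gt (a r : ℝ) (z : ℝ × ℝ) : ℝ := lp (ss a r z) * (2 * (z.2 - a) / r ^ 2)

variable {a r c₀ : ℝ}

theorem ss_cont (a r : ℝ) : Continuous (ss a r) := by unfold ss; fun_prop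

theorem ss_nonneg (a r : ℝ) {z : ℝ × ℝ} (hz : 0 ≤ z.1) : 0 ≤ ss a r z := by
  unfold ss; positivity

theorem one_le_ss (hr : 0 < r) {z : ℝ × ℝ} (h : r ^ 2 ≤ z.1 + (z.2 - a) ^ 2) : 1 ≤ ss a r z := by
  rwa [ss, le_div_iff₀ (by positivity), one_mul]

theorem far (ha : |a| ≤ 1 / 4) (hr : 0 < r) (hr' : r ≤ 1 / 4) {z : ℝ × ℝ} (hz : 0 ≤ z.1)
    (h : 3 / 4 ≤ z.1 + z.2 ^ 2) : 1 ≤ ss a r z := by
  have h1 := abs_le.1 ha
  refine one_le_ss hr ?_
  nlinarith [sq_nonneg (z.2 - 2 * a)]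

theorem inv_bd (hc : 0 < c₀) (h1 : c₀ ≤ r) (h2 : r ≤ 1 / 4) :
    1 ≤ 1 / c₀ ^ 4 ∧ 1 / r ^ 2 ≤ 1 / c₀ ^ 4 ∧ 1 / r ^ 4 ≤ 1 / c₀ ^ 4 := by
  have hr : 0 < r := hc.trans_le h1
  have h3 : c₀ ^ 4 ≤ r ^ 4 := pow_le_pow_left₀ hc.le h1 4
  have h4 : r ^ 2 ≤ 1 := by nlinarith
  have h5 : r ^ 4 ≤ r ^ 2 := by nlinarith [sq_nonneg r]
  exact ⟨by rw [le_div_iff₀ (by positivity)]; linarith,
    one_div_le_one_div_of_le (by positivity) (by linarith),
    one_div_le_one_div_of_le (by positivity) h3⟩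

theorem tf (ha : |a| ≤ 1 / 4) (hc : 0 < c₀) (h1 : c₀ ≤ r) (h2 : r ≤ 1 / 4) :
    Tf (g a r) (gq a r) (gt a r) (8 * (1 / c₀ ^ 4)) := by
  have hr : 0 < r := hc.trans_le h1
  obtain ⟨i1, i2, -⟩ := inv_bd hc h1 h2
  refine ⟨fun z => ?_, (lp_cont.comp (ss_cont a r)).div_const _,
    (lp_cont.comp (ss_cont a r)).mul (by fun_prop), fun z hz h => ?_, fun z hz => ⟨?_, ?_, ?_⟩⟩
  · have e1 := ((hasFDerivAt_fst (𝕜 := ℝ) (p := z)).add
      (((hasFDerivAt_snd (𝕜 := ℝ) (p := z)).sub_const a).pow 2)).mul_const (r ^ 2)⁻¹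
    have e2 := (hasDerivAt_lam (ss a r z)).comp_hasFDerivAt z e1
    refine e2.congr_fderiv (ContinuousLinearMap.ext fun v => ?_)
    simp [gq, gt, lp]
    ring
  · have h3 := far ha hr h2 hz h
    simp only [g, gq, gt, lam_eq_zero h3, lp_zero h3, zero_div, zero_mul, and_self]
  · linarith [lam_bd (ss_nonneg a r hz), show |g a r z| = |lam (ss a r z)| from rfl]
  · rw [gq, abs_div, abs_of_pos (by positivity : 0 < r ^ 2), div_eq_mul_one_div]
    have h3 := mul_le_mul (lp_bd (ss_nonneg a r hz)) i2 (by positivity) (by norm_num)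
    linarith
  · rcases le_total (r ^ 2) (z.1 + (z.2 - a) ^ 2) with h | h
    · rw [gt, lp_zero (one_le_ss hr h), zero_mul, abs_zero]
      positivity
    · have h3 : |z.2 - a| ≤ 1 := by
        rw [← sq_le_one_iff_abs_le_one]
        nlinarith
      have h4 : |2 * (z.2 - a) / r ^ 2| ≤ 2 * (1 / c₀ ^ 4) := by
        rw [abs_div, abs_of_pos (by positivity : 0 < r ^ 2), div_eq_mul_one_div, abs_mul, abs_two]
        exact mul_le_mul (by linarith) i2 (by positivity) (by norm_num)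
      have h5 := mul_le_mul (lp_bd (ss_nonneg a r hz)) h4 (abs_nonneg _) (by norm_num)
      rw [gt, abs_mul]
      linarith

theorem ss_sub (a r q q' t : ℝ) : |ss a r (q, t) - ss a r (q', t)| = |q - q'| * (1 / r ^ 2) := by
  have e : ss a r (q, t) - ss a r (q', t) = (q - q') * (1 / r ^ 2) := by
    simp only [ss]; ring
  rw [e, abs_mul, abs_of_nonneg (by positivity : 0 ≤ 1 / r ^ 2)]

theorem lipq (a : ℝ) (hc : 0 < c₀) (h1 : c₀ ≤ r) (h2 : r ≤ 1 / 4) :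
    LipQ (gq a r) (8 * (1 / c₀ ^ 4)) := by
  have hr : 0 < r := hc.trans_le h1
  obtain ⟨-, -, i3⟩ := inv_bd hc h1 h2
  intro q q' t hq hq'
  have h3 := lp_lip (ss_nonneg a r (z := (q, t)) hq) (ss_nonneg a r (z := (q', t)) hq')
  rw [ss_sub] at h3
  rw [gq, gq, ← sub_div, abs_div, abs_of_pos (by positivity : 0 < r ^ 2)]
  calc _ ≤ 8 * (|q - q'| * (1 / r ^ 2)) / r ^ 2 := by gcongr
    _ = 8 * (1 / r ^ 4) * |q - q'| := by field_simp
    _ ≤ _ := by gcongr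

theorem plane (a : ℝ) (hr : 0 < r) : ∫ y : ℂ, g a r (qy y) = r ^ 2 := by
  rw [← integral_lam (⟨0, a⟩ : ℂ) hr]
  refine integral_congr_ae (Eventually.of_forall fun y => ?_)
  simp only [g, ss, qy, Complex.sq_norm, Complex.normSq_apply, Complex.sub_re, Complex.sub_im,
    sub_zero]
  simp only [sq]

theorem theta_eq (M : Surf) (a r : ℝ) : M.Θ (pt 0 a) r = (∫ x, g a r (qt x) ∂M.μ) / r ^ 2 := by
  rw [Surf.Θ, theta]
  congr 1
  refine integral_congr_ae (Eventually.of_forall fun x => ?_)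
  simp only [g, ss, qt, norm_sq_eq (x - pt 0 a), pr_sub, pr_pt, sub_zero, PiLp.sub_apply, pt_two]

/-- The cutoff about the axis. -/
def chi (x : E) : ℝ := π / 4 * lam (4 * ‖pr x‖ ^ 2)

theorem chi_bd (x : E) : |chi x| ≤ 2 ∧ |1 - chi x| ≤ 16 * ‖pr x‖ ^ 2 := by
  have h0 := Real.pi_pos
  have h1 : π / 4 ≤ 1 := by linarith [Real.pi_le_four]
  have h2 : 0 ≤ 4 * ‖pr x‖ ^ 2 := by positivity
  constructor
  · rw [chi, abs_mul, abs_of_pos (by positivity : 0 < π / 4)]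
    nlinarith [lam_bd h2, abs_nonneg (lam (4 * ‖pr x‖ ^ 2))]
  · have e : 1 - chi x = π / 4 * (lam 0 - lam (4 * ‖pr x‖ ^ 2)) := by
      rw [chi, mul_sub]
      congr 1
      rw [lam, sub_zero, max_eq_left zero_le_one]
      field_simp
    have h3 := abs_lam_sub_le le_rfl h2
    rw [zero_sub, abs_neg, abs_of_nonneg h2] at h3
    rw [e, abs_mul, abs_of_pos (by positivity : 0 < π / 4)]
    nlinarith [abs_nonneg (lam 0 - lam (4 * ‖pr x‖ ^ 2))]

theorem off_ball (ha : |a| ≤ 1 / 4) (hr : 0 < r) (hr' : r ≤ 1 / 4) {x : E}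
    (hx : x ∉ ball (0 : E) 1) : g a r (qt x) = 0 ∧ g a r (0, x 2) * chi x = 0 := by
  rw [mem_ball_zero_iff, not_lt] at hx
  have h1 := norm_sq_eq x
  have h2 : 1 ≤ ‖pr x‖ ^ 2 + x 2 ^ 2 := by nlinarith
  refine ⟨lam_eq_zero (far ha hr hr' (sq_nonneg _) (by simp only [qt]; linarith)), ?_⟩
  rcases le_total 1 (4 * ‖pr x‖ ^ 2) with h | h
  · rw [chi, lam_eq_zero h, mul_zero, mul_zero]
  · rw [g, lam_eq_zero (far ha hr hr' le_rfl (by simp only; linarith)), zero_mul]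

theorem near_axis (a : ℝ) (hc : 0 < c₀) (h1 : c₀ ≤ r) (h2 : r ≤ 1 / 4) (x : E) :
    |g a r (qt x) - g a r (0, x 2) * chi x| ≤ 36 * (1 / c₀ ^ 4) * ‖pr x‖ ^ 2 := by
  obtain ⟨i1, i2, -⟩ := inv_bd hc h1 h2
  have hq : 0 ≤ ‖pr x‖ ^ 2 := sq_nonneg _
  have h3 := abs_lam_sub_le (ss_nonneg a r (z := (‖pr x‖ ^ 2, x 2)) hq)
    (ss_nonneg a r (z := (0, x 2)) le_rfl)
  rw [ss_sub, sub_zero, abs_of_nonneg hq] at h3
  have h4 : |g a r (0, x 2) * (1 - chi x)| ≤ 2 * (16 * ‖pr x‖ ^ 2) := by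
    rw [abs_mul]
    exact mul_le_mul (lam_bd (ss_nonneg a r le_rfl)) (chi_bd x).2 (abs_nonneg _) (by norm_num)
  have e : g a r (qt x) - g a r (0, x 2) * chi x =
      (lam (ss a r (‖pr x‖ ^ 2, x 2)) - lam (ss a r (0, x 2))) + g a r (0, x 2) * (1 - chi x) := by
    simp only [g, qt]; ring
  have h5 := mul_le_mul_of_nonneg_left i1 hq
  have h6 := mul_le_mul_of_nonneg_left i2 hq
  rw [e]
  refine (abs_add_le _ _).trans ?_
  linarith

variable {M : Surf} {A : Bool → E ≃ₗᵢ[ℝ] E} {G : Bool → Set E} {τ h κ δ : ℝ}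

theorem N2_le (M : Surf) {x : E} (hx : x ∈ M.S) : M.N x 2 ^ 2 ≤ 1 := by
  have h1 := norm_sq_eq (M.N x)
  rw [M.N_unit x hx] at h1
  nlinarith [sq_nonneg ‖pr (M.N x)‖]

theorem on_G (H : AxG M 0 e3 1 A G τ h κ δ) {i : Bool} {x : E} (hx : x ∈ G i) :
    ‖pr x‖ ^ 2 * M.N x 2 ^ 2 ≤ h ^ 2 := by
  have h1 : ⟪A i e3, e3⟫ = 0 := by
    have h2 := (A i).inner_map_map e3 ey
    rw [H.ax i] at h2
    rw [h2, real_inner_comm]
    exact inner_frame.2.2.1
  have h2 := abs_inner_le_wedge (a := M.N x) h1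
  rw [inner_e3, norm_e3, mul_one] at h2
  have h3 := H.tilt' i x hx
  rw [dax_zero_e3, mul_one] at h3
  have h4 := (mul_le_mul_of_nonneg_left h2 (norm_nonneg (pr x))).trans h3
  rw [← sq_abs (M.N x 2), ← mul_pow]
  exact pow_le_pow_left₀ (by positivity) h4 2

theorem small (hM : M.Mem) (H : AxG M 0 e3 1 A G τ h κ δ) {F : E → ℝ} {K : ℝ} (hK : 0 ≤ K)
    (h1 : ∀ x, |F x| ≤ K * ‖pr x‖ ^ 2) (h0 : ∀ x, x ∉ ball (0 : E) 1 → F x = 0) :
    |∫ x, F x * M.N x 2 ^ 2 ∂M.μ| ≤ K * (8 * h ^ 2 + κ * δ) := by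
  have hδ := H.δ0
  have hm : MeasurableSet (ball (0 : E) 1 \ (G false ∪ G true)) :=
    measurableSet_ball.diff ((H.meas _).union (H.meas _))
  have f1 : M.μ (ball (0 : E) 1) < ∞ := hM.bd.lt_top isBounded_ball
  have f2 : M.μ (ball (0 : E) 1 \ (G false ∪ G true)) < ∞ :=
    (measure_mono sdiff_subset).trans_lt f1
  have i1 : Integrable ((ball (0 : E) 1).indicator fun _ => K * h ^ 2) M.μ :=
    (integrable_indicator_iff measurableSet_ball).2 (integrableOn_const f1.ne)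
  have i2 : Integrable ((ball (0 : E) 1 \ (G false ∪ G true)).indicator fun _ => K * δ) M.μ :=
    (integrable_indicator_iff hm).2 (integrableOn_const f2.ne)
  have h2 := norm_integral_le_of_norm_le (f := fun x => F x * M.N x 2 ^ 2) (i1.add i2) (by
    filter_upwards [M.ae_mem] with x hx
    have p1 : 0 ≤ K * h ^ 2 := by positivity
    have p2 : 0 ≤ K * δ := by positivity
    have p3 : 0 ≤ (ball (0 : E) 1 \ (G false ∪ G true)).indicator (fun _ => K * δ) x :=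
      indicator_nonneg (fun _ _ => p2) x
    rw [Pi.add_apply]
    by_cases hb : x ∈ ball (0 : E) 1
    · have e : ‖F x * M.N x 2 ^ 2‖ ≤ K * (‖pr x‖ ^ 2 * M.N x 2 ^ 2) := by
        rw [Real.norm_eq_abs, abs_mul, abs_of_nonneg (sq_nonneg (M.N x 2)), ← mul_assoc]
        exact mul_le_mul_of_nonneg_right (h1 x) (sq_nonneg _)
      rw [indicator_of_mem hb]
      by_cases hG : x ∈ G false ∪ G true
      · have e2 : ‖pr x‖ ^ 2 * M.N x 2 ^ 2 ≤ h ^ 2 := hG.elim (on_G H) (on_G H)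
        linarith [mul_le_mul_of_nonneg_left e2 hK]
      · rw [indicator_of_mem (show x ∈ ball (0 : E) 1 \ (G false ∪ G true) from ⟨hb, hG⟩)]
        have e2 := H.restd x ⟨hx, hb⟩ (fun h' => hG (Or.inl h')) fun h' => hG (Or.inr h')
        rw [dax_zero_e3, mul_one] at e2
        have e3 : ‖pr x‖ ≤ 1 := (norm_pr_le x).trans (mem_ball_zero_iff.1 hb).le
        have e4 : ‖pr x‖ ^ 2 * M.N x 2 ^ 2 ≤ δ := by
          have e5 := mul_le_mul_of_nonneg_left (N2_le M hx) (sq_nonneg ‖pr x‖)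
          nlinarith [norm_nonneg (pr x)]
        linarith [mul_le_mul_of_nonneg_left e4 hK]
    · rw [h0 x hb, zero_mul, norm_zero, indicator_of_notMem hb, zero_add]
      exact p3)
  simp only [Pi.add_apply] at h2
  rw [integral_add i1 i2, integral_indicator_const _ measurableSet_ball,
    integral_indicator_const _ hm, smul_eq_mul, smul_eq_mul, Real.norm_eq_abs] at h2
  have h3 : M.μ.real (ball (0 : E) 1) ≤ 8 := by
    linarith [hM.bd.real_ball (0 : E) one_pos, Real.pi_le_four]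
  have h4 : M.μ.real (ball (0 : E) 1 \ (G false ∪ G true)) ≤ κ := by
    have h5 := H.rest
    rw [one_pow, mul_one] at h5
    exact ENNReal.toReal_le_of_le_ofReal H.κ0 h5
  have h5 := mul_le_mul_of_nonneg_right h3 (show 0 ≤ K * h ^ 2 by positivity)
  have h6 := mul_le_mul_of_nonneg_right h4 (show 0 ≤ K * δ by positivity)
  linarith

theorem g_cont (a r : ℝ) : Continuous (g a r) := contDiff_lam.continuous.comp (ss_cont a r)

theorem intg (hM : M.Mem) {F : E → ℝ} (hF : Continuous F) {K : ℝ} (h1 : ∀ x, |F x| ≤ K)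
    (h0 : ∀ x, x ∉ ball (0 : E) 1 → F x = 0) : Integrable (fun x => F x * M.N x 2 ^ 2) M.μ := by
  have hN : Measurable fun x => M.N x 2 :=
    (show Continuous fun n : E => n 2 by fun_prop).measurable.comp M.N_meas
  refine hM.bd.integrable (A := ball 0 1) isBounded_ball (hF.measurable.mul (hN.pow_const 2))
    (C := K) (fun x hx => ?_) fun x _ hx => by rw [h0 x hx, zero_mul]
  rw [abs_mul, abs_of_nonneg (sq_nonneg (M.N x 2))]
  exact (mul_le_of_le_one_right (abs_nonneg _) (N2_le M hx)).trans (h1 x)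

theorem intg_m (hM : M.Mem) (ha : |a| ≤ 1 / 4) (hr : 0 < r) (hr' : r ≤ 1 / 4) :
    Integrable (fun x => g a r (0, x 2) * chi x * M.N x 2 ^ 2) M.μ := by
  have hc : Continuous chi := continuous_const.mul (contDiff_lam.continuous.comp (by fun_prop))
  refine intg hM (((g_cont a r).comp (by fun_prop)).mul hc) (K := 2 * 2) (fun x => ?_)
    fun x hx => (off_ball ha hr hr' hx).2
  rw [abs_mul]
  exact mul_le_mul (lam_bd (ss_nonneg a r le_rfl)) (chi_bd x).1 (abs_nonneg _) (by norm_num)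

theorem one (hM : M.Mem) (H : AxG M 0 e3 1 A G τ h κ δ) {C : ℝ}
    (hN : ∀ (g gq gt : ℝ × ℝ → ℝ) (L : ℝ), Tf g gq gt L → LipQ gq L →
      |2 * (∫ y : ℂ, g (qy y)) - (∫ x, g (qt x) ∂M.μ) - ∫ x, g (qt x) * M.N x 2 ^ 2 ∂M.μ|
        ≤ C * L * (τ * h + h ^ 2 + κ * δ))
    (ha : |a| ≤ 1 / 4) (hc : 0 < c₀) (h1 : c₀ ≤ r) (h2 : r ≤ 1 / 4) :
    |r * (2 - M.Θ (pt 0 a) r) - (∫ x, g a r (0, x 2) * chi x * M.N x 2 ^ 2 ∂M.μ) / r| ≤
      (C * (8 * (1 / c₀ ^ 4)) + 36 * (1 / c₀ ^ 4) * 8) / c₀ * (τ * h + h ^ 2 + κ * δ) := by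
  have hr : 0 < r := hc.trans_le h1
  have e1 := hN _ _ _ _ (tf ha hc h1 h2) (lipq a hc h1 h2)
  rw [plane a hr] at e1
  have i1 : Integrable (fun x => g a r (qt x) * M.N x 2 ^ 2) M.μ :=
    intg hM ((g_cont a r).comp (by unfold qt; fun_prop)) (K := 2)
      (fun x => lam_bd (ss_nonneg a r (sq_nonneg _))) fun x hx => (off_ball ha hr h2 hx).1
  have e2 := small hM H (by positivity) (near_axis a hc h1 h2) fun x hx => by
    rw [(off_ball ha hr h2 hx).1, (off_ball ha hr h2 hx).2, sub_zero]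
  simp only [sub_mul] at e2
  rw [integral_sub i1 (intg_m hM ha hr h2)] at e2
  have p1 := mul_nonneg H.τ0 H.h0
  have p2 := mul_nonneg H.κ0 H.δ0
  have e3 : 36 * (1 / c₀ ^ 4) * (8 * h ^ 2 + κ * δ) ≤
      36 * (1 / c₀ ^ 4) * (8 * (τ * h + h ^ 2 + κ * δ)) :=
    mul_le_mul_of_nonneg_left (by linarith) (by positivity)
  have e4 : r * (2 - M.Θ (pt 0 a) r) - (∫ x, g a r (0, x 2) * chi x * M.N x 2 ^ 2 ∂M.μ) / r =
      ((2 * r ^ 2 - (∫ x, g a r (qt x) ∂M.μ) - ∫ x, g a r (qt x) * M.N x 2 ^ 2 ∂M.μ) +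
        ((∫ x, g a r (qt x) * M.N x 2 ^ 2 ∂M.μ) -
          ∫ x, g a r (0, x 2) * chi x * M.N x 2 ^ 2 ∂M.μ)) / r := by
    rw [theta_eq]
    field_simp
    ring
  rw [e4, abs_div, abs_of_pos hr, div_mul_eq_mul_div]
  have e5 := (abs_add_le _ _).trans (add_le_add e1 (e2.trans e3))
  refine div_le_div₀ ((abs_nonneg _).trans (e5.trans_eq (by ring))) (e5.trans_eq (by ring)) hc h1

theorem gam_der (ha : |a| ≤ 1 / 4) (hc : 0 < c₀) (h1 : c₀ ≤ r) (h2 : r ≤ 1 / 4) (t : ℝ) :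
    HasDerivAt (fun t => g a r (0, t)) (gt a r (0, t)) t := by
  have h3 := ((tf ha hc h1 h2).der (0, t)).comp_hasDerivAt t
    ((hasDerivAt_const t (0 : ℝ)).prodMk (hasDerivAt_id t))
  simpa [Function.comp_def] using h3

theorem gam_zero (ha : |a| ≤ 1 / 4) (hr : 0 < r) (h2 : r ≤ 1 / 4) {t : ℝ} (ht : 1 / 2 ≤ |t|) :
    g a r (0, t) = 0 := by
  refine lam_eq_zero (one_le_ss hr ?_)
  have h3 := abs_sub_abs_le_abs_sub t a
  simp only [zero_add]
  rw [← sq_abs (t - a)]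
  exact pow_le_pow_left₀ hr.le (by linarith) 2

theorem gam_intg (ha : |a| ≤ 1 / 4) (hr : 0 < r) (h2 : r ≤ 1 / 4) :
    Integrable fun t => g a r (0, t) := by
  refine Continuous.integrable_of_hasCompactSupport ((g_cont a r).comp (by fun_prop))
    (HasCompactSupport.intro (isCompact_closedBall (0 : ℝ) 1) fun t ht => gam_zero ha hr h2 ?_)
  rw [mem_closedBall_zero_iff, not_le, Real.norm_eq_abs] at ht
  linarith

theorem gam_int (a : ℝ) (hr : 0 < r) : (∫ t, g a r (0, t)) / r = ∫ u : ℝ, lam (u ^ 2) := by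
  have h1 := integral_sub_right_eq_self (μ := volume) (fun t : ℝ => lam ((t / r) ^ 2)) a
  rw [Measure.integral_comp_div (fun u : ℝ => lam (u ^ 2)) r, abs_of_pos hr, smul_eq_mul] at h1
  rw [div_eq_iff hr.ne', mul_comm, ← h1]
  simp only [g, ss, zero_add, div_pow]

theorem div_bd (hc : 0 < c₀) (h1 : c₀ ≤ r) {x L : ℝ} (hx : |x| ≤ L) : |x / r| ≤ L / c₀ := by
  rw [abs_div, abs_of_pos (hc.trans_le h1)]
  exact div_le_div₀ ((abs_nonneg x).trans hx) hx hc h1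

end DLZ

open DLZ in
theorem c_dlz_of (hDLN : C_DLN) (hDLT : C_DLT) : C_DLZ := by
  intro c₀ hc
  obtain ⟨C₁, hC₁, hN⟩ := hDLN
  obtain ⟨C₂, hC₂, hT⟩ := hDLT
  refine ⟨2 * ((C₁ * (8 * (1 / c₀ ^ 4)) + 36 * (1 / c₀ ^ 4) * 8) / c₀) +
    C₂ * (8 * (1 / c₀ ^ 4) / c₀ + 8 * (1 / c₀ ^ 4) / c₀), by positivity, ?_⟩
  intro M A G τ h κ δ a₁ a₂ r₁ r₂ hM H ha₁ ha₂ h1 h1' h2 h2'
  have hr₁ : 0 < r₁ := hc.trans_le h1
  have hr₂ : 0 < r₂ := hc.trans_le h2
  have e1 := one hM H (hN M A G τ h κ δ hM H) ha₁ hc h1 h1'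
  have e2 := one hM H (hN M A G τ h κ δ hM H) ha₂ hc h2 h2'
  have t1 := tf ha₁ hc h1 h1'
  have t2 := tf ha₂ hc h2 h2'
  have e3 := hT M A G τ h κ δ hM H (fun t => g a₁ r₁ (0, t) / r₁ - g a₂ r₂ (0, t) / r₂)
    (fun t => gt a₁ r₁ (0, t) / r₁ - gt a₂ r₂ (0, t) / r₂)
    (8 * (1 / c₀ ^ 4) / c₀ + 8 * (1 / c₀ ^ 4) / c₀)
    (fun t => ((gam_der ha₁ hc h1 h1' t).div_const _).sub ((gam_der ha₂ hc h2 h2' t).div_const _))
    (((t1.ct.comp (by fun_prop)).div_const _).sub ((t2.ct.comp (by fun_prop)).div_const _))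
    (fun t => ⟨(abs_sub _ _).trans (add_le_add (div_bd hc h1 (t1.bd (0, t) le_rfl).1)
        (div_bd hc h2 (t2.bd (0, t) le_rfl).1)),
      (abs_sub _ _).trans (add_le_add (div_bd hc h1 (t1.bd (0, t) le_rfl).2.2)
        (div_bd hc h2 (t2.bd (0, t) le_rfl).2.2))⟩)
    (fun t ht => by
      simp only [gam_zero ha₁ hr₁ h1' ht, gam_zero ha₂ hr₂ h2' ht, zero_div, sub_zero])
    (by
      rw [integral_sub ((gam_intg ha₁ hr₁ h1').div_const _) ((gam_intg ha₂ hr₂ h2').div_const _),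
        integral_div, integral_div, gam_int a₁ hr₁, gam_int a₂ hr₂, sub_self])
  have e4 : ∫ x, (g a₁ r₁ (0, x 2) / r₁ - g a₂ r₂ (0, x 2) / r₂) *
      (π / 4 * lam (4 * ‖pr x‖ ^ 2)) * M.N x 2 ^ 2 ∂M.μ =
      (∫ x, g a₁ r₁ (0, x 2) * chi x * M.N x 2 ^ 2 ∂M.μ) / r₁ -
        (∫ x, g a₂ r₂ (0, x 2) * chi x * M.N x 2 ^ 2 ∂M.μ) / r₂ := by
    rw [← integral_div, ← integral_div, ← integral_sub ((intg_m hM ha₁ hr₁ h1').div_const _)
      ((intg_m hM ha₂ hr₂ h2').div_const _)]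
    refine integral_congr_ae (Eventually.of_forall fun x => ?_)
    simp only [chi]
    ring
  rw [e4] at e3
  have f1 := abs_le.1 e1
  have f2 := abs_le.1 e2
  have f3 := abs_le.1 e3
  rw [abs_le]
  constructor <;> linarith [f1.1, f1.2, f2.1, f2.2, f3.1, f3.2]

end MW.CI
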