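import Pool.Agent.P.MP_064970_gt.SC

/-! Case I, row EXT. Sketch:
For x,y in G i: |f x - f y| = |<x-y,n>| <= 2 sigma |x-y| and norm_sq_prA give |x-y| <= 2 |prA x -
prA y|; so prA is injective on G i and the function on the image is 4 sigma-Lipschitz;
LipschitzOnWith.extend_real, then clamp with max (-h) (min h .). Height: |<x-p,n>| <= 2 sigma r on
G i; mu(G i) >= volume(image) >= pi r^2/4 - kappa >= r^2/2 (ARG, cover); integrate |f p| <= |f x|
+ 2 sigma r over G i, le_aex (G i in typ i as sigma < beta/4): |f p| <= 2 sigma r + 2 aex/r^2.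
disj: IsRef.not_both. wedge_le_add. -/

open MeasureTheory Set Filter Topology Metric
open scoped RealInnerProductSpace ENNReal ComplexConjugate Real

noncomputable section

namespace MW.CI

namespace EXT

theorem two_eq (A : E ≃ₗᵢ[ℝ] E) (x : E) : (A.symm x) 2 = ⟪x, A e3⟫ := by
  rw [← inner_e3, ← A.inner_map_map (A.symm x) e3, A.apply_symm_apply]

theorem norm_le_prA (A : E ≃ₗᵢ[ℝ] E) (x y : E) :
    ‖x - y‖ ≤ ‖prA A x - prA A y‖ + |⟪x - y, A e3⟫| := by
  have h := norm_le_pr_add (A.symm (x - y))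
  rw [A.symm.norm_map, two_eq, map_sub, pr_sub] at h
  exact h

theorem inner_close (x : E) {a b : E} {σ : ℝ} (h : ‖a - b‖ ≤ σ) :
    |⟪x, a⟫| ≤ |⟪x, b⟫| + σ * ‖x‖ := by
  have h1 : |⟪x, a⟫ - ⟪x, b⟫| ≤ ‖x‖ * σ := by
    rw [← inner_sub_right]
    exact (abs_real_inner_le_norm _ _).trans (mul_le_mul_of_nonneg_left h (norm_nonneg _))
  have h2 := abs_sub_abs_le_abs_sub ⟪x, a⟫ ⟪x, b⟫
  linarith

/-- Bounded Lipschitz extension. -/
theorem extend {G : Set E} {q : E → ℂ} {f : E → ℝ} {K h : ℝ} (hK : 0 ≤ K) (hh : 0 ≤ h)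
    (hl : ∀ x ∈ G, ∀ y ∈ G, |f x - f y| ≤ K * ‖q x - q y‖) (hb : ∀ x ∈ G, |f x| ≤ h) :
    ∃ v : ℂ → ℝ, (∀ y z, |v y - v z| ≤ K * ‖y - z‖) ∧ (∀ y, |v y| ≤ h) ∧
      ∀ x ∈ G, v (q x) = f x := by
  have hu : LipschitzOnWith K.toNNReal (fun y => f (Function.invFunOn q G y)) (q '' G) := by
    refine LipschitzOnWith.of_dist_le' fun y hy z hz => ?_
    have h1 := hl _ (Function.invFunOn_mem hy) _ (Function.invFunOn_mem hz)
    rw [Function.invFunOn_eq hy, Function.invFunOn_eq hz] at h1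
    rwa [Real.dist_eq, dist_eq_norm]
  obtain ⟨g, hg, he⟩ := hu.extend_real
  have hv := (hg.const_min h).const_max (-h)
  refine ⟨fun y => max (-h) (min h (g y)), fun y z => ?_, fun y => ?_, fun x hx => ?_⟩
  · have := hv.dist_le_mul y z
    rwa [Real.coe_toNNReal K hK, Real.dist_eq, dist_eq_norm] at this
  · exact abs_le.2 ⟨le_max_left _ _, max_le (by linarith) (min_le_left _ _)⟩
  · have hy : q x ∈ q '' G := mem_image_of_mem q hx
    have h1 := hl _ (Function.invFunOn_mem hy) x hx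
    rw [Function.invFunOn_eq hy, sub_self, norm_zero, mul_zero, abs_nonpos_iff, sub_eq_zero] at h1
    have h2 : g (q x) = f x := (he hy).symm.trans h1
    have h3 := abs_le.1 (hb x hx)
    change max (-h) (min h (g (q x))) = f x
    rw [h2, min_eq_right h3.2, max_eq_right h3.1]

theorem area_ge {D : Set ℂ} {y : ℂ} {r κ : ℝ} {m : ℝ≥0∞} (hr : 0 < r) (hκ : 0 ≤ κ)
    (hκr : κ ≤ r ^ 2 / 4) (hc : volume (ball y (r / 2) \ D) ≤ ENNReal.ofReal κ)
    (hD : volume D ≤ m) (hm : m ≠ ∞) : r ^ 2 / 2 ≤ m.toReal := by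
  have h1 : volume (ball y (r / 2)) ≤ ENNReal.ofReal κ + m := by
    have : ball y (r / 2) ⊆ (ball y (r / 2) \ D) ∪ D := fun z hz => by
      by_cases hzD : z ∈ D
      · exact Or.inr hzD
      · exact Or.inl ⟨hz, hzD⟩
    exact (measure_mono this).trans ((measure_union_le _ _).trans (add_le_add hc hD))
  have h2 := ENNReal.toReal_mono (ENNReal.add_ne_top.2 ⟨ENNReal.ofReal_ne_top, hm⟩) h1
  rw [Complex.volume_ball, ENNReal.toReal_add ENNReal.ofReal_ne_top hm, ENNReal.toReal_ofReal hκ,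
    ENNReal.toReal_mul, ENNReal.toReal_pow, ENNReal.toReal_ofReal (by linarith),
    ENNReal.coe_toReal, NNReal.coe_real_pi] at h2
  have h3 := Real.pi_gt_three
  have h4 : 0 < r ^ 2 := by positivity
  nlinarith

end EXT

open EXT in
theorem c_ext_of (hARG : C_ARG) : C_EXT := by
  intro M β σ κ r ν p G P A hM hν hσ hσβ hr hκ hκr H hP hA
  have hβ := hν.pos
  have hβ1 := hν.le_one
  have hGS : ∀ i, G i ⊆ M.S := fun i => by
    obtain ⟨U, -, hU⟩ := H.opn i
    rw [hU]
    exact inter_subset_left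
  have hGm : ∀ i, MeasurableSet (G i) := fun i => by
    obtain ⟨U, hU, hU'⟩ := H.opn i
    rw [hU']
    exact M.measurableSet_S.inter hU.measurableSet
  have hGb : ∀ i, Bornology.IsBounded (G i) := fun i => isBounded_ball.subset (H.sub i)
  have hcl : ∀ i, ‖A i e3 - ν i‖ ≤ σ := fun i => by
    rw [hA i]
    exact hP.close i
  have hf : ∀ i x y, P.f i x - P.f i y = ⟪x - y, A i e3⟫ := fun i x y => by
    rw [hA i, inner_sub_left]
    unfold Pl.f
    ring
  have hlip : ∀ i, ∀ x ∈ G i, ∀ y ∈ G i, ‖x - y‖ ≤ 2 * ‖prA (A i) x - prA (A i) y‖ ∧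
      |P.f i x - P.f i y| ≤ 4 * σ * ‖prA (A i) x - prA (A i) y‖ := by
    intro i x hx y hy
    have h1 := inner_close (x - y) (hcl i)
    have h2 := H.slope i x hx y hy
    have h3 := norm_le_prA (A i) x y
    have h4 : σ * ‖x - y‖ ≤ 1 / 8 * ‖x - y‖ :=
      mul_le_mul_of_nonneg_right (by linarith) (norm_nonneg _)
    have h5 := norm_nonneg (prA (A i) x - prA (A i) y)
    have h6 : ‖x - y‖ ≤ 2 * ‖prA (A i) x - prA (A i) y‖ := by linarith
    refine ⟨h6, ?_⟩
    have h7 := mul_le_mul_of_nonneg_left h6 hσ.le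
    rw [hf]
    linarith
  have hinj : ∀ i, InjOn (prA (A i)) (G i) := fun i x hx y hy e => by
    have h1 := (hlip i x hx y hy).1
    rw [e, sub_self, norm_zero, mul_zero, norm_le_zero_iff, sub_eq_zero] at h1
    exact h1
  have hht : ∀ i, ∀ x ∈ G i, |P.f i x - P.f i p| ≤ 2 * σ * r := by
    intro i x hx
    have h1 := inner_close (x - p) (hcl i)
    have h2 := H.ht i x hx
    have h3 : ‖x - p‖ < r := by
      have := H.sub i hx
      rwa [mem_ball, dist_eq_norm] at this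
    have h4 := mul_le_mul_of_nonneg_left h3.le hσ.le
    rw [hf]
    linarith
  have ha0 := aex_nonneg M β ν P p r
  have hr2 : 0 < r ^ 2 := by positivity
  have hp : ∀ i, |P.f i p| ≤ 2 * σ * r + 2 * (aex M β ν P p r / r ^ 2) := by
    intro i
    have hμ : M.μ (G i) < ∞ := hM.bd.lt_top (hGb i)
    have hm : r ^ 2 / 2 ≤ M.μ.real (G i) :=
      area_ge hr hκ hκr (H.cover i (A i) (hcl i))
        (hARG M (A i) (G i) (hGm i) (hGS i) (hinj i)).2.1
        hμ.ne
    have h1 : ∫ x in G i, |P.f i x| ∂M.μ ≤ aex M β ν P p r :=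
      le_aex hM P fun x hx => ⟨H.sub i hx.1, (H.nrm i x hx.1).trans_lt (by linarith)⟩
    have h2 : ∫ _ in G i, (|P.f i p| - 2 * σ * r) ∂M.μ ≤ ∫ x in G i, |P.f i x| ∂M.μ := by
      refine setIntegral_mono_on (integrableOn_const hμ.ne)
        (integrableOn_f hM P i (hGb i) (hGm i)) (hGm i) fun x hx => ?_
      have a1 := hht i x hx
      have a2 := abs_sub_abs_le_abs_sub (P.f i p) (P.f i x)
      rw [abs_sub_comm] at a2
      linarith
    rw [setIntegral_const, smul_eq_mul] at h2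
    by_contra hlt
    have h3 : 2 * (aex M β ν P p r / r ^ 2) < |P.f i p| - 2 * σ * r := by linarith [not_le.1 hlt]
    have h4 : 0 ≤ aex M β ν P p r / r ^ 2 := div_nonneg ha0 hr2.le
    have h5 : r ^ 2 / 2 * (|P.f i p| - 2 * σ * r) ≤ M.μ.real (G i) * (|P.f i p| - 2 * σ * r) :=
      mul_le_mul_of_nonneg_right hm (by linarith)
    have h6 : r ^ 2 / 2 * (2 * (aex M β ν P p r / r ^ 2)) <
        r ^ 2 / 2 * (|P.f i p| - 2 * σ * r) := mul_lt_mul_of_pos_left h3 (by linarith)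
    have h7 : r ^ 2 / 2 * (2 * (aex M β ν P p r / r ^ 2)) = aex M β ν P p r := by
      field_simp
    linarith
  have hσr : 0 < σ * r := mul_pos hσ hr
  have hex : ∀ i, ∃ v : ℂ → ℝ, (∀ y z, |v y - v z| ≤ 4 * σ * ‖y - z‖) ∧
      (∀ y, |v y| ≤ 4 * σ * r + 2 * (aex M β ν P p r / r ^ 2)) ∧
      ∀ x ∈ G i, v (prA (A i) x) = P.f i x := by
    intro i
    refine extend (by linarith) (by positivity) (fun x hx y hy => (hlip i x hx y hy).2)
      fun x hx => ?_
    have a1 := hht i x hx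
    have a2 := abs_sub_abs_le_abs_sub (P.f i x) (P.f i p)
    have a3 := hp i
    linarith
  choose v hv1 hv2 hv3 using hex
  refine ⟨v, hA, fun i => ⟨H.opn i, hGb i, fun x hx => ?_, hv1 i, hv2 i, ?_, fun x hx => ?_,
    H.cover i (A i) (hcl i)⟩, ?_, ?_⟩
  · have h1 := wedge_le_add (a := A i e3) (b := ν i) (M.N x) (M.N_unit x (hGS i hx))
      (by rw [(A i).norm_map, norm_e3]) (hν.unit i)
    have h2 := H.nrm i x hx
    have h3 := hcl i
    linarith
  · have h1 := hp i
    rw [hA i]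
    change |P.f i p| ≤ _
    linarith
  · rw [hv3 i x hx, hA i]
    rfl
  · refine disjoint_left.2 fun x h0 h1 => ?_
    have := hν.not_both (i := false) (M.N_unit x (hGS false h0)) (H.nrm false x h0)
      (H.nrm true x h1)
    linarith
  · exact (measure_mono (sdiff_subset_sdiff_left (ball_subset_ball (by linarith)))).trans H.rest

end MW.CI
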