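import Pool.Agent.P.MP_064970_gt.SC

/-! Case I, row GALL: the cross pictures persist at all scales. -/

open MeasureTheory Set Filter Topology Metric
open scoped RealInnerProductSpace ENNReal ComplexConjugate Real

noncomputable section

namespace MW.CI

namespace GALL

theorem imp_ineq {ω ε' d CN u y : ℝ} (hCN : 0 < CN) (hω : 0 < ω) (hε' : ε' = ω / (128 * (1 + CN)))
    (hd : d ≤ ω / (1024 * CN)) (hu : u ≤ 2 * ε') (hy : y ≤ CN * (u + 16 * d)) :
    ε' + y ≤ ω / 32 := by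
  have h0 : 0 < ε' := by rw [hε']; positivity
  have h1 : (1 + CN) * ε' = ω / 128 := by rw [hε']; field_simp
  have h2 : CN * d ≤ ω / 1024 := by
    calc CN * d ≤ CN * (ω / (1024 * CN)) := mul_le_mul_of_nonneg_left hd hCN.le
      _ = ω / 1024 := by field_simp
  have h3 : CN * u ≤ CN * (2 * ε') := mul_le_mul_of_nonneg_left hu hCN.le
  linarith

/-- The picture at a scale between `R` and `2 R`. -/
theorem next (hANG : C_ANG) (hCMPN : C_CMPN) {M : Surf} {β ω d R s : ℝ} {ν ν' : Bool → E}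
    (hM : M.Mem) (hν : IsRef β ν) (hω : 0 < ω) (hωβ : ω ≤ β / 20000) (hd : 0 < d)
    (hdω : d ≤ β * ω / 12800) (hR : 0 < R) (hRs : R ≤ s) (hs : s ≤ 2 * R)
    (hX : M.Cross 0 R d (ν' false) (ν' true)) (hν' : ∀ i, ‖ν' i - ν i‖ ≤ ω / 32)
    (hc : (∃ n, M.FlatW 0 s d n) ∨ (∃ n, M.swap.FlatW 0 s d n) ∨
      ∃ a b, |⟪a, b⟫| < 1 ∧ M.Cross 0 s d a b) :
    ∃ ν'' : Bool → E, M.Cross 0 s d (ν'' false) (ν'' true) ∧ ∀ i, ‖ν'' i - ν i‖ ≤ ω / 16 := by
  have hβ := hν.pos
  have hβ1 := hν.le_one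
  have hs0 : 0 < s := by linarith
  have hdω' : d ≤ ω / 12800 := by linarith [mul_le_of_le_one_left hω.le hβ1]
  have hsR : s ≤ R / d := by
    rw [le_div_iff₀ hd]
    have h1 : s * d ≤ 2 * R * d := mul_le_mul_of_nonneg_right hs hd.le
    have h2 : 2 * R * d ≤ 2 * R * (1 / 2) := mul_le_mul_of_nonneg_left (by linarith) (by linarith)
    linarith
  have hss : ball (0 : E) s ⊆ ball 0 (s / d) :=
    ball_subset_ball (le_div_self hs0.le hd (by linarith))
  have hdRs : d * R ≤ d * s := mul_le_mul_of_nonneg_left hRs hd.le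
  have hnear : Near M ν ω 0 s := by
    refine near_of_cross (ζ := 0) hX (by positivity) hω.le (fun i => (hν' i).trans (by linarith))
      (fun i => by simp) (ball_subset_ball hsR) ?_
    have h1 : d * s ≤ ω / 2 * s := mul_le_mul_of_nonneg_right (by linarith) hs0.le
    linarith
  obtain ⟨hA1, hA2, hA3⟩ := hANG M β ω d s ν 0 hM hν hs0 hω hd (by linarith) hnear
  rcases hc with ⟨n, hn⟩ | ⟨n, hn⟩ | ⟨a, b, -, hab⟩
  · exact (hA1 n hn.unit fun x hx h => hn.side x (hss hx) h).elim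
  · exact (hA2 n hn.unit fun x hx h => hn.side x (hss hx) h).elim
  obtain ⟨ν'', hν'', hX''⟩ := hA3 a b hab
  refine ⟨ν'', hX'' 0 s d hab, fun i => ?_⟩
  have h1 : ‖ν' i - ν'' i‖ ≤ 200 * (d + d) / β := by
    refine hCMPN M β d d s ν ν'' ⟨ν', fun _ => 0⟩ 0 hM hν hs0 hd (by linarith) hd.le (by linarith)
      (hX'' 0 s d hab) (fun i => (hν'' i).trans (by linarith))
      ⟨fun i => (cross_bool hX i).1, fun i => (hν' i).trans (by linarith)⟩
      (fun i => by simp [Pl.f]; positivity) ?_ i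
    intro x hx
    rcases hX.near_plane ⟨hx.1, ball_subset_ball hsR hx.2⟩ with h | h
    · exact ⟨false, by simpa [Pl.f] using h.trans hdRs⟩
    · exact ⟨true, by simpa [Pl.f] using h.trans hdRs⟩
  have h2 : 200 * (d + d) / β ≤ ω / 32 := by
    rw [div_le_iff₀ hβ]
    linarith
  have h3 := norm_sub_le_norm_sub_add_norm_sub (ν'' i) (ν' i) (ν i)
  rw [norm_sub_rev (ν'' i) (ν' i)] at h3
  linarith [hν' i]

end GALL

open GALL in
theorem c_gall_of (hMONO : S_MONO) (hCONE : S_CONE) (hANG : C_ANG) (hCMPN : C_CMPN) (hNRM : C_NRM) (hBOOT : C_BOOT) : C_GALL := by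
  intro β hβ
  obtain ⟨ηB, hηB, HB⟩ := hBOOT β hβ
  obtain ⟨CN, hCN, HN⟩ := hNRM β hβ
  have hη : 0 < min ηB (β / 100) := by positivity
  obtain ⟨θ, ωB, -, -, hωB, HB⟩ := HB _ hη (min_le_left _ _)
  refine ⟨min (min ωB 1) (β / 20000), by positivity, fun ω hω hω₀ => ?_⟩
  have hωB' : ω ≤ ωB := hω₀.trans ((min_le_left _ _).trans (min_le_left _ _))
  have hω1 : ω ≤ 1 := hω₀.trans ((min_le_left _ _).trans (min_le_right _ _))
  have hωβ : ω ≤ β / 20000 := hω₀.trans (min_le_right _ _)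
  obtain ⟨ε', hε'⟩ : ∃ ε' : ℝ, ε' = ω / (128 * (1 + CN)) := ⟨_, rfl⟩
  have hε'0 : 0 < ε' := by rw [hε']; positivity
  have hε'1 : ε' ≤ 1 / 2 := by
    rw [hε', div_le_iff₀ (by positivity)]
    linarith
  obtain ⟨dB, hdB, HB⟩ := HB ω hω hωB' ε' hε'0
  refine ⟨min (min dB 1) (min (ω / (1024 * CN)) (β * ω / 12800)), by positivity,
    fun d hd hd₀ => ?_⟩
  have hdB' : d ≤ dB := hd₀.trans ((min_le_left _ _).trans (min_le_left _ _))
  have hd1 : d ≤ 1 := hd₀.trans ((min_le_left _ _).trans (min_le_right _ _))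
  have hdN : d ≤ ω / (1024 * CN) := hd₀.trans ((min_le_right _ _).trans (min_le_left _ _))
  have hdβ : d ≤ β * ω / 12800 := hd₀.trans ((min_le_right _ _).trans (min_le_right _ _))
  have hdβ' : d ≤ β / 12800 := by linarith [mul_le_of_le_one_right hβ.le hω1]
  obtain ⟨ε, hε, HC⟩ := hCONE d hd hd1
  refine ⟨ε, hε, fun M ν hM hν hX1 hG16 hΘ => ?_⟩
  have step : ∀ R : ℝ, 16 ≤ R → GOn M ν d ω 1 R → GOn M ν d ω 1 (2 * R) := by
    intro R hR hG s hs1 hs2
    rcases le_total s R with hsR | hRs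
    · exact hG s hs1 hsR
    have hR0 : 0 < R := by linarith
    obtain ⟨ν', hX, hν'⟩ := hG R (by linarith) le_rfl
    obtain ⟨P, m, HP⟩ := HB M ν d R hM hν hd hdB' hR hX1 hG
    have h0 : rr θ R 0 = R / 16 := by simp [rr]
    obtain ⟨hcore, hcl, hexc, hm⟩ := HP 0 (by rw [h0]; linarith)
    rw [h0] at hcore hexc hm
    have hm' : m 0 ≤ 2 * ε' * (R / 16) := by
      have h1 : ε' * 1 ≤ ε' * (R / 16) := mul_le_mul_of_nonneg_left (by linarith) hε'0.le
      rw [pow_zero] at hm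
      linarith
    have hm'' : 2 * ε' * (R / 16) ≤ 1 * (R / 16) :=
      mul_le_mul_of_nonneg_right (by linarith) (by linarith)
    have hpic := hcore.self.pic (R / 16) (by linarith) (by linarith)
    have hX' : M.Cross 0 (R / 16) (16 * d) (ν' false) (ν' true) := by
      refine cross_rescale hMONO hM hX (by positivity) (by linarith) (le_of_eq (by ring)) ?_
      exact div_le_div₀ hR0.le (by linarith) hd (by linarith)
    have hN := (HN M ν _ (R / 16) (m 0) 0 (P 0) hM hν hη (min_le_right _ _) (by linarith) hpic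
      (hcl.mono hε'1) hexc).2 ν' (16 * d) (by linarith) (by linarith)
      (fun i => (hν' i).trans (by linarith)) hX'
    have hu : m 0 / (R / 16) ≤ 2 * ε' := by rw [div_le_iff₀ (by linarith)]; exact hm'
    refine next hANG hCMPN hM hν hω hωβ hd hdβ hR0 hRs hs2 hX (fun i => ?_)
      (HC M hM 0 s (by linarith) ?_)
    · have h1 := imp_ineq hCN hω hε' hdN hu (hN i)
      have h2 := norm_sub_le_norm_sub_add_norm_sub (ν' i) ((P 0).n i) (ν i)
      rw [norm_sub_rev (ν' i) ((P 0).n i)] at h2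
      linarith [hcl.close i]
    · linarith [Θ_mono hMONO hM 0 one_pos hs1]
  have all : ∀ n : ℕ, GOn M ν d ω 1 (16 * 2 ^ n) := by
    intro n
    induction n with
    | zero => simpa using hG16
    | succ n ih =>
      have h1 : (1 : ℝ) ≤ 2 ^ n := one_le_pow₀ (by norm_num)
      have h2 := step _ (by linarith) ih
      rwa [show (2 : ℝ) * (16 * 2 ^ n) = 16 * 2 ^ (n + 1) by ring] at h2
  intro R s hs1 hs2
  obtain ⟨n, hn⟩ := pow_unbounded_of_one_lt R (one_lt_two (α := ℝ))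
  have h1 : (0 : ℝ) < 2 ^ n := by positivity
  exact all n s hs1 (by linarith)

end MW.CI
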