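import Pool.Agent.P.MP_064970_gt.SC

/-! Case I, row GRAPH. Sketch:
M' = M.sim A.symm 1 0 (Surf.isSim), x' = A.symm x, M'.N x' 2 = <N x, A e3>. LG gives u on ball
(prA A x) rho; y -> A (pt y (u y)) is continuous there, lies in S and at the centre in U, so for y
near the centre it lies in G: y in the image and v y = u y - c. Hence v = u - c near the centre;
gradient from the formula for fderiv u; fderiv v = fderiv u near the centre, continuous since u is
C^1. -/

open MeasureTheory Set Filter Topology Metric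
open scoped RealInnerProductSpace ENNReal ComplexConjugate Real

noncomputable section

namespace MW.CI

namespace GRAPH

theorem symm_two (A : E ≃ₗᵢ[ℝ] E) (x : E) : A.symm x 2 = ⟪x, A e3⟫ := by
  rw [← inner_e3, ← A.inner_map_map, A.apply_symm_apply]

/-- Near the projection of a point of the sheet, `v + c` is the local graph function. -/
theorem loc (hLG : S_LG) (M : Surf) (A : E ≃ₗᵢ[ℝ] E) (c : ℝ) (v : ℂ → ℝ) {U : Set E}
    (hU : IsOpen U) (hv : ∀ x ∈ M.S ∩ U, v (prA A x) = ⟪x, A e3⟫ - c) {x : E} (hx : x ∈ M.S ∩ U)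
    (hN : ⟪M.N x, A e3⟫ ≠ 0) :
    ∃ u : ℂ → ℝ, ContDiffAt ℝ 1 u (prA A x) ∧
      (∀ᶠ y in 𝓝 (prA A x), y ∈ prA A '' (M.S ∩ U) ∧ v y = u y - c) ∧
      ∀ w, fderiv ℝ u (prA A x) w = -⟪prA A (M.N x), w⟫ / ⟪M.N x, A e3⟫ := by
  have hs := M.isSim A.symm one_pos 0
  have hm : ∀ z, simMap A.symm 1 0 z = A.symm z := fun z => by simp [simMap]
  have hS : ∀ z, A.symm z ∈ (M.sim A.symm 1 0).S ↔ z ∈ M.S := fun z => by rw [← hm, hs.S]
  have hn : (M.sim A.symm 1 0).N (A.symm x) = A.symm (M.N x) := by rw [← hm x, hs.N]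
  obtain ⟨ρ, δ, u, hρ, hδ, hu, hux, h⟩ := hLG (M.sim A.symm 1 0) (A.symm x) ((hS x).2 hx.1)
    (by rw [hn, symm_two]; exact hN)
  change ContDiffOn ℝ _ u (ball (prA A x) ρ) at hu
  change u (prA A x) = _ at hux
  change ∀ y ∈ ball (prA A x) ρ, _ at h
  have hb : ball (prA A x) ρ ∈ 𝓝 (prA A x) := ball_mem_nhds _ hρ
  have hu1 : ContDiffAt ℝ 1 u (prA A x) := (hu.contDiffAt hb).of_le (by exact_mod_cast le_top)
  have hpt : pt (prA A x) (u (prA A x)) = A.symm x := by rw [hux]; exact pt_pr _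
  refine ⟨u, hu1, ?_, fun w => ?_⟩
  · have hc : ContinuousAt (fun y => A (pt y (u y))) (prA A x) :=
      A.continuous.continuousAt.comp
        (continuous_pt.continuousAt.comp (continuousAt_id.prodMk hu1.continuousAt))
    have hxU : U ∈ 𝓝 (A (pt (prA A x) (u (prA A x)))) := by
      rw [hpt, A.apply_symm_apply]; exact hU.mem_nhds hx.2
    filter_upwards [hb, hc.preimage_mem_nhds hxU] with y hy hyU
    have h1 : A (pt y (u y)) ∈ M.S := by
      rw [← hS, A.symm_apply_apply]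
      exact ((h y hy).2.2.2 _ (h y hy).1).2 rfl
    have h2 := hv _ ⟨h1, hyU⟩
    rw [prA_apply_pt, ← symm_two, A.symm_apply_apply, pt_two] at h2
    exact ⟨⟨_, ⟨h1, hyU⟩, prA_apply_pt A y _⟩, h2⟩
  · have h3 := (h _ (mem_ball_self hρ)).2.2.1 w
    rw [hpt, hn, symm_two] at h3
    exact h3

end GRAPH

theorem c_graph_of (hLG : S_LG) : C_GRAPH := by
  rintro M A c G v ⟨U, hU, rfl⟩ hN hv
  refine ⟨isOpen_iff_mem_nhds.2 ?_, fun x hx => ?_, ?_⟩
  · rintro _ ⟨x, hx, rfl⟩
    obtain ⟨u, -, h, -⟩ := GRAPH.loc hLG M A c v hU hv hx (hN x hx)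
    exact h.mono fun y hy => hy.1
  · obtain ⟨u, hu, h, hd⟩ := GRAPH.loc hLG M A c v hU hv hx (hN x hx)
    have h1 : HasFDerivAt v (fderiv ℝ u (prA A x)) (prA A x) :=
      ((hu.differentiableAt one_ne_zero).hasFDerivAt.sub_const c).congr_of_eventuallyEq
        (h.mono fun y hy => hy.2)
    rw [hasGradientAt_iff_hasFDerivAt]
    refine h1.congr_fderiv ?_
    ext1 w
    rw [hd, InnerProductSpace.toDual_apply_apply, real_inner_smul_left]
    ring
  · rintro _ ⟨x, hx, rfl⟩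
    obtain ⟨u, hu, h, -⟩ := GRAPH.loc hLG M A c v hU hv hx (hN x hx)
    have h1 : ContDiffAt ℝ 1 v (prA A x) :=
      (hu.sub contDiffAt_const).congr_of_eventuallyEq (h.mono fun y hy => hy.2)
    exact (h1.continuousAt_fderiv one_ne_zero).continuousWithinAt

end MW.CI
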