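import Pool.Agent.P.MP_064970_gt.SC

/-! Case I, row ITER. Sketch:
eta0 = min(beta^2/1000, sigma0 beta/20), sigma = 20 eta/beta, K = 200000/beta^2, r_k = theta^k r,
m >= b > 0. Recursion (Nat.rec with Classical.choose, or prove for all k the existence of a plane
with the invariant and choose): if Lam m <= r_k then P_k has unit normals, |n_k - n| <= 2C''m/r_k
(<= eta, so Close (2 eta) <= sigma/2), psi(P_k, r_k) <= C'm with C' = max(1+K0, 2CK), |P_k.f c -
P.f c| <= k C''m. Step: STRUCT at (c, r_k) with b0 = b (Core.mono), kappa = K b r_k, LL. For s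
take k with r_{k+1} < s <= r_k (exists_nat_pow_near_of_lt_one), exc_psi + Exc.sub with l =
1/theta, first clause of LL gives |P_k.f c| <= r_k <= s/theta, k <= 6 * 2^(k/4) <= 6 (r/s)^(1/4). -/

open MeasureTheory Set Filter Topology Metric
open scoped RealInnerProductSpace ENNReal ComplexConjugate Real

noncomputable section

namespace MW.CI

namespace ITER

theorem le_rpow {θ r s : ℝ} {k : ℕ} (h0 : 0 < θ) (h1 : θ ≤ 1 / 16) (hs : 0 < s)
    (h : s ≤ θ ^ k * r) : (k : ℝ) ≤ (r / s) ^ (1 / 4 : ℝ) := by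
  have h2 : θ ^ k * 16 ^ k ≤ 1 := by
    rw [← mul_pow]; exact pow_le_one₀ (by positivity) (by linarith)
  have r0 : 0 < r := (mul_pos_iff_of_pos_left (pow_pos h0 k)).mp (hs.trans_le h)
  have h3 : ((2 : ℝ) ^ k) ^ 4 ≤ r / s := by
    rw [le_div_iff₀ hs, ← pow_mul, mul_comm k 4, pow_mul]
    calc ((2 : ℝ) ^ 4) ^ k * s ≤ 16 ^ k * (θ ^ k * r) := by norm_num; exact h
      _ = θ ^ k * 16 ^ k * r := by ring
      _ ≤ r := mul_le_of_le_one_left r0.le h2
  have h4 : (k : ℝ) ≤ 2 ^ k := by exact_mod_cast (Nat.lt_two_pow_self).le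
  refine h4.trans ?_
  calc (2 : ℝ) ^ k = (((2 : ℝ) ^ k) ^ 4) ^ (1 / 4 : ℝ) := by
        rw [one_div]
        exact (Real.pow_rpow_inv_natCast (by positivity) (by norm_num : (4 : ℕ) ≠ 0)).symm
    _ ≤ _ := Real.rpow_le_rpow (by positivity) h3 (by norm_num)

end ITER

theorem c_iter_of (hMONO : S_MONO) (hSTRUCT : C_STRUCT) (hLL : C_LL) : C_ITER := by
  intro β β0
  obtain ⟨θ, K₀, σ₀, ε₀, C, θ0, θ1, K1, σ0, ε0, C1, LL⟩ := hLL β β0
  refine ⟨min (β ^ 2 / 1000) (σ₀ * β / 20), lt_min (by positivity) (by positivity),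
    fun η η0 hη => ?_⟩
  have η1 : η ≤ β ^ 2 / 1000 := hη.trans (min_le_left _ _)
  have η2 : 20 * η / β ≤ σ₀ := by
    have := hη.trans (min_le_right _ _)
    rw [div_le_iff₀ β0]; linarith
  set σ := 20 * η / β with hσ
  have σp : 0 < σ := by positivity
  set K := 200000 / β ^ 2 with hK
  have Kp : 0 < K := by positivity
  set C' := 1 + K₀ + 2 * C * K with hC'
  have CK : 0 < C * K := by positivity
  have C'p : 0 < C' := by rw [hC']; linarith
  set D := C * (C' + K) with hD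
  have Dp : 0 < D := by positivity
  have a1 : 0 < 1000 / β := by positivity
  have a2 : 0 < 2 * D / η := by positivity
  have a3 : 0 < (C' + K) / (ε₀ * σ) := by positivity
  have a4 : 0 < (1 / θ) ^ 2 * C' := by positivity
  have a5 : 0 < 1 / θ := by positivity
  set Λ := 1 + 1000 / β + 2 * D / η + (C' + K) / (ε₀ * σ) with hΛ
  refine ⟨Λ, 1 + (1 / θ) ^ 2 * C' + 2 * D + 1 / θ, by linarith, by linarith,
    fun M ν b R r m c P hM hν hc hP hE hb => ?_⟩
  have b0 : 0 < b := hc.self.pos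
  have m0 : 0 < m := by linarith
  have Λ0 : 0 < Λ * m := by positivity
  have step : ∀ (ρ : ℝ) (Q : Pl), Λ * m ≤ ρ → ρ ≤ r → (∀ i, ‖Q.n i‖ = 1) →
      (∀ i, ‖Q.n i - P.n i‖ ≤ 2 * D * m / ρ) → psi M β ν K₀ Q c ρ ≤ C' * m →
      (∀ i, |Q.f i c| ≤ ρ) ∧ ∃ Q' : Pl, (∀ i, ‖Q'.n i‖ = 1 ∧
        ρ * ‖Q'.n i - Q.n i‖ + |Q'.f i c - Q.f i c| ≤ D * m) ∧
        psi M β ν K₀ Q' c (θ * ρ) ≤ C' * m := by
    intro ρ Q h1 h2 h3 h4 h5
    have ρ0 : 0 < ρ := by linarith
    have l1 : 1000 / β * m ≤ ρ := le_trans (by gcongr; linarith) h1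
    have l2 : 2 * D / η * m ≤ ρ := le_trans (by gcongr; linarith) h1
    have l3 : (C' + K) / (ε₀ * σ) * m ≤ ρ := le_trans (by gcongr; linarith) h1
    rw [div_mul_eq_mul_div, div_le_iff₀ β0] at l1
    rw [div_mul_eq_mul_div, div_le_iff₀ η0] at l2
    rw [div_mul_eq_mul_div, div_le_iff₀ (by positivity)] at l3
    obtain ⟨G, hG, -⟩ := hSTRUCT M β η b R b ρ ν c hM hν η0 η1 le_rfl (by linarith)
      (hc.mono hMONO hM le_rfl h2)
    have cl : Q.Close ν (σ / 2) := by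
      refine ⟨h3, fun i => ?_⟩
      have t1 := norm_sub_le_norm_sub_add_norm_sub (Q.n i) (P.n i) (ν i)
      have t2 : 2 * D * m / ρ ≤ η := by rw [div_le_iff₀ ρ0]; linarith
      have t3 : 4 * η ≤ σ := by
        rw [hσ, le_div_iff₀ β0]; nlinarith [hν.le_one]
      linarith [h4 i, hP.close i]
    have Kb : K * b ≤ K * m := by gcongr
    have Km : 0 < K * m := by positivity
    have Cm : 0 < C' * m := by positivity
    obtain ⟨u1, Q', u2, u3⟩ := LL M ν σ (K * b * ρ) ρ c G Q hM hν σp η2 ρ0 (by positivity) hG cl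
      (by linarith) (by
        calc K * b * ρ ≤ (ε₀ * σ * ρ) * ρ := mul_le_mul_of_nonneg_right (by linarith) ρ0.le
          _ = _ := by ring)
    rw [mul_div_cancel_right₀ _ ρ0.ne'] at u2 u3
    refine ⟨u1, Q', fun i => ⟨(u2 i).1, (u2 i).2.trans ?_⟩, u3.trans ?_⟩
    · rw [hD, mul_assoc]
      gcongr
      linarith
    · have t1 : θ / 2 * psi M β ν K₀ Q c ρ ≤ 1 / 2 * (C' * m) :=
        mul_le_mul (by linarith) h5 (psi_nonneg M β ν Q c (by linarith) ρ0.le) (by norm_num)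
      have t2 : C * (K * b) ≤ C * (K * m) := by gcongr
      have t3 : 2 * C * K * m ≤ C' * m := by gcongr; linarith
      linarith
  have tower : ∀ k : ℕ, Λ * m ≤ θ ^ k * r → ∃ Q : Pl, (∀ i, ‖Q.n i‖ = 1) ∧
      (∀ i, ‖Q.n i - P.n i‖ ≤ 2 * D * m / (θ ^ k * r)) ∧ psi M β ν K₀ Q c (θ ^ k * r) ≤ C' * m ∧
      ∀ i, |Q.f i c - P.f i c| ≤ k * (D * m) := by
    intro k
    induction k with
    | zero =>
      intro h
      rw [pow_zero, one_mul] at h ⊢
      have r0 : 0 < r := by linarith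
      refine ⟨P, hP.unit, fun i => ?_, (hE.psi_le (by linarith) r0).trans ?_, fun i => by simp⟩
      · rw [sub_self, norm_zero]; positivity
      · gcongr; linarith
    | succ k ih =>
      intro h
      have e : θ ^ (k + 1) * r = θ * (θ ^ k * r) := by ring
      rw [e] at h ⊢
      have ρ0 : 0 < θ ^ k * r := (mul_pos_iff_of_pos_left θ0).mp (Λ0.trans_le h)
      have r0 : 0 < r := (mul_pos_iff_of_pos_left (pow_pos θ0 k)).mp ρ0
      have h1 : Λ * m ≤ θ ^ k * r := by nlinarith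
      have h2 : θ ^ k * r ≤ r := mul_le_of_le_one_left r0.le (pow_le_one₀ θ0.le (by linarith))
      obtain ⟨Q, q1, q2, q3, q4⟩ := ih h1
      obtain ⟨-, Q', u1, u2⟩ := step _ Q h1 h2 q1 q2 q3
      set ρ := θ ^ k * r with hρ
      refine ⟨Q', fun i => (u1 i).1, fun i => ?_, u2, fun i => ?_⟩
      · have t1 := norm_sub_le_norm_sub_add_norm_sub (Q'.n i) (Q.n i) (P.n i)
        have t2 := q2 i
        have t3 := (u1 i).2
        have t4 := abs_nonneg (Q'.f i c - Q.f i c)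
        rw [le_div_iff₀ ρ0] at t2
        rw [le_div_iff₀ (by positivity)]
        have t5 : ‖Q'.n i - P.n i‖ * ρ ≤ 3 * (D * m) := by nlinarith
        have t6 : 0 < D * m := by positivity
        calc ‖Q'.n i - P.n i‖ * (θ * ρ) = θ * (‖Q'.n i - P.n i‖ * ρ) := by ring
          _ ≤ 1 / 2000 * (3 * (D * m)) := by gcongr
          _ ≤ _ := by linarith
      · have t1 := abs_sub_le (Q'.f i c) (Q.f i c) (P.f i c)
        have t2 := (u1 i).2
        have t3 : 0 ≤ ρ * ‖Q'.n i - Q.n i‖ := by positivity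
        push_cast
        linarith [q4 i]
  have main : ∀ s : ℝ, ∃ Q : Pl, Λ * m ≤ s → s ≤ r →
      Exc M β ν Q c s ((1 + (1 / θ) ^ 2 * C' + 2 * D + 1 / θ) * m) ∧ ∀ i, ‖Q.n i‖ = 1 ∧
      ‖Q.n i - P.n i‖ ≤ (1 + (1 / θ) ^ 2 * C' + 2 * D + 1 / θ) * m / s ∧
      |Q.f i c - P.f i c| ≤ (1 + (1 / θ) ^ 2 * C' + 2 * D + 1 / θ) * m * (r / s) ^ (1 / 4 : ℝ) ∧
      |Q.f i c| ≤ (1 + (1 / θ) ^ 2 * C' + 2 * D + 1 / θ) * s := by
    intro s
    by_cases h : Λ * m ≤ s ∧ s ≤ r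
    swap
    · exact ⟨P, fun h1 h2 => absurd ⟨h1, h2⟩ h⟩
    obtain ⟨h1, h2⟩ := h
    have s0 : 0 < s := by linarith
    have r0 : 0 < r := by linarith
    obtain ⟨k, k1, k2⟩ := exists_nat_pow_near_of_lt_one (div_pos s0 r0)
      ((div_le_one r0).mpr h2) θ0 (by linarith : θ < 1)
    rw [div_le_iff₀ r0] at k2
    rw [lt_div_iff₀ r0] at k1
    have ρ0 : 0 < θ ^ k * r := by positivity
    have h3 : θ ^ k * r ≤ r := mul_le_of_le_one_left r0.le (pow_le_one₀ θ0.le (by linarith))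
    have h4 : θ ^ k * r ≤ 1 / θ * s := by
      rw [one_div_mul_eq_div, le_div_iff₀ θ0]
      calc θ ^ k * r * θ = θ ^ (k + 1) * r := by ring
        _ ≤ s := k1.le
    obtain ⟨Q, q1, q2, q3, q4⟩ := tower k (h1.trans k2)
    obtain ⟨u1, -⟩ := step _ Q (h1.trans k2) h3 q1 q2 q3
    refine ⟨Q, fun _ _ => ⟨?_, fun i => ⟨q1 i, (q2 i).trans ?_, (q4 i).trans ?_,
      (u1 i).trans (h4.trans ?_)⟩⟩⟩
    · have t1 := ((exc_psi M β ν Q c K1 ρ0).mono ρ0.le q3).sub (l := 1 / θ) hM ρ0 s0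
        (ball_subset_ball k2) (by rw [le_div_iff₀ θ0]; linarith) h4
      refine t1.mono s0.le ?_
      rw [← mul_assoc]
      gcongr
      linarith
    · gcongr
      linarith
    · have t1 := ITER.le_rpow θ0 (by linarith) s0 k2
      rw [mul_comm]
      gcongr
      linarith
    · gcongr
      linarith
  choose Q hQ using main
  exact ⟨Q, hQ⟩

end MW.CI
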