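import Pool.Agent.P.MP_064970_gt.SC

/-! Case I, row KER. Sketch:
Copy l, F, Z, radial, d1, d2 from the team-store file MWD_GK.lean (into your own sub-namespace). k
y = Z s (|y|^2), Laplacian = lam(|y|^2/s^2)/s^2 - lam(|y|^2), Dk y = 2 F s (|y|^2) <y,.>. Since 0
<= u l(u) <= 1/pi: |Dk y| <= 1/(2 pi |y|) on the unit disc, 0 outside; 1/|y| is integrable on the
disc (integrableOn_ball_of_norm_le_rpow, or lintegral_k1_ball in the team-store file
MWPL_Calc.lean). Identity: Dk(y-x)(gradient v y) = sum over e in {1,I} of d_e k (y-x) * fderiv v y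
e; a.e. fderiv v y e = lineDeriv (Rademacher: LipschitzWith.ae_differentiableAt);
LipschitzWith.integral_lineDeriv_mul_eq for the C^1 compactly supported d_e k. -/

open MeasureTheory Set Filter Topology Metric
open scoped RealInnerProductSpace ENNReal ComplexConjugate Real

noncomputable section

namespace MW.CI

namespace KER

/-- The mean of `lam` over `[0, u]`. -/
def l (u : ℝ) : ℝ := (4 - 6 * u + 4 * u ^ 2 - u ^ 3) / π + (u - 1) * lam (2 - u) / (4 * u)

theorem l_le {u : ℝ} (hu : u ≤ 1) : l u = (4 - 6 * u + 4 * u ^ 2 - u ^ 3) / π := by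
  rw [l, lam_eq_zero (by linarith), mul_zero, zero_div, add_zero]

theorem l_ge {u : ℝ} (hu : 1 ≤ u) : l u = 1 / (π * u) := by
  have h0 : u ≠ 0 := by positivity
  have h1 : max (1 - (2 - u)) 0 = u - 1 := by rw [max_eq_left (by linarith)]; ring
  rw [l, lam, h1]
  field_simp
  ring

theorem contDiff_l : ContDiff ℝ 1 l := by
  have hp : ContDiff ℝ 1 fun u : ℝ => (4 - 6 * u + 4 * u ^ 2 - u ^ 3) / π := by fun_prop
  have hl : ContDiff ℝ 1 lam := contDiff_lam.of_le (by norm_num)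
  refine contDiff_iff_contDiffAt.2 fun u => ?_
  rcases lt_or_ge u 1 with h | h
  · refine hp.contDiffAt.congr_of_eventuallyEq ?_
    filter_upwards [Iio_mem_nhds h] with v hv using l_le (le_of_lt hv)
  · refine hp.contDiffAt.add (ContDiffAt.div ?_ (by fun_prop) (by positivity))
    exact ((contDiff_id.sub contDiff_const).mul
      (hl.comp (contDiff_const.sub contDiff_id))).contDiffAt

theorem mul_l (u : ℝ) : u * l u = 1 / π - (1 - u) * lam u / 4 := by
  rcases le_total u 1 with h | h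
  · rw [l_le h, lam, max_eq_left (by linarith)]
    field_simp
    ring
  · have h0 : u ≠ 0 := by positivity
    rw [l_ge h, lam_eq_zero h]
    field_simp
    ring

theorem hasDerivAt_l (u : ℝ) : HasDerivAt l (deriv l u) u :=
  (contDiff_l.differentiable one_ne_zero u).hasDerivAt

theorem l_add (u : ℝ) : l u + u * deriv l u = lam u := by
  have h1 : HasDerivAt (fun u => u * l u) (1 * l u + u * deriv l u) u :=
    (hasDerivAt_id' u).mul (hasDerivAt_l u)
  have h2 := ((((hasDerivAt_id' u).const_sub 1).mul (hasDerivAt_lam u)).div_const 4).const_sub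
    (1 / π)
  have h3 : (fun u => u * l u) = fun u => 1 / π - (1 - u) * lam u / 4 := funext mul_l
  rw [h3] at h1
  have h4 := h1.unique h2
  rw [one_mul] at h4
  rw [h4, lam]
  rcases le_total u 1 with h | h
  · rw [max_eq_left (by linarith)]
    ring
  · rw [max_eq_right (by linarith)]
    ring

/-- The derivative of the radial profile. -/
def F (s t : ℝ) : ℝ := (l (t / s ^ 2) / s ^ 2 - l t) / 4

/-- The radial profile. -/
def Z (s t : ℝ) : ℝ := ∫ u in (1 : ℝ)..t, F s u

variable {s t : ℝ}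

theorem contDiff_F (s : ℝ) : ContDiff ℝ 1 (F s) :=
  (((contDiff_l.comp (contDiff_id.div_const _)).div_const _).sub contDiff_l).div_const _

theorem hasDerivAt_F (s t : ℝ) : HasDerivAt (F s) (deriv (F s) t) t :=
  ((contDiff_F s).differentiable one_ne_zero t).hasDerivAt

theorem F_add (hs : 0 < s) (t : ℝ) :
    4 * (F s t + t * deriv (F s) t) = lam (t / s ^ 2) / s ^ 2 - lam t := by
  have h1 : HasDerivAt (F s) ((deriv l (t / s ^ 2) * (1 / s ^ 2) / s ^ 2 - deriv l t) / 4) t :=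
    (((((hasDerivAt_l (t / s ^ 2)).comp t ((hasDerivAt_id' t).div_const (s ^ 2))).div_const
      (s ^ 2))).sub (hasDerivAt_l t)).div_const 4
  rw [h1.deriv, ← l_add, ← l_add, F]
  field_simp
  ring

theorem F_zero (hs : 0 < s) (hs1 : s ≤ 1) (ht : 1 ≤ t) : F s t = 0 := by
  have h2 : 0 < s ^ 2 := by positivity
  have h3 : s ^ 2 ≤ 1 := pow_le_one₀ hs.le hs1
  have h0 : t ≠ 0 := by positivity
  rw [F, l_ge ht, l_ge (by rw [le_div_iff₀ h2]; linarith)]
  field_simp
  ring

theorem hasDerivAt_Z (s t : ℝ) : HasDerivAt (Z s) (F s t) t :=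
  ((contDiff_F s).continuous.integral_hasStrictDerivAt 1 t).hasDerivAt

theorem contDiff_Z (s : ℝ) : ContDiff ℝ 2 (Z s) := by
  have h : deriv (Z s) = F s := funext fun t => (hasDerivAt_Z s t).deriv
  rw [show (2 : WithTop ℕ∞) = 1 + 1 from rfl, contDiff_succ_iff_deriv, h]
  exact ⟨fun t => (hasDerivAt_Z s t).differentiableAt, by simp, contDiff_F s⟩

theorem Z_zero (hs : 0 < s) (hs1 : s ≤ 1) (ht : 1 ≤ t) : Z s t = 0 := by
  rw [Z, intervalIntegral.integral_congr (g := fun _ => 0), intervalIntegral.integral_zero]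
  intro u hu
  rw [uIcc_of_le ht] at hu
  exact F_zero hs hs1 hu.1

theorem radial {g : ℝ → ℝ} {g' : ℝ} {y w : ℂ} (h : HasDerivAt g g' (‖w - y‖ ^ 2)) :
    HasFDerivAt (fun w => g (‖w - y‖ ^ 2)) ((2 * g') • innerSL ℝ (w - y)) w := by
  have h1 := h.comp_hasFDerivAt w ((hasFDerivAt_id w).sub_const y).norm_sq
  refine HasFDerivAt.congr_fderiv h1 (ContinuousLinearMap.ext fun v => ?_)
  show g' * ((2 : ℕ) • ⟪w - y, v⟫) = 2 * g' * ⟪w - y, v⟫
  rw [two_nsmul]
  ring

theorem inner_sq (v : ℂ) : ⟪(1 : ℂ), v⟫ ^ 2 + ⟪Complex.I, v⟫ ^ 2 = ‖v‖ ^ 2 := by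
  rw [Complex.sq_norm, Complex.normSq_apply]
  simp [Complex.inner]
  ring

theorem abs_mul_l {u : ℝ} (hu : 0 ≤ u) : 0 ≤ u * l u ∧ u * l u ≤ 1 / π := by
  have h0 := lam_nonneg u
  have h1 := lam_le hu
  have h2 : 4 / π = 4 * (1 / π) := by ring
  rw [mul_l]
  rcases le_total u 1 with h | h
  · have h3 : 0 ≤ (1 - u) * lam u := mul_nonneg (sub_nonneg.2 h) h0
    have h4 : 0 ≤ u * lam u := mul_nonneg hu h0
    constructor <;> nlinarith
  · rw [lam_eq_zero h, mul_zero, zero_div, sub_zero]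
    exact ⟨by positivity, le_rfl⟩

theorem abs_tF (hs : 0 < s) (ht : 0 ≤ t) : |t * F s t| ≤ 1 / 2 := by
  have h1 := abs_mul_l (u := t / s ^ 2) (by positivity)
  have h2 := abs_mul_l ht
  have h3 : 1 / π ≤ 1 := by
    rw [div_le_one Real.pi_pos]
    linarith [Real.pi_gt_three]
  have h4 : t * F s t = (t / s ^ 2 * l (t / s ^ 2) - t * l t) / 4 := by
    rw [F]
    ring
  rw [h4, abs_le]
  constructor <;> linarith [h1.1, h1.2, h2.1, h2.2]

/-- The kernel. -/
def k (s : ℝ) (y : ℂ) : ℝ := Z s (‖y - 0‖ ^ 2)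

theorem fderiv_k (s : ℝ) (w : ℂ) : fderiv ℝ (k s) w = (2 * F s (‖w‖ ^ 2)) • innerSL ℝ w := by
  have h := (radial (y := 0) (w := w) (hasDerivAt_Z s _)).fderiv
  rw [sub_zero] at h
  exact h

theorem norm_fderiv_k (hs : 0 < s) (hs1 : s ≤ 1) (w : ℂ) :
    ‖fderiv ℝ (k s) w‖ ≤ (ball (0 : ℂ) 1).indicator (fun y => ‖y‖⁻¹) w := by
  rw [fderiv_k, norm_smul, innerSL_apply_norm, Real.norm_eq_abs]
  by_cases hw : w ∈ ball (0 : ℂ) 1
  · rw [indicator_of_mem hw]
    rcases (norm_nonneg w).eq_or_lt with h | h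
    · rw [← h]
      simp
    · have h1 := abs_tF hs (sq_nonneg ‖w‖)
      rw [abs_mul, abs_of_nonneg (sq_nonneg ‖w‖)] at h1
      rw [abs_mul, abs_two, ← one_div, le_div_iff₀ h]
      nlinarith
  · rw [indicator_of_notMem hw, F_zero hs hs1 (one_le_pow₀ (by simpa using hw))]
    simp

theorem integrable_inv : Integrable ((ball (0 : ℂ) 1).indicator fun y => ‖y‖⁻¹) := by
  rw [integrable_indicator_iff measurableSet_ball]
  refine integrableOn_ball_of_norm_le_rpow (C := 1) (α := 1) (by simp) (by simp)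
    (Eventually.of_forall fun y => ?_) (by fun_prop : Measurable fun y : ℂ => ‖y‖⁻¹).aestronglyMeasurable
  rw [Real.rpow_neg_one, one_mul, norm_inv, norm_norm]

/-- The directional derivative of the translated kernel. -/
def g (s : ℝ) (x e w : ℂ) : ℝ := 2 * F s (‖w - x‖ ^ 2) * ⟪e, w - x⟫

theorem contDiff_g (s : ℝ) (x e : ℂ) : ContDiff ℝ 1 (g s x e) :=
  (contDiff_const.mul ((contDiff_F s).comp ((contDiff_id.sub contDiff_const).norm_sq ℝ))).mul
    (contDiff_const.inner ℝ (contDiff_id.sub contDiff_const))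

theorem supp_g (hs : 0 < s) (hs1 : s ≤ 1) (x e : ℂ) : HasCompactSupport (g s x e) := by
  refine HasCompactSupport.intro (isCompact_closedBall x 1) fun w hw => ?_
  rw [mem_closedBall, dist_eq_norm, not_le] at hw
  rw [g, F_zero hs hs1 (one_le_pow₀ hw.le), mul_zero, zero_mul]

theorem fderiv_g (s : ℝ) (x e w : ℂ) (he : ‖e‖ = 1) : fderiv ℝ (g s x e) w e =
    4 * deriv (F s) (‖w - x‖ ^ 2) * ⟪e, w - x⟫ ^ 2 + 2 * F s (‖w - x‖ ^ 2) := by
  have h1 := ((radial (hasDerivAt_F s (‖w - x‖ ^ 2))).const_mul 2).mul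
    ((innerSL ℝ e).hasFDerivAt.comp w ((hasFDerivAt_id w).sub_const x))
  have h3 : ⟪e, e⟫ = (1 : ℝ) := by rw [real_inner_self_eq_norm_sq, he, one_pow]
  refine (congrArg (fun L : ℂ →L[ℝ] ℝ => L e) h1.fderiv).trans ?_
  show 2 * F s (‖w - x‖ ^ 2) * ⟪e, e⟫ +
    ⟪e, w - x⟫ * (2 * (2 * deriv (F s) (‖w - x‖ ^ 2) * ⟪w - x, e⟫)) = _
  rw [h3, real_inner_comm e]
  ring

theorem lap_g (hs : 0 < s) (x w : ℂ) :
    fderiv ℝ (g s x 1) w 1 + fderiv ℝ (g s x Complex.I) w Complex.I
      = lam (‖w - x‖ ^ 2 / s ^ 2) / s ^ 2 - lam (‖w - x‖ ^ 2) := by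
  rw [fderiv_g s x 1 w norm_one, fderiv_g s x _ w Complex.norm_I, ← F_add hs]
  linear_combination 4 * deriv (F s) (‖w - x‖ ^ 2) * inner_sq (w - x)

theorem split (s : ℝ) (v : ℂ → ℝ) (x y : ℂ) : fderiv ℝ (k s) (y - x) (gradient v y)
    = fderiv ℝ v y 1 * g s x 1 y + fderiv ℝ v y Complex.I * g s x Complex.I y := by
  have h1 : y - x = ⟪(1 : ℂ), y - x⟫ • (1 : ℂ) + ⟪Complex.I, y - x⟫ • Complex.I := by
    apply Complex.ext <;> simp [Complex.inner]
  have h2 : ⟪y - x, gradient v y⟫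
      = ⟪(1 : ℂ), y - x⟫ * fderiv ℝ v y 1 + ⟪Complex.I, y - x⟫ * fderiv ℝ v y Complex.I := by
    rw [real_inner_comm, inner_gradient_left]
    conv_lhs => rw [h1]
    rw [map_add, map_smul, map_smul, smul_eq_mul, smul_eq_mul]
  rw [fderiv_k]
  show 2 * F s (‖y - x‖ ^ 2) * ⟪y - x, gradient v y⟫ = _
  rw [h2, g, g]
  ring

theorem parts {v φ : ℂ → ℝ} {K : NNReal} (hv : LipschitzWith K v) (hφ : ContDiff ℝ 1 φ)
    (hc : HasCompactSupport φ) (e : ℂ) :
    Integrable (fun y => fderiv ℝ v y e * φ y) ∧ Integrable (fun y => fderiv ℝ φ y e * v y) ∧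
      ∫ y, fderiv ℝ v y e * φ y = -∫ y, fderiv ℝ φ y e * v y := by
  obtain ⟨D, hD⟩ := hφ.lipschitzWith_of_hasCompactSupport hc one_ne_zero
  have hae : (fun y => lineDeriv ℝ v y e * φ y) =ᵐ[volume] fun y => fderiv ℝ v y e * φ y := by
    filter_upwards [hv.ae_differentiableAt (μ := volume)] with y hy
    rw [hy.lineDeriv_eq_fderiv]
  refine ⟨?_, ?_, ?_⟩
  · exact ((hv.locallyIntegrable_lineDeriv e).integrable_smul_right_of_hasCompactSupport
      hφ.continuous hc).congr hae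
  · refine Continuous.integrable_of_hasCompactSupport ?_ ?_
    · exact ((hφ.continuous_fderiv one_ne_zero).clm_apply continuous_const).mul hv.continuous
    · exact (hc.fderiv_apply ℝ e).mul_right
  · rw [← integral_congr_ae hae, hv.integral_lineDeriv_mul_eq hD hc, ← integral_neg]
    refine integral_congr_ae (Eventually.of_forall fun y => ?_)
    beta_reduce
    rw [(hφ.differentiable one_ne_zero y).lineDeriv_eq_fderiv, map_neg, neg_mul]

theorem integrable_lam_mul {v : ℂ → ℝ} (hv : Continuous v) (x : ℂ) (hs : 0 < s) :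
    Integrable fun y => lam (‖y - x‖ ^ 2 / s ^ 2) * v y := by
  refine Continuous.integrable_of_hasCompactSupport
    ((contDiff_lam.continuous.comp (by fun_prop)).mul hv) ?_
  refine HasCompactSupport.intro (isCompact_closedBall x s) fun w hw => ?_
  rw [mem_closedBall, dist_eq_norm, not_le] at hw
  rw [lam_eq_zero, zero_mul]
  rw [le_div_iff₀ (by positivity), one_mul]
  exact pow_le_pow_left₀ hs.le hw.le 2

end KER

theorem c_ker_of : C_KER := by
  have hI : 0 ≤ ∫ w, (ball (0 : ℂ) 1).indicator (fun y => ‖y‖⁻¹) w :=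
    integral_nonneg fun w => indicator_nonneg (fun y _ => by positivity) w
  refine ⟨(∫ w, (ball (0 : ℂ) 1).indicator (fun y => ‖y‖⁻¹) w) + 1, by linarith,
    fun s hs hs1 => ⟨KER.k s, ?_, fun y hy => ?_, ?_, fun v σ hv x => ?_⟩⟩
  · exact ((KER.contDiff_Z s).of_le (by norm_num)).comp
      ((contDiff_id.sub contDiff_const).norm_sq ℝ)
  · exact KER.Z_zero hs hs1 (one_le_pow₀ (by rwa [sub_zero]))
  · have h := integral_mono_of_nonneg (μ := volume)
      (Eventually.of_forall fun w => norm_nonneg (fderiv ℝ (KER.k s) w)) KER.integrable_inv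
      (Eventually.of_forall (KER.norm_fderiv_k hs hs1))
    linarith
  · have hL : LipschitzWith (Real.toNNReal σ) v := LipschitzWith.of_dist_le' fun y z => by
      rw [Real.dist_eq, dist_eq_norm]
      exact hv y z
    obtain ⟨a1, a2, a3⟩ := KER.parts hL (KER.contDiff_g s x 1) (KER.supp_g hs hs1 x 1) 1
    obtain ⟨b1, b2, b3⟩ := KER.parts hL (KER.contDiff_g s x Complex.I)
      (KER.supp_g hs hs1 x Complex.I) Complex.I
    have c1 := KER.integrable_lam_mul hL.continuous x hs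
    have c2 := KER.integrable_lam_mul hL.continuous x one_pos
    simp only [one_pow, div_one] at c2
    have e : ∀ y, fderiv ℝ (KER.g s x 1) y 1 * v y
        + fderiv ℝ (KER.g s x Complex.I) y Complex.I * v y
        = lam (‖y - x‖ ^ 2 / s ^ 2) * v y / s ^ 2 - lam (‖y - x‖ ^ 2) * v y := fun y => by
      rw [← add_mul, KER.lap_g hs]
      ring
    have h := integral_add a2 b2
    simp only [e] at h
    rw [integral_sub (c1.div_const _) c2, integral_div] at h
    simp only [KER.split]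
    rw [integral_add a1 b1, a3, b3]
    linarith

end MW.CI
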