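import Pool.Agent.P.MP_064970_gt.SC

/-! Case I, row KEYA. Sketch:
eta0 = min of the eta0 and beta/100, omega0 = min(eta, beta/100000). m = Cs b. Tower Q (ITER). Pf
rho = Q (8 rho), K' = K C Cs + C Cs, a = Lam5 >= 1 so large that for rho >= a b: Lam_T m <= 8 rho,
C m/(8 rho) <= omega/8, Lam_BCD C m <= 8 rho, Lam_CH m <= rho. DatOn M nu eta omega K' b c (a b)
(r/8) Pf (BCD at (c, 8 rho) with level C m, Dat.mono; near from GoodOn). UP with Lam3 = 20/beta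
gives Lam4; Lam4' = max Lam4 a: a point good on [b/2, Lam4' b] is good on [b/2, r/16]. LBX with C
= 2 C_CH Cs^2, Lam = 200 Lam1, CHAIN at the s found; c0 = C_CH Cs^2 (1/Lam1)^(1/12). -/

open MeasureTheory Set Filter Topology Metric
open scoped RealInnerProductSpace ENNReal ComplexConjugate Real

noncomputable section

namespace MW.CI

theorem c_keya_of (hMONO : S_MONO) (hITER : C_ITER) (hBCD : C_BCD) (hCHAIN : C_CHAIN) (hUP : C_UP) (hLBX : C_LBX) : C_KEYA := by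
  intro β hβ
  obtain ⟨η₁, hη₁, hI⟩ := hITER β hβ
  obtain ⟨η₂, hη₂, hB⟩ := hBCD β hβ
  obtain ⟨η₃, hη₃, hC⟩ := hCHAIN β hβ
  refine ⟨min (min η₁ η₂) (min η₃ (β / 100)), by positivity, fun η hη hηle => ?_⟩
  have h1 : η ≤ η₁ := hηle.trans ((min_le_left _ _).trans (min_le_left _ _))
  have h2 : η ≤ η₂ := hηle.trans ((min_le_left _ _).trans (min_le_right _ _))
  have h3 : η ≤ η₃ := hηle.trans ((min_le_right _ _).trans (min_le_left _ _))
  have h4 : η ≤ β / 100 := hηle.trans ((min_le_right _ _).trans (min_le_right _ _))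
  obtain ⟨ΛT, C, hΛT, hC1, hI⟩ := hI η hη h1
  obtain ⟨ΛB, K, hΛB, hK, hB⟩ := hB η hη h2
  obtain ⟨ΛC, CC, hΛC, hCC, hC⟩ := hC η hη h3
  refine ⟨min η (β / 100000), by positivity, fun ω hω hωle Cs hCs => ?_⟩
  have hω1 : ω ≤ η := hωle.trans (min_le_left _ _)
  have hω2 : ω ≤ β / 100000 := hωle.trans (min_le_right _ _)
  have hCs0 : 0 < Cs := by linarith
  have hCCs : 1 ≤ C * Cs := one_le_mul_of_one_le_of_one_le hC1 hCs
  obtain ⟨K', hK'⟩ : ∃ K' : ℝ, K' = K * (C * Cs) := ⟨_, rfl⟩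
  have hK1 : C * Cs ≤ K' := by rw [hK']; nlinarith
  have hK2 : 1 ≤ K' := hCCs.trans hK1
  obtain ⟨a, ha⟩ : ∃ a : ℝ, a = 1 + ΛT * Cs + C * Cs / ω + ΛB * (C * Cs) + ΛC * Cs := ⟨_, rfl⟩
  have p1 : 0 ≤ ΛT * Cs := by positivity
  have p2 : 0 ≤ C * Cs / ω := by positivity
  have p3 : 0 ≤ ΛB * (C * Cs) := by positivity
  have p4 : 0 ≤ ΛC * Cs := by positivity
  have ha1 : 1 ≤ a := by linarith
  obtain ⟨Λ₄, hΛ₄, hU⟩ := hUP β ω K' (20 / β) hω (by linarith) hK2 (by positivity)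
  obtain ⟨Λ₁, hΛ₁, hL⟩ := hLBX β η ω K' a (max Λ₄ a) (2 * CC * Cs ^ 2) h4 hω hω2 hK2 ha1
  have hΛ₁0 : 0 < Λ₁ := by linarith
  refine ⟨CC * Cs ^ 2 * (1 / Λ₁) ^ (1 / 12 : ℝ), 200 * Λ₁, by positivity, by linarith, ?_⟩
  intro M ν b₀ b R r c P hM hν hcore hb₀ hP hexc hgood hbad hΛ
  have hb : 0 < b := hgood.pos
  have hΛb : 0 < Λ₁ * b := by positivity
  have hr : 0 < r := by linarith
  have hR : 5 * r ≤ R := hcore.le
  obtain ⟨Q, hQ⟩ := hI M ν b₀ R r (Cs * b) c P hM hν hcore (hP.mono (by linarith)) hexc hb₀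
  have hsc : ∀ ρ, a * b ≤ ρ → b ≤ ρ ∧ ΛT * (Cs * b) ≤ ρ ∧ C * (Cs * b) ≤ ω * ρ ∧
      ΛB * (C * (Cs * b)) ≤ ρ ∧ ΛC * (Cs * b) ≤ ρ := by
    intro ρ hρ
    have q1 := mul_nonneg p1 hb.le
    have q2 := mul_nonneg p2 hb.le
    have q3 := mul_nonneg p3 hb.le
    have q4 := mul_nonneg p4 hb.le
    have e : a * b = b + ΛT * Cs * b + C * Cs / ω * b + ΛB * (C * Cs) * b + ΛC * Cs * b := by
      rw [ha]; ring
    refine ⟨by linarith, by linarith, ?_, by linarith, by linarith⟩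
    have h5 : C * Cs / ω * b ≤ ρ := by linarith
    have h6 := mul_le_mul_of_nonneg_left h5 hω.le
    have e2 : ω * (C * Cs / ω * b) = C * (Cs * b) := by field_simp
    linarith
  have hclose : ∀ ρ, a * b ≤ ρ → ρ ≤ r / 8 → (Q (8 * ρ)).Close ν (ω / 4) := by
    intro ρ hρ hρ'
    obtain ⟨s1, s2, s3, s4, s5⟩ := hsc ρ hρ
    have hρ0 : 0 < ρ := by linarith
    obtain ⟨-, hq⟩ := hQ (8 * ρ) (by linarith) (by linarith)
    have := hP.trans (Q := Q (8 * ρ)) (δ' := ω / 8) (fun i => (hq i).1) fun i => by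
      refine (hq i).2.1.trans ?_
      rw [div_le_iff₀ (by positivity)]
      linarith
    exact this.mono (by linarith)
  have hD : DatOn M ν η ω K' b c (a * b) (r / 8) (fun ρ => Q (8 * ρ)) := by
    refine ⟨fun ρ hρ hρ' => ?_, hclose, fun ρ hρ hρ' => ?_, fun ρ ρ' hρ hρρ hρ2 hρ' i => ?_⟩
    · obtain ⟨s1, s2, s3, s4, s5⟩ := hsc ρ hρ
      have hρ0 : 0 < ρ := by linarith
      obtain ⟨he, -⟩ := hQ (8 * ρ) (by linarith) (by linarith)
      have hbm : b ≤ C * (Cs * b) := by nlinarith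
      have hbm' : Cs * b ≤ C * (Cs * b) := by
        have : 0 < Cs * b := by positivity
        nlinarith
      have := hB M ν b₀ R (8 * ρ) (C * (Cs * b)) c (Q (8 * ρ)) hM hν
        (hcore.mono hMONO hM le_rfl (by linarith)) ((hclose ρ hρ hρ').mono (by linarith)) he
        (by linarith) (by linarith)
      have e : 8 * ρ / 8 = ρ := by ring
      rw [e] at this
      exact this.mono (by linarith) hb hbm hρ0.le (by rw [hK']; exact le_of_eq (by ring)) le_rfl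
    · exact hgood.near ρ (hsc ρ hρ).1 (by linarith)
    · obtain ⟨s1, s2, s3, s4, s5⟩ := hsc ρ hρ
      have hρ0 : 0 < ρ := by linarith
      obtain ⟨-, hq⟩ := hQ (8 * ρ) (by linarith) (by linarith)
      obtain ⟨-, hq'⟩ := hQ (8 * ρ') (by linarith) (by linarith)
      have t1 := (hq i).2.1
      have t2 := (hq' i).2.1
      have hm0 : 0 ≤ C * (Cs * b) := by positivity
      have t3 : C * (Cs * b) / (8 * ρ') ≤ C * (Cs * b) / (8 * ρ) :=
        div_le_div_of_nonneg_left hm0 (by positivity) (by linarith)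
      have t4 : ‖(Q (8 * ρ)).n i - (Q (8 * ρ')).n i‖
          ≤ ‖(Q (8 * ρ)).n i - P.n i‖ + ‖(Q (8 * ρ')).n i - P.n i‖ := by
        have := norm_sub_le ((Q (8 * ρ)).n i - P.n i) ((Q (8 * ρ')).n i - P.n i)
        rwa [sub_sub_sub_cancel_right] at this
      have t5 : C * (Cs * b) / (8 * ρ) = (C * Cs * b / ρ) / 8 := by field_simp
      have t6 : C * Cs * b / ρ ≤ K' * b / ρ := by gcongr
      have t7 : 0 ≤ C * Cs * b / ρ := by positivity
      show ‖(Q (8 * ρ)).n i - (Q (8 * ρ')).n i‖ ≤ K' * b / ρ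
      linarith
  obtain ⟨s, hs1, hs2, hs3⟩ := hL M ν b (r / 8) c _ hM hν hb (by linarith) hgood.dens hD (by
    intro p hp hpc hg
    refine hbad p hp hpc ⟨hg.pos, hg.dens, fun ρ hρ hρ' => ?_⟩
    by_cases hcase : ρ ≤ max Λ₄ a * b
    · exact hg.near ρ hρ hcase
    · have hcase := (not_le.mp hcase).le
      have u1 : Λ₄ * b ≤ max Λ₄ a * b := by gcongr; exact le_max_left _ _
      have u2 : a * b ≤ max Λ₄ a * b := by gcongr; exact le_max_right _ _
      exact hU M ν η b (a * b) (r / 8) ρ c p _ hM hν hb hD hpc (by linarith) (by linarith)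
        (by linarith))
  obtain ⟨s1, -, -, -, s5⟩ := hsc s hs1
  have hs0 : 0 < s := by linarith
  have hch := hC M ν b₀ R r (Cs * b) s c P hM hν hcore (hP.mono (by linarith)) hexc hb₀ s5
    (by linarith)
  have hbs : 0 < b / s := by positivity
  obtain ⟨x, hx⟩ : ∃ x : ℝ, x = (b / s) ^ (1 / 12 : ℝ) := ⟨_, rfl⟩
  have hx0 : 0 ≤ x := by rw [hx]; positivity
  have v1 : (Cs * b / s) ^ (1 / 12 : ℝ) ≤ Cs * x := by
    rw [mul_div_assoc, Real.mul_rpow hCs0.le hbs.le, ← hx]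
    gcongr
    calc Cs ^ (1 / 12 : ℝ) ≤ Cs ^ (1 : ℝ) := Real.rpow_le_rpow_of_exponent_le hCs (by norm_num)
      _ = Cs := Real.rpow_one _
  have v2 : (1 / Λ₁) ^ (1 / 12 : ℝ) ≤ x := by
    rw [hx]
    refine Real.rpow_le_rpow (by positivity) ?_ (by norm_num)
    rw [div_le_div_iff₀ hΛ₁0 hs0]
    linarith
  rw [← hx] at hs3
  have v3 : CC * (Cs * b) * (Cs * b / s) ^ (1 / 12 : ℝ) ≤ CC * Cs ^ 2 * b * x := by
    calc CC * (Cs * b) * (Cs * b / s) ^ (1 / 12 : ℝ) ≤ CC * (Cs * b) * (Cs * x) := by gcongr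
      _ = CC * Cs ^ 2 * b * x := by ring
  have v4 : CC * Cs ^ 2 * (1 / Λ₁) ^ (1 / 12 : ℝ) * b ≤ CC * Cs ^ 2 * b * x := by
    calc CC * Cs ^ 2 * (1 / Λ₁) ^ (1 / 12 : ℝ) * b ≤ CC * Cs ^ 2 * x * b := by gcongr
      _ = CC * Cs ^ 2 * b * x := by ring
  have v5 := (abs_le.mp hch).1
  have e : 2 * CC * Cs ^ 2 * b * x = 2 * (CC * Cs ^ 2 * b * x) := by ring
  linarith

end MW.CI
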