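import Pool.Agent.P.MP_064970_gt.SC

/-! Case I, row KEYB: above the scale of the height the pattern comes from the origin. -/

open MeasureTheory Set Filter Topology Metric
open scoped RealInnerProductSpace ENNReal ComplexConjugate Real

noncomputable section

namespace MW.CI

namespace KEYB

theorem le_div_small {x r d : ℝ} (hd : 0 < d) (hd1 : d ≤ 1 / 100) (hr : 0 < r) (hx : x ≤ 4 * r) :
    x < r / d := by
  rw [lt_div_iff₀ hd]
  have h1 : x * d ≤ 4 * r * d := mul_le_mul_of_nonneg_right hx hd.le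
  have h2 : 4 * r * d ≤ 4 * r * (1 / 100) := mul_le_mul_of_nonneg_left hd1 (by linarith)
  linarith

/-- The pattern at a point of high density from the picture at the origin. -/
theorem near_top {M : Surf} {ω d R b r : ℝ} {ν : Bool → E} {p : E} (hMONO : S_MONO) (hM : M.Mem)
    (hω : 0 < ω) (hω1 : ω ≤ 1 / 10) (hd : 0 < d) (hdω : d ≤ ω / 10) (hG : GOn M ν d ω 1 R)
    (hr1 : 1 ≤ r) (hrR : r ≤ R) (hp : ‖p‖ ≤ 3 * r) (hb0 : 0 < b) (hb : b ≤ ω / 10 * r)
    (hΘ : 3 / 2 ≤ M.Θ p b) :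
    Near M ν ω p r ∧ ∀ i, |⟪p, ν i⟫| ≤ ω / 4 * r := by
  obtain ⟨ν', hX, hν'⟩ := hG r hr1 hrR
  have hr : 0 < r := by linarith
  have hd1 : d ≤ 1 / 100 := by linarith
  have hdr : d * r ≤ ω / 10 * r := mul_le_mul_of_nonneg_right hdω hr.le
  have hωr : ω / 10 * r ≤ 1 / 100 * r := mul_le_mul_of_nonneg_right (by linarith) hr.le
  have hωr0 : 0 < ω / 10 * r := by positivity
  have hin : ∀ i, |⟪p - 0, ν' i⟫| ≤ ω / 10 * r / 2 := by
    intro i
    refine (cross_bool hX i).2.2.2.2 p ?_ _ hdr ?_ (hΘ.trans (Θ_mono hMONO hM p hb0 hb))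
    · rw [mem_ball, dist_zero_right]
      exact le_div_small hd hd1 hr (by linarith)
    · exact (le_div_small hd hd1 hr (by linarith)).le
  refine ⟨near_of_cross hX (by positivity) hω.le (fun i => (hν' i).trans (by linarith)) hin ?_
    (by linarith), fun i => ?_⟩
  · refine ball_subset_ball' ?_
    rw [dist_zero_right]
    exact (le_div_small hd hd1 hr (by linarith)).le
  · have h1 := abs_inner_sub_le p (ν' i) (ν i)
    have h2 : ‖p‖ * ‖ν' i - ν i‖ ≤ 3 * r * (ω / 16) :=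
      mul_le_mul hp (hν' i) (norm_nonneg _) (by linarith)
    have h3 := hin i
    rw [sub_zero] at h3
    have h4 := abs_sub_abs_le_abs_sub ⟪p, ν i⟫ ⟪p, ν' i⟫
    rw [abs_sub_comm] at h4
    linarith

end KEYB

open KEYB in
theorem c_keyb_of (hMONO : S_MONO) : C_KEYB := by
  intro M β ω d R b a ν p hM hν hω hωβ hd hdω hG hp hsR hb hsa hg
  have hβ := hν.pos
  have hω1 : ω ≤ 1 / 10 := by linarith [hν.le_one]
  have hs1 : 1 ≤ 1 + |p 2| := by linarith [abs_nonneg (p 2)]
  refine ⟨p, rfl, ?_, hg.pos, hg.dens, fun r hbr hrR => ?_⟩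
  · have h1 := (near_top hMONO hM hω hω1 hd hdω hG hs1 hsR hp hg.pos hb hg.dens).2
    have h2 := hν.norm_pr_le h1
    have h3 : ω / 4 * (1 + |p 2|) ≤ β / 40 * (1 + |p 2|) :=
      mul_le_mul_of_nonneg_right (by linarith) (by linarith)
    have h4 : 2 / β * (ω / 4 * (1 + |p 2|)) ≤ 2 / β * (β / 40 * (1 + |p 2|)) :=
      mul_le_mul_of_nonneg_left h3 (by positivity)
    have h5 : 2 / β * (β / 40 * (1 + |p 2|)) = (1 + |p 2|) / 20 := by field_simp; ring
    linarith [norm_le_pr_add p]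
  · rcases le_total r a with h | h
    · exact hg.near r hbr h
    · have h1 : 1 + |p 2| ≤ r := hsa.trans h
      exact (near_top hMONO hM hω hω1 hd hdω hG (hs1.trans h1) hrR (by linarith) hg.pos
        (hb.trans (mul_le_mul_of_nonneg_left h1 (by positivity))) hg.dens).1

end MW.CI
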