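import Pool.Agent.P.MP_064970_gt.SC

/-! Case I, row KEYC: the key inequality for the levels. -/

open MeasureTheory Set Filter Topology Metric
open scoped RealInnerProductSpace ENNReal ComplexConjugate Real

noncomputable section

namespace MW.CI

namespace KEYC

/-- The last scale that sees the height `t`. -/
theorem exists_scale {θ R s : ℝ} {j J : ℕ} (hθ : 0 < θ) (hR : 0 < R) (hs : 1 ≤ s)
    (hJ : rr θ R (J + 1) < 1) (hj1 : 1 ≤ j) (hj : j ≤ J) (h : s ≤ 3 * rr θ R j) :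
    ∃ i, j ≤ i + 1 ∧ i + 1 ≤ J ∧ s ≤ 3 * rr θ R (i + 1) ∧ θ * rr θ R (i + 1) ≤ s := by
  classical
  set j' := Nat.findGreatest (fun l => s ≤ 3 * rr θ R l) J with hj'
  have h1 : j ≤ j' := Nat.le_findGreatest hj h
  have h2 : j' ≤ J := Nat.findGreatest_le J
  have h3 : s ≤ 3 * rr θ R j' := Nat.findGreatest_spec (P := fun l => s ≤ 3 * rr θ R l) hj h
  obtain ⟨i, hi⟩ : ∃ i, j' = i + 1 := ⟨j' - 1, by omega⟩
  refine ⟨i, by omega, by omega, hi ▸ h3, ?_⟩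
  rw [← hi, ← rr_succ]
  rcases h2.eq_or_lt with h4 | h4
  · rw [h4]; linarith
  · have h5 : ¬ s ≤ 3 * rr θ R (j' + 1) :=
      Nat.findGreatest_is_greatest (P := fun l => s ≤ 3 * rr θ R l) (n := J) (by omega) (by omega)
    have h6 := rr_pos hθ hR (j' + 1)
    linarith [not_le.mp h5]

theorem rr_le {θ R : ℝ} (hθ : 0 < θ) (hθ1 : θ ≤ 1) (hR : 0 ≤ R) (j : ℕ) : 16 * rr θ R j ≤ R := by
  have h := rr_anti hθ hθ1 hR (Nat.zero_le j)
  have h0 : rr θ R 0 = R / 16 := by simp [rr]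
  linarith

theorem le_of_mul {ε θ r s b a : ℝ} (ha : 0 ≤ a) (hr : 0 ≤ r) (hb : b ≤ ε * r) (hs : θ * r ≤ s)
    (hε : ε ≤ a * θ) : b ≤ a * s := by
  calc b ≤ ε * r := hb
    _ ≤ a * θ * r := mul_le_mul_of_nonneg_right hε hr
    _ = a * (θ * r) := by ring
    _ ≤ a * s := mul_le_mul_of_nonneg_left hs ha

theorem small_case {c b m : ℝ} (hc : 0 < c) (hb : 0 ≤ b) (h : max 1 (4 / c) * b < 4 * m) :
    b ≤ c * m := by
  have h1 : 4 / c * b ≤ max 1 (4 / c) * b := mul_le_mul_of_nonneg_right (le_max_right _ _) hb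
  have h2 : 4 / c * b < 4 * m := h1.trans_lt h
  have h3 : c * (4 / c * b) = 4 * b := by field_simp
  have h4 := mul_lt_mul_of_pos_left h2 hc
  rw [h3] at h4
  linarith

end KEYC

open KEYC in
theorem c_keyc_of (hMONO : S_MONO) (hKEYA : C_KEYA) (hKEYB : C_KEYB) (hKEYD : C_KEYD) (hLEV : C_LEV) : C_KEYC := by
  intro β hβ
  obtain ⟨ηA, hηA, HA⟩ := hKEYA β hβ
  obtain ⟨ηD, hηD, HD⟩ := hKEYD β hβ
  refine ⟨min (min ηA ηD) (β / 4), by positivity, fun η hη hη₀ => ?_⟩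
  have hηA' : η ≤ ηA := hη₀.trans ((min_le_left _ _).trans (min_le_left _ _))
  have hηD' : η ≤ ηD := hη₀.trans ((min_le_left _ _).trans (min_le_right _ _))
  have hηβ : η ≤ β / 4 := hη₀.trans (min_le_right _ _)
  obtain ⟨ωA, hωA, HA⟩ := HA η hη hηA'
  refine ⟨min (min ωA η) (β / 10), by positivity, fun ω θ c hω hω₀ hθ hθ1 hc => ?_⟩
  have hωA' : ω ≤ ωA := hω₀.trans ((min_le_left _ _).trans (min_le_left _ _))
  have hωη : ω ≤ η := hω₀.trans ((min_le_left _ _).trans (min_le_right _ _))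
  have hωβ : ω ≤ β / 10 := hω₀.trans (min_le_right _ _)
  obtain ⟨c₀, Λ, hc₀, hΛ, HA⟩ := HA ω hω hωA' (max 1 (4 / c)) (le_max_left _ _)
  obtain ⟨CD, εD, hCD, hεD, HD⟩ := HD η hη hηD' θ hθ hθ1
  have hΛ0 : 0 < Λ := by linarith
  refine ⟨c₀, CD, min (min εD (1 / (2 * Λ))) (ω / 10 * θ), hc₀, hCD, by positivity, ?_⟩
  intro M ν C₁ ε d R P p J hM hν hC₁ hε₀ hd hdε hR hG hrun hJ1 hJ2 j hj1 hjJ
  have hεD' : ε ≤ εD := hε₀.trans ((min_le_left _ _).trans (min_le_left _ _))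
  have hεΛ : ε ≤ 1 / (2 * Λ) := hε₀.trans ((min_le_left _ _).trans (min_le_right _ _))
  have hεω : ε ≤ ω / 10 * θ := hε₀.trans (min_le_right _ _)
  have hθ1' : θ ≤ 1 := by linarith
  have hε : 0 < ε := by
    by_contra h
    have : θ * ε ≤ 0 := mul_nonpos_of_nonneg_of_nonpos hθ.le (not_lt.mp h)
    linarith
  have hεω' : ε ≤ ω / 10 := hεω.trans (mul_le_of_le_one_right (by positivity) hθ1')
  have hdω : d ≤ ω / 10 := hdε.trans ((mul_le_of_le_one_left hε.le hθ1').trans hεω')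
  have hR0 : 0 < R := by linarith
  obtain ⟨-, HL⟩ := hLEV M β ω d R ν hM hν hω hωβ hd hdω (by linarith) hG
  have hr1 : ∀ l, l ≤ J → 1 ≤ rr θ R l := fun l hl => hJ1.trans (rr_anti hθ hθ1' hR0.le hl)
  have hr16 : ∀ l, 16 * rr θ R l ≤ R := rr_le hθ hθ1' hR0.le
  have hk : 0 ≤ 10 * d / ω := by positivity
  have hB0 : ∀ l, l ≤ J → 0 ≤ Bl M ν ω R (rr θ R l) := fun l hl =>
    (HL _ (hr1 l hl) (hr16 l)).1
  have hlvB : ∀ l, l ≤ J → 2 * Bl M ν ω R (rr θ R l) ≤ lv M ν ω θ (10 * d / ω) C₁ R l := by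
    intro l hl
    have h1 := hB0 l hl
    have h2 : 0 ≤ 2 * Bl M ν ω R (rr θ R l) + 10 * d / ω := by linarith
    have h3 := le_mul_of_one_le_left h2 hC₁
    unfold lv
    linarith
  have hlv0 : ∀ l, l ≤ J → 0 ≤ lv M ν ω θ (10 * d / ω) C₁ R l := fun l hl => by
    linarith [hlvB l hl, hB0 l hl]
  have hm0 : ∀ l, l ≤ J → 0 ≤ p l + lv M ν ω θ (10 * d / ω) C₁ R l := fun l hl =>
    add_nonneg (hrun.nonneg l) (hlv0 l hl)
  have hS0 : ∀ i, 0 ≤ (ε + CD * ∑ l ∈ Finset.Icc i J, (p l + lv M ν ω θ (10 * d / ω) C₁ R l)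
      * ((p l + lv M ν ω θ (10 * d / ω) C₁ R l) / rr θ R l) ^ (1 / 12 : ℝ)) / c₀ := by
    intro i
    refine div_nonneg (add_nonneg hε.le (mul_nonneg hCD.le (Finset.sum_nonneg fun l hl => ?_)))
      hc₀.le
    have h1 := hm0 l (Finset.mem_Icc.mp hl).2
    exact mul_nonneg h1 (Real.rpow_nonneg (div_nonneg h1 (rr_pos hθ hR0 l).le) _)
  rcases (hB0 j hjJ).eq_or_lt with hBj | hBj
  · refine ⟨j, by omega, hjJ, ?_⟩
    rw [← hBj]
    exact add_nonneg (mul_nonneg hc.le (hm0 j hjJ)) (hS0 j)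
  obtain ⟨-, -, -, hup, hlow, -⟩ := HL _ (hr1 j hjJ) (hr16 j)
  obtain ⟨t, ht, hnot⟩ := hlow hBj
  set B := Bl M ν ω R (rr θ R j) with hBdef
  obtain ⟨z, hz2, hz, hgood⟩ := hup (3 / 2 * B) (by linarith) t ht
  have hs1 : 1 ≤ 1 + |t| := by linarith [abs_nonneg t]
  obtain ⟨i, hji, hiJ, hsi, hsi'⟩ := exists_scale hθ hR0 hs1 hJ2 hj1 hjJ ht
  have hiJ' : i ≤ J := by omega
  refine ⟨i, hji, hiJ', ?_⟩
  have hri : 0 < rr θ R i := rr_pos hθ hR0 i
  have hri1 : 0 < rr θ R (i + 1) := rr_pos hθ hR0 (i + 1)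
  have hsucc : rr θ R (i + 1) ≤ rr θ R i / 2000 := by
    rw [rr_succ]
    have := mul_le_mul_of_nonneg_right hθ1 hri.le
    linarith
  have hB1 : 3 / 4 * B ≤ Bl M ν ω R (rr θ R (i + 1)) := by
    by_contra h
    exact hnot ((HL _ (hr1 _ hiJ) (hr16 _)).2.2.2.1 _ (not_le.mp h) t hsi)
  have hB2 : Bl M ν ω R (rr θ R (i + 1)) ≤ Bl M ν ω R (rr θ R i) :=
    (HL _ (hr1 i hiJ') (hr16 i)).2.2.1 _ (by linarith)
  have hbε : 3 / 2 * B ≤ ε * rr θ R (i + 1) := by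
    linarith [hlvB _ hiJ, hrun.small _ (hr1 _ hiJ), hrun.nonneg (i + 1)]
  have hzn : ‖z‖ ≤ rr θ R i / 300 := by linarith
  have hctr : Ctr M ν η z (lv M ν ω θ (10 * d / ω) C₁ R i) R := by
    refine (hrun.pic z _ hgood).mono hMONO hM ?_
    unfold lv
    exact mul_le_mul_of_nonneg_left (by linarith) (by linarith)
  by_cases hcase : max 1 (4 / c) * (3 / 2 * B) < 4 * (p i + lv M ν ω θ (10 * d / ω) C₁ R i)
  · have h1 := small_case hc (by linarith) hcase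
    linarith [hS0 i]
  have hcase' := not_lt.mp hcase
  have hsm := hrun.small i (hr1 i hiJ')
  have hpi := hrun.nonneg i
  have hlvi := hlv0 i hiJ'
  have hεr : ε * rr θ R i ≤ β / 100 * rr θ R i :=
    mul_le_mul_of_nonneg_right (by linarith) hri.le
  have hβr : 0 ≤ β * rr θ R i := by positivity
  have hcore : Core M ν η (lv M ν ω θ (10 * d / ω) C₁ R i) R z (rr θ R i / 2) := by
    refine (hrun.core i (hr1 i hiJ')).move hMONO hM hν hη.le hηβ hctr ?_ ?_ ?_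
    · rw [sub_zero]; linarith [hr16 i]
    · have h0 : (0 : E) 2 = 0 := rfl
      rw [hz2, h0, sub_zero]
      linarith
    · linarith
  have hexc : Exc M β ν (P i) z (rr θ R i / 2) (max 1 (4 / c) * (3 / 2 * B)) := by
    have h1 : Exc M β ν (P i) z (rr θ R i / 2) (2 ^ 2 * p i) := by
      refine (hrun.exc i (hr1 i hiJ')).sub hM hri (by linarith) ?_ (by norm_num) (by linarith)
      refine ball_subset_ball' ?_
      rw [dist_zero_right]
      linarith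
    exact h1.mono (by linarith) (by linarith)
  have hbs : 3 / 2 * B ≤ ω / 10 * (1 + |t|) := le_of_mul (by positivity) hri1.le hbε hsi' hεω
  have hbad : ∀ q : E, q 2 = z 2 → ‖q - z‖ ≤ 20 / β * (3 / 2 * B) →
      ¬ GoodOn M ν ω q (3 / 2 * B / 2) (rr θ R i / 2 / 16) := by
    intro q hq2 hq hqg
    have hqt : q 2 = t := hq2.trans hz2
    have h1 : 20 / β * (3 / 2 * B) ≤ 1 + |t| := by
      have h2 : ω / 10 * (1 + |t|) ≤ β / 20 * (1 + |t|) :=
        mul_le_mul_of_nonneg_right (by linarith) (by linarith)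
      calc 20 / β * (3 / 2 * B) ≤ 20 / β * (β / 20 * (1 + |t|)) :=
            mul_le_mul_of_nonneg_left (hbs.trans h2) (by positivity)
        _ = 1 + |t| := by field_simp
    have h2 : ‖q‖ ≤ ‖q - z‖ + ‖z‖ := by
      simpa using norm_add_le (q - z) z
    have h3 := hKEYB M β ω d R (3 / 2 * B / 2) (rr θ R i / 2 / 16) ν q hM hν hω hωβ hd hdω hG
      (by rw [hqt]; linarith) (by rw [hqt]; linarith [hr16 (i + 1)]) (by rw [hqt]; linarith)
      (by rw [hqt]; linarith) hqg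
    rw [hqt] at h3
    apply hnot
    rwa [show 3 / 2 * B / 2 = 3 / 4 * B by ring] at h3
  have hΛb : Λ * (3 / 2 * B) ≤ rr θ R i / 2 := by
    have h1 : 3 / 2 * B ≤ 1 / (2 * Λ) * rr θ R i :=
      hbε.trans (mul_le_mul hεΛ (by linarith) hri1.le (by positivity))
    calc Λ * (3 / 2 * B) ≤ Λ * (1 / (2 * Λ) * rr θ R i) := mul_le_mul_of_nonneg_left h1 hΛ0.le
      _ = rr θ R i / 2 := by field_simp
  have hA := HA M ν _ (3 / 2 * B) R (rr θ R i / 2) z (P i) hM hν hcore (by linarith)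
    (hrun.close i (hr1 i hiJ')) hexc hgood hbad hΛb
  have hD := HD M ν ω (10 * d / ω) C₁ ε d R P p J hM hν hωη hεD' hd hdε hR hG hrun hJ1 hJ2 i hiJ' z
    hctr hzn
  have he : rr θ R i / 2 / 200 = rr θ R i / 400 := by ring
  rw [he] at hA
  have hfin := (le_div_iff₀' hc₀).mpr (hA.trans hD)
  have hcm := mul_nonneg hc.le (hm0 i hiJ')
  linarith

end MW.CI
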