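import Pool.Agent.P.MP_064970_gt.SC

/-! Case I, row KEYD: the defect at the origin along the iteration. -/

open MeasureTheory Set Filter Topology Metric
open scoped RealInnerProductSpace ENNReal ComplexConjugate Real

noncomputable section

namespace MW.CI

namespace KEYD

theorem down {Y T : ℕ → ℝ} {e : ℝ} {J : ℕ} (hJ : Y J ≤ e) (hT : 0 ≤ T J)
    (hs : ∀ l, l + 1 ≤ J → Y l ≤ Y (l + 1) + T l) :
    ∀ i, i ≤ J → Y i ≤ e + ∑ l ∈ Finset.Icc i J, T l := by
  have key : ∀ n i, i + n = J → Y i ≤ e + ∑ l ∈ Finset.Icc i J, T l := by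
    intro n
    induction n with
    | zero =>
      intro i hi
      obtain rfl : i = J := by omega
      rw [Finset.Icc_self, Finset.sum_singleton]
      linarith
    | succ n ih =>
      intro i hi
      have h1 := ih (i + 1) (by omega)
      have h2 : Finset.Icc i J = insert i (Finset.Icc (i + 1) J) := by
        ext l
        simp only [Finset.mem_Icc, Finset.mem_insert]
        omega
      rw [h2, Finset.sum_insert (by simp)]
      linarith [hs i (by omega)]
  intro i hi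
  exact key (J - i) i (by omega)

theorem last_le {θ ε d r y : ℝ} (hdε : d ≤ θ * ε) (hε : 0 ≤ ε) (hr : 0 < r)
    (hθr : θ * r < 1) (hy : y ≤ d) : r / 400 * y ≤ ε := by
  have h1 : r / 400 * y ≤ r / 400 * (θ * ε) :=
    mul_le_mul_of_nonneg_left (hy.trans hdε) (by positivity)
  have h2 : θ * r * ε ≤ 1 * ε := mul_le_mul_of_nonneg_right hθr.le hε
  nlinarith

end KEYD

open KEYD in
theorem c_keyd_of (hMONO : S_MONO) (hDL : C_DL) : C_KEYD := by
  intro β hβ
  obtain ⟨η₀, hη₀, H⟩ := hDL β hβ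
  refine ⟨η₀, hη₀, fun η hη hη' θ hθ hθ1 => ?_⟩
  obtain ⟨εL, C, hεL, hC, H⟩ := H η hη hη' (θ / 400) (by positivity)
  refine ⟨2 * C, min εL 1, by positivity, by positivity, ?_⟩
  intro M ν ω k C₁ ε d R P p J hM hν hωη hε₀ hd hdε hR hG hrun hJ1 hJ2 i hiJ c hc hcn
  have hεL' : ε ≤ εL := hε₀.trans (min_le_left _ _)
  have hε1 : ε ≤ 1 := hε₀.trans (min_le_right _ _)
  have hε : 0 < ε := by
    by_contra h
    have : θ * ε ≤ 0 := mul_nonpos_of_nonneg_of_nonpos hθ.le (not_lt.mp h)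
    linarith
  have hθ1' : θ ≤ 1 := by linarith
  have hR0 : 0 < R := by linarith
  have hr1 : ∀ l, l ≤ J → 1 ≤ rr θ R l := fun l hl => hJ1.trans (rr_anti hθ hθ1' hR0.le hl)
  have hr0 : ∀ l, 0 < rr θ R l := rr_pos hθ hR0
  have hlv : ∀ l, l ≤ J → 0 < lv M ν ω θ k C₁ R l := fun l hl => (hrun.core l (hr1 l hl)).self.pos
  have hT0 : ∀ l, l ≤ J → 0 ≤ (p l + lv M ν ω θ k C₁ R l)
      * ((p l + lv M ν ω θ k C₁ R l) / rr θ R l) ^ (1 / 12 : ℝ) := by
    intro l hl
    have h1 : 0 ≤ p l + lv M ν ω θ k C₁ R l := add_nonneg (hrun.nonneg l) (hlv l hl).le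
    exact mul_nonneg h1 (Real.rpow_nonneg (div_nonneg h1 (hr0 l).le) _)
  have hstep : ∀ l, l ≤ J → ∀ (z : E) (s : ℝ), Ctr M ν η z (lv M ν ω θ k C₁ R l) R →
      ‖z‖ ≤ rr θ R l / 300 → θ / 400 * rr θ R l ≤ s → s ≤ rr θ R l / 200 →
      rr θ R l / 400 * (2 - M.Θ z (rr θ R l / 400)) ≤ s * (2 - M.Θ 0 s)
        + C * ((p l + lv M ν ω θ k C₁ R l)
          * ((p l + lv M ν ω θ k C₁ R l) / rr θ R l) ^ (1 / 12 : ℝ)) := by
    intro l hl z s hz hzn hs1 hs2
    have hcore := hrun.core l (hr1 l hl)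
    have hθr : θ * rr θ R l ≤ 1 * rr θ R l := mul_le_mul_of_nonneg_right hθ1' (hr0 l).le
    have h1 := H M ν _ R (rr θ R l) (p l + lv M ν ω θ k C₁ R l) (rr θ R l / 400) s 0 z 0 (P l) hM hν
      hcore ((hrun.close l (hr1 l hl)).mono (by linarith))
      ((hrun.exc l (hr1 l hl)).mono (hr0 l).le (by linarith [hlv l hl]))
      (by linarith [hrun.nonneg l])
      ((hrun.small l (hr1 l hl)).trans (mul_le_mul_of_nonneg_right hεL' (hr0 l).le))
      hz hcore.self (by rw [sub_zero]; exact hzn) (by rw [sub_zero, norm_zero]; linarith [hr0 l])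
      (by linarith) (by linarith [hr0 l]) hs1 hs2
    rw [mul_assoc] at h1
    linarith [le_abs_self (rr θ R l / 400 * (2 - M.Θ z (rr θ R l / 400)) - s * (2 - M.Θ 0 s))]
  have hlast : rr θ R J / 400 * (2 - M.Θ 0 (rr θ R J / 400)) ≤ ε := by
    obtain ⟨ν', hX, -⟩ := hG 1 le_rfl (by linarith)
    have h1 := hX.dens 0 (mem_ball_self (by positivity)) (by simp) (by simp)
    rw [mul_one] at h1
    have h2 : θ * ε ≤ θ * 1 := mul_le_mul_of_nonneg_left hε1 hθ.le
    have h3 := Θ_mono hMONO hM 0 hd (s := rr θ R J / 400) (by linarith)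
    rw [rr_succ] at hJ2
    exact last_le hdε hε.le (hr0 J) hJ2 (by linarith)
  have hdown := down (Y := fun l => rr θ R l / 400 * (2 - M.Θ 0 (rr θ R l / 400)))
    (T := fun l => C * ((p l + lv M ν ω θ k C₁ R l)
      * ((p l + lv M ν ω θ k C₁ R l) / rr θ R l) ^ (1 / 12 : ℝ))) hlast
    (mul_nonneg hC.le (hT0 J le_rfl)) (fun l hl => by
      have hl' : l ≤ J := by omega
      have hθr : θ * rr θ R l ≤ 1 * rr θ R l := mul_le_mul_of_nonneg_right hθ1' (hr0 l).le
      exact hstep l hl' 0 (rr θ R (l + 1) / 400) (hrun.core l (hr1 l hl')).self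
        (by rw [norm_zero]; linarith [hr0 l]) (by rw [rr_succ]; linarith)
        (by rw [rr_succ]; linarith [hr0 l])) i hiJ
  have hθr : θ * rr θ R i ≤ 1 * rr θ R i := mul_le_mul_of_nonneg_right hθ1' (hr0 i).le
  have h1 := hstep i hiJ c (rr θ R i / 400) hc hcn (by linarith) (by linarith [hr0 i])
  have h2 := Finset.single_le_sum (s := Finset.Icc i J) (f := fun l => (p l + lv M ν ω θ k C₁ R l)
      * ((p l + lv M ν ω θ k C₁ R l) / rr θ R l) ^ (1 / 12 : ℝ))
    (fun l hl => hT0 l (Finset.mem_Icc.mp hl).2) (Finset.mem_Icc.mpr ⟨le_rfl, hiJ⟩)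
  have h3 := mul_le_mul_of_nonneg_left h2 hC.le
  rw [← Finset.mul_sum] at hdown
  linarith

end MW.CI
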