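import Pool.Agent.P.MP_064970_gt.SC

/-! Case I, row LB. Sketch:
By contradiction with Lam1 = max a k; choose M_k, nu_k, R_k >= k, P_k; U = hyperfilter. LIM. If
some x0 is not in limO, LBA contradicts the hypothesis on p. Otherwise the limit is a member; LBB,
BCL, BCF (eta + omega <= beta/8), SCH. Third clause of CONV: s(2 - Theta 0 s) <= C (1/s)^(1/12)
for all s >= a, which tends to 0. -/

open MeasureTheory Set Filter Topology Metric
open scoped RealInnerProductSpace ENNReal ComplexConjugate Real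

noncomputable section

namespace MW.CI

theorem c_lb_of (hLIM : S_LIM) (hCONV : S_CONV) (hLBA : C_LBA) (hLBB : C_LBB) (hBCL : C_BCL) (hBCF : C_BCF) (hSCH : C_SCH) : C_LB := by
  intro β η ω K a Λ₄ C hη hω hωβ hK ha
  by_contra hcon
  have H : ∀ k : ℕ, ∃ (M : Surf) (ν : Bool → E) (R : ℝ) (Pf : ℝ → Pl), M.Mem ∧ IsRef β ν ∧
      max a k ≤ R ∧ 3 / 2 ≤ M.Θ 0 1 ∧ DatOn M ν η ω K 1 0 a R Pf ∧
      (∀ p : E, p 2 = 0 → ‖p‖ ≤ 20 / β → ¬ GoodOn M ν ω p (1 / 2) Λ₄) ∧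
      ∀ s : ℝ, a ≤ s → s ≤ max a k → s * (2 - M.Θ 0 s) ≤ C * (1 / s) ^ (1 / 12 : ℝ) := by
    intro k
    by_contra hk
    apply hcon
    refine ⟨max a k, le_max_left _ _, ?_⟩
    intro M ν R Pf h1 h2 h3 h4 h5 h6
    by_contra h7
    apply hk
    refine ⟨M, ν, R, Pf, h1, h2, h3, h4, h5, h6, ?_⟩
    intro s hs hs'
    by_contra h8
    exact h7 ⟨s, hs, hs', (not_le.1 h8).le⟩
  choose Mk νk Rk Pk h1 h2 h3 h4 h5 h6 h7 using H
  have hβ : 0 < β := by linarith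
  set U : Ultrafilter ℕ := hyperfilter ℕ with hU
  have hUle : (U : Filter ℕ) ≤ atTop := Nat.hyperfilter_le_atTop
  have hk : Tendsto (fun k : ℕ => (k : ℝ)) U atTop := tendsto_natCast_atTop_atTop.mono_left hUle
  have hR : Tendsto Rk U atTop :=
    tendsto_atTop_mono (fun k => (le_max_right _ _).trans (h3 k)) hk
  obtain ⟨M, hO, hB, hconv⟩ := hLIM U Mk h1
  have hall : ∀ x₀ : E, x₀ ∈ limO U Mk := by
    intro x₀
    by_contra hx
    have := hLBA β η ω K a Λ₄ U Mk νk Rk Pk hω hωβ hK ha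
      (fun k => ⟨h1 k, h2 k, h4 k, h5 k⟩) hR x₀ hx
    obtain ⟨k, p, hp, hp', hg⟩ := this.exists
    exact h6 k p hp hp' hg
  have hM : M.Mem := ⟨by rw [hO]; exact eq_univ_of_forall hall, hB⟩
  obtain ⟨ν, Pf, hν, hd⟩ := hLBB β η ω K a U Mk νk Rk Pk M hK ha
    (fun k => ⟨h1 k, h2 k, h5 k⟩) hR hM hconv
  obtain ⟨n, K', a', hF⟩ := hBCL M β η ω (2 * K) a ν Pf hM hν hω (by linarith) (by linarith)
    (by linarith) hd
  have hS := hBCF M n (β / 2) (η + ω) K' a' hM hF (by linarith)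
  obtain ⟨c, s₀, hc, hlow⟩ := hSCH M hM hS
  have hup : ∀ s : ℝ, a ≤ s → s * (2 - M.Θ 0 s) ≤ C * (1 / s) ^ (1 / 12 : ℝ) := by
    intro s hs
    have ht := (hCONV U Mk M h1 hconv).2.2.1 0 s (by linarith) (hM.sub _)
    have ht' : Tendsto (fun k => s * (2 - (Mk k).Θ 0 s)) U (𝓝 (s * (2 - M.Θ 0 s))) :=
      (ht.const_sub 2).const_mul s
    refine le_of_tendsto ht' ?_
    filter_upwards [hk.eventually_ge_atTop s] with k hks
    exact h7 k s hs (hks.trans (le_max_right _ _))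
  have hz : Tendsto (fun s : ℝ => C * (1 / s) ^ (1 / 12 : ℝ)) atTop (𝓝 0) := by
    have h0 : Tendsto (fun s : ℝ => 1 / s) atTop (𝓝 0) := by
      simpa using tendsto_inv_atTop_zero
    have h1 := (h0.rpow_const (p := (1 / 12 : ℝ)) (Or.inr (by norm_num))).const_mul C
    rwa [Real.zero_rpow (by norm_num), mul_zero] at h1
  obtain ⟨s, hs1, hs2, hs3⟩ := ((hz.eventually (gt_mem_nhds hc)).and
    ((eventually_ge_atTop a).and (eventually_ge_atTop s₀))).exists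
  have := hup s hs2
  have := hlow s hs3
  linarith

end MW.CI
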