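import Pool.Agent.P.MP_064970_gt.SC

/-! Case I, row LBA: a bad point gives a good centre of small level. -/

open MeasureTheory Set Filter Topology Metric
open scoped RealInnerProductSpace ENNReal ComplexConjugate Real

noncomputable section

namespace MW.CI

namespace LBA

/-- The construction of the centre from a cross picture at the bad point. -/
theorem one (hMONO : S_MONO) (hANG : C_ANG) (hCMPN : C_CMPN) {M : Surf} {β η ω K Λ₄ r δ : ℝ}
    {ν : Bool → E} {P : Pl} {x₀ a b : E} (hM : M.Mem) (hν : IsRef β ν) (hω : 0 < ω)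
    (hωβ : ω ≤ β / 100000) (hK : 1 ≤ K) (hr : 1 ≤ r) (hx : ‖x₀‖ ≤ ω * r)
    (hH : hh K 1 (2 * r) ≤ ω * β / 2000 * r) (hδ : 0 < δ) (h1 : δ ≤ ω * β / 2000)
    (h2 : r / (ω * β / 2000) ≤ 1 / δ) (h3 : ‖x₀‖ + 20 / β + |Λ₄| + 1 ≤ 1 / δ)
    (hΘ : 3 / 2 ≤ M.Θ 0 1) (hD : Dat M ν η K 1 0 (2 * r) P) (hP : P.Close ν (ω / 4))
    (hN : Near M ν (4 * ω) x₀ r) (hC : M.Cross x₀ 1 δ a b) :
    ∃ p : E, p 2 = 0 ∧ ‖p‖ ≤ 20 / β ∧ GoodOn M ν ω p (1 / 2) Λ₄ := by
  have hβ := hν.pos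
  have hβ1 := hν.le_one
  have hr0 : 0 < r := by linarith
  have hωβ' : ω * β ≤ ω := mul_le_of_le_one_right hω.le hβ1
  have hωβ0 : 0 < ω * β := mul_pos hω hβ
  have hC' : M.Cross x₀ r (ω * β / 2000) a b := cross_rescale hMONO hM hC (by linarith) h1
    (by nlinarith) h2
  obtain ⟨ν', hν', hall⟩ := (hANG M β (4 * ω) (ω * β / 2000) r ν x₀ hM hν hr0 (by linarith)
    (by linarith) (by linarith) hN).2.2 a b hC'
  have hX := hall _ _ _ hC
  have hωr : ω * r ≤ β / 100000 * r := by gcongr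
  have hωβr : ω * β / 2000 * r ≤ ω / 2000 * r := by gcongr
  have hcmp := hCMPN M β (ω * β / 2000) (ω * β / 2000) r ν ν' P x₀ hM hν hr0 (by linarith)
    (by linarith) (by linarith) (by linarith) (hall _ _ _ hC')
    (fun i => (hν' i).trans (by linarith)) (hP.mono (by linarith)) (fun i => by
      have e1 := hP.abs_f_le i x₀ 0
      have e2 := hD.ctr i
      rw [sub_zero] at e1
      nlinarith) (fun x hxx => by
      have e1 : x ∈ ball (0 : E) (2 * r) := by
        have e2 := mem_ball_iff_norm.1 hxx.2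
        have e3 := norm_le_norm_sub_add x x₀
        rw [mem_ball_zero_iff]
        nlinarith
      obtain ⟨i, hi⟩ := hD.near_plane hK one_pos (by linarith) ⟨hxx.1, e1⟩
      exact ⟨i, hi.trans hH⟩)
  have hclose : ∀ i, ‖ν' i - ν i‖ ≤ ω / 2 := fun i => by
    have e1 := hcmp i
    have e2 : 200 * (ω * β / 2000 + ω * β / 2000) / β = ω / 5 := by field_simp; ring
    have e3 := hP.close i
    have e4 := norm_sub_le_norm_sub_add_norm_sub (ν' i) (P.n i) (ν i)
    rw [norm_sub_rev (ν' i) (P.n i)] at e4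
    linarith
  have h20 : 0 < 20 / β := by positivity
  have hΛ := abs_nonneg Λ₄
  have hx0 := norm_nonneg x₀
  have hhalf : ∀ i, |⟪x₀, ν' i⟫| ≤ 1 / 2 := fun i => by
    have e1 := (cross_bool hX i).2.2.2.2 0 (by
      rw [mem_ball_iff_norm, zero_sub, norm_neg]
      linarith) 1 (by linarith) (by linarith) hΘ
    rwa [zero_sub, inner_neg_left, abs_neg] at e1
  obtain ⟨p, hp2, hpi, hpn⟩ := hν.exists_solve (n := ν') (fun i => (cross_bool hX i).1)
    (fun i => (hclose i).trans (by linarith)) fun i => ⟪x₀, ν' i⟫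
  have hp : ‖p‖ ≤ 20 / β := by
    refine hpn.trans ?_
    have e1 : 2 / β * (|⟪x₀, ν' false⟫| + |⟪x₀, ν' true⟫|) ≤ 2 / β * 10 := by
      gcongr
      linarith [hhalf false, hhalf true]
    refine e1.trans (le_of_eq ?_)
    ring
  have hz : ∀ i, ⟪p - x₀, ν' i⟫ = 0 := fun i => by rw [inner_sub_left, hpi i, sub_self]
  have hpx := norm_sub_le p x₀
  refine ⟨p, hp2, hp, by norm_num, ?_, fun s hs1 hs2 => ?_⟩
  · have e1 := hX.dens p (by
      rw [mem_ball_iff_norm]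
      linarith) (hz false) (hz true)
    have e2 := Θ_mono hMONO hM p (r := δ * 1) (s := 1 / 2) (by linarith) (by linarith)
    linarith
  · refine near_of_cross (ζ := 0) hX (by linarith) hω.le hclose (fun i => by rw [hz i, abs_zero])
      (ball_subset_ball' ?_) (by nlinarith)
    rw [dist_eq_norm]
    linarith [le_abs_self Λ₄]

end LBA

theorem c_lba_of (hMONO : S_MONO) (hCOR : S_COR) (hTRI : S_TRI) (hANG : C_ANG) (hCMPN : C_CMPN) : C_LBA := by
  intro β η ω K a Λ₄ U Mk νk Rk Pk hω hωβ hK ha hk hR x₀ hx₀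
  have hβ := (hk 0).2.1.pos
  have hβ1 := (hk 0).2.1.le_one
  have hωβ' : ω * β ≤ ω := mul_le_of_le_one_right hω.le hβ1
  have hωβ0 : 0 < ω * β / 2000 := by positivity
  obtain ⟨Λ, hΛ1, hΛ⟩ := hh_small K 2 hωβ0 two_pos
  obtain ⟨r, hra, hrΛ, hrx⟩ : ∃ r : ℝ, a ≤ r ∧ Λ ≤ r ∧ ‖x₀‖ ≤ ω * r := by
    refine ⟨max a (max Λ (‖x₀‖ / ω)), le_max_left _ _, (le_max_left _ _).trans (le_max_right _ _),
      ?_⟩
    rw [← div_le_iff₀' hω]
    exact (le_max_right _ _).trans (le_max_right _ _)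
  have hr : 1 ≤ r := ha.trans hra
  have hr0 : 0 < r := by linarith
  have hH := hΛ 1 r one_pos (by linarith)
  have hq : 0 < ‖x₀‖ + 20 / β + |Λ₄| + 1 := by positivity
  have hq' : 0 < r / (ω * β / 2000) := by positivity
  obtain ⟨δ, hδ, h2, h3⟩ : ∃ δ : ℝ, 0 < δ ∧ r / (ω * β / 2000) ≤ 1 / δ ∧
      ‖x₀‖ + 20 / β + |Λ₄| + 1 ≤ 1 / δ :=
    ⟨1 / (r / (ω * β / 2000) + (‖x₀‖ + 20 / β + |Λ₄| + 1)), by positivity,
      by rw [one_div_one_div]; linarith, by rw [one_div_one_div]; linarith⟩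
  have h1 : δ ≤ ω * β / 2000 := by
    rw [div_le_div_iff₀ hωβ0 hδ] at h2
    nlinarith
  have hδ1 : δ ≤ 1 := by linarith
  have hr1 : r ≤ 1 / δ := by
    refine le_trans ?_ h2
    rw [le_div_iff₀ hωβ0]
    exact mul_le_of_le_one_right hr0.le (by linarith)
  have hδr : δ * 1 ≤ ω * β / 2000 * r := by nlinarith
  have hev : ∀ᶠ k in (U : Filter ℕ), 2 * r ≤ Rk k := hR.eventually_ge_atTop _
  have hN : ∀ k, 2 * r ≤ Rk k → Near (Mk k) (νk k) (4 * ω) x₀ r := fun k h => by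
    have e1 := ((hk k).2.2.2.near (2 * r) (by linarith) h).shift (q := x₀) (hk k).2.1.unit
      (by linarith) hω.le (by linarith) (by rw [sub_zero]; nlinarith)
    rwa [mul_div_cancel_left₀ r two_ne_zero] at e1
  have hA := fun k h => hANG (Mk k) β (4 * ω) (ω * β / 2000) r (νk k) x₀ (hk k).1 (hk k).2.1 hr0
    (by linarith) hωβ0 (by linarith) (hN k h)
  rcases hTRI U Mk (fun _ => x₀) (fun _ => 1) (fun k => (hk k).1) (fun _ => one_pos)
    (hCOR U Mk (fun k => (hk k).1) x₀ hx₀ 1 one_pos) with ⟨n, hn⟩ | ⟨n, hn⟩ | ⟨n₁, n₂, -, hn⟩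
  · filter_upwards [hev, hn δ hδ hδ1] with k h hF
    exact absurd (fun x hx hlt => hF.side x (ball_subset_ball hr1 hx) (hδr.trans_lt hlt))
      ((hA k h).1 n hF.unit)
  · filter_upwards [hev, hn δ hδ hδ1] with k h hF
    exact absurd (fun x hx hlt => hF.side x (ball_subset_ball hr1 hx) (hδr.trans_lt hlt))
      ((hA k h).2.1 n hF.unit)
  · filter_upwards [hev, hn δ hδ hδ1] with k h hC
    exact LBA.one hMONO hANG hCMPN (hk k).1 (hk k).2.1 hω hωβ hK hr hrx hH hδ h1 h2 h3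
      (hk k).2.2.1 ((hk k).2.2.2.dat (2 * r) (by linarith) h)
      ((hk k).2.2.2.close (2 * r) (by linarith) h) (hN k h) hC

end MW.CI
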