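import Pool.Agent.P.MP_064970_gt.SC

/-! Case I, row LBX. Sketch:
M' = M.zoom c b. P' r = (normals of Pf (b r), constants ((Pf (b r)).c i - <c, n i>)/b), so P'.f i
x = (Pf (b r)).f i (c + b x)/b; hh K b (b r) = b hh K 1 r. Surf.zoom_S, zoom_W, zoom_W', zoom_N,
zoom_Theta. Transfer DatOn to M' on [a, R/b] and GoodOn back from M' (p = c + b p'). s = b s'. -/

open MeasureTheory Set Filter Topology Metric
open scoped RealInnerProductSpace ENNReal ComplexConjugate Real

noncomputable section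

namespace MW.CI

theorem lbx_ball {c p x : E} {b r : ℝ} (hb : 0 < b) :
    c + b • x ∈ ball (c + b • p) (b * r) ↔ x ∈ ball p r := by
  rw [mem_ball_iff_norm, mem_ball_iff_norm, add_sub_add_left_eq_sub, ← smul_sub, norm_smul,
    Real.norm_of_nonneg hb.le, mul_lt_mul_iff_right₀ hb]

theorem lbx_near (M : Surf) (ν : Bool → E) (ω : ℝ) (c p : E) {b : ℝ} (r : ℝ) (hb : 0 < b) :
    Near (M.zoom c b) ν ω p r ↔ Near M ν ω (c + b • p) (b * r) := by
  have h1 : ∀ (x : E) (i : Bool), ⟪c + b • x - (c + b • p), ν i⟫ = b * ⟪x - p, ν i⟫ := by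
    intro x i
    rw [add_sub_add_left_eq_sub, ← smul_sub, real_inner_smul_left]
  have h2 : ∀ t : ℝ, ω * (b * r) < |b * t| ↔ ω * r < |t| := by
    intro t
    rw [abs_mul, abs_of_pos hb, mul_left_comm, mul_lt_mul_iff_right₀ hb]
  have hb2 : 0 < b * b := mul_pos hb hb
  have h3 : ∀ s t : ℝ, b * s * (b * t) < 0 ↔ s * t < 0 := by
    intro s t
    rw [show b * s * (b * t) = b * b * (s * t) by ring]
    constructor
    · intro h
      by_contra h'
      exact absurd h (not_lt.2 (mul_nonneg hb2.le (not_lt.1 h')))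
    · intro h
      exact mul_neg_of_pos_of_neg hb2 h
  have h4 : ∀ s t : ℝ, 0 < b * s * (b * t) ↔ 0 < s * t := by
    intro s t
    rw [show b * s * (b * t) = b * b * (s * t) by ring, mul_pos_iff_of_pos_left hb2]
  constructor
  · intro h y hy
    obtain ⟨x, rfl⟩ : ∃ x, y = c + b • x :=
      ⟨b⁻¹ • (y - c), by rw [smul_inv_smul₀ hb.ne']; abel⟩
    rw [h1, h1, h2, h2, h3, h4, ← M.zoom_W c hb, ← M.zoom_W' c hb]
    exact h x ((lbx_ball hb).1 hy)
  · intro h x hx
    have := h _ ((lbx_ball hb).2 hx)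
    rwa [h1, h1, h2, h2, h3, h4, ← M.zoom_W c hb, ← M.zoom_W' c hb] at this

/-- The planes after the zoom. -/
def lbxP (P : Pl) (c : E) (b : ℝ) : Pl := ⟨P.n, fun i => (P.c i - ⟪c, P.n i⟫) / b⟩

theorem lbx_f (P : Pl) (c : E) {b : ℝ} (hb : 0 < b) (i : Bool) (x : E) :
    P.f i (c + b • x) = b * (lbxP P c b).f i x := by
  simp only [Pl.f, lbxP, inner_add_left, real_inner_smul_left]
  field_simp
  ring

theorem lbx_hh (K r : ℝ) {b : ℝ} (hb : 0 < b) : hh K b (b * r) = b * hh K 1 r := by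
  rw [hh, hh, mul_div_cancel_left₀ _ hb.ne', div_one]
  ring

theorem lbx_dat {M : Surf} {ν : Bool → E} {η K b r : ℝ} {c : E} {P : Pl} (hb : 0 < b)
    (h : Dat M ν η K b c (b * r) P) : Dat (M.zoom c b) ν η K 1 0 r (lbxP P c b) := by
  have hx : ∀ x ∈ (M.zoom c b).S ∩ ball 0 r, c + b • x ∈ M.S ∩ ball c (b * r) := by
    intro x hx
    refine ⟨(M.zoom_S c hb x).1 hx.1, ?_⟩
    have := (lbx_ball (c := c) hb).2 hx.2
    rwa [smul_zero, add_zero] at this
  have key : ∀ (i : Bool) (x : E),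
      |P.f i (c + b • x)| ≤ K * b * (b * r / |P.f (!i) (c + b • x)|) ^ (1 / 4 : ℝ) →
      |(lbxP P c b).f i x| ≤ K * 1 * (r / |(lbxP P c b).f (!i) x|) ^ (1 / 4 : ℝ) := by
    intro i x h
    rw [lbx_f P c hb, lbx_f P c hb, abs_mul, abs_mul, abs_of_pos hb, mul_div_mul_left _ _ hb.ne']
      at h
    refine le_of_mul_le_mul_left ?_ hb
    calc _ ≤ _ := h
      _ = _ := by ring
  refine ⟨?_, ?_, ?_⟩
  · intro i
    have h1 := h.ctr i
    have h2 := lbx_f P c hb i 0
    rw [smul_zero, add_zero] at h2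
    rw [h2, lbx_hh _ _ hb, abs_mul, abs_of_pos hb] at h1
    exact le_of_mul_le_mul_left h1 hb
  · intro i x hxx h1
    have h2 := h.pos i _ (hx x hxx) (by
      rw [lbx_f P c hb, lbx_hh _ _ hb]
      exact mul_le_mul_of_nonneg_left h1 hb.le)
    exact ⟨key i x h2.1, by rw [M.zoom_N c hb]; exact h2.2⟩
  · intro i x hxx h1
    have h2 := h.neg i _ (hx x hxx) (by
      rw [lbx_f P c hb, lbx_hh _ _ hb, ← mul_neg]
      exact mul_le_mul_of_nonneg_left h1 hb.le)
    exact ⟨key i x h2.1, by rw [M.zoom_N c hb]; exact h2.2⟩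

theorem c_lbx_of (hLB : C_LB) : C_LBX := by
  intro β η ω K a Λ₄ C hη hω hωβ hK ha
  obtain ⟨Λ₁, hΛ, H⟩ := hLB β η ω K a Λ₄ C hη hω hωβ hK ha
  refine ⟨Λ₁, hΛ, ?_⟩
  intro M ν b R c Pf hM hν hb hR hΘ hD hG
  have hsc : ∀ r : ℝ, a ≤ r → r ≤ R / b → a * b ≤ b * r ∧ b * r ≤ R := by
    intro r h1 h2
    refine ⟨by nlinarith, ?_⟩
    rw [le_div_iff₀ hb] at h2
    linarith
  have hD' : DatOn (M.zoom c b) ν η ω K 1 0 a (R / b) (fun r => lbxP (Pf (b * r)) c b) := by
    refine ⟨?_, ?_, ?_, ?_⟩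
    · intro r h1 h2
      exact lbx_dat hb (hD.dat _ (hsc r h1 h2).1 (hsc r h1 h2).2)
    · intro r h1 h2
      have := hD.close _ (hsc r h1 h2).1 (hsc r h1 h2).2
      exact ⟨this.unit, this.close⟩
    · intro r h1 h2
      rw [lbx_near M ν ω c 0 r hb, smul_zero, add_zero]
      exact hD.near _ (hsc r h1 h2).1 (hsc r h1 h2).2
    · intro r r' h1 h2 h3 h4 i
      have := hD.drift (b * r) (b * r') (hsc r h1 (h2.trans h4)).1
        (mul_le_mul_of_nonneg_left h2 hb.le) (by nlinarith) (hsc r' (h1.trans h2) h4).2 i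
      have e : K * b / (b * r) = K * 1 / r := by
        have : 0 < r := by linarith
        field_simp
      rw [e] at this
      exact this
  have hΘ0 : ∀ s : ℝ, (M.zoom c b).Θ 0 s = M.Θ c (b * s) := by
    intro s
    rw [M.zoom_Θ c hb, smul_zero, add_zero]
  obtain ⟨s, hs1, hs2, hs3⟩ := H (M.zoom c b) ν (R / b) _ (hM.zoom c hb) hν
    (by rw [le_div_iff₀ hb]; exact hR) (by rw [hΘ0, mul_one]; exact hΘ) hD' (by
      intro p hp hp' hg
      refine hG (c + b • p) (by simp [hp]) ?_ ⟨by linarith, ?_, ?_⟩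
      · rw [add_sub_cancel_left, norm_smul, Real.norm_of_nonneg hb.le, mul_comm]
        exact mul_le_mul_of_nonneg_right hp' hb.le
      · have := hg.dens
        rwa [M.zoom_Θ c hb, mul_one_div] at this
      · intro r h1 h2
        have := hg.near (r / b) (by rw [le_div_iff₀ hb]; linarith) (by rwa [div_le_iff₀ hb])
        rwa [lbx_near M ν ω c p _ hb, mul_div_cancel₀ _ hb.ne'] at this)
  refine ⟨b * s, by nlinarith, by nlinarith, ?_⟩
  have hs0 : 0 < s := by linarith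
  have e : b / (b * s) = 1 / s := by field_simp
  rw [hΘ0] at hs3
  rw [e]
  calc C * b * (1 / s) ^ (1 / 12 : ℝ) = b * (C * (1 / s) ^ (1 / 12 : ℝ)) := by ring
    _ ≤ b * (s * (2 - M.Θ c (b * s))) := mul_le_mul_of_nonneg_left hs3 hb.le
    _ = _ := by ring

end MW.CI
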