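import Pool.Agent.P.MP_064970_gt.SC

/-! Case I, row LEV: the levels. -/

open MeasureTheory Set Filter Topology Metric
open scoped RealInnerProductSpace ENNReal ComplexConjugate Real

noncomputable section

namespace MW.CI

namespace LEV

theorem le_div_small {x r d : ℝ} (hd : 0 < d) (hd1 : d ≤ 1 / 100) (hr : 0 < r) (hx : x ≤ 4 * r) :
    x < r / d := by
  rw [lt_div_iff₀ hd]
  have h1 : x * d ≤ 4 * r * d := mul_le_mul_of_nonneg_right hx hd.le
  have h2 : 4 * r * d ≤ 4 * r * (1 / 100) := mul_le_mul_of_nonneg_left hd1 (by linarith)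
  linarith

/-- The pattern at a point of high density from the picture at the origin. -/
theorem near_top {M : Surf} {ω d R b r : ℝ} {ν : Bool → E} {p : E} (hMONO : S_MONO) (hM : M.Mem)
    (hω : 0 < ω) (hω1 : ω ≤ 1 / 10) (hd : 0 < d) (hdω : d ≤ ω / 10) (hG : GOn M ν d ω 1 R)
    (hr1 : 1 ≤ r) (hrR : r ≤ R) (hp : ‖p‖ ≤ 3 * r) (hb0 : 0 < b) (hb : b ≤ ω / 10 * r)
    (hΘ : 3 / 2 ≤ M.Θ p b) :
    Near M ν ω p r ∧ ∀ i, |⟪p, ν i⟫| ≤ ω / 4 * r := by
  obtain ⟨ν', hX, hν'⟩ := hG r hr1 hrR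
  have hr : 0 < r := by linarith
  have hd1 : d ≤ 1 / 100 := by linarith
  have hdr : d * r ≤ ω / 10 * r := mul_le_mul_of_nonneg_right hdω hr.le
  have hωr : ω / 10 * r ≤ 1 / 100 * r := mul_le_mul_of_nonneg_right (by linarith) hr.le
  have hωr0 : 0 < ω / 10 * r := by positivity
  have hin : ∀ i, |⟪p - 0, ν' i⟫| ≤ ω / 10 * r / 2 := by
    intro i
    refine (cross_bool hX i).2.2.2.2 p ?_ _ hdr ?_ (hΘ.trans (Θ_mono hMONO hM p hb0 hb))
    · rw [mem_ball, dist_zero_right]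
      exact le_div_small hd hd1 hr (by linarith)
    · exact (le_div_small hd hd1 hr (by linarith)).le
  refine ⟨near_of_cross hX (by positivity) hω.le (fun i => (hν' i).trans (by linarith)) hin ?_
    (by linarith), fun i => ?_⟩
  · refine ball_subset_ball' ?_
    rw [dist_zero_right]
    exact (le_div_small hd hd1 hr (by linarith)).le
  · have h1 := abs_inner_sub_le p (ν' i) (ν i)
    have h2 : ‖p‖ * ‖ν' i - ν i‖ ≤ 3 * r * (ω / 16) :=
      mul_le_mul hp (hν' i) (norm_nonneg _) (by linarith)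
    have h3 := hin i
    rw [sub_zero] at h3
    have h4 := abs_sub_abs_le_abs_sub ⟪p, ν i⟫ ⟪p, ν' i⟫
    rw [abs_sub_comm] at h4
    linarith

theorem le_k {ω d : ℝ} (hω : 0 < ω) (hω1 : ω ≤ 1 / 10) (hd : 0 < d) : d ≤ 10 * d / ω := by
  rw [le_div_iff₀ hω]
  nlinarith

/-- The origin is a good centre. -/
theorem good_zero {M : Surf} {ω d R : ℝ} {ν : Bool → E} (hMONO : S_MONO) (hM : M.Mem)
    (hω : 0 < ω) (hω1 : ω ≤ 1 / 10) (hd : 0 < d) (hdω : d ≤ ω / 10) (hR : 1 ≤ R)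
    (hG : GOn M ν d ω 1 R) : GoodOn M ν ω 0 (10 * d / ω) R := by
  have hd1 : d ≤ 1 / 100 := by linarith
  refine ⟨by positivity, ?_, fun r hkr hrR => ?_⟩
  · obtain ⟨ν', hX, -⟩ := hG 1 le_rfl hR
    have h1 := hX.dens 0 (mem_ball_self (by positivity)) (by simp) (by simp)
    rw [mul_one] at h1
    have h2 := Θ_mono hMONO hM 0 hd (le_k hω hω1 hd)
    linarith
  · have hr : 0 < r := lt_of_lt_of_le (by positivity) hkr
    obtain ⟨ν', hX, hν'⟩ := hG (max 1 r) (le_max_left _ _) (max_le hR hrR)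
    have hm : 0 < max 1 r := lt_of_lt_of_le one_pos (le_max_left _ _)
    refine near_of_cross (ζ := 0) hX (by positivity) hω.le
      (fun i => (hν' i).trans (by linarith)) (fun i => by simp) ?_ ?_
    · exact ball_subset_ball
        (le_div_small hd hd1 hm (by linarith [le_max_right 1 r])).le
    · have h1 : 10 * d ≤ r * ω := (div_le_iff₀ hω).mp hkr
      have h2 : d * r ≤ ω / 10 * r := mul_le_mul_of_nonneg_right hdω hr.le
      have h3 : 0 < ω * r := by positivity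
      rcases le_total 1 r with h | h
      · rw [max_eq_right h]; linarith
      · rw [max_eq_left h]; linarith

/-- A centre at every height. -/
theorem lev_top {M : Surf} {β ω d R t : ℝ} {ν : Bool → E} (hMONO : S_MONO) (hM : M.Mem)
    (hν : IsRef β ν) (hω : 0 < ω) (hωβ : ω ≤ β / 10) (hd : 0 < d) (hdω : d ≤ ω / 10)
    (hG : GOn M ν d ω 1 R) (ht : 1 + |t| ≤ R) : Lev M ν ω R t (10 * d / ω * (1 + |t|)) := by
  have hβ := hν.pos
  have hω1 : ω ≤ 1 / 10 := by linarith [hν.le_one]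
  have hd1 : d ≤ 1 / 100 := by linarith
  have ht0 := abs_nonneg t
  have hs1 : 1 ≤ 1 + |t| := by linarith
  have hs : 0 < 1 + |t| := by linarith
  obtain ⟨ν', hX, hν'⟩ := hG _ hs1 ht
  obtain ⟨v, hv2, hv, hvn⟩ := hν.exists_solve (fun i => (cross_bool hX i).1)
    (fun i => (hν' i).trans (by linarith)) (fun i => -(t * ν' i 2))
  have hg : ∀ i, |-(t * ν' i 2)| ≤ |t| * (β / 4) := by
    intro i
    rw [abs_neg, abs_mul]
    refine mul_le_mul_of_nonneg_left ?_ ht0
    have h1 := abs_two_le (ν' i - ν i)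
    have h2 : (ν' i - ν i) 2 = ν' i 2 := by simp [hν.hor i]
    rw [h2] at h1
    linarith [hν' i]
  have hvn' : ‖v‖ ≤ |t| := by
    have h1 : 2 / β * (|-(t * ν' false 2)| + |-(t * ν' true 2)|)
        ≤ 2 / β * (|t| * (β / 4) + |t| * (β / 4)) :=
      mul_le_mul_of_nonneg_left (add_le_add (hg false) (hg true)) (by positivity)
    have h2 : 2 / β * (|t| * (β / 4) + |t| * (β / 4)) = |t| := by field_simp; ring
    linarith
  have hpn : ‖t • e3 + v‖ ≤ 2 * |t| := by
    have h1 := norm_add_le (t • e3) v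
    rw [norm_smul, norm_e3, Real.norm_eq_abs] at h1
    linarith
  have hp0 : ∀ i, ⟪t • e3 + v - 0, ν' i⟫ = 0 := by
    intro i
    rw [sub_zero, inner_add_left, real_inner_smul_left, e3_inner, hv i]
    ring
  have hds : 0 < d * (1 + |t|) := by positivity
  have hΘ : 3 / 2 ≤ M.Θ (t • e3 + v) (d * (1 + |t|)) := by
    have h1 := hX.dens (t • e3 + v) (by
      rw [mem_ball, dist_zero_right]
      exact le_div_small hd hd1 hs (by linarith)) (hp0 false) (hp0 true)
    linarith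
  refine ⟨t • e3 + v, by simp [hv2], by linarith, by positivity, ?_, fun r hkr hrR => ?_⟩
  · exact hΘ.trans (Θ_mono hMONO hM _ hds (mul_le_mul_of_nonneg_right (le_k hω hω1 hd) hs.le))
  · rcases le_total r (1 + |t|) with h | h
    · refine near_of_cross (ζ := 0) hX hds.le hω.le (fun i => (hν' i).trans (by linarith))
        (fun i => by rw [hp0 i, abs_zero]) ?_ ?_
      · refine ball_subset_ball' ?_
        rw [dist_zero_right]
        exact (le_div_small hd hd1 hs (by linarith)).le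
      · have h1 : ω * (10 * d / ω * (1 + |t|)) = 10 * (d * (1 + |t|)) := by field_simp
        have h2 := mul_le_mul_of_nonneg_left hkr hω.le
        linarith
    · exact (near_top hMONO hM hω hω1 hd hdω hG (hs1.trans h) hrR (by linarith) hds
        (mul_le_mul hdω h hs.le (by positivity)) hΘ).1

end LEV

open LEV in
theorem c_lev_of (hMONO : S_MONO) : C_LEV := by
  intro M β ω d R ν hM hν hω hωβ hd hdω hR hG
  have hω1 : ω ≤ 1 / 10 := by linarith [hν.le_one]
  have hk : 0 < 10 * d / ω := by positivity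
  have h0 := good_zero hMONO hM hω hω1 hd hdω hR hG
  refine ⟨h0, fun r hr1 hrR => ?_⟩
  have hbdd : ∀ r' : ℝ, BddBelow {b : ℝ | 0 < b ∧ ∀ t : ℝ, 1 + |t| ≤ 3 * r' → Lev M ν ω R t b} :=
    fun r' => ⟨0, fun b hb => hb.1.le⟩
  have hmem : 3 * (10 * d / ω) * r ∈
      {b : ℝ | 0 < b ∧ ∀ t : ℝ, 1 + |t| ≤ 3 * r → Lev M ν ω R t b} := by
    refine ⟨by positivity, fun t ht => ?_⟩
    refine (lev_top hMONO hM hν hω hωβ hd hdω hG (by linarith)).mono hMONO hM ?_
    have := mul_le_mul_of_nonneg_left ht hk.le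
    linarith
  have hB0 : 0 ≤ Bl M ν ω R r := le_csInf ⟨_, hmem⟩ fun b hb => hb.1.le
  have hup : ∀ b, Bl M ν ω R r < b → ∀ t : ℝ, 1 + |t| ≤ 3 * r → Lev M ν ω R t b := by
    intro b hb t ht
    obtain ⟨b', hb', hlt⟩ := exists_lt_of_csInf_lt ⟨_, hmem⟩ hb
    exact (hb'.2 t ht).mono hMONO hM hlt.le
  refine ⟨hB0, csInf_le (hbdd r) hmem, fun r' hr' => ?_, hup, fun hpos => ?_, fun η C₁ H => ?_⟩
  · exact csInf_le_csInf (hbdd r') ⟨_, hmem⟩ fun b hb => ⟨hb.1, fun t ht => hb.2 t (by linarith)⟩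
  · by_contra h
    push Not at h
    have h1 : Bl M ν ω R r ≤ 3 / 4 * Bl M ν ω R r := csInf_le (hbdd r) ⟨by linarith, h⟩
    linarith
  · refine ⟨H 0 _ (h0.mono hMONO hM (by linarith) le_rfl), fun t ht => ?_, by linarith⟩
    have h2 : (0 : E) 2 = 0 := rfl
    rw [h2, sub_zero] at ht
    obtain ⟨c, hc2, hcn, hc⟩ := hup (2 * Bl M ν ω R r + 10 * d / ω) (by linarith) t (by linarith)
    exact ⟨c, hc2, by rw [sub_zero]; linarith, H c _ hc⟩

end MW.CI
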