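import Pool.Agent.P.MP_064970_gt.SC

/-! Case I, row LL: the decay lemma. -/

open MeasureTheory Set Filter Topology Metric
open scoped RealInnerProductSpace ENNReal ComplexConjugate Real

noncomputable section

namespace MW.CI

namespace LL

variable {M : Surf} {β σ κ r : ℝ} {ν : Bool → E} {p : E} {G : Bool → Set E}

theorem meas (hS : Sheets M ν σ κ p r G) (i : Bool) : MeasurableSet (G i) := by
  obtain ⟨U, hU, e⟩ := hS.opn i
  rw [e]
  exact M.measurableSet_S.inter hU.measurableSet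

theorem const_le (hM : M.Mem) {A : Set E} (hA : Bornology.IsBounded A) (hAm : MeasurableSet A)
    {f g : E → ℝ} (hf : IntegrableOn f A M.μ) (hg : IntegrableOn g A M.μ) {c B : ℝ}
    (h : ∀ x ∈ A ∩ M.S, f x ≤ c * g x + B) :
    ∫ x in A, f x ∂M.μ ≤ c * ∫ x in A, g x ∂M.μ + B * M.μ.real A := by
  have hc : IntegrableOn (fun _ => B) A M.μ := integrableOn_const (hM.bd.lt_top hA).ne
  have h1 : ∫ x in A, f x ∂M.μ ≤ ∫ x in A, (c * g x + B) ∂M.μ := by
    refine setIntegral_mono_on_ae hf ((hg.const_mul c).add hc) hAm ?_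
    filter_upwards [M.ae_mem] with x hx hxA using h x ⟨hxA, hx⟩
  rw [integral_add (hg.const_mul c) hc, integral_const_mul, setIntegral_const, smul_eq_mul,
    mul_comm _ B] at h1
  exact h1

theorem cmp (hM : M.Mem) (hr : 0 < r) {A : Set E} (hA : A ⊆ ball p r) (hAm : MeasurableSet A)
    {f g : E → ℝ} (hf : IntegrableOn f A M.μ) (hg : IntegrableOn g A M.μ) {c B : ℝ} (hB : 0 ≤ B)
    (h : ∀ x ∈ A ∩ M.S, f x ≤ c * g x + B) :
    ∫ x in A, f x ∂M.μ ≤ c * ∫ x in A, g x ∂M.μ + B * (8 * r ^ 2) := by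
  have h1 := const_le hM (isBounded_ball.subset hA) hAm hf hg h
  have h2 : M.μ.real A ≤ 8 * r ^ 2 := by
    refine (measureReal_mono hA (hM.bd.lt_top isBounded_ball).ne).trans
      ((hM.bd.real_ball p hr).trans ?_)
    have := Real.pi_le_four
    have : 0 < r ^ 2 := by positivity
    nlinarith
  have h3 := mul_le_mul_of_nonneg_left h2 hB
  linarith

theorem split (hM : M.Mem) (hν : IsRef β ν) (hS : Sheets M ν σ κ p r G) (hσ : σ ≤ β / 2)
    (hκ : 0 ≤ κ) {s : ℝ} (hs : s ≤ r) (i : Bool) {f : E → ℝ}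
    (hf : ∀ A : Set E, Bornology.IsBounded A → MeasurableSet A → IntegrableOn f A M.μ)
    (h0 : ∀ x, 0 ≤ f x) {B : ℝ} (hB0 : 0 ≤ B) (hB : ∀ x ∈ ball p r ∩ M.S, f x ≤ B) :
    ∫ x in ball p s ∩ typ M β ν i, f x ∂M.μ ≤ ∫ x in G i ∩ ball p s, f x ∂M.μ + B * κ := by
  have m1 : MeasurableSet (G i ∩ ball p s) := (meas hS i).inter measurableSet_ball
  have m2 : MeasurableSet (ball p r \ (G false ∪ G true)) :=
    measurableSet_ball.diff ((meas hS _).union (meas hS _))
  have b1 : Bornology.IsBounded (G i ∩ ball p s) := isBounded_ball.subset inter_subset_right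
  have b2 : Bornology.IsBounded (ball p r \ (G false ∪ G true)) :=
    isBounded_ball.subset sdiff_subset
  have hd : Disjoint (G i ∩ ball p s) (ball p r \ (G false ∪ G true)) := by
    refine disjoint_left.2 fun x hx hx' => hx'.2 ?_
    cases i
    · exact Or.inl hx.1
    · exact Or.inr hx.1
  have h1 : ∫ x in ball p s ∩ typ M β ν i, f x ∂M.μ ≤
      ∫ x in (G i ∩ ball p s) ∪ (ball p r \ (G false ∪ G true)), f x ∂M.μ := by
    refine setIntegral_mono_set (hf _ (b1.union b2) (m1.union m2)) (Eventually.of_forall h0) ?_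
    filter_upwards [M.ae_mem] with x hx hxA
    by_cases hi : x ∈ G i
    · exact Or.inl ⟨hi, hxA.1⟩
    · have hi' : x ∉ G (!i) := fun h => not_typ hν hx ((hS.nrm _ x h).trans hσ) hxA.2
      refine Or.inr ⟨ball_subset_ball hs hxA.1, ?_⟩
      cases i
      · exact fun h => h.elim hi hi'
      · exact fun h => h.elim hi' hi
  rw [setIntegral_union hd m2 (hf _ b1 m1) (hf _ b2 m2)] at h1
  have h2 := const_le hM b2 m2 (hf _ b2 m2) (hf _ b2 m2) (c := 0) (B := B) fun x hx => by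
    rw [zero_mul, zero_add]
    exact hB x ⟨hx.1.1, hx.2⟩
  have h3 : M.μ.real (ball p r \ (G false ∪ G true)) ≤ κ :=
    ENNReal.toReal_le_of_le_ofReal hκ hS.rest
  have h4 := mul_le_mul_of_nonneg_left h3 hB0
  linarith

theorem sq_le {w u d D : ℝ} (h0 : 0 ≤ w) (h : w ≤ u + d) (hd : d ≤ D) (hD0 : 0 ≤ D)
    (hD : D ≤ 1 / 2) : w ^ 2 ≤ 2 * u ^ 2 + D := by
  have h6 : w ^ 2 ≤ (u + D) ^ 2 := pow_le_pow_left₀ h0 (by linarith) 2
  have h7 : D * D ≤ D * (1 / 2) := by gcongr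
  nlinarith [sq_nonneg (u - D)]

theorem arith {θ K L C σ a T k X Y : ℝ} (hθ : 0 < θ) (hC : 1 ≤ C) (hθC : C * θ ≤ 1 / 4)
    (hK : 1 + 4 * C / θ ^ 3 ≤ K) (hL : 0 < L) (hσ : 0 < σ) (hu : σ ≤ θ ^ 4 / (1000 * K * L * C))
    (ha : 0 ≤ a) (hT : 0 ≤ T) (hk : 0 ≤ k) (hX : X ≤ C * (θ ^ 4 * a + T + k) + 6 * k)
    (hY : Y ≤ L * (5 * σ / (16 * θ ^ 2) * (C * (256 * θ ^ 4 * a + T + k)) +
      5 * σ / (4 * θ) * (2 * T + 16 * (C * (a + k))) + k) + 2 * k) :
    X / θ ^ 2 + K * (Y / θ) ≤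
      θ / 2 * (a + K * T) + (1 + K * (L + 2) / θ + (C + 6) / θ ^ 2) * k := by
  have hθ1 : θ ≤ 1 := by nlinarith
  have h3 : 0 ≤ 4 * C / θ ^ 3 := by positivity
  have hK1 : 1 ≤ K := by linarith
  have h4 : θ ^ 4 ≤ 1 := pow_le_one₀ hθ.le hθ1
  have e1 : C * (256 * θ ^ 4 * a + T + k) ≤ 256 * (C * (a + T + k)) := by
    have : θ ^ 4 * a ≤ a := mul_le_of_le_one_left ha h4
    have : 256 * θ ^ 4 * a + T + k ≤ 256 * (a + T + k) := by linarith
    have := mul_le_mul_of_nonneg_left this (by linarith : 0 ≤ C)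
    linarith
  have e2 : 2 * T + 16 * (C * (a + k)) ≤ 16 * (C * (a + T + k)) := by nlinarith
  have e3 : 5 * σ / (4 * θ) ≤ 5 * σ / (4 * θ ^ 2) := by
    have : θ ^ 2 ≤ θ := by nlinarith
    gcongr
  have hw : 0 ≤ C * (a + T + k) := by positivity
  have e4 : 5 * σ / (16 * θ ^ 2) * (C * (256 * θ ^ 4 * a + T + k)) +
      5 * σ / (4 * θ) * (2 * T + 16 * (C * (a + k))) ≤ 100 * σ / θ ^ 2 * (C * (a + T + k)) := by
    calc _ ≤ 5 * σ / (16 * θ ^ 2) * (256 * (C * (a + T + k))) +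
          5 * σ / (4 * θ ^ 2) * (16 * (C * (a + T + k))) := by gcongr
      _ = _ := by
        field_simp
        ring
  have e5 : K * (L * (100 * σ / θ ^ 2 * (C * (a + T + k))) / θ) ≤ θ / 10 * (a + T + k) := by
    calc _ ≤ K * (L * (100 * (θ ^ 4 / (1000 * K * L * C)) / θ ^ 2 * (C * (a + T + k))) / θ) := by
          gcongr
      _ = _ := by
        field_simp
        ring
  have e6 : K * (Y / θ) ≤ θ / 10 * (a + T + k) + K * (L + 2) / θ * k := by
    calc _ ≤ K * ((L * (100 * σ / θ ^ 2 * (C * (a + T + k)) + k) + 2 * k) / θ) := by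
          have : L * (5 * σ / (16 * θ ^ 2) * (C * (256 * θ ^ 4 * a + T + k)) +
              5 * σ / (4 * θ) * (2 * T + 16 * (C * (a + k))) + k) ≤
              L * (100 * σ / θ ^ 2 * (C * (a + T + k)) + k) := by gcongr
          gcongr
          linarith
      _ = K * (L * (100 * σ / θ ^ 2 * (C * (a + T + k))) / θ) + K * (L + 2) / θ * k := by ring
      _ ≤ _ := by linarith
  have e7 : X / θ ^ 2 ≤ C * θ * (θ * a) + 4 * C / θ ^ 3 * (θ / 4 * T) + (C + 6) / θ ^ 2 * k := by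
    calc _ ≤ (C * (θ ^ 4 * a + T + k) + 6 * k) / θ ^ 2 := by gcongr
      _ = _ := by
        field_simp
        ring
  have e8 : C * θ * (θ * a) ≤ 1 / 4 * (θ * a) := by gcongr
  have e9 : 4 * C / θ ^ 3 * (θ / 4 * T) ≤ K * (θ / 4 * T) := by
    gcongr
    linarith
  have e10 : θ * T ≤ K * (θ * T) := le_mul_of_one_le_left (by positivity) hK1
  have e11 : θ * k ≤ k := mul_le_of_le_one_left hk hθ1
  have e12 : 0 ≤ θ * a := by positivity
  have e13 : 0 ≤ θ * T := by positivity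
  nlinarith

end LL

open LL in
theorem c_ll_of (hLLA : C_LLA) (hEXT : C_EXT) (hCACC : C_CACC) : C_LL := by
  intro β hβ
  obtain ⟨C, hC, hA⟩ := hLLA β hβ
  obtain ⟨C₂, c₀, hC₂, hc₀, hCa⟩ := hCACC
  obtain ⟨θ, hθd⟩ : ∃ θ : ℝ, θ = 1 / (2000 * C) := ⟨_, rfl⟩
  have hθ : 0 < θ := by rw [hθd]; positivity
  have hθC : C * θ = 1 / 2000 := by rw [hθd]; field_simp
  have hθ1 : θ ≤ 1 / 2000 := by nlinarith
  obtain ⟨K, hKd⟩ : ∃ K : ℝ, K = 1 + 4 * C / θ ^ 3 := ⟨_, rfl⟩
  have hK : 1 ≤ K := by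
    have : 0 ≤ 4 * C / θ ^ 3 := by positivity
    linarith
  obtain ⟨L, hLd⟩ : ∃ L : ℝ, L = 2 * C₂ / β := ⟨_, rfl⟩
  have hL : 0 < L := by rw [hLd]; positivity
  obtain ⟨C', hC'd⟩ : ∃ C' : ℝ, C' = 1 + K * (L + 2) / θ + (C + 6) / θ ^ 2 := ⟨_, rfl⟩
  have hC' : 0 ≤ C' := by rw [hC'd]; positivity
  refine ⟨θ, K, min (min (β / 1000) (c₀ * β / 8)) (min (θ / 2) (θ ^ 4 / (1000 * K * L * C))),
    1 / (100 * C), C + C', hθ, hθ1, hK, by positivity, by positivity, by linarith, ?_⟩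
  intro M ν σ κ r p G P hM hν hσ hσ₀ hr hκ hS hP hψ hκ'
  simp only [le_min_iff] at hσ₀
  obtain ⟨⟨s1, s2⟩, s3, s4⟩ := hσ₀
  have hβ1 := hν.le_one
  obtain ⟨a, had⟩ : ∃ a : ℝ, aex M β ν P p r = a * r ^ 3 :=
    ⟨aex M β ν P p r / r ^ 3, by field_simp⟩
  obtain ⟨T, hTd⟩ : ∃ T : ℝ, tex M β ν P p r = T * r ^ 2 :=
    ⟨tex M β ν P p r / r ^ 2, by field_simp⟩
  obtain ⟨k, rfl⟩ : ∃ k : ℝ, κ = k * r ^ 2 := ⟨κ / r ^ 2, by field_simp⟩
  have hr2 : 0 < r ^ 2 := by positivity
  have hr3 : 0 < r ^ 3 := by positivity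
  have ha : 0 ≤ a := nonneg_of_mul_nonneg_left (had ▸ aex_nonneg M β ν P p r) hr3
  have hT : 0 ≤ T := nonneg_of_mul_nonneg_left (hTd ▸ tex_nonneg M β ν P p r) hr2
  have hk : 0 ≤ k := nonneg_of_mul_nonneg_left hκ hr2
  have hpsi : psi M β ν K P p r = (a + K * T) * r := by
    rw [psi, had, hTd]
    field_simp
  have hKT : 0 ≤ K * T := by positivity
  have ha1 : a ≤ 1 / (100 * C) * σ := by
    rw [hpsi] at hψ
    linarith [le_of_mul_le_mul_right hψ hr]
  have hk1 : k ≤ 1 / (100 * C) * σ := le_of_mul_le_mul_right hκ' hr2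
  have hCa1 : C * a ≤ σ / 100 := by
    calc C * a ≤ C * (1 / (100 * C) * σ) := by gcongr
      _ = _ := by field_simp
  have hCk1 : C * k ≤ σ / 100 := by
    calc C * k ≤ C * (1 / (100 * C) * σ) := by gcongr
      _ = _ := by field_simp
  have ha2 : a ≤ C * a := le_mul_of_one_le_left ha hC
  have hk2 : k ≤ C * k := le_mul_of_one_le_left hk hC
  have hκ4 : k * r ^ 2 ≤ r ^ 2 / 4 := by
    have : k * r ^ 2 ≤ 1 / 4 * r ^ 2 := by
      gcongr
      linarith
    linarith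
  obtain ⟨hPp, Q, hQ, hQt⟩ := hA M ν σ _ r p G P hM hν hσ s1 hr hκ hκ4 hS
    (hP.mono (by linarith)) (by
      have : a * r ^ 3 ≤ 1 / 1000 * r ^ 3 := by
        gcongr
        linarith
      linarith)
  obtain ⟨D, hDd⟩ : ∃ D : ℝ, D = C * (a + k) := ⟨_, rfl⟩
  have hD0 : 0 ≤ D := by rw [hDd]; positivity
  have hD : D ≤ σ / 50 := by rw [hDd]; linarith
  have eD : C * (aex M β ν P p r / r ^ 2 + k * r ^ 2 / r) = D * r := by
    rw [had, hDd]
    field_simp
  rw [eD] at hQ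
  have hQn : ∀ i, ‖Q.n i - P.n i‖ ≤ D := fun i => by
    have h1 := (hQ i).2
    have h2 := abs_nonneg (Q.f i p - P.f i p)
    exact le_of_mul_le_mul_left (by linarith) hr
  have hQc : Q.Close ν σ := (hP.trans (fun i => (hQ i).1) hQn).mono (by linarith)
  have hQf : ∀ i, ∀ x ∈ ball p r ∩ M.S, |Q.f i x| ≤ 3 * r := by
    intro i x hx
    have h1 := hQc.abs_f_le i x p
    have h2 : ‖x - p‖ < r := mem_ball_iff_norm.1 hx.1
    have h3 := (hQ i).2
    have h4 : 0 ≤ r * ‖Q.n i - P.n i‖ := by positivity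
    have h5 := abs_sub_abs_le_abs_sub (Q.f i p) (P.f i p)
    have h6 := hPp i
    have h7 : D * r ≤ 1 * r := by
      gcongr
      linarith
    linarith
  have hθr : θ * r ≤ r := mul_le_of_le_one_left hr.le (by linarith)
  have hX : aex M β ν Q p (θ * r) ≤ (C * (θ ^ 4 * a + T + k) + 6 * k) * r ^ 3 := by
    have h1 := hQt θ hθ (by linarith)
    have h2 := fun i => split hM hν hS (by linarith) hκ hθr i
      (fun A b m => integrableOn_f hM Q i b m) (fun _ => abs_nonneg _) (by positivity) (hQf i)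
    have h3 := h2 false
    have h4 := h2 true
    rw [had, hTd, Fintype.sum_bool] at h1
    rw [aex, Fintype.sum_bool]
    linarith
  have hX1 : aex M β ν Q p r ≤ (a + 16 * D) * r ^ 3 := by
    have h2 := fun i => cmp hM hr (inter_subset_left (t := typ M β ν i))
      (measurableSet_ball.inter (measurableSet_typ M β ν i))
      (integrableOn_f hM Q i (isBounded_ball.subset inter_subset_left)
        (measurableSet_ball.inter (measurableSet_typ M β ν i)))
      (integrableOn_f hM P i (isBounded_ball.subset inter_subset_left)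
        (measurableSet_ball.inter (measurableSet_typ M β ν i))) (p := p) (c := 1) (B := D * r)
      (by positivity) fun x hx => by
        have h1 := Pl.abs_f_sub P Q i x p
        have h2 : ‖x - p‖ < r := mem_ball_iff_norm.1 hx.1.1
        have h3 := (hQ i).2
        have h4 : ‖x - p‖ * ‖Q.n i - P.n i‖ ≤ r * ‖Q.n i - P.n i‖ := by gcongr
        have h5 := abs_sub_abs_le_abs_sub (Q.f i x) (P.f i x)
        linarith
    have h3 := h2 false
    have h4 := h2 true
    rw [aex, Fintype.sum_bool] at had ⊢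
    linarith
  choose A hAe using fun i => exists_iso_e3 (hQ i).1
  obtain ⟨v, hv⟩ := hEXT M β σ _ r ν p G Q A hM hν hσ (by linarith) hr hκ hκ4 hS hQc hAe
  obtain ⟨h, hhd⟩ : ∃ h : ℝ, h = 4 * σ * r + 2 * (aex M β ν Q p r / r ^ 2) := ⟨_, rfl⟩
  rw [← hhd] at hv
  have hh : h ≤ 5 * σ * r := by
    have h1 : aex M β ν Q p r / r ^ 2 ≤ (a + 16 * D) * r := by
      rw [div_le_iff₀ hr2]
      linarith
    have h2 : (a + 16 * D) * r ≤ σ / 2 * r := by
      gcongr
      linarith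
    linarith
  have hρ : 4 * θ * r ≤ r / 2 := by nlinarith only [hθ1, hr]
  have hw : β / 2 ≤ wedge (Q.n false) (Q.n true) := by
    have := hν.wedge_near hQc.unit hQc.close false
    simp only [Bool.not_false] at this
    linarith
  have hc := hCa M Q A G v (β / 2) (4 * σ) h _ p (4 * θ * r) hM (hv.mono hρ) (by positivity) hw
    (by linarith) hκ (by positivity) (hh.trans (by gcongr ?_ * r; linarith))
  rw [show 4 * θ * r / 4 = θ * r by ring] at hc
  have hsub : ∀ j, G j ∩ ball p (4 * θ * r) ⊆ ball p r := fun j => inter_subset_left.trans (hS.sub j)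
  have hW : ∑ j, ∫ x in G j ∩ ball p (4 * θ * r), wedge (M.N x) (Q.n j) ^ 2 ∂M.μ ≤
      (2 * T + 16 * (C * (a + k))) * r ^ 2 := by
    have h1 := sum_le_tex (β := β) (ν := ν) (p := p) (r := r) hM P
      (A := fun j => G j ∩ ball p (4 * θ * r)) fun j x hx =>
        ⟨hsub j hx.1, lt_of_le_of_lt (hS.nrm j x hx.1.1) (by linarith)⟩
    have h2 := fun j => cmp hM hr (hsub j) ((meas hS j).inter measurableSet_ball)
      (integrableOn_wedge hM (Q.n j) (isBounded_ball.subset (hsub j))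
        ((meas hS j).inter measurableSet_ball))
      (integrableOn_wedge hM (P.n j) (isBounded_ball.subset (hsub j))
        ((meas hS j).inter measurableSet_ball)) (c := 2) (B := D) hD0 fun x hx => by
        exact sq_le (wedge_nonneg _ _) (wedge_le_add (M.N x) (M.N_unit x hx.2) (hQ j).1
          (hP.unit j)) (hQn j) hD0 (by linarith only [hD, s1, hβ1])
    have h3 := h2 false
    have h4 := h2 true
    rw [hTd, Fintype.sum_bool] at h1
    rw [Fintype.sum_bool, ← hDd]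
    linarith
  have hF := hQt (4 * θ) (by positivity) (by linarith)
  have hY1 : ∑ j, ∫ x in G j ∩ ball p (θ * r), wedge (M.N x) (Q.n j) ^ 2 ∂M.μ ≤
      L * (5 * σ / (16 * θ ^ 2) * (C * (256 * θ ^ 4 * a + T + k)) +
        5 * σ / (4 * θ) * (2 * T + 16 * (C * (a + k))) + k) * r ^ 2 := by
    have n1 : 0 ≤ ∑ j, ∫ x in G j ∩ ball p (4 * θ * r), |Q.f j x| ∂M.μ :=
      Finset.sum_nonneg fun _ _ => integral_nonneg fun _ => abs_nonneg _
    have n2 : 0 ≤ ∑ j, ∫ x in G j ∩ ball p (4 * θ * r), wedge (M.N x) (Q.n j) ^ 2 ∂M.μ :=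
      Finset.sum_nonneg fun _ _ => integral_nonneg fun _ => sq_nonneg _
    rw [had, hTd] at hF
    refine le_of_mul_le_mul_left (hc.trans ?_) (half_pos hβ)
    calc _ ≤ C₂ * (5 * σ * r / (4 * θ * r) ^ 2 *
          (C * ((4 * θ) ^ 4 * (a * r ^ 3) + (T * r ^ 2 + k * r ^ 2) * r)) +
          5 * σ * r / (4 * θ * r) * ((2 * T + 16 * (C * (a + k))) * r ^ 2) + k * r ^ 2) :=
          mul_le_mul_of_nonneg_left (add_le_add (add_le_add
            (mul_le_mul (div_le_div_of_nonneg_right hh (by positivity)) hF n1 (by positivity))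
            (mul_le_mul (div_le_div_of_nonneg_right hh (by positivity)) hW n2 (by positivity)))
            le_rfl) hC₂.le
      _ = _ := by
        rw [hLd]
        field_simp
        ring
  have hY : tex M β ν Q p (θ * r) ≤
      (L * (5 * σ / (16 * θ ^ 2) * (C * (256 * θ ^ 4 * a + T + k)) +
        5 * σ / (4 * θ) * (2 * T + 16 * (C * (a + k))) + k) + 2 * k) * r ^ 2 := by
    have h2 := fun i => split hM hν hS (by linarith) hκ hθr i
      (fun A b m => integrableOn_wedge hM (Q.n i) b m) (fun _ => sq_nonneg _) zero_le_one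
      fun x hx => pow_le_one₀ (wedge_nonneg _ _) (wedge_le_one (M.N_unit x hx.2) (hQ i).1)
    have h3 := h2 false
    have h4 := h2 true
    rw [Fintype.sum_bool] at hY1
    rw [tex, Fintype.sum_bool]
    linarith
  have key := arith hθ hC (by linarith) hKd.ge hL hσ s4 ha hT hk ((div_le_iff₀ hr3).2 hX)
    ((div_le_iff₀ hr2).2 hY)
  have ek : k * r ^ 2 / r = k * r := by field_simp
  rw [hpsi, ek]
  refine ⟨hPp, Q, fun i => ⟨(hQ i).1, (hQ i).2.trans ?_⟩, ?_⟩
  · calc D * r = C * (a * r + k * r) := by rw [hDd]; ring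
      _ ≤ _ := by
        gcongr <;> linarith
  · have e : psi M β ν K Q p (θ * r) = (aex M β ν Q p (θ * r) / r ^ 3 / θ ^ 2 +
        K * (tex M β ν Q p (θ * r) / r ^ 2 / θ)) * r := by
      rw [psi]
      field_simp
    have h1 := mul_le_mul_of_nonneg_right key hr.le
    have h2 : 0 ≤ C * (k * r) := by positivity
    rw [← hC'd] at h1
    rw [e]
    linarith

end MW.CI
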