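import Pool.Agent.P.MP_064970_gt.SC

/-! Case I, row LLA: the new planes and their height excess. -/

open MeasureTheory Set Filter Topology Metric
open scoped RealInnerProductSpace ENNReal ComplexConjugate Real

noncomputable section

namespace MW.CI

namespace LLA

variable {M : Surf} {A : E ≃ₗᵢ[ℝ] E} {c σ h κ ρ : ℝ} {G : Set E} {v : ℂ → ℝ} {p : E}

theorem int_ball {f : ℂ → ℝ} (hf : Continuous f) (y : ℂ) (s : ℝ) : IntegrableOn f (ball y s) :=
  (hf.continuousOn.integrableOn_compact (isCompact_closedBall y s)).mono_set ball_subset_closedBall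

theorem n3_le (H : OneG M A c G v σ h κ p ρ) {x : E} (hx : x ∈ G) : |⟪M.N x, A e3⟫| ≤ 1 := by
  have := abs_real_inner_le_norm (M.N x) (A e3)
  rwa [M.N_unit x (H.basic.2.1 hx), A.norm_map, norm_e3, mul_one] at this

/-- The mean of the graph function is bounded by the height excess. -/
theorem vabs (hARG : C_ARG) (hM : M.Mem) (H : OneG M A c G v σ h κ p ρ) (hκ : 0 ≤ κ) :
    ∫ y in ball (prA A p) ρ, |v y| ≤ (∫ x in G, |⟪x, A e3⟫ - c| ∂M.μ) + h * κ := by
  obtain ⟨hm, hS, hi, -, hv, -, -, -, -, hh⟩ := H.basic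
  obtain ⟨hD, hvol, hI⟩ := hARG M A G hm hS hi
  obtain ⟨hI, hE⟩ := hI (fun y => |v y|) hv.abs.measurable
  have h1 : IntegrableOn (fun y => |v y|) (prA A '' G) :=
    Measure.integrableOn_of_bounded (M := h) (hvol.trans_lt (hM.bd.lt_top H.bdd)).ne
      hv.abs.aestronglyMeasurable (ae_of_all _ fun y => by
        rw [Real.norm_eq_abs, abs_abs]
        exact H.bd y)
  have hf : IntegrableOn (fun x : E => |⟪x, A e3⟫ - c|) G M.μ :=
    hM.bd.integrableOn H.bdd (by fun_prop) (C := h) (fun x hx => by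
      rw [abs_abs, ← H.gr x hx.1]
      exact H.bd _) hm
  rw [← integral_inter_add_sdiff hD (int_ball hv.abs _ _)]
  refine add_le_add ?_ ?_
  · refine (setIntegral_mono_set h1 (ae_of_all _ fun y => abs_nonneg _)
      inter_subset_right.eventuallyLE).trans ?_
    rw [← hE]
    refine setIntegral_mono_on (hI.1 h1) hf hm fun x hx => ?_
    rw [H.gr x hx]
    exact mul_le_of_le_one_right (abs_nonneg _) (n3_le H hx)
  · refine (Real.le_norm_self _).trans ((norm_setIntegral_le_of_norm_le_const (C := h)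
      (f := fun y => |v y|) (H.cover.trans_lt ENNReal.ofReal_lt_top) fun y _ => ?_).trans ?_)
    · rw [Real.norm_eq_abs, abs_abs]
      exact H.bd y
    · exact mul_le_mul_of_nonneg_left (ENNReal.toReal_le_of_le_ofReal hκ H.cover) hh

/-- From the plane to the sheet. -/
theorem newht (hARG : C_ARG) (hM : M.Mem) (H : OneG M A c G v σ h κ p ρ) (hσ : σ ≤ 1 / 2)
    (Q : Pl) (i : Bool) {f : ℂ → ℝ} (hf : Continuous f) (hf0 : ∀ y, 0 ≤ f y)
    (hle : ∀ x ∈ G, |Q.f i x| ≤ f (prA A x)) (s : ℝ) :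
    ∫ x in G ∩ ball p s, |Q.f i x| ∂M.μ ≤ 2 * ∫ y in ball (prA A p) s, f y := by
  obtain ⟨hm, hS, hi, -⟩ := H.basic
  have hm' := hm.inter (measurableSet_ball (x := p) (ε := s))
  obtain ⟨-, -, hI⟩ := hARG M A (G ∩ ball p s) hm' (inter_subset_left.trans hS)
    (hi.mono inter_subset_left)
  obtain ⟨hI, hE⟩ := hI f hf.measurable
  have hsub : prA A '' (G ∩ ball p s) ⊆ ball (prA A p) s := by
    rintro _ ⟨x, hx, rfl⟩
    exact mem_ball_iff_norm.2 ((norm_prA_sub_le A x p).trans_lt (mem_ball_iff_norm.1 hx.2))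
  have h1 := int_ball hf (prA A p) s
  refine le_trans ?_ (mul_le_mul_of_nonneg_left
    (setIntegral_mono_set h1 (ae_of_all _ hf0) hsub.eventuallyLE) zero_le_two)
  rw [← hE, ← integral_const_mul]
  refine setIntegral_mono_on (integrableOn_f hM Q i (H.bdd.subset inter_subset_left) hm')
    ((hI.1 (h1.mono_set hsub)).const_mul 2) hm' fun x hx => ?_
  have h2 := (le_abs_inner (M.N_unit x (hS hx.1)) (by rw [A.norm_map, norm_e3]) (H.nrm x hx.1)
    hσ).1
  have h3 := mul_le_mul_of_nonneg_left h2 (hf0 (prA A x))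
  have h4 := hle x hx.1
  linarith

end LLA

theorem c_lla_of (hEXT : C_EXT) (hWEP : C_WEP) (hMOLL : C_MOLL) (hARG : C_ARG) : C_LLA := by
  obtain ⟨C₁, hC₁, hWEP⟩ := hWEP
  obtain ⟨C₂, hC₂, hMOLL⟩ := hMOLL
  intro β hβ
  have hq : 0 < 2 * C₁ / β := by positivity
  refine ⟨1 + 1024 * C₂ + C₂ * (2 * C₁ / β), by linarith [mul_pos hC₂ hq],
    fun M ν σ κ r p G P hM hν hσ hσβ hr hκ hκr hG hP ha => ?_⟩
  choose A hA using fun i => exists_iso_e3 (hP.unit i)
  obtain ⟨v, H⟩ := hEXT M β σ κ r ν p G P A hM hν hσ (by linarith) hr hκ hκr hG hP hA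
  have hβ1 := hν.le_one
  have ha0 := aex_nonneg M β ν P p r
  have ht0 := tex_nonneg M β ν P p r
  have hsub : ∀ i, G i ∩ M.S ⊆ ball p r ∩ typ M β ν i := fun i x hx =>
    ⟨hG.sub i hx.1, (hG.nrm i x hx.1).trans_lt (by linarith)⟩
  have hB : ∑ j, ∫ x in G j ∩ ball p (r / 2), wedge (M.N x) (P.n j) ^ 2 ∂M.μ ≤
      tex M β ν P p r := sum_le_tex hM P fun i x hx => hsub i ⟨hx.1.1, hx.2⟩
  have hI : ∀ i, ∫ x in G i, |⟪x, A i e3⟫ - P.c i| ∂M.μ ≤ aex M β ν P p r := fun i => by
    rw [hA]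
    exact le_aex hM P (hsub i)
  generalize aex M β ν P p r = a at *
  generalize tex M β ν P p r = τ at *
  have hh : 4 * σ * r + 2 * (a / r ^ 2) ≤ r / 100 := by
    have h1 : a / r ^ 2 ≤ r / 1000 := by
      rw [div_le_iff₀ (by positivity)]
      linarith
    have h2 : σ * r ≤ 1 / 1000 * r := by gcongr; linarith
    linarith
  generalize 4 * σ * r + 2 * (a / r ^ 2) = h at *
  have hσ2 : 4 * σ ≤ 1 / 2 := by linarith
  have hw : β / 2 ≤ wedge (P.n false) (P.n true) :=
    le_trans (by linarith) (hν.wedge_near hP.unit hP.close false)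
  have hfp : ∀ i, |P.f i p| ≤ r := fun i => by
    have := (H.one i).ctr
    rw [hA] at this
    exact this.trans (by linarith)
  have hv : ∀ i, ∫ y in ball (prA (A i) p) (r / 4), |v i y| ≤ a + r * κ := fun i => by
    have h1 := LLA.vabs hARG hM ((H.one i).mono (by linarith : r / 4 ≤ r / 2)) hκ
    have h2 : h * κ ≤ r * κ := by gcongr; linarith
    linarith [hI i]
  have key := fun i => hMOLL (v i) (4 * σ) (2 * C₁ / β * (τ + κ)) (r / 4) (prA (A i) p)
    (H.one i).lip (by positivity) (by positivity) fun z L hz hs hL => by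
      have h1 := hWEP M P A G v (β / 2) (4 * σ) h κ p (r / 2) hM H (by positivity) hw hσ2 hκ
        (by positivity) (by linarith) i z L hz (by rwa [show r / 2 / 2 = r / 4 by ring]) hL
      have hL0 := (norm_nonneg _).trans (hL 0)
      have h2 : β / 2 * |∫ y, fderiv ℝ z y (gradient (v i) y)| ≤ C₁ * (τ + κ) * L :=
        h1.trans (by gcongr)
      rw [← le_div_iff₀' (by positivity)] at h2
      exact h2.trans_eq (by field_simp)
  choose l g hlg hap using key
  choose n c' hn hng hnc using fun i => exists_aff (A i) (P.c i) (l i) (g i) (prA (A i) p)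
  refine ⟨hfp, ⟨n, c'⟩, fun i => ⟨hn i, ?_⟩, fun t ht ht' => ?_⟩
  · have h1 := hng i
    have h2 := (hnc i p).2
    rw [hA] at h1 h2
    rw [sub_self, inner_zero_right, add_zero] at h2
    have h3 : ‖g i‖ * |⟪p, P.n i⟫ - P.c i| ≤ ‖g i‖ * r :=
      mul_le_mul_of_nonneg_left (hfp i) (norm_nonneg _)
    have h4 : r * ‖n i - P.n i‖ ≤ r * ‖g i‖ := by gcongr
    have h5 : 2 * r * ‖g i‖ + |l i| ≤ 128 * C₂ * (a / r ^ 2 + κ / r) := by
      have e : a / r ^ 2 + κ / r = (a + r * κ) / r ^ 2 := by field_simp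
      rw [e, ← mul_div_assoc, le_div_iff₀ (by positivity)]
      have h6 := (hlg i).trans (mul_le_mul_of_nonneg_left (hv i) hC₂.le)
      have h7 : 0 ≤ |l i| * r ^ 2 := by positivity
      linarith
    have h6 : 128 * C₂ * (a / r ^ 2 + κ / r) ≤
        (1 + 1024 * C₂ + C₂ * (2 * C₁ / β)) * (a / r ^ 2 + κ / r) := by
      gcongr
      linarith [mul_pos hC₂ hq]
    change r * ‖n i - P.n i‖ + |⟪p, n i⟫ - c' i - (⟪p, P.n i⟫ - P.c i)| ≤ _
    linarith
  · have h1 : ∀ i, ∫ x in G i ∩ ball p (t * r), |Pl.f ⟨n, c'⟩ i x| ∂M.μ ≤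
        2 * (C₂ * (4 * t) ^ 4 * (a + r * κ) + C₂ * (2 * C₁ / β * (τ + κ)) * (r / 4)) := fun i => by
      have hc := (H.one i).basic.2.2.2.2.1
      refine (LLA.newht hARG hM (H.one i) hσ2 ⟨n, c'⟩ i
        (f := fun y => |v i y - (l i + ⟪g i, y - prA (A i) p⟫)|) (by fun_prop)
        (fun y => abs_nonneg _) (fun x hx => ?_) (t * r)).trans ?_
      · simp only [(H.one i).gr x hx]
        exact (hnc i x).1
      · have h2 := hap i (4 * t) (by positivity) (by linarith)
        rw [show 4 * t * (r / 4) = t * r by ring] at h2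
        refine mul_le_mul_of_nonneg_left (h2.trans ?_) zero_le_two
        gcongr
        exact hv i
    rw [Fintype.sum_bool]
    refine (add_le_add (h1 true) (h1 false)).trans ?_
    have h2 : t ^ 4 ≤ 1 := pow_le_one₀ ht.le (by linarith)
    have h3 : C₂ * (r * κ) * t ^ 4 ≤ C₂ * (r * κ) * 1 := by gcongr
    have h4 : 0 ≤ t ^ 4 * a := by positivity
    have h5 : 0 ≤ (τ + κ) * r := by positivity
    have h6 : 0 ≤ C₂ * (τ * r) := by positivity
    have h7 := mul_nonneg (mul_pos hC₂ hq).le h4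
    generalize 2 * C₁ / β = q at *
    linarith

end MW.CI
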