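import Pool.Agent.P.MP_064970_gt.SC

/-! Case I, row MOLA. Sketch:
w x = int lam(|y-x|^2) v y, w_s x = (int lam(|y-x|^2/s^2) v y)/s^2. Taylor: copy point, G, norm_G
from the team-store file MWD_GT.lean: l0 = w 0, g = int v y G y (over ball 0 4; lam(|y-x|^2) = 0
for |y| >= 2, |x| <= 1), |w x - l0 - <g,x>| <= 104|x|^2 int_{ball 0 4}|v|. |w_s - v| <= sigma s
(integral_lam). int_{ball 0 t}|w - w_s| <= C eps: phi = indicator(ball 0 t) * sign(w - w_s), z y =
int phi x k(y-x) (convolution; HasCompactSupport.contDiff_convolution_right,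
hasFDerivAt_convolution_right), tsupport z in closedBall 0 2, |Dz| <= int|Dk|, Fubini and KER give
int Dz(gradient v) = int phi (w - w_s). Let s -> 0. -/

open MeasureTheory Set Filter Topology Metric
open scoped RealInnerProductSpace ENNReal ComplexConjugate Real

noncomputable section

namespace MW.CI

namespace MOLA

theorem cube {u v : ℝ} (hu : u ≤ 1) (hv : v ≤ 1) :
    |max v 0 ^ 3 - max u 0 ^ 3 - 3 * max u 0 ^ 2 * (v - u)| ≤ 3 * (v - u) ^ 2 := by
  have h0 := sq_nonneg (v - u)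
  rcases le_total 0 u with h1 | h1 <;> rcases le_total 0 v with h2 | h2
  · rw [max_eq_left h1, max_eq_left h2,
      show v ^ 3 - u ^ 3 - 3 * u ^ 2 * (v - u) = (v + 2 * u) * (v - u) ^ 2 by ring,
      abs_of_nonneg (by positivity)]
    exact mul_le_mul_of_nonneg_right (by linarith) h0
  · rw [max_eq_left h1, max_eq_right h2,
      show (0 : ℝ) ^ 3 - u ^ 3 - 3 * u ^ 2 * (v - u) = u * (u * (2 * u - 3 * v)) by ring,
      abs_of_nonneg (mul_nonneg h1 (mul_nonneg h1 (by linarith)))]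
    have h3 : u * (2 * u - 3 * v) ≤ 3 * (v - u) ^ 2 := by nlinarith
    have h4 : 0 ≤ u * (2 * u - 3 * v) := mul_nonneg h1 (by linarith)
    nlinarith
  · rw [max_eq_right h1, max_eq_left h2,
      show v ^ 3 - (0 : ℝ) ^ 3 - 3 * 0 ^ 2 * (v - u) = v * v ^ 2 by ring,
      abs_of_nonneg (by positivity)]
    have h3 : v ^ 2 ≤ (v - u) ^ 2 := by nlinarith
    nlinarith [sq_nonneg v]
  · rw [max_eq_right h1, max_eq_right h2]
    simp only [ne_eq, OfNat.ofNat_ne_zero, not_false_eq_true, zero_pow, sub_self, mul_zero,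
      zero_mul, abs_zero]
    positivity

/-- The derivative of `lam`. -/
def L (s : ℝ) : ℝ := -(12 / π) * max (1 - s) 0 ^ 2

/-- The gradient in `y` of `lam (‖w - y‖ ^ 2)` at `y = 0`. -/
def G (w : ℂ) : ℂ := (-(2 * L (‖w‖ ^ 2))) • w

theorem pi_le : 12 / π ≤ 4 := by
  rw [div_le_iff₀ Real.pi_pos]
  linarith [Real.pi_gt_three]

theorem L_zero {s : ℝ} (hs : 1 ≤ s) : L s = 0 := by
  rw [L, max_eq_right (by linarith)]
  simp

theorem abs_L {s : ℝ} (hs : 0 ≤ s) : |L s| ≤ 4 := by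
  have h1 : max (1 - s) 0 ^ 2 ≤ 1 :=
    pow_le_one₀ (le_max_right _ _) (max_le (by linarith) zero_le_one)
  have h2 : 0 < 12 / π := by positivity
  rw [L, neg_mul, abs_neg, abs_of_nonneg (by positivity)]
  nlinarith [pi_le]

theorem taylor {a b : ℝ} (ha : 0 ≤ a) (hb : 0 ≤ b) :
    |lam b - lam a - L a * (b - a)| ≤ 4 * (b - a) ^ 2 := by
  have h1 := cube (u := 1 - a) (v := 1 - b) (by linarith) (by linarith)
  have e : lam b - lam a - L a * (b - a) = 4 / π *
      (max (1 - b) 0 ^ 3 - max (1 - a) 0 ^ 3 - 3 * max (1 - a) 0 ^ 2 * (1 - b - (1 - a))) := by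
    rw [lam, lam, L]
    ring
  have h2 : 0 < 4 / π := by positivity
  rw [e, abs_mul, abs_of_pos h2]
  calc _ ≤ 4 / π * (3 * (1 - b - (1 - a)) ^ 2) := mul_le_mul_of_nonneg_left h1 h2.le
    _ = 12 / π * (b - a) ^ 2 := by ring
    _ ≤ 4 * (b - a) ^ 2 := mul_le_mul_of_nonneg_right pi_le (sq_nonneg _)

theorem norm_G (w : ℂ) : ‖G w‖ ≤ 104 := by
  rcases le_total 1 ‖w‖ with h | h
  · rw [G, L_zero (one_le_pow₀ h)]
    simp
  · have h1 := abs_L (sq_nonneg ‖w‖)
    rw [G, norm_smul, Real.norm_eq_abs, abs_neg, abs_mul, abs_two]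
    nlinarith [norm_nonneg w, abs_nonneg (L (‖w‖ ^ 2))]

theorem continuous_G : Continuous G := by
  unfold G L
  fun_prop

theorem point (w : ℂ) {y : ℂ} (hy : ‖y‖ ≤ 1) :
    |lam (‖w - y‖ ^ 2) - (lam (‖w‖ ^ 2) + ⟪y, G w⟫)| ≤ 104 * ‖y‖ ^ 2 := by
  rcases le_total 2 ‖w‖ with h | h
  · have h1 : 1 ≤ ‖w - y‖ := by linarith [norm_sub_norm_le w y]
    have h2 : 1 ≤ ‖w‖ ^ 2 := one_le_pow₀ (by linarith)
    rw [G, L_zero h2, lam_eq_zero h2, lam_eq_zero (one_le_pow₀ h1)]
    simp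
  · have h1 := taylor (sq_nonneg ‖w‖) (sq_nonneg ‖w - y‖)
    have h2 := abs_L (sq_nonneg ‖w‖)
    have h3 : ‖w - y‖ ^ 2 - ‖w‖ ^ 2 = ‖y‖ ^ 2 - 2 * ⟪w, y⟫ := by
      rw [norm_sub_sq_real]
      ring
    have h4 := abs_le.1 (abs_real_inner_le_norm w y)
    have h5 := norm_nonneg y
    have h6 : ‖w‖ * ‖y‖ ≤ 2 * ‖y‖ := mul_le_mul_of_nonneg_right h h5
    have h7 : ‖y‖ ^ 2 ≤ ‖y‖ := by nlinarith
    have h8 : (‖y‖ ^ 2 - 2 * ⟪w, y⟫) ^ 2 ≤ (5 * ‖y‖) ^ 2 :=
      sq_le_sq' (by nlinarith [sq_nonneg ‖y‖]) (by linarith)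
    have e : lam (‖w - y‖ ^ 2) - (lam (‖w‖ ^ 2) + ⟪y, G w⟫) =
        lam (‖w - y‖ ^ 2) - lam (‖w‖ ^ 2) - L (‖w‖ ^ 2) * (‖w - y‖ ^ 2 - ‖w‖ ^ 2) +
          L (‖w‖ ^ 2) * ‖y‖ ^ 2 := by
      rw [h3, G, real_inner_smul_right, real_inner_comm]
      ring
    rw [e]
    refine (abs_add_le _ _).trans ?_
    rw [abs_mul, abs_of_nonneg (sq_nonneg ‖y‖)]
    rw [h3] at h1
    rw [h3]
    nlinarith [sq_nonneg ‖y‖]

theorem abs_lam (w : ℂ) : ‖lam (‖w‖ ^ 2)‖ ≤ 104 := by
  rw [Real.norm_eq_abs, abs_of_nonneg (lam_nonneg _)]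
  have h1 := lam_le (sq_nonneg ‖w‖)
  have h2 : 4 / π = 12 / π / 3 := by ring
  linarith [pi_le]

theorem bound {F : Type*} [NormedAddCommGroup F] [NormedSpace ℝ F] {A : ℂ → ℝ} (hA : Integrable A)
    {f : ℂ → F} {c : ℝ} (h : ∀ w, ‖f w‖ ≤ c) : ‖∫ w, A w • f w‖ ≤ c * ∫ w, |A w| := by
  rw [← integral_const_mul]
  refine norm_integral_le_of_norm_le (hA.abs.const_mul c) (ae_of_all _ fun w => ?_)
  rw [norm_smul, Real.norm_eq_abs, mul_comm]
  exact mul_le_mul_of_nonneg_right (h w) (abs_nonneg _)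

theorem tay {A : ℂ → ℝ} (hA : Integrable A) {y : ℂ} (hy : ‖y‖ ≤ 1) :
    |(∫ w, A w * lam (‖w - y‖ ^ 2)) - ((∫ w, A w * lam (‖w‖ ^ 2)) + ⟪∫ w, A w • G w, y⟫)|
      ≤ 104 * ‖y‖ ^ 2 * ∫ w, |A w| := by
  have i1 : ∀ y : ℂ, Integrable fun w => A w * lam (‖w - y‖ ^ 2) := fun y =>
    hA.mul_bdd (contDiff_lam.continuous.comp (by fun_prop)).aestronglyMeasurable
      (ae_of_all _ fun w => abs_lam (w - y))
  have i0 : Integrable fun w => A w * lam (‖w‖ ^ 2) := by simpa using i1 0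
  have i2 : Integrable fun w => A w • G w :=
    hA.smul_bdd 104 continuous_G.aestronglyMeasurable (ae_of_all _ norm_G)
  have i3 : Integrable fun w => A w * lam (‖w‖ ^ 2) + ⟪y, A w • G w⟫ :=
    i0.add (i2.const_inner y)
  rw [real_inner_comm, ← integral_inner i2, ← integral_add i0 (i2.const_inner y),
    ← integral_sub (i1 y) i3]
  refine le_trans (le_of_eq ?_) (bound hA (f := fun w =>
    lam (‖w - y‖ ^ 2) - (lam (‖w‖ ^ 2) + ⟪y, G w⟫)) fun w => point w hy)
  rw [Real.norm_eq_abs]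
  congr 2
  funext w
  rw [real_inner_smul_right, smul_eq_mul]
  ring

variable {v : ℂ → ℝ} {σ : ℝ}

theorem sig_nonneg (hv : ∀ y z, |v y - v z| ≤ σ * ‖y - z‖) : 0 ≤ σ := by
  have h := (abs_nonneg _).trans (hv 1 0)
  simpa using h

theorem cont (hv : ∀ y z, |v y - v z| ≤ σ * ‖y - z‖) : Continuous v := by
  have h : LipschitzWith ⟨σ, sig_nonneg hv⟩ v := LipschitzWith.of_dist_le_mul fun y z => by
    rw [Real.dist_eq, dist_eq_norm]
    exact hv y z
  exact h.continuous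

theorem norm_grad (hv : ∀ y z, |v y - v z| ≤ σ * ‖y - z‖) (y : ℂ) : ‖gradient v y‖ ≤ σ := by
  unfold gradient
  rw [LinearIsometryEquiv.norm_map]
  exact norm_fderiv_le_of_lip' ℝ (sig_nonneg hv) (Eventually.of_forall fun x => hv x y)

theorem meas_grad (v : ℂ → ℝ) : Measurable (gradient v) :=
  (InnerProductSpace.toDual ℝ ℂ).symm.continuous.measurable.comp (measurable_fderiv ℝ v)

theorem lam_far {x y : ℂ} {s : ℝ} (hs : 0 < s) (h : s ≤ ‖y - x‖) :
    lam (‖y - x‖ ^ 2 / s ^ 2) = 0 := by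
  refine lam_eq_zero ?_
  rw [le_div_iff₀ (by positivity), one_mul]
  exact pow_le_pow_left₀ hs.le h 2

theorem near (hv : ∀ y z, |v y - v z| ≤ σ * ‖y - z‖) {s : ℝ} (hs : 0 < s) (x : ℂ) :
    |(∫ y, lam (‖y - x‖ ^ 2 / s ^ 2) * v y) / s ^ 2 - v x| ≤ σ * s := by
  have hσ := sig_nonneg hv
  have i0 := integrable_lam x hs
  have hb : ∀ y, ‖lam (‖y - x‖ ^ 2 / s ^ 2) * (v y - v x)‖
      ≤ lam (‖y - x‖ ^ 2 / s ^ 2) * (σ * s) := fun y => by
    rcases le_total s ‖y - x‖ with h | h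
    · rw [lam_far hs h]
      simp
    · rw [Real.norm_eq_abs, abs_mul, abs_of_nonneg (lam_nonneg _)]
      exact mul_le_mul_of_nonneg_left ((hv y x).trans (mul_le_mul_of_nonneg_left h hσ))
        (lam_nonneg _)
  have hc : Continuous fun y => lam (‖y - x‖ ^ 2 / s ^ 2) * (v y - v x) :=
    (contDiff_lam.continuous.comp (by fun_prop)).mul ((cont hv).sub continuous_const)
  have i1 : Integrable fun y => lam (‖y - x‖ ^ 2 / s ^ 2) * (v y - v x) :=
    (i0.mul_const (σ * s)).mono' hc.aestronglyMeasurable (ae_of_all _ hb)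
  have e : (∫ y, lam (‖y - x‖ ^ 2 / s ^ 2) * v y) =
      (∫ y, lam (‖y - x‖ ^ 2 / s ^ 2) * (v y - v x)) + s ^ 2 * v x := by
    rw [← integral_lam x hs, ← integral_mul_const]
    rw [integral_lam x hs, ← integral_add i1 (i0.mul_const _)]
    congr 1
    funext y
    ring
  have h1 := norm_integral_le_of_norm_le (i0.mul_const (σ * s)) (ae_of_all _ hb)
  rw [integral_mul_const, integral_lam x hs, Real.norm_eq_abs] at h1
  have hs2 : 0 < s ^ 2 := by positivity
  rw [e, add_div, mul_div_cancel_left₀ _ hs2.ne', add_sub_cancel_right, abs_div,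
    abs_of_pos hs2, div_le_iff₀ hs2]
  linarith

/-- The duality argument. -/
theorem dual (hv : ∀ y z, |v y - v z| ≤ σ * ‖y - z‖) {ε C t : ℝ} (ht : t ≤ 1)
    (hz : ∀ (z : ℂ → ℝ) (L : ℝ), ContDiff ℝ 1 z → tsupport z ⊆ ball 0 4 →
      (∀ y, ‖fderiv ℝ z y‖ ≤ L) → |∫ y, fderiv ℝ z y (gradient v y)| ≤ ε * L)
    {k : ℂ → ℝ} (hk : ContDiff ℝ 1 k) (hk0 : ∀ y, 1 ≤ ‖y‖ → k y = 0)
    (hC : ∫ y, ‖fderiv ℝ k y‖ ≤ C) :
    IntegrableOn (fun x => |∫ y, fderiv ℝ k (y - x) (gradient v y)|) (ball 0 t) ∧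
      ∫ x in ball 0 t, |∫ y, fderiv ℝ k (y - x) (gradient v y)| ≤ ε * C := by
  have hσ := sig_nonneg hv
  have hcs : HasCompactSupport k := HasCompactSupport.intro (isCompact_closedBall 0 1)
    fun x hx => hk0 x (by
      rw [mem_closedBall_zero_iff, not_le] at hx
      exact hx.le)
  have hDc : Continuous (fderiv ℝ k) := hk.continuous_fderiv one_ne_zero
  have hDi : Integrable (fderiv ℝ k) := hDc.integrable_of_hasCompactSupport (hcs.fderiv ℝ)
  set D : ℂ → ℝ := fun x => ∫ y, fderiv ℝ k (y - x) (gradient v y) with hD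
  have hm : Measurable fun p : ℂ × ℂ => fderiv ℝ k (p.1 - p.2) (gradient v p.1) :=
    ContinuousLinearMap.measurable_apply₂.comp
      ((hDc.comp (by fun_prop)).measurable.prodMk ((meas_grad v).comp measurable_fst))
  have hDm : Measurable D := hm.stronglyMeasurable.integral_prod_left'.measurable
  have hb : ∀ x y, ‖fderiv ℝ k (y - x) (gradient v y)‖ ≤ ‖fderiv ℝ k (y - x)‖ * σ := fun x y =>
    (ContinuousLinearMap.le_opNorm _ _).trans
      (mul_le_mul_of_nonneg_left (norm_grad hv y) (norm_nonneg _))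
  have hDb : ∀ x, ‖D x‖ ≤ (∫ y, ‖fderiv ℝ k y‖) * σ := fun x => by
    refine (norm_integral_le_of_norm_le ((hDi.norm.comp_sub_right x).mul_const σ)
      (ae_of_all _ (hb x))).trans (le_of_eq ?_)
    rw [integral_mul_const, integral_sub_right_eq_self (fun y => ‖fderiv ℝ k y‖) x]
  have hfin : volume (ball (0 : ℂ) t) ≠ ∞ := measure_ball_lt_top.ne
  have hDI : IntegrableOn D (ball 0 t) :=
    Measure.integrableOn_of_bounded hfin hDm.aestronglyMeasurable (ae_of_all _ hDb)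
  refine ⟨hDI.abs, ?_⟩
  set φ : ℂ → ℝ := (ball 0 t).indicator fun x => if 0 ≤ D x then 1 else -1 with hφ
  have hsm : Measurable fun x => if 0 ≤ D x then (1 : ℝ) else -1 :=
    Measurable.ite (measurableSet_le measurable_const hDm) measurable_const measurable_const
  have hsb : ∀ x, ‖if 0 ≤ D x then (1 : ℝ) else -1‖ ≤ 1 := fun x => by
    split_ifs <;> simp
  have hφm : Measurable φ := hsm.indicator measurableSet_ball
  have hφi : Integrable φ := (integrable_indicator_iff measurableSet_ball).2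
    (Measure.integrableOn_of_bounded hfin hsm.aestronglyMeasurable (ae_of_all _ hsb))
  have hφb : ∀ x, ‖φ x‖ ≤ 1 := fun x => (norm_indicator_le_norm_self _ x).trans (hsb x)
  set z : ℂ → ℝ := convolution φ k (ContinuousLinearMap.lsmul ℝ ℝ) volume with hzdef
  have hzc : ContDiff ℝ 1 z :=
    hcs.contDiff_convolution_right (n := 1) _ hφi.locallyIntegrable hk
  have hzd : ∀ y, fderiv ℝ z y = ∫ x, φ x • fderiv ℝ k (y - x) := fun y => by
    rw [(hcs.hasFDerivAt_convolution_right _ hφi.locallyIntegrable hk y).fderiv]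
    unfold convolution
    congr 1
  have hzs : tsupport z ⊆ ball 0 4 := by
    refine (closure_minimal (t := closedBall 0 2) (fun y hy => ?_) isClosed_closedBall).trans
      (closedBall_subset_ball (by norm_num))
    by_contra h2
    rw [mem_closedBall_zero_iff, not_le] at h2
    refine hy (integral_eq_zero_of_ae (ae_of_all _ fun x => ?_))
    by_cases hx : x ∈ ball (0 : ℂ) t
    · rw [mem_ball_zero_iff] at hx
      have h3 : k (y - x) = 0 := hk0 _ (by linarith [norm_sub_norm_le y x])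
      simp [h3]
    · simp [hφ, indicator_of_notMem hx]
  have hi1 : ∀ y, Integrable fun x => ‖fderiv ℝ k (y - x)‖ := fun y => hDi.norm.comp_sub_left y
  have hb1 : ∀ y x, ‖φ x • fderiv ℝ k (y - x)‖ ≤ ‖fderiv ℝ k (y - x)‖ := fun y x => by
    rw [norm_smul]
    exact mul_le_of_le_one_left (norm_nonneg _) (hφb x)
  have hi2 : ∀ y, Integrable fun x => φ x • fderiv ℝ k (y - x) := fun y =>
    (hi1 y).mono' (hφm.aestronglyMeasurable.smul
      (hDc.comp (by fun_prop)).aestronglyMeasurable) (ae_of_all _ (hb1 y))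
  have hzb : ∀ y, ‖fderiv ℝ z y‖ ≤ C := fun y => by
    rw [hzd y]
    refine (norm_integral_le_of_norm_le (hi1 y) (ae_of_all _ (hb1 y))).trans ?_
    rw [integral_sub_left_eq_self (fun y => ‖fderiv ℝ k y‖) volume y]
    exact hC
  have h1 := hz z C hzc hzs hzb
  have hI : Integrable (fun p : ℂ × ℂ => φ p.2 * fderiv ℝ k (p.1 - p.2) (gradient v p.1))
      (volume.prod volume) := by
    have h2 := (hφi.norm.convolution_integrand (ContinuousLinearMap.mul ℝ ℝ) hDi.norm).mul_const σ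
    refine h2.mono' ((hφm.comp measurable_snd).mul hm).aestronglyMeasurable
      (ae_of_all _ fun p => ?_)
    rw [norm_mul, ContinuousLinearMap.mul_apply', mul_assoc]
    exact mul_le_mul_of_nonneg_left (hb _ _) (norm_nonneg _)
  have e1 : ∫ y, fderiv ℝ z y (gradient v y) =
      ∫ y, ∫ x, φ x * fderiv ℝ k (y - x) (gradient v y) := by
    congr 1
    funext y
    rw [hzd y, ContinuousLinearMap.integral_apply (hi2 y)]
    rfl
  have e2 : ∫ y, ∫ x, φ x * fderiv ℝ k (y - x) (gradient v y) =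
      ∫ x, ∫ y, φ x * fderiv ℝ k (y - x) (gradient v y) :=
    integral_integral_swap hI
  have e3 : ∫ x, ∫ y, φ x * fderiv ℝ k (y - x) (gradient v y) = ∫ x in ball 0 t, |D x| := by
    rw [← integral_indicator measurableSet_ball]
    congr 1
    funext x
    rw [integral_const_mul]
    change φ x * D x = _
    by_cases hx : x ∈ ball (0 : ℂ) t
    · rw [hφ, indicator_of_mem hx, indicator_of_mem hx]
      split_ifs with h
      · rw [one_mul, abs_of_nonneg h]
      · rw [neg_one_mul, abs_of_neg (not_le.1 h)]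
    · rw [hφ, indicator_of_notMem hx, indicator_of_notMem hx, zero_mul]
  rw [e1, e2, e3] at h1
  exact (le_abs_self _).trans h1

theorem vol_ball {t : ℝ} (ht : 0 < t) : volume.real (ball (0 : ℂ) t) ≤ 4 * t ^ 2 := by
  rw [Measure.real, Complex.volume_ball, ENNReal.toReal_mul, ENNReal.toReal_pow,
    ENNReal.toReal_ofReal ht.le, ENNReal.coe_toReal, NNReal.coe_real_pi]
  nlinarith [Real.pi_le_four, sq_nonneg t]

end MOLA

open MOLA in
theorem c_mola_of (hKER : C_KER) : C_MOLA := by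
  obtain ⟨C, hC, hK⟩ := hKER
  refine ⟨416 + C, by positivity, fun v σ ε hv hε hz => ?_⟩
  have hσ := sig_nonneg hv
  have hc := cont hv
  have hvI : IntegrableOn v (ball 0 4) :=
    (hc.continuousOn.integrableOn_compact (isCompact_closedBall 0 4)).mono_set
      ball_subset_closedBall
  set A : ℂ → ℝ := (ball 0 4).indicator v with hA
  have hAi : Integrable A := (integrable_indicator_iff measurableSet_ball).2 hvI
  have hAI : ∫ w, |A w| = ∫ y in ball 0 4, |v y| := by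
    rw [← integral_indicator measurableSet_ball]
    congr 1
    funext w
    by_cases hw : w ∈ ball (0 : ℂ) 4
    · rw [hA, indicator_of_mem hw, indicator_of_mem hw]
    · rw [hA, indicator_of_notMem hw, indicator_of_notMem hw, abs_zero]
  set I : ℝ := ∫ y in ball 0 4, |v y| with hI
  have hI0 : 0 ≤ I := integral_nonneg fun _ => abs_nonneg _
  have hW : ∀ y : ℂ, ‖y‖ ≤ 1 →
      ∫ w, A w * lam (‖w - y‖ ^ 2) = ∫ w, lam (‖w - y‖ ^ 2) * v w := fun y hy => by
    congr 1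
    funext w
    by_cases hw : w ∈ ball (0 : ℂ) 4
    · rw [hA, indicator_of_mem hw, mul_comm]
    · rw [mem_ball_zero_iff, not_lt] at hw
      have h1 : 1 ≤ ‖w - y‖ := by linarith [norm_sub_norm_le w y]
      rw [lam_eq_zero (one_le_pow₀ h1), mul_zero, zero_mul]
  refine ⟨∫ w, A w * lam (‖w‖ ^ 2), ∫ w, A w • G w, ?_, fun t ht ht1 => ?_⟩
  · have h1 : ‖∫ w, A w * lam (‖w‖ ^ 2)‖ ≤ _ := bound hAi abs_lam
    have h2 := bound hAi norm_G
    rw [hAI] at h1 h2
    rw [Real.norm_eq_abs] at h1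
    nlinarith [mul_nonneg hC.le hI0]
  set l₀ : ℝ := ∫ w, A w * lam (‖w‖ ^ 2)
  set g : ℂ := ∫ w, A w • G w
  have key : ∀ s : ℝ, 0 < s → s ≤ 1 → ∫ y in ball 0 t, |v y - (l₀ + ⟪g, y⟫)|
      ≤ 416 * t ^ 4 * I + ε * C + 4 * σ * s := by
    intro s hs hs1
    obtain ⟨k, hk, hk0, hkC, hkv⟩ := hK s hs hs1
    obtain ⟨h1, h2⟩ := dual hv ht1 hz hk hk0 hkC
    have hfin : volume (ball (0 : ℂ) t) ≠ ∞ := measure_ball_lt_top.ne
    have i1 : IntegrableOn (fun _ : ℂ => σ * s + 104 * t ^ 2 * I) (ball 0 t) :=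
      integrableOn_const hfin
    have h3 : ∫ y in ball 0 t, |v y - (l₀ + ⟪g, y⟫)| ≤ ∫ x in ball 0 t,
        (σ * s + 104 * t ^ 2 * I + |∫ y, fderiv ℝ k (y - x) (gradient v y)|) := by
      refine integral_mono_of_nonneg (ae_of_all _ fun _ => abs_nonneg _) (i1.add h1) ?_
      refine (ae_restrict_iff' measurableSet_ball).2 (ae_of_all _ fun x hx => ?_)
      rw [mem_ball_zero_iff] at hx
      have hx1 : ‖x‖ ≤ 1 := hx.le.trans ht1
      have a1 := tay hAi hx1
      rw [hW x hx1, hAI] at a1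
      have a2 := near hv hs x
      have a3 : 104 * ‖x‖ ^ 2 * I ≤ 104 * t ^ 2 * I := by gcongr
      have a4 := hkv v σ hv x
      change |v x - (l₀ + ⟪g, x⟫)| ≤
        σ * s + 104 * t ^ 2 * I + |∫ y, fderiv ℝ k (y - x) (gradient v y)|
      have a5 := neg_abs_le (∫ y, fderiv ℝ k (y - x) (gradient v y))
      have a6 := le_abs_self (∫ y, fderiv ℝ k (y - x) (gradient v y))
      have a7 := abs_le.1 (a1.trans a3)
      have a8 := abs_le.1 a2
      rw [abs_le]
      constructor <;> linarith [a7.1, a7.2, a8.1, a8.2]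
    rw [integral_add i1 h1, setIntegral_const, smul_eq_mul] at h3
    have h4 := vol_ball ht
    have h5 : volume.real (ball (0 : ℂ) t) * (σ * s + 104 * t ^ 2 * I)
        ≤ 4 * t ^ 2 * (σ * s + 104 * t ^ 2 * I) :=
      mul_le_mul_of_nonneg_right h4 (by positivity)
    have h6 : t ^ 2 * (σ * s) ≤ σ * s :=
      mul_le_of_le_one_left (by positivity) (pow_le_one₀ ht.le ht1)
    nlinarith
  have h7 : ∫ y in ball 0 t, |v y - (l₀ + ⟪g, y⟫)| ≤ 416 * t ^ 4 * I + ε * C := by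
    refine le_of_forall_pos_le_add fun δ hδ => ?_
    have h8 : 0 < 4 * σ + 1 := by positivity
    refine (key (min 1 (δ / (4 * σ + 1))) (lt_min one_pos (by positivity))
      (min_le_left _ _)).trans ?_
    have h9 : min 1 (δ / (4 * σ + 1)) * (4 * σ + 1) ≤ δ :=
      (le_div_iff₀ h8).1 (min_le_right _ _)
    have h10 : 0 < min 1 (δ / (4 * σ + 1)) := lt_min one_pos (by positivity)
    nlinarith
  have h11 : 0 ≤ C * t ^ 4 * I := by positivity
  nlinarith

end MW.CI
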