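import Pool.Agent.P.MP_064970_gt.SC

/-! Case I, row MOLL. Sketch:
Apply MOLA to u -> v (y0 + (rho/4) u) with eps' = 4 eps/rho: for a test function z' put z y = z'
((4/rho)(y - y0)); both gradients scale by 4/rho, the area by (rho/4)^2
(Measure.integral_comp_smul, integral_add_left_eq_self; gradient of the rescaled function also
where v is not differentiable: fderiv_comp_smul or a case split). l0 the same, g = (4/rho) g', t'
= 4t. -/

open MeasureTheory Set Filter Topology Metric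
open scoped RealInnerProductSpace ENNReal ComplexConjugate Real

noncomputable section

namespace MW.CI

namespace MOLL

theorem chg (F : ℂ → ℝ) (y₀ : ℂ) {a : ℝ} (ha : 0 < a) :
    ∫ y, F y = a ^ 2 * ∫ u, F (y₀ + a • u) := by
  rw [Measure.integral_comp_smul volume (fun x => F (y₀ + x)) a, integral_add_left_eq_self,
    Complex.finrank_real_complex, abs_of_pos (by positivity), smul_eq_mul]
  field_simp

theorem mem_iff (y₀ u : ℂ) {a : ℝ} (ha : 0 < a) (r : ℝ) :
    y₀ + a • u ∈ ball y₀ (a * r) ↔ u ∈ ball (0 : ℂ) r := by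
  rw [mem_ball_iff_norm, mem_ball_zero_iff, add_sub_cancel_left, norm_smul, Real.norm_of_nonneg ha.le,
    mul_lt_mul_iff_right₀ ha]

theorem chg_ball (F : ℂ → ℝ) (y₀ : ℂ) {a : ℝ} (ha : 0 < a) (r : ℝ) :
    ∫ y in ball y₀ (a * r), F y = a ^ 2 * ∫ u in ball (0 : ℂ) r, F (y₀ + a • u) := by
  rw [← integral_indicator measurableSet_ball, ← integral_indicator measurableSet_ball,
    chg _ y₀ ha]
  congr 2
  funext u
  by_cases hu : u ∈ ball (0 : ℂ) r
  · rw [indicator_of_mem hu, indicator_of_mem ((mem_iff y₀ u ha r).2 hu)]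
  · rw [indicator_of_notMem hu, indicator_of_notMem (fun h => hu ((mem_iff y₀ u ha r).1 h))]

theorem fd (f : ℂ → ℝ) (y₀ u : ℂ) (a : ℝ) :
    fderiv ℝ (fun x => f (y₀ + a • x)) u = a • fderiv ℝ f (y₀ + a • u) := by
  rw [fderiv_comp_smul (f := fun x => f (y₀ + x)) a, fderiv_comp_add_left]

theorem gr (f : ℂ → ℝ) (y₀ u : ℂ) (a : ℝ) :
    gradient (fun x => f (y₀ + a • x)) u = a • gradient f (y₀ + a • u) := by
  rw [gradient, gradient, fd, LinearIsometryEquiv.map_smulₛₗ]
  rfl

end MOLL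

theorem c_moll_of (hMOLA : C_MOLA) : C_MOLL := by
  obtain ⟨C, hC, H⟩ := hMOLA
  refine ⟨256 * C, by positivity, fun v σ ε ρ y₀ hv hε hρ hz => ?_⟩
  obtain ⟨a, rfl⟩ : ∃ a, ρ = a * 4 := ⟨ρ / 4, by ring⟩
  have ha : 0 < a := by linarith
  have hinv : ∀ y : ℂ, y₀ + a • (a⁻¹ • (y - y₀)) = y := fun y => by
    rw [smul_inv_smul₀ ha.ne', add_sub_cancel]
  obtain ⟨l₀, g, h1, h2⟩ := H (fun u => v (y₀ + a • u)) (σ * a) (ε / a)
    (fun y z => by
      refine (hv _ _).trans (le_of_eq ?_)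
      rw [add_sub_add_left_eq_sub, ← smul_sub, norm_smul, Real.norm_of_nonneg ha.le, mul_assoc])
    (by positivity)
    (fun z L hz1 hz2 hz3 => by
      have hψ : ContDiff ℝ 1 fun y : ℂ => a⁻¹ • (y - y₀) := by fun_prop
      have e : (fun u => z (a⁻¹ • (y₀ + a • u - y₀))) = z := by
        funext u
        rw [add_sub_cancel_left, inv_smul_smul₀ ha.ne']
      have e2 : ∀ u, fderiv ℝ z u =
          a • fderiv ℝ (fun y => z (a⁻¹ • (y - y₀))) (y₀ + a • u) := fun u => by
        rw [← MOLL.fd (fun y => z (a⁻¹ • (y - y₀))) y₀ u a, e]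
      have h3 := hz (fun y => z (a⁻¹ • (y - y₀))) (L / a) (hz1.comp hψ)
        (fun y hy => by
          have h4 : a⁻¹ • (y - y₀) ∈ tsupport z :=
            hψ.continuous.closure_preimage_subset (Function.support z) hy
          rw [← hinv y]
          exact (MOLL.mem_iff y₀ _ ha 4).2 (hz2 h4))
        (fun y => by
          have h4 := hz3 (a⁻¹ • (y - y₀))
          rw [e2, hinv, norm_smul, Real.norm_of_nonneg ha.le] at h4
          rw [le_div_iff₀ ha, mul_comm]
          exact h4)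
      rw [MOLL.chg _ y₀ ha, ← integral_const_mul] at h3
      refine le_of_eq_of_le ?_ (h3.trans (le_of_eq (by ring)))
      congr 2
      funext u
      rw [e2 u, MOLL.gr, smul_apply, map_smul, smul_eq_mul, smul_eq_mul]
      ring)
  have hI := MOLL.chg_ball (fun y => |v y|) y₀ ha 4
  have hJ : 0 ≤ ∫ u in ball (0 : ℂ) 4, |v (y₀ + a • u)| := integral_nonneg fun _ => abs_nonneg _
  beta_reduce at h1 h2 hI
  refine ⟨l₀, a⁻¹ • g, ?_, fun t ht ht' => ?_⟩
  · rw [hI, norm_smul, Real.norm_of_nonneg (inv_nonneg.2 ha.le)]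
    have e : |l₀| * (a * 4) ^ 2 + a⁻¹ * ‖g‖ * (a * 4) ^ 3 = a ^ 2 * (16 * |l₀| + 64 * ‖g‖) := by
      field_simp
      ring
    rw [e, mul_left_comm]
    refine mul_le_mul_of_nonneg_left ?_ (by positivity)
    have := abs_nonneg l₀
    have := norm_nonneg g
    nlinarith [mul_nonneg hC.le hJ]
  · have h3 := h2 (4 * t) (by positivity) (by linarith)
    rw [show t * (a * 4) = a * (4 * t) by ring, MOLL.chg_ball _ y₀ ha, hI]
    have e : ∀ u : ℂ, ⟪a⁻¹ • g, y₀ + a • u - y₀⟫ = ⟪g, u⟫ := fun u => by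
      rw [add_sub_cancel_left, real_inner_smul_left, real_inner_smul_right,
        inv_mul_cancel_left₀ ha.ne']
    simp only [e]
    refine (mul_le_mul_of_nonneg_left h3 (by positivity)).trans ?_
    have e2 : a ^ 2 * (C * (4 * t) ^ 4 * (∫ u in ball (0 : ℂ) 4, |v (y₀ + a • u)|) + C * (ε / a)) =
        256 * C * t ^ 4 * (a ^ 2 * ∫ u in ball (0 : ℂ) 4, |v (y₀ + a • u)|) + C * ε * a := by
      field_simp
      ring
    rw [e2]
    have : 0 ≤ C * ε * a := by positivity
    nlinarith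

end MW.CI
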