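import Pool.Agent.P.MP_064970_gt.SC

/-! Case I, row NRM. Sketch:
Fix i. w from IsRef.exists_tan; c + (s/4) w +- 2 eta s nu_i are on opposite sides (Pic.pat'), so
there is x in S between them: |x - c| <= s/2, <x-c,nu(!i)> >= beta s/5. rho = beta s/16: all z in
S in ball x rho have |N z - nu i| <= eta (Pic.pos), so M.Reg x rho, and S cap ball x rho lies in
ball c s cap typ i. GE with a = P.n i, c0 = P.c i and le_aex: rho * wedge (P.n i) (N x) <= C/rho^2
* m s^2. First clause: wedge_triangle through N x and norm_sub_le_of_near. Second: cross_bool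
gives |N x - nu' i| <= d. -/

open MeasureTheory Set Filter Topology Metric
open scoped RealInnerProductSpace ENNReal ComplexConjugate Real

noncomputable section

namespace MW.CI.NRM

variable {M : Surf} {β η s : ℝ} {ν : Bool → E} {c : E}

/-- A point of the surface on the positive half of the plane `i`. -/
theorem exists_point (hM : M.Mem) (hν : IsRef β ν) (hη : 0 < η) (hηβ : η ≤ β / 100) (hs : 0 < s)
    (hP : Pic M ν η c s) (i : Bool) :
    ∃ x ∈ M.S, ‖x - c‖ ≤ s / 2 ∧ β * s / 5 ≤ ⟪x - c, ν (!i)⟫ := by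
  obtain ⟨w, hw, -, hw0, hw1⟩ := hν.exists_tan i
  have hβ := hν.pos
  have hβ1 := hν.le_one
  have hηs : η * s ≤ β * s / 100 := by nlinarith
  have hβs : β * s ≤ s := by nlinarith
  have hηs0 : 0 < η * s := mul_pos hη hs
  have key : ∀ t : ℝ, |t| ≤ 2 * (η * s) → ∀ y : E, y - c = (s / 4) • w + t • ν i →
      ‖y - c‖ ≤ s / 2 ∧ β * s / 5 ≤ ⟪y - c, ν (!i)⟫ ∧ ⟪y - c, ν i⟫ = t := by
    intro t ht y hy
    rw [hy]
    refine ⟨?_, ?_, ?_⟩
    · refine (norm_add_le _ _).trans ?_
      rw [norm_smul, norm_smul, hw, hν.unit, Real.norm_eq_abs, Real.norm_eq_abs,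
        abs_of_pos (by positivity)]
      linarith
    · rw [inner_add_left, real_inner_smul_left, real_inner_smul_left]
      have h1 : |⟪ν i, ν (!i)⟫| ≤ 1 := by
        have := abs_real_inner_le_norm (ν i) (ν (!i))
        rwa [hν.unit, hν.unit, mul_one] at this
      have h2 : |t * ⟪ν i, ν (!i)⟫| ≤ 2 * (η * s) := by
        rw [abs_mul]
        nlinarith [abs_nonneg t]
      have h3 := (abs_le.1 h2).1
      nlinarith
    · rw [inner_add_left, real_inner_smul_left, real_inner_smul_left, hw0,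
        real_inner_self_eq_norm_sq, hν.unit]
      ring
  obtain ⟨a1, a2, a3⟩ := key (-(2 * (η * s))) (by rw [abs_neg, abs_of_pos (by positivity)])
    (c + ((s / 4) • w + (-(2 * (η * s))) • ν i)) (add_sub_cancel_left _ _)
  obtain ⟨b1, b2, b3⟩ := key (2 * (η * s)) (by rw [abs_of_pos (by positivity)])
    (c + ((s / 4) • w + (2 * (η * s)) • ν i)) (add_sub_cancel_left _ _)
  have hβs0 : 0 < β * s := mul_pos hβ hs
  have ha := (hP.pat' i (mem_ball_iff_norm.2 (by linarith))
    (by rw [a3, abs_neg, abs_of_pos (by positivity)]; linarith)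
    (lt_of_lt_of_le (by linarith) (a2.trans (le_abs_self _)))).1
    (by rw [a3]; exact mul_neg_of_neg_of_pos (by linarith) (by linarith))
  have hb := (hP.pat' i (mem_ball_iff_norm.2 (by linarith))
    (by rw [b3, abs_of_pos (by positivity)]; linarith)
    (lt_of_lt_of_le (by linarith) (b2.trans (le_abs_self _)))).2
    (by rw [b3]; exact mul_pos (by linarith) (by linarith))
  obtain ⟨x, ⟨u, v, hu, hv, huv, rfl⟩, hx⟩ :=
    M.exists_cross (by rw [hM.univ]; exact subset_univ _) ha hb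
  obtain ⟨x1, x2, -⟩ := key ((v - u) * (2 * (η * s))) (by
      rw [abs_mul, abs_of_pos (by positivity : 0 < 2 * (η * s))]
      have : |v - u| ≤ 1 := abs_le.2 ⟨by linarith, by linarith⟩
      nlinarith)
    (u • (c + ((s / 4) • w + (-(2 * (η * s))) • ν i)) +
      v • (c + ((s / 4) • w + (2 * (η * s)) • ν i))) (by
      have hu' : u = 1 - v := by linarith
      rw [hu']
      module)
  exact ⟨_, hx, x1, x2⟩

/-- The picture near such a point. -/
theorem near_point (hν : IsRef β ν) (hηβ : η ≤ β / 100) (hs : 0 < s) (hP : Pic M ν η c s)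
    {i : Bool} {x : E} (x1 : ‖x - c‖ ≤ s / 2) (x2 : β * s / 5 ≤ ⟪x - c, ν (!i)⟫) {z : E}
    (hz : z ∈ M.S) (hzx : z ∈ ball x (β * s / 16)) : z ∈ ball c s ∧ ‖M.N z - ν i‖ ≤ η := by
  have hβ := hν.pos
  have hβ1 := hν.le_one
  have hηs : η * s ≤ β * s / 100 := by nlinarith
  have hβs : β * s ≤ s := by nlinarith
  have hβs0 : 0 < β * s := mul_pos hβ hs
  rw [mem_ball_iff_norm] at hzx
  have e : z - c = (z - x) + (x - c) := by abel
  have h1 : ‖z - c‖ < s := by
    rw [e]
    linarith [norm_add_le (z - x) (x - c)]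
  have h2 : |⟪z - x, ν (!i)⟫| ≤ ‖z - x‖ := by
    have := abs_real_inner_le_norm (z - x) (ν (!i))
    rwa [hν.unit, mul_one] at this
  refine ⟨mem_ball_iff_norm.2 h1, (hP.pos i z ⟨hz, mem_ball_iff_norm.2 (by linarith)⟩ ?_).2⟩
  rw [e, inner_add_left]
  linarith [(abs_le.1 h2).1]

end MW.CI.NRM

namespace MW.CI

theorem c_nrm_of (hGE : S_GE) : C_NRM := by
  obtain ⟨C, hC, hG⟩ := hGE
  intro β hβ
  have hK : 0 < C * 4096 / β ^ 3 := by positivity
  refine ⟨2 * (C * 4096 / β ^ 3) + 1, by positivity, ?_⟩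
  intro M ν η s m c P hM hν hη hηβ hs hP hPc hE
  have hβ1 := hν.le_one
  have hβs0 : 0 < β * s := mul_pos hβ hs
  have hm := hE.nonneg hs
  choose x hx x1 x2 using NRM.exists_point hM hν hη hηβ hs hP
  have hN : ∀ i, ‖M.N (x i) - ν i‖ ≤ η := fun i =>
    (NRM.near_point hν hηβ hs hP (x1 i) (x2 i) (hx i) (mem_ball_self (by positivity))).2
  have key : ∀ (Q : Pl) (m' : ℝ), Exc M β ν Q c s m' → ∀ i,
      wedge (Q.n i) (M.N (x i)) ≤ C * 4096 / β ^ 3 * (m' / s) := by
    intro Q m' hQ i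
    have hreg : M.Reg (x i) (β * s / 16) := by
      intro z hz z' hz'
      have h1 := (NRM.near_point hν hηβ hs hP (x1 i) (x2 i) hz.1 hz.2).2
      have h2 := (NRM.near_point hν hηβ hs hP (x1 i) (x2 i) hz'.1 hz'.2).2
      have h3 := norm_sub_le_norm_sub_add_norm_sub (M.N z) (ν i) (M.N z')
      rw [norm_sub_rev (ν i)] at h3
      linarith
    have h1 := hG M hM (x i) (β * s / 16) (hx i) (by positivity) hreg (Q.n i) (Q.c i)
    have h2 : ∫ z in ball (x i) (β * s / 16), |Q.f i z| ∂M.μ ≤ aex M β ν Q c s := by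
      refine le_aex hM Q fun z hz => ?_
      obtain ⟨h3, h4⟩ := NRM.near_point hν hηβ hs hP (x1 i) (x2 i) hz.2 hz.1
      refine ⟨h3, lt_of_le_of_lt (wedge_le_norm_sub (hν.unit i)) ?_⟩
      linarith
    have h3 : β * s / 16 * wedge (Q.n i) (M.N (x i)) ≤ C / (β * s / 16) ^ 2 * (m' * s ^ 2) := by
      refine le_trans (le_add_of_nonneg_left (abs_nonneg _)) (h1.trans ?_)
      exact mul_le_mul_of_nonneg_left (h2.trans hQ.a) (by positivity)
    have h4 : C / (β * s / 16) ^ 2 * (m' * s ^ 2) =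
        β * s / 16 * (C * 4096 / β ^ 3 * (m' / s)) := by
      field_simp
      ring
    rw [h4] at h3
    exact le_of_mul_le_mul_left h3 (by positivity)
  refine ⟨fun Q m' hQc hQ i => ?_, fun ν' d hd hdβ hν' hcr i => ?_⟩
  · have hm' := hQ.nonneg hs
    have hu := M.N_unit _ (hx i)
    have h1 := norm_sub_le_of_near (hPc.unit i) (hQc.unit i) (hPc.close i) (hQc.close i)
    have h2 := wedge_triangle (hPc.unit i) hu (hQc.unit i)
    rw [wedge_comm hu (hQc.unit i)] at h2
    have h3 := key P m hE i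
    have h4 := key Q m' hQ i
    have h5 : 0 ≤ m / s := by positivity
    have h6 : 0 ≤ m' / s := by positivity
    rw [mul_div_assoc, add_div]
    nlinarith
  · have hu := M.N_unit _ (hx i)
    have h1 := norm_sub_le_of_near (hPc.unit i) hu (hPc.close i) ((hN i).trans (by linarith))
    have h3 := key P m hE i
    have h5 : 0 ≤ m / s := by positivity
    have h6 : s ≤ s / d := by
      rw [le_div_iff₀ hd]
      nlinarith
    have h7 := abs_inner_sub_le (x i - c) (ν' (!i)) (ν (!i))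
    have h8 : ‖x i - c‖ * ‖ν' (!i) - ν (!i)‖ ≤ s / 2 * (β / 100) :=
      mul_le_mul (x1 i) (hν' _) (norm_nonneg _) (by positivity)
    have h9 : d * s ≤ β / 100 * s := mul_le_mul_of_nonneg_right hdβ hs.le
    have h10 := ((cross_bool hcr i).2.1 (x i)
      ⟨hx i, mem_ball_iff_norm.2 (by linarith [x1 i])⟩
      (by linarith [(abs_le.1 h7).1, x2 i])).2
    have h11 := norm_sub_le_norm_sub_add_norm_sub (P.n i) (M.N (x i)) (ν' i)
    nlinarith [mul_pos hK hd]

end MW.CI
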