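import Pool.Agent.P.MP_064970_gt.SC

/-! Case I, row PIC. Sketch:
delta = omega0 = min(eta,beta)/2000, eps from CONE(delta), Lambda0 from DEC(eps). For s in
[Lambda0 b, R]: 2 - Theta c s <= eps, Near at (c,s). ANG excludes the flat pictures (FlatW.side,
ball c s inside ball c (s/delta); swap.W' = W) and gives nu' with |nu' - nu| <= eta/8 and Cross c
s delta nu'. On ball c (4s): |<x-c,nu i> - <x-c,nu' i>| <= eta s/2, delta <= eta/2, 4s <= s/delta.
Use cross_bool. ctr: rho/2 + eta s/2 <= rho. -/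

open MeasureTheory Set Filter Topology Metric
open scoped RealInnerProductSpace ENNReal ComplexConjugate Real

noncomputable section

namespace MW.CI

namespace PIC

theorem sgn {a a' e d : ℝ} (h : |a - a'| ≤ e / 2) (ha : e < |a|) (hd : d ≤ e / 2) :
    d < |a'| ∧ 0 < a * a' := by
  obtain ⟨h1, h2⟩ := abs_le.1 h
  rcases lt_abs.1 ha with h3 | h3
  · exact ⟨lt_abs.2 (Or.inl (by linarith)), mul_pos (by linarith) (by linarith)⟩
  · exact ⟨lt_abs.2 (Or.inr (by linarith)), mul_pos_of_neg_of_neg (by linarith) (by linarith)⟩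

theorem pic {M : Surf} {ν ν' : Bool → E} {η δ s : ℝ} {c : E} (hs : 0 < s) (hδ : 0 < δ)
    (hδη : δ ≤ η / 4) (hη : η ≤ 1) (hν : ∀ i, ‖ν' i - ν i‖ ≤ η / 8)
    (h : M.Cross c s δ (ν' false) (ν' true)) : Pic M ν η c s := by
  have h4 : 4 * s ≤ s / δ := by
    rw [le_div_iff₀ hδ]
    nlinarith
  have hsub : ball c (4 * s) ⊆ ball c (s / δ) := ball_subset_ball h4
  have hd : δ * s ≤ η * s / 2 := by nlinarith
  have hi : ∀ x ∈ ball c (4 * s), ∀ i, |⟪x - c, ν i⟫ - ⟪x - c, ν' i⟫| ≤ η * s / 2 := by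
    intro x hx i
    rw [← inner_sub_right]
    refine (abs_real_inner_le_norm _ _).trans ?_
    rw [norm_sub_rev (ν i)]
    have h1 := mul_le_mul (mem_ball_iff_norm.1 hx).le (hν i) (norm_nonneg _) (by linarith)
    linarith
  refine ⟨fun i x hx h1 => ?_, fun i x hx h1 => ?_, fun x hx h1 h2 => ?_,
    fun q hq ρ h1 h2 h3 i => ?_⟩
  · obtain ⟨h2, h3⟩ := (cross_bool h i).2.1 x ⟨hx.1, hsub hx.2⟩
      (by linarith [(abs_le.1 (hi x hx.2 (!i))).2])
    have h5 := abs_sub_abs_le_abs_sub ⟪x - c, ν i⟫ ⟪x - c, ν' i⟫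
    have h6 := norm_sub_le_norm_sub_add_norm_sub (M.N x) (ν' i) (ν i)
    exact ⟨by linarith [hi x hx.2 i], by linarith [hν i]⟩
  · obtain ⟨h2, h3⟩ := (cross_bool h i).2.2.1 x ⟨hx.1, hsub hx.2⟩
      (by linarith [(abs_le.1 (hi x hx.2 (!i))).1])
    have h5 := abs_sub_abs_le_abs_sub ⟪x - c, ν i⟫ ⟪x - c, ν' i⟫
    have h6 := norm_sub_le (M.N x + ν' i) (ν' i - ν i)
    rw [show M.N x + ν' i - (ν' i - ν i) = M.N x + ν i by abel] at h6
    exact ⟨by linarith [hi x hx.2 i], by linarith [hν i]⟩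
  · obtain ⟨a1, a2⟩ := sgn (hi x hx false) h1 hd
    obtain ⟨b1, b2⟩ := sgn (hi x hx true) h2 hd
    obtain ⟨h3, h5⟩ := h.pat x (hsub hx) a1 b1
    have h6 := mul_pos a2 b2
    rw [mul_mul_mul_comm] at h6
    exact ⟨fun h7 => h3 (neg_of_mul_pos_right h6 h7.le),
      fun h7 => h5 (pos_of_mul_pos_right h6 h7.le)⟩
  · have h5 := (cross_bool h i).2.2.2.2 q (hsub hq) ρ (by nlinarith) (by linarith) h3
    have h6 := abs_sub_abs_le_abs_sub ⟪q - c, ν i⟫ ⟪q - c, ν' i⟫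
    linarith [hi q hq i]

end PIC

theorem c_pic_of (hMONO : S_MONO) (hDEC : S_DEC) (hCONE : S_CONE) (hANG : C_ANG) : C_PIC := by
  intro β η hβ hη hη1
  obtain ⟨δ, hδ, h1, h2⟩ : ∃ δ : ℝ, 0 < δ ∧ δ ≤ η / 2000 ∧ δ ≤ β / 2000 :=
    ⟨min (η / 2000) (β / 2000), lt_min (by linarith) (by linarith), min_le_left _ _,
      min_le_right _ _⟩
  obtain ⟨ε, hε, hc⟩ := hCONE δ hδ (by linarith)
  obtain ⟨Λ, hΛ, hd⟩ := hDEC ε hε
  refine ⟨δ, Λ, hδ, hΛ, fun M ν ω c b R hM hν hω hωδ h => ?_⟩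
  have hb : b ≤ Λ * b := le_mul_of_one_le_left h.pos.le hΛ
  refine ⟨h.pos.trans_le hb, h.dens.trans (Θ_mono hMONO hM c h.pos hb), fun s hs hR => ?_⟩
  have hs0 : 0 < s := h.pos.trans_le (hb.trans hs)
  obtain ⟨a1, a2, a3⟩ := hANG M β ω δ s ν c hM hν hs0 hω hδ (by linarith)
    (h.near s (hb.trans hs) hR)
  have hsub : ball c s ⊆ ball c (s / δ) := ball_subset_ball (by
    rw [le_div_iff₀ hδ]
    exact mul_le_of_le_one_right hs0.le (by linarith))
  rcases hc M hM c s hs0 (hd M hM c b s h.pos hs h.dens) with ⟨n, hn⟩ | ⟨n, hn⟩ | ⟨n, n', -, hn⟩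
  · exact absurd (fun x hx => hn.side x (hsub hx)) (a1 n hn.unit)
  · exact absurd (fun x hx => hn.side x (hsub hx)) (a2 n hn.unit)
  · obtain ⟨ν', h3, h4⟩ := a3 n n' hn
    exact PIC.pic hs0 hδ (by linarith) hη1 (fun i => (h3 i).trans (by linarith)) (h4 c s δ hn)

end MW.CI
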