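import Pool.Agent.P.MP_064970_gt.SC

/-! Case I, row PW. Sketch:
First clause: tower at s = Lam m. Second: s = |x-c|, Pic at (c,s), |pr(x-c)| >= s/2, Pic.le_of_typ
gives |<x-c,nu(!i)>| >= beta s/4, Pic.ball_nrm with rho = beta s/8 (eta < beta/8): M.Reg x rho, S
cap ball x rho in ball c (2s) cap typ i. GE with the plane Q (2s), le_aex: |f' x| + rho wedge <=
C/rho^2 * C m (2s)^2. Then wedge_le_add, Pl.abs_f_sub, (r/(2s))^(1/4) <= (r/s)^(1/4), 1 <=
(r/s)^(1/4). -/

open MeasureTheory Set Filter Topology Metric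
open scoped RealInnerProductSpace ENNReal ComplexConjugate Real

noncomputable section

namespace MW.CI

namespace PW

/-- The gradient estimate at a point of type `i` away from the axis. -/
theorem ge {G : ℝ} (hG0 : 0 < G) (hG : ∀ M : Surf, M.Mem → ∀ (p : E) (ρ : ℝ), p ∈ M.S → 0 < ρ →
      M.Reg p ρ → ∀ (a : E) (c₀ : ℝ), |⟪p, a⟫ - c₀| + ρ * ‖a - ⟪a, M.N p⟫ • M.N p‖
        ≤ G / ρ ^ 2 * ∫ x in ball p ρ, |⟪x, a⟫ - c₀| ∂M.μ)
    {M : Surf} {β η s m : ℝ} {ν : Bool → E} {c x : E} {Q : Pl} {i : Bool} (hM : M.Mem)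
    (hν : IsRef β ν) (h0 : 0 < η) (hη : η ≤ β / 20) (hs : 0 < s) (hp : Pic M ν η c s)
    (hx : x ∈ M.S ∩ typ M β ν i) (hxs : ‖x - c‖ = s) (hh : |x 2 - c 2| ≤ s / 2)
    (hQ : Exc M β ν Q c (2 * s) m) :
    |Q.f i x| + β * s / 8 * wedge (Q.n i) (M.N x) ≤ 256 * G / β ^ 2 * m := by
  have hβ := hν.pos
  have hβ1 := hν.le_one
  have hpr : s / 2 ≤ ‖pr (x - c)‖ := by
    have h1 := norm_le_pr_add (x - c)
    rw [hxs, PiLp.sub_apply] at h1
    linarith
  have hx4 : x ∈ M.S ∩ ball c (4 * s) := ⟨hx.1, mem_ball_iff_norm.2 (by linarith)⟩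
  have hbs := mul_pos hβ hs
  have h1 : β / 2 * (s / 2) ≤ β / 2 * ‖pr (x - c)‖ := by gcongr
  have h2 : η * s ≤ β / 20 * s := by gcongr
  have h3 := hp.le_of_typ hν (by linarith) hx4 hx.2 (by linarith)
  have hb : ∀ z ∈ closedBall x (β * s / 8), ‖z - c‖ < 2 * s := fun z hz => by
    have a1 := mem_closedBall_iff_norm.1 hz
    have a2 := norm_sub_le_norm_sub_add_norm_sub z x c
    nlinarith
  have h4 := hp.ball_nrm (x := x) (i := i) (ρ := β * s / 8) hν (by positivity) (by positivity)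
    (fun z hz => mem_ball_iff_norm.2 (by linarith [hb z hz])) (by linarith)
  obtain ⟨n, hn, hw⟩ : ∃ n : E, (∀ z ∈ M.S ∩ closedBall x (β * s / 8), ‖M.N z - n‖ ≤ η) ∧
      ∀ y : E, wedge y (ν i) ≤ ‖y - n‖ := by
    rcases h4 with h4 | h4
    · exact ⟨_, h4, fun y => wedge_le_norm_sub (hν.unit i)⟩
    · exact ⟨_, h4, fun y => by
        rw [sub_neg_eq_add]
        exact wedge_le_norm_add y (hν.unit i)⟩
  have hreg : M.Reg x (β * s / 8) := fun y hy z hz => by
    have a1 := hn y ⟨hy.1, ball_subset_closedBall hy.2⟩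
    have a2 := hn z ⟨hz.1, ball_subset_closedBall hz.2⟩
    have a3 := norm_sub_le_norm_sub_add_norm_sub (M.N y) n (M.N z)
    rw [norm_sub_rev n] at a3
    linarith
  have h5 := hG M hM x _ hx.1 (by positivity) hreg (Q.n i) (Q.c i)
  have h6 := le_aex (β := β) (ν := ν) (p := c) (r := 2 * s) (i := i) hM Q
    (A := ball x (β * s / 8)) fun z hz =>
      ⟨mem_ball_iff_norm.2 (hb z (ball_subset_closedBall hz.1)), by
        have a1 := (hw _).trans (hn z ⟨hz.2, ball_subset_closedBall hz.1⟩)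
        show wedge (M.N z) (ν i) < β / 4
        linarith⟩
  refine h5.trans ((mul_le_mul_of_nonneg_left (h6.trans hQ.a) (by positivity)).trans_eq ?_)
  field_simp
  ring

end PW

theorem c_pw_of (hITER : C_ITER) (hGE : S_GE) : C_PW := by
  intro β hβ
  obtain ⟨η₀, h0, H⟩ := hITER β hβ
  obtain ⟨G, hG0, hG⟩ := hGE
  refine ⟨min η₀ (β / 20), lt_min h0 (by positivity), fun η hη hη' => ?_⟩
  obtain ⟨Λ, C, hΛ, hC, H⟩ := H η hη (hη'.trans (min_le_left _ _))
  have hη2 := hη'.trans (min_le_right _ _)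
  obtain ⟨D, hD⟩ : ∃ D, D = 256 * G / β ^ 2 * C := ⟨_, rfl⟩
  have hD0 : 0 ≤ D := by rw [hD]; positivity
  have p1 : 0 ≤ C * Λ := by positivity
  have p2 : 0 ≤ 8 * D / β := by positivity
  refine ⟨Λ, 2 * C + C * Λ + D + 8 * D / β, hΛ, by linarith,
    fun M ν b R r m c P hM hν hc hP hE hb hr => ?_⟩
  obtain ⟨Q, hQ⟩ := H M ν b R r m c P hM hν hc hP hE hb
  have hm : 0 < m := hc.self.pos.trans_le hb
  have hmΛ : m ≤ Λ * m := le_mul_of_one_le_left hm.le hΛ
  have hr0 : 0 < r := by linarith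
  have one : ∀ s : ℝ, 0 < s → s ≤ r → 1 ≤ (r / s) ^ (1 / 4 : ℝ) := fun s h1 h2 =>
    Real.one_le_rpow ((one_le_div h1).2 h2) (by norm_num)
  have mono : ∀ s s' : ℝ, 0 < s → s ≤ s' → (r / s') ^ (1 / 4 : ℝ) ≤ (r / s) ^ (1 / 4 : ℝ) :=
    fun s s' h1 h2 => Real.rpow_le_rpow (div_nonneg hr0.le (by linarith))
      (div_le_div_of_nonneg_left hr0.le h1 h2) (by norm_num)
  refine ⟨fun i => ?_, fun i x hx h1 h2 h3 => ?_⟩
  · obtain ⟨-, -, a1, a2⟩ := (hQ _ le_rfl hr).2 i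
    have a3 := one m hm (by linarith)
    have a4 := mono m _ hm hmΛ
    have a5 := abs_sub_abs_le_abs_sub (P.f i c) ((Q (Λ * m)).f i c)
    rw [abs_sub_comm] at a5
    rw [hh]
    generalize (r / m) ^ (1 / 4 : ℝ) = t at a3 a4 ⊢
    have b1 : C * m * (r / (Λ * m)) ^ (1 / 4 : ℝ) ≤ C * m * t := by gcongr
    have b2 : C * (Λ * m) ≤ C * (Λ * m) * t := le_mul_of_one_le_right (by positivity) a3
    have b3 : 0 ≤ (C + D + 8 * D / β) * m * t := by positivity
    linarith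
  · obtain ⟨s, hs⟩ : ∃ s, ‖x - c‖ = s := ⟨_, rfl⟩
    rw [hs] at h1 h2 h3 ⊢
    have hs0 : 0 < s := by linarith
    obtain ⟨e, hq⟩ := hQ (2 * s) (by linarith) (by linarith)
    obtain ⟨a0, a1, a2, -⟩ := hq i
    have g := PW.ge hG0 hG hM hν hη hη2 hs0
      (hc.self.pic s (by linarith) (by linarith [hc.le])) hx hs h3 e
    rw [← mul_assoc, ← hD] at g
    have hN := M.N_unit x hx.1
    have w0 := wedge_nonneg ((Q (2 * s)).n i) (M.N x)
    have w1 : 0 ≤ β * s / 8 * wedge ((Q (2 * s)).n i) (M.N x) := by positivity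
    have f0 := abs_nonneg ((Q (2 * s)).f i x)
    constructor
    · have b1 := wedge_le_add (M.N x) hN (hP.unit i) a0
      rw [wedge_comm hN a0, norm_sub_rev] at b1
      have b2 : wedge ((Q (2 * s)).n i) (M.N x) ≤ 8 * D / β * m / s := by
        rw [le_div_iff₀ hs0, div_mul_eq_mul_div, le_div_iff₀ hβ]
        linarith
      have b3 : C * m / (2 * s) ≤ C * m / s :=
        div_le_div_of_nonneg_left (by positivity) hs0 (by linarith)
      have b4 : 0 ≤ (C + C * Λ + D) * m / s := by positivity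
      have b5 : (2 * C + C * Λ + D + 8 * D / β) * m / s =
          8 * D / β * m / s + C * m / s + (C + C * Λ + D) * m / s := by ring
      linarith
    · have b1 := Pl.abs_f_sub P (Q (2 * s)) i x c
      have b2 := abs_sub_abs_le_abs_sub (P.f i x) ((Q (2 * s)).f i x)
      rw [abs_sub_comm] at b2
      rw [hs] at b1
      have b3 : s * ‖(Q (2 * s)).n i - P.n i‖ ≤ C * m / 2 :=
        (mul_le_mul_of_nonneg_left a1 hs0.le).trans_eq (by field_simp)
      have a3 := one s hs0 (by linarith)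
      have a4 := mono s (2 * s) hs0 (by linarith)
      generalize (r / s) ^ (1 / 4 : ℝ) = t at a3 a4 ⊢
      have b4 : C * m * (r / (2 * s)) ^ (1 / 4 : ℝ) ≤ C * m * t := by gcongr
      have b5 : (C + D) * m ≤ (C + D) * m * t := le_mul_of_one_le_right (by positivity) a3
      have b6 : 0 ≤ (C * Λ + 8 * D / β) * m * t := by positivity
      have b7 : 0 ≤ C * m := by positivity
      linarith

end MW.CI
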