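import Pool.Agent.P.MP_064970_gt.SC

/-! Case I, row ROT. Sketch:
beta = sqrt(1 - (max gamma 0)^2). e from exists_axis nu1 nu2, A e3 = e, M' = M.sim A.symm rho^-1
(-(rho^-1 A.symm p)); IsSim.cross, IsSim.Theta, IsSim.isScherk; nu = fun i => cond i (A.symm nu2)
(A.symm nu1). -/

open MeasureTheory Set Filter Topology Metric
open scoped RealInnerProductSpace ENNReal ComplexConjugate Real

noncomputable section

namespace MW.CI

theorem c_rot_of (hFINAL : C_FINAL) : S_PROPI := by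
  intro γ hγ
  set g : ℝ := max γ (1 / 2) with hg
  have hg0 : 1 / 2 ≤ g := le_max_right _ _
  have hg1 : g < 1 := max_lt hγ (by norm_num)
  have hpos : 0 < 1 - g ^ 2 := by nlinarith
  set β : ℝ := √(1 - g ^ 2) with hβ
  have hβ0 : 0 < β := Real.sqrt_pos.2 hpos
  have hβ2 : β ^ 2 = 1 - g ^ 2 := Real.sq_sqrt hpos.le
  have hβ1 : β ≤ 1 := by nlinarith
  obtain ⟨δ, ε, hδ, hδ1, hε, H⟩ := hFINAL β hβ0
  refine ⟨δ, ε, hδ, hδ1, hε, ?_⟩
  intro M hM p ρ ν₁ ν₂ hρ hang hΘ hC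
  obtain ⟨e, he, h1, h2⟩ := exists_axis ν₁ ν₂
  obtain ⟨A, hA⟩ := exists_iso_e3 he
  have hc : 0 < ρ⁻¹ := inv_pos.2 hρ
  have hs := M.isSim A.symm hc (-(ρ⁻¹ • A.symm p))
  have h0 : simMap A.symm ρ⁻¹ (-(ρ⁻¹ • A.symm p)) p = 0 := by
    simp [simMap]
  have hone : ρ⁻¹ * ρ = 1 := inv_mul_cancel₀ hρ.ne'
  have hC' := (hs.cross p ρ δ ν₁ ν₂).2 hC
  have hΘ' := hs.Θ p ρ
  rw [h0, hone] at hC' hΘ'
  have hz : ∀ v : E, ⟪v, e⟫ = 0 → (A.symm v) 2 = 0 := by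
    intro v hv
    rw [← inner_e3, ← geo_inner, hA, hv]
  have hle : |⟪ν₁, ν₂⟫| ≤ g := hang.trans (le_max_left _ _)
  have href : IsRef β (fun i => cond i (A.symm ν₂) (A.symm ν₁)) := by
    refine ⟨hβ0, hβ1, ?_, ?_, ?_⟩
    · intro i
      cases i
      · simpa using hC.unit₁
      · simpa using hC.unit₂
    · intro i
      cases i
      · exact hz _ h1
      · exact hz _ h2
    · show ⟪A.symm ν₁, A.symm ν₂⟫ ^ 2 ≤ 1 - β ^ 2
      rw [LinearIsometryEquiv.inner_map_map, hβ2, ← sq_abs]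
      have := abs_nonneg ⟪ν₁, ν₂⟫
      nlinarith
  refine hs.isScherk.1 (H _ _ (hs.mem hM) href hC' ?_)
  rw [hΘ']
  exact hΘ

end MW.CI
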