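import Pool.Agent.P.MP_064970_gt.SC

/-! Case I, row RUN. Sketch:
eta0 = min(beta^2/1000, sigma0 beta/20, beta/100, 1), sigma = 20 eta/beta, K = 200000/beta^2,
omega0 = min(omega0 of PIC, beta/10, eta), C1 = Lam0 + C + C K Lam0, k = 10 d/omega, r_j = rr
theta R j, b_j = Lam0(2 B_j + k) <= 7 Lam0 k r_j (LEV). p j = psi K0 (P j) 0 r_j. P 0 from START
with the normals of GOn at r_0. Invariant for r_j >= 1: Close (omega/8), p j <= e r_j with e = D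
d/omega (D = (1+K0) C_START + 140 C K Lam0/theta, omega <= 1). Step: STRUCT at (0,r_j) with b0 = b
= b_j (Core from LEV with Lam0), LL; the new plane is Close (1/2), NRM at (0, r_{j+1}) with the
picture of GOn gives distance <= omega/16 to nu'. Build P by recursion (choose a next plane Q j P
with: invariant j P and 1 <= r_{j+1} imply invariant (j+1) Q, step, drift). All smallness
conditions are of the form const * d <= const; collect them in d0 first. -/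

open MeasureTheory Set Filter Topology Metric
open scoped RealInnerProductSpace ENNReal ComplexConjugate Real

noncomputable section

namespace MW.CI

namespace RUN

theorem ev (a c : ℝ) (hc : 0 < c) : ∀ᶠ x in 𝓝 (0 : ℝ), a * x ≤ c := by
  have h : Tendsto (fun x : ℝ => a * x) (𝓝 0) (𝓝 0) := by
    have h1 : Continuous fun x : ℝ => a * x := continuous_const.mul continuous_id
    simpa using h1.tendsto 0
  exact h.eventually (ge_mem_nhds hc)

/-- The smallness conditions on `x = d / ω`. -/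
structure Sm (β σ ω ε ε₀ Λ K C CN C₁ D x : ℝ) : Prop where
  a : 10 * x ≤ 1
  b : 100 * x ≤ β
  c : 70000 * Λ * x ≤ β
  d : D * x ≤ ε₀ * σ
  e : 70 * K * Λ * x ≤ ε₀ * σ
  f : C * (D + 70 * K * Λ) * x ≤ 1 / 4
  g : 10 * Λ * x ≤ 1
  h : CN * (D + 1) * x ≤ ω / 16
  i : (D + 70 * C₁) * x ≤ ε

theorem exists_sm {β σ ω ε ε₀ : ℝ} (Λ K C CN C₁ D : ℝ) (hβ : 0 < β) (hσ : 0 < σ) (hω : 0 < ω)
    (hε : 0 < ε) (hε₀ : 0 < ε₀) :
    ∃ x₀ : ℝ, 0 < x₀ ∧ ∀ x, 0 < x → x ≤ x₀ → Sm β σ ω ε ε₀ Λ K C CN C₁ D x := by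
  have h : ∀ᶠ x in 𝓝 (0 : ℝ), Sm β σ ω ε ε₀ Λ K C CN C₁ D x := by
    filter_upwards [ev 10 1 one_pos, ev 100 β hβ, ev (70000 * Λ) β hβ,
      ev D (ε₀ * σ) (mul_pos hε₀ hσ), ev (70 * K * Λ) (ε₀ * σ) (mul_pos hε₀ hσ),
      ev (C * (D + 70 * K * Λ)) (1 / 4) (by norm_num), ev (10 * Λ) 1 one_pos,
      ev (CN * (D + 1)) (ω / 16) (by positivity), ev (D + 70 * C₁) ε hε]
      with x h1 h2 h3 h4 h5 h6 h7 h8 h9
    exact ⟨h1, h2, h3, h4, h5, h6, h7, h8, h9⟩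
  obtain ⟨e, he, H⟩ := Metric.eventually_nhds_iff.1 h
  refine ⟨e / 2, by positivity, fun x hx hx' => H ?_⟩
  rw [Real.dist_eq, sub_zero, abs_of_pos hx]
  linarith

/-- Recursion along the scales. -/
theorem exists_seq {α : Type} (I : ℕ → α → Prop) (S : ℕ → α → α → Prop) (g : ℕ → Prop) (a : α)
    (h0 : I 0 a) (hg : ∀ j, g (j + 1) → g j)
    (hs : ∀ j P, I j P → g (j + 1) → ∃ Q, I (j + 1) Q ∧ S j P Q) :
    ∃ P : ℕ → α, (∀ j, g j → I j (P j)) ∧ ∀ j, g (j + 1) → S j (P j) (P (j + 1)) := by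
  have h : ∀ j P, ∃ Q, I j P → g (j + 1) → I (j + 1) Q ∧ S j P Q := by
    intro j P
    by_cases hh : I j P ∧ g (j + 1)
    · obtain ⟨Q, hQ⟩ := hs j P hh.1 hh.2
      exact ⟨Q, fun _ _ => hQ⟩
    · exact ⟨a, fun h1 h2 => absurd ⟨h1, h2⟩ hh⟩
  choose Q hQ using h
  let P : ℕ → α := fun n => Nat.rec a (fun j x => Q j x) n
  have hI : ∀ j, g j → I j (P j) := by
    intro j
    induction j with
    | zero => exact fun _ => h0
    | succ j ih => exact fun hj => (hQ j (P j) (ih (hg j hj)) hj).1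
  exact ⟨P, hI, fun j hj => (hQ j (P j) (hI j (hg j hj)) hj).2⟩

theorem lev_le {B x r : ℝ} (hx : 0 < x) (hr : 1 ≤ r) (hB : B ≤ 3 * (10 * x) * r) :
    2 * B + 10 * x ≤ 70 * x * r := by
  nlinarith [mul_le_mul_of_nonneg_left hr hx.le]

/-- The arithmetic of the new excess. -/
theorem new_le {θ p q C K Λ D x r u : ℝ} (hθ : 0 < θ) (hx : 0 < x) (hr : 0 < r)
    (hCK : 0 ≤ C * K * Λ) (hp : p ≤ D * x * r) (hu : u ≤ 70 * x * r)
    (hD : 140 * (C * K * Λ) / θ ≤ D) (hq : q ≤ θ / 2 * p + C * K * Λ * u) :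
    q ≤ D * x * (θ * r) := by
  have h1 : 140 * (C * K * Λ) ≤ D * θ := by rwa [div_le_iff₀ hθ] at hD
  have h2 : C * K * Λ * u ≤ C * K * Λ * (70 * x * r) := mul_le_mul_of_nonneg_left hu hCK
  have h3 : θ / 2 * p ≤ θ / 2 * (D * x * r) := mul_le_mul_of_nonneg_left hp (by positivity)
  have h4 : 140 * (C * K * Λ) * (x * r) ≤ D * θ * (x * r) :=
    mul_le_mul_of_nonneg_right h1 (by positivity)
  nlinarith

/-- The arithmetic of the drift. -/
theorem drift_le {a p C K Λ C₁ r u : ℝ} (hr : 0 < r) (hp : 0 ≤ p) (hu : 0 ≤ u) (h1 : 1 ≤ C₁)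
    (hC : C ≤ C₁) (hCK : C * K * Λ ≤ C₁) (h : r * a ≤ C * p + C * K * Λ * u) :
    a ≤ C₁ * (p + C₁ * u) / r := by
  rw [le_div_iff₀ hr]
  have h2 : C * p ≤ C₁ * p := mul_le_mul_of_nonneg_right hC hp
  have h3 : C * K * Λ * u ≤ C₁ * u := mul_le_mul_of_nonneg_right hCK hu
  have h4 : 1 * (C₁ * u) ≤ C₁ * (C₁ * u) :=
    mul_le_mul_of_nonneg_right h1 (mul_nonneg (by linarith) hu)
  nlinarith

theorem quarter_le {a p C K Λ D x r u : ℝ} (hr : 0 < r) (hC : 0 ≤ C) (hCK : 0 ≤ C * K * Λ)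
    (hp : p ≤ D * x * r) (hu : u ≤ 70 * x * r) (hs : C * (D + 70 * K * Λ) * x ≤ 1 / 4)
    (h : r * a ≤ C * p + C * K * Λ * u) : a ≤ 1 / 4 := by
  have h2 : C * p ≤ C * (D * x * r) := mul_le_mul_of_nonneg_left hp hC
  have h3 : C * K * Λ * u ≤ C * K * Λ * (70 * x * r) := mul_le_mul_of_nonneg_left hu hCK
  have h4 : C * (D + 70 * K * Λ) * x * r ≤ 1 / 4 * r := mul_le_mul_of_nonneg_right hs hr.le
  have h5 : r * a ≤ r * (1 / 4) := by nlinarith
  exact le_of_mul_le_mul_left h5 hr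

end RUN

open RUN in
theorem c_run_of (hMONO : S_MONO) (hPIC : C_PIC) (hNRM : C_NRM) (hSTART : C_START) (hSTRUCT : C_STRUCT) (hLL : C_LL) (hLEV : C_LEV) : C_RUN := by
  intro β hβ
  obtain ⟨θ, K₀, σ₀, ε₀, C, hθ, hθ1, hK₀, hσ₀, hε₀, hC, HL⟩ := hLL β hβ
  obtain ⟨CN, hCN, HN⟩ := hNRM β hβ
  obtain ⟨CS, hCS, HS⟩ := hSTART β hβ
  refine ⟨min (min (β ^ 2 / 1000) (σ₀ * β / 20)) (min (β / 100) 1), by positivity, ?_⟩
  intro η hη hη0
  have hη1 : η ≤ β ^ 2 / 1000 := hη0.trans ((min_le_left _ _).trans (min_le_left _ _))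
  have hη2 : η ≤ σ₀ * β / 20 := hη0.trans ((min_le_left _ _).trans (min_le_right _ _))
  have hη3 : η ≤ β / 100 := hη0.trans ((min_le_right _ _).trans (min_le_left _ _))
  have hη4 : η ≤ 1 := hη0.trans ((min_le_right _ _).trans (min_le_right _ _))
  obtain ⟨ω₁, Λ, hω₁, hΛ, HP⟩ := hPIC β η hβ hη hη4
  obtain ⟨K, hKdef⟩ : ∃ K : ℝ, K = 200000 / β ^ 2 := ⟨_, rfl⟩
  obtain ⟨σ, hσdef⟩ : ∃ σ : ℝ, σ = 20 * η / β := ⟨_, rfl⟩
  have hK : 0 < K := by rw [hKdef]; positivity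
  have hσ : 0 < σ := by rw [hσdef]; positivity
  have hσ1 : σ ≤ σ₀ := by
    rw [hσdef, div_le_iff₀ hβ]
    linarith
  have hCK : 0 ≤ C * K * Λ := by positivity
  obtain ⟨C₁, hC₁def⟩ : ∃ C₁ : ℝ, C₁ = Λ + C + C * K * Λ := ⟨_, rfl⟩
  have hC₁Λ : Λ ≤ C₁ := by rw [hC₁def]; linarith
  have hC₁C : C ≤ C₁ := by rw [hC₁def]; linarith
  have hC₁K : C * K * Λ ≤ C₁ := by rw [hC₁def]; linarith
  have hC₁ : 1 ≤ C₁ := hΛ.trans hC₁Λ
  obtain ⟨D, hDdef⟩ : ∃ D : ℝ, D = (1 + K₀) * CS + 140 * (C * K * Λ) / θ := ⟨_, rfl⟩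
  have hD1 : (1 + K₀) * CS ≤ D := by
    have : 0 ≤ 140 * (C * K * Λ) / θ := by positivity
    rw [hDdef]; linarith
  have hD2 : 140 * (C * K * Λ) / θ ≤ D := by
    have : 0 ≤ (1 + K₀) * CS := by positivity
    rw [hDdef]; linarith
  have hD0 : 0 ≤ D := le_trans (by positivity) hD1
  refine ⟨θ, min ω₁ (min (β / 10) η), C₁, hθ, hθ1, by positivity, hC₁, ?_⟩
  intro ω hω hω0 ε hε
  have hω1 : ω ≤ ω₁ := hω0.trans (min_le_left _ _)
  have hω2 : ω ≤ β / 10 := hω0.trans ((min_le_right _ _).trans (min_le_left _ _))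
  have hω3 : ω ≤ η := hω0.trans ((min_le_right _ _).trans (min_le_right _ _))
  have hω4 : ω ≤ 1 := hω3.trans hη4
  obtain ⟨x₀, hx₀, HX⟩ := exists_sm Λ K C CN C₁ D hβ hσ hω hε hε₀
  refine ⟨x₀ * ω, by positivity, ?_⟩
  intro M ν d R hM hν hd hd0 hR hG
  obtain ⟨x, hxdef⟩ : ∃ x : ℝ, x = d / ω := ⟨_, rfl⟩
  have hx : 0 < x := by rw [hxdef]; positivity
  have hdx : d = x * ω := by rw [hxdef]; field_simp
  have hk : 10 * d / ω = 10 * x := by rw [hxdef]; ring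
  have hs := HX x hx (by rw [hxdef, div_le_iff₀ hω]; exact hd0)
  have hdx' : d ≤ x := by
    rw [hdx]
    exact mul_le_of_le_one_right hx.le hω4
  have hdβ : d ≤ β / 100 := by linarith [hs.b]
  have hdω : d ≤ ω / 10 := by
    have := mul_le_mul_of_nonneg_right hs.a hω.le
    rw [hdx]
    linarith only [this]
  have hθ2 : θ ≤ 1 := by linarith
  have hR0 : 0 < R := by linarith
  obtain ⟨hgood, HB⟩ := hLEV M β ω d R ν hM hν hω hω2 hd hdω (by linarith) hG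
  rw [hk] at hgood HB ⊢
  have hpic : ∀ (c : E) (b : ℝ), GoodOn M ν ω c b R → Ctr M ν η c (Λ * b) R :=
    fun c b h => HP M ν ω c b R hM hν hω hω1 h
  have hpic₁ : ∀ (c : E) (b : ℝ), GoodOn M ν ω c b R → Ctr M ν η c (C₁ * b) R :=
    fun c b h => (hpic c b h).mono hMONO hM (mul_le_mul_of_nonneg_right hC₁Λ h.pos.le)
  have hr0 : rr θ R 0 = R / 16 := by simp [rr]
  have hr16 : ∀ j, 16 * rr θ R j ≤ R := fun j => by
    have := rr_anti hθ hθ2 hR0.le (Nat.zero_le j)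
    rw [hr0] at this
    linarith
  have hrpos : ∀ j, 0 < rr θ R j := fun j => rr_pos hθ hR0 j
  have hrR : ∀ j, rr θ R j ≤ R := fun j => by linarith [hr16 j, hrpos j]
  have hg : ∀ j, 1 ≤ rr θ R (j + 1) → 1 ≤ rr θ R j := fun j h =>
    h.trans (rr_anti hθ hθ2 hR0.le (Nat.le_succ j))
  have hcl : ∀ {ν' : Bool → E}, (∀ i, ‖ν' i - ν i‖ ≤ ω / 16) → ∀ i, ‖ν' i - ν i‖ ≤ β / 100 :=
    fun h i => (h i).trans (by linarith)
  have hu0 : ∀ j, 1 ≤ rr θ R j → 0 ≤ 2 * Bl M ν ω R (rr θ R j) + 10 * x := fun j hj => by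
    linarith [(HB _ hj (hr16 j)).1]
  have hu1 : ∀ j, 1 ≤ rr θ R j → 2 * Bl M ν ω R (rr θ R j) + 10 * x ≤ 70 * x * rr θ R j :=
    fun j hj => lev_le hx hj (HB _ hj (hr16 j)).2.1
  -- the start
  obtain ⟨ν₀, hc₀, hn₀⟩ := hG (rr θ R 0) (by rw [hr0]; linarith) (hrR 0)
  have hI0 : (⟨ν₀, fun i => ⟪(0 : E), ν₀ i⟫⟩ : Pl).Close ν (ω / 8) ∧
      psi M β ν K₀ ⟨ν₀, fun i => ⟪(0 : E), ν₀ i⟫⟩ 0 (rr θ R 0) ≤ D * x * rr θ R 0 := by
    refine ⟨⟨fun i => (cross_bool hc₀ i).1, fun i => (hn₀ i).trans (by linarith)⟩, ?_⟩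
    have h1 := (HS M ν ν₀ d (rr θ R 0) 0 hM hν hd hdβ (hrpos 0) (hcl hn₀) hc₀).psi_le
      (K₀ := K₀) (by linarith) (hrpos 0)
    refine h1.trans ?_
    have h2 : (1 + K₀) * CS * d ≤ D * x :=
      mul_le_mul hD1 hdx' hd.le hD0
    have h3 := mul_le_mul_of_nonneg_right h2 (hrpos 0).le
    linarith
  -- the step
  have hstep : ∀ (j : ℕ) (P : Pl),
      (P.Close ν (ω / 8) ∧ psi M β ν K₀ P 0 (rr θ R j) ≤ D * x * rr θ R j) →
      1 ≤ rr θ R (j + 1) → ∃ Q : Pl,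
        (Q.Close ν (ω / 8) ∧ psi M β ν K₀ Q 0 (rr θ R (j + 1)) ≤ D * x * rr θ R (j + 1)) ∧
        (psi M β ν K₀ Q 0 (rr θ R (j + 1)) ≤
            θ / 2 * psi M β ν K₀ P 0 (rr θ R j) + lv M ν ω θ (10 * x) C₁ R j ∧
          ∀ i, ‖Q.n i - P.n i‖ ≤
            C₁ * (psi M β ν K₀ P 0 (rr θ R j) + lv M ν ω θ (10 * x) C₁ R j) / rr θ R j) := by
    intro j P ⟨hPc, hPp⟩ hj1
    have hj := hg j hj1
    have hr := hrpos j
    have hu0' := hu0 j hj
    have hu1' := hu1 j hj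
    have hcore := (HB _ hj (hr16 j)).2.2.2.2.2 η Λ hpic
    unfold lv
    have hsucc := rr_succ θ R j
    have hR' := hrR (j + 1)
    rw [hsucc] at hj1 hR' ⊢
    generalize rr θ R j = r at *
    generalize 2 * Bl M ν ω R r + 10 * x = u at *
    have hΛu : Λ * u ≤ Λ * (70 * x * r) := mul_le_mul_of_nonneg_left hu1' (by linarith)
    have hb : 1000 * (Λ * u) ≤ β * r := by
      have := mul_le_mul_of_nonneg_right hs.c hr.le
      linarith only [this, hΛu]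
    obtain ⟨G, hsh, -⟩ := hSTRUCT M β η (Λ * u) R (Λ * u) r ν 0 hM hν hη hη1 le_rfl hb hcore
    rw [← hKdef, ← hσdef] at hsh
    have hκ0 : 0 ≤ K * (Λ * u) * r := by positivity
    have hPc' : P.Close ν (σ / 2) := by
      refine hPc.mono ?_
      have h1 : η ≤ σ := by
        rw [hσdef, le_div_iff₀ hβ]
        have := mul_le_of_le_one_right hη.le hν.le_one
        linarith only [this, hη]
      linarith only [h1, hω3, hω]
    have hp1 : psi M β ν K₀ P 0 r ≤ ε₀ * σ * r :=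
      hPp.trans (mul_le_mul_of_nonneg_right hs.d hr.le)
    have hκ1 : K * (Λ * u) * r ≤ ε₀ * σ * r ^ 2 := by
      have h1 : K * (Λ * u) * r ≤ K * (Λ * (70 * x * r)) * r :=
        mul_le_mul_of_nonneg_right (mul_le_mul_of_nonneg_left hΛu hK.le) hr.le
      have h2 := mul_le_mul_of_nonneg_right hs.e (sq_nonneg r)
      linarith only [h1, h2]
    obtain ⟨-, Q, hQ, hQp⟩ := HL M ν σ (K * (Λ * u) * r) r 0 G P hM hν hσ hσ1 hr hκ0 hsh hPc'
      hp1 hκ1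
    have hκr : K * (Λ * u) * r / r = K * Λ * u := by field_simp
    rw [hκr] at hQ hQp
    have hp0 : 0 ≤ psi M β ν K₀ P 0 r := psi_nonneg M β ν P 0 (by linarith) hr.le
    have hQn : ∀ i, r * ‖Q.n i - P.n i‖ ≤ C * psi M β ν K₀ P 0 r + C * K * Λ * u := fun i => by
      have h1 := (hQ i).2
      have h2 := abs_nonneg (Q.f i 0 - P.f i 0)
      linarith only [h1, h2]
    have hQp' : psi M β ν K₀ Q 0 (θ * r) ≤ θ / 2 * psi M β ν K₀ P 0 r + C * K * Λ * u := by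
      linarith only [hQp]
    have hnew := new_le hθ hx hr hCK hPp hu1' hD2 hQp'
    have hhalf : Q.Close ν (1 / 2) := by
      refine (hPc.trans (fun i => (hQ i).1) (δ' := 1 / 4) fun i => ?_).mono (by linarith)
      exact quarter_le hr (by linarith) hCK hPp hu1' hs.f (hQn i)
    have hθr : 0 < θ * r := by positivity
    obtain ⟨ν', hc', hn'⟩ := hG (θ * r) hj1 hR'
    have hpc : Pic M ν η 0 (θ * r) :=
      (hpic 0 _ hgood).pic _ (by linarith [hs.g]) hR'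
    have hnr := (HN M ν η (θ * r) _ 0 Q hM hν hη hη3 hθr hpc hhalf
      (exc_psi M β ν Q 0 hK₀ hθr)).2 ν' d hd hdβ (hcl hn') hc'
    refine ⟨Q, ⟨⟨fun i => (hQ i).1, fun i => ?_⟩, hnew⟩, ?_, fun i => ?_⟩
    · have h1 : psi M β ν K₀ Q 0 (θ * r) / (θ * r) ≤ D * x := by
        rw [div_le_iff₀ hθr]; exact hnew
      have h2 : CN * (psi M β ν K₀ Q 0 (θ * r) / (θ * r) + d) ≤ CN * (D * x + x) :=
        mul_le_mul_of_nonneg_left (by linarith) hCN.le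
      have h3 := norm_sub_le_norm_sub_add_norm_sub (Q.n i) (ν' i) (ν i)
      have h4 := hnr i
      have h5 := hn' i
      have h6 := hs.h
      linarith only [h2, h3, h4, h5, h6]
    · have := mul_le_mul_of_nonneg_right hC₁K hu0'
      linarith only [this, hQp']
    · exact drift_le hr hp0 hu0' hC₁ hC₁C hC₁K (hQn i)
  obtain ⟨P, hI, hS⟩ := exists_seq
    (fun j (P : Pl) => P.Close ν (ω / 8) ∧ psi M β ν K₀ P 0 (rr θ R j) ≤ D * x * rr θ R j)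
    (fun j (P Q : Pl) => psi M β ν K₀ Q 0 (rr θ R (j + 1)) ≤
            θ / 2 * psi M β ν K₀ P 0 (rr θ R j) + lv M ν ω θ (10 * x) C₁ R j ∧
          ∀ i, ‖Q.n i - P.n i‖ ≤
            C₁ * (psi M β ν K₀ P 0 (rr θ R j) + lv M ν ω θ (10 * x) C₁ R j) / rr θ R j)
    (fun j => 1 ≤ rr θ R j) _ hI0 hg hstep
  refine ⟨P, fun j => psi M β ν K₀ (P j) 0 (rr θ R j), hpic₁,
    fun j => psi_nonneg M β ν _ 0 (by linarith) (hrpos j).le, fun j hj => (hI j hj).1,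
    fun j _ => exc_psi M β ν _ 0 hK₀ (hrpos j),
    fun j hj => (HB _ hj (hr16 j)).2.2.2.2.2 η C₁ hpic₁, fun j hj => ?_,
    fun j hj => (hS j hj).1, fun j hj => (hS j hj).2⟩
  have h1 := (hI j hj).2
  have h2 := mul_le_mul_of_nonneg_left (hu1 j hj) (by linarith : (0 : ℝ) ≤ C₁)
  have h3 := mul_le_mul_of_nonneg_right hs.i (hrpos j).le
  unfold lv
  linarith only [h1, h2, h3]

end MW.CI
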