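import Pool.Agent.P.MP_064970_gt.SC

/-! Case I, row SCH: the density defect of a Scherk surface. -/

open MeasureTheory Set Filter Topology Metric
open scoped RealInnerProductSpace ENNReal ComplexConjugate Real

noncomputable section

namespace MW.CI

namespace SCH

theorem nrm (hUC : S_UC) {M : Surf} {w : E} (hw : ∀ x, x + w ∈ M.S ↔ x ∈ M.S) {x : E}
    (hx : x ∈ M.S) (v : E) : |⟪v, M.N (x + w)⟫| = |⟪v, M.N x⟫| := by
  have h := M.isSim (LinearIsometryEquiv.refl ℝ E) one_pos w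
  have e : ∀ y, simMap (LinearIsometryEquiv.refl ℝ E) 1 w y = y + w := fun y => by simp [simMap]
  have hS : ∀ y, y ∈ M.S → y ∈ (M.sim (LinearIsometryEquiv.refl ℝ E) 1 w).S := by
    intro y hy
    have h1 := (h.S (y - w)).2 ((hw (y - w)).1 (by simpa using hy))
    rwa [e, sub_add_cancel] at h1
  have h1 := (hw x).2 hx
  have h2 := (hUC M _ (x + w) h1 (hS _ h1)).2 (eventually_nhdsWithin_of_forall hS)
  have h3 := h.N x
  rw [e] at h3
  rw [h3] at h2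
  simp only [LinearIsometryEquiv.coe_refl, id] at h2
  rcases h2 with h2 | h2 <;> rw [h2]
  rw [inner_neg_right, abs_neg]

theorem per {S : Set E} {V : E} (hV : ∀ x, x + V ∈ S ↔ x ∈ S) (j : ℕ) (x : E) :
    x + (j : ℝ) • V ∈ S ↔ x ∈ S := by
  induction j with
  | zero => simp
  | succ n ih => rw [Nat.cast_succ, add_smul, one_smul, ← add_assoc, hV, ih]

theorem main (hMONO : S_MONO) (hLOW : S_LOW) (hUC : S_UC) {M : Surf} (hM : M.Mem) {V x₀ : E}
    (hV : ∀ x, x + V ∈ M.S ↔ x ∈ M.S) (hx₀ : x₀ ∈ M.S) (h0 : ⟪V, M.N x₀⟫ ≠ 0) :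
    ∃ c s₀ : ℝ, 0 < c ∧ ∀ s : ℝ, s₀ ≤ s → c ≤ s * (2 - M.Θ 0 s) := by
  have hV0 : V ≠ 0 := fun e => h0 (by rw [e, inner_zero_left])
  obtain ⟨v, hv, hve⟩ : ∃ v : ℝ, 0 < v ∧ ‖V‖ = v := ⟨_, norm_pos_iff.2 hV0, rfl⟩
  obtain ⟨a, ha, hae⟩ : ∃ a : ℝ, 0 < a ∧ |⟪V, M.N x₀⟫| = 2 * a :=
    ⟨|⟪V, M.N x₀⟫| / 2, half_pos (abs_pos.2 h0), by ring⟩
  obtain ⟨r₀, hr₀, -, hb⟩ := M.basic_ball hx₀ (ε := a / v) (by positivity)
  obtain ⟨r, hr, hr1, hr2⟩ : ∃ r : ℝ, 0 < r ∧ r ≤ r₀ ∧ r ≤ v / 2 :=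
    ⟨min r₀ (v / 2), by positivity, min_le_left _ _, min_le_right _ _⟩
  have hN : ∀ y ∈ M.S ∩ ball x₀ r, a ≤ |⟪V, M.N y⟫| := by
    intro y hy
    have h1 := hb y ⟨hy.1, ball_subset_ball hr1 hy.2⟩
    have h2 := abs_inner_sub_le V (M.N y) (M.N x₀)
    have h3 : ‖V‖ * ‖M.N y - M.N x₀‖ ≤ v * (a / v) := by
      rw [hve]
      gcongr
    rw [mul_div_cancel₀ _ hv.ne'] at h3
    have h4 := abs_sub_abs_le_abs_sub ⟪V, M.N x₀⟫ ⟪V, M.N y⟫
    rw [abs_sub_comm] at h4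
    linarith
  obtain ⟨D, hD, hDe⟩ : ∃ D : ℝ, 0 < D ∧ D = ‖x₀‖ + r + 2 * v := ⟨_, by positivity, rfl⟩
  refine ⟨1 / (4 * v) * (π / 4 * r ^ 2) * (a / (8 * v)) ^ 2 / 2560, max D (8 * v * D / a),
    by positivity, fun s hs => ?_⟩
  have hs1 : D ≤ s := (le_max_left _ _).trans hs
  have hs2 : 8 * v * D / a ≤ s := (le_max_right _ _).trans hs
  have hs0 : 0 < s := hD.trans_le hs1
  obtain ⟨J, hJ1, hJ2⟩ : ∃ J : ℕ, s / (4 * v) ≤ J ∧ (J : ℝ) < s / (4 * v) + 1 :=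
    ⟨_, Nat.le_ceil _, Nat.ceil_lt_add_one (by positivity)⟩
  have hsub : (⋃ j ∈ Finset.Ico J (2 * J), ball (x₀ + (j : ℝ) • V) r) ⊆ ball 0 (4 * s / 2) := by
    intro x hx
    simp only [mem_iUnion, Finset.mem_Ico] at hx
    obtain ⟨j, ⟨-, hj⟩, hx⟩ := hx
    rw [mem_ball_iff_norm] at hx
    have hj' : (j : ℝ) ≤ 2 * J := by exact_mod_cast hj.le
    have h1 : ‖x‖ ≤ ‖x - (x₀ + (j : ℝ) • V)‖ + (‖x₀‖ + ‖(j : ℝ) • V‖) :=
      (norm_le_norm_sub_add x (x₀ + (j : ℝ) • V)).trans (by gcongr; exact norm_add_le _ _)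
    rw [norm_smul, hve, Real.norm_of_nonneg (Nat.cast_nonneg j)] at h1
    have h2 : (j : ℝ) * v ≤ 2 * (s / (4 * v) + 1) * v := by gcongr; linarith
    have h3 : 2 * (s / (4 * v) + 1) * v = s / 2 + 2 * v := by field_simp; ring
    rw [mem_ball_zero_iff]
    linarith
  have hmeas : MeasurableSet (⋃ j ∈ Finset.Ico J (2 * J), ball (x₀ + (j : ℝ) • V) r) :=
    Finset.measurableSet_biUnion _ fun j _ => measurableSet_ball
  have hmass : s / (4 * v) * (π / 4 * r ^ 2) ≤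
      M.μ.real (⋃ j ∈ Finset.Ico J (2 * J), ball (x₀ + (j : ℝ) • V) r) := by
    rw [measureReal_biUnion_finset _ (fun j _ => measurableSet_ball)
      (fun j _ => (hM.bd.lt_top isBounded_ball).ne)]
    · refine le_trans ?_ (Finset.card_nsmul_le_sum _ _ (π / 4 * r ^ 2) fun j _ =>
        (hLOW M _ r ((per hV j x₀).2 hx₀) hr (hM.sub _)).2)
      rw [Nat.card_Ico, nsmul_eq_mul, show 2 * J - J = J by omega]
      gcongr
    · intro i _ j _ hij
      refine ball_disjoint_ball ?_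
      rw [dist_add_left, dist_eq_norm, ← sub_smul, norm_smul, hve, Real.norm_eq_abs]
      have h1 : (1 : ℝ) ≤ |(i : ℝ) - j| := by
        have : (1 : ℤ) ≤ |(i : ℤ) - j| := Int.one_le_abs (sub_ne_zero.2 (by exact_mod_cast hij))
        exact_mod_cast this
      nlinarith
  have hψ : ∀ x ∈ M.S, x ∈ (⋃ j ∈ Finset.Ico J (2 * J), ball (x₀ + (j : ℝ) • V) r) →
      (s * (a / (8 * v))) ^ 2 ≤ M.ψ 0 x ^ 2 := by
    intro x hxS hx
    simp only [mem_iUnion, Finset.mem_Ico] at hx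
    obtain ⟨j, ⟨hj, -⟩, hx⟩ := hx
    obtain ⟨y, rfl⟩ : ∃ y, x = y + (j : ℝ) • V := ⟨x - (j : ℝ) • V, by simp⟩
    have hy : y ∈ M.S := (per hV j y).1 hxS
    have hy' : y ∈ ball x₀ r := by simpa using hx
    have h1 := hN y ⟨hy, hy'⟩
    rw [← nrm hUC (per hV j) hy V] at h1
    have h2 : |⟪y, M.N (y + (j : ℝ) • V)⟫| ≤ D := by
      refine (abs_real_inner_le_norm _ _).trans ?_
      rw [M.N_unit _ hxS, mul_one]
      have := norm_le_norm_sub_add y x₀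
      rw [mem_ball_iff_norm] at hy'
      linarith
    have h3 : M.ψ 0 (y + (j : ℝ) • V) =
        ⟪y, M.N (y + (j : ℝ) • V)⟫ + j * ⟪V, M.N (y + (j : ℝ) • V)⟫ := by
      rw [Surf.ψ, sub_zero, inner_add_left, real_inner_smul_left]
    have hj' : (J : ℝ) ≤ j := by exact_mod_cast hj
    have h4 : s / (4 * v) * a ≤ |j * ⟪V, M.N (y + (j : ℝ) • V)⟫| := by
      rw [abs_mul, Nat.abs_cast]
      exact mul_le_mul (hJ1.trans hj') h1 ha.le (Nat.cast_nonneg j)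
    have h5 : D ≤ s * (a / (8 * v)) := by
      rw [div_le_iff₀ ha] at hs2
      rw [mul_div_assoc', le_div_iff₀ (by positivity)]
      linarith
    have h6 : s / (4 * v) * a = 2 * (s * (a / (8 * v))) := by field_simp; ring
    have h7 := abs_add_le (M.ψ 0 (y + (j : ℝ) • V)) (-⟪y, M.N (y + (j : ℝ) • V)⟫)
    rw [abs_neg, h3, add_neg_cancel_comm, ← h3] at h7
    rw [← sq_abs (M.ψ 0 _)]
    exact pow_le_pow_left₀ (by positivity) (by linarith) 2
  have hint : IntegrableOn (fun x => M.ψ 0 x ^ 2) (ball 0 (4 * s / 2)) M.μ := by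
    refine hM.bd.integrableOn isBounded_ball ?_ (C := (4 * s / 2) ^ 2) (fun x hx => ?_)
      measurableSet_ball
    · exact ((measurable_id.sub_const 0).inner M.N_meas).pow_const 2
    · rw [abs_pow]
      refine pow_le_pow_left₀ (abs_nonneg _) ((abs_real_inner_le_norm _ _).trans ?_) 2
      rw [M.N_unit _ hx.2, mul_one]
      exact (mem_ball_iff_norm.1 hx.1).le
  have h1 : (s * (a / (8 * v))) ^ 2 * (s / (4 * v) * (π / 4 * r ^ 2)) ≤
      ∫ x in ball 0 (4 * s / 2), M.ψ 0 x ^ 2 ∂M.μ := by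
    refine le_trans ?_ (setIntegral_mono_set hint (Eventually.of_forall fun x => sq_nonneg _)
      hsub.eventuallyLE)
    refine (mul_le_mul_of_nonneg_left hmass (sq_nonneg _)).trans ?_
    rw [mul_comm, ← smul_eq_mul, ← setIntegral_const]
    refine setIntegral_mono_ae_restrict (integrableOn_const
      (hM.bd.lt_top (isBounded_ball.subset hsub)).ne) (hint.mono_set hsub) ?_
    filter_upwards [ae_restrict_mem hmeas, ae_restrict_of_ae M.ae_mem] with x hx hxS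
    exact hψ x hxS hx
  have h2 := (hMONO M 0 s (4 * s) hs0 (by linarith) (hM.sub _)).2.2.1 le_rfl
  have h3 := hM.bd.Θ_le_two 0 (r := 4 * s) (by positivity)
  have h4 : 10 * (4 * s) ^ 4 * (M.Θ 0 (4 * s) - M.Θ 0 s) ≤ 10 * (4 * s) ^ 4 * (2 - M.Θ 0 s) := by
    gcongr
  rw [div_le_iff₀ (by norm_num)]
  refine le_of_mul_le_mul_left ?_ (pow_pos hs0 3)
  calc _ = (s * (a / (8 * v))) ^ 2 * (s / (4 * v) * (π / 4 * r ^ 2)) := by ring
    _ ≤ 10 * (4 * s) ^ 4 * (2 - M.Θ 0 s) := h1.trans (h2.trans h4)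
    _ = _ := by ring

end SCH

theorem c_sch_of (hMONO : S_MONO) (hLOW : S_LOW) (hFLAT1 : S_FLAT1) (hUC : S_UC) : C_SCH := by
  rintro M hM ⟨θ, h0, h1, A, c, b, hc, hS⟩
  have hmem : ∀ y : E, simMap A c b y ∈ M.S ↔ Real.cos θ ^ 2 * Real.cosh (y 0 / Real.cos θ)
      - Real.sin θ ^ 2 * Real.cosh (y 1 / Real.sin θ) = Real.cos (y 2) := fun y => by
    rw [hS, (simMap_injective A hc b).mem_set_image]
    rfl
  have hV : ∀ x, x + (c * (2 * π)) • A e3 ∈ M.S ↔ x ∈ M.S := by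
    intro x
    obtain ⟨y, rfl⟩ := simMap_surjective A hc b x
    rw [← simMap_add_smul, hmem, hmem]
    simp [e3, pt]
  have hax : ∀ t : ℝ, simMap A c b (pt 0 t) ∈ M.S ↔ Real.cos (2 * θ) = Real.cos t := fun t => by
    rw [hmem, Real.cos_two_mul']
    simp [pt]
  by_cases h : ∃ x₀ ∈ M.S, ⟪(c * (2 * π)) • A e3, M.N x₀⟫ ≠ 0
  · obtain ⟨x₀, hx₀, h⟩ := h
    exact SCH.main hMONO hLOW hUC hM hV hx₀ h
  exfalso
  push Not at h
  have hx := (hax (2 * θ)).2 rfl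
  have hcp : c * (2 * π) ≠ 0 := by positivity
  have hne : (c * (2 * π)) • A e3 ≠ 0 := by
    refine smul_ne_zero hcp fun e => ?_
    have := A.norm_map e3
    rw [e, norm_zero, inner_frame.2.2.2] at this
    exact zero_ne_one this
  obtain ⟨-, f2, -, f4⟩ := hFLAT1 M _ hx
  have h2 := f4 (f2 _ hne (eventually_nhdsWithin_of_forall h))
  have hN : ⟪A e3, M.N (simMap A c b (pt 0 (2 * θ)))⟫ = 0 := by
    have := h _ hx
    rw [real_inner_smul_left] at this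
    exact (mul_eq_zero.1 this).resolve_left hcp
  have ht : Tendsto (fun t : ℝ => simMap A c b (pt 0 (2 * θ)) + (c * t) • A e3) (𝓝[>] 0)
      (𝓝 (simMap A c b (pt 0 (2 * θ)))) := by
    refine tendsto_nhdsWithin_of_tendsto_nhds (Continuous.tendsto' (by fun_prop) _ _ (by simp))
  obtain ⟨t, h3, h4⟩ := ((ht.eventually h2).and
    (Ioo_mem_nhdsGT (show (0 : ℝ) < π - 2 * θ by linarith))).exists
  have h5 := h3.2 (by rw [add_sub_cancel_left, real_inner_smul_left, hN, mul_zero])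
  rw [← simMap_add_smul, pt_add_smul_e3, hax] at h5
  have h6 := Real.cos_lt_cos_of_nonneg_of_le_pi (x := 2 * θ) (y := 2 * θ + t) (by linarith)
    (by linarith [h4.2]) (by linarith [h4.1])
  exact h6.ne' h5

end MW.CI
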