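import Pool.Agent.P.MP_064970_gt.SC

/-! Case I, row SEQ. Sketch:
Pure sequences, r_j = rr theta R j >= 2^(J-j). LEMMA (used twice): let w j >= 1, r_0 <= w 0, w
(j+1) <= w j <= (3/(2 theta)) w (j+1), and sum over l in Icc i J of w l (m l/r_l)^(1/12) <= tau w
i for all i <= J, with tau <= tau0(theta,C1,c0,CD). Then m j <= D eps' w j, D = D(theta,C1,c0).
Proof: A = max over j <= J of B j/w j; induction p j <= D1 w j with D1 = eps' + 6 C1 (2A +
eps')/theta, so m j <= D2 w j, D2 = D1 + C1(2A+eps'); at the maximal j: j = 0 gives A <= eps'; j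
>= 1 gives A <= (3/(2 theta))(c + CD tau/c0) D2 + eps'/c0 (w i <= w (j-1)); c and tau small absorb
A. First pass w j = (3/2)^(J-j) + r_j (2/3)^j (w (l+1) <= 2/3 w l, tau = 3 eps'^(1/12)); then m
j/r_j <= D eps'((3/4)^(J-j) + (2/3)^j), which gives the sum. Second pass w j = 1 + r_j (2/3)^j,
tau = C (D eps')^(1/12) by (x+y)^(1/12) <= x^(1/12) + y^(1/12) (Real.rpow_add_le_add_rpow) and
geometric sums. -/

open MeasureTheory Set Filter Topology Metric
open scoped RealInnerProductSpace ENNReal ComplexConjugate Real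

noncomputable section

namespace MW.CI

namespace SEQ

theorem geo (w : ℕ → ℝ) (J : ℕ) (h0 : ∀ l, l ≤ J → 0 ≤ w l)
    (h : ∀ l, l + 1 ≤ J → w (l + 1) ≤ 2 / 3 * w l) :
    ∀ n i, i + n = J → ∑ l ∈ Finset.Icc i J, w l ≤ 3 * w i := by
  intro n
  induction n with
  | zero =>
    intro i hi
    have : i = J := by omega
    subst this
    have := h0 i le_rfl
    simp only [Finset.Icc_self, Finset.sum_singleton]
    linarith
  | succ n ih =>
    intro i hi
    have h1 := ih (i + 1) (by omega)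
    have h2 := h i (by omega)
    rw [← Finset.insert_Icc_add_one_left_eq_Icc (by omega : i ≤ J), Finset.sum_insert (by simp)]
    linarith

theorem geo_sum {x : ℝ} (h0 : 0 ≤ x) (h1 : x < 1) (n : ℕ) :
    ∑ l ∈ Finset.range n, x ^ l ≤ (1 - x)⁻¹ := by
  rw [← tsum_geometric_of_lt_one h0 h1]
  exact (summable_geometric_of_lt_one h0 h1).sum_le_tsum _ fun i _ => pow_nonneg h0 i

theorem geo_two {x : ℝ} (h0 : 0 ≤ x) (h1 : x < 1) (J : ℕ) :
    ∑ l ∈ Finset.range (J + 1), (x ^ (J - l) + x ^ l) ≤ 2 * (1 - x)⁻¹ := by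
  rw [Finset.sum_add_distrib]
  have h2 : ∑ l ∈ Finset.range (J + 1), x ^ (J - l) = ∑ l ∈ Finset.range (J + 1), x ^ l :=
    Finset.sum_flip (fun l => x ^ l)
  have := geo_sum h0 h1 (J + 1)
  linarith

theorem core {θ C₁ c c₀ CD τ ε' k q : ℝ} (J : ℕ) (p B m w a : ℕ → ℝ) (hθ : 0 < θ)
    (hθ1 : θ ≤ 1 / 2) (hq : θ * q = 3 / 2) (hC₁ : 1 ≤ C₁) (hc : 0 ≤ c) (hc₀ : 0 < c₀)
    (hCD : 0 < CD) (hτ : 0 ≤ τ) (hε : 0 < ε') (hk0 : 0 ≤ k) (hk : k ≤ ε')
    (hκ : 4 * C₁ * q ^ 2 * (c + CD * τ / c₀) ≤ 1 / 8)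
    (hw1 : ∀ j, j ≤ J → 1 ≤ w j) (hw : ∀ j, j + 1 ≤ J → w (j + 1) ≤ w j ∧ w j ≤ q * w (j + 1))
    (ha : ∀ l, l ≤ J → 0 ≤ a l)
    (hS : ∀ i, i ≤ J → ∑ l ∈ Finset.Icc i J, w l * a l ≤ τ * w i)
    (hm : ∀ j, j ≤ J → 0 ≤ p j ∧ 0 ≤ B j ∧ m j = p j + C₁ * (2 * B j + k))
    (hm0 : m 0 ≤ ε' * w 0)
    (hp : ∀ j, j + 1 ≤ J → p (j + 1) ≤ θ / 2 * p j + C₁ * (2 * B j + k))
    (hB : ∀ j, 1 ≤ j → j ≤ J → ∃ i, j ≤ i + 1 ∧ i ≤ J ∧ B j ≤ c * m i
        + (ε' + CD * ∑ l ∈ Finset.Icc i J, m l * a l) / c₀) :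
    ∀ j, j ≤ J → m j ≤ 8 * (q + 2 * C₁ + 4 * C₁ * q / c₀) * ε' * w j := by
  have hq3 : 3 ≤ q := by nlinarith
  obtain ⟨j₀, hj₀, hmax⟩ := Finset.exists_max_image (Finset.range (J + 1)) (fun j => m j / w j)
    ⟨0, by simp⟩
  have hj₀J : j₀ ≤ J := by simpa [Nat.lt_succ_iff] using hj₀
  set A := m j₀ / w j₀ with hA
  have hwp : ∀ j, j ≤ J → 0 < w j := fun j hj => lt_of_lt_of_le one_pos (hw1 j hj)
  have hmn : ∀ j, j ≤ J → 0 ≤ m j := fun j hj => by
    obtain ⟨h1, h2, h3⟩ := hm j hj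
    rw [h3]; positivity
  have hA0 : 0 ≤ A := div_nonneg (hmn _ hj₀J) (hwp _ hj₀J).le
  have hmA : ∀ j, j ≤ J → m j ≤ A * w j := fun j hj => by
    have := hmax j (by simpa [Nat.lt_succ_iff] using hj)
    rwa [div_le_iff₀ (hwp j hj)] at this
  have hanti : ∀ n i, i + n ≤ J → w (i + n) ≤ w i := by
    intro n
    induction n with
    | zero => intro i _; simp
    | succ n ih =>
      intro i hi
      exact ((hw (i + n) (by omega)).1).trans (ih i (by omega))
  set κ := c + CD * τ / c₀ with hκd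
  have hκ0 : 0 ≤ κ := by positivity
  set β := κ * q * A + ε' / c₀ with hβ
  have hβ0 : 0 ≤ β := by positivity
  have hBβ : ∀ j, 1 ≤ j → j ≤ J → B j ≤ β * w j := by
    intro j h1 hj
    obtain ⟨i, hi1, hi2, hb⟩ := hB j h1 hj
    have hwi : w i ≤ q * w j := by
      have h2 := hanti (i - (j - 1)) (j - 1) (by omega)
      have h3 := (hw (j - 1) (by omega)).2
      rw [show j - 1 + (i - (j - 1)) = i by omega] at h2
      rw [show j - 1 + 1 = j by omega] at h3
      linarith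
    have hs : ∑ l ∈ Finset.Icc i J, m l * a l ≤ A * (τ * w i) := by
      refine le_trans ?_ (mul_le_mul_of_nonneg_left (hS i hi2) hA0)
      rw [Finset.mul_sum]
      refine Finset.sum_le_sum fun l hl => ?_
      have hl' := (Finset.mem_Icc.1 hl).2
      rw [← mul_assoc]
      exact mul_le_mul_of_nonneg_right (hmA l hl') (ha l hl')
    have h4 : (ε' + CD * ∑ l ∈ Finset.Icc i J, m l * a l) / c₀
        ≤ (ε' * w j + CD * (A * (τ * w i))) / c₀ := by
      refine div_le_div_of_nonneg_right (add_le_add ?_ ?_) hc₀.le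
      · nlinarith [hw1 j hj]
      · exact mul_le_mul_of_nonneg_left hs hCD.le
    have h5 : c * m i ≤ c * (A * w i) := mul_le_mul_of_nonneg_left (hmA i hi2) hc
    have h6 : c * (A * w i) + (ε' * w j + CD * (A * (τ * w i))) / c₀
        = κ * A * w i + ε' / c₀ * w j := by rw [hκd]; field_simp; ring
    have h7 : κ * A * w i ≤ κ * A * (q * w j) := mul_le_mul_of_nonneg_left hwi (by positivity)
    have h8 : β * w j = κ * A * (q * w j) + ε' / c₀ * w j := by rw [hβ]; ring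
    linarith
  set D := q + 2 * C₁ + 4 * C₁ * q / c₀ with hD
  have hD1 : 1 ≤ D := by
    have : 0 ≤ 4 * C₁ * q / c₀ := by positivity
    linarith
  have hAD : A ≤ 8 * D * ε' := by
    rcases Nat.eq_zero_or_pos j₀ with h0 | h0
    · have : A ≤ ε' := by
        rw [hA, h0, div_le_iff₀ (hwp 0 (Nat.zero_le _))]; exact hm0
      nlinarith
    · obtain ⟨j, rfl⟩ : ∃ j, j₀ = j + 1 := ⟨j₀ - 1, by omega⟩
      have hW := hwp _ hj₀J
      have hW1 := hw1 _ hj₀J
      have hwj := (hw j hj₀J).2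
      obtain ⟨hp0, hB0, hmj⟩ := hm j (by omega)
      obtain ⟨-, -, hmj1⟩ := hm (j + 1) hj₀J
      have hpj := hp j hj₀J
      have hb1 := hBβ (j + 1) (by omega) hj₀J
      have hkW : k ≤ ε' * w (j + 1) := by nlinarith
      have e1 : C₁ * (2 * B (j + 1) + k) ≤ C₁ * ((2 * β + ε') * w (j + 1)) :=
        mul_le_mul_of_nonneg_left (by linarith) (by linarith)
      have e2 : θ / 2 * p j ≤ 3 / 4 * A * w (j + 1) := by
        have h1 : p j ≤ A * w j := by
          have : 0 ≤ C₁ * (2 * B j + k) := by positivity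
          linarith [hmA j (by omega)]
        have h2 : A * w j ≤ A * (q * w (j + 1)) := mul_le_mul_of_nonneg_left hwj hA0
        have h3 : θ / 2 * p j ≤ θ / 2 * (A * (q * w (j + 1))) :=
          mul_le_mul_of_nonneg_left (h1.trans h2) (by linarith)
        have h4 : θ / 2 * (A * (q * w (j + 1))) = (θ * q) / 2 * A * w (j + 1) := by ring
        rw [h4, hq] at h3
        linarith
      have e3 : C₁ * (2 * B j + k) ≤ (q * ε' + C₁ * (2 * β * q + ε')) * w (j + 1) := by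
        rcases Nat.eq_zero_or_pos j with h0' | h0'
        · subst h0'
          have h1 : ε' * w 0 ≤ ε' * (q * w (0 + 1)) := mul_le_mul_of_nonneg_left hwj hε.le
          have h2 : 0 ≤ C₁ * (2 * β * q + ε') * w (0 + 1) := by positivity
          nlinarith
        · have h1 := hBβ j h0' (by omega)
          have h2 : β * w j ≤ β * (q * w (j + 1)) := mul_le_mul_of_nonneg_left hwj hβ0
          have h3 : C₁ * (2 * B j + k) ≤ C₁ * ((2 * β * q + ε') * w (j + 1)) :=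
            mul_le_mul_of_nonneg_left (by linarith) (by linarith)
          have h4 : 0 ≤ q * ε' * w (j + 1) := by positivity
          nlinarith
      have e4 : m (j + 1) ≤ (3 / 4 * A + (q * ε' + C₁ * (2 * β * q + ε')) + C₁ * (2 * β + ε'))
          * w (j + 1) := by nlinarith
      have e5 : A ≤ 3 / 4 * A + (q * ε' + C₁ * (2 * β * q + ε')) + C₁ * (2 * β + ε') := by
        rw [hA, div_le_iff₀ hW]; exact e4
      have e6 : C₁ * (2 * β) ≤ C₁ * (2 * β * q) :=
        mul_le_mul_of_nonneg_left (by nlinarith) (by linarith)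
      have e7 : 4 * C₁ * q * β = 4 * C₁ * q ^ 2 * κ * A + 4 * C₁ * q / c₀ * ε' := by
        rw [hβ]; ring
      have e8 : 4 * C₁ * q ^ 2 * κ * A ≤ 1 / 8 * A := mul_le_mul_of_nonneg_right hκ hA0
      have e9 : D * ε' = q * ε' + 2 * C₁ * ε' + 4 * C₁ * q / c₀ * ε' := by rw [hD]; ring
      nlinarith
  intro j hj
  exact (hmA j hj).trans (mul_le_mul_of_nonneg_right hAD (hwp j hj).le)

end SEQ

theorem c_seq_of : C_SEQ := by
  intro θ C₁ hθ hθ1 hC₁
  set q : ℝ := 3 / (2 * θ) with hqd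
  have hq : θ * q = 3 / 2 := by rw [hqd]; field_simp
  have hq3 : 3 ≤ q := by nlinarith
  refine ⟨1 / (64 * C₁ * q ^ 2), by positivity, fun c₀ CD ε hc₀ hCD hε => ?_⟩
  set D : ℝ := 8 * (q + 2 * C₁ + 4 * C₁ * q / c₀) with hD
  have hD1 : 1 ≤ D := by
    have : 0 ≤ 4 * C₁ * q / c₀ := by positivity
    linarith
  set x : ℝ := (3 / 4 : ℝ) ^ (1 / 12 : ℝ) with hx
  have hx0 : 0 ≤ x := Real.rpow_nonneg (by norm_num) _
  have hx1 : x < 1 := Real.rpow_lt_one (by norm_num) (by norm_num) (by norm_num)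
  set Y : ℝ := 2 * (1 - x)⁻¹ + 6 with hY
  have hY0 : 0 ≤ 2 * (1 - x)⁻¹ := by have := sub_pos.2 hx1; positivity
  have hY6 : 6 ≤ Y := by linarith
  set τ : ℝ := c₀ / (64 * C₁ * q ^ 2 * CD) with hτ
  have hτ0 : 0 < τ := by positivity
  have hκ : 4 * C₁ * q ^ 2 * (1 / (64 * C₁ * q ^ 2) + CD * τ / c₀) ≤ 1 / 8 := by
    rw [hτ]; apply le_of_eq; field_simp; ring
  refine ⟨min (ε / (8 * D)) ((τ / Y) ^ 12 / D), by positivity, ?_⟩
  intro ε' k R J p B m hε' hε1 hk0 hk hJ hm hp hB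
  have hεa : D * ε' ≤ ε / 8 := by
    have := hε1.trans (min_le_left _ _)
    rw [le_div_iff₀ (by positivity)] at this
    linarith
  have hεb : (D * ε') ^ (1 / 12 : ℝ) ≤ τ / Y := by
    have h1 := hε1.trans (min_le_right _ _)
    rw [le_div_iff₀ (by positivity)] at h1
    have h2 : (D * ε') ^ (1 / 12 : ℝ) ≤ ((τ / Y) ^ 12) ^ (1 / 12 : ℝ) :=
      Real.rpow_le_rpow (by positivity) (by linarith) (by norm_num)
    have h3 : ((τ / Y) ^ 12) ^ (1 / 12 : ℝ) = τ / Y := by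
      rw [one_div]
      exact_mod_cast Real.pow_rpow_inv_natCast (by positivity : 0 ≤ τ / Y) (by norm_num : 12 ≠ 0)
    linarith
  have hR : 0 < R := by
    by_contra h
    have : rr θ R J ≤ 0 := mul_nonpos_of_nonneg_of_nonpos (by positivity) (by linarith)
    linarith
  have hr : ∀ j, 0 < rr θ R j := fun j => by unfold rr; positivity
  have hrs : ∀ j, rr θ R (j + 1) = θ * rr θ R j := fun j => by unfold rr; ring
  have hr2 : ∀ j, j ≤ J → 1 ≤ (1 / 2 : ℝ) ^ (J - j) * rr θ R j := by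
    intro j hj
    have h1 : rr θ R J = θ ^ (J - j) * rr θ R j := by
      unfold rr; rw [← mul_assoc, ← pow_add, Nat.sub_add_cancel hj]
    have h2 : θ ^ (J - j) ≤ (1 / 2 : ℝ) ^ (J - j) := pow_le_pow_left₀ hθ.le hθ1 _
    nlinarith [hr j]
  have hmn : ∀ j, j ≤ J → 0 ≤ m j := fun j hj => by
    obtain ⟨h1, h2, h3, -⟩ := hm j hj
    rw [h3]; positivity
  set a : ℕ → ℝ := fun l => (m l / rr θ R l) ^ (1 / 12 : ℝ) with ha
  have ha0 : ∀ l, l ≤ J → 0 ≤ a l := fun l hl =>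
    Real.rpow_nonneg (div_nonneg (hmn l hl) (hr l).le) _
  set g : ℕ → ℝ := fun j => rr θ R j * (2 / 3) ^ j with hg
  have hg0 : ∀ j, 0 < g j := fun j => mul_pos (hr j) (by positivity)
  have hgs : ∀ j, g (j + 1) = 2 / 3 * θ * g j := fun j => by
    simp only [hg, hrs, pow_succ]; ring
  have hgq : ∀ j, g j = q * g (j + 1) := fun j => by
    rw [hgs]
    have : q * (2 / 3 * θ * g j) = 2 / 3 * (θ * q) * g j := by ring
    rw [this, hq]; ring
  have hgd : ∀ j, g (j + 1) ≤ 2 / 3 * g j := fun j => by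
    rw [hgs]; nlinarith [hg0 j]
  have hm' : ∀ j, j ≤ J → 0 ≤ p j ∧ 0 ≤ B j ∧ m j = p j + C₁ * (2 * B j + k) := fun j hj =>
    ⟨(hm j hj).1, (hm j hj).2.1, (hm j hj).2.2.1⟩
  have hg00 : g 0 = rr θ R 0 := by simp [hg]
  have hm00 := (hm 0 (Nat.zero_le _)).2.2.2
  -- first pass
  have P1 : ∀ j, j ≤ J → m j ≤ D * ε' * ((3 / 2 : ℝ) ^ (J - j) + g j) := by
    have hu : ∀ j, j + 1 ≤ J → (3 / 2 : ℝ) ^ (J - j) = 3 / 2 * (3 / 2 : ℝ) ^ (J - (j + 1)) := by
      intro j hj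
      rw [show J - j = J - (j + 1) + 1 by omega, pow_succ]; ring
    have hu1 : ∀ n : ℕ, (1 : ℝ) ≤ (3 / 2 : ℝ) ^ n := fun n => one_le_pow₀ (by norm_num)
    have hdec : ∀ l, l + 1 ≤ J → (3 / 2 : ℝ) ^ (J - (l + 1)) + g (l + 1)
        ≤ 2 / 3 * ((3 / 2 : ℝ) ^ (J - l) + g l) := fun l hl => by
      rw [hu l hl]; linarith [hgd l]
    refine SEQ.core (w := fun j => (3 / 2 : ℝ) ^ (J - j) + g j) (a := a) J p B m hθ hθ1 hq hC₁
      (by positivity) hc₀ hCD hτ0.le hε' hk0 hk hκ (fun j _ => by linarith [hu1 (J - j), hg0 j])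
      (fun j hj => ⟨?_, ?_⟩) ha0 (fun i hi => ?_) hm' ?_ hp hB
    · have := hdec j hj
      have := hu1 (J - j)
      have := hg0 j
      linarith
    · show (3 / 2 : ℝ) ^ (J - j) + g j ≤ q * ((3 / 2 : ℝ) ^ (J - (j + 1)) + g (j + 1))
      rw [hu j hj, mul_add, ← hgq j]
      nlinarith [hu1 (J - (j + 1))]
    · have h1 := SEQ.geo (fun j => (3 / 2 : ℝ) ^ (J - j) + g j) J
        (fun l _ => by linarith [hu1 (J - l), hg0 l]) hdec (J - i) i (by omega)
      have h2 : ∀ l ∈ Finset.Icc i J, ((3 / 2 : ℝ) ^ (J - l) + g l) * a l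
          ≤ ((3 / 2 : ℝ) ^ (J - l) + g l) * (τ / Y) := by
        intro l hl
        have hl' := (Finset.mem_Icc.1 hl).2
        refine mul_le_mul_of_nonneg_left (le_trans ?_ hεb) (by linarith [hu1 (J - l), hg0 l])
        refine Real.rpow_le_rpow (div_nonneg (hmn l hl') (hr l).le) ?_ (by norm_num)
        rw [div_le_iff₀ (hr l)]
        have := (hm l hl').2.2.2
        have h3 : ε' * rr θ R l ≤ D * ε' * rr θ R l := by
          have := mul_pos hε' (hr l)
          nlinarith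
        linarith
      refine (Finset.sum_le_sum h2).trans ?_
      rw [← Finset.sum_mul]
      have h4 : τ / Y ≤ τ / 3 := div_le_div_of_nonneg_left hτ0.le (by norm_num) (by linarith)
      have h5 : 0 ≤ τ / Y := by positivity
      have h6 : 0 ≤ (3 / 2 : ℝ) ^ (J - i) + g i := by linarith [hu1 (J - i), hg0 i]
      calc _ ≤ 3 * ((3 / 2 : ℝ) ^ (J - i) + g i) * (τ / Y) := mul_le_mul_of_nonneg_right h1 h5
        _ ≤ 3 * ((3 / 2 : ℝ) ^ (J - i) + g i) * (τ / 3) :=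
          mul_le_mul_of_nonneg_left h4 (by linarith)
        _ = _ := by ring
    · show m 0 ≤ ε' * ((3 / 2 : ℝ) ^ (J - 0) + g 0)
      rw [hg00]
      nlinarith [hu1 (J - 0)]
  have P2 : ∀ j, j ≤ J → m j / rr θ R j ≤ D * ε' * ((3 / 4 : ℝ) ^ (J - j) + (3 / 4 : ℝ) ^ j) := by
    intro j hj
    rw [div_le_iff₀ (hr j)]
    refine (P1 j hj).trans ?_
    rw [mul_assoc (D * ε')]
    refine mul_le_mul_of_nonneg_left ?_ (by positivity)
    have h1 : (3 / 4 : ℝ) ^ (J - j) = (3 / 2 : ℝ) ^ (J - j) * (1 / 2 : ℝ) ^ (J - j) := by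
      rw [← mul_pow]; norm_num
    have h2 : (2 / 3 : ℝ) ^ j ≤ (3 / 4 : ℝ) ^ j := pow_le_pow_left₀ (by norm_num) (by norm_num) _
    have h3 : g j ≤ (3 / 4 : ℝ) ^ j * rr θ R j := by
      simp only [hg]; nlinarith [hr j]
    have h4 : (3 / 2 : ℝ) ^ (J - j) ≤ (3 / 4 : ℝ) ^ (J - j) * rr θ R j := by
      rw [h1, mul_assoc]
      have : (0 : ℝ) < (3 / 2 : ℝ) ^ (J - j) := by positivity
      nlinarith [hr2 j hj]
    linarith
  refine ⟨?_, ?_⟩
  · have h1 : ∑ j ∈ Finset.range (J + 1), m j / rr θ R j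
        ≤ ∑ j ∈ Finset.range (J + 1), D * ε' * ((3 / 4 : ℝ) ^ (J - j) + (3 / 4 : ℝ) ^ j) :=
      Finset.sum_le_sum fun j hj => P2 j (by simpa [Nat.lt_succ_iff] using hj)
    rw [← Finset.mul_sum] at h1
    have h2 := SEQ.geo_two (x := 3 / 4) (by norm_num) (by norm_num) J
    have h3 : D * ε' * ∑ j ∈ Finset.range (J + 1), ((3 / 4 : ℝ) ^ (J - j) + (3 / 4 : ℝ) ^ j)
        ≤ D * ε' * 8 := mul_le_mul_of_nonneg_left (by norm_num at h2 ⊢; linarith) (by positivity)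
    linarith
  · have hax : ∀ l, l ≤ J → a l ≤ τ / Y * (x ^ (J - l) + x ^ l) := by
      intro l hl
      have hxn : ∀ n : ℕ, ((3 / 4 : ℝ) ^ n) ^ (1 / 12 : ℝ) = x ^ n := fun n => by
        rw [hx, ← Real.rpow_natCast, ← Real.rpow_natCast, ← Real.rpow_mul (by norm_num),
          ← Real.rpow_mul (by norm_num), mul_comm]
      have h1 : a l ≤ (D * ε' * ((3 / 4 : ℝ) ^ (J - l) + (3 / 4 : ℝ) ^ l)) ^ (1 / 12 : ℝ) :=
        Real.rpow_le_rpow (div_nonneg (hmn l hl) (hr l).le) (P2 l hl) (by norm_num)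
      rw [Real.mul_rpow (by positivity) (by positivity)] at h1
      have h2 : ((3 / 4 : ℝ) ^ (J - l) + (3 / 4 : ℝ) ^ l) ^ (1 / 12 : ℝ) ≤ x ^ (J - l) + x ^ l := by
        rw [← hxn, ← hxn]
        exact Real.rpow_add_le_add_rpow (by positivity) (by positivity) (by norm_num) (by norm_num)
      exact h1.trans (mul_le_mul hεb h2 (by positivity) (by positivity))
    have P3 := SEQ.core (w := fun j => 1 + g j) (a := a) J p B m hθ hθ1 hq hC₁
      (by positivity) hc₀ hCD hτ0.le hε' hk0 hk hκ (fun j _ => by linarith [hg0 j])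
      (fun j _ => ⟨by linarith [hgd j, hg0 j], by
        show 1 + g j ≤ q * (1 + g (j + 1))
        rw [mul_add, ← hgq j]; linarith⟩) ha0 (fun i hi => ?_) hm' ?_ hp hB
    · intro j hj
      have h1 := P3 j hj
      have h2 : D * ε' * (1 + g j) ≤ ε * (1 + g j) :=
        mul_le_mul_of_nonneg_right (by linarith) (by linarith [hg0 j])
      exact h1.trans h2
    · have h1 := SEQ.geo g J (fun l _ => (hg0 l).le) (fun l _ => hgd l) (J - i) i (by omega)
      have h5 : 0 ≤ τ / Y := by positivity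
      have h2 : ∀ l ∈ Finset.Icc i J, (1 + g l) * a l
          ≤ τ / Y * ((x ^ (J - l) + x ^ l) + 2 * g l) := by
        intro l hl
        have hl' := (Finset.mem_Icc.1 hl).2
        have h3 : x ^ (J - l) ≤ 1 := pow_le_one₀ hx0 hx1.le
        have h4 : x ^ l ≤ 1 := pow_le_one₀ hx0 hx1.le
        have h6 : (1 + g l) * a l ≤ (1 + g l) * (τ / Y * (x ^ (J - l) + x ^ l)) :=
          mul_le_mul_of_nonneg_left (hax l hl') (by linarith [hg0 l])
        have h7 : (1 + g l) * (x ^ (J - l) + x ^ l) ≤ (x ^ (J - l) + x ^ l) + 2 * g l := by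
          nlinarith [hg0 l]
        calc _ ≤ _ := h6
          _ = τ / Y * ((1 + g l) * (x ^ (J - l) + x ^ l)) := by ring
          _ ≤ _ := mul_le_mul_of_nonneg_left h7 h5
      refine (Finset.sum_le_sum h2).trans ?_
      rw [← Finset.mul_sum, Finset.sum_add_distrib, ← Finset.mul_sum]
      have h8 : ∑ l ∈ Finset.Icc i J, (x ^ (J - l) + x ^ l) ≤ 2 * (1 - x)⁻¹ := by
        refine le_trans (Finset.sum_le_sum_of_subset_of_nonneg ?_ fun l _ _ => by positivity)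
          (SEQ.geo_two hx0 hx1 J)
        intro l hl
        simpa [Nat.lt_succ_iff] using (Finset.mem_Icc.1 hl).2
      have h9 : ∑ l ∈ Finset.Icc i J, (x ^ (J - l) + x ^ l) + 2 * ∑ l ∈ Finset.Icc i J, g l
          ≤ Y * (1 + g i) := by nlinarith [hg0 i]
      calc _ ≤ τ / Y * (Y * (1 + g i)) := mul_le_mul_of_nonneg_left h9 h5
        _ = τ * (1 + g i) := by field_simp
    · show m 0 ≤ ε' * (1 + g 0)
      rw [hg00]; nlinarith

end MW.CI
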