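import Pool.Agent.P.MP_064970_gt.SC

/-! Case I, row STA: the sheets are Lipschitz graphs. -/

open MeasureTheory Set Filter Topology Metric
open scoped RealInnerProductSpace ENNReal ComplexConjugate Real

noncomputable section

namespace MW.CI

namespace STA

variable {M : Surf} {β η b₀ R b r : ℝ} {ν : Bool → E} {p x : E} {Z : Finset E}

theorem norm_le_pr (x : E) : ‖x‖ ≤ ‖pr x‖ + |x 2| := by
  refine (abs_le_of_sq_le_sq' ?_ (by positivity)).2
  rw [norm_sq_eq, add_sq, sq_abs]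
  have : 0 ≤ 2 * ‖pr x‖ * |x 2| := by positivity
  linarith

/-- The centre at the height of a point that is far from all centres. -/
theorem near (hν : IsRef β ν) (hb : b₀ ≤ b) (hN : Net M ν η b₀ R b p r Z) (hx : x ∈ ball p r)
    (hf : ∀ c ∈ Z, 100 / β * b < ‖x - c‖) :
    ∃ c, Ctr M ν η c b₀ R ∧ b₀ ≤ ‖x - c‖ ∧ ‖x - c‖ ≤ 3 * r ∧ ‖x - c‖ / 2 ≤ ‖pr (x - c)‖ := by
  have h0 := (hN.ctr p hN.self).1.pos
  have h1 : ‖x - p‖ < r := mem_ball_iff_norm.1 hx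
  obtain ⟨c, hc, h2⟩ := hN.dense (x 2) ((abs_two_le (x - p)).trans h1.le)
  have h3 := hf c hc
  have h4 : 100 * b ≤ 100 / β * b := by
    refine mul_le_mul_of_nonneg_right ?_ (by linarith)
    rw [le_div_iff₀ hν.pos]
    linarith [hν.le_one]
  have h5 : ‖x - c‖ ≤ ‖x - p‖ + ‖c - p‖ := by
    simpa using norm_sub_le (x - p) (c - p)
  have h6 : ‖x - c‖ ≤ ‖pr (x - c)‖ + |x 2 - c 2| := norm_le_pr (x - c)
  exact ⟨c, (hN.ctr c hc).1, by linarith, by linarith [(hN.ctr c hc).2], by linarith⟩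

theorem small (hν : IsRef β ν) (hη : η ≤ β ^ 2 / 1000) : η ≤ β / 1000 := by
  have h1 := hν.pos
  have h2 := hν.le_one
  nlinarith

/-- The slope between two points of the same type. -/
theorem slope (hM : M.Mem) (hν : IsRef β ν) (hη0 : 0 < η) (hη : η ≤ β / 1000) (hR : 5 * r ≤ R)
    {c y : E} {i : Bool} (hc : Ctr M ν η c b₀ R) (s1 : b₀ ≤ ‖x - c‖) (s2 : ‖x - c‖ ≤ 3 * r)
    (s3 : ‖x - c‖ / 2 ≤ ‖pr (x - c)‖) (hx : x ∈ M.S) (hy : y ∈ M.S) (tx : x ∈ typ M β ν i)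
    (ty : y ∈ typ M β ν i) (hxy : ‖x - y‖ ≤ 2 * r) :
    |⟪x - y, ν i⟫| ≤ 20 * η / β * ‖x - y‖ := by
  have hβ := hν.pos
  have hβ1 := hν.le_one
  have hs : 0 < ‖x - c‖ := hc.pos.trans_le s1
  have hD := norm_nonneg (x - y)
  have hβs : 0 < β * ‖x - c‖ := by positivity
  have hβs1 : β * ‖x - c‖ ≤ ‖x - c‖ := mul_le_of_le_one_left hs.le hβ1
  have hηs : η * ‖x - c‖ ≤ β / 1000 * ‖x - c‖ := by gcongr
  have hpr : β / 2 * (‖x - c‖ / 2) ≤ β / 2 * ‖pr (x - c)‖ := by gcongr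
  rw [div_mul_eq_mul_div, le_div_iff₀ hβ]
  by_cases hd : ‖x - y‖ ≤ β * ‖x - c‖ / 8
  · have hP := hc.pic ‖x - c‖ s1 (by linarith)
    have h1 := hP.le_of_typ hν (by linarith) ⟨hx, mem_ball_iff_norm.2 (by linarith)⟩ tx
      (by linarith)
    have h2 := hP.ball_nrm (x := x) (i := i) (ρ := β * ‖x - c‖ / 8) hν (by positivity)
      (by positivity) (closedBall_subset_ball' (by rw [dist_eq_norm]; linarith)) (by linarith)
    have hxK : x ∈ M.S ∩ closedBall x (β * ‖x - c‖ / 8) := ⟨hx, mem_closedBall_self (by positivity)⟩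
    have hyK : y ∈ M.S ∩ closedBall x (β * ‖x - c‖ / 8) :=
      ⟨hy, by rw [mem_closedBall, dist_comm, dist_eq_norm]; exact hd⟩
    have h3 : |⟪x - y, ν i⟫| ≤ η * ‖x - y‖ := by
      rcases h2 with h2 | h2
      · exact M.slope (convex_closedBall _ _) (by rw [hM.univ]; exact subset_univ _) h2 hxK hyK
      · have h4 := M.slope (convex_closedBall _ _) (by rw [hM.univ]; exact subset_univ _) h2 hxK hyK
        rwa [inner_neg_right, abs_neg] at h4
    have h5 : |⟪x - y, ν i⟫| * β ≤ |⟪x - y, ν i⟫| := mul_le_of_le_one_right (abs_nonneg _) hβ1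
    have h6 : 0 ≤ η * ‖x - y‖ := by positivity
    linarith
  · push Not at hd
    have hP := hc.pic (‖x - c‖ + ‖x - y‖) (by linarith) (by linarith)
    have h0 : ‖y - c‖ ≤ ‖x - c‖ + ‖x - y‖ := by
      simpa using norm_sub_le (x - c) (x - y)
    have h1 := hP.typ_le hν (by linarith) ⟨hx, mem_ball_iff_norm.2 (by linarith)⟩ tx
    have h2 := hP.typ_le hν (by linarith) ⟨hy, mem_ball_iff_norm.2 (by linarith)⟩ ty
    have h3 : ⟪x - y, ν i⟫ = ⟪x - c, ν i⟫ - ⟪y - c, ν i⟫ := by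
      rw [← inner_sub_left, sub_sub_sub_cancel_right]
    have h4 := abs_sub ⟪x - c, ν i⟫ ⟪y - c, ν i⟫
    have h5 : β * ‖x - y‖ ≤ ‖x - y‖ := mul_le_of_le_one_left hD hβ1
    calc |⟪x - y, ν i⟫| * β ≤ 2 * (η * (‖x - c‖ + ‖x - y‖)) * β := by
          gcongr
          rw [h3]
          linarith
      _ = 2 * η * (β * ‖x - c‖ + β * ‖x - y‖) := by ring
      _ ≤ 2 * η * (10 * ‖x - y‖) := by gcongr; linarith
      _ = _ := by ring

end STA

open STA in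
theorem c_sta_of : C_STA := by
  intro M β η b₀ R b r ν p Z hM hν hη0 hη2 hb hr hR hN G hG
  subst hG
  have hβ := hν.pos
  have hβ1 := hν.le_one
  have hη := small hν hη2
  have hp := (hN.ctr p hN.self).1
  have h0 := hp.pos
  have hr0 : 0 < r := by
    by_contra hn
    push Not at hn
    nlinarith
  have hbr : b₀ ≤ r := by nlinarith
  have key : ∀ {x c : E}, 0 < ‖x - c‖ → ‖x - c‖ / 2 ≤ ‖pr (x - c)‖ →
      η * ‖x - c‖ < β / 2 * ‖pr (x - c)‖ := fun {x c} hs h => by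
    have a1 : η * ‖x - c‖ ≤ β / 1000 * ‖x - c‖ := by gcongr
    have a2 : β / 2 * (‖x - c‖ / 2) ≤ β / 2 * ‖pr (x - c)‖ := by gcongr
    have a3 : 0 < β * ‖x - c‖ := by positivity
    linarith
  refine ⟨fun i => ?_, fun i x hx => ?_, fun i x hx y hy => ?_, fun i x hx => ?_,
    fun x hx h1 h2 => ?_⟩
  · obtain ⟨U, hU, hT⟩ := typ_open M β ν i
    refine ⟨U ∩ ball p r ∩ ⋂ c ∈ Z, {x | 100 / β * b < ‖x - c‖},
      (hU.inter isOpen_ball).inter (isOpen_biInter_finset fun c _ =>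
        isOpen_lt continuous_const (by fun_prop)), ?_⟩
    ext x
    have h1 : x ∈ M.S ∩ typ M β ν i ↔ x ∈ M.S ∩ U := by rw [hT]
    simp only [sheet, mem_inter_iff, mem_iInter, Set.mem_ofPred_eq] at h1 ⊢
    tauto
  · obtain ⟨c, hc, s1, s2, s3⟩ := near hν hb hN hx.2.1 hx.2.2.2
    have hs : 0 < ‖x - c‖ := h0.trans_le s1
    have hP := hc.pic ‖x - c‖ s1 (by linarith)
    have hm : x ∈ M.S ∩ ball c (4 * ‖x - c‖) := ⟨hx.1, mem_ball_iff_norm.2 (by linarith)⟩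
    have h1 := hP.le_of_typ hν (by linarith) hm hx.2.2.1 (key hs s3)
    exact (hP.wedge_le hν hm ((key hs s3).trans_le h1)).2
  · obtain ⟨c, hc, s1, s2, s3⟩ := near hν hb hN hx.2.1 hx.2.2.2
    refine slope hM hν hη0 hη hR hc s1 s2 s3 hx.1 hy.1 hx.2.2.1 hy.2.2.1 ?_
    have a1 : ‖x - p‖ < r := mem_ball_iff_norm.1 hx.2.1
    have a2 : ‖y - p‖ < r := mem_ball_iff_norm.1 hy.2.1
    have a3 : ‖x - y‖ ≤ ‖x - p‖ + ‖y - p‖ := by
      simpa using norm_sub_le (x - p) (y - p)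
    linarith
  · exact (hp.pic r hbr (by linarith)).typ_le hν (by linarith)
      ⟨hx.1, ball_subset_ball (by linarith) hx.2.1⟩ hx.2.2.1
  · by_contra hn
    push Not at hn
    obtain ⟨c, hc, s1, s2, s3⟩ := near hν hb hN hx.2 hn
    have hs : 0 < ‖x - c‖ := h0.trans_le s1
    obtain ⟨i, hi, -⟩ := (hc.pic ‖x - c‖ s1 (by linarith)).exists_typ hν (by linarith)
      ⟨hx.1, mem_ball_iff_norm.2 (by linarith)⟩ (key hs s3)
    cases i
    · exact h1 ⟨hx.1, hx.2, hi, hn⟩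
    · exact h2 ⟨hx.1, hx.2, hi, hn⟩

end MW.CI
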