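import Pool.Agent.P.MP_064970_gt.SC

/-! Case I, row START. Sketch:
P.f i x = <x - c, nu' i>. For x in S cap ball c s cap typ i: |P.f i x| <= d s (else cross_bool
gives wedge (N x) (nu' (!i)) <= d, so wedge (N x) (nu (!i)) <= beta/2, not_typ). So aex <= 2 d s 2
pi s^2 (Bd.real_ball). Tilt: either d s < |<x-c,nu'(!i)>| and wedge <= d, or both are <= d s and
dax c e x <= 8 d s/beta (exists_axis, IsRef.ang_near, dax_le with beta/2), a tube of mass <= 800 d
s^2/beta (Bd.tube); wedge <= 1 there. -/

open MeasureTheory Set Filter Topology Metric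
open scoped RealInnerProductSpace ENNReal ComplexConjugate Real

noncomputable section

namespace MW.CI

namespace START

variable {M : Surf} {β d s : ℝ} {ν ν' : Bool → E} {c x : E}

theorem int_le {A B : Set E} (hAB : A ⊆ B) (hB : M.μ B < ∞) {g : E → ℝ} {C m : ℝ} (hC : 0 ≤ C)
    (hg : ∀ x ∈ A, x ∈ M.S → |g x| ≤ C) (hm : M.μ.real B ≤ m) : ∫ x in A, g x ∂M.μ ≤ C * m := by
  have h := norm_setIntegral_le_of_norm_le_const_ae' (f := g) (C := C)
    ((measure_mono hAB).trans_lt hB) (M.ae_mem.mono fun x hx hA => hg x hA hx)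
  exact (le_abs_self _).trans (h.trans
    (mul_le_mul_of_nonneg_left ((measureReal_mono hAB hB.ne).trans hm) hC))

theorem far (h : M.Cross c s d (ν' false) (ν' true)) (hd : 0 < d) (hd1 : d ≤ 1) (hs : 0 < s)
    (hx : x ∈ M.S) (hb : x ∈ ball c s) (i : Bool) (h1 : d * s < |⟪x - c, ν' (!i)⟫|) :
    wedge (M.N x) (ν' i) ≤ d := by
  obtain ⟨hu, hp, hn, -, -⟩ := cross_bool h i
  have hx' : x ∈ M.S ∩ ball c (s / d) := ⟨hx, ball_subset_ball (le_div_self hs.le hd hd1) hb⟩
  rcases lt_abs.1 h1 with h2 | h2
  · exact (wedge_le_norm_sub hu).trans (hp x hx' h2).2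
  · exact (wedge_le_norm_add _ hu).trans (hn x hx' (by linarith)).2

theorem height (hν : IsRef β ν) (h : M.Cross c s d (ν' false) (ν' true)) (hd : 0 < d)
    (hd1 : d ≤ β / 100) (hs : 0 < s) (hc : ∀ i, ‖ν' i - ν i‖ ≤ β / 100) (hx : x ∈ M.S)
    (hb : x ∈ ball c s) {i : Bool} (ht : x ∈ typ M β ν i) : |⟪x - c, ν' i⟫| ≤ d * s := by
  by_contra h1
  have h0 := hν.pos
  have h2 := far h hd (by linarith [hν.le_one]) hs hx hb (!i)
    (by rw [Bool.not_not]; exact not_le.1 h1)
  have h3 := wedge_le_add (M.N x) (M.N_unit x hx) (hν.unit (!i)) (cross_bool h (!i)).1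
  rw [norm_sub_rev] at h3
  exact not_typ hν hx (by linarith [hc (!i)]) ht

end START

theorem c_start_of : C_START := by
  intro β hβ
  refine ⟨4 * π + 1600 / β, by positivity, fun M ν ν' d s c hM hν hd hd1 hs hc h => ?_⟩
  have hd2 : d ≤ 1 := by linarith [hν.le_one]
  have hu : ∀ i, ‖ν' i‖ = 1 := fun i => (cross_bool h i).1
  have hfin : M.μ (ball c s) < ∞ := hM.bd.lt_top isBounded_ball
  have hball := hM.bd.real_ball c hs
  have hq : 0 ≤ 1600 / β := by positivity
  constructor
  · have key : ∀ i, ∫ x in ball c s ∩ typ M β ν i,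
        |Pl.f ⟨ν', fun i => ⟪c, ν' i⟫⟩ i x| ∂M.μ ≤ d * s * (2 * π * s ^ 2) := fun i =>
      START.int_le inter_subset_left hfin (by positivity) (fun x hx hS => by
        rw [abs_abs, Pl.f, ← inner_sub_left]
        exact START.height hν h hd hd1 hs hc hS hx.1 hx.2) hball
    rw [aex, Fintype.sum_bool]
    have : 0 ≤ 1600 / β * d * s * s ^ 2 := by positivity
    nlinarith [key true, key false]
  · obtain ⟨e, he, he0, he1⟩ := exists_axis (ν' false) (ν' true)
    have hang := hν.ang_near hu fun i => (hc i).trans (by linarith)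
    set T : Set E := {x | x ∈ ball c s ∧ ‖x - c - ⟪x - c, e⟫ • e‖ ≤ 8 * d * s / β} with hT
    have hTm : MeasurableSet T :=
      measurableSet_ball.inter (isClosed_le (f := fun x : E => ‖x - c - ⟪x - c, e⟫ • e‖)
        (by fun_prop) continuous_const).measurableSet
    have hT1 := hM.bd.tube c e he (R := s) (δ := 8 * d * s / β) (by positivity) (by
      rw [div_le_iff₀ hβ]
      nlinarith)
    have hT2 : M.μ.real T ≤ 100 * (8 * d * s / β) * s :=
      ENNReal.toReal_le_of_le_ofReal (by positivity) hT1
    have key : ∀ i, ∫ x in ball c s ∩ typ M β ν i, wedge (M.N x) (ν' i) ^ 2 ∂M.μ ≤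
        1 * (100 * (8 * d * s / β) * s) + d * (2 * π * s ^ 2) := fun i => by
      rw [← integral_inter_add_sdiff hTm (integrableOn_wedge hM (ν' i)
        (isBounded_ball.subset inter_subset_left)
        (measurableSet_ball.inter (measurableSet_typ M β ν i)))]
      refine add_le_add (START.int_le inter_subset_right (hT1.trans_lt ENNReal.ofReal_lt_top)
        zero_le_one (fun x _ hS => ?_) hT2) (START.int_le (fun x hx => hx.1.1) hfin hd.le
          (fun x hx hS => ?_) hball)
      · rw [abs_of_nonneg (sq_nonneg _)]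
        exact pow_le_one₀ (wedge_nonneg _ _) (wedge_le_one (M.N_unit x hS) (hu i))
      · have h1 := START.height hν h hd hd1 hs hc hS hx.1.1 hx.1.2
        have h2 : d * s < |⟪x - c, ν' (!i)⟫| := by
          by_contra h2
          refine hx.2 ⟨hx.1.1, ?_⟩
          have h3 := dax_le (half_pos hβ) (hu false) (hu true) he he0 he1 hang c x
          have h4 : |⟪x - c, ν' false⟫| + |⟪x - c, ν' true⟫| ≤ 2 * (d * s) := by
            have h5 := not_lt.1 h2
            cases i
            · simp only [Bool.not_false] at h5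
              linarith
            · simp only [Bool.not_true] at h5
              linarith
          refine h3.trans ((mul_le_mul_of_nonneg_left h4 (by positivity)).trans_eq ?_)
          field_simp
          ring
        have h3 := START.far h hd hd2 hs hS hx.1.1 i h2
        have h4 := wedge_nonneg (M.N x) (ν' i)
        rw [abs_of_nonneg (sq_nonneg _)]
        nlinarith
    rw [tex, Fintype.sum_bool]
    refine (add_le_add (key true) (key false)).trans_eq ?_
    ring

end MW.CI
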