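import Pool.Agent.P.MP_064970_gt.SC

/-! Case I, row STB. Sketch:
Suppose all |y - prA A c| > L. n = A e3, sigma = 20 eta/beta <= beta/50. c0 in Z minimises s = |y
- prA A c| (s < r/2 since p in Z). z = A (pt y <c0,n>), |z - c0| = s, |<c0 - p,n>| <= 0.05 r
(Ctr.cc), so |z - p| <= 0.55 r. c1 in Z with |z 2 - c1 2| <= b; s <= |z - c1| <= |pr(z - c0)| +
|pr(c0 - c1)| + b and Ctr.cc give |pr(z - c0)| >= 0.9 s. |<z-c0,nu i>| <= sigma s, so
IsRef.exists_le gives |<z-c0,nu(!i)>| >= 0.45 beta s. z +- 4 sigma s n are on opposite sides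
(Pic.pat' at (c0,s)), exists_cross gives x in S with prA A x = y, Pic.wedge_le gives the type i,
|x - p| < r, |x - c| >= |y - prA A c| > L. -/

open MeasureTheory Set Filter Topology Metric
open scoped RealInnerProductSpace ENNReal ComplexConjugate Real

noncomputable section

namespace MW.CI

namespace STB

theorem seg {z n x : E} {t₁ t₂ τ : ℝ} (h1 : |t₁| ≤ τ) (h2 : |t₂| ≤ τ)
    (hx : x ∈ segment ℝ (z + t₁ • n) (z + t₂ • n)) : ∃ t, |t| ≤ τ ∧ x = z + t • n := by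
  obtain ⟨a, b, ha, hb, hab, rfl⟩ := hx
  refine ⟨a * t₁ + b * t₂, ?_, ?_⟩
  · rw [abs_le] at h1 h2 ⊢
    have e : τ = a * τ + b * τ := by rw [← add_mul, hab, one_mul]
    constructor
    · nlinarith [mul_le_mul_of_nonneg_left h1.1 ha, mul_le_mul_of_nonneg_left h2.1 hb]
    · nlinarith [mul_le_mul_of_nonneg_left h1.2 ha, mul_le_mul_of_nonneg_left h2.2 hb]
  · have e : z = a • z + b • z := by rw [← add_smul, hab, one_smul]
    rw [smul_add, smul_add, smul_smul, smul_smul, add_smul]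
    nth_rewrite 3 [e]
    abel

theorem two_eq (A : E ≃ₗᵢ[ℝ] E) (x : E) : (A.symm x) 2 = ⟪x, A e3⟫ := by
  rw [← inner_e3, ← A.inner_map_map (A.symm x) e3, A.apply_symm_apply]

theorem norm_le_prA (A : E ≃ₗᵢ[ℝ] E) (x y : E) :
    ‖x - y‖ ≤ ‖prA A x - prA A y‖ + |⟪x - y, A e3⟫| := by
  have h := norm_le_pr_add (A.symm (x - y))
  rw [A.symm.norm_map, two_eq, map_sub, pr_sub] at h
  exact h

theorem inner_close (x : E) {a b : E} {σ : ℝ} (h : ‖a - b‖ ≤ σ) :
    |⟪x, a⟫ - ⟪x, b⟫| ≤ ‖x‖ * σ := by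
  rw [← inner_sub_right]
  exact (abs_real_inner_le_norm _ _).trans (mul_le_mul_of_nonneg_left h (norm_nonneg _))

theorem prA_line (A : E ≃ₗᵢ[ℝ] E) (y : ℂ) (s t : ℝ) : prA A (A (pt y s) + t • A e3) = y := by
  rw [← map_smul, ← map_add, pt_add_smul_e3, prA_apply_pt]

theorem inner_lift (A : E ≃ₗᵢ[ℝ] E) (y : ℂ) (t : ℝ) : ⟪A (pt y t), A e3⟫ = t := by
  rw [A.inner_map_map, inner_e3, pt_two]

/-- A short segment in the direction `n` through `z` meets the sheet of type `i`. -/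
theorem cross {M : Surf} {β η σ s : ℝ} {ν : Bool → E} {c z n : E} {i : Bool} (hM : M.Mem)
    (hν : IsRef β ν) (hP : Pic M ν η c s) (hη : 0 < η) (hησ : η ≤ σ) (hσ : σ ≤ β / 50)
    (hs : 0 < s) (hn : ‖n‖ = 1) (hni : ‖n - ν i‖ ≤ σ) (hz : ‖z - c‖ ≤ s)
    (h1 : |⟪z - c, ν i⟫| ≤ σ * s) (h2 : 2 / 5 * β * s ≤ |⟪z - c, ν (!i)⟫|) :
    ∃ t, |t| ≤ 4 * (σ * s) ∧ z + t • n ∈ M.S ∧ wedge (M.N (z + t • n)) (ν i) ≤ η := by
  have hβ := hν.pos
  have hβ1 := hν.le_one
  have hσ0 : 0 < σ := hη.trans_le hησ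
  have hm : 0 < σ * s := mul_pos hσ0 hs
  have hm1 : η * s ≤ σ * s := mul_le_mul_of_nonneg_right hησ hs.le
  have hm2 : σ * s ≤ β / 50 * s := mul_le_mul_of_nonneg_right hσ hs.le
  have hm3 : β * s ≤ s := mul_le_of_le_one_left hs.le hβ1
  have hin : ∀ (t : ℝ) (j : Bool), ⟪z + t • n - c, ν j⟫ = ⟪z - c, ν j⟫ + t * ⟪n, ν j⟫ := by
    intro t j
    rw [add_sub_right_comm, inner_add_left, real_inner_smul_left]
  have hball : ∀ t : ℝ, |t| ≤ 4 * (σ * s) → z + t • n ∈ ball c (4 * s) := by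
    intro t ht
    rw [mem_ball, dist_eq_norm, add_sub_right_comm]
    have := norm_add_le (z - c) (t • n)
    rw [norm_smul, hn, mul_one, Real.norm_eq_abs] at this
    linarith
  have hsm : ∀ t : ℝ, |t| ≤ 4 * (σ * s) → |t * ⟪n, ν (!i)⟫| ≤ 4 * (σ * s) := by
    intro t ht
    have h3 : |⟪n, ν (!i)⟫| ≤ 1 := by
      have := abs_real_inner_le_norm n (ν (!i))
      rwa [hn, hν.unit, mul_one] at this
    rw [abs_mul]
    exact (mul_le_of_le_one_right (abs_nonneg _) h3).trans ht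
  have hnn : 49 / 50 ≤ ⟪n, ν i⟫ := by
    have h3 := inner_close (ν i) hni
    rw [hν.unit, one_mul, real_inner_self_eq_norm_sq, hν.unit, real_inner_comm, abs_le] at h3
    linarith [h3.1]
  have hq : 49 / 50 * (4 * (σ * s)) ≤ 4 * (σ * s) * ⟪n, ν i⟫ := by nlinarith
  have ta : |4 * (σ * s)| ≤ 4 * (σ * s) := (abs_of_pos (by linarith)).le
  have tb : |-(4 * (σ * s))| ≤ 4 * (σ * s) := by rw [abs_neg]; exact ta
  have hp : η * s < ⟪z + (4 * (σ * s)) • n - c, ν i⟫ := by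
    rw [hin]
    linarith [(abs_le.1 h1).1]
  have hq' : ⟪z + (-(4 * (σ * s))) • n - c, ν i⟫ < -(η * s) := by
    rw [hin]
    linarith [(abs_le.1 h1).2]
  have h0 : 0 < η * s := mul_pos hη hs
  have hO : ∀ K : Set E, K ⊆ M.O := fun K => by
    rw [hM.univ]
    exact subset_univ K
  have fin : ∀ t : ℝ, |t| ≤ 4 * (σ * s) → η * s < |⟪z + t • n - c, ν (!i)⟫| := by
    intro t ht
    have h3 := abs_le.1 (hsm t ht)
    rw [hin]
    rcases le_abs.1 h2 with h | h
    · exact lt_of_lt_of_le (by linarith [h3.1]) (le_abs_self _)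
    · exact lt_of_lt_of_le (by linarith [h3.2]) (neg_le_abs _)
  have pa := hP.pat' i (hball _ ta) (hp.trans_le (le_abs_self _)) (fin _ ta)
  have pb := hP.pat' i (hball _ tb) (lt_of_lt_of_le (by linarith) (neg_le_abs _)) (fin _ tb)
  have key : ∃ t, |t| ≤ 4 * (σ * s) ∧ z + t • n ∈ M.S := by
    have h3 := abs_le.1 (hsm _ ta)
    have h4 := abs_le.1 (hsm _ tb)
    rcases le_abs.1 h2 with h | h
    · have ua : 0 < ⟪z + (4 * (σ * s)) • n - c, ν (!i)⟫ := by
        rw [hin]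
        linarith [h3.1]
      have ub : 0 < ⟪z + (-(4 * (σ * s))) • n - c, ν (!i)⟫ := by
        rw [hin]
        linarith [h4.1]
      obtain ⟨x, hx, hxS⟩ := M.exists_cross (hO _)
        (pb.1 (mul_neg_of_neg_of_pos (by linarith) ub)) (pa.2 (mul_pos (by linarith) ua))
      obtain ⟨t, ht, rfl⟩ := seg tb ta hx
      exact ⟨t, ht, hxS⟩
    · have ua : ⟪z + (4 * (σ * s)) • n - c, ν (!i)⟫ < 0 := by
        rw [hin]
        linarith [h3.2]
      have ub : ⟪z + (-(4 * (σ * s))) • n - c, ν (!i)⟫ < 0 := by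
        rw [hin]
        linarith [h4.2]
      obtain ⟨x, hx, hxS⟩ := M.exists_cross (hO _)
        (pa.1 (mul_neg_of_pos_of_neg (by linarith) ua))
        (pb.2 (mul_pos_of_neg_of_neg (by linarith) ub))
      obtain ⟨t, ht, rfl⟩ := seg ta tb hx
      exact ⟨t, ht, hxS⟩
  obtain ⟨t, ht, hS⟩ := key
  exact ⟨t, ht, hS, (hP.wedge_le hν ⟨hS, hball t ht⟩ (fin t ht)).2⟩

end STB

open STB in
theorem c_stb_of (hMONO : S_MONO) : C_STB := by
  intro M β η b₀ R b r ν p Z hM hν hη hηβ hb hbr hR hN i A hA y hy hny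
  by_contra hcon
  have hfar : ∀ c ∈ Z, 100 / β * b < ‖y - prA A c‖ := fun c hc =>
    not_le.1 fun h => hcon ⟨c, hc, h⟩
  have hβ := hν.pos
  have hβ1 := hν.le_one
  have hp := (hN.ctr p hN.self).1
  have hb0 : 0 < b₀ := hp.pos
  have hbp : 0 < b := hb0.trans_le hb
  have hr : 0 < r := by
    by_contra h
    have : β * r ≤ 0 := mul_nonpos_of_nonneg_of_nonpos hβ.le (not_lt.1 h)
    linarith
  have hbr' : 1000 * b ≤ r := hbr.trans (mul_le_of_le_one_left hr.le hβ1)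
  have hη1 : η ≤ β / 1000 := by nlinarith
  have hη4 : η ≤ β / 4 := by linarith
  set σ := 20 * η / β with hσ
  have hσβ : σ * β = 20 * η := by rw [hσ]; field_simp
  have hσ0 : 0 < σ := by positivity
  have hσ1 : σ ≤ β / 50 := by
    rw [hσ, div_le_iff₀ hβ]
    nlinarith
  have hησ : η ≤ σ := by nlinarith
  have hn : ‖A e3‖ = 1 := by rw [A.norm_map, norm_e3]
  obtain ⟨c₀, hc₀, hmin⟩ := Z.exists_min_image (fun c => ‖y - prA A c‖) ⟨p, hN.self⟩
  set s := ‖y - prA A c₀‖ with hs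
  have hyp : ‖y - prA A p‖ < r / 2 := by rwa [mem_ball, dist_eq_norm] at hy
  have hsr : s < r / 2 := (hmin p hN.self).trans_lt hyp
  set q := 1 / β * b with hq
  have hqβ : β * q = b := by rw [hq]; field_simp
  have hbq : b ≤ q := by
    have : 0 < q := by positivity
    nlinarith
  have hqs : 100 * q < s := by
    have := hfar c₀ hc₀
    rw [hq]
    calc 100 * (1 / β * b) = 100 / β * b := by ring
      _ < s := this
  have hs0 : 0 < s := by linarith
  obtain ⟨hC₀, hd₀⟩ := hN.ctr c₀ hc₀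
  set z := A (pt y ⟪c₀, A e3⟫) with hz
  have hzy : prA A z = y := prA_apply_pt A y _
  have hzn : ⟪z - c₀, A e3⟫ = 0 := by rw [inner_sub_left, hz, inner_lift, sub_self]
  have hzc : ‖z - c₀‖ ≤ s := by
    have := norm_le_prA A z c₀
    rwa [hzn, abs_zero, add_zero, hzy] at this
  have hzp : ‖z - p‖ ≤ 11 / 20 * r := by
    have h1 := norm_le_prA A z p
    have h2 : ⟪z - p, A e3⟫ = ⟪c₀ - p, A e3⟫ := by
      rw [inner_sub_left, inner_sub_left, hz, inner_lift]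
    have h3 := (hp.cc hMONO hM hν hη.le hη4 hC₀.dens (by linarith) (by linarith)).1 i
    have h4 := inner_close (c₀ - p) hA
    have h5 : ‖c₀ - p‖ * σ ≤ 2 * r * (1 / 50) :=
      mul_le_mul hd₀ (by linarith) hσ0.le (by linarith)
    have h6 : η * ‖c₀ - p‖ ≤ 1 / 1000 * (2 * r) :=
      mul_le_mul (by linarith) hd₀ (norm_nonneg _) (by norm_num)
    have h7 := abs_sub_abs_le_abs_sub ⟪c₀ - p, A e3⟫ ⟪c₀ - p, ν i⟫
    rw [h2, hzy] at h1
    linarith
  obtain ⟨c₁, hc₁, hh⟩ := hN.dense (z 2) (by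
    have h1 := abs_two_le (z - p)
    rw [PiLp.sub_apply] at h1
    linarith)
  obtain ⟨hC₁, hd₁⟩ := hN.ctr c₁ hc₁
  have hpr : 9 / 10 * s ≤ ‖pr (z - c₀)‖ := by
    have h1 : s ≤ ‖z - c₁‖ := by
      have := norm_prA_sub_le A z c₁
      rw [hzy] at this
      exact (hmin c₁ hc₁).trans this
    have h2 := norm_le_pr_add (z - c₁)
    rw [PiLp.sub_apply] at h2
    have h3 : ‖pr (z - c₁)‖ ≤ ‖pr (z - c₀)‖ + ‖pr (c₀ - c₁)‖ := by
      have e : pr (z - c₁) = pr (z - c₀) + pr (c₀ - c₁) := by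
        rw [← pr_add, sub_add_sub_cancel]
      rw [e]
      exact norm_add_le _ _
    have h4 : ‖c₀ - c₁‖ ≤ 3 * R := by
      have := norm_sub_le_norm_sub_add_norm_sub c₀ p c₁
      rw [norm_sub_rev p c₁] at this
      linarith
    have h5 := (hC₁.cc hMONO hM hν hη.le hη4 hC₀.dens (by linarith) h4).2.2
    have h6 : |c₀ 2 - c₁ 2| ≤ s + b := by
      have a1 := abs_two_le (z - c₀)
      rw [PiLp.sub_apply] at a1
      have a2 := abs_sub_le (c₀ 2) (z 2) (c₁ 2)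
      rw [abs_sub_comm (c₀ 2) (z 2)] at a2
      linarith
    have h7 : 4 * η / β * |c₀ 2 - c₁ 2| ≤ 1 / 250 * (s + b) := by
      refine mul_le_mul ?_ h6 (abs_nonneg _) (by norm_num)
      rw [div_le_iff₀ hβ]
      linarith
    have h8 : 4 / β * b₀ ≤ 4 * q := by
      rw [hq]
      calc 4 / β * b₀ ≤ 4 / β * b := mul_le_mul_of_nonneg_left hb (by positivity)
        _ = 4 * (1 / β * b) := by ring
    linarith
  have h1 : |⟪z - c₀, ν i⟫| ≤ σ * s := by
    have h2 := inner_close (z - c₀) hA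
    rw [hzn, zero_sub, abs_neg] at h2
    have h3 := mul_le_mul_of_nonneg_right hzc hσ0.le
    linarith
  have hβs : 0 < β * s := mul_pos hβ hs0
  have hσs : σ * s ≤ β / 50 * s := mul_le_mul_of_nonneg_right hσ1 hs0.le
  have h2 : 2 / 5 * β * s ≤ |⟪z - c₀, ν (!i)⟫| := by
    obtain ⟨j, hj⟩ := hν.exists_le (z - c₀)
    have h3 : β / 2 * (9 / 10 * s) ≤ β / 2 * ‖pr (z - c₀)‖ :=
      mul_le_mul_of_nonneg_left hpr (by linarith)
    by_cases hji : j = i
    · rw [hji] at hj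
      exfalso
      linarith
    · have : j = !i := by
        cases i <;> cases j <;> simp_all
      rw [this] at hj
      linarith
  obtain ⟨t, ht, hS, hw⟩ := cross hM hν (hC₀.pic s (by linarith) (by linarith)) hη hησ hσ1 hs0 hn
    hA hzc h1 h2
  have hxy : prA A (z + t • A e3) = y := prA_line A y _ t
  refine hny ⟨z + t • A e3, ⟨hS, ?_, ?_, ?_⟩, hxy⟩
  · rw [mem_ball, dist_eq_norm, add_sub_right_comm]
    have h3 := norm_add_le (z - p) (t • A e3)
    rw [norm_smul, hn, mul_one, Real.norm_eq_abs] at h3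
    have h4 : β * s ≤ s := mul_le_of_le_one_left hs0.le hβ1
    linarith
  · exact hw.trans_lt (by linarith)
  · intro c hc
    have h3 := norm_prA_sub_le A (z + t • A e3) c
    rw [hxy] at h3
    exact (hfar c hc).trans_le h3

end MW.CI
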