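import Pool.Agent.P.MP_064970_gt.SC

/-! Case I, row STRUCT. Sketch:
Net: J = floor(r/b), choose centres c_j at heights p 2 + j b, |j| <= J (Core.all), Z = insert p
(image). |c_j - p| <= 2r by Ctr.cc (third clause and norm_le_pr_add), card * b <= (2J+2) b <= 3r.
G = sheet. rest: up to the null set S^c it is inside the union of closedBall c L, mass <= card * 2
pi L^2 (Bd.closedBall), 6 pi 10^4 <= 200000. cover: union of planar closed discs
(Complex.volume_closedBall). eta <= 20 eta/beta. -/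

open MeasureTheory Set Filter Topology Metric
open scoped RealInnerProductSpace ENNReal ComplexConjugate Real

noncomputable section

namespace MW.CI

namespace STRUCT

/-- The finite family of centres. -/
theorem exists_net (hMONO : S_MONO) {M : Surf} {β η b₀ R b r : ℝ} {ν : Bool → E} {p : E}
    (hM : M.Mem) (hν : IsRef β ν) (hη : 0 < η) (hη' : η ≤ β ^ 2 / 1000) (hb : b₀ ≤ b)
    (hbr : 1000 * b ≤ β * r) (h : Core M ν η b₀ R p r) : ∃ Z, Net M ν η b₀ R b p r Z := by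
  classical
  have hβ := hν.pos
  have hβ1 := hν.le_one
  have hb0 := h.self.pos
  have hb1 : 0 < b := by linarith
  have hr : 0 < r := by
    by_contra hr
    nlinarith [mul_nonneg hβ.le (neg_nonneg.2 (not_lt.1 hr))]
  have hbr' : 1000 * b ≤ r := by nlinarith
  have hR := h.le
  choose! c hc using h.all
  have hJ : (⌊r / b⌋ : ℝ) * b ≤ r := (le_div_iff₀ hb1).1 (Int.floor_le _)
  have hJ' : r < (⌊r / b⌋ + 1 : ℝ) * b := (div_lt_iff₀ hb1).1 (Int.lt_floor_add_one _)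
  have hJ0 : 0 ≤ ⌊r / b⌋ := Int.floor_nonneg.2 (by positivity)
  have hj : ∀ j ∈ Finset.Icc (-⌊r / b⌋ - 1) ⌊r / b⌋, |p 2 + j * b - p 2| ≤ r + b := fun j hj => by
    obtain ⟨h1, h2⟩ := Finset.mem_Icc.1 hj
    have h1' : (-⌊r / b⌋ - 1 : ℝ) ≤ j := by exact_mod_cast h1
    have h2' : (j : ℝ) ≤ ⌊r / b⌋ := by exact_mod_cast h2
    rw [add_sub_cancel_left]
    exact abs_le.2 ⟨by nlinarith, by nlinarith⟩
  refine ⟨insert p ((Finset.Icc (-⌊r / b⌋ - 1) ⌊r / b⌋).image fun j : ℤ => c (p 2 + j * b)),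
    Finset.mem_insert_self _ _, fun z hz => ?_, ?_, fun t ht => ?_⟩
  · rcases Finset.mem_insert.1 hz with rfl | hz
    · exact ⟨h.self, by rw [sub_self, norm_zero]; linarith⟩
    · obtain ⟨j, hj', rfl⟩ := Finset.mem_image.1 hz
      have h1 := hj j hj'
      obtain ⟨e, h2, h3⟩ := hc _ (h1.trans (by linarith))
      refine ⟨h3, ?_⟩
      have h4 := (h.self.cc hMONO hM hν hη.le (by nlinarith) h3.dens (by linarith)
        (by linarith)).2.2
      have h5 := norm_le_pr_add (c (p 2 + j * b) - p)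
      rw [PiLp.sub_apply] at h5
      rw [e] at h4 h5
      have h6 : 4 * η / β ≤ 1 / 100 := by
        rw [div_le_iff₀ hβ]
        nlinarith
      have h7 : 4 / β * b₀ ≤ r / 100 := by
        rw [div_mul_eq_mul_div, div_le_iff₀ hβ]
        nlinarith
      have h8 := mul_le_mul h6 h1 (abs_nonneg _) (by norm_num)
      linarith
  · have h1 : (insert p ((Finset.Icc (-⌊r / b⌋ - 1) ⌊r / b⌋).image
        fun j : ℤ => c (p 2 + j * b))).card ≤ (⌊r / b⌋ + 1 - (-⌊r / b⌋ - 1)).toNat + 1 :=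
      (Finset.card_insert_le _ _).trans
        (Nat.succ_le_succ (Finset.card_image_le.trans (Int.card_Icc _ _).le))
    have h2 : (((insert p ((Finset.Icc (-⌊r / b⌋ - 1) ⌊r / b⌋).image
        fun j : ℤ => c (p 2 + j * b))).card : ℕ) : ℤ) ≤ 2 * ⌊r / b⌋ + 3 := by omega
    have h3 : (((insert p ((Finset.Icc (-⌊r / b⌋ - 1) ⌊r / b⌋).image
        fun j : ℤ => c (p 2 + j * b))).card : ℕ) : ℝ) ≤ 2 * ⌊r / b⌋ + 3 := by exact_mod_cast h2
    nlinarith
  · obtain ⟨h1, h2⟩ := abs_le.1 ht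
    have hm : ⌊(t - p 2) / b⌋ ∈ Finset.Icc (-⌊r / b⌋ - 1) ⌊r / b⌋ := by
      refine Finset.mem_Icc.2 ⟨Int.le_floor.2 ?_, Int.floor_mono (by gcongr)⟩
      rw [le_div_iff₀ hb1]
      push_cast
      linarith
    refine ⟨_, Finset.mem_insert_of_mem (Finset.mem_image_of_mem _ hm), ?_⟩
    rw [(hc _ ((hj _ hm).trans (by linarith))).1]
    have h3 := (le_div_iff₀ hb1).1 (Int.floor_le ((t - p 2) / b))
    have h4 := (div_lt_iff₀ hb1).1 (Int.lt_floor_add_one ((t - p 2) / b))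
    exact abs_le.2 ⟨by linarith, by linarith⟩

/-- Measure of a set covered by the balls about the centres. -/
theorem cover_le {α : Type} [MeasurableSpace α] {m : Measure α} {A : Set α} {Z : Finset E}
    {B : E → Set α} {β b r : ℝ} (hβ : 0 < β) (hb : 0 < b) (hZ : (Z.card : ℝ) * b ≤ 3 * r)
    (hA : ∀ x ∈ A, ∃ c ∈ Z, x ∈ B c)
    (hB : ∀ c, m (B c) ≤ ENNReal.ofReal (2 * π * (100 / β * b) ^ 2)) :
    m A ≤ ENNReal.ofReal (200000 / β ^ 2 * b * r) := by
  have h1 : m A ≤ ∑ c ∈ Z, m (B c) :=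
    (measure_mono fun x hx => mem_iUnion₂.2 (by simpa using hA x hx)).trans
      (measure_biUnion_finset_le Z B)
  refine h1.trans ((Finset.sum_le_card_nsmul _ _ _ fun c _ => hB c).trans ?_)
  rw [nsmul_eq_mul, ← ENNReal.ofReal_natCast, ← ENNReal.ofReal_mul (Nat.cast_nonneg _)]
  refine ENNReal.ofReal_le_ofReal ?_
  have h2 : (0 : ℝ) ≤ Z.card * b := by positivity
  have h3 : π * (Z.card * b) ≤ 3.15 * (3 * r) :=
    mul_le_mul Real.pi_lt_d2.le hZ h2 (by norm_num)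
  have h4 : 0 < b / β ^ 2 := by positivity
  calc (Z.card : ℝ) * (2 * π * (100 / β * b) ^ 2) = 20000 * (b / β ^ 2) * (π * (Z.card * b)) := by
        field_simp
        ring
    _ ≤ 20000 * (b / β ^ 2) * (10 * r) := by
        refine mul_le_mul_of_nonneg_left ?_ (by positivity)
        linarith
    _ = _ := by ring

end STRUCT

theorem c_struct_of (hMONO : S_MONO) (hSTA : C_STA) (hSTB : C_STB) : C_STRUCT := by
  intro M β η b₀ R b r ν p hM hν hη hη' hb hbr h
  obtain ⟨Z, hZ⟩ := STRUCT.exists_net hMONO hM hν hη hη' hb hbr h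
  obtain ⟨a1, a2, a3, a4, a5⟩ := hSTA M β η b₀ R b r ν p Z hM hν hη hη' hb hbr h.le hZ _ rfl
  have a6 := hSTB M β η b₀ R b r ν p Z hM hν hη hη' hb hbr h.le hZ
  have hβ := hν.pos
  have hβ1 := hν.le_one
  have hb1 : 0 < b := h.self.pos.trans_le hb
  have hr : 0 < r := by
    by_contra hr
    nlinarith [mul_nonneg hβ.le (neg_nonneg.2 (not_lt.1 hr))]
  have hσ : η ≤ 20 * η / β := by
    rw [le_div_iff₀ hβ]
    nlinarith
  have hL : 0 ≤ 100 / β * b := by positivity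
  refine ⟨sheet M β ν Z (100 / β * b) p r, ⟨a1, fun i x hx => hx.2.1,
    fun i x hx => (a2 i x hx).trans hσ, a3,
    fun i x hx => (a4 i x hx).trans (mul_le_mul_of_nonneg_right hσ hr.le), ?_, fun i A hA => ?_⟩,
    fun i x hx => ?_, fun x hx h1 h2 => ?_, fun i A hA y hy hy' => ?_⟩
  · rw [← M.measure_inter_S]
    refine STRUCT.cover_le (B := fun c => closedBall c (100 / β * b)) hβ hb1 hZ.card
      (fun x hx => ?_) fun c => hM.bd.closedBall c hL
    obtain ⟨c, hc, hc'⟩ := a5 x ⟨hx.2, hx.1.1⟩ (fun h => hx.1.2 (Or.inl h))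
      fun h => hx.1.2 (Or.inr h)
    exact ⟨c, hc, mem_closedBall_iff_norm.2 hc'⟩
  · refine STRUCT.cover_le (B := fun c => closedBall (prA A c) (100 / β * b)) hβ hb1 hZ.card
      (fun y hy => ?_) fun c => ?_
    · obtain ⟨c, hc, hc'⟩ := a6 i A hA y hy.1 hy.2
      exact ⟨c, hc, mem_closedBall_iff_norm.2 hc'⟩
    · rw [Complex.volume_closedBall, ← ENNReal.ofReal_pow hL, ← ENNReal.ofReal_coe_nnreal,
        ← ENNReal.ofReal_mul (by positivity), NNReal.coe_real_pi]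
      refine ENNReal.ofReal_le_ofReal ?_
      nlinarith [mul_nonneg Real.pi_pos.le (sq_nonneg (100 / β * b))]
  · have h1 : |x 2 - p 2| ≤ r :=
      (abs_two_le (x - p)).trans (mem_ball_iff_norm.1 hx.2.1).le
    obtain ⟨c, hc, hc'⟩ := hZ.dense _ h1
    exact ⟨c, hZ.ctr c hc, hc', hx.2.2.2 c hc⟩
  · obtain ⟨c, hc, hc'⟩ := a5 x hx h1 h2
    exact ⟨c, hZ.ctr c hc, hc'⟩
  · obtain ⟨c, hc, hc'⟩ := a6 i A hA y hy hy'
    exact ⟨c, hZ.ctr c hc, hc'⟩

end MW.CI
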