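import Pool.Agent.P.MP_064970_gt.SC

/-! Case I, row UP. Sketch:
Lam4 so large that hh K u (2r) <= omega r/8 (hh_small), Lam3 u <= omega r/4, u <= 2r. PTN at (c,
2r) with P = Pf (2r); ball p r in ball c (2r); |P.f i x - <x-p,nu i>| <= omega r/4 + |P.f i p| <=
5 omega r/8. -/

open MeasureTheory Set Filter Topology Metric
open scoped RealInnerProductSpace ENNReal ComplexConjugate Real

noncomputable section

namespace MW.CI

theorem c_up_of (hPTN : C_PTN) : C_UP := by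
  intro β ω K Λ₃ hω hωβ hK hΛ₃
  obtain ⟨Λ, hΛ, hs⟩ := hh_small K 2 (ε := ω / 8) (by positivity) two_pos
  have h0 : 0 ≤ 4 * Λ₃ / ω := by positivity
  refine ⟨Λ + 4 * Λ₃ / ω, by linarith, ?_⟩
  intro M ν η u a R r c p Pf hM hν hu hD hp hr ha hR
  have hβ1 := hν.le_one
  have h1 : Λ * u ≤ r := by nlinarith [mul_nonneg h0 hu.le]
  have h2 : u ≤ r := by nlinarith
  have hr0 : 0 < r := hu.trans_le h2
  have h3 : 4 * Λ₃ / ω * u ≤ r := by nlinarith
  have h4 : ‖p - c‖ ≤ ω * r / 4 := by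
    rw [div_mul_eq_mul_div, div_le_iff₀ hω] at h3
    linarith
  have h5 := hs u r hu h1
  have h6 : 0 ≤ hh K u (2 * r) := hu.le.trans (le_hh hK hu (by linarith)).2
  have hC := hD.close _ ha hR
  have hd := hD.dat _ ha hR
  have hP := hPTN M β η ω K u (2 * r) ν c (Pf (2 * r)) hM hν hωβ (hC.mono (by linarith)) hK hu
    (by linarith) (by nlinarith) hd (hD.near _ ha hR)
  intro x hx g1 g2
  have hx' := mem_ball_iff_norm.1 hx
  have hxc : x ∈ ball c (2 * r) := by
    rw [mem_ball_iff_norm]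
    have := norm_sub_le_norm_sub_add_norm_sub x p c
    nlinarith
  have key : ∀ i, ω * r < |⟪x - p, ν i⟫| → hh K u (2 * r) < |(Pf (2 * r)).f i x| ∧
      0 < ⟪x - p, ν i⟫ * (Pf (2 * r)).f i x := fun i hi => by
    refine lem_sign (e := 5 * (ω * r) / 8) (by nlinarith) ?_ h6
    have a1 := abs_le.1 (hC.abs_f_sub i x p)
    have a2 := abs_le.1 ((hC.abs_f_le i p c).trans (add_le_add h4 ((hd.ctr i).trans h5)))
    have a3 : ω / 4 * ‖x - p‖ ≤ ω / 4 * r := mul_le_mul_of_nonneg_left hx'.le (by positivity)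
    rw [abs_le]
    constructor <;> linarith [a1.1, a1.2, a2.1, a2.2]
  obtain ⟨a1, a2⟩ := key false g1
  obtain ⟨b1, b2⟩ := key true g2
  obtain ⟨c1, c2⟩ := hP x hxc a1 b1
  obtain ⟨d1, d2⟩ := lem_prod a2 b2
  exact ⟨fun h => c1 (d1 h), fun h => c2 (d2 h)⟩

end MW.CI
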