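import Pool.Agent.P.MP_064970_gt.SC

/-! Case I, row WE. Sketch:
a = (n i - <n i, n (!i)> n (!i))/wedge: unit, <a, n (!i)> = 0, <a, n i> = wedge >= beta (|n i| = 1
from TwoG.frame). First clause of FV with v = a; split the integral over G false, G true and the
complement of the union; the integrand vanishes off ball p rho and is bounded by 2L on S, so the
last part is <= 2 L kappa. SHEET twice. -/

open MeasureTheory Set Filter Topology Metric
open scoped RealInnerProductSpace ENNReal ComplexConjugate Real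

noncomputable section

namespace MW.CI

namespace WE

/-- A unit vector orthogonal to `b` in the plane of `n` and `b`. -/
theorem exists_dir {n b : E} (hn : ‖n‖ = 1) (hb : ‖b‖ = 1) (h : 0 < wedge n b) :
    ∃ a : E, ‖a‖ = 1 ∧ ⟪a, b⟫ = 0 ∧ ⟪a, n⟫ = wedge n b := by
  refine ⟨(wedge n b)⁻¹ • (n - ⟪n, b⟫ • b), ?_, ?_, ?_⟩
  · rw [norm_smul, norm_inv, Real.norm_of_nonneg h.le]
    exact inv_mul_cancel₀ h.ne'
  · rw [real_inner_smul_left, inner_sub_left, real_inner_smul_left, real_inner_self_eq_norm_sq, hb]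
    ring
  · rw [real_inner_smul_left, inner_sub_left, real_inner_smul_left, real_inner_self_eq_norm_sq, hn,
      real_inner_comm n b, inv_mul_eq_iff_eq_mul₀ h.ne']
    linear_combination -wedge_sq hn hb

/-- The first variation over the two sheets is small. -/
theorem split (hFV : S_FV) {M : Surf} {G : Bool → Set E} {κ ρ L : ℝ} {p a : E} {ζ : E → ℝ}
    (hM : M.Mem) (hG : ∀ i, MeasurableSet (G i)) (hd : Disjoint (G false) (G true))
    (hr : M.μ (ball p ρ \ (G false ∪ G true)) ≤ ENNReal.ofReal κ) (hκ : 0 ≤ κ)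
    (hζ : ContDiff ℝ 1 ζ) (hs : tsupport ζ ⊆ ball p ρ) (hL : ∀ x, ‖fderiv ℝ ζ x‖ ≤ L)
    (ha : ‖a‖ = 1) :
    |(∫ x in G false, (fderiv ℝ ζ x a - ⟪M.N x, a⟫ * fderiv ℝ ζ x (M.N x)) ∂M.μ) +
      ∫ x in G true, (fderiv ℝ ζ x a - ⟪M.N x, a⟫ * fderiv ℝ ζ x (M.N x)) ∂M.μ| ≤ 2 * L * κ := by
  have hL0 : 0 ≤ L := (norm_nonneg _).trans (hL 0)
  have h0 := (hFV M).1 ζ hζ
    (isCompact_of_isClosed_isBounded (isClosed_tsupport ζ) (isBounded_ball.subset hs))
    (by rw [hM.univ]; exact subset_univ _) a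
  set g : E → ℝ := fun x => fderiv ℝ ζ x a - ⟪M.N x, a⟫ * fderiv ℝ ζ x (M.N x) with hg
  have hc : Continuous (fderiv ℝ ζ) := hζ.continuous_fderiv one_ne_zero
  have hm : Measurable g := by
    have h1 : Continuous fun q : E × E =>
        fderiv ℝ ζ q.1 a - ⟪q.2, a⟫ * fderiv ℝ ζ q.1 q.2 :=
      ((hc.comp continuous_fst).clm_apply continuous_const).sub
        ((continuous_snd.inner continuous_const).mul
          ((hc.comp continuous_fst).clm_apply continuous_snd))
    exact h1.measurable.comp (measurable_id.prodMk M.N_meas)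
  have hb : ∀ x ∈ M.S, |g x| ≤ 2 * L := by
    intro x hx
    have h1 : ∀ w : E, ‖w‖ = 1 → |fderiv ℝ ζ x w| ≤ L := fun w hw =>
      ((fderiv ℝ ζ x).le_opNorm w).trans (by rw [hw, mul_one]; exact hL x)
    have h2 : |⟪M.N x, a⟫| ≤ 1 := by
      simpa [M.N_unit x hx, ha] using abs_real_inner_le_norm (M.N x) a
    have h3 : |⟪M.N x, a⟫ * fderiv ℝ ζ x (M.N x)| ≤ 1 * L := by
      rw [abs_mul]
      exact mul_le_mul h2 (h1 _ (M.N_unit x hx)) (abs_nonneg _) zero_le_one
    exact (abs_sub _ _).trans (by linarith [h1 a ha])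
  have hz : ∀ x, x ∉ ball p ρ → g x = 0 := by
    intro x hx
    have h1 : fderiv ℝ ζ x = 0 := by
      by_contra h2
      exact hx (hs (support_fderiv_subset ℝ h2))
    simp [hg, h1]
  have hi : Integrable g M.μ := hM.bd.integrable isBounded_ball hm hb fun x _ hx => hz x hx
  have hU := (hG false).union (hG true)
  rw [← integral_add_compl hU hi, setIntegral_union hd (hG true) hi.integrableOn hi.integrableOn,
    setIntegral_eq_of_subset_of_forall_sdiff_eq_zero (s := ball p ρ \ (G false ∪ G true)) hU.compl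
      (fun x hx => hx.2) fun x hx => hz x fun h => hx.2 ⟨h, hx.1⟩] at h0
  have h1 := norm_setIntegral_le_of_norm_le_const_ae (μ := M.μ) (f := g) (C := 2 * L)
    (hr.trans_lt ENNReal.ofReal_lt_top) (ae_restrict_of_ae (M.ae_mem.mono hb))
  rw [eq_neg_of_add_eq_zero_left h0, abs_neg]
  exact h1.trans (mul_le_mul_of_nonneg_left (ENNReal.toReal_le_of_le_ofReal hκ hr) (by positivity))

end WE

theorem c_we_of (hFV : S_FV) (hSHEET : C_SHEET) : C_WE := by
  obtain ⟨C, hC, hS⟩ := hSHEET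
  refine ⟨2 * C + 2, by positivity, fun M P A G v β σ h κ p ρ ζ L hM H hβ hw hσ hκ hζ hs hL i => ?_⟩
  have hL0 : 0 ≤ L := (norm_nonneg _).trans (hL 0)
  have hn : ∀ j, ‖P.n j‖ = 1 := fun j => by rw [← H.frame j, (A j).norm_map, norm_e3]
  have hw' : β ≤ wedge (P.n i) (P.n (!i)) := by
    cases i
    · exact hw
    · rwa [wedge_comm (hn _) (hn _)]
  obtain ⟨a, ha, h0, h1⟩ := WE.exists_dir (hn i) (hn (!i)) (hβ.trans_le hw')
  have h2 := hS M _ _ _ _ σ h κ p ρ ζ L a hM (H.one i) hσ hκ hζ hs hL ha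
  have h3 := hS M _ _ _ _ σ h κ p ρ ζ L a hM (H.one (!i)) hσ hκ hζ hs hL ha
  have h4 := WE.split hFV hM (fun j => (H.one j).basic.1) H.disj H.rest hκ hζ hs hL ha
  rw [H.frame, h1] at h2
  rw [H.frame, h0, zero_mul, sub_zero] at h3
  have h5 : ∀ j, 0 ≤ ∫ x in G j, wedge (M.N x) (P.n j) ^ 2 * ‖fderiv ℝ ζ x‖ ∂M.μ :=
    fun j => integral_nonneg fun x => by positivity
  have h6 : β * |mainI (A i) (P.c i) (G i) (v i) ζ| ≤
      |wedge (P.n i) (P.n (!i)) * mainI (A i) (P.c i) (G i) (v i) ζ| := by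
    rw [abs_mul, abs_of_nonneg (wedge_nonneg _ _)]
    exact mul_le_mul_of_nonneg_right hw' (abs_nonneg _)
  refine h6.trans ?_
  have h7 := h5 false
  have h8 := h5 true
  have h9 := mul_nonneg hκ hL0
  have h10 := mul_nonneg hC.le h7
  have h11 := mul_nonneg hC.le h8
  rw [Fintype.sum_bool]
  rw [abs_le] at h2 h3 h4 ⊢
  cases i
  · simp only [Bool.not_false] at h2 h3 ⊢
    constructor <;> linarith [h2.1, h2.2, h3.1, h3.2, h4.1, h4.2]
  · simp only [Bool.not_true] at h2 h3 ⊢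
    constructor <;> linarith [h2.1, h2.2, h3.1, h3.2, h4.1, h4.2]

end MW.CI
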