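import Pool.Agent.P.MP_064970_gt.SC

/-! Case I, row WEP. Sketch:
chi a fixed C^1 bump on the line, 1 on [-1/8,1/8], 0 outside [-1/4,1/4] (ContDiffBump), |chi| <=
1, |chi'| <= B. zeta x = z (prA A x) * chi ((<x,n> - c)/rho). tsupport inside a closed set in ball
p rho (|prA(x-p)| <= rho/2, |<x-p,n>| <= 3 rho/8, OneG.ctr). |z| <= L rho (mean value inequality
against a point at distance rho/2 from the centre), so |D zeta| <= (1+B) L, and D zeta = 0 off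
ball p rho. D zeta (grf y)(A(pt g 0)) = Dz y g since |v y| <= rho/8 and <A(pt g 0), n> = 0. Off
the image the integrand is bounded by L sigma and vanishes off the disc: <= L kappa. beta <= 1. -/

open MeasureTheory Set Filter Topology Metric
open scoped RealInnerProductSpace ENNReal ComplexConjugate Real

noncomputable section

namespace MW.CI

namespace WEP

/-- A fixed cutoff on the line. -/
theorem exists_cut : ∃ (χ : ℝ → ℝ) (B : ℝ), 0 ≤ B ∧ ContDiff ℝ 1 χ ∧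
    (∀ t, |t| ≤ 1 / 8 → χ t = 1) ∧ (∀ t, 1 / 4 ≤ |t| → χ t = 0) ∧ (∀ t, |χ t| ≤ 1) ∧
    ∀ t, |deriv χ t| ≤ B := by
  let f : ContDiffBump (0 : ℝ) := ⟨1 / 8, 1 / 4, by norm_num, by norm_num⟩
  have hc : ContDiff ℝ 1 f := f.contDiff
  obtain ⟨B, hB⟩ := (hc.continuous_deriv le_rfl).bounded_above_of_compact_support
    f.hasCompactSupport.deriv
  refine ⟨f, B, (norm_nonneg _).trans (hB 0), hc, fun t ht => ?_, fun t ht => ?_, fun t => ?_,
    fun t => hB t⟩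
  · exact f.one_of_mem_closedBall (by simpa [f] using ht)
  · exact f.zero_of_le_dist (by simpa [f] using ht)
  · rw [abs_of_nonneg f.nonneg]
    exact f.le_one

/-- The projection as a continuous linear map. -/
def prAL (A : E ≃ₗᵢ[ℝ] E) : E →L[ℝ] ℂ :=
  prL.comp (A.symm.toContinuousLinearEquiv : E →L[ℝ] E)

theorem prAL_apply (A : E ≃ₗᵢ[ℝ] E) (x : E) : prAL A x = prA A x := rfl

theorem norm_prA_le (A : E ≃ₗᵢ[ℝ] E) (x : E) : ‖prA A x‖ ≤ ‖x‖ :=
  (norm_pr_le _).trans (A.symm.norm_map _).le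

/-- The test function in space. -/
def zeta (A : E ≃ₗᵢ[ℝ] E) (c ρ : ℝ) (z : ℂ → ℝ) (χ : ℝ → ℝ) (x : E) : ℝ :=
  z (prA A x) * χ ((⟪x, A e3⟫ - c) / ρ)

theorem contDiff_zeta (A : E ≃ₗᵢ[ℝ] E) (c ρ : ℝ) {z : ℂ → ℝ} {χ : ℝ → ℝ} (hz : ContDiff ℝ 1 z)
    (hχ : ContDiff ℝ 1 χ) : ContDiff ℝ 1 (zeta A c ρ z χ) := by
  have h1 : ContDiff ℝ 1 fun x : E => z (prA A x) := hz.comp (prAL A).contDiff
  have h2 : ContDiff ℝ 1 fun x : E => (⟪x, A e3⟫ - c) / ρ :=
    ((contDiff_id.inner ℝ contDiff_const).sub contDiff_const).div_const ρ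
  exact h1.mul (hχ.comp h2)

theorem fderiv_zeta (A : E ≃ₗᵢ[ℝ] E) (c ρ : ℝ) {z : ℂ → ℝ} {χ : ℝ → ℝ} (hz : ContDiff ℝ 1 z)
    (hχ : ContDiff ℝ 1 χ) (x w : E) :
    fderiv ℝ (zeta A c ρ z χ) x w = fderiv ℝ z (prA A x) (prA A w) * χ ((⟪x, A e3⟫ - c) / ρ)
      + z (prA A x) * (deriv χ ((⟪x, A e3⟫ - c) / ρ) * (⟪w, A e3⟫ / ρ)) := by
  have h1 : HasFDerivAt (fun x : E => z (prA A x)) ((fderiv ℝ z (prA A x)).comp (prAL A)) x :=
    (hz.differentiable one_ne_zero (prA A x)).hasFDerivAt.comp x (prAL A).hasFDerivAt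
  have h0 : HasFDerivAt (fun x : E => ⟪x, A e3⟫) (innerSL ℝ (A e3)) x := by
    have := (innerSL ℝ (A e3)).hasFDerivAt (x := x)
    refine this.congr_of_eventuallyEq (Eventually.of_forall fun y => ?_)
    simp [real_inner_comm]
  have h2 : HasFDerivAt (fun x : E => (⟪x, A e3⟫ - c) / ρ) (ρ⁻¹ • innerSL ℝ (A e3)) x := by
    have := (h0.sub_const c).const_smul ρ⁻¹
    refine this.congr_of_eventuallyEq (Eventually.of_forall fun y => ?_)
    simp [div_eq_inv_mul]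
  have h3 := (hχ.differentiable one_ne_zero ((⟪x, A e3⟫ - c) / ρ)).hasDerivAt.comp_hasFDerivAt
    x h2
  have h4 : HasFDerivAt (zeta A c ρ z χ) _ x := h1.mul h3
  rw [h4.fderiv]
  simp [prAL_apply, real_inner_comm, div_eq_inv_mul]
  ring

theorem abs_le_of_supp {z : ℂ → ℝ} {y₀ : ℂ} {ρ L : ℝ} (hz : ContDiff ℝ 1 z) (hρ : 0 < ρ)
    (hs : tsupport z ⊆ ball y₀ (ρ / 2)) (hL : ∀ y, ‖fderiv ℝ z y‖ ≤ L) (y : ℂ) :
    |z y| ≤ L * ρ := by
  have hL0 : 0 ≤ L := (norm_nonneg _).trans (hL 0)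
  by_cases hy : y ∈ ball y₀ (ρ / 2)
  · have hn : ‖((ρ / 2 : ℝ) : ℂ)‖ = ρ / 2 := by
      rw [Complex.norm_real, Real.norm_eq_abs, abs_of_pos (by positivity)]
    have h1 : z (y₀ + ((ρ / 2 : ℝ) : ℂ)) = 0 := by
      refine image_eq_zero_of_notMem_tsupport fun h => ?_
      have := hs h
      rw [mem_ball, dist_eq_norm, add_sub_cancel_left, hn] at this
      exact lt_irrefl _ this
    have h2 := convex_univ.norm_image_sub_le_of_norm_fderiv_le (𝕜 := ℝ) (f := z)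
      (fun x _ => hz.differentiable one_ne_zero x) (fun x _ => hL x)
      (mem_univ (y₀ + ((ρ / 2 : ℝ) : ℂ))) (mem_univ y)
    rw [h1, sub_zero, Real.norm_eq_abs] at h2
    refine h2.trans (mul_le_mul_of_nonneg_left ?_ hL0)
    rw [mem_ball, dist_eq_norm] at hy
    have h3 := norm_sub_le (y - y₀) ((ρ / 2 : ℝ) : ℂ)
    rw [hn, sub_sub] at h3
    linarith
  · rw [image_eq_zero_of_notMem_tsupport fun h => hy (hs h), abs_zero]
    positivity

theorem norm_fderiv_zeta (A : E ≃ₗᵢ[ℝ] E) (c : ℝ) {ρ L B : ℝ} {z : ℂ → ℝ} {χ : ℝ → ℝ}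
    (hz : ContDiff ℝ 1 z) (hχ : ContDiff ℝ 1 χ) (hρ : 0 < ρ) (hL : ∀ y, ‖fderiv ℝ z y‖ ≤ L)
    (hz0 : ∀ y, |z y| ≤ L * ρ) (h1 : ∀ t, |χ t| ≤ 1) (hB : ∀ t, |deriv χ t| ≤ B) (x : E) :
    ‖fderiv ℝ (zeta A c ρ z χ) x‖ ≤ (1 + B) * L := by
  have hL0 : 0 ≤ L := (norm_nonneg _).trans (hL 0)
  have hB0 : 0 ≤ B := (abs_nonneg _).trans (hB 0)
  refine ContinuousLinearMap.opNorm_le_bound _ (by positivity) fun w => ?_
  rw [fderiv_zeta A c ρ hz hχ, Real.norm_eq_abs]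
  refine (abs_add_le _ _).trans ?_
  have a1 : |fderiv ℝ z (prA A x) (prA A w)| ≤ L * ‖w‖ :=
    ((fderiv ℝ z (prA A x)).le_opNorm _).trans
      (mul_le_mul (hL _) (norm_prA_le A w) (norm_nonneg _) hL0)
  have a2 : |⟪w, A e3⟫| ≤ ‖w‖ := by
    have := abs_real_inner_le_norm w (A e3)
    rwa [A.norm_map, norm_e3, mul_one] at this
  have a3 : |⟪w, A e3⟫ / ρ| ≤ ‖w‖ / ρ := by
    rw [abs_div, abs_of_pos hρ]
    exact div_le_div_of_nonneg_right a2 hρ.le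
  have b1 : |fderiv ℝ z (prA A x) (prA A w) * χ ((⟪x, A e3⟫ - c) / ρ)| ≤ L * ‖w‖ * 1 := by
    rw [abs_mul]
    exact mul_le_mul a1 (h1 _) (abs_nonneg _) (by positivity)
  have b2 : |z (prA A x) * (deriv χ ((⟪x, A e3⟫ - c) / ρ) * (⟪w, A e3⟫ / ρ))|
      ≤ L * ρ * (B * (‖w‖ / ρ)) := by
    rw [abs_mul, abs_mul]
    exact mul_le_mul (hz0 _) (mul_le_mul (hB _) a3 (abs_nonneg _) hB0) (by positivity)
      (by positivity)
  have e : L * ρ * (B * (‖w‖ / ρ)) = B * L * ‖w‖ := by field_simp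
  rw [e] at b2
  linarith

theorem tsupport_zeta (A : E ≃ₗᵢ[ℝ] E) {c ρ : ℝ} {p : E} {z : ℂ → ℝ} {χ : ℝ → ℝ} (hρ : 0 < ρ)
    (hs : tsupport z ⊆ ball (prA A p) (ρ / 2)) (h0 : ∀ t, 1 / 4 ≤ |t| → χ t = 0)
    (hp : |⟪p, A e3⟫ - c| ≤ ρ / 8) : tsupport (zeta A c ρ z χ) ⊆ ball p ρ := by
  have hK : IsClosed {x : E | ‖prA A x - prA A p‖ ≤ ρ / 2 ∧ |⟪x, A e3⟫ - c| ≤ ρ / 4} := by
    have k1 : IsClosed {x : E | ‖prA A x - prA A p‖ ≤ ρ / 2} :=
      isClosed_le ((continuous_prA A).sub continuous_const).norm continuous_const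
    have k2 : IsClosed {x : E | |⟪x, A e3⟫ - c| ≤ ρ / 4} :=
      isClosed_le ((continuous_id.inner continuous_const).sub continuous_const).abs
        continuous_const
    exact k1.inter k2
  refine (closure_minimal (fun x hx => ?_) hK).trans fun x hx => ?_
  · obtain ⟨h1, h2⟩ := mul_ne_zero_iff.1 hx
    refine ⟨?_, ?_⟩
    · have := hs (subset_tsupport z h1)
      rw [mem_ball, dist_eq_norm] at this
      exact this.le
    · have h3 : |(⟪x, A e3⟫ - c) / ρ| < 1 / 4 := lt_of_not_ge fun h => h2 (h0 _ h)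
      rw [abs_div, abs_of_pos hρ, div_lt_iff₀ hρ] at h3
      linarith
  · obtain ⟨h1, h2⟩ := hx
    rw [mem_ball, dist_eq_norm]
    have h3 := norm_sq_prA A (x - p)
    rw [prA_sub, inner_sub_left] at h3
    have h4 : |⟪x, A e3⟫ - ⟪p, A e3⟫| ≤ 3 * ρ / 8 := by
      have := abs_sub (⟪x, A e3⟫ - c) (⟪p, A e3⟫ - c)
      rw [sub_sub_sub_cancel_right] at this
      linarith
    have h5 := pow_le_pow_left₀ (norm_nonneg _) h1 2
    have h6 := pow_le_pow_left₀ (abs_nonneg _) h4 2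
    rw [sq_abs] at h6
    refine lt_of_pow_lt_pow_left₀ 2 hρ.le ?_
    have h7 : 0 < ρ ^ 2 := by positivity
    nlinarith

/-- The part of the plane that is not covered by the sheet. -/
theorem abs_sub_le {F : ℂ → ℝ} {D : Set ℂ} {y₀ : ℂ} {ρ K κ : ℝ} (hF : Measurable F)
    (hD : MeasurableSet D) (hK : ∀ y, |F y| ≤ K) (h0 : ∀ y, y ∉ ball y₀ ρ → F y = 0)
    (hκ : 0 ≤ κ) (hv : volume (ball y₀ ρ \ D) ≤ ENNReal.ofReal κ) :
    |∫ y, F y| ≤ |∫ y in D, F y| + K * κ := by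
  have hK0 : 0 ≤ K := (abs_nonneg _).trans (hK 0)
  have hI : Integrable F := by
    have h1 : IntegrableOn F (ball y₀ ρ) :=
      Measure.integrableOn_of_bounded (M := K) measure_ball_lt_top.ne hF.aestronglyMeasurable
        (Eventually.of_forall hK)
    exact (integrableOn_iff_integrable_of_support_subset fun y hy =>
      by_contra fun h => hy (h0 y h)).1 h1
  rw [← integral_add_compl hD hI]
  refine (abs_add_le _ _).trans (add_le_add le_rfl ?_)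
  have e : ∫ y in Dᶜ, F y = ∫ y in ball y₀ ρ \ D, F y := by
    refine setIntegral_eq_of_subset_of_forall_sdiff_eq_zero hD.compl (fun y hy => hy.2)
      fun y hy => h0 y fun hb => hy.2 ⟨hb, hy.1⟩
  rw [e]
  have h2 : ‖∫ y in ball y₀ ρ \ D, F y‖ ≤ K * volume.real (ball y₀ ρ \ D) :=
    norm_setIntegral_le_of_norm_le_const (hv.trans_lt ENNReal.ofReal_lt_top) fun y _ => hK y
  exact h2.trans (mul_le_mul_of_nonneg_left (ENNReal.toReal_le_of_le_ofReal hκ hv) hK0)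

theorem tilt_le {M : Surf} (hM : M.Mem) {G : Set E} (hG : MeasurableSet G) (n p : E) {ρ K : ℝ}
    {ζ : E → ℝ} (hs : tsupport ζ ⊆ ball p ρ) (hK : ∀ x, ‖fderiv ℝ ζ x‖ ≤ K) :
    ∫ x in G, wedge (M.N x) n ^ 2 * ‖fderiv ℝ ζ x‖ ∂M.μ
      ≤ (∫ x in G ∩ ball p ρ, wedge (M.N x) n ^ 2 ∂M.μ) * K := by
  have e : ∫ x in G, wedge (M.N x) n ^ 2 * ‖fderiv ℝ ζ x‖ ∂M.μ
      = ∫ x in G ∩ ball p ρ, wedge (M.N x) n ^ 2 * ‖fderiv ℝ ζ x‖ ∂M.μ := by
    refine setIntegral_eq_of_subset_of_forall_sdiff_eq_zero hG inter_subset_left fun x hx => ?_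
    have h1 : x ∉ tsupport ζ := fun h => hx.2 ⟨hx.1, hs h⟩
    have h2 : fderiv ℝ ζ x = 0 :=
      Function.notMem_support.1 fun h => h1 (support_fderiv_subset ℝ h)
    rw [h2, norm_zero, mul_zero]
  rw [e, ← integral_mul_const]
  refine integral_mono_of_nonneg (Eventually.of_forall fun x => by positivity)
    ((integrableOn_wedge hM n (isBounded_ball.subset inter_subset_right)
      (hG.inter measurableSet_ball)).mul_const K) (Eventually.of_forall fun x => ?_)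
  exact mul_le_mul_of_nonneg_left (hK x) (sq_nonneg _)

end WEP

open WEP in
theorem c_wep_of (hWE : C_WE) (hARG : C_ARG) : C_WEP := by
  obtain ⟨C, hC, HW⟩ := hWE
  obtain ⟨χ, B, hB0, hχ, hχ1, hχ0, hχb, hB⟩ := exists_cut
  refine ⟨C * (1 + B) + 1, by positivity, ?_⟩
  intro M P A G v β σ h κ p ρ hM T hβ hβw hσ hκ hρ hh i z L hz hs hL
  have H := T.one i
  obtain ⟨hGm, hGS, hinj, -, -, -, hgm, hσ0, hgb, -⟩ := H.basic
  have hL0 : 0 ≤ L := (norm_nonneg _).trans (hL 0)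
  have hβ1 : β ≤ 1 := by
    refine hβw.trans (wedge_le_one ?_ ?_) <;> rw [← T.frame, (A _).norm_map, norm_e3]
  have hts := tsupport_zeta (A i) (c := P.c i) hρ hs hχ0 (H.ctr.trans (by linarith))
  have hnz := norm_fderiv_zeta (A i) (P.c i) hz hχ hρ hL (abs_le_of_supp hz hρ hs hL) hχb hB
  have h1 := HW M P A G v β σ h κ p ρ _ _ hM T hβ hβw hσ hκ
    (contDiff_zeta (A i) (P.c i) ρ hz hχ) hts hnz i
  have e : mainI (A i) (P.c i) (G i) (v i) (zeta (A i) (P.c i) ρ z χ)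
      = ∫ y in prA (A i) '' G i, fderiv ℝ z y (gradient (v i) y) := by
    unfold mainI
    congr 1
    funext y
    rw [fderiv_zeta (A i) (P.c i) ρ hz hχ]
    unfold grf
    rw [prA_apply_pt, prA_apply_pt, inner_pt_e3, inner_pt_e3, add_sub_cancel_right, hχ1]
    · simp
    · rw [abs_div, abs_of_pos hρ, div_le_iff₀ hρ]
      linarith [H.bd y]
  rw [e] at h1
  have hFm : Measurable fun y => fderiv ℝ z y (gradient (v i) y) := by
    have hc : Continuous fun q : ℂ × ℂ => fderiv ℝ z q.1 q.2 :=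
      ((hz.continuous_fderiv one_ne_zero).comp continuous_fst).clm_apply continuous_snd
    exact hc.measurable.comp (measurable_id.prodMk hgm)
  have h2 := abs_sub_le (K := L) (y₀ := prA (A i) p) (ρ := ρ) hFm (hARG M (A i) (G i) hGm hGS hinj).1
    (fun y => by
      refine ((fderiv ℝ z y).le_opNorm _).trans ?_
      have := mul_le_mul (hL y) ((hgb y).trans (hσ.trans (by norm_num : (1 / 2 : ℝ) ≤ 1)))
        (norm_nonneg _) hL0
      rwa [mul_one] at this)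
    (fun y hy => by
      have h3 : fderiv ℝ z y = 0 := Function.notMem_support.1 fun h4 =>
        hy (ball_subset_ball (by linarith) (hs (support_fderiv_subset ℝ h4)))
      rw [h3]
      rfl) hκ H.cover
  have h3 : ∑ j, ∫ x in G j, wedge (M.N x) (P.n j) ^ 2
        * ‖fderiv ℝ (zeta (A i) (P.c i) ρ z χ) x‖ ∂M.μ
      ≤ (∑ j, ∫ x in G j ∩ ball p ρ, wedge (M.N x) (P.n j) ^ 2 ∂M.μ) * ((1 + B) * L) := by
    rw [Finset.sum_mul]
    exact Finset.sum_le_sum fun j _ => tilt_le hM (T.one j).basic.1 _ p hts hnz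
  have h4 : 0 ≤ ∑ j, ∫ x in G j ∩ ball p ρ, wedge (M.N x) (P.n j) ^ 2 ∂M.μ :=
    Finset.sum_nonneg fun j _ => integral_nonneg fun x => sq_nonneg _
  generalize ∑ j, ∫ x in G j ∩ ball p ρ, wedge (M.N x) (P.n j) ^ 2 ∂M.μ = S at h3 h4 ⊢
  have h5 := mul_le_mul_of_nonneg_left h2 hβ.le
  have h6 := mul_le_mul_of_nonneg_left h3 hC.le
  have h7 : β * (L * κ) ≤ 1 * (L * κ) := mul_le_mul_of_nonneg_right hβ1 (by positivity)
  have h8 : 0 ≤ S * L := by positivity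
  linarith only [h1, h5, h6, h7, h8]

end MW.CI
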