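import Pool.Agent.P.MP_064970_gt.C.ANG
import Pool.Agent.P.MP_064970_gt.C.CMPN
import Pool.Agent.P.MP_064970_gt.C.PIC
import Pool.Agent.P.MP_064970_gt.C.NRM
import Pool.Agent.P.MP_064970_gt.C.START
import Pool.Agent.P.MP_064970_gt.C.STA
import Pool.Agent.P.MP_064970_gt.C.STB
import Pool.Agent.P.MP_064970_gt.C.STRUCT
import Pool.Agent.P.MP_064970_gt.C.ARG
import Pool.Agent.P.MP_064970_gt.C.GRAPH
import Pool.Agent.P.MP_064970_gt.C.EXT
import Pool.Agent.P.MP_064970_gt.C.SHEET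
import Pool.Agent.P.MP_064970_gt.C.WE
import Pool.Agent.P.MP_064970_gt.C.WEP
import Pool.Agent.P.MP_064970_gt.C.APPROX
import Pool.Agent.P.MP_064970_gt.C.CACC
import Pool.Agent.P.MP_064970_gt.C.KER
import Pool.Agent.P.MP_064970_gt.C.MOLA
import Pool.Agent.P.MP_064970_gt.C.MOLL
import Pool.Agent.P.MP_064970_gt.C.LLA
import Pool.Agent.P.MP_064970_gt.C.LL
import Pool.Agent.P.MP_064970_gt.C.ITER
import Pool.Agent.P.MP_064970_gt.C.PW
import Pool.Agent.P.MP_064970_gt.C.BCD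
import Pool.Agent.P.MP_064970_gt.C.DLA
import Pool.Agent.P.MP_064970_gt.C.DLC
import Pool.Agent.P.MP_064970_gt.C.DLI
import Pool.Agent.P.MP_064970_gt.C.DLN
import Pool.Agent.P.MP_064970_gt.C.DLT
import Pool.Agent.P.MP_064970_gt.C.DLS
import Pool.Agent.P.MP_064970_gt.C.DLZ
import Pool.Agent.P.MP_064970_gt.C.DLX
import Pool.Agent.P.MP_064970_gt.C.DLG
import Pool.Agent.P.MP_064970_gt.C.DL
import Pool.Agent.P.MP_064970_gt.C.CHAIN
import Pool.Agent.P.MP_064970_gt.C.PTN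
import Pool.Agent.P.MP_064970_gt.C.UP
import Pool.Agent.P.MP_064970_gt.C.BCL
import Pool.Agent.P.MP_064970_gt.C.BCX
import Pool.Agent.P.MP_064970_gt.C.BCA
import Pool.Agent.P.MP_064970_gt.C.BCM
import Pool.Agent.P.MP_064970_gt.C.BCE
import Pool.Agent.P.MP_064970_gt.C.BCZ
import Pool.Agent.P.MP_064970_gt.C.BCS
import Pool.Agent.P.MP_064970_gt.C.BCF
import Pool.Agent.P.MP_064970_gt.C.SCH
import Pool.Agent.P.MP_064970_gt.C.LBA
import Pool.Agent.P.MP_064970_gt.C.LBB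
import Pool.Agent.P.MP_064970_gt.C.LB
import Pool.Agent.P.MP_064970_gt.C.LBX
import Pool.Agent.P.MP_064970_gt.C.KEYA
import Pool.Agent.P.MP_064970_gt.C.KEYB
import Pool.Agent.P.MP_064970_gt.C.LEV
import Pool.Agent.P.MP_064970_gt.C.RUN
import Pool.Agent.P.MP_064970_gt.C.KEYD
import Pool.Agent.P.MP_064970_gt.C.KEYC
import Pool.Agent.P.MP_064970_gt.C.SEQ
import Pool.Agent.P.MP_064970_gt.C.BOOT
import Pool.Agent.P.MP_064970_gt.C.GALL
import Pool.Agent.P.MP_064970_gt.C.FINAL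
import Pool.Agent.P.MP_064970_gt.C.ROT

/-! Case I: Proposition I. -/

namespace MW

open CI

theorem propi_of (hMONO : S_MONO) (hDEC : S_DEC) (hCONE : S_CONE) (hGE : S_GE) (hAREA : S_AREA)
    (hLG : S_LG) (hFV : S_FV) (hSHIFT : S_SHIFT) (hCI : S_CI) (hCAC : S_CAC)
    (hEDZ : S_EDZ) (hCONST : S_CONST) (hTWO : S_TWO) (hSYM : S_SYM) (hSYM2 : S_SYM2)
    (hLOW : S_LOW) (hFLAT1 : S_FLAT1) (hUC : S_UC) (hCOR : S_COR) (hTRI : S_TRI)
    (hCONV : S_CONV) (hLIM : S_LIM) :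
    S_PROPI := by
  have hANG : C_ANG := c_ang_of
  have hPIC : C_PIC := c_pic_of hMONO hDEC hCONE hANG
  have hNRM : C_NRM := c_nrm_of hGE
  have hSTART : C_START := c_start_of
  have hSTA : C_STA := c_sta_of
  have hSTB : C_STB := c_stb_of hMONO
  have hSTRUCT : C_STRUCT := c_struct_of hMONO hSTA hSTB
  have hARG : C_ARG := c_arg_of hAREA
  have hEXT : C_EXT := c_ext_of hARG
  have hGRAPH : C_GRAPH := c_graph_of hLG
  have hSHEET : C_SHEET := c_sheet_of hARG hGRAPH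
  have hWE : C_WE := c_we_of hFV hSHEET
  have hWEP : C_WEP := c_wep_of hWE hARG
  have hKER : C_KER := c_ker_of
  have hMOLA : C_MOLA := c_mola_of hKER
  have hMOLL : C_MOLL := c_moll_of hMOLA
  have hLLA : C_LLA := c_lla_of hEXT hWEP hMOLL hARG
  have hAPPROX : C_APPROX := c_approx_of
  have hCACC : C_CACC := c_cacc_of hWE hAPPROX hARG hGRAPH
  have hLL : C_LL := c_ll_of hLLA hEXT hCACC
  have hLEV : C_LEV := c_lev_of hMONO
  have hRUN : C_RUN := c_run_of hMONO hPIC hNRM hSTART hSTRUCT hLL hLEV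
  have hITER : C_ITER := c_iter_of hMONO hSTRUCT hLL
  have hPW : C_PW := c_pw_of hITER hGE
  have hBCD : C_BCD := c_bcd_of hMONO hPW
  have hDLG : C_DLG := c_dlg_of hMONO hSTRUCT hPW
  have hDLA : C_DLA := c_dla_of hFV
  have hDLC : C_DLC := c_dlc_of hARG
  have hDLI : C_DLI := c_dli_of
  have hDLN : C_DLN := c_dln_of hDLA hDLC hDLI
  have hDLT : C_DLT := c_dlt_of hDLA hDLI hDLN
  have hDLZ : C_DLZ := c_dlz_of hDLN hDLT
  have hDLS : C_DLS := c_dls_of hSHIFT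
  have hDLX : C_DLX := c_dlx_of hDLZ hDLS
  have hDL : C_DL := c_dl_of hDLG hDLX
  have hCHAIN : C_CHAIN := c_chain_of hMONO hITER hDL
  have hPTN : C_PTN := c_ptn_of
  have hUP : C_UP := c_up_of hPTN
  have hCMPN : C_CMPN := c_cmpn_of
  have hLBA : C_LBA := c_lba_of hMONO hCOR hTRI hANG hCMPN
  have hLBB : C_LBB := c_lbb_of hCONV
  have hBCL : C_BCL := c_bcl_of hPTN
  have hBCX : C_BCX := c_bcx_of
  have hBCA : C_BCA := c_bca_of
  have hBCM : C_BCM := c_bcm_of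
  have hBCE : C_BCE := c_bce_of hBCA hBCM
  have hBCZ : C_BCZ := c_bcz_of hCI hCAC
  have hBCS : C_BCS := c_bcs_of hEDZ hCONST hBCX hBCE hBCZ
  have hBCF : C_BCF := c_bcf_of hTWO hSYM hSYM2 hBCX hBCS
  have hSCH : C_SCH := c_sch_of hMONO hLOW hFLAT1 hUC
  have hLB : C_LB := c_lb_of hLIM hCONV hLBA hLBB hBCL hBCF hSCH
  have hLBX : C_LBX := c_lbx_of hLB
  have hKEYA : C_KEYA := c_keya_of hMONO hITER hBCD hCHAIN hUP hLBX
  have hKEYB : C_KEYB := c_keyb_of hMONO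
  have hKEYD : C_KEYD := c_keyd_of hMONO hDL
  have hKEYC : C_KEYC := c_keyc_of hMONO hKEYA hKEYB hKEYD hLEV
  have hSEQ : C_SEQ := c_seq_of
  have hBOOT : C_BOOT := c_boot_of hMONO hRUN hKEYC hSEQ hNRM hCMPN hLEV
  have hGALL : C_GALL := c_gall_of hMONO hCONE hANG hCMPN hNRM hBOOT
  have hFINAL : C_FINAL := c_final_of hMONO hBOOT hGALL hBCD hNRM hBCL hBCF
  exact c_rot_of hFINAL

end MW
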