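import Pool.Agent.P.MP_064970_gt.SC

/-! Case I, row BCD. Sketch:
H0 = m (r/8/m)^(1/4) >= m. ctr: 8^(1/4) <= 2. For x in S cap ball c (r/8): centre c' at height x 2
(Core.all), Ctr.cc: |pr(c'-c)| <= r/8, |c'-c| <= r/2, s = |x-c'| = |pr(x-c')| <= r/4. Core.move to
(c', r/2), Exc.sub (l = 2), PW at c' with level 4m: |f_j c'| <= 4 C H0. F = |f(!i) x| >= K H0
gives s >= F/2 >= 4 Lam m; Pic.exists_typ at (c',s) gives a type j and PW gives |f_j x| <= 8 C m
(r/8/F)^(1/4); j = !i would give F <= 8 C H0. Sign: |<x-c',nu(!i)>| >= beta s/2,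
Pl.Close.abs_f_sub, |f(!i) c'| <= beta s/4 for K >= 32 C/beta; then Pic.pos / Pic.neg. -/

open MeasureTheory Set Filter Topology Metric
open scoped RealInnerProductSpace ENNReal ComplexConjugate Real

noncomputable section

namespace MW.CI

namespace BCD

theorem root_le {a b : ℝ} (ha : 0 ≤ a) (hb : 0 ≤ b) (h : b ≤ 16 * a) :
    b ^ (1 / 4 : ℝ) ≤ 2 * a ^ (1 / 4 : ℝ) := by
  have h1 : (16 : ℝ) ^ (1 / 4 : ℝ) = 2 := by
    rw [show (16 : ℝ) = 2 ^ (4 : ℝ) by norm_num, ← Real.rpow_mul (by norm_num)]; norm_num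
  rw [← h1, ← Real.mul_rpow (by norm_num) ha]
  exact Real.rpow_le_rpow hb h (by norm_num)

theorem norm_eq_pr {x : E} (h : x 2 = 0) : ‖x‖ = ‖pr x‖ := by
  have := norm_sq_eq x
  rw [h] at this
  exact (sq_eq_sq₀ (norm_nonneg _) (norm_nonneg _)).1 (by rw [this]; ring)

theorem core (hMONO : S_MONO) {β η Λ₁ C K : ℝ} (hβ : 0 < β) (hη : 0 < η) (hη' : η ≤ β / 8)
    (hΛ : 1 ≤ Λ₁) (hC : 1 ≤ C) (k1 : 8 * Λ₁ ≤ K) (k2 : 9 * C ≤ K) (k3 : 32 * C ≤ β * K)
    (hP : ∀ (M : Surf) (ν : Bool → E) (b R r m : ℝ) (c : E) (P : Pl), M.Mem →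
      IsRef β ν → Core M ν η b R c r → P.Close ν η → Exc M β ν P c r m → b ≤ m → Λ₁ * m ≤ r →
      (∀ i, |P.f i c| ≤ hh C m r) ∧
      ∀ i, ∀ x ∈ M.S ∩ typ M β ν i, Λ₁ * m ≤ ‖x - c‖ → ‖x - c‖ ≤ r / 2 →
        |x 2 - c 2| ≤ ‖x - c‖ / 2 → wedge (M.N x) (P.n i) ≤ C * m / ‖x - c‖ ∧
          |P.f i x| ≤ C * m * (r / ‖x - c‖) ^ (1 / 4 : ℝ))
    {M : Surf} {ν : Bool → E} {b R r m : ℝ} {c : E} {P : Pl} (hM : M.Mem) (hν : IsRef β ν)
    (hc : Core M ν η b R c r) (hcl : P.Close ν η) (he : Exc M β ν P c r m) (hb : b ≤ m)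
    (r1 : 8 * Λ₁ * m ≤ r) (r2 : 64 * m ≤ β * r) (i : Bool) {x : E} (hx : x ∈ M.S ∩ ball c (r / 8))
    (hF : hh K m (r / 8) ≤ |P.f (!i) x|) :
    |P.f i x| ≤ K * m * (r / 8 / |P.f (!i) x|) ^ (1 / 4 : ℝ) ∧
      (0 < P.f (!i) x → ‖M.N x - ν i‖ ≤ η) ∧ (P.f (!i) x < 0 → ‖M.N x + ν i‖ ≤ η) := by
  have b0 := hc.self.pos
  have m0 : 0 < m := by linarith
  have lm : m ≤ Λ₁ * m := le_mul_of_one_le_left m0.le hΛ
  have r8 : 8 * m ≤ r := by linarith
  have r0 : 0 < r := by linarith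
  have hR := hc.le
  set H := m * (r / 8 / m) ^ (1 / 4 : ℝ) with hH
  have H1 : m ≤ H := by
    have : 1 ≤ (r / 8 / m) ^ (1 / 4 : ℝ) :=
      Real.one_le_rpow ((one_le_div m0).2 (by linarith)) (by norm_num)
    exact le_mul_of_one_le_right m0.le this
  have hF' : K * H ≤ |P.f (!i) x| := by
    rw [hH, ← mul_assoc]; exact hF
  set F := |P.f (!i) x| with hFd
  have K0 : 8 ≤ K := by linarith
  have H0 : 0 < H := by linarith
  have KH : 8 * H ≤ K * H := mul_le_mul_of_nonneg_right K0 H0.le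
  have KH1 : 8 * Λ₁ * H ≤ K * H := mul_le_mul_of_nonneg_right k1 H0.le
  have KH2 : 9 * C * H ≤ K * H := mul_le_mul_of_nonneg_right k2 H0.le
  have KH3 : 32 * C * H ≤ β * K * H := mul_le_mul_of_nonneg_right k3 H0.le
  have LH : Λ₁ * m ≤ Λ₁ * H := mul_le_mul_of_nonneg_left H1 (by linarith)
  have F1 : m ≤ F := by linarith
  have F0 : 0 < F := by linarith
  have hxc : ‖x - c‖ < r / 8 := by rw [← dist_eq_norm]; exact hx.2
  have hx2 : |x 2 - c 2| ≤ r / 8 := by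
    have := abs_two_le (x - c)
    rw [PiLp.sub_apply] at this
    linarith
  obtain ⟨c', e2, d1, hc'⟩ := hc.all (x 2) (by linarith)
  obtain ⟨-, d2, d3⟩ := hc.self.cc hMONO hM hν hη.le (by linarith) hc'.dens (by linarith)
    (by linarith [norm_nonneg (c' - c)])
  rw [e2] at d2 d3
  have q1 : 4 / β * b ≤ r / 16 := by
    rw [div_mul_eq_mul_div, div_le_iff₀ hβ]; linarith
  have q2 : 4 * η / β ≤ 1 / 2 := by
    rw [div_le_iff₀ hβ]; linarith
  have q3 : 4 * η / β * |x 2 - c 2| ≤ 1 / 2 * (r / 8) :=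
    mul_le_mul q2 hx2 (abs_nonneg _) (by norm_num)
  have es : ‖x - c'‖ = ‖pr (x - c')‖ := norm_eq_pr (by rw [PiLp.sub_apply, e2, sub_self])
  set s := ‖x - c'‖ with hs
  have s1 : s ≤ r / 4 := by
    have e : pr (x - c') = pr (x - c) - pr (c' - c) := by
      rw [← pr_sub]; congr 1; abel
    have := norm_sub_le (pr (x - c)) (pr (c' - c))
    have := norm_pr_le (x - c)
    rw [es, e]; linarith
  have hc2 : Core M ν η b R c' (r / 2) :=
    hc.move hMONO hM hν hη.le (by linarith) hc' d1 (by rw [e2]; linarith) (by linarith)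
  have he2 : Exc M β ν P c' (r / 2) (2 ^ 2 * m) := by
    refine he.sub hM r0 (by linarith) (ball_subset_ball' ?_) (by norm_num) (by linarith)
    rw [dist_eq_norm]; linarith
  obtain ⟨p1, p2⟩ := hP M ν b R (r / 2) (2 ^ 2 * m) c' P hM hν hc2 hcl he2 (by linarith)
    (by linarith)
  have p3 : ∀ j, |P.f j c'| ≤ 4 * C * H := fun j => by
    have := p1 j
    rw [hh, show r / 2 / (2 ^ 2 * m) = r / 8 / m by field_simp; ring] at this
    rw [hH]; linarith
  have CH : 0 < C * H := by positivity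
  have s2 : F ≤ 2 * s := by
    have := hcl.abs_f_le (!i) x c'
    have := p3 (!i)
    linarith
  have s3 : Λ₁ * (2 ^ 2 * m) ≤ s := by linarith
  have s0 : 0 < s := by linarith
  have pic := hc'.pic s (by linarith) (by linarith)
  have hxs : x ∈ M.S ∩ ball c' (4 * s) := ⟨hx.1, by rw [mem_ball, dist_eq_norm]; linarith⟩
  have u4 : η * s ≤ β / 8 * s := by gcongr
  have u5 : 0 < β * s := by positivity
  obtain ⟨j, t1, t2⟩ := pic.exists_typ hν (by linarith) hxs (by rw [← es]; linarith)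
  rw [← es] at t2
  have p4 := (p2 j x ⟨hx.1, t1⟩ s3 (by linarith) (by rw [e2, sub_self, abs_zero]; linarith)).2
  have p5 : (r / 2 / s) ^ (1 / 4 : ℝ) ≤ 2 * (r / 8 / F) ^ (1 / 4 : ℝ) := by
    refine root_le (by positivity) (by positivity) ?_
    rw [← mul_div_assoc, div_le_div_iff₀ s0 F0]
    have := mul_le_mul_of_nonneg_left s2 r0.le
    have := mul_pos r0 s0
    linarith
  have w0 : 0 ≤ (r / 8 / F) ^ (1 / 4 : ℝ) := by positivity
  have p6 : |P.f j x| ≤ 8 * C * (m * (r / 8 / F) ^ (1 / 4 : ℝ)) := by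
    have : C * (2 ^ 2 * m) * (r / 2 / s) ^ (1 / 4 : ℝ)
        ≤ C * (2 ^ 2 * m) * (2 * (r / 8 / F) ^ (1 / 4 : ℝ)) := by gcongr
    linarith
  have hj : j = i := by
    by_contra hne
    have e : j = !i := Bool.eq_not_iff.2 hne
    rw [e] at p6
    have h1 : (r / 8 / F) ^ (1 / 4 : ℝ) ≤ (r / 8 / m) ^ (1 / 4 : ℝ) := by gcongr
    have h2 : 8 * C * (m * (r / 8 / F) ^ (1 / 4 : ℝ)) ≤ 8 * C * H := by rw [hH]; gcongr
    linarith
  subst hj
  have u1 := abs_le.1 (hcl.abs_f_sub (!j) x c')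
  have u2 := abs_le.1 (p3 (!j))
  have u3 : 4 * C * H ≤ β * s / 4 := by
    have := mul_le_mul_of_nonneg_left (hF'.trans s2) hβ.le
    linarith
  refine ⟨p6.trans ?_, fun h => (pic.pos j x hxs ?_).2, fun h => (pic.neg j x hxs ?_).2⟩
  · rw [mul_assoc K]
    exact mul_le_mul_of_nonneg_right (by linarith) (by positivity)
  · rcases le_abs.1 t2 with h1 | h1 <;> linarith
  · rcases le_abs.1 t2 with h1 | h1 <;> linarith

end BCD

theorem c_bcd_of (hMONO : S_MONO) (hPW : C_PW) : C_BCD := by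
  intro β hβ
  obtain ⟨η₁, h1, H⟩ := hPW β hβ
  refine ⟨min η₁ (β / 8), by positivity, fun η hη hη' => ?_⟩
  obtain ⟨Λ₁, C, hΛ, hC, hP⟩ := H η hη (hη'.trans (min_le_left _ _))
  have a1 : 0 < 64 / β := by positivity
  have a2 : 0 < 32 * C / β := by positivity
  refine ⟨8 * Λ₁ + 64 / β, 8 * Λ₁ + 9 * C + 32 * C / β, by linarith, by linarith,
    fun M ν b R r m c P hM hν hc hcl he hb hr => ?_⟩
  set K := 8 * Λ₁ + 9 * C + 32 * C / β with hK
  have b0 := hc.self.pos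
  have m0 : 0 < m := by linarith
  have r1 : 8 * Λ₁ * m ≤ r := by nlinarith
  have r2 : 64 * m ≤ β * r := by
    have e : β * (64 / β * m) = 64 * m := by field_simp
    have : 64 / β * m ≤ r := by nlinarith
    nlinarith
  have k3 : 32 * C ≤ β * K := by
    have e : β * (32 * C / β) = 32 * C := by field_simp
    rw [hK]; nlinarith
  have r8 : 8 * m ≤ r := by nlinarith
  have hcore := fun i x hx hF => BCD.core hMONO (K := K) hβ hη (hη'.trans (min_le_right _ _)) hΛ hC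
    (by linarith) (by linarith) k3 hP hM hν hc hcl he hb r1 r2 i (x := x) hx hF
  have h0 : 0 < hh K m (r / 8) :=
    m0.trans_le (le_hh (K := K) (by linarith) m0 (by linarith)).2
  refine ⟨fun i => ?_, fun i x hx h => ?_, fun i x hx h => ?_⟩
  · have p1 := (hP M ν b R r m c P hM hν hc hcl he hb (by nlinarith)).1 i
    have r0 : 0 < r := by linarith
    have p2 : (r / m) ^ (1 / 4 : ℝ) ≤ 2 * (r / 8 / m) ^ (1 / 4 : ℝ) := by
      refine BCD.root_le (by positivity) (by positivity) ?_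
      rw [← mul_div_assoc]; gcongr; linarith
    have w0 : 0 ≤ m * (r / 8 / m) ^ (1 / 4 : ℝ) := by positivity
    have p3 : C * m * (r / m) ^ (1 / 4 : ℝ) ≤ C * m * (2 * (r / 8 / m) ^ (1 / 4 : ℝ)) := by gcongr
    rw [hh] at p1 ⊢
    have p4 : 2 * C * (m * (r / 8 / m) ^ (1 / 4 : ℝ)) ≤ K * (m * (r / 8 / m) ^ (1 / 4 : ℝ)) :=
      mul_le_mul_of_nonneg_right (by linarith) w0
    linarith
  · obtain ⟨c1, c2, -⟩ := hcore i x hx (h.trans (le_abs_self _))
    exact ⟨c1, c2 (by linarith)⟩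
  · obtain ⟨c1, -, c3⟩ := hcore i x hx (by linarith [neg_le_abs (P.f (!i) x)])
    exact ⟨c1, c3 (by linarith)⟩

end MW.CI
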