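import Pool.Agent.P.MP_064970_gt.ST

/-! Case I (section 4): definitions. The two planes are indexed by `Bool`. -/

open MeasureTheory Set Filter Topology Metric
open scoped RealInnerProductSpace ENNReal ComplexConjugate Real

noncomputable section

namespace MW.CI

/-- A pair of affine planes `⟪x, n i⟫ = c i`. -/
structure Pl where
  n : Bool → E
  c : Bool → ℝ

/-- The affine function of the plane `i`. -/
def Pl.f (P : Pl) (i : Bool) (x : E) : ℝ := ⟪x, P.n i⟫ - P.c i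

/-- The normals are unit vectors within `δ` of `ν`. -/
structure Pl.Close (P : Pl) (ν : Bool → E) (δ : ℝ) : Prop where
  unit : ∀ i, ‖P.n i‖ = 1
  close : ∀ i, ‖P.n i - ν i‖ ≤ δ

/-- The reference normals: horizontal unit vectors with angle at least `β`. -/
structure IsRef (β : ℝ) (ν : Bool → E) : Prop where
  pos : 0 < β
  le_one : β ≤ 1
  unit : ∀ i, ‖ν i‖ = 1
  hor : ∀ i, ν i 2 = 0
  ang : ⟪ν false, ν true⟫ ^ 2 ≤ 1 - β ^ 2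

/-- The checkerboard pattern of the reference cross centred at `p`, margin `ω r`. -/
def Near (M : Surf) (ν : Bool → E) (ω : ℝ) (p : E) (r : ℝ) : Prop :=
  ∀ x ∈ ball p r, ω * r < |⟪x - p, ν false⟫| → ω * r < |⟪x - p, ν true⟫| →
    (⟪x - p, ν false⟫ * ⟪x - p, ν true⟫ < 0 → x ∈ M.W) ∧
    (0 < ⟪x - p, ν false⟫ * ⟪x - p, ν true⟫ → x ∈ M.W')

/-- The checkerboard pattern of the planes `P` in `ball c r`, margin `m`. -/
def Pat (M : Surf) (P : Pl) (c : E) (r m : ℝ) : Prop :=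
  ∀ x ∈ ball c r, m < |P.f false x| → m < |P.f true x| →
    (P.f false x * P.f true x < 0 → x ∈ M.W) ∧ (0 < P.f false x * P.f true x → x ∈ M.W')

/-- `p` is a good centre for the scales in `[b, R]`. -/
structure GoodOn (M : Surf) (ν : Bool → E) (ω : ℝ) (p : E) (b R : ℝ) : Prop where
  pos : 0 < b
  dens : 3 / 2 ≤ M.Θ p b
  near : ∀ r, b ≤ r → r ≤ R → Near M ν ω p r

/-- The picture of the reference cross at `(c, s)` with accuracy `η`. -/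
structure Pic (M : Surf) (ν : Bool → E) (η : ℝ) (c : E) (s : ℝ) : Prop where
  pos : ∀ i, ∀ x ∈ M.S ∩ ball c (4 * s), η * s < ⟪x - c, ν (!i)⟫ →
    |⟪x - c, ν i⟫| ≤ η * s ∧ ‖M.N x - ν i‖ ≤ η
  neg : ∀ i, ∀ x ∈ M.S ∩ ball c (4 * s), ⟪x - c, ν (!i)⟫ < -(η * s) →
    |⟪x - c, ν i⟫| ≤ η * s ∧ ‖M.N x + ν i‖ ≤ η
  pat : ∀ x ∈ ball c (4 * s), η * s < |⟪x - c, ν false⟫| → η * s < |⟪x - c, ν true⟫| →
    (⟪x - c, ν false⟫ * ⟪x - c, ν true⟫ < 0 → x ∈ M.W) ∧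
    (0 < ⟪x - c, ν false⟫ * ⟪x - c, ν true⟫ → x ∈ M.W')
  ctr : ∀ q ∈ ball c (4 * s), ∀ ρ, η * s ≤ ρ → ρ ≤ s → 3 / 2 ≤ M.Θ q ρ → ∀ i, |⟪q - c, ν i⟫| ≤ ρ

/-- `c` is a centre of level `b`: the pictures hold at all scales in `[b, R]`. -/
structure Ctr (M : Surf) (ν : Bool → E) (η : ℝ) (c : E) (b R : ℝ) : Prop where
  pos : 0 < b
  dens : 3 / 2 ≤ M.Θ c b
  pic : ∀ s, b ≤ s → s ≤ R → Pic M ν η c s

/-- `p` is a centre and there are centres at all heights within `2 r`. -/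
structure Core (M : Surf) (ν : Bool → E) (η b R : ℝ) (p : E) (r : ℝ) : Prop where
  self : Ctr M ν η p b R
  all : ∀ t : ℝ, |t - p 2| ≤ 2 * r → ∃ c : E, c 2 = t ∧ ‖c - p‖ ≤ R ∧ Ctr M ν η c b R
  le : 5 * r ≤ R

/-- The points whose normal is close to the line of `ν i`. -/
def typ (M : Surf) (β : ℝ) (ν : Bool → E) (i : Bool) : Set E := {x | wedge (M.N x) (ν i) < β / 4}

/-- Height excess. -/
def aex (M : Surf) (β : ℝ) (ν : Bool → E) (P : Pl) (p : E) (r : ℝ) : ℝ :=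
  ∑ i, ∫ x in ball p r ∩ typ M β ν i, |P.f i x| ∂M.μ

/-- Tilt excess. -/
def tex (M : Surf) (β : ℝ) (ν : Bool → E) (P : Pl) (p : E) (r : ℝ) : ℝ :=
  ∑ i, ∫ x in ball p r ∩ typ M β ν i, wedge (M.N x) (P.n i) ^ 2 ∂M.μ

/-- Both excesses are at most the length `m`. -/
structure Exc (M : Surf) (β : ℝ) (ν : Bool → E) (P : Pl) (p : E) (r m : ℝ) : Prop where
  a : aex M β ν P p r ≤ m * r ^ 2
  t : tex M β ν P p r ≤ m * r

/-- The combined excess, a length. -/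
def psi (M : Surf) (β : ℝ) (ν : Bool → E) (K₀ : ℝ) (P : Pl) (p : E) (r : ℝ) : ℝ :=
  aex M β ν P p r / r ^ 2 + K₀ * (tex M β ν P p r / r)

/-- Two sheets in `ball p r` with slope `σ`; the rest has area at most `κ`. -/
structure Sheets (M : Surf) (ν : Bool → E) (σ κ : ℝ) (p : E) (r : ℝ) (G : Bool → Set E) :
    Prop where
  opn : ∀ i, ∃ U, IsOpen U ∧ G i = M.S ∩ U
  sub : ∀ i, G i ⊆ ball p r
  nrm : ∀ i, ∀ x ∈ G i, wedge (M.N x) (ν i) ≤ σ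
  slope : ∀ i, ∀ x ∈ G i, ∀ y ∈ G i, |⟪x - y, ν i⟫| ≤ σ * ‖x - y‖
  ht : ∀ i, ∀ x ∈ G i, |⟪x - p, ν i⟫| ≤ σ * r
  rest : M.μ (ball p r \ (G false ∪ G true)) ≤ ENNReal.ofReal κ
  cover : ∀ (i : Bool) (A : E ≃ₗᵢ[ℝ] E), ‖A e3 - ν i‖ ≤ σ →
    volume (ball (prA A p) (r / 2) \ prA A '' G i) ≤ ENNReal.ofReal κ

/-- Where the sheets, the rest and the uncovered points lie relative to the centres `Z`. -/
structure Loc (M : Surf) (ν : Bool → E) (σ : ℝ) (Z : Set E) (b L : ℝ) (p : E) (r : ℝ)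
    (G : Bool → Set E) : Prop where
  far : ∀ i, ∀ x ∈ G i, ∃ c ∈ Z, |x 2 - c 2| ≤ b ∧ L < ‖x - c‖
  rest : ∀ x ∈ M.S ∩ ball p r, x ∉ G false → x ∉ G true → ∃ c ∈ Z, ‖x - c‖ ≤ L
  unc : ∀ (i : Bool) (A : E ≃ₗᵢ[ℝ] E), ‖A e3 - ν i‖ ≤ σ → ∀ y ∈ ball (prA A p) (r / 2),
    y ∉ prA A '' G i → ∃ c ∈ Z, ‖y - prA A c‖ ≤ L

/-- A finite family of centres of level `b₀` whose heights are `b`-dense. -/
structure Net (M : Surf) (ν : Bool → E) (η b₀ R b : ℝ) (p : E) (r : ℝ) (Z : Finset E) : Prop where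
  self : p ∈ Z
  ctr : ∀ c ∈ Z, Ctr M ν η c b₀ R ∧ ‖c - p‖ ≤ 2 * r
  card : (Z.card : ℝ) * b ≤ 3 * r
  dense : ∀ t : ℝ, |t - p 2| ≤ r → ∃ c ∈ Z, |t - c 2| ≤ b

/-- The sheet of type `i` outside the balls of radius `L` about the centres. -/
def sheet (M : Surf) (β : ℝ) (ν : Bool → E) (Z : Finset E) (L : ℝ) (p : E) (r : ℝ) (i : Bool) :
    Set E :=
  {x | x ∈ M.S ∧ x ∈ ball p r ∧ x ∈ typ M β ν i ∧ ∀ c ∈ Z, L < ‖x - c‖}

/-- One sheet inside the graph of the Lipschitz function `v` over the plane `⟪x, A e3⟫ = c`. -/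
structure OneG (M : Surf) (A : E ≃ₗᵢ[ℝ] E) (c : ℝ) (G : Set E) (v : ℂ → ℝ) (σ h κ : ℝ) (p : E)
    (ρ : ℝ) : Prop where
  opn : ∃ U, IsOpen U ∧ G = M.S ∩ U
  bdd : Bornology.IsBounded G
  nrm : ∀ x ∈ G, wedge (M.N x) (A e3) ≤ σ
  lip : ∀ y z, |v y - v z| ≤ σ * ‖y - z‖
  bd : ∀ y, |v y| ≤ h
  ctr : |⟪p, A e3⟫ - c| ≤ h
  gr : ∀ x ∈ G, v (prA A x) = ⟪x, A e3⟫ - c
  cover : volume (ball (prA A p) ρ \ prA A '' G) ≤ ENNReal.ofReal κ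

/-- Two sheets as Lipschitz graphs over the planes `P`. -/
structure TwoG (M : Surf) (P : Pl) (A : Bool → E ≃ₗᵢ[ℝ] E) (G : Bool → Set E) (v : Bool → ℂ → ℝ)
    (σ h κ : ℝ) (p : E) (ρ : ℝ) : Prop where
  frame : ∀ i, A i e3 = P.n i
  one : ∀ i, OneG M (A i) (P.c i) (G i) (v i) σ h κ p ρ
  disj : Disjoint (G false) (G true)
  rest : M.μ (ball p ρ \ (G false ∪ G true)) ≤ ENNReal.ofReal κ

/-- The point of the graph of `v` over `y`. -/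
def grf (A : E ≃ₗᵢ[ℝ] E) (c : ℝ) (v : ℂ → ℝ) (y : ℂ) : E := A (pt y (v y + c))

/-- The main term of the first variation on one sheet. -/
def mainI (A : E ≃ₗᵢ[ℝ] E) (c : ℝ) (G : Set E) (v : ℂ → ℝ) (ζ : E → ℝ) : ℝ :=
  ∫ y in prA A '' G, fderiv ℝ ζ (grf A c v y) (A (pt (gradient v y) 0))

/-- Distance to the line through `o` with unit direction `e`. -/
def dax (o e x : E) : ℝ := ‖x - o - ⟪x - o, e⟫ • e‖

/-- Two sheets close to two planes through the axis `o + ℝ e`, at scale `ρ`. -/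
structure AxG (M : Surf) (o e : E) (ρ : ℝ) (A : Bool → E ≃ₗᵢ[ℝ] E) (G : Bool → Set E)
    (τ h κ δ : ℝ) : Prop where
  ax : ∀ i, A i ey = e
  meas : ∀ i, MeasurableSet (G i)
  sub : ∀ i, G i ⊆ M.S ∩ ball o (5 * ρ)
  disj : Disjoint (G false) (G true)
  inj : ∀ i, InjOn (prA (A i)) (G i)
  tilt : ∀ i, ∀ x ∈ G i, wedge (M.N x) (A i e3) ≤ τ
  tilt' : ∀ i, ∀ x ∈ G i, dax o e x * wedge (M.N x) (A i e3) ≤ h * ρ
  ht : ∀ i, ∀ x ∈ G i, |⟪x - o, A i e3⟫| ≤ h * ρ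
  rest : M.μ (ball o ρ \ (G false ∪ G true)) ≤ ENNReal.ofReal (κ * ρ ^ 2)
  restd : ∀ x ∈ M.S ∩ ball o ρ, x ∉ G false → x ∉ G true → dax o e x ≤ δ * ρ
  cover : ∀ i, volume (ball (prA (A i) o) ρ \ prA (A i) '' G i) ≤ ENNReal.ofReal (κ * ρ ^ 2)
  coverd : ∀ i, ∀ y ∈ ball (prA (A i) o) ρ, y ∉ prA (A i) '' G i →
    |(y - prA (A i) o).re| ≤ δ * ρ
  τ0 : 0 ≤ τ
  h0 : 0 ≤ h
  κ0 : 0 ≤ κ
  δ0 : 0 ≤ δ

/-- Squared distance to the vertical axis, and height. -/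
def qt (x : E) : ℝ × ℝ := (‖pr x‖ ^ 2, x 2)

/-- The same for a point of a vertical plane through the axis. -/
def qy (y : ℂ) : ℝ × ℝ := (y.re ^ 2, y.im)

/-- A test function of `(q, t)` with its partial derivatives, bounded by `L`. -/
structure Tf (g gq gt : ℝ × ℝ → ℝ) (L : ℝ) : Prop where
  der : ∀ z, HasFDerivAt g
    (gq z • ContinuousLinearMap.fst ℝ ℝ ℝ + gt z • ContinuousLinearMap.snd ℝ ℝ ℝ) z
  cq : Continuous gq
  ct : Continuous gt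
  supp : ∀ z : ℝ × ℝ, 0 ≤ z.1 → 3 / 4 ≤ z.1 + z.2 ^ 2 → g z = 0 ∧ gq z = 0 ∧ gt z = 0
  bd : ∀ z : ℝ × ℝ, 0 ≤ z.1 → |g z| ≤ L ∧ |gq z| ≤ L ∧ |gt z| ≤ L

/-- Lipschitz in the first variable, for nonnegative values. -/
def LipQ (φ : ℝ × ℝ → ℝ) (L : ℝ) : Prop :=
  ∀ q q' t : ℝ, 0 ≤ q → 0 ≤ q' → |φ (q, t) - φ (q', t)| ≤ L * |q - q'|

/-- The width `K u (r/u)^(1/4)` of the tube about the axis. -/
def hh (K u r : ℝ) : ℝ := K * u * (r / u) ^ (1 / 4 : ℝ)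

/-- Pointwise closeness to the planes `P` in `ball c r`, unit of length `u`. -/
structure Dat (M : Surf) (ν : Bool → E) (η K u : ℝ) (c : E) (r : ℝ) (P : Pl) : Prop where
  ctr : ∀ i, |P.f i c| ≤ hh K u r
  pos : ∀ i, ∀ x ∈ M.S ∩ ball c r, hh K u r ≤ P.f (!i) x →
    |P.f i x| ≤ K * u * (r / |P.f (!i) x|) ^ (1 / 4 : ℝ) ∧ ‖M.N x - ν i‖ ≤ η
  neg : ∀ i, ∀ x ∈ M.S ∩ ball c r, P.f (!i) x ≤ -hh K u r →
    |P.f i x| ≤ K * u * (r / |P.f (!i) x|) ^ (1 / 4 : ℝ) ∧ ‖M.N x + ν i‖ ≤ η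

/-- Planes for every scale in `[a, R]`. -/
structure DatOn (M : Surf) (ν : Bool → E) (η ω K u : ℝ) (c : E) (a R : ℝ) (Pf : ℝ → Pl) :
    Prop where
  dat : ∀ r, a ≤ r → r ≤ R → Dat M ν η K u c r (Pf r)
  close : ∀ r, a ≤ r → r ≤ R → (Pf r).Close ν (ω / 4)
  near : ∀ r, a ≤ r → r ≤ R → Near M ν ω c r
  drift : ∀ r r', a ≤ r → r ≤ r' → r' ≤ 2 * r → r' ≤ R → ∀ i,
    ‖(Pf r).n i - (Pf r').n i‖ ≤ K * u / r

/-- Planes with fixed normals `n` for all large scales. -/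
structure Far (M : Surf) (n : Bool → E) (β η K a : ℝ) : Prop where
  pos : 0 < β
  unit : ∀ i, ‖n i‖ = 1
  ang : ⟪n false, n true⟫ ^ 2 ≤ 1 - β ^ 2
  K1 : 1 ≤ K
  a1 : 1 ≤ a
  dat : ∀ r, a ≤ r → ∃ c : Bool → ℝ, Dat M n η K 1 0 r ⟨n, c⟩ ∧ Pat M ⟨n, c⟩ 0 r (hh K 1 r)

/-- Cross pictures at the origin, with normals close to the reference, for the scales in
`[a, b]`. -/
def GOn (M : Surf) (ν : Bool → E) (d ω a b : ℝ) : Prop :=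
  ∀ s, a ≤ s → s ≤ b → ∃ ν' : Bool → E, M.Cross 0 s d (ν' false) (ν' true) ∧
    ∀ i, ‖ν' i - ν i‖ ≤ ω / 16

/-- There is a good centre of level `b` at height `t`. -/
def Lev (M : Surf) (ν : Bool → E) (ω R t b : ℝ) : Prop :=
  ∃ p : E, p 2 = t ∧ ‖p‖ ≤ 2 * (1 + |t|) ∧ GoodOn M ν ω p b R

/-- The least common level of the heights `1 + |t| ≤ 3 r`. -/
def Bl (M : Surf) (ν : Bool → E) (ω R r : ℝ) : ℝ :=
  sInf {b : ℝ | 0 < b ∧ ∀ t : ℝ, 1 + |t| ≤ 3 * r → Lev M ν ω R t b}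

/-- The scales of the iteration at the origin. -/
def rr (θ R : ℝ) (j : ℕ) : ℝ := θ ^ j * (R / 16)

/-- The level used at step `j`. -/
def lv (M : Surf) (ν : Bool → E) (ω θ k C₁ R : ℝ) (j : ℕ) : ℝ :=
  C₁ * (2 * Bl M ν ω R (rr θ R j) + k)

/-- The iteration at the origin: planes `P j` with excess `p j` at the scale `rr θ R j`. -/
structure Run (M : Surf) (β : ℝ) (ν : Bool → E) (η ω θ k C₁ ε R : ℝ) (P : ℕ → Pl) (p : ℕ → ℝ) :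
    Prop where
  pic : ∀ (c : E) (b : ℝ), GoodOn M ν ω c b R → Ctr M ν η c (C₁ * b) R
  nonneg : ∀ j, 0 ≤ p j
  close : ∀ j, 1 ≤ rr θ R j → (P j).Close ν (ω / 8)
  exc : ∀ j, 1 ≤ rr θ R j → Exc M β ν (P j) 0 (rr θ R j) (p j)
  core : ∀ j, 1 ≤ rr θ R j → Core M ν η (lv M ν ω θ k C₁ R j) R 0 (rr θ R j)
  small : ∀ j, 1 ≤ rr θ R j → p j + lv M ν ω θ k C₁ R j ≤ ε * rr θ R j
  step : ∀ j, 1 ≤ rr θ R (j + 1) → p (j + 1) ≤ θ / 2 * p j + lv M ν ω θ k C₁ R j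
  drift : ∀ j, 1 ≤ rr θ R (j + 1) → ∀ i,
    ‖(P (j + 1)).n i - (P j).n i‖ ≤ C₁ * (p j + lv M ν ω θ k C₁ R j) / rr θ R j

end MW.CI
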