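import Pool.Agent.P.MP_064970_gt.SC

/-! Case I, row FINAL. Sketch:
eta = min(eta0's, beta/100), omega = min(omega0's, beta/100), eps' = min(1/2, eta, omega/4), d =
min(d0's, omega/2, 1), delta = d/16. cross_rescale gives Cross 0 1 d and GOn on [1,16] with nu' =
nu; GALL. For r >= a = max 2 Lam choose j with 8r (2/3)^j <= 1, R = 128 r/theta^j, so rr theta R j
= 8r; BOOT gives Pf r = P j with level m_j <= 1; Exc.mono, BCD with m = 1 gives Dat K 1 0 r. Near
from GOn (near_of_cross). drift: NRM at (0, 8r) with Exc.sub (l = 2) for Pf r'. K' = max K C,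
Dat.mono. BCL, BCF. -/

open MeasureTheory Set Filter Topology Metric
open scoped RealInnerProductSpace ENNReal ComplexConjugate Real

noncomputable section

namespace MW.CI

theorem c_final_of (hMONO : S_MONO) (hBOOT : C_BOOT) (hGALL : C_GALL) (hBCD : C_BCD) (hNRM : C_NRM) (hBCL : C_BCL) (hBCF : C_BCF) : C_FINAL := by
  intro β hβ
  obtain ⟨η₁, hη₁, hB⟩ := hBOOT β hβ
  obtain ⟨η₂, hη₂, hD⟩ := hBCD β hβ
  obtain ⟨ω₂, hω₂, hG⟩ := hGALL β hβ
  obtain ⟨C, hC, hN⟩ := hNRM β hβ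
  obtain ⟨η, hη, h1, h2, h3⟩ : ∃ η : ℝ, 0 < η ∧ η ≤ η₁ ∧ η ≤ η₂ ∧ η ≤ β / 100 :=
    ⟨min η₁ (min η₂ (β / 100)), by positivity, min_le_left _ _,
      (min_le_right _ _).trans (min_le_left _ _), (min_le_right _ _).trans (min_le_right _ _)⟩
  obtain ⟨θ, ω₁, hθ, hθ1, hω₁, hB⟩ := hB η hη h1
  obtain ⟨Λ, K, hΛ, hK, hD⟩ := hD η hη h2
  obtain ⟨ω, hω, w1, w2, w3⟩ : ∃ ω : ℝ, 0 < ω ∧ ω ≤ ω₁ ∧ ω ≤ ω₂ ∧ ω ≤ β / 100 :=
    ⟨min ω₁ (min ω₂ (β / 100)), by positivity, min_le_left _ _,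
      (min_le_right _ _).trans (min_le_left _ _), (min_le_right _ _).trans (min_le_right _ _)⟩
  obtain ⟨ε', hε', e1, e2, e3⟩ : ∃ ε' : ℝ, 0 < ε' ∧ ε' ≤ 1 / 2 ∧ ε' ≤ η ∧ ε' ≤ ω / 4 :=
    ⟨min (1 / 2) (min η (ω / 4)), by positivity, min_le_left _ _,
      (min_le_right _ _).trans (min_le_left _ _), (min_le_right _ _).trans (min_le_right _ _)⟩
  obtain ⟨d₁, hd₁, hB⟩ := hB ω hω w1 ε' hε'
  obtain ⟨d₂, hd₂, hG⟩ := hG ω hω w2
  obtain ⟨d, hd, d1, d2, d3, d4⟩ : ∃ d : ℝ, 0 < d ∧ d ≤ d₁ ∧ d ≤ d₂ ∧ d ≤ ω / 2 ∧ d ≤ 1 :=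
    ⟨min (min d₁ d₂) (min (ω / 2) 1), by positivity, (min_le_left _ _).trans (min_le_left _ _),
      (min_le_left _ _).trans (min_le_right _ _), (min_le_right _ _).trans (min_le_left _ _),
      (min_le_right _ _).trans (min_le_right _ _)⟩
  obtain ⟨ε, hε, hG⟩ := hG d hd d2
  refine ⟨d / 16, ε, by positivity, by linarith, hε, fun M ν hM hν hX hΘ => ?_⟩
  have hres : ∀ s : ℝ, 1 ≤ s → s ≤ 16 → M.Cross 0 s d (ν false) (ν true) := by
    intro s hs hs'
    refine cross_rescale hMONO hM hX (by positivity) (by linarith) (by nlinarith) ?_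
    rw [div_le_div_iff₀ hd (by positivity)]
    nlinarith
  have hX1 := hres 1 le_rfl (by norm_num)
  have hG16 : GOn M ν d ω 1 16 := fun s hs hs' =>
    ⟨ν, hres s hs hs', fun i => by rw [sub_self, norm_zero]; positivity⟩
  have hGR := hG M ν hM hν hX1 hG16 hΘ
  have hex : ∀ r : ℝ, ∃ P : Pl, max 2 Λ ≤ r → ∃ b R : ℝ, Core M ν η b R 0 (8 * r) ∧ b ≤ 1 ∧
      P.Close ν ε' ∧ Exc M β ν P 0 (8 * r) 1 := by
    intro r
    by_cases hr : max 2 Λ ≤ r
    swap
    · exact ⟨⟨ν, fun _ => 0⟩, fun h => absurd h hr⟩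
    have hr2 : 2 ≤ r := (le_max_left _ _).trans hr
    obtain ⟨j, hj⟩ := exists_pow_lt_of_lt_one (show 0 < 1 / (8 * r) by positivity)
      (show (2 / 3 : ℝ) < 1 by norm_num)
    have hj' : 8 * r * (2 / 3 : ℝ) ^ j ≤ 1 := by
      rw [lt_div_iff₀ (by positivity)] at hj
      linarith
    have hθj : 0 < θ ^ j := pow_pos hθ j
    have hθj1 : θ ^ j ≤ 1 := pow_le_one₀ hθ.le (by linarith)
    have hrr : rr θ (128 * r / θ ^ j) j = 8 * r := by
      unfold rr
      field_simp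
      norm_num
    have hR : 16 ≤ 128 * r / θ ^ j := by
      rw [le_div_iff₀ hθj]
      nlinarith
    obtain ⟨P, m, hP⟩ := hB M ν d (128 * r / θ ^ j) hM hν hd d1 hR hX1 (hGR _)
    obtain ⟨c1, c2, c3, c4⟩ := hP j (by rw [hrr]; linarith)
    rw [hrr] at c1 c3 c4
    have hm : m j ≤ 1 := by
      have : ε' * (1 + 8 * r * (2 / 3 : ℝ) ^ j) ≤ ε' * 2 := by gcongr; linarith
      linarith
    exact ⟨P j, fun _ => ⟨m j, _, c1, hm, c2, c3.mono (by linarith) hm⟩⟩
  choose Pf hPf using hex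
  have hDat : ∀ R, DatOn M ν η ω (max K C) 1 0 (max 2 Λ) R Pf := by
    intro R
    refine ⟨fun r hr _ => ?_, fun r hr _ => ?_, fun r hr _ => ?_, fun r r' hr hrr h2r _ i => ?_⟩
    · obtain ⟨b, R', c1, c2, c3, c4⟩ := hPf r hr
      have hr2 : 2 ≤ r := (le_max_left _ _).trans hr
      have hrΛ : Λ ≤ r := (le_max_right _ _).trans hr
      have := hD M ν b R' (8 * r) 1 0 (Pf r) hM hν c1 (c3.mono e2) c4 c2 (by linarith)
      have e : 8 * r / 8 = r := by ring
      rw [e] at this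
      exact this.mono (by linarith) one_pos le_rfl (by linarith)
        (by rw [mul_one, mul_one]; exact le_max_left _ _) le_rfl
    · obtain ⟨b, R', c1, c2, c3, c4⟩ := hPf r hr
      exact c3.mono e3
    · have hr2 : 2 ≤ r := (le_max_left _ _).trans hr
      obtain ⟨ν', hc, hν'⟩ := hGR r r (by linarith) le_rfl
      refine near_of_cross (ζ := 0) hc (by positivity) hω.le (fun i => (hν' i).trans (by linarith))
        (fun i => by simp) (ball_subset_ball ?_) (by nlinarith)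
      rw [le_div_iff₀ hd]
      nlinarith
    · obtain ⟨b, R', c1, c2, c3, c4⟩ := hPf r hr
      obtain ⟨b', R'', -, -, c3', c4'⟩ := hPf r' (hr.trans hrr)
      have hr2 : 2 ≤ r := (le_max_left _ _).trans hr
      have hle := c1.le
      have hpic := c1.self.pic (8 * r) (by linarith) (by linarith)
      have hsub := c4'.sub (c := 0) (r' := 8 * r) (l := 2) hM (by linarith) (by linarith)
        (ball_subset_ball (by linarith)) (by norm_num) (by linarith)
      have := (hN M ν η (8 * r) 1 0 (Pf r) hM hν hη h3 (by linarith) hpic (c3.mono e1) c4).1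
        (Pf r') _ (c3'.mono e1) hsub i
      refine this.trans ?_
      rw [div_le_div_iff₀ (by linarith) (by linarith)]
      have hCK : C ≤ max K C := le_max_right _ _
      nlinarith
  obtain ⟨n, K', a', hF⟩ := hBCL M β η ω (max K C) (max 2 Λ) ν Pf hM hν hω (by linarith)
    (hK.trans (le_max_left _ _)) (lt_of_lt_of_le two_pos (le_max_left _ _)) hDat
  exact hBCF M n (β / 2) (η + ω) K' a' hM hF (by linarith)

end MW.CI
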