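import Pool.Agent.P.MP_064970_gt.C.Defs

/-! Case I: linear algebra. -/

open MeasureTheory Set Filter Topology Metric
open scoped RealInnerProductSpace ENNReal ComplexConjugate Real

noncomputable section

namespace MW.CI

variable {β δ : ℝ} {ν : Bool → E} {a b e : E}

theorem geo_norm_sq (x : E) : ‖x‖ ^ 2 = x 0 ^ 2 + x 1 ^ 2 + x 2 ^ 2 := by
  rw [← real_inner_self_eq_norm_sq, inner_eq]; ring

theorem geo_pr_sq (x : E) : ‖pr x‖ ^ 2 = x 0 ^ 2 + x 1 ^ 2 := by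
  have h1 := geo_norm_sq x
  have h2 := norm_sq_eq x
  linarith

theorem geo_alg {a0 a1 b0 b1 x0 x1 B : ℝ} (ha : a0 ^ 2 + a1 ^ 2 = 1) (hb : b0 ^ 2 + b1 ^ 2 = 1)
    (h : (a0 * b0 + a1 * b1) ^ 2 ≤ 1 - B) :
    B / 2 * (x0 ^ 2 + x1 ^ 2) ≤ (x0 * a0 + x1 * a1) ^ 2 + (x0 * b0 + x1 * b1) ^ 2 := by
  set s := x0 * a0 + x1 * a1 with hs
  set t := x0 * b0 + x1 * b1 with ht
  set g := a0 * b0 + a1 * b1 with hg
  have hD : (a0 * b1 - a1 * b0) ^ 2 = 1 - g ^ 2 := by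
    have : (a0 * b1 - a1 * b0) ^ 2 + g ^ 2 = (a0 ^ 2 + a1 ^ 2) * (b0 ^ 2 + b1 ^ 2) := by
      rw [hg]; ring
    rw [ha, hb] at this; linarith
  have h1 : (a0 * b1 - a1 * b0) ^ 2 * (x0 ^ 2 + x1 ^ 2)
      = s ^ 2 * (b0 ^ 2 + b1 ^ 2) + t ^ 2 * (a0 ^ 2 + a1 ^ 2) - 2 * s * t * g := by
    rw [hs, ht, hg]; ring
  rw [ha, hb, hD] at h1
  have hg1 : g ^ 2 ≤ 1 := by nlinarith [sq_nonneg (a0 * b1 - a1 * b0)]
  have h2 : -(2 * s * t * g) ≤ s ^ 2 + t ^ 2 := by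
    nlinarith [sq_nonneg (s + t * g), sq_nonneg t]
  have h3 : B * (x0 ^ 2 + x1 ^ 2) ≤ (1 - g ^ 2) * (x0 ^ 2 + x1 ^ 2) :=
    mul_le_mul_of_nonneg_right (by linarith) (by positivity)
  linarith

theorem geo_gram3 (ha : ‖a‖ = 1) (hb : ‖b‖ = 1) (ha2 : a 2 = 0) (hb2 : b 2 = 0)
    (h : ⟪a, b⟫ ^ 2 ≤ 1 - β ^ 2) (x : E) :
    β ^ 2 / 2 * ‖pr x‖ ^ 2 ≤ ⟪x, a⟫ ^ 2 + ⟪x, b⟫ ^ 2 := by
  have h1 := geo_norm_sq a
  have h2 := geo_norm_sq b
  rw [ha, ha2] at h1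
  rw [hb, hb2] at h2
  rw [inner_eq, ha2, hb2] at h
  rw [geo_pr_sq, inner_eq, inner_eq, ha2, hb2]
  simpa using geo_alg (a0 := a 0) (a1 := a 1) (b0 := b 0) (b1 := b 1) (x0 := x 0) (x1 := x 1)
    (B := β ^ 2) (by linarith) (by linarith) (by simpa using h)

theorem wedge_eq_prA (A : E ≃ₗᵢ[ℝ] E) (x : E) : wedge x (A e3) = ‖prA A x‖ := by
  rw [prA, ← wedge_e3, ← wedge_map A (A.symm x) e3, A.apply_symm_apply]

theorem geo_inner (A : E ≃ₗᵢ[ℝ] E) (x y : E) : ⟪x, A y⟫ = ⟪A.symm x, y⟫ := by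
  rw [← A.inner_map_map (A.symm x) y, A.apply_symm_apply]

/-- Two normals at angle `β` control the distance to the axis. -/
theorem gram (ha : ‖a‖ = 1) (hb : ‖b‖ = 1) (he : ‖e‖ = 1) (hae : ⟪a, e⟫ = 0) (hbe : ⟪b, e⟫ = 0)
    (h : ⟪a, b⟫ ^ 2 ≤ 1 - β ^ 2) (x : E) :
    β ^ 2 / 2 * ‖x - ⟪x, e⟫ • e‖ ^ 2 ≤ ⟪x, a⟫ ^ 2 + ⟪x, b⟫ ^ 2 := by
  obtain ⟨A, rfl⟩ := exists_iso_e3 he
  have h1 : ‖x - ⟪x, A e3⟫ • A e3‖ = ‖pr (A.symm x)‖ := wedge_eq_prA A x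
  rw [geo_inner, inner_e3] at hae hbe
  have := geo_gram3 (a := A.symm a) (b := A.symm b) (β := β) (by rw [A.symm.norm_map, ha])
    (by rw [A.symm.norm_map, hb]) hae hbe (by rw [A.symm.inner_map_map]; exact h) (A.symm x)
  rwa [A.symm.inner_map_map, A.symm.inner_map_map, ← h1] at this

theorem geo_sqrt {w s t : ℝ} (hβ : 0 < β) (h : β ^ 2 / 2 * w ^ 2 ≤ s ^ 2 + t ^ 2) :
    w ≤ 2 / β * (|s| + |t|) := by
  rw [div_mul_eq_mul_div, le_div_iff₀ hβ]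
  refine (abs_le_of_sq_le_sq' ?_ (by positivity)).2
  have h1 : 0 ≤ |s| * |t| := by positivity
  nlinarith [sq_abs s, sq_abs t, sq_nonneg s, sq_nonneg t]

theorem dax_le (hβ : 0 < β) (ha : ‖a‖ = 1) (hb : ‖b‖ = 1) (he : ‖e‖ = 1) (hae : ⟪a, e⟫ = 0)
    (hbe : ⟪b, e⟫ = 0) (h : ⟪a, b⟫ ^ 2 ≤ 1 - β ^ 2) (o x : E) :
    dax o e x ≤ 2 / β * (|⟪x - o, a⟫| + |⟪x - o, b⟫|) :=
  geo_sqrt hβ (gram ha hb he hae hbe h (x - o))

theorem geo_wedge_le (he : ‖e‖ = 1) (x : E) : wedge x e ≤ ‖x‖ := by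
  refine (abs_le_of_sq_le_sq' ?_ (norm_nonneg _)).2
  rw [Coord_wedge_sq x he]
  nlinarith [sq_nonneg ⟪x, e⟫]

theorem dax_nonneg (o e x : E) : 0 ≤ dax o e x := norm_nonneg _
theorem dax_le_add (he : ‖e‖ = 1) (o x y : E) : dax o e x ≤ ‖x - y‖ + dax o e y := by
  have e1 : x - o - ⟪x - o, e⟫ • e
      = (x - y - ⟪x - y, e⟫ • e) + (y - o - ⟪y - o, e⟫ • e) := by
    simp only [inner_sub_left]; module
  unfold dax
  rw [e1]
  exact (norm_add_le _ _).trans (add_le_add (geo_wedge_le he (x - y)) le_rfl)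
theorem dax_le_norm (he : ‖e‖ = 1) (o x : E) : dax o e x ≤ ‖x - o‖ := geo_wedge_le he (x - o)
theorem dax_zero_e3 (x : E) : dax 0 e3 x = ‖pr x‖ := by
  unfold dax
  rw [sub_zero]
  exact wedge_e3 x
theorem abs_inner_le_dax (ha : ‖a‖ = 1) (hae : ⟪a, e⟫ = 0) (o x : E) :
    |⟪x - o, a⟫| ≤ dax o e x := by
  have := abs_inner_le_wedge (a := x - o) (b := e) (v := a) (by rw [real_inner_comm]; exact hae)
  rwa [ha, mul_one] at this

theorem le_wedge (hβ : 0 ≤ β) (ha : ‖a‖ = 1) (hb : ‖b‖ = 1) (h : ⟪a, b⟫ ^ 2 ≤ 1 - β ^ 2) :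
    β ≤ wedge a b := by
  refine (abs_le_of_sq_le_sq' ?_ (wedge_nonneg a b)).2
  rw [wedge_sq ha hb]; linarith

theorem le_norm_add (hβ : 0 ≤ β) (ha : ‖a‖ = 1) (hb : ‖b‖ = 1) (h : ⟪a, b⟫ ^ 2 ≤ 1 - β ^ 2) :
    β ≤ ‖a + b‖ ∧ β ≤ ‖a - b‖ := by
  have h1 := le_wedge hβ ha hb h
  refine ⟨h1.trans ?_, h1.trans (wedge_le_norm_sub hb)⟩
  have := wedge_le_norm_sub (a := a) (b := -b) (by rw [norm_neg, hb])
  rwa [wedge_neg_right, sub_neg_eq_add] at this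

theorem inner_add_self (ha : ‖a‖ = 1) (hb : ‖b‖ = 1) :
    ⟪a + b, a⟫ = ‖a + b‖ ^ 2 / 2 ∧ ⟪a + b, b⟫ = ‖a + b‖ ^ 2 / 2 ∧ ⟪a + b, a - b⟫ = 0 := by
  have h1 : ⟪a, a⟫ = 1 := by rw [real_inner_self_eq_norm_sq, ha]; norm_num
  have h2 : ⟪b, b⟫ = 1 := by rw [real_inner_self_eq_norm_sq, hb]; norm_num
  have h3 : ⟪b, a⟫ = ⟪a, b⟫ := real_inner_comm _ _
  rw [norm_add_sq_real, ha, hb]
  simp only [inner_add_left, inner_sub_right, h1, h2, h3]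
  refine ⟨by ring, by ring, by ring⟩

/-- A common unit normal of two vectors. -/
theorem exists_axis (a b : E) : ∃ e : E, ‖e‖ = 1 ∧ ⟪a, e⟫ = 0 ∧ ⟪b, e⟫ = 0 := by
  let L : E →ₗ[ℝ] ℝ × ℝ := LinearMap.prod (innerSL ℝ a).toLinearMap (innerSL ℝ b).toLinearMap
  have hk : LinearMap.ker L ≠ ⊥ := L.ker_ne_bot_of_finrank_lt (by simp)
  obtain ⟨v, hv, hv0⟩ := Submodule.exists_mem_ne_zero_of_ne_bot hk
  have h : (⟪a, v⟫, ⟪b, v⟫) = ((0, 0) : ℝ × ℝ) := hv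
  have hn : ‖v‖ ≠ 0 := norm_ne_zero_iff.2 hv0
  refine ⟨‖v‖⁻¹ • v, ?_, ?_, ?_⟩
  · rw [norm_smul, norm_inv, norm_norm, inv_mul_cancel₀ hn]
  · rw [real_inner_smul_right, (Prod.mk.inj h).1, mul_zero]
  · rw [real_inner_smul_right, (Prod.mk.inj h).2, mul_zero]

/-- A frame with given third and second vector. -/
theorem exists_frame (ha : ‖a‖ = 1) (he : ‖e‖ = 1) (h : ⟪a, e⟫ = 0) :
    ∃ A : E ≃ₗᵢ[ℝ] E, A e3 = a ∧ A ey = e := by
  obtain ⟨B, h1, h2⟩ := exists_iso_pair ha he h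
  let P : E ≃ₗᵢ[ℝ] E := LinearIsometryEquiv.piLpCongrLeft 2 ℝ ℝ (Equiv.swap (0 : Fin 3) 2)
  have p1 : P e3 = ex := by
    ext i
    fin_cases i <;> simp [P, LinearIsometryEquiv.piLpCongrLeft, e3, ex, Equiv.swap_apply_def]
  have p2 : P ey = ey := by
    ext i
    fin_cases i <;> simp [P, LinearIsometryEquiv.piLpCongrLeft, ey, Equiv.swap_apply_def]
  exact ⟨P.trans B, by simp [p1, h1], by simp [p2, h2]⟩

/-- Coordinates in a frame. -/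
theorem prA_re (A : E ≃ₗᵢ[ℝ] E) (x : E) : (prA A x).re = ⟪x, A ex⟫ := by
  rw [geo_inner, inner_ex]; rfl
theorem prA_im (A : E ≃ₗᵢ[ℝ] E) (x : E) : (prA A x).im = ⟪x, A ey⟫ := by
  rw [geo_inner, inner_ey]; rfl
theorem prA_sub (A : E ≃ₗᵢ[ℝ] E) (x y : E) : prA A (x - y) = prA A x - prA A y := by
  simp only [prA, map_sub, pr_sub]
theorem prA_add (A : E ≃ₗᵢ[ℝ] E) (x y : E) : prA A (x + y) = prA A x + prA A y := by
  simp only [prA, map_add, pr_add]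
theorem prA_smul (A : E ≃ₗᵢ[ℝ] E) (t : ℝ) (x : E) : prA A (t • x) = t • prA A x := by
  simp only [prA, map_smul, pr_smul]
theorem prA_e3 (A : E ≃ₗᵢ[ℝ] E) : prA A (A e3) = 0 := by simp [prA]
theorem norm_sq_prA (A : E ≃ₗᵢ[ℝ] E) (x : E) : ‖x‖ ^ 2 = ‖prA A x‖ ^ 2 + ⟪x, A e3⟫ ^ 2 := by
  rw [geo_inner, inner_e3, ← A.symm.norm_map x, norm_sq_eq]; rfl
theorem inner_pt_e3 (A : E ≃ₗᵢ[ℝ] E) (y : ℂ) (t : ℝ) : ⟪A (pt y t), A e3⟫ = t := by
  rw [A.inner_map_map, inner_e3, pt_two]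
theorem inner_frame : ⟪ex, ey⟫ = 0 ∧ ⟪ex, e3⟫ = 0 ∧ ⟪ey, e3⟫ = 0 ∧ ‖e3‖ = 1 := by
  refine ⟨?_, ?_, ?_, norm_e3⟩
  · rw [inner_ey]; simp [ex]
  · rw [inner_e3]; simp [ex]
  · rw [inner_e3]; simp [ey]

/-- Solving for two inner products. -/
theorem exists_solve (hβ : 0 < β) (ha : ‖a‖ = 1) (hb : ‖b‖ = 1) (h : ⟪a, b⟫ ^ 2 ≤ 1 - β ^ 2)
    (s t : ℝ) : ∃ v : E, ⟪v, a⟫ = s ∧ ⟪v, b⟫ = t ∧ ‖v‖ ≤ 2 / β * (|s| + |t|) := by
  obtain ⟨e, he, hae, hbe⟩ := exists_axis a b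
  set g := ⟪a, b⟫ with hg
  have hD : 1 - g ^ 2 ≠ 0 := by nlinarith [sq_pos_of_pos hβ]
  have h1 : ⟪a, a⟫ = 1 := by rw [real_inner_self_eq_norm_sq, ha]; norm_num
  have h2 : ⟪b, b⟫ = 1 := by rw [real_inner_self_eq_norm_sq, hb]; norm_num
  have h3 : ⟪b, a⟫ = g := real_inner_comm _ _
  set v : E := ((s - g * t) / (1 - g ^ 2)) • a + ((t - g * s) / (1 - g ^ 2)) • b with hv
  have va : ⟪v, a⟫ = s := by
    rw [hv, inner_add_left, real_inner_smul_left, real_inner_smul_left, h1, h3]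
    field_simp; ring
  have vb : ⟪v, b⟫ = t := by
    rw [hv, inner_add_left, real_inner_smul_left, real_inner_smul_left, h2, ← hg]
    field_simp; ring
  have ve : ⟪v, e⟫ = 0 := by
    rw [hv, inner_add_left, real_inner_smul_left, real_inner_smul_left, hae, hbe]; ring
  refine ⟨v, va, vb, ?_⟩
  have := gram ha hb he hae hbe h v
  rw [ve, zero_smul, sub_zero, va, vb] at this
  exact geo_sqrt hβ this

/-- The plane spanned by the graph of an affine function. -/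
theorem exists_aff (A : E ≃ₗᵢ[ℝ] E) (c l₀ : ℝ) (g y₀ : ℂ) : ∃ (n : E) (c' : ℝ), ‖n‖ = 1 ∧
    ‖n - A e3‖ ≤ ‖g‖ ∧ ∀ x : E,
      |⟪x, n⟫ - c'| ≤ |⟪x, A e3⟫ - c - (l₀ + ⟪g, prA A x - y₀⟫)| ∧
      |⟪x, n⟫ - c' - (⟪x, A e3⟫ - c)| ≤ |l₀ + ⟪g, prA A x - y₀⟫| + ‖g‖ * |⟪x, A e3⟫ - c| := by
  set W := ‖pt (-g) 1‖ with hW
  have hW2 : W ^ 2 = ‖g‖ ^ 2 + 1 := by rw [hW, norm_pt_sq, norm_neg]; norm_num
  have hW0 : 0 ≤ W := norm_nonneg _
  have hg0 := norm_nonneg g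
  have hW1 : 1 ≤ W := by nlinarith [sq_nonneg ‖g‖]
  have hWg : W ≤ 1 + ‖g‖ := by nlinarith
  have hWp : 0 < W := by linarith
  have hi : W⁻¹ ≤ 1 := inv_le_one_of_one_le₀ hW1
  have hi0 : 0 < W⁻¹ := inv_pos.2 hWp
  have hi1 : 1 - W⁻¹ ≤ ‖g‖ := by
    have : W * W⁻¹ = 1 := mul_inv_cancel₀ hWp.ne'
    nlinarith
  have hn : ‖W⁻¹ • A (pt (-g) 1)‖ = 1 := by
    rw [norm_smul, A.norm_map, ← hW, Real.norm_of_nonneg hi0.le, inv_mul_cancel₀ hWp.ne']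
  have key : ∀ x : E, ⟪x, W⁻¹ • A (pt (-g) 1)⟫ - W⁻¹ * (c + l₀ - ⟪g, y₀⟫)
      = W⁻¹ * (⟪x, A e3⟫ - c - (l₀ + ⟪g, prA A x - y₀⟫)) := by
    intro x
    rw [real_inner_smul_right, geo_inner, geo_inner, inner_pt, inner_e3, inner_neg_right,
      inner_sub_right, real_inner_comm g (pr (A.symm x))]
    simp only [prA]
    ring
  refine ⟨W⁻¹ • A (pt (-g) 1), W⁻¹ * (c + l₀ - ⟪g, y₀⟫), hn, ?_, fun x => ⟨?_, ?_⟩⟩
  · refine (abs_le_of_sq_le_sq' ?_ hg0).2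
    rw [norm_sub_sq_real, hn, A.norm_map, norm_e3, real_inner_smul_left, inner_pt_e3]
    have : W * W⁻¹ = 1 := mul_inv_cancel₀ hWp.ne'
    nlinarith [sq_nonneg (W - 1)]
  · rw [key, abs_mul, abs_of_pos hi0]
    exact mul_le_of_le_one_left (abs_nonneg _) hi
  · rw [key]
    set F := ⟪x, A e3⟫ - c
    set l := l₀ + ⟪g, prA A x - y₀⟫
    have e1 : W⁻¹ * (F - l) - F = -(W⁻¹ * l) + -((1 - W⁻¹) * F) := by ring
    rw [e1]
    refine (abs_add_le _ _).trans (add_le_add ?_ ?_)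
    · rw [abs_neg, abs_mul, abs_of_pos hi0]
      exact mul_le_of_le_one_left (abs_nonneg _) hi
    · rw [abs_neg, abs_mul, abs_of_nonneg (by linarith)]
      exact mul_le_mul_of_nonneg_right hi1 (abs_nonneg _)

theorem abs_inner_sub_le (x a b : E) : |⟪x, a⟫ - ⟪x, b⟫| ≤ ‖x‖ * ‖a - b‖ := by
  rw [← inner_sub_right]; exact abs_real_inner_le_norm _ _
theorem wedge_le_add (x : E) (hx : ‖x‖ = 1) (ha : ‖a‖ = 1) (hb : ‖b‖ = 1) :
    wedge x a ≤ wedge x b + ‖a - b‖ := by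
  have h1 := wedge_triangle hx hb ha
  have h2 := wedge_le_norm_sub (a := b) ha
  rw [norm_sub_rev] at h2
  linarith
theorem wedge_le_norm_add (x : E) (ha : ‖a‖ = 1) : wedge x a ≤ ‖x + a‖ := by
  have := wedge_le_norm_sub (a := x) (b := -a) (by rw [norm_neg, ha])
  rwa [wedge_neg_right, sub_neg_eq_add] at this
theorem le_abs_inner {σ : ℝ} (ha : ‖a‖ = 1) (hb : ‖b‖ = 1) (h : wedge a b ≤ σ) (hσ : σ ≤ 1 / 2) :
    1 / 2 ≤ |⟪a, b⟫| ∧ 1 - σ ^ 2 ≤ |⟪a, b⟫| := by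
  have h1 := wedge_sq ha hb
  have h0 := wedge_nonneg a b
  have h2 : |⟪a, b⟫| ≤ 1 := by simpa [ha, hb] using abs_real_inner_le_norm a b
  have h3 := sq_abs ⟪a, b⟫
  have h4 := abs_nonneg ⟪a, b⟫
  have h5 : wedge a b ^ 2 ≤ σ ^ 2 := by nlinarith
  have h6 : 1 - σ ^ 2 ≤ |⟪a, b⟫| := by nlinarith
  exact ⟨by nlinarith, h6⟩
theorem norm_sub_le_of_near {c : E} (ha : ‖a‖ = 1) (hb : ‖b‖ = 1) (h1 : ‖a - c‖ ≤ 1 / 2)
    (h2 : ‖b - c‖ ≤ 1 / 2) : ‖a - b‖ ≤ 2 * wedge a b := by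
  refine norm_sub_le_wedge ha hb ?_
  have h3 : ‖a - b‖ ≤ 1 := by
    have := norm_sub_le_norm_sub_add_norm_sub a c b
    rw [norm_sub_rev c b] at this
    linarith
  have h4 := norm_sub_sq_real a b
  rw [ha, hb] at h4
  nlinarith [norm_nonneg (a - b)]

namespace IsRef

theorem ang' (h : IsRef β ν) (i : Bool) : ⟪ν i, ν (!i)⟫ ^ 2 ≤ 1 - β ^ 2 := by
  cases i
  · exact h.ang
  · rw [real_inner_comm]; exact h.ang
theorem inner_e3 (h : IsRef β ν) (i : Bool) : ⟪ν i, e3⟫ = 0 := by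
  rw [MW.inner_e3, h.hor]
theorem le_wedge (h : IsRef β ν) (i : Bool) : β ≤ wedge (ν i) (ν (!i)) :=
  CI.le_wedge h.pos.le (h.unit _) (h.unit _) (h.ang' i)
/-- One of the two reference functions is large off the vertical axis. -/
theorem exists_le (h : IsRef β ν) (x : E) : ∃ i, β / 2 * ‖pr x‖ ≤ |⟪x, ν i⟫| := by
  have h1 := geo_gram3 (h.unit false) (h.unit true) (h.hor _) (h.hor _) h.ang x
  by_contra hn
  push Not at hn
  have h2 := hn false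
  have h3 := hn true
  have h4 := abs_nonneg ⟪x, ν false⟫
  have h5 := abs_nonneg ⟪x, ν true⟫
  nlinarith [sq_abs ⟪x, ν false⟫, sq_abs ⟪x, ν true⟫]
theorem norm_pr_le (h : IsRef β ν) {x : E} {m : ℝ} (hx : ∀ i, |⟪x, ν i⟫| ≤ m) :
    ‖pr x‖ ≤ 2 / β * m := by
  obtain ⟨i, hi⟩ := h.exists_le x
  have := hx i
  rw [div_mul_eq_mul_div, le_div_iff₀ h.pos]
  linarith
/-- The horizontal tangent of the plane `i`. -/
theorem exists_tan (h : IsRef β ν) (i : Bool) :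
    ∃ w : E, ‖w‖ = 1 ∧ w 2 = 0 ∧ ⟪w, ν i⟫ = 0 ∧ β ≤ ⟪w, ν (!i)⟫ := by
  set u : E := ν (!i) - ⟪ν (!i), ν i⟫ • ν i with hu
  have hw : wedge (ν (!i)) (ν i) = ‖u‖ := rfl
  have hβ : β ≤ ‖u‖ := by
    rw [← hw, wedge_comm (h.unit _) (h.unit _)]; exact h.le_wedge i
  have hp : 0 < ‖u‖ := h.pos.trans_le hβ
  have h1 : ∀ j, ⟪ν j, ν j⟫ = 1 := fun j => by
    rw [real_inner_self_eq_norm_sq, h.unit]; norm_num
  refine ⟨‖u‖⁻¹ • u, ?_, ?_, ?_, ?_⟩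
  · rw [norm_smul, norm_inv, norm_norm, inv_mul_cancel₀ hp.ne']
  · simp [hu, h.hor]
  · rw [real_inner_smul_left, hu, inner_sub_left, real_inner_smul_left, h1]; ring
  · have h2 : ⟪u, ν (!i)⟫ = ‖u‖ ^ 2 := by
      rw [← hw, wedge_sq (h.unit _) (h.unit _), hu, inner_sub_left, real_inner_smul_left, h1,
        real_inner_comm (ν (!i)) (ν i)]
      ring
    rw [real_inner_smul_left, h2, sq, ← mul_assoc, inv_mul_cancel₀ hp.ne', one_mul]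
    exact hβ
/-- A diagonal direction in each of the four sectors. -/
theorem exists_diag (h : IsRef β ν) {s t : ℝ} (hs : s = 1 ∨ s = -1) (ht : t = 1 ∨ t = -1) :
    ∃ u : E, ‖u‖ = 1 ∧ β / 2 ≤ s * ⟪u, ν false⟫ ∧ β / 2 ≤ t * ⟪u, ν true⟫ := by
  have hs2 : s ^ 2 = 1 := by rcases hs with rfl | rfl <;> norm_num
  have ht2 : t ^ 2 = 1 := by rcases ht with rfl | rfl <;> norm_num
  have ha : ‖s • ν false‖ = 1 := by
    rcases hs with rfl | rfl <;> simp [h.unit]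
  have hb : ‖t • ν true‖ = 1 := by
    rcases ht with rfl | rfl <;> simp [h.unit]
  have hab : ⟪s • ν false, t • ν true⟫ ^ 2 ≤ 1 - β ^ 2 := by
    rw [real_inner_smul_left, real_inner_smul_right, mul_pow, mul_pow, hs2, ht2, one_mul, one_mul]
    exact h.ang
  have h1 := (le_norm_add h.pos.le ha hb hab).1
  obtain ⟨h2, h3, -⟩ := inner_add_self ha hb
  set v := s • ν false + t • ν true
  have hp : 0 < ‖v‖ := h.pos.trans_le h1
  rw [real_inner_smul_right] at h2 h3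
  have e1 : ‖v‖⁻¹ * (‖v‖ ^ 2 / 2) = ‖v‖ / 2 := by field_simp
  refine ⟨‖v‖⁻¹ • v, ?_, ?_, ?_⟩
  · rw [norm_smul, norm_inv, norm_norm, inv_mul_cancel₀ hp.ne']
  · rw [real_inner_smul_left, mul_left_comm, h2, e1]; linarith
  · rw [real_inner_smul_left, mul_left_comm, h3, e1]; linarith

theorem geo_det (y z : ℂ) : |y.re * z.im - y.im * z.re| ≤ ‖y‖ * ‖z‖ := by
  refine abs_le_of_sq_le_sq ?_ (by positivity)
  rw [mul_pow, Complex.sq_norm, Complex.sq_norm, Complex.normSq_apply, Complex.normSq_apply]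
  nlinarith [sq_nonneg (y.re * z.re + y.im * z.im)]

/-- A horizontal solution for normals close to the reference. -/
theorem exists_solve (h : IsRef β ν) {n : Bool → E} (hn : ∀ i, ‖n i‖ = 1)
    (hc : ∀ i, ‖n i - ν i‖ ≤ β / 10) (g : Bool → ℝ) :
    ∃ v : E, v 2 = 0 ∧ (∀ i, ⟪v, n i⟫ = g i) ∧ ‖v‖ ≤ 2 / β * (|g false| + |g true|) := by
  have hβ := h.pos
  set D := n false 0 * n true 1 - n false 1 * n true 0 with hD
  set D0 := ν false 0 * ν true 1 - ν false 1 * ν true 0 with hD0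
  have h0 : β ≤ |D0| := by
    have h1 := geo_norm_sq (ν false)
    have h2 := geo_norm_sq (ν true)
    have h3 := h.ang
    rw [h.unit, h.hor] at h1 h2
    rw [inner_eq, h.hor, h.hor] at h3
    refine (abs_le_of_sq_le_sq' ?_ (abs_nonneg _)).2
    rw [sq_abs]
    have : D0 ^ 2 + (ν false 0 * ν true 0 + ν false 1 * ν true 1) ^ 2
        = (ν false 0 ^ 2 + ν false 1 ^ 2) * (ν true 0 ^ 2 + ν true 1 ^ 2) := by rw [hD0]; ring
    have e1 : ν false 0 ^ 2 + ν false 1 ^ 2 = 1 := by linarith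
    have e2 : ν true 0 ^ 2 + ν true 1 ^ 2 = 1 := by linarith
    rw [e1, e2] at this
    nlinarith
  have hp : ∀ i, ‖pr (n i)‖ ≤ 1 := fun i => (MW.norm_pr_le _).trans (hn i).le
  have h1 : |D - D0| ≤ β / 5 := by
    have a1 := geo_det (pr (n false - ν false)) (pr (n true))
    have a2 := geo_det (pr (ν false)) (pr (n true - ν true))
    have b1 : ‖pr (n false - ν false)‖ * ‖pr (n true)‖ ≤ β / 10 * 1 :=
      mul_le_mul ((MW.norm_pr_le _).trans (hc _)) (hp _) (norm_nonneg _) (by positivity)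
    have b2 : ‖pr (ν false)‖ * ‖pr (n true - ν true)‖ ≤ 1 * (β / 10) :=
      mul_le_mul ((MW.norm_pr_le _).trans (h.unit _).le) ((MW.norm_pr_le _).trans (hc _))
        (norm_nonneg _) (by positivity)
    simp only [pr_re, pr_im, PiLp.sub_apply] at a1 a2
    have e1 : D - D0 = ((n false 0 - ν false 0) * n true 1 - (n false 1 - ν false 1) * n true 0)
        + (ν false 0 * (n true 1 - ν true 1) - ν false 1 * (n true 0 - ν true 0)) := by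
      rw [hD, hD0]; ring
    rw [e1]
    refine (abs_add_le _ _).trans ?_
    linarith
  have h2 : β / 2 ≤ |D| := by
    have := abs_sub_abs_le_abs_sub D0 D
    rw [abs_sub_comm D0 D] at this
    linarith
  have hD' : D ≠ 0 := fun h' => by rw [h', abs_zero] at h2; linarith
  set y : ℂ := (D⁻¹ * g false) • (-Complex.I * pr (n true)) + (D⁻¹ * g true) • (Complex.I * pr (n false))
    with hy
  refine ⟨pt y 0, rfl, fun i => ?_, ?_⟩
  · rw [inner_eq]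
    cases i
    · simp [hy]; field_simp; rw [hD]; ring
    · simp [hy]; field_simp; rw [hD]; ring
  · rw [norm_pt_zero]
    have hi : |D⁻¹| ≤ 2 / β := by
      rw [abs_inv, ← inv_div]
      exact inv_anti₀ (by positivity) h2
    have t1 : ∀ (u : ℝ) (w : ℂ), ‖w‖ ≤ 1 → ‖(D⁻¹ * u) • w‖ ≤ 2 / β * |u| := fun u w hw => by
      rw [norm_smul, Real.norm_eq_abs, abs_mul]
      exact (mul_le_of_le_one_right (by positivity) hw).trans
        (mul_le_mul_of_nonneg_right hi (abs_nonneg _))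
    rw [mul_add]
    refine (norm_add_le _ _).trans (add_le_add (t1 _ _ ?_) (t1 _ _ ?_))
    · simpa using hp true
    · simpa using hp false
theorem wedge_near (h : IsRef β ν) {n : Bool → E} (hn : ∀ i, ‖n i‖ = 1)
    (hc : ∀ i, ‖n i - ν i‖ ≤ δ) (i : Bool) : β - 2 * δ ≤ wedge (n i) (n (!i)) := by
  have h1 := h.le_wedge i
  have h2 := wedge_le_add (ν i) (h.unit _) (h.unit (!i)) (hn (!i))
  have h3 := wedge_le_add (n (!i)) (hn _) (h.unit i) (hn i)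
  rw [wedge_comm (hn (!i)) (h.unit i), wedge_comm (hn (!i)) (hn i)] at h3
  have h4 := hc i
  have h5 := hc (!i)
  rw [norm_sub_rev] at h4 h5
  linarith
theorem ang_near (h : IsRef β ν) {n : Bool → E} (hn : ∀ i, ‖n i‖ = 1)
    (hc : ∀ i, ‖n i - ν i‖ ≤ β / 4) : ⟪n false, n true⟫ ^ 2 ≤ 1 - (β / 2) ^ 2 := by
  have h1 : β - 2 * (β / 4) ≤ wedge (n false) (n true) := h.wedge_near hn hc false
  have h2 := wedge_sq (hn false) (hn true)
  have hβ := h.pos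
  nlinarith
/-- A unit vector cannot be close to both reference lines. -/
theorem not_both (h : IsRef β ν) {x : E} (hx : ‖x‖ = 1) {i : Bool} {s t : ℝ}
    (h1 : wedge x (ν i) ≤ s) (h2 : wedge x (ν (!i)) ≤ t) : β ≤ s + t := by
  have h3 := h.le_wedge i
  have h4 := wedge_triangle (h.unit i) hx (h.unit (!i))
  rw [wedge_comm (h.unit i) hx] at h4
  linarith

end IsRef

theorem Pl.f_sub (P : Pl) (i : Bool) (x y : E) : P.f i x - P.f i y = ⟪x - y, P.n i⟫ := by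
  simp only [Pl.f, inner_sub_left]; ring
theorem Pl.continuous_f (P : Pl) (i : Bool) : Continuous (P.f i) := by
  unfold Pl.f; fun_prop
theorem Pl.Close.mono {P : Pl} {δ' : ℝ} (h : P.Close ν δ) (hδ : δ ≤ δ') : P.Close ν δ' :=
  ⟨h.unit, fun i => (h.close i).trans hδ⟩
theorem Pl.Close.trans {P Q : Pl} {δ' : ℝ} (h : P.Close ν δ) (hu : ∀ i, ‖Q.n i‖ = 1)
    (hQ : ∀ i, ‖Q.n i - P.n i‖ ≤ δ') : Q.Close ν (δ + δ') := by
  refine ⟨hu, fun i => ?_⟩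
  have := norm_sub_le_norm_sub_add_norm_sub (Q.n i) (P.n i) (ν i)
  linarith [h.close i, hQ i]
theorem Pl.Close.abs_f_le {P : Pl} (h : P.Close ν δ) (i : Bool) (x p : E) :
    |P.f i x| ≤ ‖x - p‖ + |P.f i p| := by
  have h1 := P.f_sub i x p
  have h2 := abs_real_inner_le_norm (x - p) (P.n i)
  rw [h.unit, mul_one, ← h1] at h2
  have := abs_sub_abs_le_abs_sub (P.f i x) (P.f i p)
  linarith
theorem Pl.Close.abs_f_sub {P : Pl} (h : P.Close ν δ) (i : Bool) (x p : E) :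
    |P.f i x - P.f i p - ⟪x - p, ν i⟫| ≤ δ * ‖x - p‖ := by
  rw [P.f_sub, mul_comm]
  exact (abs_inner_sub_le _ _ _).trans (mul_le_mul_of_nonneg_left (h.close i) (norm_nonneg _))
theorem Pl.abs_f_sub (P Q : Pl) (i : Bool) (x p : E) :
    |Q.f i x - P.f i x| ≤ ‖x - p‖ * ‖Q.n i - P.n i‖ + |Q.f i p - P.f i p| := by
  have e1 : Q.f i x - P.f i x = (⟪x - p, Q.n i⟫ - ⟪x - p, P.n i⟫) + (Q.f i p - P.f i p) := by
    rw [← P.f_sub, ← Q.f_sub]; ring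
  rw [e1]
  exact (abs_add_le _ _).trans (add_le_add (abs_inner_sub_le _ _ _) le_rfl)

end MW.CI
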