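import Pool.Agent.P.MP_064970_gt.SC

/-! Case I, row LBB. Sketch:
Limits along the ultrafilter in compact sets (IsCompact.ultrafilter_le_nhds, or Ultrafilter lim):
nu i, and for r >= a (eventually r <= Rk) the normals and the constants (|c i| = |f i 0| <= hh K 1
r). IsRef, Close, ctr, drift are closed conditions. pos/neg: second clause of CONV gives x_k -> x
with normals; f^k (!i) x_k -> f (!i) x >= 2 hh K 1 r > hh K 1 r; pass to the limit (le_of_tendsto,
ContinuousAt.rpow_const). Near: the open set {x in ball 0 r, omega r < |.|, omega r < |.|, product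
< 0} has all points eventually in W_k; clauses 7 and 8 of CONV. -/

open MeasureTheory Set Filter Topology Metric
open scoped RealInnerProductSpace ENNReal ComplexConjugate Real

noncomputable section

namespace MW.CI

namespace LBB

theorem lim {X : Type} [NormedAddCommGroup X] [ProperSpace X] (U : Ultrafilter ℕ) {f : ℕ → X}
    {C : ℝ} (h : ∀ᶠ k in (U : Filter ℕ), ‖f k‖ ≤ C) : ∃ x, Tendsto f U (𝓝 x) := by
  obtain ⟨x, -, hx⟩ := (isCompact_closedBall (0 : X) C).ultrafilter_le_nhds (U.map f)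
    (le_principal_iff.2 (h.mono fun k hk => mem_closedBall_zero_iff.2 hk))
  exact ⟨x, hx⟩

theorem lim_f {U : Filter ℕ} {Pk : ℕ → Pl} {P : Pl} {i : Bool}
    (hn : Tendsto (fun k => (Pk k).n i) U (𝓝 (P.n i)))
    (hc : Tendsto (fun k => (Pk k).c i) U (𝓝 (P.c i))) {xk : ℕ → E} {x : E}
    (hx : Tendsto xk U (𝓝 x)) : Tendsto (fun k => (Pk k).f i (xk k)) U (𝓝 (P.f i x)) :=
  (hx.inner hn).sub hc

theorem lim_bd {U : Filter ℕ} [U.NeBot] {f g : ℕ → ℝ} {s t K r : ℝ} (hf : Tendsto f U (𝓝 s))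
    (hg : Tendsto g U (𝓝 t)) (ht : t ≠ 0) (hK : 0 ≤ K) (hr : 0 ≤ r)
    (h : ∀ᶠ k in U, |f k| ≤ K * 1 * (r / |g k|) ^ (1 / 4 : ℝ)) :
    |s| ≤ 2 * K * 1 * (r / |t|) ^ (1 / 4 : ℝ) := by
  have h1 : Tendsto (fun k => K * 1 * (r / |g k|) ^ (1 / 4 : ℝ)) U
      (𝓝 (K * 1 * (r / |t|) ^ (1 / 4 : ℝ))) :=
    ((tendsto_const_nhds.div hg.abs (abs_ne_zero.2 ht)).rpow_const
      (Or.inr (by norm_num))).const_mul _
  have h2 := le_of_tendsto_of_tendsto hf.abs h1 h
  have h3 : 0 ≤ K * 1 * (r / |t|) ^ (1 / 4 : ℝ) := by positivity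
  linarith

end LBB

theorem c_lbb_of (hCONV : S_CONV) : C_LBB := by
  intro β η ω K a U Mk νk Rk Pk M hK ha h hR hM hc
  obtain ⟨-, c2, -, -, -, -, c7, c8, -⟩ := hCONV U Mk M (fun k => (h k).1) hc
  have hev : ∀ r : ℝ, ∀ᶠ k in (U : Filter ℕ), r ≤ Rk k := fun r => hR.eventually_ge_atTop r
  choose ν hν using fun i : Bool => LBB.lim U (f := fun k => νk k i) (C := 1)
    (Eventually.of_forall fun k => ((h k).2.1.unit i).le)
  have hP : ∀ r : ℝ, ∃ P : Pl, a ≤ r → ∀ i,
      Tendsto (fun k => (Pk k r).n i) U (𝓝 (P.n i)) ∧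
        Tendsto (fun k => (Pk k r).c i) U (𝓝 (P.c i)) := by
    intro r
    by_cases hr : a ≤ r
    · choose n hn using fun i : Bool => LBB.lim U (f := fun k => (Pk k r).n i) (C := 1)
        ((hev r).mono fun k hk => (((h k).2.2.close r hr hk).unit i).le)
      choose c hc using fun i : Bool => LBB.lim U (f := fun k => (Pk k r).c i) (C := hh K 1 r)
        ((hev r).mono fun k hk => by
          simpa [Pl.f] using ((h k).2.2.dat r hr hk).ctr i)
      exact ⟨⟨n, c⟩, fun _ i => ⟨hn i, hc i⟩⟩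
    · exact ⟨⟨0, 0⟩, fun h' => absurd h' hr⟩
  choose Pf hPf using hP
  have one : ∀ {f : ℕ → E} {x : E}, Tendsto f U (𝓝 x) →
      (∀ᶠ k in (U : Filter ℕ), ‖f k‖ = 1) → ‖x‖ = 1 := fun hf h1 =>
    tendsto_nhds_unique hf.norm (tendsto_const_nhds.congr' (h1.mono fun k hk => hk.symm))
  refine ⟨ν, Pf, ⟨(h 0).2.1.pos, (h 0).2.1.le_one,
    fun i => one (hν i) (Eventually.of_forall fun k => (h k).2.1.unit i), fun i => ?_, ?_⟩,
    fun R => ⟨fun r hr _ => ?_, fun r hr _ => ⟨fun i => ?_, fun i => ?_⟩, fun r hr _ => ?_,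
      fun r r' hr hrr h2 _ i => ?_⟩⟩
  · have h1 : Tendsto (fun k => νk k i 2) U (𝓝 (ν i 2)) :=
      ((EuclideanSpace.proj (2 : Fin 3)).continuous.tendsto _).comp (hν i)
    exact tendsto_nhds_unique h1
      (tendsto_const_nhds.congr fun k => ((h k).2.1.hor i).symm)
  · exact le_of_tendsto (((hν false).inner (hν true)).pow 2)
      (Eventually.of_forall fun k => (h k).2.1.ang)
  · have hr0 : 0 ≤ r := by linarith
    have h1 : 1 ≤ hh K 1 r := (le_hh hK one_pos (ha.trans hr)).2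
    have h2 : hh (2 * K) 1 r = 2 * hh K 1 r := by
      rw [hh, hh]
      ring
    have hd := (hev r).mono fun k hk => (h k).2.2.dat r hr hk
    have hf := fun i {xk : ℕ → E} {x : E} (hx : Tendsto xk U (𝓝 x)) =>
      LBB.lim_f (Pk := fun k => Pk k r) (hPf r hr i).1 (hPf r hr i).2 hx
    refine ⟨fun i => ?_, fun i x hx hi => ?_, fun i x hx hi => ?_⟩
    · have := le_of_tendsto (hf i (xk := fun _ => 0) tendsto_const_nhds).abs
        (hd.mono fun k hk => hk.ctr i)
      linarith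
    · obtain ⟨xk, a1, a2, a3⟩ := c2 x hx.1
      have a4 := a2.eventually (isOpen_ball.mem_nhds hx.2)
      have a5 := (hf (!i) a2).eventually_const_le (u := hh K 1 r) (by linarith)
      have a6 := (hd.and (a1.and (a4.and a5))).mono fun k hk =>
        hk.1.pos i (xk k) ⟨hk.2.1, hk.2.2.1⟩ hk.2.2.2
      exact ⟨LBB.lim_bd (hf i a2) (hf (!i) a2) (ne_of_gt (by linarith)) (by linarith) hr0
        (a6.mono fun k hk => hk.1),
        le_of_tendsto (a3.sub (hν i)).norm (a6.mono fun k hk => hk.2)⟩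
    · obtain ⟨xk, a1, a2, a3⟩ := c2 x hx.1
      have a4 := a2.eventually (isOpen_ball.mem_nhds hx.2)
      have a5 := (hf (!i) a2).eventually_le_const (u := -hh K 1 r) (by linarith)
      have a6 := (hd.and (a1.and (a4.and a5))).mono fun k hk =>
        hk.1.neg i (xk k) ⟨hk.2.1, hk.2.2.1⟩ hk.2.2.2
      exact ⟨LBB.lim_bd (hf i a2) (hf (!i) a2) (ne_of_lt (by linarith)) (by linarith) hr0
        (a6.mono fun k hk => hk.1),
        le_of_tendsto (a3.add (hν i)).norm (a6.mono fun k hk => hk.2)⟩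
  · exact one (hPf r hr i).1 ((hev r).mono fun k hk => ((h k).2.2.close r hr hk).unit i)
  · exact le_of_tendsto ((hPf r hr i).1.sub (hν i)).norm
      ((hev r).mono fun k hk => ((h k).2.2.close r hr hk).close i)
  · have hn := (hev r).mono fun k hk => (h k).2.2.near r hr hk
    have ci : ∀ i, Continuous fun x : E => ⟪x - 0, ν i⟫ := fun i => by fun_prop
    have ti : ∀ (x : E) i, Tendsto (fun k => ⟪x - 0, νk k i⟫) U (𝓝 ⟪x - 0, ν i⟫) :=
      fun x i => tendsto_const_nhds.inner (hν i)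
    have o1 : IsOpen (ball (0 : E) r ∩ ({x | ω * r < |⟪x - 0, ν false⟫|} ∩
        {x | ω * r < |⟪x - 0, ν true⟫|})) :=
      isOpen_ball.inter ((isOpen_lt continuous_const (ci _).abs).inter
        (isOpen_lt continuous_const (ci _).abs))
    intro x hx h1 h2
    refine ⟨fun h3 => c7 _ (o1.inter (isOpen_lt ((ci false).mul (ci true)) continuous_const))
      (by rw [hM.univ]; exact subset_univ _) (fun y hy => ?_) ⟨⟨hx, h1, h2⟩, h3⟩,
      fun h3 => c8 _ (o1.inter (isOpen_lt continuous_const ((ci false).mul (ci true))))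
      (by rw [hM.univ]; exact subset_univ _) (fun y hy => ?_) ⟨⟨hx, h1, h2⟩, h3⟩⟩
    · filter_upwards [hn, (ti y false).abs.eventually_const_lt hy.1.2.1,
        (ti y true).abs.eventually_const_lt hy.1.2.2,
        ((ti y false).mul (ti y true)).eventually_lt_const hy.2] with k b1 b2 b3 b4
      exact (b1 y hy.1.1 b2 b3).1 b4
    · filter_upwards [hn, (ti y false).abs.eventually_const_lt hy.1.2.1,
        (ti y true).abs.eventually_const_lt hy.1.2.2,
        ((ti y false).mul (ti y true)).eventually_const_lt hy.2] with k b1 b2 b3 b4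
      exact (b1 y hy.1.1 b2 b3).2 b4
  · have h1 := le_of_tendsto ((hPf r hr i).1.sub (hPf r' (hr.trans hrr) i).1).norm
      ((hev r').mono fun k hk => (h k).2.2.drift r r' hr hrr h2 hk i)
    refine h1.trans (div_le_div_of_nonneg_right (by linarith) (by linarith))

end MW.CI
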