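import Pool.Agent.P.MP_064970_gt.C.Geo

/-! Case I: monotonicity and other small facts about the definitions. -/

open MeasureTheory Set Filter Topology Metric
open scoped RealInnerProductSpace ENNReal ComplexConjugate Real

noncomputable section

namespace MW.CI

variable {M : Surf} {β η ω δ b b' R R' r r' s m m' K K' u u' : ℝ} {ν : Bool → E} {p c q x : E}
  {P : Pl} {i : Bool}

theorem Θ_mono (hmono : S_MONO) (hM : M.Mem) (p : E) (hr : 0 < r) (h : r ≤ s) :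
    M.Θ p r ≤ M.Θ p s := (hmono M p r s hr h (hM.sub _)).1

theorem GoodOn.mono (hmono : S_MONO) (hM : M.Mem) (h : GoodOn M ν ω p b R) (hb : b ≤ b')
    (hR : R' ≤ R) : GoodOn M ν ω p b' R' :=
  ⟨h.pos.trans_le hb, h.dens.trans (Θ_mono hmono hM p h.pos hb),
    fun r h1 h2 => h.near r (hb.trans h1) (h2.trans hR)⟩
theorem Ctr.mono (hmono : S_MONO) (hM : M.Mem) (h : Ctr M ν η c b R) (hb : b ≤ b') :
    Ctr M ν η c b' R :=
  ⟨h.pos.trans_le hb, h.dens.trans (Θ_mono hmono hM c h.pos hb),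
    fun s h1 h2 => h.pic s (hb.trans h1) h2⟩
theorem Core.mono (hmono : S_MONO) (hM : M.Mem) (h : Core M ν η b R p r) (hb : b ≤ b')
    (hr : r' ≤ r) : Core M ν η b' R p r' := by
  refine ⟨h.self.mono hmono hM hb, fun t ht => ?_, by linarith [h.le]⟩
  obtain ⟨c, h1, h2, h3⟩ := h.all t (by linarith)
  exact ⟨c, h1, h2, h3.mono hmono hM hb⟩
theorem Lev.mono {t : ℝ} (hmono : S_MONO) (hM : M.Mem) (h : Lev M ν ω R t b) (hb : b ≤ b') :
    Lev M ν ω R t b' := by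
  obtain ⟨p, h1, h2, h3⟩ := h
  exact ⟨p, h1, h2, h3.mono hmono hM hb le_rfl⟩

/-- A small perturbation keeps the sign. -/
theorem lem_sign {F F' a e : ℝ} (h1 : a + e < |F|) (h2 : |F' - F| ≤ e) (ha : 0 ≤ a) :
    a < |F'| ∧ 0 < F * F' := by
  obtain ⟨h3, h4⟩ := abs_le.1 h2
  have he : 0 ≤ e := (abs_nonneg _).trans h2
  rcases lt_abs.1 h1 with h | h
  · exact ⟨lt_abs.2 (Or.inl (by linarith)), mul_pos (by linarith) (by linarith)⟩
  · exact ⟨lt_abs.2 (Or.inr (by linarith)), mul_pos_of_neg_of_neg (by linarith) (by linarith)⟩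

theorem lem_prod {F F' G G' : ℝ} (h1 : 0 < F * F') (h2 : 0 < G * G') :
    (F * G < 0 → F' * G' < 0) ∧ (0 < F * G → 0 < F' * G') := by
  have h3 : 0 < (F * G) * (F' * G') := by nlinarith [mul_pos h1 h2]
  exact ⟨fun h => by nlinarith, fun h => by nlinarith⟩

/-- Moving the centre of a pattern. -/
theorem Near.shift (hν : ∀ i, ‖ν i‖ = 1) (h : Near M ν ω p r) (hr : 0 < r) (hω : 0 ≤ ω)
    (hω1 : ω ≤ 1 / 2) (hq : ‖q - p‖ ≤ ω * r) : Near M ν (4 * ω) q (r / 2) := by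
  intro x hx h1 h2
  have hx' : x ∈ ball p r := by
    rw [mem_ball_iff_norm] at hx ⊢
    have := norm_sub_le_norm_sub_add_norm_sub x q p
    nlinarith
  have key : ∀ i, 4 * ω * (r / 2) < |⟪x - q, ν i⟫| →
      ω * r < |⟪x - p, ν i⟫| ∧ 0 < ⟪x - q, ν i⟫ * ⟪x - p, ν i⟫ := fun i hi => by
    refine lem_sign (e := ω * r) (by linarith) ?_ (by positivity)
    have e1 : ⟪x - p, ν i⟫ - ⟪x - q, ν i⟫ = ⟪q - p, ν i⟫ := by
      simp only [inner_sub_left]; ring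
    have := abs_real_inner_le_norm (q - p) (ν i)
    rw [hν, mul_one] at this
    rw [e1]; linarith
  obtain ⟨a1, a2⟩ := key false h1
  obtain ⟨b1, b2⟩ := key true h2
  obtain ⟨c1, c2⟩ := h x hx' a1 b1
  obtain ⟨d1, d2⟩ := lem_prod a2 b2
  exact ⟨fun h => c1 (d1 h), fun h => c2 (d2 h)⟩

/-- A cross picture gives the pattern at points close to its axis. -/
theorem near_of_cross {ν' : Bool → E} {ρ ζ : ℝ} (h : M.Cross c ρ δ (ν' false) (ν' true))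
    (hδ : 0 ≤ δ * ρ) (hω : 0 ≤ ω) (hν : ∀ i, ‖ν' i - ν i‖ ≤ ω / 2) (hp : ∀ i, |⟪p - c, ν' i⟫| ≤ ζ)
    (hsub : ball p r ⊆ ball c (ρ / δ)) (hm : δ * ρ + ζ ≤ ω * r / 2) : Near M ν ω p r := by
  intro x hx h1 h2
  have hx' := mem_ball_iff_norm.1 hx
  have key : ∀ i, ω * r < |⟪x - p, ν i⟫| →
      δ * ρ < |⟪x - c, ν' i⟫| ∧ 0 < ⟪x - p, ν i⟫ * ⟪x - c, ν' i⟫ := fun i hi => by
    refine lem_sign (e := ω * r / 2 + ζ) (by linarith) ?_ hδ
    have e1 : ⟪x - c, ν' i⟫ - ⟪x - p, ν i⟫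
        = (⟪x - p, ν' i⟫ - ⟪x - p, ν i⟫) + ⟪p - c, ν' i⟫ := by
      simp only [inner_sub_left]; ring
    have h3 := abs_inner_sub_le (x - p) (ν' i) (ν i)
    have h4 : ‖x - p‖ * ‖ν' i - ν i‖ ≤ r * (ω / 2) :=
      mul_le_mul hx'.le (hν i) (norm_nonneg _) ((norm_nonneg _).trans hx'.le)
    rw [e1]
    refine (abs_add_le _ _).trans ?_
    linarith [hp i]
  obtain ⟨a1, a2⟩ := key false h1
  obtain ⟨b1, b2⟩ := key true h2
  obtain ⟨c1, c2⟩ := h.pat x (hsub hx) a1 b1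
  obtain ⟨d1, d2⟩ := lem_prod a2 b2
  exact ⟨fun h => c1 (d1 h), fun h => c2 (d2 h)⟩

/-- A cross picture read at another scale. -/
theorem cross_rescale {a₁ a₂ : E} {ρ ρ' δ' : ℝ} (hmono : S_MONO) (hM : M.Mem)
    (h : M.Cross c ρ δ a₁ a₂) (h0 : 0 < δ * ρ) (hδ : δ ≤ δ') (h1 : δ * ρ ≤ δ' * ρ')
    (h2 : ρ' / δ' ≤ ρ / δ) : M.Cross c ρ' δ' a₁ a₂ := by
  have hs : ball c (ρ' / δ') ⊆ ball c (ρ / δ) := ball_subset_ball h2
  refine ⟨h.unit₁, h.unit₂, fun x hx hf => ?_, fun x hx hf => ?_, fun x hx hf => ?_,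
    fun x hx hf => ?_, fun x hx f1 f2 => h.pat x (hs hx) (by linarith) (by linarith),
    fun q hq r r1 r2 ht => h.near q (hs hq) r (by linarith) (by linarith) ht,
    fun q hq f1 f2 => ?_⟩
  · obtain ⟨a, b⟩ := h.pos₁ x ⟨hx.1, hs hx.2⟩ (by linarith)
    exact ⟨by linarith, by linarith⟩
  · obtain ⟨a, b⟩ := h.neg₁ x ⟨hx.1, hs hx.2⟩ (by linarith)
    exact ⟨by linarith, by linarith⟩
  · obtain ⟨a, b⟩ := h.pos₂ x ⟨hx.1, hs hx.2⟩ (by linarith)
    exact ⟨by linarith, by linarith⟩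
  · obtain ⟨a, b⟩ := h.neg₂ x ⟨hx.1, hs hx.2⟩ (by linarith)
    exact ⟨by linarith, by linarith⟩
  · have := h.dens q (hs hq) f1 f2
    have := Θ_mono hmono hM q h0 h1
    linarith

/-- The clauses of a cross picture with the normals indexed by `Bool`. -/
theorem cross_bool {ν' : Bool → E} {ρ : ℝ} (h : M.Cross c ρ δ (ν' false) (ν' true)) (i : Bool) :
    ‖ν' i‖ = 1 ∧
    (∀ x ∈ M.S ∩ ball c (ρ / δ), δ * ρ < ⟪x - c, ν' (!i)⟫ →
      |⟪x - c, ν' i⟫| ≤ δ * ρ ∧ ‖M.N x - ν' i‖ ≤ δ) ∧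
    (∀ x ∈ M.S ∩ ball c (ρ / δ), ⟪x - c, ν' (!i)⟫ < -(δ * ρ) →
      |⟪x - c, ν' i⟫| ≤ δ * ρ ∧ ‖M.N x + ν' i‖ ≤ δ) ∧
    (∀ x ∈ ball c (ρ / δ), δ * ρ < |⟪x - c, ν' i⟫| → δ * ρ < |⟪x - c, ν' (!i)⟫| →
      (⟪x - c, ν' i⟫ * ⟪x - c, ν' (!i)⟫ < 0 → x ∈ M.W) ∧
      (0 < ⟪x - c, ν' i⟫ * ⟪x - c, ν' (!i)⟫ → x ∈ M.W')) ∧
    ∀ q ∈ ball c (ρ / δ), ∀ r, δ * ρ ≤ r → r ≤ ρ / δ → 3 / 2 ≤ M.Θ q r →
      |⟪q - c, ν' i⟫| ≤ r / 2 := by
  cases i
  · exact ⟨h.unit₁, h.pos₁, h.neg₁, h.pat, fun q hq r r1 r2 ht => (h.near q hq r r1 r2 ht).1⟩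
  · refine ⟨h.unit₂, h.pos₂, h.neg₂, fun x hx f1 f2 => ?_,
      fun q hq r r1 r2 ht => (h.near q hq r r1 r2 ht).2⟩
    rw [mul_comm]
    exact h.pat x hx f2 f1

theorem lem_cw (n : E) : Continuous fun y : E => wedge y n := by
  unfold wedge; fun_prop

theorem measurableSet_typ (M : Surf) (β : ℝ) (ν : Bool → E) (i : Bool) :
    MeasurableSet (typ M β ν i) :=
  measurableSet_lt ((lem_cw (ν i)).measurable.comp M.N_meas) measurable_const
theorem typ_open (M : Surf) (β : ℝ) (ν : Bool → E) (i : Bool) :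
    ∃ U, IsOpen U ∧ M.S ∩ typ M β ν i = M.S ∩ U := by
  have h : ContinuousOn (fun x => wedge (M.N x) (ν i)) M.S := (lem_cw (ν i)).comp_continuousOn M.N_cont
  obtain ⟨U, hU, e⟩ := continuousOn_iff'.1 h (Iio (β / 4)) isOpen_Iio
  exact ⟨U, hU, by rw [inter_comm M.S U, ← e, inter_comm]; rfl⟩
theorem not_typ (hν : IsRef β ν) (hx : x ∈ M.S) (h : wedge (M.N x) (ν (!i)) ≤ β / 2) :
    x ∉ typ M β ν i := fun ht => by
  have h1 : wedge (M.N x) (ν i) < β / 4 := ht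
  have := hν.not_both (M.N_unit x hx) (le_refl (wedge (M.N x) (ν i))) h
  linarith [hν.pos]

namespace Pic

theorem pat' (h : Pic M ν η c s) (i : Bool) (hx : x ∈ ball c (4 * s))
    (h1 : η * s < |⟪x - c, ν i⟫|) (h2 : η * s < |⟪x - c, ν (!i)⟫|) :
    (⟪x - c, ν i⟫ * ⟪x - c, ν (!i)⟫ < 0 → x ∈ M.W) ∧
    (0 < ⟪x - c, ν i⟫ * ⟪x - c, ν (!i)⟫ → x ∈ M.W') := by
  cases i
  · exact h.pat x hx h1 h2
  · rw [mul_comm]; exact h.pat x hx h2 h1
theorem wedge_le (h : Pic M ν η c s) (hν : IsRef β ν) (hx : x ∈ M.S ∩ ball c (4 * s))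
    (h1 : η * s < |⟪x - c, ν (!i)⟫|) : |⟪x - c, ν i⟫| ≤ η * s ∧ wedge (M.N x) (ν i) ≤ η := by
  rcases lt_abs.1 h1 with h2 | h2
  · obtain ⟨a, b⟩ := h.pos i x hx h2
    exact ⟨a, (wedge_le_norm_sub (hν.unit i)).trans b⟩
  · obtain ⟨a, b⟩ := h.neg i x hx (by linarith)
    exact ⟨a, (wedge_le_norm_add _ (hν.unit i)).trans b⟩
/-- A point of type `i` is close to the plane `i`. -/
theorem typ_le (h : Pic M ν η c s) (hν : IsRef β ν) (hη : η ≤ β / 2)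
    (hx : x ∈ M.S ∩ ball c (4 * s)) (ht : x ∈ typ M β ν i) : |⟪x - c, ν i⟫| ≤ η * s := by
  by_contra hn
  have h1 := (h.wedge_le (i := !i) hν hx (by simpa using hn)).2
  exact not_typ hν hx.1 (h1.trans hη) ht
/-- A point away from the axis has a type. -/
theorem exists_typ (h : Pic M ν η c s) (hν : IsRef β ν) (hη : η < β / 4)
    (hx : x ∈ M.S ∩ ball c (4 * s)) (h1 : η * s < β / 2 * ‖pr (x - c)‖) :
    ∃ i, x ∈ typ M β ν i ∧ β / 2 * ‖pr (x - c)‖ ≤ |⟪x - c, ν (!i)⟫| := by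
  obtain ⟨j, hj⟩ := hν.exists_le (x - c)
  refine ⟨!j, ?_, by simpa using hj⟩
  have h2 := (h.wedge_le (i := !j) hν hx (by simpa using h1.trans_le hj)).2
  exact h2.trans_lt hη
theorem le_of_typ (h : Pic M ν η c s) (hν : IsRef β ν) (hη : η ≤ β / 2)
    (hx : x ∈ M.S ∩ ball c (4 * s)) (ht : x ∈ typ M β ν i) (h1 : η * s < β / 2 * ‖pr (x - c)‖) :
    β / 2 * ‖pr (x - c)‖ ≤ |⟪x - c, ν (!i)⟫| := by
  obtain ⟨j, hj⟩ := hν.exists_le (x - c)
  by_cases hji : j = i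
  · subst hji
    have := h.typ_le hν hη hx ht
    linarith
  · have : j = !i := by cases i <;> cases j <;> simp_all
    rwa [this] at hj
/-- Around a point away from the plane `!i` all normals are close to `ν i` or all to `-ν i`. -/
theorem ball_nrm {ρ : ℝ} (h : Pic M ν η c s) (hν : IsRef β ν) (hη : 0 ≤ η * s) (hρ : 0 ≤ ρ)
    (hsub : closedBall x ρ ⊆ ball c (4 * s)) (h1 : η * s + ρ < |⟪x - c, ν (!i)⟫|) :
    (∀ z ∈ M.S ∩ closedBall x ρ, ‖M.N z - ν i‖ ≤ η) ∨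
      ∀ z ∈ M.S ∩ closedBall x ρ, ‖M.N z - -ν i‖ ≤ η := by
  have key : ∀ z ∈ closedBall x ρ, |⟪z - c, ν (!i)⟫ - ⟪x - c, ν (!i)⟫| ≤ ρ := fun z hz => by
    have e1 : ⟪z - c, ν (!i)⟫ - ⟪x - c, ν (!i)⟫ = ⟪z - x, ν (!i)⟫ := by
      simp only [inner_sub_left]; ring
    have := abs_real_inner_le_norm (z - x) (ν (!i))
    rw [hν.unit, mul_one] at this
    rw [e1]
    exact this.trans (mem_closedBall_iff_norm.1 hz)
  rcases lt_abs.1 h1 with h2 | h2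
  · exact Or.inl fun z hz =>
      (h.pos i z ⟨hz.1, hsub hz.2⟩ (by linarith [(abs_le.1 (key z hz.2)).1])).2
  · refine Or.inr fun z hz => ?_
    rw [sub_neg_eq_add]
    exact (h.neg i z ⟨hz.1, hsub hz.2⟩ (by linarith [(abs_le.1 (key z hz.2)).2])).2

end Pic

/-- Two centres lie on an almost vertical line. -/
theorem Ctr.cc (hmono : S_MONO) (hM : M.Mem) (hν : IsRef β ν) (hη0 : 0 ≤ η) (hη : η ≤ β / 4)
    (h : Ctr M ν η c b R) (hq : 3 / 2 ≤ M.Θ q b) (hb : b ≤ R) (hd : ‖q - c‖ ≤ 3 * R) :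
    (∀ i, |⟪q - c, ν i⟫| ≤ η * ‖q - c‖ + b) ∧ ‖q - c‖ ≤ 2 * |q 2 - c 2| + 4 / β * b ∧
      ‖pr (q - c)‖ ≤ 4 * η / β * |q 2 - c 2| + 4 / β * b := by
  have hb0 := h.pos
  have hβ := hν.pos
  have hβ1 := hν.le_one
  have hn := norm_nonneg (q - c)
  set s := max (‖q - c‖ / 3) b with hs
  have s1 : ‖q - c‖ / 3 ≤ s := le_max_left _ _
  have s2 : b ≤ s := le_max_right _ _
  have s3 : s ≤ R := max_le (by linarith) hb
  have s4 : s ≤ ‖q - c‖ + b := max_le (by linarith) (by linarith)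
  have h1 : ∀ i, |⟪q - c, ν i⟫| ≤ η * ‖q - c‖ + b := fun i => by
    have h2 := (h.pic s s2 s3).ctr q (mem_ball_iff_norm.2 (by linarith)) (max (η * s) b)
      (le_max_left _ _) (max_le (by nlinarith) s2)
      (hq.trans (Θ_mono hmono hM q hb0 (le_max_right _ _))) i
    refine h2.trans (max_le ?_ (by nlinarith))
    nlinarith
  have h2 := hν.norm_pr_le h1
  have h3 := norm_le_pr_add (q - c)
  have e2 : (q - c) 2 = q 2 - c 2 := rfl
  rw [e2] at h3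
  set D := |q 2 - c 2|
  have hD : 0 ≤ D := abs_nonneg _
  obtain ⟨w, hw⟩ : ∃ w, w = 1 / β := ⟨_, rfl⟩
  have hw0 : 0 < w := by rw [hw]; positivity
  have hw1 : η * w ≤ 1 / 4 := by rw [hw, mul_one_div, div_le_iff₀ hβ]; linarith
  have e3' : 2 / β = 2 * w := by rw [hw]; ring
  have e4 : 4 / β = 4 * w := by rw [hw]; ring
  have e5 : 4 * η / β = 4 * (η * w) := by rw [hw]; ring
  rw [e3'] at h2
  rw [e4, e5]
  have hv : 0 ≤ η * w := by positivity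
  have h4 : ‖pr (q - c)‖ ≤ 2 * (η * w) * ‖q - c‖ + 2 * (w * b) := by linarith
  have h5 : ‖q - c‖ ≤ 2 * D + 4 * w * b := by nlinarith
  refine ⟨h1, h5, ?_⟩
  have h6 : 2 * (η * w) * ‖q - c‖ ≤ 2 * (η * w) * (2 * D + 4 * w * b) :=
    mul_le_mul_of_nonneg_left h5 (by positivity)
  have h7 : (η * w) * (w * b) ≤ 1 / 4 * (w * b) := mul_le_mul_of_nonneg_right hw1 (by positivity)
  nlinarith

/-- Moving the base point of a core to another centre. -/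
theorem Core.move (hmono : S_MONO) (hM : M.Mem) (hν : IsRef β ν) (hη0 : 0 ≤ η) (hη : η ≤ β / 4)
    (h : Core M ν η b R p r) (hc : Ctr M ν η c b R) (hd : ‖c - p‖ ≤ R)
    (hh : |c 2 - p 2| + 2 * r' ≤ 2 * r) (hb : 4 * b ≤ β * r) : Core M ν η b R c r' := by
  have hb0 := hc.pos
  have hβ := hν.pos
  have hβ1 := hν.le_one
  have hle := h.le
  have ha := abs_nonneg (c 2 - p 2)
  have hr : 0 < r := by
    by_contra hn
    nlinarith
  refine ⟨hc, fun t ht => ?_, by linarith⟩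
  obtain ⟨c', h1, h2, h3⟩ := h.all t (by
    have := abs_sub_le t (c 2) (p 2)
    linarith)
  refine ⟨c', h1, ?_, h3⟩
  have h4 : ‖c' - c‖ ≤ 3 * R := by
    have := norm_sub_le_norm_sub_add_norm_sub c' p c
    rw [norm_sub_rev p c] at this
    linarith
  have h5 := (hc.cc hmono hM hν hη0 hη h3.dens (by nlinarith) h4).2.1
  rw [h1] at h5
  have h6 : 4 / β * b ≤ r := by
    rw [div_mul_eq_mul_div, div_le_iff₀ hβ]; linarith
  linarith

theorem integrableOn_f (hM : M.Mem) (P : Pl) (i : Bool) {A : Set E} (hA : Bornology.IsBounded A)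
    (hAm : MeasurableSet A) : IntegrableOn (fun x => |P.f i x|) A M.μ := by
  obtain ⟨B, hB⟩ := hA.exists_norm_le
  refine hM.bd.integrableOn hA (P.continuous_f i).abs.measurable (C := B * ‖P.n i‖ + |P.c i|)
    (fun x hx => ?_) hAm
  rw [abs_abs]
  refine (abs_sub _ _).trans (add_le_add ((abs_real_inner_le_norm _ _).trans ?_) le_rfl)
  exact mul_le_mul_of_nonneg_right (hB x hx.1) (norm_nonneg _)
theorem integrableOn_wedge (hM : M.Mem) (n : E) {A : Set E} (hA : Bornology.IsBounded A)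
    (hAm : MeasurableSet A) : IntegrableOn (fun x => wedge (M.N x) n ^ 2) A M.μ := by
  refine hM.bd.integrableOn hA (((lem_cw n).measurable.comp M.N_meas).pow_const 2)
    (C := (1 + ‖n‖ * ‖n‖) ^ 2) (fun x hx => ?_) hAm
  rw [abs_of_nonneg (sq_nonneg _)]
  refine pow_le_pow_left₀ (wedge_nonneg _ _) ?_ 2
  have h1 := M.N_unit x hx.2
  refine (norm_sub_le _ _).trans (add_le_add h1.le ?_)
  rw [norm_smul, Real.norm_eq_abs]
  refine mul_le_mul_of_nonneg_right ?_ (norm_nonneg _)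
  simpa [h1] using abs_real_inner_le_norm (M.N x) n
theorem aex_nonneg (M : Surf) (β : ℝ) (ν : Bool → E) (P : Pl) (p : E) (r : ℝ) :
    0 ≤ aex M β ν P p r :=
  Finset.sum_nonneg fun _ _ => integral_nonneg fun _ => abs_nonneg _
theorem tex_nonneg (M : Surf) (β : ℝ) (ν : Bool → E) (P : Pl) (p : E) (r : ℝ) :
    0 ≤ tex M β ν P p r :=
  Finset.sum_nonneg fun _ _ => integral_nonneg fun _ => sq_nonneg _

theorem lem_mono {g : E → ℝ} {A B : Set E} (hg : ∀ x, 0 ≤ g x) (hB : IntegrableOn g B M.μ)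
    (h : A ∩ M.S ⊆ B) : ∫ x in A, g x ∂M.μ ≤ ∫ x in B, g x ∂M.μ := by
  refine setIntegral_mono_set hB (Eventually.of_forall hg) ?_
  filter_upwards [M.ae_mem] with x hx hA using h ⟨hA, hx⟩

theorem lem_bt (M : Surf) (β : ℝ) (ν : Bool → E) (i : Bool) (p : E) (r : ℝ) :
    Bornology.IsBounded (ball p r ∩ typ M β ν i) ∧ MeasurableSet (ball p r ∩ typ M β ν i) :=
  ⟨isBounded_ball.subset inter_subset_left, measurableSet_ball.inter (measurableSet_typ M β ν i)⟩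

theorem sum_le_aex (hM : M.Mem) (P : Pl) {A : Bool → Set E}
    (h : ∀ i, A i ∩ M.S ⊆ ball p r ∩ typ M β ν i) :
    ∑ i, ∫ x in A i, |P.f i x| ∂M.μ ≤ aex M β ν P p r :=
  Finset.sum_le_sum fun i _ => lem_mono (fun _ => abs_nonneg _)
    (integrableOn_f hM P i (lem_bt M β ν i p r).1 (lem_bt M β ν i p r).2) (h i)
theorem sum_le_tex (hM : M.Mem) (P : Pl) {A : Bool → Set E}
    (h : ∀ i, A i ∩ M.S ⊆ ball p r ∩ typ M β ν i) :
    ∑ i, ∫ x in A i, wedge (M.N x) (P.n i) ^ 2 ∂M.μ ≤ tex M β ν P p r :=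
  Finset.sum_le_sum fun i _ => lem_mono (fun _ => sq_nonneg _)
    (integrableOn_wedge hM _ (lem_bt M β ν i p r).1 (lem_bt M β ν i p r).2) (h i)
theorem aex_mono (hM : M.Mem) (P : Pl) (h : ball c r' ⊆ ball p r) :
    aex M β ν P c r' ≤ aex M β ν P p r :=
  sum_le_aex hM P fun _ _ hx => ⟨h hx.1.1, hx.1.2⟩
theorem tex_mono (hM : M.Mem) (P : Pl) (h : ball c r' ⊆ ball p r) :
    tex M β ν P c r' ≤ tex M β ν P p r :=
  sum_le_tex hM P fun _ _ hx => ⟨h hx.1.1, hx.1.2⟩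
/-- One piece of type `i` is bounded by the excess. -/
theorem le_aex (hM : M.Mem) (P : Pl) {A : Set E}
    (h : A ∩ M.S ⊆ ball p r ∩ typ M β ν i) : ∫ x in A, |P.f i x| ∂M.μ ≤ aex M β ν P p r :=
  (lem_mono (fun _ => abs_nonneg _)
    (integrableOn_f hM P i (lem_bt M β ν i p r).1 (lem_bt M β ν i p r).2) h).trans
    (Finset.single_le_sum (f := fun i => ∫ x in ball p r ∩ typ M β ν i, |P.f i x| ∂M.μ)
      (fun _ _ => integral_nonneg fun _ => abs_nonneg _) (Finset.mem_univ i))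
theorem Exc.nonneg (h : Exc M β ν P p r m) (hr : 0 < r) : 0 ≤ m :=
  nonneg_of_mul_nonneg_left ((tex_nonneg M β ν P p r).trans h.t) hr
theorem Exc.mono (h : Exc M β ν P p r m) (hr : 0 ≤ r) (hm : m ≤ m') : Exc M β ν P p r m' :=
  ⟨h.a.trans (mul_le_mul_of_nonneg_right hm (sq_nonneg _)),
    h.t.trans (mul_le_mul_of_nonneg_right hm hr)⟩
theorem Exc.sub {l : ℝ} (hM : M.Mem) (h : Exc M β ν P p r m) (hr : 0 < r) (hr' : 0 < r')
    (hsub : ball c r' ⊆ ball p r) (hl : 1 ≤ l) (hrl : r ≤ l * r') :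
    Exc M β ν P c r' (l ^ 2 * m) := by
  have hm := h.nonneg hr
  refine ⟨((aex_mono hM P hsub).trans h.a).trans ?_, ((tex_mono hM P hsub).trans h.t).trans ?_⟩
  · have : r ^ 2 ≤ (l * r') ^ 2 := pow_le_pow_left₀ hr.le hrl 2
    calc m * r ^ 2 ≤ m * (l * r') ^ 2 := mul_le_mul_of_nonneg_left this hm
      _ = l ^ 2 * m * r' ^ 2 := by ring
  · have : l * r' ≤ l ^ 2 * r' := mul_le_mul_of_nonneg_right (by nlinarith) hr'.le
    calc m * r ≤ m * (l ^ 2 * r') := mul_le_mul_of_nonneg_left (hrl.trans this) hm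
      _ = l ^ 2 * m * r' := by ring
theorem psi_nonneg {K₀ : ℝ} (M : Surf) (β : ℝ) (ν : Bool → E) (P : Pl) (p : E) (hK : 0 ≤ K₀)
    (hr : 0 ≤ r) : 0 ≤ psi M β ν K₀ P p r :=
  add_nonneg (div_nonneg (aex_nonneg M β ν P p r) (sq_nonneg _))
    (mul_nonneg hK (div_nonneg (tex_nonneg M β ν P p r) hr))
theorem exc_psi {K₀ : ℝ} (M : Surf) (β : ℝ) (ν : Bool → E) (P : Pl) (p : E) (hK : 1 ≤ K₀)
    (hr : 0 < r) : Exc M β ν P p r (psi M β ν K₀ P p r) := by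
  have h1 := div_nonneg (aex_nonneg M β ν P p r) (sq_nonneg r)
  have h2 := div_nonneg (tex_nonneg M β ν P p r) hr.le
  refine ⟨(div_le_iff₀ (by positivity)).1 ?_, (div_le_iff₀ hr).1 ?_⟩
  · unfold psi; nlinarith
  · unfold psi; nlinarith
theorem Exc.psi_le {K₀ : ℝ} (h : Exc M β ν P p r m) (hK : 0 ≤ K₀) (hr : 0 < r) :
    psi M β ν K₀ P p r ≤ (1 + K₀) * m := by
  have h1 := (div_le_iff₀ (by positivity : 0 < r ^ 2)).2 h.a
  have h2 := (div_le_iff₀ hr).2 h.t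
  unfold psi
  nlinarith

theorem OneG.mono {A : E ≃ₗᵢ[ℝ] E} {c₀ σ h κ ρ ρ' : ℝ} {G : Set E} {v : ℂ → ℝ}
    (H : OneG M A c₀ G v σ h κ p ρ) (hρ : ρ' ≤ ρ) : OneG M A c₀ G v σ h κ p ρ' :=
  ⟨H.opn, H.bdd, H.nrm, H.lip, H.bd, H.ctr, H.gr,
    (measure_mono (sdiff_subset_sdiff_left (ball_subset_ball hρ))).trans H.cover⟩
theorem OneG.basic {A : E ≃ₗᵢ[ℝ] E} {c₀ σ h κ ρ : ℝ} {G : Set E} {v : ℂ → ℝ}
    (H : OneG M A c₀ G v σ h κ p ρ) : MeasurableSet G ∧ G ⊆ M.S ∧ InjOn (prA A) G ∧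
      (∀ x ∈ G, grf A c₀ v (prA A x) = x) ∧ Continuous v ∧ Continuous (grf A c₀ v) ∧
      Measurable (gradient v) ∧ 0 ≤ σ ∧ (∀ y, ‖gradient v y‖ ≤ σ) ∧ 0 ≤ h := by
  obtain ⟨U, hU, e⟩ := H.opn
  have hσ : 0 ≤ σ := by simpa using (abs_nonneg _).trans (H.lip 1 0)
  have hg : ∀ x ∈ G, grf A c₀ v (prA A x) = x := fun x hx => by
    rw [grf, H.gr x hx, sub_add_cancel, apply_pt_prA]
  have hl : LipschitzWith σ.toNNReal v := LipschitzWith.of_dist_le_mul fun y z => by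
    rw [Real.dist_eq, dist_eq_norm, Real.coe_toNNReal _ hσ]; exact H.lip y z
  have hc := hl.continuous
  refine ⟨e ▸ M.measurableSet_S.inter hU.measurableSet, e ▸ inter_subset_left,
    fun x hx y hy hxy => by rw [← hg x hx, hxy, hg y hy], hg, hc, ?_, ?_, hσ, fun y => ?_,
    (abs_nonneg _).trans (H.bd 0)⟩
  · exact A.continuous.comp (Continuous.pt' continuous_id (hc.add continuous_const))
  · exact (InnerProductSpace.toDual ℝ ℂ).symm.continuous.measurable.comp (measurable_fderiv ℝ v)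
  · rw [gradient, LinearIsometryEquiv.norm_map]
    simpa [Real.coe_toNNReal _ hσ] using norm_fderiv_le_of_lipschitz ℝ hl (x₀ := y)
theorem TwoG.mono {A : Bool → E ≃ₗᵢ[ℝ] E} {σ h κ ρ ρ' : ℝ} {G : Bool → Set E} {v : Bool → ℂ → ℝ}
    (H : TwoG M P A G v σ h κ p ρ) (hρ : ρ' ≤ ρ) : TwoG M P A G v σ h κ p ρ' :=
  ⟨H.frame, fun i => (H.one i).mono hρ, H.disj,
    (measure_mono (sdiff_subset_sdiff_left (ball_subset_ball hρ))).trans H.rest⟩

theorem hh_one (K r : ℝ) : hh K 1 r = K * r ^ (1 / 4 : ℝ) := by simp [hh]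
theorem le_hh (hK : 1 ≤ K) (hu : 0 < u) (hr : u ≤ r) : K * u ≤ hh K u r ∧ u ≤ hh K u r := by
  have h1 : 1 ≤ (r / u) ^ (1 / 4 : ℝ) := Real.one_le_rpow ((one_le_div hu).2 hr) (by norm_num)
  have h2 : K * u ≤ hh K u r := le_mul_of_one_le_right (by positivity) h1
  exact ⟨h2, (le_mul_of_one_le_left hu.le hK).trans h2⟩
theorem hh_mono (hK : 0 ≤ K) (hu' : 0 < u') (hu : u' ≤ u) (hr : 0 ≤ r) (h : K * u ≤ K' * u') :
    hh K u r ≤ hh K' u' r := by
  have hu0 : 0 < u := hu'.trans_le hu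
  refine mul_le_mul h (Real.rpow_le_rpow (by positivity) ?_ (by norm_num)) (by positivity)
    ((by positivity : 0 ≤ K * u).trans h)
  exact div_le_div_of_nonneg_left hr hu' hu
theorem hh_mono_r (hK : 0 ≤ K) (hu : 0 < u) (hr : 0 ≤ r) (h : r ≤ r') : hh K u r ≤ hh K u r' :=
  mul_le_mul_of_nonneg_left (Real.rpow_le_rpow (by positivity)
    (div_le_div_of_nonneg_right h hu.le) (by norm_num)) (by positivity)
/-- The tube is thin at large scales. -/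
theorem hh_small (K l : ℝ) {ε : ℝ} (hε : 0 < ε) (hl : 0 < l) :
    ∃ Λ : ℝ, 1 ≤ Λ ∧ ∀ u r : ℝ, 0 < u → Λ * u ≤ r → hh K u (l * r) ≤ ε * r := by
  set D := |K| * l ^ (1 / 4 : ℝ) / ε with hD
  have hD0 : 0 ≤ D := by positivity
  refine ⟨(1 + D) ^ 2, by nlinarith, fun u r hu hr => ?_⟩
  set t := r / u with ht
  have ht1 : (1 + D) ^ 2 ≤ t := (le_div_iff₀ hu).2 hr
  have ht0 : 1 ≤ t := by nlinarith
  have hr' : r = t * u := by rw [ht]; field_simp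
  have e1 : (l * r / u) ^ (1 / 4 : ℝ) = l ^ (1 / 4 : ℝ) * t ^ (1 / 4 : ℝ) := by
    rw [mul_div_assoc, Real.mul_rpow hl.le (by linarith)]
  have h1 : t ^ (1 / 4 : ℝ) ≤ √t := by
    rw [Real.sqrt_eq_rpow]
    exact Real.rpow_le_rpow_of_exponent_le ht0 (by norm_num)
  have h2 : 1 + D ≤ √t := Real.le_sqrt_of_sq_le ht1
  have h3 : √t * √t = t := Real.mul_self_sqrt (by linarith)
  have h4 : D * t ^ (1 / 4 : ℝ) ≤ t := by
    have : 0 ≤ t ^ (1 / 4 : ℝ) := by positivity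
    nlinarith
  have h5 : |K| * l ^ (1 / 4 : ℝ) = D * ε := by rw [hD]; field_simp
  have h6 : 0 ≤ u * (l ^ (1 / 4 : ℝ) * t ^ (1 / 4 : ℝ)) := by positivity
  unfold hh
  rw [e1]
  calc K * u * (l ^ (1 / 4 : ℝ) * t ^ (1 / 4 : ℝ))
      ≤ |K| * (u * (l ^ (1 / 4 : ℝ) * t ^ (1 / 4 : ℝ))) := by
        rw [mul_assoc]; exact mul_le_mul_of_nonneg_right (le_abs_self K) h6
    _ = (|K| * l ^ (1 / 4 : ℝ)) * t ^ (1 / 4 : ℝ) * u := by ring
    _ = ε * (D * t ^ (1 / 4 : ℝ)) * u := by rw [h5]; ring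
    _ ≤ ε * t * u := by gcongr
    _ = ε * r := by rw [hr']; ring
theorem Dat.mono {η' : ℝ} (h : Dat M ν η K u c r P) (hK : 0 ≤ K) (hu' : 0 < u') (hu : u' ≤ u)
    (hr : 0 ≤ r) (hK' : K * u ≤ K' * u') (hη : η ≤ η') : Dat M ν η' K' u' c r P := by
  have h1 := hh_mono hK hu' hu hr hK'
  refine ⟨fun i => (h.ctr i).trans h1, fun i x hx hf => ?_, fun i x hx hf => ?_⟩
  · obtain ⟨a, b⟩ := h.pos i x hx (h1.trans hf)
    exact ⟨a.trans (mul_le_mul_of_nonneg_right hK' (by positivity)), b.trans hη⟩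
  · obtain ⟨a, b⟩ := h.neg i x hx (by linarith)
    exact ⟨a.trans (mul_le_mul_of_nonneg_right hK' (by positivity)), b.trans hη⟩
/-- Far from the plane `!i` a point of the surface is in the tube of the plane `i`. -/
theorem Dat.le_of_far (h : Dat M ν η K u c r P) (hK : 1 ≤ K) (hu : 0 < u) (hr : u ≤ r)
    (hx : x ∈ M.S ∩ ball c r) (h1 : hh K u r ≤ |P.f (!i) x|) : |P.f i x| ≤ hh K u r := by
  have h2 := (le_hh hK hu hr).2
  have hr0 : 0 ≤ r := hu.le.trans hr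
  have h3 : |P.f i x| ≤ K * u * (r / |P.f (!i) x|) ^ (1 / 4 : ℝ) := by
    rcases le_abs.1 h1 with h4 | h4
    · exact (h.pos i x hx h4).1
    · exact (h.neg i x hx (by linarith)).1
  refine h3.trans (mul_le_mul_of_nonneg_left (Real.rpow_le_rpow (by positivity) ?_ (by norm_num))
    (by positivity))
  exact div_le_div_of_nonneg_left hr0 hu (h2.trans h1)
theorem Dat.near_plane (h : Dat M ν η K u c r P) (hK : 1 ≤ K) (hu : 0 < u) (hr : u ≤ r)
    (hx : x ∈ M.S ∩ ball c r) : ∃ i, |P.f i x| ≤ hh K u r := by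
  by_cases h1 : |P.f true x| ≤ hh K u r
  · exact ⟨true, h1⟩
  · exact ⟨false, h.le_of_far hK hu hr hx (not_le.1 h1).le⟩
theorem Pat.pat' (h : Pat M P c r m) (i : Bool) (hx : x ∈ ball c r) (h1 : m < |P.f i x|)
    (h2 : m < |P.f (!i) x|) :
    (P.f i x * P.f (!i) x < 0 → x ∈ M.W) ∧ (0 < P.f i x * P.f (!i) x → x ∈ M.W') := by
  cases i
  · exact h x hx h1 h2
  · rw [mul_comm]; exact h x hx h2 h1
theorem Far.swap {n : Bool → E} {a : ℝ} (h : Far M n β η K a) :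
    Far M.swap (fun i => cond i (-n true) (n false)) β η K a := by
  refine ⟨h.pos, fun i => ?_, ?_, h.K1, h.a1, fun r hr => ?_⟩
  · cases i <;> simp [h.unit]
  · simpa using h.ang
  obtain ⟨c, hd, hp⟩ := h.dat r hr
  have f0 : ∀ x, Pl.f ⟨fun i => cond i (-n true) (n false), fun i => cond i (-c true) (c false)⟩
      false x = Pl.f ⟨n, c⟩ false x := fun x => rfl
  have f1 : ∀ x, Pl.f ⟨fun i => cond i (-n true) (n false), fun i => cond i (-c true) (c false)⟩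
      true x = -Pl.f ⟨n, c⟩ true x := fun x => by
    simp only [Pl.f, cond_true, inner_neg_right]; ring
  have n1 : ∀ y z : E, ‖-y - z‖ = ‖y + z‖ := fun y z => by rw [← norm_neg]; congr 1; abel
  have n2 : ∀ y z : E, ‖-y + z‖ = ‖y - z‖ := fun y z => by rw [← norm_neg]; congr 1; abel
  refine ⟨fun i => cond i (-c true) (c false), ⟨fun i => ?_, fun i x hx hf => ?_,
    fun i x hx hf => ?_⟩, fun x hx h1 h2 => ?_⟩
  · cases i
    · rw [f0]; exact hd.ctr false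
    · rw [f1, abs_neg]; exact hd.ctr true
  · cases i
    · rw [Bool.not_false, f1] at hf
      rw [Bool.not_false, f0, f1, abs_neg, Surf.swap_N, cond_false, n1]
      exact hd.neg false x hx (by rw [Bool.not_false]; linarith)
    · rw [Bool.not_true, f0] at hf
      rw [Bool.not_true, f0, f1, abs_neg, Surf.swap_N, cond_true, sub_neg_eq_add, n2]
      exact hd.pos true x hx hf
  · cases i
    · rw [Bool.not_false, f1] at hf
      rw [Bool.not_false, f0, f1, abs_neg, Surf.swap_N, cond_false, n2]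
      exact hd.pos false x hx (by rw [Bool.not_false]; linarith)
    · rw [Bool.not_true, f0] at hf
      rw [Bool.not_true, f0, f1, abs_neg, Surf.swap_N, cond_true, ← sub_eq_add_neg, n1]
      exact hd.neg true x hx hf
  · rw [f0] at h1
    rw [f1, abs_neg] at h2
    obtain ⟨a, b⟩ := hp x hx h1 h2
    rw [f0, f1]
    exact ⟨fun h => b (by linarith), fun h => a (by linarith)⟩
theorem Far.sim {M' : Surf} {A : E ≃ₗᵢ[ℝ] E} {n : Bool → E} {a : ℝ} (hs : IsSim M M' A 1 0)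
    (h : Far M n β η K a) : Far M' (fun i => A (n i)) β η K a := by
  refine ⟨h.pos, fun i => by rw [A.norm_map, h.unit], by rw [A.inner_map_map]; exact h.ang,
    h.K1, h.a1, fun r hr => ?_⟩
  obtain ⟨c, hd, hp⟩ := h.dat r hr
  have e : ∀ x, simMap A 1 0 x = A x := fun x => by simp [simMap]
  have f : ∀ i x, Pl.f ⟨fun i => A (n i), c⟩ i (A x) = Pl.f ⟨n, c⟩ i x := fun i x => by
    simp only [Pl.f, A.inner_map_map]
  have hb : ∀ x, A x ∈ ball (0 : E) r ↔ x ∈ ball (0 : E) r := fun x => by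
    rw [mem_ball_zero_iff, mem_ball_zero_iff, A.norm_map]
  have hS : ∀ x, A x ∈ M'.S ↔ x ∈ M.S := fun x => by rw [← e]; exact hs.S x
  have hW : ∀ x, A x ∈ M'.W ↔ x ∈ M.W := fun x => by rw [← e]; exact hs.W x
  have hW' : ∀ x, A x ∈ M'.W' ↔ x ∈ M.W' := fun x => by rw [← e]; exact hs.W' x
  have hN : ∀ x, M'.N (A x) = A (M.N x) := fun x => by rw [← hs.N x, e]
  refine ⟨c, ⟨fun i => ?_, fun i y hy hf => ?_, fun i y hy hf => ?_⟩, fun y hy h1 h2 => ?_⟩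
  · rw [← map_zero A, f]; exact hd.ctr i
  · obtain ⟨x, rfl⟩ := A.surjective y
    rw [f] at hf
    rw [f, f, hN, ← map_sub, A.norm_map]
    exact hd.pos i x ⟨(hS x).1 hy.1, (hb x).1 hy.2⟩ hf
  · obtain ⟨x, rfl⟩ := A.surjective y
    rw [f] at hf
    rw [f, f, hN, ← map_add, A.norm_map]
    exact hd.neg i x ⟨(hS x).1 hy.1, (hb x).1 hy.2⟩ hf
  · obtain ⟨x, rfl⟩ := A.surjective y
    rw [f] at h1 h2
    rw [f, f, hW, hW']
    exact hp x ((hb x).1 hy) h1 h2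

theorem rr_pos {θ : ℝ} (hθ : 0 < θ) (hR : 0 < R) (j : ℕ) : 0 < rr θ R j := by
  unfold rr; positivity
theorem rr_succ (θ R : ℝ) (j : ℕ) : rr θ R (j + 1) = θ * rr θ R j := by
  unfold rr; ring
theorem rr_anti {θ : ℝ} (hθ : 0 < θ) (hθ1 : θ ≤ 1) (hR : 0 ≤ R) {j l : ℕ} (h : j ≤ l) :
    rr θ R l ≤ rr θ R j :=
  mul_le_mul_of_nonneg_right (pow_le_pow_of_le_one hθ.le hθ1 h) (by positivity)
theorem exists_last {θ : ℝ} (hθ : 0 < θ) (hθ1 : θ < 1) (hR : 16 ≤ R) :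
    ∃ J : ℕ, 1 ≤ rr θ R J ∧ rr θ R (J + 1) < 1 ∧ ∀ j, 1 ≤ rr θ R j ↔ j ≤ J := by
  classical
  have hR0 : 0 < R / 16 := by linarith
  have hex : ∃ n : ℕ, rr θ R (n + 1) < 1 := by
    obtain ⟨n, hn⟩ := exists_pow_lt_of_lt_one (inv_pos.2 hR0) hθ1
    refine ⟨n, (rr_anti hθ hθ1.le (by linarith) n.le_succ).trans_lt ?_⟩
    unfold rr
    rwa [← lt_div_iff₀ hR0, one_div]
  have h1 : 1 ≤ rr θ R (Nat.find hex) := by
    rcases h : Nat.find hex with _ | n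
    · unfold rr; rw [pow_zero]; linarith
    · exact not_lt.1 (Nat.find_min hex (by rw [h]; exact n.lt_succ_self))
  refine ⟨Nat.find hex, h1, Nat.find_spec hex, fun j => ⟨fun hj => ?_, fun hj => ?_⟩⟩
  · by_contra hn
    have := rr_anti hθ hθ1.le (by linarith : 0 ≤ R) (Nat.succ_le_of_lt (not_le.1 hn))
    linarith [Nat.find_spec hex]
  · exact h1.trans (rr_anti hθ hθ1.le (by linarith) hj)

end MW.CI
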