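import Pool.Agent.P.MP_064970_gt.SC

/-! Case I, row PTN. Sketch:
H = hh K u r >= u. For signs s,t the set {x in ball c r, s f false x > H, t f true x > H} is
convex and misses S (Dat.le_of_far). It contains z = c + (r/2) u with u from IsRef.exists_diag
(Pl.Close.abs_f_sub, Dat.ctr: s f z >= beta r/4 - beta r/20 - H > H), and Near gives the side of
z. Surf.subset_W, subset_W'. -/

open MeasureTheory Set Filter Topology Metric
open scoped RealInnerProductSpace ENNReal ComplexConjugate Real

noncomputable section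

namespace MW.CI

namespace PTN

theorem convex_half (P : Pl) (i : Bool) (s H : ℝ) : Convex ℝ {x : E | H < s * P.f i x} := by
  intro x hx y hy a b ha hb hab
  have e : s * P.f i (a • x + b • y) = a * (s * P.f i x) + b * (s * P.f i y) := by
    unfold Pl.f
    rw [inner_add_left, real_inner_smul_left, real_inner_smul_left]
    linear_combination (s * P.c i) * hab
  have hx' : H < s * P.f i x := hx
  have hy' : H < s * P.f i y := hy
  change H < s * P.f i (a • x + b • y)
  rw [e]
  rcases ha.eq_or_lt with rfl | ha'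
  · rw [zero_add] at hab
    rw [hab]
    linarith
  · have h1 := mul_lt_mul_of_pos_left hx' ha'
    have h2 := mul_le_mul_of_nonneg_left hy'.le hb
    have h3 : a * H + b * H = H := by rw [← add_mul, hab, one_mul]
    linarith

theorem le_abs {s : ℝ} (hs : s = 1 ∨ s = -1) (a : ℝ) : s * a ≤ |a| := by
  rcases hs with rfl | rfl
  · rw [one_mul]
    exact le_abs_self a
  · rw [neg_one_mul]
    exact neg_le_abs a

theorem exists_sign (a : ℝ) : ∃ s : ℝ, (s = 1 ∨ s = -1) ∧ s * a = |a| := by
  rcases le_total 0 a with h | h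
  · exact ⟨1, Or.inl rfl, by rw [one_mul, abs_of_nonneg h]⟩
  · exact ⟨-1, Or.inr rfl, by rw [neg_one_mul, abs_of_nonpos h]⟩

theorem same {s t a b a' b' : ℝ} (hs : s = 1 ∨ s = -1) (ht : t = 1 ∨ t = -1) (h1 : 0 < s * a)
    (h2 : 0 < t * b) (h3 : 0 < s * a') (h4 : 0 < t * b') :
    (a * b < 0 → a' * b' < 0) ∧ (0 < a * b → 0 < a' * b') := by
  have h5 := mul_pos h1 h2
  have h6 := mul_pos h3 h4
  rcases hs with rfl | rfl <;> rcases ht with rfl | rfl <;> constructor <;> intro h <;> nlinarith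

end PTN

open PTN in
theorem c_ptn_of : C_PTN := by
  intro M β η ω K u r ν c P hM hν hω hP hK hu hur hH hD hN x hx h1 h2
  have hβ := hν.pos
  have hr : 0 < r := hu.trans_le hur
  have hH0 : 0 < hh K u r := hu.trans_le (le_hh hK hu hur).2
  have hβr : 0 < β * r := mul_pos hβ hr
  obtain ⟨s, hs, hs'⟩ := exists_sign (P.f false x)
  obtain ⟨t, ht, ht'⟩ := exists_sign (P.f true x)
  obtain ⟨w, hw, hw1, hw2⟩ := hν.exists_diag hs ht
  set T : Set E := ball c r ∩ ({x : E | hh K u r < s * P.f false x} ∩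
    {x : E | hh K u r < t * P.f true x}) with hT
  have hconv : Convex ℝ T :=
    (convex_ball c r).inter ((convex_half P false s _).inter (convex_half P true t _))
  have hdis : Disjoint T M.S := by
    refine disjoint_left.2 fun y hy hyS => ?_
    have a1 : hh K u r < s * P.f false y := hy.2.1
    have a2 : hh K u r < t * P.f true y := hy.2.2
    have a3 := hD.le_of_far (i := false) hK hu hur ⟨hyS, hy.1⟩ (a2.le.trans (le_abs ht _))
    exact absurd (a1.trans_le ((le_abs hs _).trans a3)) (lt_irrefl _)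
  have hxT : x ∈ T := ⟨hx, by rwa [mem_ofPred_eq, hs'], by rwa [mem_ofPred_eq, ht']⟩
  set z : E := c + (r / 2) • w with hz
  have e1 : z - c = (r / 2) • w := by rw [hz, add_sub_cancel_left]
  have e2 : ‖z - c‖ = r / 2 := by
    rw [e1, norm_smul, hw, mul_one, Real.norm_eq_abs, abs_of_pos (half_pos hr)]
  have e3 : ∀ i, ⟪z - c, ν i⟫ = r / 2 * ⟪w, ν i⟫ := fun i => by rw [e1, real_inner_smul_left]
  have hzb : z ∈ ball c r := by
    rw [mem_ball, dist_eq_norm, e2]
    exact half_lt_self hr
  have key : ∀ (i : Bool) (a : ℝ), (a = 1 ∨ a = -1) → β / 2 ≤ a * ⟪w, ν i⟫ →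
      β * r / 4 ≤ a * ⟪z - c, ν i⟫ ∧ hh K u r < a * P.f i z := by
    intro i a ha hai
    have b1 : β * r / 4 ≤ a * ⟪z - c, ν i⟫ := by
      rw [e3]
      nlinarith
    refine ⟨b1, ?_⟩
    have b2 := hP.abs_f_sub i z c
    rw [e2] at b2
    have b3 := abs_le.1 b2
    have b4 := abs_le.1 (hD.ctr i)
    rcases ha with rfl | rfl <;> linarith [b3.1, b3.2, b4.1, b4.2]
  obtain ⟨k1, k2⟩ := key false s hs hw1
  obtain ⟨k3, k4⟩ := key true t ht hw2
  have hzT : z ∈ T := ⟨hzb, k2, k4⟩
  have hωr : ω * r ≤ β / 10 * r := mul_le_mul_of_nonneg_right hω hr.le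
  obtain ⟨n1, n2⟩ := hN z hzb (by linarith [le_abs hs ⟪z - c, ν false⟫])
    (by linarith [le_abs ht ⟪z - c, ν true⟫])
  obtain ⟨m1, m2⟩ := same (a := P.f false x) (b := P.f true x) (a' := ⟪z - c, ν false⟫)
    (b' := ⟪z - c, ν true⟫) hs ht (by linarith) (by linarith) (by linarith) (by linarith)
  exact ⟨fun h => M.subset_W hconv.isPreconnected (hM.sub T) hdis hzT (n1 (m1 h)) hxT,
    fun h => M.subset_W' hconv.isPreconnected (hM.sub T) hdis hzT (n2 (m2 h)) hxT⟩

end MW.CI
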