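import Pool.Agent.P.MP_064970_gt.SC

/-! Case I, row SHEET. Sketch:
D = image (open, GRAPH), Gam = grf A c v, a' = prA A a, a3 = <a,A e3>, g = gradient v y. H(y) = a3
Dz(Gam y)(A(pt g 0)) + Dz(Gam y)(A(pt a' <g,a'>)). (1) On D the second term is lineDeriv (z o Gam)
y a'. z o Gam is 2L-Lipschitz, vanishes near every point off the compact set prA A '' tsupport z
inside ball (prA A p) rho; LipschitzWith.integral_lineDeriv_mul_eq (with the constant 1) gives
integral 0 over the plane; off D the line derivative is bounded by 2L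
(norm_lineDeriv_le_of_lipschitz) on a set of area <= kappa. (2) ARG: int_D H = int_G H(prA x)|n3|,
n3 = <N,A e3>. (3) Pointwise on G, with prA A N = -n3 g, 1 - n3^2 = wedge^2, |n3| >= 1/2, |g| <= 2
wedge <= 1: writing Dz in the frame as (D', D3), F - H = (1-n3^2)(D3 a3 - a3 D'.g - D3 g.a') -
n3^2 (g.a')(D'.g); |F - H |n3|| <= C wedge^2 |Dz|. OneG.basic has the measurability facts. -/

open MeasureTheory Set Filter Topology Metric
open scoped RealInnerProductSpace ENNReal ComplexConjugate Real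

noncomputable section

namespace MW.CI

namespace SHEET

theorem real_bd {P Q D3 s a n d γ : ℝ} (hγ0 : 0 ≤ γ) (hγ : γ ≤ 1) (hP : |P| ≤ d)
    (hQ : |Q| ≤ d * γ) (hD : |D3| ≤ d) (hs : |s| ≤ γ) (ha : |a| ≤ 1) (hn : |n| ≤ 1)
    (hW : n ^ 2 * γ ^ 2 = 1 - n ^ 2) :
    |P + a * D3 - (-n * s + n * a) * (-n * Q + n * D3) - (a * Q + (P + s * D3)) * (|n|)|
      ≤ 7 * ((1 - n ^ 2) * d) := by
  have hd : 0 ≤ d := (abs_nonneg _).trans hP
  have hn0 := abs_nonneg n
  have hn2 : |n| ^ 2 = n ^ 2 := sq_abs n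
  have hW0 : 0 ≤ 1 - n ^ 2 := by nlinarith
  have hn3 : 1 - |n| ≤ 1 - n ^ 2 := by nlinarith
  have hQ' : |Q| ≤ d := hQ.trans (mul_le_of_le_one_right hd hγ)
  have h1 : |a * D3| ≤ d := by
    rw [abs_mul]
    exact (mul_le_of_le_one_left (abs_nonneg _) ha).trans hD
  have h2 : |a * Q| ≤ d := by
    rw [abs_mul]
    exact (mul_le_of_le_one_left (abs_nonneg _) ha).trans hQ'
  have h3 : |s * D3| ≤ d := by
    rw [abs_mul]
    exact (mul_le_of_le_one_left (abs_nonneg _) (hs.trans hγ)).trans hD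
  have h4 : |s * Q| ≤ γ ^ 2 * d := by
    rw [abs_mul]
    calc |s| * |Q| ≤ γ * (d * γ) := mul_le_mul hs hQ (abs_nonneg _) hγ0
      _ = γ ^ 2 * d := by ring
  have e : P + a * D3 - (-n * s + n * a) * (-n * Q + n * D3) - (a * Q + (P + s * D3)) * (|n|)
      = (1 - n ^ 2) * (a * D3 - a * Q - s * D3) - n ^ 2 * (s * Q)
        + (1 - |n|) * (a * Q + P + s * D3) := by ring
  have b1 : |(1 - n ^ 2) * (a * D3 - a * Q - s * D3)| ≤ 3 * ((1 - n ^ 2) * d) := by
    rw [abs_mul, abs_of_nonneg hW0]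
    have : |a * D3 - a * Q - s * D3| ≤ 3 * d := by
      rw [abs_le] at h1 h2 h3 ⊢
      constructor <;> linarith [h1.1, h1.2, h2.1, h2.2, h3.1, h3.2]
    nlinarith
  have b2 : |n ^ 2 * (s * Q)| ≤ (1 - n ^ 2) * d := by
    rw [abs_mul, abs_of_nonneg (sq_nonneg n), ← hW, mul_assoc]
    exact mul_le_mul_of_nonneg_left h4 (sq_nonneg n)
  have b3 : |(1 - |n|) * (a * Q + P + s * D3)| ≤ 3 * ((1 - n ^ 2) * d) := by
    rw [abs_mul, abs_of_nonneg (sub_nonneg.2 hn)]
    have : |a * Q + P + s * D3| ≤ 3 * d := by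
      rw [abs_le] at hP h2 h3 ⊢
      constructor <;> linarith [hP.1, hP.2, h2.1, h2.2, h3.1, h3.2]
    calc (1 - |n|) * |a * Q + P + s * D3| ≤ (1 - n ^ 2) * (3 * d) :=
          mul_le_mul hn3 this (abs_nonneg _) hW0
      _ = 3 * ((1 - n ^ 2) * d) := by ring
  rw [e]
  rw [abs_le] at b1 b2 b3 ⊢
  constructor <;> linarith [b1.1, b1.2, b2.1, b2.2, b3.1, b3.2]

theorem split (D : E →L[ℝ] ℝ) (A : E ≃ₗᵢ[ℝ] E) (w : ℂ) (t : ℝ) :
    D (A (pt w t)) = D (A (pt w 0)) + t * D (A e3) := by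
  have h : pt w t = pt w 0 + t • e3 := by rw [pt_add_smul_e3, zero_add]
  rw [h, map_add, map_add, map_smul, map_smul, smul_eq_mul]

theorem abs_hor (D : E →L[ℝ] ℝ) (A : E ≃ₗᵢ[ℝ] E) (w : ℂ) : |D (A (pt w 0))| ≤ ‖D‖ * ‖w‖ := by
  have h := D.le_opNorm (A (pt w 0))
  rwa [A.norm_map, norm_pt_zero, Real.norm_eq_abs] at h

theorem abs_ver (D : E →L[ℝ] ℝ) (A : E ≃ₗᵢ[ℝ] E) : |D (A e3)| ≤ ‖D‖ := by
  have h := D.le_opNorm (A e3)
  rwa [A.norm_map, norm_e3, mul_one, Real.norm_eq_abs] at h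

theorem norm_prA_le (A : E ≃ₗᵢ[ℝ] E) (x : E) : ‖prA A x‖ ≤ ‖x‖ :=
  (norm_pr_le _).trans (A.symm.norm_map x).le

theorem two_eq (A : E ≃ₗᵢ[ℝ] E) (x : E) : (A.symm x) 2 = ⟪x, A e3⟫ := by
  rw [← inner_e3, ← A.inner_map_map (A.symm x) e3, A.apply_symm_apply]

theorem inner_frame_eq (A : E ≃ₗᵢ[ℝ] E) (x y : E) :
    ⟪x, y⟫ = ⟪prA A x, prA A y⟫ + ⟪x, A e3⟫ * ⟪y, A e3⟫ := by
  rw [← A.symm.inner_map_map x y, inner_eq_pr, two_eq, two_eq]
  rfl

theorem abs_inner_e3 (A : E ≃ₗᵢ[ℝ] E) {x : E} (hx : ‖x‖ = 1) : |⟪x, A e3⟫| ≤ 1 := by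
  have h := abs_real_inner_le_norm x (A e3)
  rwa [hx, A.norm_map, norm_e3, mul_one] at h

/-- The pointwise estimate. -/
theorem ptw (D : E →L[ℝ] ℝ) (A : E ≃ₗᵢ[ℝ] E) {N a : E} {g : ℂ} (hN : ‖N‖ = 1) (ha : ‖a‖ = 1)
    (hg : ‖g‖ ≤ 1) (h : prA A N = (-⟪N, A e3⟫) • g) :
    |D a - ⟪N, a⟫ * D N - (⟪a, A e3⟫ * D (A (pt g 0)) + D (A (pt (prA A a) ⟪g, prA A a⟫)))
      * (|⟪N, A e3⟫|)| ≤ 7 * (wedge N (A e3) ^ 2 * ‖D‖) := by
  have he : ‖A e3‖ = 1 := by rw [A.norm_map, norm_e3]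
  have ha' : ‖prA A a‖ ≤ 1 := (norm_prA_le A a).trans ha.le
  have e1 : D a = D (A (pt (prA A a) 0)) + ⟪a, A e3⟫ * D (A e3) := by
    rw [← split, apply_pt_prA]
  have e2 : D N = -⟪N, A e3⟫ * D (A (pt g 0)) + ⟪N, A e3⟫ * D (A e3) := by
    have h1 : D N = D (A (pt (prA A N) 0)) + ⟪N, A e3⟫ * D (A e3) := by
      rw [← split, apply_pt_prA]
    have h2 : pt ((-⟪N, A e3⟫) • g) 0 = (-⟪N, A e3⟫) • pt g 0 := by
      rw [← pt_smul, mul_zero]
    rw [h1, h, h2, map_smul, map_smul, smul_eq_mul]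
  have e3' : ⟪N, a⟫ = -⟪N, A e3⟫ * ⟪g, prA A a⟫ + ⟪N, A e3⟫ * ⟪a, A e3⟫ := by
    rw [inner_frame_eq A N a, h, real_inner_smul_left]
  have hW : ⟪N, A e3⟫ ^ 2 * ‖g‖ ^ 2 = 1 - ⟪N, A e3⟫ ^ 2 := by
    have h1 := inner_frame_eq A N N
    rw [real_inner_self_eq_norm_sq, real_inner_self_eq_norm_sq, hN, h, norm_smul, mul_pow,
      Real.norm_eq_abs, sq_abs] at h1
    nlinarith
  rw [wedge_sq hN he, split D A (prA A a) ⟪g, prA A a⟫, e1, e2, e3']
  refine real_bd (norm_nonneg g) hg ?_ (abs_hor D A g) (abs_ver D A) ?_ (abs_inner_e3 A ha)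
    (abs_inner_e3 A hN) hW
  · exact (abs_hor D A _).trans (mul_le_of_le_one_right (norm_nonneg _) ha')
  · exact (abs_real_inner_le_norm _ _).trans (mul_le_of_le_one_right (norm_nonneg _) ha')

theorem prA_grf (A : E ≃ₗᵢ[ℝ] E) (c : ℝ) (v : ℂ → ℝ) (y : ℂ) : prA A (grf A c v y) = y :=
  prA_apply_pt A y _

theorem lip_grf {A : E ≃ₗᵢ[ℝ] E} {c σ : ℝ} {v : ℂ → ℝ} (hv : ∀ y z, |v y - v z| ≤ σ * ‖y - z‖)
    (hσ : σ ≤ 1 / 2) (y z : ℂ) : ‖grf A c v y - grf A c v z‖ ≤ 2 * ‖y - z‖ := by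
  unfold grf
  rw [← map_sub, A.norm_map, ← pt_sub]
  refine (norm_le_pr_add _).trans ?_
  rw [pr_pt, pt_two, add_sub_add_right_eq_sub]
  have h1 := hv y z
  have h2 := norm_nonneg (y - z)
  nlinarith

theorem lip_comp {A : E ≃ₗᵢ[ℝ] E} {c σ L : ℝ} {v : ℂ → ℝ} {ζ : E → ℝ}
    (hv : ∀ y z, |v y - v z| ≤ σ * ‖y - z‖) (hσ : σ ≤ 1 / 2) (hζ : ContDiff ℝ 1 ζ)
    (hL : ∀ x, ‖fderiv ℝ ζ x‖ ≤ L) :
    LipschitzWith (2 * L).toNNReal fun y => ζ (grf A c v y) := by
  have hL0 : 0 ≤ L := (norm_nonneg _).trans (hL 0)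
  refine LipschitzWith.of_dist_le' fun y z => ?_
  have h1 : ‖ζ (grf A c v y) - ζ (grf A c v z)‖ ≤ L * ‖grf A c v y - grf A c v z‖ :=
    convex_univ.norm_image_sub_le_of_norm_fderiv_le
      (fun x _ => hζ.differentiable one_ne_zero x) (fun x _ => hL x) (mem_univ _) (mem_univ _)
  rw [dist_eq_norm, dist_eq_norm]
  have h2 := mul_le_mul_of_nonneg_left (lip_grf (A := A) (c := c) hv hσ y z) hL0
  linarith

theorem hasFDerivAt_grf (A : E ≃ₗᵢ[ℝ] E) (c : ℝ) {v : ℂ → ℝ} {g y : ℂ}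
    (h : HasGradientAt v g y) :
    HasFDerivAt (grf A c v) ((A.toContinuousLinearEquiv : E →L[ℝ] E).comp (ptL.comp
      ((ContinuousLinearMap.id ℝ ℂ).prod (InnerProductSpace.toDual ℝ ℂ g)))) y := by
  have h1 : HasFDerivAt (fun z : ℂ => (z, v z + c))
      ((ContinuousLinearMap.id ℝ ℂ).prod (InnerProductSpace.toDual ℝ ℂ g)) y :=
    (hasFDerivAt_id y).prodMk (h.hasFDerivAt.add_const c)
  exact (A.toContinuousLinearEquiv : E →L[ℝ] E).hasFDerivAt.comp y (ptL.hasFDerivAt.comp y h1)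

theorem lineDeriv_eq (A : E ≃ₗᵢ[ℝ] E) (c : ℝ) {v : ℂ → ℝ} {g y : ℂ} {ζ : E → ℝ}
    (hζ : ContDiff ℝ 1 ζ) (h : HasGradientAt v g y) (w : ℂ) :
    lineDeriv ℝ (fun z => ζ (grf A c v z)) y w =
      fderiv ℝ ζ (grf A c v y) (A (pt w ⟪g, w⟫)) := by
  have h1 := ((hζ.differentiable one_ne_zero (grf A c v y)).hasFDerivAt.comp y
    (hasFDerivAt_grf A c h)).hasLineDerivAt w
  exact h1.lineDeriv

/-- The integral of a line derivative over a set that almost covers the support. -/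
theorem int_line {Z : ℂ → ℝ} {K D B : Set ℂ} {C κ : ℝ} (hC : 0 ≤ C) (hκ : 0 ≤ κ)
    (hZ : LipschitzWith C.toNNReal Z) (hK : IsCompact K) (h0 : ∀ y, y ∉ K → Z y = 0)
    (hKB : K ⊆ B) (hD : MeasurableSet D)
    (hc : volume (B \ D) ≤ ENNReal.ofReal κ) {w : ℂ} (hw : ‖w‖ ≤ 1) :
    |∫ y in D, lineDeriv ℝ Z y w| ≤ C * κ := by
  have hbd : ∀ (u : ℂ) (y : ℂ), ‖lineDeriv ℝ Z y u‖ ≤ C * ‖u‖ := fun u y => by
    have := norm_lineDeriv_le_of_lipschitz ℝ (x₀ := y) (v := u) hZ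
    rwa [Real.coe_toNNReal C hC] at this
  have hz : ∀ y, y ∉ K → lineDeriv ℝ Z y w = 0 := by
    intro y hy
    have he : Z =ᶠ[𝓝 y] fun _ => (0 : ℝ) :=
      Filter.mem_of_superset (hK.isClosed.isOpen_compl.mem_nhds hy) fun z hz => h0 z hz
    rw [he.lineDeriv_eq]
    exact ((hasFDerivAt_const (0 : ℝ) y).hasLineDerivAt w).lineDeriv
  have hm : Measurable fun y => lineDeriv ℝ Z y w := measurable_lineDeriv hZ.continuous
  have hint : Integrable fun y => lineDeriv ℝ Z y w := by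
    have h1 : IntegrableOn (fun y => lineDeriv ℝ Z y w) K :=
      Measure.integrableOn_of_bounded hK.measure_lt_top.ne hm.aestronglyMeasurable
        (Eventually.of_forall fun y => hbd w y)
    exact (integrableOn_iff_integrable_of_support_subset fun y hy => by
      by_contra hn
      exact hy (hz y hn)).1 h1
  have htot : ∫ y, lineDeriv ℝ Z y w = 0 := by
    have h1 := LipschitzWith.integral_lineDeriv_mul_eq (μ := (volume : Measure ℂ))
      (LipschitzWith.const (1 : ℝ)) hZ (HasCompactSupport.intro hK h0) (-w)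
    have h2 : ∀ y : ℂ, lineDeriv ℝ (fun _ : ℂ => (1 : ℝ)) y (-w) = 0 := fun y =>
      ((hasFDerivAt_const (1 : ℝ) y).hasLineDerivAt (-w)).lineDeriv
    simp only [h2, zero_mul, integral_zero, neg_neg, mul_one] at h1
    exact h1.symm
  have hsp := integral_add_compl hD hint
  have hcomp : ∫ y in Dᶜ, lineDeriv ℝ Z y w = ∫ y in B \ D, lineDeriv ℝ Z y w := by
    refine setIntegral_eq_of_subset_of_forall_sdiff_eq_zero hD.compl (fun y hy => hy.2) ?_
    intro y hy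
    refine hz y fun hk => hy.2 ⟨hKB hk, hy.1⟩
  have hlt : volume (B \ D) < ∞ := hc.trans_lt ENNReal.ofReal_lt_top
  have hle : ‖∫ y in B \ D, lineDeriv ℝ Z y w‖ ≤ C * volume.real (B \ D) :=
    norm_setIntegral_le_of_norm_le_const hlt fun y _ =>
      (hbd w y).trans (mul_le_of_le_one_right hC hw)
  have hr : volume.real (B \ D) ≤ κ := ENNReal.toReal_le_of_le_ofReal hκ hc
  have e : ∫ y in D, lineDeriv ℝ Z y w = -∫ y in B \ D, lineDeriv ℝ Z y w := by
    rw [← hcomp]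
    linarith
  rw [e, abs_neg, ← Real.norm_eq_abs]
  exact hle.trans (mul_le_mul_of_nonneg_left hr hC)

theorem meas_H {Γ : ℂ → E} {ζ : E → ℝ} {u : ℂ → E} (hζ : ContDiff ℝ 1 ζ) (hΓ : Continuous Γ)
    (hu : Measurable u) : Measurable fun y => fderiv ℝ ζ (Γ y) (u y) := by
  have h1 : Continuous fun q : ℂ × E => fderiv ℝ ζ (Γ q.1) q.2 :=
    ((hζ.continuous_fderiv one_ne_zero).comp (hΓ.comp continuous_fst)).clm_apply continuous_snd
  exact h1.measurable.comp (measurable_id.prodMk hu)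

theorem mu_lt {M : Surf} (hM : M.Mem) {G : Set E} (hG : Bornology.IsBounded G) : M.μ G < ∞ := by
  obtain ⟨R, hR⟩ := hG.subset_closedBall (0 : E)
  exact (measure_mono hR).trans_lt (M.mu_lt_top (isCompact_closedBall _ _) (by
    rw [hM.univ]; exact subset_univ _))

end SHEET

open SHEET in
theorem c_sheet_of (hARG : C_ARG) (hGRAPH : C_GRAPH) : C_SHEET := by
  refine ⟨7, by norm_num, ?_⟩
  intro M A c G v σ h κ p ρ ζ L a hM H hσ hκ hζ hsupp hL ha
  obtain ⟨hGm, hGS, hinj, hgr, -, hΓ, hgm, -, hgb, -⟩ := H.basic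
  have he : ‖A e3‖ = 1 := by rw [A.norm_map, norm_e3]
  have hL0 : 0 ≤ L := (norm_nonneg _).trans (hL 0)
  have hn : ∀ x ∈ G, ⟪M.N x, A e3⟫ ≠ 0 := by
    intro x hx h0
    have h1 := wedge_sq (M.N_unit x (hGS hx)) he
    have h2 := H.nrm x hx
    have h3 := wedge_nonneg (M.N x) (A e3)
    rw [h0] at h1
    nlinarith
  obtain ⟨-, hgrad, -⟩ := hGRAPH M A c G v H.opn hn H.gr
  obtain ⟨hDm, hDv, harea⟩ := hARG M A G hGm hGS hinj
  have hμ : M.μ G < ∞ := mu_lt hM H.bdd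
  have hDlt : volume (prA A '' G) < ∞ := hDv.trans_lt hμ
  have ha' : ‖prA A a‖ ≤ 1 := (norm_prA_le A a).trans ha.le
  have hg1 : ∀ y, ‖gradient v y‖ ≤ 1 := fun y => (hgb y).trans (by linarith)
  set H1 : ℂ → ℝ := fun y => fderiv ℝ ζ (grf A c v y) (A (pt (gradient v y) 0)) with hH1
  set H2 : ℂ → ℝ := fun y =>
    fderiv ℝ ζ (grf A c v y) (A (pt (prA A a) ⟪gradient v y, prA A a⟫)) with hH2
  have m1 : Measurable H1 := by
    refine meas_H hζ hΓ ?_
    have : Continuous fun w : ℂ => A (pt w 0) :=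
      A.continuous.comp (Continuous.pt' continuous_id continuous_const)
    exact this.measurable.comp hgm
  have m2 : Measurable H2 := by
    refine meas_H hζ hΓ ?_
    have : Continuous fun w : ℂ => A (pt (prA A a) ⟪w, prA A a⟫) :=
      A.continuous.comp (Continuous.pt' continuous_const (continuous_id.inner continuous_const))
    exact this.measurable.comp hgm
  have i1 : IntegrableOn H1 (prA A '' G) := by
    refine Measure.integrableOn_of_bounded (M := L) hDlt.ne m1.aestronglyMeasurable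
      (Eventually.of_forall fun y => ?_)
    refine (abs_hor _ A _).trans ?_
    exact (mul_le_of_le_one_right (norm_nonneg _) (hg1 y)).trans (hL _)
  have i2 : IntegrableOn H2 (prA A '' G) := by
    refine Measure.integrableOn_of_bounded (M := L + L) hDlt.ne m2.aestronglyMeasurable
      (Eventually.of_forall fun y => ?_)
    change |fderiv ℝ ζ (grf A c v y) (A (pt (prA A a) ⟪gradient v y, prA A a⟫))| ≤ L + L
    rw [split]
    refine (abs_add_le _ _).trans (add_le_add ?_ ?_)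
    · exact (abs_hor _ A _).trans ((mul_le_of_le_one_right (norm_nonneg _) ha').trans (hL _))
    · rw [abs_mul]
      have h1 : |⟪gradient v y, prA A a⟫| ≤ 1 := (abs_real_inner_le_norm _ _).trans
        ((mul_le_of_le_one_right (norm_nonneg _) ha').trans (hg1 y))
      exact (mul_le_of_le_one_left (abs_nonneg _) h1).trans ((abs_ver _ A).trans (hL _))
  have mH : Measurable fun y => ⟪a, A e3⟫ * H1 y + H2 y := (m1.const_mul _).add m2
  have iH : IntegrableOn (fun y => ⟪a, A e3⟫ * H1 y + H2 y) (prA A '' G) :=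
    Integrable.add (i1.const_mul _) i2
  obtain ⟨hI, hE⟩ := harea _ mH
  have iG := hI.1 iH
  have hK : IsCompact (tsupport ζ) :=
    isCompact_of_isClosed_isBounded (isClosed_tsupport ζ) (isBounded_ball.subset hsupp)
  have hline : |∫ y in prA A '' G, H2 y| ≤ 2 * L * κ := by
    have e : ∫ y in prA A '' G, H2 y =
        ∫ y in prA A '' G, lineDeriv ℝ (fun z => ζ (grf A c v z)) y (prA A a) := by
      refine setIntegral_congr_fun hDm ?_
      rintro _ ⟨x, hx, rfl⟩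
      have h1 := hgrad x hx
      have h2 := lineDeriv_eq A c hζ h1 (prA A a)
      rw [← h1.gradient] at h2
      exact h2.symm
    rw [e]
    refine int_line (K := prA A '' tsupport ζ) (B := ball (prA A p) ρ) (by positivity) hκ
      (lip_comp H.lip hσ hζ hL) (hK.image (continuous_prA A)) ?_ ?_ hDm
      H.cover ha'
    · intro y hy
      by_contra hne
      exact hy ⟨_, subset_tsupport ζ hne, prA_grf A c v y⟩
    · rintro _ ⟨x, hx, rfl⟩
      have h1 := hsupp hx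
      rw [mem_ball, dist_eq_norm] at h1 ⊢
      exact (norm_prA_sub_le A x p).trans_lt h1
  have cD : Continuous (fderiv ℝ ζ) := hζ.continuous_fderiv one_ne_zero
  have mF : Measurable fun x => fderiv ℝ ζ x a - ⟪M.N x, a⟫ * fderiv ℝ ζ x (M.N x) := by
    have h1 : Continuous fun q : E × E => fderiv ℝ ζ q.1 a - ⟪q.2, a⟫ * fderiv ℝ ζ q.1 q.2 :=
      ((cD.comp continuous_fst).clm_apply continuous_const).sub
        ((continuous_snd.inner continuous_const).mul
          ((cD.comp continuous_fst).clm_apply continuous_snd))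
    exact h1.measurable.comp (measurable_id.prodMk M.N_meas)
  have iF : IntegrableOn (fun x => fderiv ℝ ζ x a - ⟪M.N x, a⟫ * fderiv ℝ ζ x (M.N x)) G M.μ := by
    refine Measure.integrableOn_of_bounded (M := L + L) hμ.ne mF.aestronglyMeasurable ?_
    refine (ae_restrict_iff' hGm).2 (Eventually.of_forall fun x hx => ?_)
    have hN := M.N_unit x (hGS hx)
    refine (norm_sub_le _ _).trans (add_le_add ?_ ?_)
    · have := (fderiv ℝ ζ x).le_opNorm a
      rw [ha, mul_one] at this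
      exact this.trans (hL x)
    · rw [norm_mul]
      have h1 : ‖⟪M.N x, a⟫‖ ≤ 1 := by
        have := norm_inner_le_norm (𝕜 := ℝ) (M.N x) a
        rwa [hN, ha, mul_one] at this
      have h2 := (fderiv ℝ ζ x).le_opNorm (M.N x)
      rw [hN, mul_one] at h2
      exact (mul_le_of_le_one_left (norm_nonneg _) h1).trans (h2.trans (hL x))
  have mW : Measurable fun x => wedge (M.N x) (A e3) ^ 2 * ‖fderiv ℝ ζ x‖ := by
    have h0 : Continuous fun n : E => wedge n (A e3) ^ 2 := by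
      unfold wedge
      fun_prop
    exact (h0.measurable.comp M.N_meas).mul cD.norm.measurable
  have iW : IntegrableOn (fun x => wedge (M.N x) (A e3) ^ 2 * ‖fderiv ℝ ζ x‖) G M.μ := by
    refine Measure.integrableOn_of_bounded (M := L) hμ.ne mW.aestronglyMeasurable ?_
    refine (ae_restrict_iff' hGm).2 (Eventually.of_forall fun x hx => ?_)
    have h1 := wedge_le_one (M.N_unit x (hGS hx)) he
    have h2 := wedge_nonneg (M.N x) (A e3)
    rw [Real.norm_eq_abs, abs_of_nonneg (by positivity)]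
    exact (mul_le_of_le_one_left (norm_nonneg _) (pow_le_one₀ h2 h1)).trans (hL x)
  have hmain : |∫ x in G, ((fderiv ℝ ζ x a - ⟪M.N x, a⟫ * fderiv ℝ ζ x (M.N x)) -
      (⟪a, A e3⟫ * H1 (prA A x) + H2 (prA A x)) * |⟪M.N x, A e3⟫|) ∂M.μ|
      ≤ 7 * ∫ x in G, wedge (M.N x) (A e3) ^ 2 * ‖fderiv ℝ ζ x‖ ∂M.μ := by
    rw [← integral_const_mul, ← Real.norm_eq_abs]
    refine norm_integral_le_of_norm_le (iW.const_mul 7) ?_
    refine (ae_restrict_iff' hGm).2 (Eventually.of_forall fun x hx => ?_)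
    have h1 := (hgrad x hx).gradient
    have h2 : prA A (M.N x) = (-⟪M.N x, A e3⟫) • gradient v (prA A x) := by
      rw [h1, smul_smul, neg_mul_neg, mul_inv_cancel₀ (hn x hx), one_smul]
    have h3 := ptw (fderiv ℝ ζ x) A (M.N_unit x (hGS hx)) ha (hg1 _) h2
    simp only [hH1, hH2, hgr x hx]
    exact h3
  rw [integral_sub iF iG, hE, integral_add (i1.const_mul _) i2, integral_const_mul] at hmain
  have hI1 : mainI A c G v ζ = ∫ y in prA A '' G, H1 y := rfl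
  rw [hI1]
  have hκL : 0 ≤ κ * L := mul_nonneg hκ hL0
  rw [abs_le] at hmain hline ⊢
  constructor <;> nlinarith [hmain.1, hmain.2, hline.1, hline.2]

end MW.CI
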